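import Pool.Agent.GC18.Basics

/-!
# Grassmann convexity (MP_5fea31_an): linear algebra with maximal minors   (helper18)

* `det_mul_expand` : `det (Γ X) = ∑_I (∏_i Γ_{i,I i}) det (X_I)` (sum over all functions `I`)
* `VanInf_mul_upper` : invariance under upper triangular matrices
* `exists_echelon_top`, `exists_echelon_bot` : column echelon forms (first / last nonzero indices)
* smoothness of `DR`, `DC`, `DC (toC X) = DR X`
-/

set_option autoImplicit false

namespace Pool.Agent.GC18

open Matrix Filter Topology Set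

section alg
variable {𝕜 : Type*} [Field 𝕜] {n k : ℕ}

lemma det_mul_expand (Γ : Matrix (Fin k) (Fin n) 𝕜) (X : Matrix (Fin n) (Fin k) 𝕜) :
    (Γ * X).det = ∑ I : Fin k → Fin n, (∏ i, Γ i (I i)) * (X.submatrix I id).det := by
  have h1 : (Γ * X) = fun i => ∑ j : Fin n, Γ i j • X j := by
    funext i c
    simp [Matrix.mul_apply, Finset.sum_apply]
  have h2 : (Γ * X).det = (Matrix.detRowAlternating (n := Fin k) (R := 𝕜)).toMultilinearMap
      (fun i => ∑ j : Fin n, Γ i j • X j) := by
    rw [h1]; rfl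
  rw [h2, MultilinearMap.map_sum]
  refine Finset.sum_congr rfl fun I _ => ?_
  rw [MultilinearMap.map_smul_univ]
  rfl

lemma det_submatrix_mul (U : Matrix (Fin n) (Fin n) 𝕜) (X : Matrix (Fin n) (Fin k) 𝕜)
    (I : Fin k → Fin n) : ((U * X).submatrix I id).det =
      ∑ J : Fin k → Fin n, (∏ i, U (I i) (J i)) * (X.submatrix J id).det := by
  have : (U * X).submatrix I id = (U.submatrix I id) * X := by
    ext i c; simp [Matrix.mul_apply]
  rw [this, det_mul_expand]
  rfl

lemma det_submatrix_mul_right (X : Matrix (Fin n) (Fin k) 𝕜) (C : Matrix (Fin k) (Fin k) 𝕜)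
    (I : Fin k → Fin n) : ((X * C).submatrix I id).det = (X.submatrix I id).det * C.det := by
  have : (X * C).submatrix I id = (X.submatrix I id) * C := by
    ext i c; simp [Matrix.mul_apply]
  rw [this, Matrix.det_mul]

/-- `z_∞ ≥ r` is invariant under upper triangular matrices -/
lemma VanInf_mul_upper {r : ℕ} {X : Matrix (Fin n) (Fin k) 𝕜} (h : VanInf r X)
    (U : Matrix (Fin n) (Fin n) 𝕜) (hU : ∀ i j, j < i → U i j = 0) : VanInf r (U * X) := by
  intro I hI
  rw [det_submatrix_mul]
  apply Finset.sum_eq_zero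
  intro J _
  by_cases hJ : ∀ i, I i ≤ J i
  · rw [h J, mul_zero]
    refine lt_of_lt_of_le hI (Nat.add_le_add_right ?_ r)
    exact Finset.sum_le_sum fun i _ => hJ i
  · push Not at hJ
    obtain ⟨i, hi⟩ := hJ
    rw [Finset.prod_eq_zero (Finset.mem_univ i) (hU _ _ hi), zero_mul]

lemma VanInf_mul_right {r : ℕ} {X : Matrix (Fin n) (Fin k) 𝕜} (h : VanInf r X)
    (C : Matrix (Fin k) (Fin k) 𝕜) : VanInf r (X * C) := by
  intro I hI
  rw [det_submatrix_mul_right, h I hI, zero_mul]

lemma VanInf.mono {r r' : ℕ} {X : Matrix (Fin n) (Fin k) 𝕜} (h : VanInf r X) (hr : r' ≤ r) :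
    VanInf r' X := fun I hI => h I (by omega)

lemma VanInf_zero (X : Matrix (Fin n) (Fin k) 𝕜) : VanInf 0 X := by
  intro I hI
  by_contra hdet
  have hinj : Function.Injective I := by
    intro i j hij
    by_contra hne
    exact hdet (Matrix.det_zero_of_row_eq hne (by funext c; simp [hij]))
  -- the sum of `k` distinct elements of `Fin n` is at most the sum of the top `k`
  have hcard : k ≤ n := by simpa using Fintype.card_le_of_injective I hinj
  have : (∑ i, (I i : ℕ)) ≤ ∑ i : Fin k, (n - k + (i : ℕ)) := by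
    -- reflect: distinct numbers `n-1-I i` have sum `≥ 0+..+(k-1)`
    have h0 : ∀ s : Finset ℕ, ∑ i ∈ Finset.range s.card, i ≤ ∑ i ∈ s, i := by
      intro s
      induction hs : s.card generalizing s with
      | zero => simp
      | succ c ih =>
        have hne : s.Nonempty := by rw [← Finset.card_pos]; omega
        set M := s.max' hne
        have hM : M ∈ s := Finset.max'_mem s hne
        have hc : (s.erase M).card = c := by rw [Finset.card_erase_of_mem hM]; omega
        have := ih (s.erase M) hc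
        rw [Finset.sum_range_succ, ← Finset.sum_erase_add _ _ hM]
        have hcM : c ≤ M := by
          have hsub : s ⊆ Finset.range (M + 1) := fun x hx =>
            Finset.mem_range.2 (Nat.lt_succ_of_le (Finset.le_max' s x hx))
          have := Finset.card_le_card hsub
          rw [Finset.card_range] at this
          omega
        exact Nat.add_le_add this hcM
    have h1 := h0 (Finset.univ.image fun i : Fin k => n - 1 - (I i : ℕ))
    have hinj2 : Function.Injective (fun i : Fin k => n - 1 - (I i : ℕ)) := by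
      intro i j hij
      apply hinj
      apply Fin.ext
      have := (I i).2; have := (I j).2
      simp only at hij
      omega
    rw [Finset.card_image_of_injective _ hinj2, Finset.card_univ, Fintype.card_fin,
      Finset.sum_image (fun x _ y _ h => hinj2 h)] at h1
    have h2 : (∑ i, (I i : ℕ)) + ∑ i : Fin k, (n - 1 - (I i : ℕ)) = k * (n - 1) := by
      rw [← Finset.sum_add_distrib]
      have : ∀ i : Fin k, (I i : ℕ) + (n - 1 - (I i : ℕ)) = n - 1 := fun i => by
        have := (I i).2; omega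
      simp [this]
    have h3 : (∑ i : Fin k, (n - k + (i : ℕ))) + ∑ i ∈ Finset.range k, i = k * (n - 1) := by
      rw [Finset.sum_add_distrib, Finset.sum_const, Finset.card_univ, Fintype.card_fin, smul_eq_mul,
        Fin.sum_univ_eq_sum_range (fun i => i) k]
      have hg := Finset.sum_range_id_mul_two k
      obtain ⟨m, rfl⟩ := Nat.exists_eq_add_of_le hcard
      have hkm : k + m - k = m := by omega
      rw [hkm]
      cases k with
      | zero => simp
      | succ k' =>
        have e1 : k' + 1 + m - 1 = k' + m := by omega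
        have e2 : k' + 1 - 1 = k' := by omega
        rw [e1]; rw [e2] at hg
        nlinarith [hg]
    omega
  omega

/-- the rows `I` of `Y C` are the identity if `C = (Y_I)^{-1}` -/
lemma submatrix_mul_inv (Y : Matrix (Fin n) (Fin k) 𝕜) (I : Fin k → Fin n)
    (h : (Y.submatrix I id).det ≠ 0) (i c : Fin k) :
    (Y * (Y.submatrix I id)⁻¹) (I i) c = if i = c then 1 else 0 := by
  have h1 : (Y.submatrix I id) * (Y.submatrix I id)⁻¹ = 1 :=
    Matrix.mul_nonsing_inv _ (isUnit_iff_ne_zero.2 h)
  have h2 := congrFun (congrFun h1 i) c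
  rw [Matrix.one_apply] at h2
  rw [← h2]
  simp [Matrix.mul_apply]

/-- replacing the row `c` of the identity by `r` : the determinant is `r c` -/
lemma det_updateRow_one (c : Fin k) (r : Fin k → 𝕜) :
    ((1 : Matrix (Fin k) (Fin k) 𝕜).updateRow c r).det = r c := by
  have h : r = ∑ j, r j • (1 : Matrix (Fin k) (Fin k) 𝕜) j := by
    funext x
    simp [Finset.sum_apply, Matrix.one_apply]
  have h2 := Matrix.det_updateRow_sum (1 : Matrix (Fin k) (Fin k) 𝕜) c r
  have h3 : (∑ j, r j • (1 : Matrix (Fin k) (Fin k) 𝕜) j) = r := h.symm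
  rw [h3] at h2
  rw [h2]; simp

/-- column echelon form with respect to the FIRST nonzero entries -/
lemma exists_echelon_top {Y : Matrix (Fin n) (Fin k) 𝕜} (hY : Full Y) :
    ∃ (I : Fin k → Fin n) (C : Matrix (Fin k) (Fin k) 𝕜), Function.Injective I ∧ C.det ≠ 0 ∧
      (Y.submatrix I id).det ≠ 0 ∧
      (∀ i c, (Y * C) (I i) c = if i = c then 1 else 0) ∧ (∀ j c, j < I c → (Y * C) j c = 0) := by
  classical
  -- choose `I` with minimal sum
  have hex : ∃ s : ℕ, ∃ I : Fin k → Fin n, (Y.submatrix I id).det ≠ 0 ∧ (∑ i, (I i : ℕ)) = s := by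
    obtain ⟨I, hI⟩ := hY
    exact ⟨_, I, hI, rfl⟩
  obtain ⟨I, hI, hs⟩ := Nat.find_spec hex
  have hmin : ∀ J : Fin k → Fin n, (Y.submatrix J id).det ≠ 0 → (∑ i, (I i : ℕ)) ≤ ∑ i, (J i : ℕ) := by
    intro J hJ
    rw [hs]
    exact Nat.find_min' hex ⟨J, hJ, rfl⟩
  have hinj : Function.Injective I := by
    intro i j hij
    by_contra hne
    exact hI (Matrix.det_zero_of_row_eq hne (by funext c; simp [hij]))
  refine ⟨I, (Y.submatrix I id)⁻¹, hinj, ?_, hI, fun i c => submatrix_mul_inv Y I hI i c, ?_⟩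
  · rw [Matrix.det_nonsing_inv]
    simpa using hI
  · intro j c hjc
    by_contra hne
    -- replace `I c` by `j`
    have h1 : ((Y * (Y.submatrix I id)⁻¹).submatrix (Function.update I c j) id) =
        (1 : Matrix (Fin k) (Fin k) 𝕜).updateRow c (fun x => (Y * (Y.submatrix I id)⁻¹) j x) := by
      ext i x
      by_cases hic : i = c
      · subst hic; simp [Matrix.updateRow_self]
      · rw [Matrix.updateRow_ne hic, Matrix.submatrix_apply, Function.update_of_ne hic]
        simp only [id]
        rw [submatrix_mul_inv Y I hI, Matrix.one_apply]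
    have h2 : (Y.submatrix (Function.update I c j) id).det ≠ 0 := by
      intro h0
      have h3 := det_submatrix_mul_right Y (Y.submatrix I id)⁻¹ (Function.update I c j)
      rw [h0, zero_mul, h1, det_updateRow_one] at h3
      exact hne h3
    have h4 := hmin _ h2
    have h5 : (∑ i, ((Function.update I c j i : Fin n) : ℕ)) + (I c : ℕ) = (∑ i, (I i : ℕ)) + (j : ℕ) := by
      rw [← Finset.add_sum_erase _ _ (Finset.mem_univ c), ← Finset.add_sum_erase _ (fun i => (I i : ℕ)) (Finset.mem_univ c)]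
      have : ∑ i ∈ Finset.univ.erase c, ((Function.update I c j i : Fin n) : ℕ) =
          ∑ i ∈ Finset.univ.erase c, (I i : ℕ) := by
        refine Finset.sum_congr rfl fun i hi => ?_
        rw [Function.update_of_ne (Finset.ne_of_mem_erase hi)]
      rw [this]; simp; ring
    have h6 : (j : ℕ) < I c := hjc
    omega

/-- column echelon form with respect to the LAST nonzero entries (pivots at infinity) -/
lemma exists_echelon_bot {Y : Matrix (Fin n) (Fin k) 𝕜} (hY : Full Y) :
    ∃ (I : Fin k → Fin n) (C : Matrix (Fin k) (Fin k) 𝕜), Function.Injective I ∧ C.det ≠ 0 ∧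
      (Y.submatrix I id).det ≠ 0 ∧
      (∀ J : Fin k → Fin n, (Y.submatrix J id).det ≠ 0 → (∑ i, (J i : ℕ)) ≤ ∑ i, (I i : ℕ)) ∧
      (∀ i c, (Y * C) (I i) c = if i = c then 1 else 0) ∧ (∀ j c, I c < j → (Y * C) j c = 0) := by
  classical
  have hex : ∃ I : Fin k → Fin n, (Y.submatrix I id).det ≠ 0 ∧
      ∀ J : Fin k → Fin n, (Y.submatrix J id).det ≠ 0 → (∑ i, (J i : ℕ)) ≤ ∑ i, (I i : ℕ) := by
    obtain ⟨I, hI, hmax⟩ := Finset.exists_max_image
      (Finset.univ.filter fun I : Fin k → Fin n => (Y.submatrix I id).det ≠ 0) (fun I => ∑ i, (I i : ℕ))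
      (by obtain ⟨I, hI⟩ := hY; exact ⟨I, by simpa using hI⟩)
    refine ⟨I, (Finset.mem_filter.1 hI).2, fun J hJ => hmax J (by simpa using hJ)⟩
  obtain ⟨I, hI, hmax⟩ := hex
  have hinj : Function.Injective I := by
    intro i j hij
    by_contra hne
    exact hI (Matrix.det_zero_of_row_eq hne (by funext c; simp [hij]))
  refine ⟨I, (Y.submatrix I id)⁻¹, hinj, ?_, hI, hmax, fun i c => submatrix_mul_inv Y I hI i c, ?_⟩
  · rw [Matrix.det_nonsing_inv]
    simpa using hI
  · intro j c hjc
    by_contra hne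
    have h1 : ((Y * (Y.submatrix I id)⁻¹).submatrix (Function.update I c j) id) =
        (1 : Matrix (Fin k) (Fin k) 𝕜).updateRow c (fun x => (Y * (Y.submatrix I id)⁻¹) j x) := by
      ext i x
      by_cases hic : i = c
      · subst hic; simp [Matrix.updateRow_self]
      · rw [Matrix.updateRow_ne hic, Matrix.submatrix_apply, Function.update_of_ne hic]
        simp only [id]
        rw [submatrix_mul_inv Y I hI, Matrix.one_apply]
    have h2 : (Y.submatrix (Function.update I c j) id).det ≠ 0 := by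
      intro h0
      have h3 := det_submatrix_mul_right Y (Y.submatrix I id)⁻¹ (Function.update I c j)
      rw [h0, zero_mul, h1, det_updateRow_one] at h3
      exact hne h3
    have h4 := hmax _ h2
    have h5 : (∑ i, ((Function.update I c j i : Fin n) : ℕ)) + (I c : ℕ) = (∑ i, (I i : ℕ)) + (j : ℕ) := by
      rw [← Finset.add_sum_erase _ _ (Finset.mem_univ c), ← Finset.add_sum_erase _ (fun i => (I i : ℕ)) (Finset.mem_univ c)]
      have : ∑ i ∈ Finset.univ.erase c, ((Function.update I c j i : Fin n) : ℕ) =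
          ∑ i ∈ Finset.univ.erase c, (I i : ℕ) := by
        refine Finset.sum_congr rfl fun i hi => ?_
        rw [Function.update_of_ne (Finset.ne_of_mem_erase hi)]
      rw [this]; simp; ring
    have h6 : (I c : ℕ) < j := hjc
    omega

lemma Full.mul_right {X : Matrix (Fin n) (Fin k) 𝕜} (h : Full X) {C : Matrix (Fin k) (Fin k) 𝕜}
    (hC : C.det ≠ 0) : Full (X * C) := by
  obtain ⟨I, hI⟩ := h
  exact ⟨I, by rw [det_submatrix_mul_right]; exact mul_ne_zero hI hC⟩

lemma Full.mul_left {X : Matrix (Fin n) (Fin k) 𝕜} (h : Full X) {U : Matrix (Fin n) (Fin n) 𝕜}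
    (hU : U.det ≠ 0) : Full (U * X) := by
  by_contra hn
  unfold Full at hn
  push Not at hn
  obtain ⟨I, hI⟩ := h
  apply hI
  have : X = U⁻¹ * (U * X) := by
    rw [← Matrix.mul_assoc, Matrix.nonsing_inv_mul _ (isUnit_iff_ne_zero.2 hU), Matrix.one_mul]
  rw [this, det_submatrix_mul]
  exact Finset.sum_eq_zero fun J _ => by rw [hn J, mul_zero]

lemma Full_Xinf {m k : ℕ} (x : Fin (m * k) → 𝕜) : Full (Xinf x : Matrix (Fin (m + k)) (Fin k) 𝕜) := by
  refine ⟨fun i => Fin.natAdd m i, ?_⟩
  have : (Xinf x).submatrix (fun i : Fin k => Fin.natAdd m i) id = (1 : Matrix (Fin k) (Fin k) 𝕜) := by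
    ext i c
    simp [Xinf, Matrix.one_apply]
  rw [this]; simp

end alg

section real

lemma toC_mul {a b c : Type*} [Fintype b] (M : Matrix a b ℝ) (N : Matrix b c ℝ) :
    toC (M * N) = toC M * toC N := by
  ext i j
  simp [toC, Matrix.mul_apply]

lemma toC_det {k : ℕ} (M : Matrix (Fin k) (Fin k) ℝ) : (toC M).det = (M.det : ℂ) := by
  have := (RingHom.map_det Complex.ofRealHom M).symm
  rw [RingHom.mapMatrix_apply] at this
  exact this

lemma DC_toC (v : ℕ → ℝ → ℝ) {n p : ℕ} (X : Matrix (Fin n) (Fin p) ℝ) (t : ℝ) :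
    DC v (toC X) t = (DR v X t : ℂ) := by
  rw [DC, DR, ← toC_mul, toC_det]

lemma toC_Xinf {m k : ℕ} (x : Fin (m * k) → ℝ) :
    toC (Xinf x : Matrix (Fin (m + k)) (Fin k) ℝ) = Xinf (fun i => (x i : ℂ)) := by
  ext i c
  simp only [toC, Xinf, Matrix.map_apply, Matrix.of_apply]
  refine Fin.addCases (fun a => ?_) (fun b => ?_) i
  · simp
  · simp only [Fin.addCases_right]; split_ifs <;> simp

lemma DC_expand (v : ℕ → ℝ → ℝ) {n k : ℕ} (X : Matrix (Fin n) (Fin k) ℂ) (t : ℝ) :
    DC v X t = ∑ I : Fin k → Fin n, ((∏ i : Fin k, ge v i (I i) t : ℝ) : ℂ) * (X.submatrix I id).det := by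
  rw [DC, det_mul_expand]
  refine Finset.sum_congr rfl fun I _ => ?_
  congr 1
  simp [toC, Gam]

lemma DR_expand (v : ℕ → ℝ → ℝ) {n k : ℕ} (X : Matrix (Fin n) (Fin k) ℝ) (t : ℝ) :
    DR v X t = ∑ I : Fin k → Fin n, (∏ i : Fin k, ge v i (I i) t) * (X.submatrix I id).det := by
  rw [DR, det_mul_expand]
  rfl

lemma contDiff_DR {v : ℕ → ℝ → ℝ} {T : ℝ} (hv : Wt v T) {n k : ℕ} (X : Matrix (Fin n) (Fin k) ℝ) :
    ContDiff ℝ (⊤ : ℕ∞) (DR v X) := by
  have : DR v X = fun t => ∑ I : Fin k → Fin n, (∏ i : Fin k, ge v i (I i) t) * (X.submatrix I id).det :=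
    funext fun t => DR_expand v X t
  rw [this]
  refine ContDiff.sum fun I _ => ContDiff.mul ?_ contDiff_const
  exact contDiff_prod fun i _ => contDiff_ge hv i _

lemma contDiff_DC {v : ℕ → ℝ → ℝ} {T : ℝ} (hv : Wt v T) {n k : ℕ} (X : Matrix (Fin n) (Fin k) ℂ) :
    ContDiff ℝ (⊤ : ℕ∞) (DC v X) := by
  have : DC v X = fun t => ∑ I : Fin k → Fin n, ((∏ i : Fin k, ge v i (I i) t : ℝ) : ℂ) *
      (X.submatrix I id).det := funext fun t => DC_expand v X t
  rw [this]
  refine ContDiff.sum fun I _ => ContDiff.mul ?_ contDiff_const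
  have h : ContDiff ℝ (⊤ : ℕ∞) (fun t => ∏ i : Fin k, ge v i (I i) t) :=
    contDiff_prod fun i _ => contDiff_ge hv i _
  exact Complex.ofRealCLM.contDiff.comp h

lemma DC_mul_right (v : ℕ → ℝ → ℝ) {n k : ℕ} (X : Matrix (Fin n) (Fin k) ℂ)
    (C : Matrix (Fin k) (Fin k) ℂ) (t : ℝ) : DC v (X * C) t = DC v X t * C.det := by
  rw [DC, DC, ← Matrix.mul_assoc, Matrix.det_mul]

lemma DR_mul_right (v : ℕ → ℝ → ℝ) {n k : ℕ} (X : Matrix (Fin n) (Fin k) ℝ)
    (C : Matrix (Fin k) (Fin k) ℝ) (t : ℝ) : DR v (X * C) t = DR v X t * C.det := by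
  rw [DR, DR, ← Matrix.mul_assoc, Matrix.det_mul]

end real

end Pool.Agent.GC18
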