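import Pool.Agent.GC18.Stmts

/-!
# Grassmann convexity (MP_5fea31_an): final assembly   (helper18)
-/

set_option autoImplicit false

namespace Pool.Agent.GC18

open Matrix Filter Topology Set

lemma om_zero (w : ℕ → ℝ → ℝ) : om w 0 = one1 := by
  funext i t; simp [om, one1]

lemma om_one (w : ℕ → ℝ → ℝ) : om w 1 = w := by
  funext i t; simp [om]

theorem GProp_all (h0 : S_G0) (hO : S_Open) (hC : S_Close) :
    ∀ (w : ℕ → ℝ → ℝ) (T : ℝ), Wt w T → ∀ (m k : ℕ), 1 ≤ m → 1 ≤ k → GProp w m k := by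
  intro w T hw m k hm hk
  have key : ∀ s ∈ Icc (0 : ℝ) 1, GProp (om w s) m k := by
    by_contra hcon
    push Not at hcon
    set B : Set ℝ := {s | s ∈ Icc (0 : ℝ) 1 ∧ ¬ GProp (om w s) m k} with hB
    have hne : B.Nonempty := by
      obtain ⟨s, hs, hs'⟩ := hcon
      exact ⟨s, hs, hs'⟩
    have hbdd : BddBelow B := ⟨0, fun s hs => hs.1.1⟩
    set c := sInf B with hc
    have hc0 : 0 ≤ c := le_csInf hne fun s hs => hs.1.1
    have hc1 : c ≤ 1 := by
      obtain ⟨s, hs⟩ := hne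
      exact (csInf_le hbdd hs).trans hs.1.2
    have hlt : ∀ s' ∈ Ico (0 : ℝ) c, GProp (om w s') m k := by
      intro s' hs'
      by_contra hn
      exact absurd (csInf_le hbdd (show s' ∈ B from ⟨⟨hs'.1, hs'.2.le.trans hc1⟩, hn⟩)) (not_le.2 hs'.2)
    have hGc : GProp (om w c) m k := by
      rcases hc0.eq_or_lt with h | h
      · rw [← h, om_zero]; exact h0 m k
      · exact hC w T hw m k hm hk c ⟨h, hc1⟩ hlt
    have hev := hO w T hw m k c ⟨hc0, hc1⟩ hGc
    rw [eventually_nhdsWithin_iff, Metric.eventually_nhds_iff] at hev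
    obtain ⟨ε, hε, hev⟩ := hev
    obtain ⟨s, hsB, hs⟩ := exists_lt_of_csInf_lt hne (show sInf B < c + ε by rw [← hc]; linarith)
    have hcs : c ≤ s := csInf_le hbdd hsB
    refine hsB.2 (hev ?_ hsB.1)
    rw [Real.dist_eq, abs_of_nonneg (by linarith)]; linarith
  have := key 1 ⟨zero_le_one, le_rfl⟩
  rwa [om_one] at this

end Pool.Agent.GC18
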