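import Pool.Agent.GC18.Defs

/-!
# Grassmann convexity (MP_5fea31_an): basic facts on the fundamental matrix   (helper18)
-/

set_option autoImplicit false

namespace Pool.Agent.GC18

open Matrix Filter Topology Set

/-! ## base points -/

/-- fundamental matrix with base point `a` -/
noncomputable def gda (v : ℕ → ℝ → ℝ) (a : ℝ) : ℕ → ℕ → ℝ → ℝ
  | 0, _ => fun _ => 1
  | d + 1, i => fun t => ∫ u in a..t, v i u * gda v a d (i + 1) u

noncomputable def gea (v : ℕ → ℝ → ℝ) (a : ℝ) (i j : ℕ) (t : ℝ) : ℝ :=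
  if i ≤ j then gda v a (j - i) i t else 0

lemma gda_zero (v : ℕ → ℝ → ℝ) (d i : ℕ) : gda v 0 d i = gd v d i := by
  induction d generalizing i with
  | zero => rfl
  | succ d ih => funext t; simp only [gda, gd, ih]

lemma gea_zero (v : ℕ → ℝ → ℝ) (i j : ℕ) : gea v 0 i j = ge v i j := by
  funext t; simp only [gea, ge, gda_zero]

lemma contDiff_primitive {f : ℝ → ℝ} (hf : ContDiff ℝ (⊤ : ℕ∞) f) (a : ℝ) :
    ContDiff ℝ (⊤ : ℕ∞) (fun t => ∫ u in a..t, f u) := by
  have hd : ∀ t, HasDerivAt (fun t => ∫ u in a..t, f u) (f t) t := fun t =>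
    intervalIntegral.integral_hasDerivAt_right (hf.continuous.intervalIntegrable _ _)
      (hf.continuous.stronglyMeasurableAtFilter _ _) hf.continuous.continuousAt
  rw [contDiff_infty_iff_deriv]
  refine ⟨fun t => (hd t).differentiableAt, ?_⟩
  have : deriv (fun t => ∫ u in a..t, f u) = f := by
    funext t; exact (hd t).deriv
  rw [this]; exact hf

lemma hasDerivAt_primitive {f : ℝ → ℝ} (hf : Continuous f) (a t : ℝ) :
    HasDerivAt (fun t => ∫ u in a..t, f u) (f t) t :=
  intervalIntegral.integral_hasDerivAt_right (hf.intervalIntegrable _ _)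
      (hf.stronglyMeasurableAtFilter _ _) hf.continuousAt

lemma contDiff_gda {v : ℕ → ℝ → ℝ} {T : ℝ} (hv : Wt v T) (a : ℝ) (d i : ℕ) :
    ContDiff ℝ (⊤ : ℕ∞) (gda v a d i) := by
  induction d generalizing i with
  | zero => exact contDiff_const
  | succ d ih => exact contDiff_primitive ((hv.smooth i).mul (ih (i + 1))) a

lemma hasDerivAt_gda {v : ℕ → ℝ → ℝ} {T : ℝ} (hv : Wt v T) (a : ℝ) (d i : ℕ) (t : ℝ) :
    HasDerivAt (gda v a (d + 1) i) (v i t * gda v a d (i + 1) t) t :=
  hasDerivAt_primitive ((hv.smooth i).mul (contDiff_gda hv a d (i + 1))).continuous a t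

lemma contDiff_gea {v : ℕ → ℝ → ℝ} {T : ℝ} (hv : Wt v T) (a : ℝ) (i j : ℕ) :
    ContDiff ℝ (⊤ : ℕ∞) (gea v a i j) := by
  unfold gea
  by_cases h : i ≤ j
  · simp only [h, if_true]; exact contDiff_gda hv a _ _
  · simp only [h, if_false]; exact contDiff_const

lemma contDiff_ge {v : ℕ → ℝ → ℝ} {T : ℝ} (hv : Wt v T) (i j : ℕ) :
    ContDiff ℝ (⊤ : ℕ∞) (ge v i j) := by
  rw [← gea_zero]; exact contDiff_gea hv 0 i j

lemma hasDerivAt_gea {v : ℕ → ℝ → ℝ} {T : ℝ} (hv : Wt v T) (a : ℝ) (i j : ℕ) (t : ℝ) :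
    HasDerivAt (gea v a i j) (v i t * gea v a (i + 1) j t) t := by
  rcases lt_trichotomy i j with h | h | h
  · obtain ⟨d, rfl⟩ : ∃ d, j = i + (d + 1) := ⟨j - i - 1, by omega⟩
    have e1 : gea v a i (i + (d + 1)) = gda v a (d + 1) i := by
      funext t; simp [gea]
    have e2 : gea v a (i + 1) (i + (d + 1)) t = gda v a d (i + 1) t := by
      have : i + (d + 1) - (i + 1) = d := by omega
      simp [gea, this]
    rw [e1, e2]; exact hasDerivAt_gda hv a d i t
  · subst h
    have e1 : gea v a i i = fun _ => 1 := by funext t; simp [gea, gda]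
    have e2 : gea v a (i + 1) i t = 0 := by simp [gea]
    rw [e1, e2, mul_zero]; exact hasDerivAt_const t 1
  · have e1 : gea v a i j = fun _ => 0 := by
      funext t; simp [gea, not_le.2 h]
    have e2 : gea v a (i + 1) j t = 0 := by
      have : ¬ i + 1 ≤ j := by omega
      simp [gea, this]
    rw [e1, e2, mul_zero]; exact hasDerivAt_const t 0

lemma hasDerivAt_ge {v : ℕ → ℝ → ℝ} {T : ℝ} (hv : Wt v T) (i j : ℕ) (t : ℝ) :
    HasDerivAt (ge v i j) (v i t * ge v (i + 1) j t) t := by
  rw [← gea_zero, ← gea_zero]; exact hasDerivAt_gea hv 0 i j t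

@[simp] lemma gea_self (v : ℕ → ℝ → ℝ) (a : ℝ) (i : ℕ) (t : ℝ) : gea v a i i t = 1 := by
  simp [gea, gda]

lemma gea_of_lt (v : ℕ → ℝ → ℝ) (a : ℝ) {i j : ℕ} (h : j < i) (t : ℝ) : gea v a i j t = 0 := by
  simp [gea, not_le.2 h]

@[simp] lemma ge_self (v : ℕ → ℝ → ℝ) (i : ℕ) (t : ℝ) : ge v i i t = 1 := by
  simp [ge, gd]

lemma ge_of_lt (v : ℕ → ℝ → ℝ) {i j : ℕ} (h : j < i) (t : ℝ) : ge v i j t = 0 := by
  simp [ge, not_le.2 h]

lemma gea_base (v : ℕ → ℝ → ℝ) (a : ℝ) {i j : ℕ} (h : i < j) : gea v a i j a = 0 := by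
  obtain ⟨d, rfl⟩ : ∃ d, j = i + (d + 1) := ⟨j - i - 1, by omega⟩
  simp [gea, gda]

/-- cocycle property -/
lemma gea_cocycle {v : ℕ → ℝ → ℝ} {T : ℝ} (hv : Wt v T) (a b : ℝ) {n : ℕ} (i j : ℕ) (hj : j < n)
    (t : ℝ) : gea v a i j t = ∑ l : Fin n, gea v b i l t * gea v a l j b := by
  induction hd : (j + 1 - i) generalizing i t with
  | zero =>
    have hij : j < i := by omega
    rw [gea_of_lt v a hij]
    symm
    apply Finset.sum_eq_zero
    intro l _
    rcases lt_or_ge (l : ℕ) i with h | h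
    · rw [gea_of_lt v b h, zero_mul]
    · rw [gea_of_lt v a (show j < (l : ℕ) by omega), mul_zero]
  | succ d ih =>
    have hij : i ≤ j := by omega
    have key : ∀ t, HasDerivAt (fun t => gea v a i j t - ∑ l : Fin n, gea v b i l t * gea v a l j b) 0 t := by
      intro t
      have h1 := hasDerivAt_gea hv a i j t
      have h2 : HasDerivAt (fun t => ∑ l : Fin n, gea v b i l t * gea v a l j b)
          (∑ l : Fin n, v i t * gea v b (i + 1) l t * gea v a l j b) t := by
        have := HasDerivAt.sum (u := Finset.univ) (fun l (_ : l ∈ Finset.univ) =>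
          ((hasDerivAt_gea hv b i (l : Fin n) t).mul_const (gea v a l j b)))
        simpa [Finset.sum_fn] using this
      have h3 := h1.sub h2
      have e : v i t * gea v a (i + 1) j t - ∑ l : Fin n, v i t * gea v b (i + 1) l t * gea v a l j b = 0 := by
        rw [ih (i + 1) t (by omega), Finset.mul_sum, sub_eq_zero]
        apply Finset.sum_congr rfl
        intro l _; ring
      rw [e] at h3
      exact h3
    have hconst : ∀ x y, (fun t => gea v a i j t - ∑ l : Fin n, gea v b i l t * gea v a l j b) x =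
        (fun t => gea v a i j t - ∑ l : Fin n, gea v b i l t * gea v a l j b) y :=
      is_const_of_deriv_eq_zero (fun t => (key t).differentiableAt) (fun t => (key t).deriv)
    have hb : (fun t => gea v a i j t - ∑ l : Fin n, gea v b i l t * gea v a l j b) b = 0 := by
      simp only
      rw [Finset.sum_eq_single (⟨i, by omega⟩ : Fin n)]
      · simp
      · intro l _ hl
        rcases lt_or_ge (l : ℕ) i with h | h
        · rw [gea_of_lt v b h, zero_mul]
        · have : i < (l : ℕ) := lt_of_le_of_ne h (fun e => hl (Fin.ext e.symm))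
          rw [gea_base v b this, zero_mul]
      · simp
    have := (hconst t b).trans hb
    simp only at this
    linarith

/-! ## the rational normal curve -/

lemma wt_one1 {T : ℝ} (hT : 0 < T) : Wt one1 T :=
  ⟨hT, fun _ => contDiff_const, fun _ _ => one_pos, fun _ _ _ => rfl⟩

lemma gda_one (a : ℝ) (d i : ℕ) (t : ℝ) : gda one1 a d i t = (t - a) ^ d / d.factorial := by
  induction d generalizing i t with
  | zero => simp [gda]
  | succ d ih =>
    show ∫ u in a..t, one1 i u * gda one1 a d (i + 1) u = _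
    simp only [ih, one1, one_mul]
    rw [intervalIntegral.integral_div, intervalIntegral.integral_comp_sub_right (fun x => x ^ d) a, integral_pow]
    rw [Nat.factorial_succ]
    push_cast
    field_simp
    ring

lemma ge_one (i j : ℕ) (t : ℝ) : ge one1 i j t = if i ≤ j then t ^ (j - i) / (j - i).factorial else 0 := by
  rw [← gea_zero]; simp only [gea, gda_one, sub_zero]

/-! ## the ends -/

lemma gda_eq_one_right {v : ℕ → ℝ → ℝ} {T : ℝ} (hv : Wt v T) (d i : ℕ) {t : ℝ} (ht : T ≤ t) :
    gda v T d i t = gda one1 T d i t := by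
  induction d generalizing i t with
  | zero => rfl
  | succ d ih =>
    simp only [gda]
    apply intervalIntegral.integral_congr
    intro u hu
    rw [uIcc_of_le ht] at hu
    have : v i u = 1 := hv.one i u (hu.1.trans (le_abs_self u))
    simp only [this, one1]
    rw [ih (i + 1) hu.1]
    try rfl

lemma gda_eq_one_left {v : ℕ → ℝ → ℝ} {T : ℝ} (hv : Wt v T) (d i : ℕ) {t : ℝ} (ht : t ≤ -T) :
    gda v (-T) d i t = gda one1 (-T) d i t := by
  induction d generalizing i t with
  | zero => rfl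
  | succ d ih =>
    simp only [gda]
    apply intervalIntegral.integral_congr
    intro u hu
    rw [uIcc_of_ge ht] at hu
    have : v i u = 1 := hv.one i u ((le_neg.1 hu.2).trans (neg_le_abs u))
    simp only [this, one1]
    rw [ih (i + 1) hu.2]
    try rfl

/-- the constant matrix at `+∞` -/
noncomputable def Hp (v : ℕ → ℝ → ℝ) (T : ℝ) (n : ℕ) : Matrix (Fin n) (Fin n) ℝ :=
  Matrix.of fun i j => ∑ l : Fin n, gea one1 T i l 0 * ge v l j T

/-- the constant matrix at `-∞` -/
noncomputable def Hm (v : ℕ → ℝ → ℝ) (T : ℝ) (n : ℕ) : Matrix (Fin n) (Fin n) ℝ :=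
  Matrix.of fun i j => ∑ l : Fin n, gea one1 (-T) i l 0 * ge v l j (-T)

lemma Hp_lower (v : ℕ → ℝ → ℝ) (T : ℝ) (n : ℕ) {i j : Fin n} (h : j < i) : Hp v T n i j = 0 := by
  simp only [Hp, Matrix.of_apply]
  apply Finset.sum_eq_zero
  intro l _
  rcases lt_or_ge l i with h1 | h1
  · rw [gea_of_lt one1 T (show (l : ℕ) < i from h1), zero_mul]
  · rw [ge_of_lt v (show (j : ℕ) < l from lt_of_lt_of_le h h1), mul_zero]

lemma Hm_lower (v : ℕ → ℝ → ℝ) (T : ℝ) (n : ℕ) {i j : Fin n} (h : j < i) : Hm v T n i j = 0 := by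
  simp only [Hm, Matrix.of_apply]
  apply Finset.sum_eq_zero
  intro l _
  rcases lt_or_ge l i with h1 | h1
  · rw [gea_of_lt one1 (-T) (show (l : ℕ) < i from h1), zero_mul]
  · rw [ge_of_lt v (show (j : ℕ) < l from lt_of_lt_of_le h h1), mul_zero]

lemma Hp_diag (v : ℕ → ℝ → ℝ) (T : ℝ) (n : ℕ) (i : Fin n) : Hp v T n i i = 1 := by
  simp only [Hp, Matrix.of_apply]
  rw [Finset.sum_eq_single i]
  · simp
  · intro l _ hl
    rcases lt_or_gt_of_ne hl with h1 | h1
    · rw [gea_of_lt one1 T (show (l : ℕ) < i from h1), zero_mul]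
    · rw [ge_of_lt v (show (i : ℕ) < l from h1), mul_zero]
  · simp

lemma Hm_diag (v : ℕ → ℝ → ℝ) (T : ℝ) (n : ℕ) (i : Fin n) : Hm v T n i i = 1 := by
  simp only [Hm, Matrix.of_apply]
  rw [Finset.sum_eq_single i]
  · simp
  · intro l _ hl
    rcases lt_or_gt_of_ne hl with h1 | h1
    · rw [gea_of_lt one1 (-T) (show (l : ℕ) < i from h1), zero_mul]
    · rw [ge_of_lt v (show (i : ℕ) < l from h1), mul_zero]
  · simp

lemma ge_right {v : ℕ → ℝ → ℝ} {T : ℝ} (hv : Wt v T) {n : ℕ} (i : ℕ) (j : Fin n) {t : ℝ} (ht : T ≤ t) :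
    ge v i j t = ∑ l : Fin n, ge one1 i l t * Hp v T n l j := by
  have h1 : ge v i j t = ∑ l : Fin n, gea v T i l t * ge v l j T := by
    rw [← gea_zero, gea_cocycle hv 0 T i j j.2 t]
    simp only [gea_zero]
  have h2 : ∀ l : Fin n, gea v T i l t = ∑ q : Fin n, ge one1 i q t * gea one1 T q l 0 := by
    intro l
    have : gea v T i l t = gea one1 T i l t := by
      simp only [gea]
      split_ifs with h
      · rw [gda_eq_one_right hv _ _ ht]
      · rfl
    rw [this, gea_cocycle (wt_one1 hv.T_pos) T 0 i l l.2 t]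
    simp only [gea_zero]
  rw [h1]
  simp only [h2, Hp, Matrix.of_apply, Finset.sum_mul, Finset.mul_sum]
  rw [Finset.sum_comm]
  simp only [mul_assoc]

lemma ge_left {v : ℕ → ℝ → ℝ} {T : ℝ} (hv : Wt v T) {n : ℕ} (i : ℕ) (j : Fin n) {t : ℝ} (ht : t ≤ -T) :
    ge v i j t = ∑ l : Fin n, ge one1 i l t * Hm v T n l j := by
  have h1 : ge v i j t = ∑ l : Fin n, gea v (-T) i l t * ge v l j (-T) := by
    rw [← gea_zero, gea_cocycle hv 0 (-T) i j j.2 t]
    simp only [gea_zero]
  have h2 : ∀ l : Fin n, gea v (-T) i l t = ∑ q : Fin n, ge one1 i q t * gea one1 (-T) q l 0 := by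
    intro l
    have : gea v (-T) i l t = gea one1 (-T) i l t := by
      simp only [gea]
      split_ifs with h
      · rw [gda_eq_one_left hv _ _ ht]
      · rfl
    rw [this, gea_cocycle (wt_one1 hv.T_pos) (-T) 0 i l l.2 t]
    simp only [gea_zero]
  rw [h1]
  simp only [h2, Hm, Matrix.of_apply, Finset.sum_mul, Finset.mul_sum]
  rw [Finset.sum_comm]
  simp only [mul_assoc]

lemma Gam_right {v : ℕ → ℝ → ℝ} {T : ℝ} (hv : Wt v T) (p n : ℕ) {t : ℝ} (ht : T ≤ t) :
    Gam v p n t = Gam one1 p n t * Hp v T n := by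
  ext i j
  simp only [Gam, Matrix.of_apply, Matrix.mul_apply]
  exact ge_right hv i j ht

lemma Gam_left {v : ℕ → ℝ → ℝ} {T : ℝ} (hv : Wt v T) (p n : ℕ) {t : ℝ} (ht : t ≤ -T) :
    Gam v p n t = Gam one1 p n t * Hm v T n := by
  ext i j
  simp only [Gam, Matrix.of_apply, Matrix.mul_apply]
  exact ge_left hv i j ht

/-- base change: `G(t) = K(t) G(a)` for the top rows -/
lemma Gam_cocycle {v : ℕ → ℝ → ℝ} {T : ℝ} (hv : Wt v T) (p n : ℕ) (a t : ℝ) :
    Gam v p n t = (Matrix.of fun (i : Fin p) (l : Fin n) => gea v a i l t) * Gam v n n a := by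
  ext i j
  simp only [Gam, Matrix.of_apply, Matrix.mul_apply]
  rw [← gea_zero, gea_cocycle hv 0 a i j j.2 t]
  simp only [gea_zero]

/-! ## the path of weights -/

lemma wt_om {w : ℕ → ℝ → ℝ} {T : ℝ} (hw : Wt w T) {s : ℝ} (hs : s ∈ Icc (0 : ℝ) 1) : Wt (om w s) T := by
  refine ⟨hw.T_pos, fun i => ?_, fun i t => ?_, fun i t ht => ?_⟩
  · unfold om
    exact contDiff_const.add (contDiff_const.mul ((hw.smooth i).sub contDiff_const))
  · unfold om
    have := hw.pos i t
    rcases hs.2.eq_or_lt with h | h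
    · subst h; linarith
    · nlinarith [hs.1, mul_nonneg hs.1 this.le]
  · simp [om, hw.one i t ht]

/-- polynomial dependence on `s` -/
lemma gda_om_poly {w : ℕ → ℝ → ℝ} {T : ℝ} (hw : Wt w T) (a : ℝ) (d i : ℕ) :
    ∃ c : ℕ → ℝ → ℝ, (∀ l, ContDiff ℝ (⊤ : ℕ∞) (c l)) ∧
      ∀ s t, gda (om w s) a d i t = ∑ l ∈ Finset.range (d + 1), s ^ l * c l t := by
  induction d generalizing i with
  | zero => exact ⟨fun _ _ => 1, fun _ => contDiff_const, fun s t => by simp [gda]⟩
  | succ d ih =>
    obtain ⟨c, hc, hcs⟩ := ih (i + 1)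
    -- coefficients of the integrand
    let e : ℕ → ℝ → ℝ := fun l u =>
      (if l < d + 1 then c l u else 0) + (if 0 < l then (w i u - 1) * c (l - 1) u else 0)
    have he : ∀ l, ContDiff ℝ (⊤ : ℕ∞) (e l) := by
      intro l
      refine ContDiff.add ?_ ?_
      · by_cases h : l < d + 1
        · simp only [h, if_true]; exact hc l
        · simp only [h, if_false]; exact contDiff_const
      · by_cases h : 0 < l
        · simp only [h, if_true]; exact ((hw.smooth i).sub contDiff_const).mul (hc (l - 1))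
        · simp only [h, if_false]; exact contDiff_const
    refine ⟨fun l t => ∫ u in a..t, e l u, fun l => contDiff_primitive (he l) a, fun s t => ?_⟩
    have hint : ∀ u, om w s i u * gda (om w s) a d (i + 1) u =
        ∑ l ∈ Finset.range (d + 1 + 1), s ^ l * e l u := by
      intro u
      rw [hcs]
      have h1 : ∑ l ∈ Finset.range (d + 1 + 1), s ^ l * e l u =
          ∑ l ∈ Finset.range (d + 1 + 1), s ^ l * (if l < d + 1 then c l u else 0) +
          ∑ l ∈ Finset.range (d + 1 + 1), s ^ l * (if 0 < l then (w i u - 1) * c (l - 1) u else 0) := by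
        rw [← Finset.sum_add_distrib]
        exact Finset.sum_congr rfl fun l _ => by simp only [e]; ring
      rw [h1, Finset.sum_range_succ _ (d + 1), Finset.sum_range_succ' _ (d + 1)]
      simp only [lt_irrefl, if_false, mul_zero, add_zero, Nat.succ_pos, if_true, Nat.add_sub_cancel]
      have h2 : ∑ l ∈ Finset.range (d + 1), s ^ l * (if l < d + 1 then c l u else 0) =
          ∑ l ∈ Finset.range (d + 1), s ^ l * c l u := by
        refine Finset.sum_congr rfl fun l hl => ?_
        rw [if_pos (Finset.mem_range.1 hl)]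
      have h3 : ∑ l ∈ Finset.range (d + 1), s ^ (l + 1) * ((w i u - 1) * c l u) =
          s * (w i u - 1) * ∑ l ∈ Finset.range (d + 1), s ^ l * c l u := by
        rw [Finset.mul_sum]
        exact Finset.sum_congr rfl fun l _ => by ring
      rw [h2, h3]
      simp only [om]
      ring
    show ∫ u in a..t, om w s i u * gda (om w s) a d (i + 1) u = _
    simp only [hint]
    rw [intervalIntegral.integral_finsetSum (f := fun l u => s ^ l * e l u)
      (fun l _ => (continuous_const.mul (he l).continuous).intervalIntegrable _ _)]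
    exact Finset.sum_congr rfl fun l _ => intervalIntegral.integral_const_mul _ _

lemma contDiff_gea_om {w : ℕ → ℝ → ℝ} {T : ℝ} (hw : Wt w T) (a : ℝ) (i j : ℕ) :
    ContDiff ℝ (⊤ : ℕ∞) (fun p : ℝ × ℝ => gea (om w p.1) a i j p.2) := by
  unfold gea
  by_cases h : i ≤ j
  · simp only [h, if_true]
    obtain ⟨c, hc, hcs⟩ := gda_om_poly hw a (j - i) i
    simp only [hcs]
    apply ContDiff.sum
    intro l _
    exact (contDiff_fst.pow l).mul ((hc l).comp contDiff_snd)
  · simp only [h, if_false]; exact contDiff_const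

lemma contDiff_ge_om {w : ℕ → ℝ → ℝ} {T : ℝ} (hw : Wt w T) (i j : ℕ) :
    ContDiff ℝ (⊤ : ℕ∞) (fun p : ℝ × ℝ => ge (om w p.1) i j p.2) := by
  have := contDiff_gea_om hw 0 i j
  simpa only [gea_zero] using this

lemma continuous_Hp_om {w : ℕ → ℝ → ℝ} {T : ℝ} (hw : Wt w T) (n : ℕ) :
    Continuous (fun s => Hp (om w s) T n) := by
  apply continuous_matrix
  intro i j
  simp only [Hp, Matrix.of_apply]
  refine continuous_finsetSum _ fun l _ => continuous_const.mul ?_
  exact (contDiff_ge_om hw l j).continuous.comp (continuous_id.prodMk continuous_const)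

lemma continuous_Hm_om {w : ℕ → ℝ → ℝ} {T : ℝ} (hw : Wt w T) (n : ℕ) :
    Continuous (fun s => Hm (om w s) T n) := by
  apply continuous_matrix
  intro i j
  simp only [Hm, Matrix.of_apply]
  refine continuous_finsetSum _ fun l _ => continuous_const.mul ?_
  exact (contDiff_ge_om hw l j).continuous.comp (continuous_id.prodMk continuous_const)

end Pool.Agent.GC18
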