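import Pool.Agent.GC18.Basics

/-!
# Grassmann convexity (MP_5fea31_an): determinants   (helper77)
-/

set_option autoImplicit false

namespace Pool.Agent.GC18

open Matrix Filter Topology Set

/-! ## the constant minors of the rational normal curve -/

lemma ge_one_one (i l : ℕ) : ge one1 i l 1 = ((l.factorial : ℝ))⁻¹ * (l.descFactorial i : ℝ) := by
  rw [ge_one]
  split_ifs with h
  · rw [one_pow]
    have h1 := Nat.factorial_mul_descFactorial h
    have h2 : ((l - i).factorial : ℝ) * (l.descFactorial i : ℝ) = (l.factorial : ℝ) := by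
      exact_mod_cast h1
    have h3 : ((l - i).factorial : ℝ) ≠ 0 := by exact_mod_cast (l - i).factorial_ne_zero
    have h4 : (l.factorial : ℝ) ≠ 0 := by exact_mod_cast l.factorial_ne_zero
    field_simp
    linarith
  · rw [Nat.descFactorial_eq_zero_iff_lt.2 (by omega)]
    simp

/-- the minors of the rational normal curve at `t = 1` do not vanish -/
lemma det_ge_one_ne_zero {p : ℕ} (I : Fin p → ℕ) (hI : Function.Injective I) :
    (Matrix.of fun (i b : Fin p) => ge one1 i (I b) 1).det ≠ 0 := by
  have h1 : (Matrix.of fun (i b : Fin p) => ge one1 i (I b) 1)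
      = Matrix.of fun (i b : Fin p) => ((I b).factorial : ℝ)⁻¹ *
          (Matrix.of fun (i b : Fin p) => ((I b).descFactorial i : ℝ)) i b := by
    ext i b
    simp only [Matrix.of_apply]
    exact ge_one_one i (I b)
  rw [h1, Matrix.det_mul_row (fun b => ((I b).factorial : ℝ)⁻¹)]
  apply mul_ne_zero
  · rw [Finset.prod_ne_zero_iff]
    intro b _
    apply inv_ne_zero
    exact_mod_cast (I b).factorial_ne_zero
  · have h2 := det_eval_matrixOfPolynomials_eq_det_vandermonde (fun b : Fin p => ((I b : ℕ) : ℝ))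
      (fun i => descPochhammer ℝ i) (fun i => descPochhammer_natDegree ℝ i)
      (fun i => monic_descPochhammer ℝ i)
    have h3 : (Matrix.of fun (i b : Fin p) => ((I b).descFactorial i : ℝ))
        = (Matrix.of fun (i j : Fin p) => (descPochhammer ℝ (j : ℕ)).eval ((I i : ℕ) : ℝ))ᵀ := by
      ext i b
      simp only [Matrix.of_apply, Matrix.transpose_apply]
      rw [descPochhammer_eval_eq_descFactorial]
    rw [h3, Matrix.det_transpose, ← h2, Matrix.det_vandermonde_ne_zero_iff]
    intro a b hab
    have hab' : ((I a : ℕ) : ℝ) = ((I b : ℕ) : ℝ) := hab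
    exact hI (by exact_mod_cast hab')

/-! ## the last rows -/

/-- the last `p` indices -/
def lastI {n p : ℕ} (h : p ≤ n) : Fin p → Fin n := fun b => ⟨n - p + b, by have := b.2; omega⟩

lemma lastI_injective {n p : ℕ} (h : p ≤ n) : Function.Injective (lastI (n := n) h) := by
  intro a b hab
  have : n - p + (a : ℕ) = n - p + b := congrArg Fin.val hab
  exact Fin.ext (by omega)

/-- an injective selection of rows of maximal grade is a permutation of the last rows -/
lemma exists_perm_lastI {n p : ℕ} (h : p ≤ n) (I : Fin p → Fin n) (hI : Function.Injective I)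
    (hs : ∑ i : Fin p, (n - p + (i : ℕ)) ≤ ∑ i, (I i : ℕ)) :
    ∃ σ : Equiv.Perm (Fin p), I = lastI h ∘ σ := by
  classical
  set S := Finset.univ.image I with hS
  set L := Finset.univ.image (lastI (n := n) h) with hL
  have hSc : S.card = p := by
    rw [hS, Finset.card_image_of_injective _ hI, Finset.card_univ, Fintype.card_fin]
  have hLc : L.card = p := by
    rw [hL, Finset.card_image_of_injective _ (lastI_injective h), Finset.card_univ,
      Fintype.card_fin]
  have hSs : ∑ x ∈ S, (x : ℕ) = ∑ i, (I i : ℕ) := by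
    rw [hS, Finset.sum_image (fun a _ b _ hab => hI hab)]
  have hLs : ∑ x ∈ L, (x : ℕ) = ∑ i : Fin p, (n - p + (i : ℕ)) := by
    rw [hL, Finset.sum_image (fun a _ b _ hab => lastI_injective h hab)]
    rfl
  have hmem : ∀ x : Fin n, x ∈ L ↔ n - p ≤ (x : ℕ) := by
    intro x
    rw [hL, Finset.mem_image]
    constructor
    · rintro ⟨b, _, rfl⟩
      simp [lastI]
    · intro hx
      refine ⟨⟨(x : ℕ) - (n - p), by have := x.2; omega⟩, Finset.mem_univ _, ?_⟩
      apply Fin.ext
      simp only [lastI]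
      omega
  have hcard : (S \ L).card = (L \ S).card := by
    have h1 := Finset.card_sdiff_add_card_inter S L
    have h2 := Finset.card_sdiff_add_card_inter L S
    rw [Finset.inter_comm L S] at h2
    omega
  have e1 : ∑ x ∈ S, (x : ℕ) = ∑ x ∈ S \ L, (x : ℕ) + ∑ x ∈ S ∩ L, (x : ℕ) := by
    rw [← Finset.sum_sdiff (Finset.inter_subset_left : S ∩ L ⊆ S)]
    congr 2
    rw [Finset.sdiff_inter_self_left]
  have e2 : ∑ x ∈ L, (x : ℕ) = ∑ x ∈ L \ S, (x : ℕ) + ∑ x ∈ S ∩ L, (x : ℕ) := by
    rw [← Finset.sum_sdiff (Finset.inter_subset_right : S ∩ L ⊆ L)]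
    congr 2
    rw [Finset.sdiff_inter_self_right]
  have e3 : ∑ x ∈ S \ L, ((x : ℕ) + 1) ≤ ∑ x ∈ S \ L, (n - p) := by
    apply Finset.sum_le_sum
    intro x hx
    rw [Finset.mem_sdiff, hmem] at hx
    omega
  have e4 : ∑ x ∈ L \ S, (n - p) ≤ ∑ x ∈ L \ S, (x : ℕ) := by
    apply Finset.sum_le_sum
    intro x hx
    rw [Finset.mem_sdiff, hmem] at hx
    exact hx.1
  rw [Finset.sum_add_distrib] at e3
  simp only [Finset.sum_const, smul_eq_mul, mul_one] at e3 e4
  rw [hcard] at e3
  have hcz : (L \ S).card = 0 := by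
    have := hs
    rw [← hSs, ← hLs, e1, e2] at this
    omega
  have hSL : S ⊆ L := by
    have h5 : (S \ L).card = 0 := by rw [hcard, hcz]
    exact Finset.sdiff_eq_empty_iff_subset.1 (Finset.card_eq_zero.1 h5)
  have hex : ∀ i, ∃ b, lastI h b = I i := by
    intro i
    have : I i ∈ L := hSL (Finset.mem_image_of_mem _ (Finset.mem_univ i))
    rw [hL, Finset.mem_image] at this
    obtain ⟨b, _, hb⟩ := this
    exact ⟨b, hb⟩
  choose f hf using hex
  have hfi : Function.Injective f := by
    intro a b hab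
    apply hI
    rw [← hf a, ← hf b, hab]
  refine ⟨Equiv.ofBijective f (Finite.injective_iff_bijective.1 hfi), ?_⟩
  funext i
  simp only [Function.comp_apply, Equiv.ofBijective_apply]
  exact (hf i).symm

lemma not_vanInf_last_iff {𝕜 : Type*} [Field 𝕜] {n p : ℕ} (h : p ≤ n)
    (X : Matrix (Fin n) (Fin p) 𝕜) :
    ¬ VanInf 1 X ↔ (X.submatrix (lastI h) id).det ≠ 0 := by
  constructor
  · intro hX
    unfold VanInf at hX
    push Not at hX
    obtain ⟨I, hs, hdet⟩ := hX
    have hI : Function.Injective I := by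
      intro a b hab
      by_contra hne
      apply hdet
      apply Matrix.det_zero_of_row_eq hne
      funext c
      simp only [Matrix.submatrix_apply, hab]
    obtain ⟨σ, hσ⟩ := exists_perm_lastI h I hI (by omega)
    intro h0
    apply hdet
    have : X.submatrix I id = (X.submatrix (lastI h) id).submatrix σ id := by
      rw [hσ]; rfl
    rw [this, Matrix.det_permute, h0, mul_zero]
  · intro hdet hX
    apply hdet
    apply hX
    simp only [lastI]
    omega

/-! ## asymptotics -/

/-- the constant of the leading term -/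
noncomputable def cst (n p : ℕ) : ℝ :=
  (Matrix.of fun (i b : Fin p) => ge one1 i (n - p + (b : ℕ)) 1).det

lemma cst_ne_zero (n p : ℕ) : cst n p ≠ 0 := by
  apply det_ge_one_ne_zero (fun b : Fin p => n - p + (b : ℕ))
  intro a b hab
  have : n - p + (a : ℕ) = n - p + b := hab
  exact Fin.ext (by omega)

/-- scaling of the rational normal curve -/
lemma Gam_one_scale (p n : ℕ) {t : ℝ} (ht : t ≠ 0) :
    Gam one1 p n t = Matrix.diagonal (fun i : Fin p => (t ^ (i : ℕ))⁻¹) * Gam one1 p n 1 *
      Matrix.diagonal (fun l : Fin n => t ^ (l : ℕ)) := by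
  ext i l
  rw [Matrix.mul_diagonal, Matrix.diagonal_mul]
  simp only [Gam, Matrix.of_apply, ge_one]
  split_ifs with h
  · rw [one_pow, pow_sub₀ t ht h]
    ring
  · ring

/-- the leading term of `det(top_p exp(tE) Y)` if the last `p` rows of `Y` are independent -/
lemma tendsto_det_one (n p : ℕ) (h : p ≤ n) (Y : Matrix (Fin n) (Fin p) ℝ)
    (hY : (Y.submatrix (lastI h) id).det ≠ 0) (l : Filter ℝ)
    (hl : Tendsto (fun t : ℝ => t⁻¹) l (𝓝 0)) (hl0 : ∀ᶠ t in l, t ≠ 0) :
    Tendsto (fun t => (Gam one1 p n t * Y).det / t ^ (p * (n - p))) l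
      (𝓝 (cst n p * (Y.submatrix (lastI h) id).det)) := by
  classical
  set B := Y.submatrix (lastI h) id with hB
  have hBu : IsUnit B.det := isUnit_iff_ne_zero.2 hY
  set Z := Y * B⁻¹ with hZ
  have hZlast : ∀ b c : Fin p, Z (lastI h b) c = if b = c then 1 else 0 := by
    intro b c
    have h1 : Z.submatrix (lastI h) id = B * B⁻¹ := by
      rw [hZ]
      exact Matrix.submatrix_mul Y B⁻¹ _ id id Function.bijective_id
    rw [Matrix.mul_nonsing_inv _ hBu] at h1
    have h2 := congrFun (congrFun h1 b) c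
    rw [Matrix.submatrix_apply, Matrix.one_apply] at h2
    exact h2
  have hYZ : Y = Z * B := by
    rw [hZ, Matrix.mul_assoc, Matrix.nonsing_inv_mul _ hBu, Matrix.mul_one]
  -- the scaled matrix
  let R : ℝ → Matrix (Fin n) (Fin p) ℝ := fun u => Matrix.of fun a b =>
    if (a : ℕ) < n - p then u ^ (n - p + (b : ℕ) - a) * Z a b else (if (a : ℕ) = n - p + b then 1 else 0)
  have hR : ∀ t : ℝ, t ≠ 0 →
      Matrix.diagonal (fun l : Fin n => t ^ (l : ℕ)) * Z
        = R t⁻¹ * Matrix.diagonal (fun b : Fin p => t ^ (n - p + (b : ℕ))) := by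
    intro t ht
    ext a b
    rw [Matrix.diagonal_mul, Matrix.mul_diagonal]
    simp only [R, Matrix.of_apply]
    split_ifs with h1 h2
    · have h3 : t ^ (n - p + (b : ℕ)) = t ^ (n - p + (b : ℕ) - a) * t ^ (a : ℕ) := by
        rw [← pow_add]; congr 1; omega
      rw [h3, inv_pow]
      have h4 : t ^ (n - p + (b : ℕ) - a) ≠ 0 := pow_ne_zero _ ht
      field_simp
    · have h3 : a = lastI h b := Fin.ext h2
      rw [h3, hZlast, if_pos rfl]
      simp [lastI]
    · have h3 : a = lastI h ⟨(a : ℕ) - (n - p), by have := a.2; omega⟩ := by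
        apply Fin.ext
        simp only [lastI]
        omega
      rw [h3, hZlast, if_neg]
      · simp
      · intro h4
        apply h2
        have := congrArg Fin.val h4
        simp only at this
        omega
  have hdet : ∀ t : ℝ, t ≠ 0 → (Gam one1 p n t * Y).det / t ^ (p * (n - p))
      = (Gam one1 p n 1 * R t⁻¹).det * B.det := by
    intro t ht
    have e1 : Gam one1 p n t * Y = Matrix.diagonal (fun i : Fin p => (t ^ (i : ℕ))⁻¹) *
        (Gam one1 p n 1 * R t⁻¹) * Matrix.diagonal (fun b : Fin p => t ^ (n - p + (b : ℕ))) * B := by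
      rw [Gam_one_scale p n ht, hYZ]
      have e2 := hR t ht
      calc Matrix.diagonal (fun i : Fin p => (t ^ (i : ℕ))⁻¹) * Gam one1 p n 1 *
            Matrix.diagonal (fun l : Fin n => t ^ (l : ℕ)) * (Z * B)
          = Matrix.diagonal (fun i : Fin p => (t ^ (i : ℕ))⁻¹) * Gam one1 p n 1 *
            (Matrix.diagonal (fun l : Fin n => t ^ (l : ℕ)) * Z) * B := by
              simp only [Matrix.mul_assoc]
        _ = _ := by
              rw [e2]
              simp only [Matrix.mul_assoc]
    rw [e1, Matrix.det_mul, Matrix.det_mul, Matrix.det_mul, Matrix.det_diagonal,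
      Matrix.det_diagonal]
    have e3 : (∏ i : Fin p, (t ^ (i : ℕ))⁻¹) * ∏ b : Fin p, t ^ (n - p + (b : ℕ))
        = t ^ (p * (n - p)) := by
      rw [← Finset.prod_mul_distrib]
      have e4 : ∀ i : Fin p, (t ^ (i : ℕ))⁻¹ * t ^ (n - p + (i : ℕ)) = t ^ (n - p) := by
        intro i
        rw [pow_add]
        have : t ^ (i : ℕ) ≠ 0 := pow_ne_zero _ ht
        field_simp
      rw [Finset.prod_congr rfl (fun i _ => e4 i), Finset.prod_const, Finset.card_univ,
        Fintype.card_fin, ← pow_mul, mul_comm]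
    have e5 : t ^ (p * (n - p)) ≠ 0 := pow_ne_zero _ ht
    rw [div_eq_iff e5, ← e3]
    ring
  have hcont : Continuous (fun u : ℝ => (Gam one1 p n 1 * R u).det) := by
    apply Continuous.matrix_det
    apply Continuous.matrix_mul continuous_const
    apply continuous_matrix
    intro a b
    simp only [R, Matrix.of_apply]
    split_ifs with h1
    · exact (continuous_pow _).mul continuous_const
    · exact continuous_const
    · exact continuous_const
  have hlim : (Gam one1 p n 1 * R 0).det = cst n p := by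
    unfold cst
    congr 1
    ext i b
    rw [Matrix.mul_apply]
    rw [Finset.sum_eq_single (lastI h b)]
    · simp only [R, Gam, Matrix.of_apply, lastI]
      rw [if_neg (by omega)]
      simp
    · intro a _ ha
      simp only [R, Matrix.of_apply]
      split_ifs with h1 h2
      · rw [zero_pow (by omega), zero_mul, mul_zero]
      · exact absurd (Fin.ext h2) ha
      · rw [mul_zero]
    · intro h1
      exact absurd (Finset.mem_univ _) h1
  have h1 : Tendsto (fun t : ℝ => (Gam one1 p n 1 * R t⁻¹).det * B.det) l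
      (𝓝 (cst n p * B.det)) := by
    rw [← hlim]
    exact ((hcont.tendsto 0).comp hl).mul_const _
  refine h1.congr' ?_
  filter_upwards [hl0] with t ht
  exact (hdet t ht).symm

lemma det_last_upper {n p : ℕ} (h : p ≤ n) (H : Matrix (Fin n) (Fin n) ℝ)
    (hlow : ∀ i j, j < i → H i j = 0) (hdiag : ∀ i, H i i = 1) (X : Matrix (Fin n) (Fin p) ℝ) :
    ((H * X).submatrix (lastI h) id).det = (X.submatrix (lastI h) id).det := by
  have h1 : (H * X).submatrix (lastI h) id
      = H.submatrix (lastI h) (lastI h) * X.submatrix (lastI h) id := by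
    ext b c
    simp only [Matrix.submatrix_apply, Matrix.mul_apply, id]
    symm
    apply Finset.sum_of_injOn (lastI h) ((lastI_injective h).injOn)
    · intro _ _; exact Finset.mem_coe.2 (Finset.mem_univ _)
    · intro l _ hl
      have h2 : (l : ℕ) < n - p := by
        by_contra h3
        apply hl
        refine ⟨⟨(l : ℕ) - (n - p), by have := l.2; omega⟩, Finset.mem_coe.2 (Finset.mem_univ _), ?_⟩
        apply Fin.ext
        simp only [lastI]
        omega
      rw [hlow _ _ (by
        rw [Fin.lt_def]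
        simp only [lastI]
        omega), zero_mul]
    · intro _ _; rfl
  rw [h1, Matrix.det_mul]
  have h2 : (H.submatrix (lastI h) (lastI h)).det = 1 := by
    rw [Matrix.det_of_isUpperTriangular]
    · apply Finset.prod_eq_one
      intro b _
      exact hdiag _
    · intro a b hab
      rw [Matrix.submatrix_apply]
      apply hlow
      rw [Fin.lt_def]
      simp only [lastI]
      have : (b : ℕ) < a := hab
      omega
  rw [h2, one_mul]

/-- leading asymptotics of `DR` at `+∞` -/
lemma tendsto_DR_atTop {v : ℕ → ℝ → ℝ} {T : ℝ} (hv : Wt v T) {n p : ℕ} (h : p ≤ n)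
    (X : Matrix (Fin n) (Fin p) ℝ) (hX : (X.submatrix (lastI h) id).det ≠ 0) :
    Tendsto (fun t => DR v X t / t ^ (p * (n - p))) atTop
      (𝓝 (cst n p * (X.submatrix (lastI h) id).det)) := by
  have e1 := det_last_upper h (Hp v T n) (fun i j hij => Hp_lower v T n hij) (Hp_diag v T n) X
  have h1 := tendsto_det_one n p h (Hp v T n * X) (by rw [e1]; exact hX) atTop
    tendsto_inv_atTop_zero (eventually_ne_atTop 0)
  rw [e1] at h1
  refine h1.congr' ?_
  filter_upwards [eventually_ge_atTop T] with t ht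
  unfold DR
  rw [Gam_right hv p n ht, Matrix.mul_assoc]

/-- leading asymptotics of `DR` at `-∞` -/
lemma tendsto_DR_atBot {v : ℕ → ℝ → ℝ} {T : ℝ} (hv : Wt v T) {n p : ℕ} (h : p ≤ n)
    (X : Matrix (Fin n) (Fin p) ℝ) (hX : (X.submatrix (lastI h) id).det ≠ 0) :
    Tendsto (fun t => DR v X t / t ^ (p * (n - p))) atBot
      (𝓝 (cst n p * (X.submatrix (lastI h) id).det)) := by
  have e1 := det_last_upper h (Hm v T n) (fun i j hij => Hm_lower v T n hij) (Hm_diag v T n) X
  have h1 := tendsto_det_one n p h (Hm v T n * X) (by rw [e1]; exact hX) atBot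
    tendsto_inv_atBot_zero (eventually_ne_atBot 0)
  rw [e1] at h1
  refine h1.congr' ?_
  filter_upwards [eventually_le_atBot (-T)] with t ht
  unfold DR
  rw [Gam_left hv p n ht, Matrix.mul_assoc]

/-! ## arrays, derivatives -/

/-- row `a` of the fundamental matrix applied to the vector `Y b` -/
noncomputable def rw' (v : ℕ → ℝ → ℝ) {n : ℕ} (Y : ℕ → Fin n → ℝ) (t : ℝ) (a b : ℕ) : ℝ :=
  ∑ l : Fin n, ge v a l t * Y b l

lemma DR_Ym (v : ℕ → ℝ → ℝ) {n : ℕ} (Y : ℕ → Fin n → ℝ) (p : ℕ) (t : ℝ) :
    DR v (Ym Y p) t = (Matrix.of fun (a b : Fin p) => rw' v Y t a b).det := by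
  unfold DR
  congr 1

lemma hasDerivAt_rw' {v : ℕ → ℝ → ℝ} {T : ℝ} (hv : Wt v T) {n : ℕ} (Y : ℕ → Fin n → ℝ) (t : ℝ)
    (a b : ℕ) : HasDerivAt (fun t => rw' v Y t a b) (v a t * rw' v Y t (a + 1) b) t := by
  unfold rw'
  have := HasDerivAt.sum (u := Finset.univ) (fun l (_ : l ∈ Finset.univ) =>
          ((hasDerivAt_ge hv a (l : Fin n) t).mul_const (Y b l)))
  have h2 : v a t * ∑ l : Fin n, ge v (a + 1) l t * Y b l
      = ∑ l : Fin n, v a t * ge v (a + 1) l t * Y b l := by
    rw [Finset.mul_sum]
    exact Finset.sum_congr rfl fun l _ => by ring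
  rw [h2]
  simpa [Finset.sum_fn] using this

/-- derivative of a determinant, by rows -/
lemma hasDerivAt_det_rows {p : ℕ} (M : ℝ → Matrix (Fin p) (Fin p) ℝ)
    (M' : Matrix (Fin p) (Fin p) ℝ) (t : ℝ)
    (h : ∀ a b, HasDerivAt (fun t => M t a b) (M' a b) t) :
    HasDerivAt (fun t => (M t).det) (∑ a, ((M t).updateRow a (M' a)).det) t := by
  have h1 : ∀ σ : Equiv.Perm (Fin p), HasDerivAt
      (fun t => ((Equiv.Perm.sign σ : ℤ) : ℝ) * ∏ i, M t (σ i) i)
      (((Equiv.Perm.sign σ : ℤ) : ℝ) * ∑ i, (∏ j ∈ Finset.univ.erase i, M t (σ j) j) * M' (σ i) i) t := by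
    intro σ
    have h2 := HasDerivAt.fun_finsetProd (u := Finset.univ) (f := fun i t => M t (σ i) i)
      (f' := fun i => M' (σ i) i) (x := t) (fun i _ => h (σ i) i)
    simp only [smul_eq_mul] at h2
    exact h2.const_mul _
  have h3 := HasDerivAt.fun_sum (u := (Finset.univ : Finset (Equiv.Perm (Fin p)))) (fun σ _ => h1 σ)
  have h4 : (fun t => (M t).det)
      = fun t => ∑ σ : Equiv.Perm (Fin p), ((Equiv.Perm.sign σ : ℤ) : ℝ) * ∏ i, M t (σ i) i := by
    funext s
    rw [Matrix.det_apply']
  rw [h4]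
  have h5 : ∀ a, ((M t).updateRow a (M' a)).det
      = ∑ σ : Equiv.Perm (Fin p), ((Equiv.Perm.sign σ : ℤ) : ℝ) *
          ((∏ j ∈ Finset.univ.erase (σ⁻¹ a), M t (σ j) j) * M' a (σ⁻¹ a)) := by
    intro a
    rw [Matrix.det_apply']
    refine Finset.sum_congr rfl fun σ _ => ?_
    congr 1
    rw [← Finset.prod_erase_mul Finset.univ _ (Finset.mem_univ (σ⁻¹ a))]
    congr 1
    · refine Finset.prod_congr rfl fun j hj => ?_
      rw [Matrix.updateRow_ne]
      intro h7
      apply Finset.ne_of_mem_erase hj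
      rw [← h7]
      simp
    · have h7 : σ (σ⁻¹ a) = a := by simp
      rw [h7, Matrix.updateRow_self]
  have h6 : ∑ a, ((M t).updateRow a (M' a)).det = ∑ σ : Equiv.Perm (Fin p),
      ((Equiv.Perm.sign σ : ℤ) : ℝ) *
        ∑ i, (∏ j ∈ Finset.univ.erase i, M t (σ j) j) * M' (σ i) i := by
    rw [Finset.sum_congr rfl fun a _ => h5 a, Finset.sum_comm]
    refine Finset.sum_congr rfl fun σ _ => ?_
    rw [← Finset.mul_sum]
    congr 1
    rw [← Equiv.sum_comp σ]
    refine Finset.sum_congr rfl fun i _ => ?_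
    simp
  rw [h6]
  exact h3

/-- the rows `0..p-1, p+1` -/
def skipR (p a : ℕ) : ℕ := if a < p then a else a + 1

/-- derivative of `W_{p+1}` -/
lemma hasDerivAt_DR_Ym {v : ℕ → ℝ → ℝ} {T : ℝ} (hv : Wt v T) {n : ℕ} (Y : ℕ → Fin n → ℝ) (p : ℕ)
    (t : ℝ) : HasDerivAt (DR v (Ym Y (p + 1)))
      (v p t * (Matrix.of fun (a b : Fin (p + 1)) => rw' v Y t (skipR p a) b).det) t := by
  have h1 := hasDerivAt_det_rows (fun t => Matrix.of fun (a b : Fin (p + 1)) => rw' v Y t a b)
    (Matrix.of fun (a b : Fin (p + 1)) => v a t * rw' v Y t (a + 1) b) t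
    (fun a b => hasDerivAt_rw' hv Y t a b)
  have h2 : DR v (Ym Y (p + 1)) = fun t => (Matrix.of fun (a b : Fin (p + 1)) => rw' v Y t a b).det := by
    funext s
    exact DR_Ym v Y (p + 1) s
  rw [h2]
  convert h1 using 1
  rw [Finset.sum_eq_single (Fin.last p)]
  · have h3 : (Matrix.of fun (a b : Fin (p + 1)) => v a t * rw' v Y t (a + 1) b) (Fin.last p)
        = v p t • (fun b : Fin (p + 1) => rw' v Y t (p + 1) b) := by
      funext b
      simp [Matrix.of_apply]
    rw [h3, Matrix.det_updateRow_smul]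
    congr 2
    ext a b
    rcases eq_or_ne a (Fin.last p) with h | h
    · rw [h, Matrix.updateRow_self]
      simp [skipR]
    · rw [Matrix.updateRow_ne h]
      have h4 : (a : ℕ) < p := by
        have := a.2
        have h5 : (a : ℕ) ≠ p := fun h6 => h (Fin.ext h6)
        omega
      simp [skipR, h4]
  · intro a _ ha
    have h4 : (a : ℕ) < p := by
      have := a.2
      have h5 : (a : ℕ) ≠ p := fun h6 => ha (Fin.ext h6)
      omega
    have h3 : (Matrix.of fun (a b : Fin (p + 1)) => v a t * rw' v Y t (a + 1) b) a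
        = v a t • (fun b : Fin (p + 1) => rw' v Y t (a + 1) b) := by
      funext b
      simp [Matrix.of_apply]
    rw [h3, Matrix.det_updateRow_smul]
    have h5 : ((Matrix.of fun (a b : Fin (p + 1)) => rw' v Y t a b).updateRow a
        (fun b : Fin (p + 1) => rw' v Y t (a + 1) b)).det = 0 := by
      have hne : a ≠ (⟨a + 1, by omega⟩ : Fin (p + 1)) := by
        intro h6
        have := congrArg Fin.val h6
        simp at this
      apply Matrix.det_zero_of_row_eq hne
      rw [Matrix.updateRow_self, Matrix.updateRow_ne hne.symm]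
      funext b
      simp
    rw [h5, mul_zero]
  · intro h
    exact absurd (Finset.mem_univ _) h

/-! ## Desnanot-Jacobi -/

lemma det_border {p : ℕ} (e : ℕ → ℕ → ℝ) (r s : ℕ)
    (hA : IsUnit (Matrix.of fun (a b : Fin p) => e a b).det) :
    (Matrix.of fun (a b : Fin (p + 1)) => e (if (a : ℕ) < p then a else r)
        (if (b : ℕ) < p then b else s)).det
      = (Matrix.of fun (a b : Fin p) => e a b).det *
        (e r s - ∑ b : Fin p, (∑ a : Fin p, e r a *
          (Matrix.of fun (a b : Fin p) => e a b)⁻¹ a b) * e b s) := by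
  classical
  set A : Matrix (Fin p) (Fin p) ℝ := Matrix.of fun (a b : Fin p) => e a b with hAdef
  let B : Matrix (Fin p) (Fin 1) ℝ := Matrix.of fun a _ => e a s
  let C : Matrix (Fin 1) (Fin p) ℝ := Matrix.of fun _ b => e r b
  let D : Matrix (Fin 1) (Fin 1) ℝ := Matrix.of fun _ _ => e r s
  let _ := Matrix.invertibleOfIsUnitDet A hA
  have h1 := Matrix.det_fromBlocks₁₁ A B C D
  have h2 : (Matrix.of fun (a b : Fin (p + 1)) => e (if (a : ℕ) < p then a else r)
        (if (b : ℕ) < p then b else s)).det = (Matrix.fromBlocks A B C D).det := by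
    rw [← Matrix.det_reindex_self finSumFinEquiv (Matrix.fromBlocks A B C D)]
    congr 1
    ext a b
    rw [Matrix.reindex_apply, Matrix.submatrix_apply]
    refine Fin.addCases (fun a' => ?_) (fun a' => ?_) a
    · refine Fin.addCases (fun b' => ?_) (fun b' => ?_) b
      · simp [A]
      · simp [B]
    · refine Fin.addCases (fun b' => ?_) (fun b' => ?_) b
      · simp [C]
      · simp [D]
  rw [h2, h1]
  congr 1
  rw [Matrix.det_fin_one, Matrix.sub_apply, Matrix.mul_apply]
  congr 1

lemma det_border2 {p : ℕ} (e : ℕ → ℕ → ℝ) (r r' s s' : ℕ)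
    (hA : IsUnit (Matrix.of fun (a b : Fin p) => e a b).det) :
    (Matrix.of fun (a b : Fin (p + 2)) => e (if (a : ℕ) < p then a else if (a : ℕ) = p then r else r')
        (if (b : ℕ) < p then b else if (b : ℕ) = p then s else s')).det
      = (Matrix.of fun (a b : Fin p) => e a b).det *
        ((e r s - ∑ b : Fin p, (∑ a : Fin p, e r a *
            (Matrix.of fun (a b : Fin p) => e a b)⁻¹ a b) * e b s) *
          (e r' s' - ∑ b : Fin p, (∑ a : Fin p, e r' a *
            (Matrix.of fun (a b : Fin p) => e a b)⁻¹ a b) * e b s') -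
         (e r s' - ∑ b : Fin p, (∑ a : Fin p, e r a *
            (Matrix.of fun (a b : Fin p) => e a b)⁻¹ a b) * e b s') *
          (e r' s - ∑ b : Fin p, (∑ a : Fin p, e r' a *
            (Matrix.of fun (a b : Fin p) => e a b)⁻¹ a b) * e b s)) := by
  classical
  set A : Matrix (Fin p) (Fin p) ℝ := Matrix.of fun (a b : Fin p) => e a b with hAdef
  let rr : Fin 2 → ℕ := ![r, r']
  let ss : Fin 2 → ℕ := ![s, s']
  let B : Matrix (Fin p) (Fin 2) ℝ := Matrix.of fun a c => e a (ss c)
  let C : Matrix (Fin 2) (Fin p) ℝ := Matrix.of fun c b => e (rr c) b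
  let D : Matrix (Fin 2) (Fin 2) ℝ := Matrix.of fun c c' => e (rr c) (ss c')
  let _ := Matrix.invertibleOfIsUnitDet A hA
  have h1 := Matrix.det_fromBlocks₁₁ A B C D
  have h2 : (Matrix.of fun (a b : Fin (p + 2)) => e (if (a : ℕ) < p then a else if (a : ℕ) = p then r else r')
        (if (b : ℕ) < p then b else if (b : ℕ) = p then s else s')).det
        = (Matrix.fromBlocks A B C D).det := by
    rw [← Matrix.det_reindex_self finSumFinEquiv (Matrix.fromBlocks A B C D)]
    congr 1
    ext a b
    rw [Matrix.reindex_apply, Matrix.submatrix_apply]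
    have key : ∀ c : Fin 2, (if ((Fin.natAdd p c : Fin (p + 2)) : ℕ) < p then ((Fin.natAdd p c : Fin (p + 2)) : ℕ)
        else if ((Fin.natAdd p c : Fin (p + 2)) : ℕ) = p then r else r') = rr c := by
      intro c
      fin_cases c <;> simp [rr]
    have key' : ∀ c : Fin 2, (if ((Fin.natAdd p c : Fin (p + 2)) : ℕ) < p then ((Fin.natAdd p c : Fin (p + 2)) : ℕ)
        else if ((Fin.natAdd p c : Fin (p + 2)) : ℕ) = p then s else s') = ss c := by
      intro c
      fin_cases c <;> simp [ss]
    refine Fin.addCases (fun a' => ?_) (fun a' => ?_) a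
    · refine Fin.addCases (fun b' => ?_) (fun b' => ?_) b
      · simp [A]
      · rw [Matrix.of_apply, key' b']
        simp [B]
    · refine Fin.addCases (fun b' => ?_) (fun b' => ?_) b
      · rw [Matrix.of_apply, key a']
        simp [C]
      · rw [Matrix.of_apply, key a', key' b']
        simp [D]
  have hent : ∀ c c' : Fin 2, (D - C * ⅟A * B) c c'
      = e (rr c) (ss c') - ∑ b : Fin p, (∑ a : Fin p, e (rr c) a * A⁻¹ a b) * e b (ss c') := by
    intro c c'
    rw [Matrix.sub_apply, Matrix.mul_apply]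
    congr 1
  rw [h2, h1]
  congr 1
  rw [Matrix.det_fin_two, hent, hent, hent, hent]
  simp only [rr, ss, Matrix.cons_val_zero, Matrix.cons_val_one]

/-- the Desnanot-Jacobi identity in the generic case -/
lemma desnanot_of_isUnit {p : ℕ} (e : ℕ → ℕ → ℝ) (r r' s s' : ℕ)
    (hA : IsUnit (Matrix.of fun (a b : Fin p) => e a b).det) :
    (Matrix.of fun (a b : Fin p) => e a b).det *
    (Matrix.of fun (a b : Fin (p + 2)) => e (if (a : ℕ) < p then a else if (a : ℕ) = p then r else r')
        (if (b : ℕ) < p then b else if (b : ℕ) = p then s else s')).det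
      = (Matrix.of fun (a b : Fin (p + 1)) => e (if (a : ℕ) < p then a else r)
          (if (b : ℕ) < p then b else s)).det *
        (Matrix.of fun (a b : Fin (p + 1)) => e (if (a : ℕ) < p then a else r')
          (if (b : ℕ) < p then b else s')).det -
        (Matrix.of fun (a b : Fin (p + 1)) => e (if (a : ℕ) < p then a else r)
          (if (b : ℕ) < p then b else s')).det *
        (Matrix.of fun (a b : Fin (p + 1)) => e (if (a : ℕ) < p then a else r')
          (if (b : ℕ) < p then b else s)).det := by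
  rw [det_border2 e r r' s s' hA, det_border e r s hA, det_border e r' s' hA,
    det_border e r s' hA, det_border e r' s hA]
  ring

/-- the Desnanot-Jacobi identity (bordered determinants) -/
lemma desnanot (p : ℕ) (e : ℕ → ℕ → ℝ) (r r' s s' : ℕ) :
    (Matrix.of fun (a b : Fin p) => e a b).det *
    (Matrix.of fun (a b : Fin (p + 2)) => e (if (a : ℕ) < p then a else if (a : ℕ) = p then r else r')
        (if (b : ℕ) < p then b else if (b : ℕ) = p then s else s')).det
      = (Matrix.of fun (a b : Fin (p + 1)) => e (if (a : ℕ) < p then a else r)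
          (if (b : ℕ) < p then b else s)).det *
        (Matrix.of fun (a b : Fin (p + 1)) => e (if (a : ℕ) < p then a else r')
          (if (b : ℕ) < p then b else s')).det -
        (Matrix.of fun (a b : Fin (p + 1)) => e (if (a : ℕ) < p then a else r)
          (if (b : ℕ) < p then b else s')).det *
        (Matrix.of fun (a b : Fin (p + 1)) => e (if (a : ℕ) < p then a else r')
          (if (b : ℕ) < p then b else s)).det := by
  classical
  let eε : ℝ → ℕ → ℕ → ℝ := fun ε a b => e a b + if a = b ∧ a < p then ε else 0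
  have hc : ∀ a b, Continuous (fun ε => eε ε a b) := by
    intro a b
    simp only [eε]
    split_ifs
    · exact continuous_const.add continuous_id
    · exact continuous_const.add continuous_const
  have hcd : ∀ (q : ℕ) (f g : Fin q → ℕ), Continuous (fun ε =>
      (Matrix.of fun (a b : Fin q) => eε ε (f a) (g b)).det) := by
    intro q f g
    apply Continuous.matrix_det
    apply continuous_matrix
    intro a b
    exact hc _ _
  -- the set of good parameters is dense
  set A : Matrix (Fin p) (Fin p) ℝ := Matrix.of fun (a b : Fin p) => e a b with hAdef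
  have hdense : Dense {ε : ℝ | (Matrix.of fun (a b : Fin p) => eε ε a b).det ≠ 0} := by
    have h1 : {ε : ℝ | (Matrix.of fun (a b : Fin p) => eε ε a b).det ≠ 0}
        = ((((-A).charpoly.roots.toFinset : Finset ℝ) : Set ℝ))ᶜ := by
      ext ε
      have h2 : (Matrix.of fun (a b : Fin p) => eε ε a b) = Matrix.scalar (Fin p) ε - (-A) := by
        ext a b
        rw [Matrix.sub_apply, Matrix.neg_apply, Matrix.scalar_apply, Matrix.diagonal_apply]
        simp only [eε, Matrix.of_apply, A, Fin.is_lt, and_true]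
        by_cases hab : a = b
        · subst hab; simp; ring
        · have : ¬ (a : ℕ) = b := fun h => hab (Fin.ext h)
          simp [hab, this]
      simp only [Set.mem_ofPred_eq, Set.mem_compl_iff, Finset.mem_coe, Multiset.mem_toFinset]
      rw [h2, ← Matrix.eval_charpoly, Polynomial.mem_roots (Matrix.charpoly_monic _).ne_zero,
        Polynomial.IsRoot]
    rw [h1]
    exact (Finset.finite_toSet _).countable.dense_compl ℝ
  have hL : Continuous (fun ε => (Matrix.of fun (a b : Fin p) => eε ε a b).det *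
    (Matrix.of fun (a b : Fin (p + 2)) => eε ε (if (a : ℕ) < p then a else if (a : ℕ) = p then r else r')
        (if (b : ℕ) < p then b else if (b : ℕ) = p then s else s')).det) :=
    (hcd p (fun a => a) (fun b => b)).mul (hcd (p + 2) _ _)
  have hR : Continuous (fun ε => (Matrix.of fun (a b : Fin (p + 1)) => eε ε (if (a : ℕ) < p then a else r)
          (if (b : ℕ) < p then b else s)).det *
        (Matrix.of fun (a b : Fin (p + 1)) => eε ε (if (a : ℕ) < p then a else r')
          (if (b : ℕ) < p then b else s')).det -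
        (Matrix.of fun (a b : Fin (p + 1)) => eε ε (if (a : ℕ) < p then a else r)
          (if (b : ℕ) < p then b else s')).det *
        (Matrix.of fun (a b : Fin (p + 1)) => eε ε (if (a : ℕ) < p then a else r')
          (if (b : ℕ) < p then b else s)).det) :=
    ((hcd (p + 1) _ _).mul (hcd (p + 1) _ _)).sub ((hcd (p + 1) _ _).mul (hcd (p + 1) _ _))
  have heq := Continuous.ext_on hdense hL hR (fun ε hε =>
    desnanot_of_isUnit (eε ε) r r' s s' (isUnit_iff_ne_zero.2 hε))
  have h0 := congrFun heq 0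
  have e0 : eε 0 = e := by
    funext a b
    simp [eε]
  simp only [e0] at h0
  exact h0

/-- the derivative of `W_{p+1}` -/
noncomputable def dW (v : ℕ → ℝ → ℝ) {n : ℕ} (Y : ℕ → Fin n → ℝ) (p : ℕ) (t : ℝ) : ℝ :=
  v p t * (Matrix.of fun (a b : Fin (p + 1)) => rw' v Y t (skipR p a) b).det

lemma hasDerivAt_W {v : ℕ → ℝ → ℝ} {T : ℝ} (hv : Wt v T) {n : ℕ} (Y : ℕ → Fin n → ℝ) (p : ℕ)
    (t : ℝ) : HasDerivAt (DR v (Ym Y (p + 1))) (dW v Y p t) t := hasDerivAt_DR_Ym hv Y p t

lemma deriv_W {v : ℕ → ℝ → ℝ} {T : ℝ} (hv : Wt v T) {n : ℕ} (Y : ℕ → Fin n → ℝ) (p : ℕ)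
    (t : ℝ) : deriv (DR v (Ym Y (p + 1))) t = dW v Y p t := (hasDerivAt_DR_Ym hv Y p t).deriv

lemma rw'_swap (v : ℕ → ℝ → ℝ) {n : ℕ} (Y : ℕ → Fin n → ℝ) (p : ℕ) (t : ℝ) (a b : ℕ)
    (hb : b < p + 1) :
    rw' v (Y ∘ Equiv.swap p (p + 1)) t a b = rw' v Y t a (if b < p then b else p + 1) := by
  unfold rw'
  refine Finset.sum_congr rfl fun l _ => ?_
  congr 1
  simp only [Function.comp_apply]
  split_ifs with h
  · rw [Equiv.swap_apply_of_ne_of_ne (by omega) (by omega)]
  · have : b = p := by omega
    rw [this, Equiv.swap_apply_left]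

/-- IDENTITY: `v_p W_p W_{p+2} = W_{p+1} W~' - W' W~`, `W~` = `W_{p+1}` of the flag with
`Y_p, Y_{p+1}` interchanged -/
lemma W_identity (v : ℕ → ℝ → ℝ) {n : ℕ} (Y : ℕ → Fin n → ℝ) (p : ℕ) (t : ℝ) :
    v p t * (DR v (Ym Y p) t * DR v (Ym Y (p + 2)) t)
      = DR v (Ym Y (p + 1)) t * dW v (Y ∘ Equiv.swap p (p + 1)) p t
        - dW v Y p t * DR v (Ym (Y ∘ Equiv.swap p (p + 1)) (p + 1)) t := by
  have h := desnanot p (fun a b => rw' v Y t a b) p (p + 1) p (p + 1)
  have e1 : (Matrix.of fun (a b : Fin (p + 2)) => rw' v Y t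
        (if (a : ℕ) < p then a else if (a : ℕ) = p then p else p + 1)
        (if (b : ℕ) < p then b else if (b : ℕ) = p then p else p + 1)).det
      = DR v (Ym Y (p + 2)) t := by
    rw [DR_Ym]
    congr 1
    ext a b
    simp only [Matrix.of_apply]
    have key : ∀ c : Fin (p + 2), (if (c : ℕ) < p then (c : ℕ) else if (c : ℕ) = p then p else p + 1)
        = c := by
      intro c
      have := c.2
      split_ifs <;> omega
    rw [key a, key b]
  have key : ∀ c : Fin (p + 1), (if (c : ℕ) < p then (c : ℕ) else p) = c := by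
    intro c
    have := c.2
    split_ifs <;> omega
  have e2 : (Matrix.of fun (a b : Fin (p + 1)) => rw' v Y t
        (if (a : ℕ) < p then a else p) (if (b : ℕ) < p then b else p)).det
      = DR v (Ym Y (p + 1)) t := by
    rw [DR_Ym]
    congr 1
    ext a b
    simp only [Matrix.of_apply]
    rw [key a, key b]
  have key2 : ∀ c : Fin (p + 1), (if (c : ℕ) < p then (c : ℕ) else p + 1) = skipR p c := by
    intro c
    have := c.2
    unfold skipR
    split_ifs
    · rfl
    · omega
  have e3 : v p t * (Matrix.of fun (a b : Fin (p + 1)) => rw' v Y t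
        (if (a : ℕ) < p then a else p + 1) (if (b : ℕ) < p then b else p + 1)).det
      = dW v (Y ∘ Equiv.swap p (p + 1)) p t := by
    unfold dW
    congr 2
    ext a b
    simp only [Matrix.of_apply]
    rw [key2 a, rw'_swap v Y p t _ _ b.2]
  have e4 : (Matrix.of fun (a b : Fin (p + 1)) => rw' v Y t
        (if (a : ℕ) < p then a else p) (if (b : ℕ) < p then b else p + 1)).det
      = DR v (Ym (Y ∘ Equiv.swap p (p + 1)) (p + 1)) t := by
    rw [DR_Ym]
    congr 1
    ext a b
    simp only [Matrix.of_apply]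
    rw [key a, rw'_swap v Y p t _ _ b.2]
  have e5 : v p t * (Matrix.of fun (a b : Fin (p + 1)) => rw' v Y t
        (if (a : ℕ) < p then a else p + 1) (if (b : ℕ) < p then b else p)).det
      = dW v Y p t := by
    unfold dW
    congr 2
    ext a b
    simp only [Matrix.of_apply]
    rw [key2 a, key b]
  rw [e1, e2, e4] at h
  rw [← e3, ← e5, DR_Ym v Y p t, h]
  ring

/-! ## good flags: zero sets -/

lemma DR_Ym_zero (v : ℕ → ℝ → ℝ) {n : ℕ} (Y : ℕ → Fin n → ℝ) (t : ℝ) : DR v (Ym Y 0) t = 1 := by
  unfold DR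
  exact Matrix.det_isEmpty

/-- nonvanishing near the ends -/
lemma exists_bound_DR {v : ℕ → ℝ → ℝ} {T : ℝ} (hv : Wt v T) {n p : ℕ} (h : p ≤ n)
    (X : Matrix (Fin n) (Fin p) ℝ) (hX : ¬ VanInf 1 X) :
    ∃ T' : ℝ, ∀ t, T' ≤ |t| → DR v X t ≠ 0 := by
  rw [not_vanInf_last_iff h] at hX
  have hL : cst n p * (X.submatrix (lastI h) id).det ≠ 0 := mul_ne_zero (cst_ne_zero n p) hX
  have h1 := (tendsto_DR_atTop hv h X hX).eventually_ne hL
  have h2 := (tendsto_DR_atBot hv h X hX).eventually_ne hL
  obtain ⟨a, ha⟩ := eventually_atTop.1 h1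
  obtain ⟨b, hb⟩ := eventually_atBot.1 h2
  refine ⟨max |a| |b|, fun t ht h0 => ?_⟩
  rcases le_or_gt 0 t with ht0 | ht0
  · rw [abs_of_nonneg ht0] at ht
    apply ha t ((le_abs_self a).trans ((le_max_left _ _).trans ht))
    rw [h0, zero_div]
  · rw [abs_of_neg ht0] at ht
    apply hb t
    · have h3 : |b| ≤ -t := (le_max_right _ _).trans ht
      have h4 := neg_le_abs b
      linarith
    · rw [h0, zero_div]

/-- in a good flag all zeros of all `W_j` are simple -/
lemma good_simple {v : ℕ → ℝ → ℝ} {T : ℝ} (hv : Wt v T) {n k : ℕ} {Y : ℕ → Fin n → ℝ}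
    (hY : Good v k Y) {p : ℕ} (hp : p + 1 ≤ k) (t : ℝ) (h0 : DR v (Ym Y (p + 1)) t = 0) :
    dW v Y p t ≠ 0 := by
  rcases hp.eq_or_lt with h | h
  · have h1 := hY.simple t
    rw [← h] at h1
    rw [← deriv_W hv]
    exact h1 h0
  · have hid := W_identity v Y p t
    rw [h0, zero_mul, zero_sub] at hid
    intro h1
    rw [h1, zero_mul, neg_zero] at hid
    have hv0 : v p t ≠ 0 := (hv.pos p t).ne'
    have hr : DR v (Ym Y (p + 2)) t ≠ 0 := fun h2 => hY.nocommon (p + 1) (Nat.succ_pos p) h t ⟨h0, h2⟩
    have hp0 : DR v (Ym Y p) t ≠ 0 := by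
      rcases Nat.eq_zero_or_pos p with h2 | h2
      · subst h2
        rw [DR_Ym_zero]
        exact one_ne_zero
      · exact fun h3 => hY.nocommon p h2 (by omega) t ⟨h3, h0⟩
    exact mul_ne_zero hv0 (mul_ne_zero hp0 hr) hid

end Pool.Agent.GC18
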