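import Pool.Agent.GC18.TheoremT
import Pool.Agent.GC18.DetTools

/-!
# Grassmann convexity (MP_5fea31_an): boundedness of the solutions (par. 6)   (helper45)
-/

set_option autoImplicit false

namespace Pool.Agent.GC18

open Matrix Filter Topology Set

namespace Bdd

lemma lastI_eq_natAdd {m k : ℕ} (h : k ≤ m + k) : (lastI h : Fin k → Fin (m + k)) = Fin.natAdd m := by
  funext b
  apply Fin.ext
  simp [lastI]

lemma submatrix_Xinf_mul {m k : ℕ} (x : Fin (m * k) → ℂ) (C : Matrix (Fin k) (Fin k) ℂ) :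
    ((Xinf x : Matrix (Fin (m + k)) (Fin k) ℂ) * C).submatrix (Fin.natAdd m) id = C := by
  ext b c
  rw [Matrix.submatrix_apply, Matrix.mul_apply]
  simp only [Xinf_apply_natAdd, id, ite_mul, one_mul, zero_mul]
  simp

lemma coord {m k : ℕ} (x : Fin (m * k) → ℂ) (C : Matrix (Fin k) (Fin k) ℂ) (hC : C.det ≠ 0)
    (q : Fin (m * k)) : x q = ((Xinf x * C) * C.adjugate)
      (Fin.castAdd k (finProdFinEquiv.symm q).1) (finProdFinEquiv.symm q).2 / C.det := by
  rw [Matrix.mul_assoc, Matrix.mul_adjugate, Matrix.mul_smul, Matrix.mul_one, Matrix.smul_apply,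
    smul_eq_mul, Xinf_apply_castAdd, Prod.mk.eta, Equiv.apply_symm_apply, mul_div_cancel_left₀ _ hC]

lemma frequently_of_not_bdd {u : ℕ → ℝ} (h : ∀ C : ℝ, ∃ j, C < u j) (C : ℝ) :
    ∃ᶠ j in atTop, C < u j := by
  intro hev
  have h1 : IsBoundedUnder (· ≤ ·) atTop u := ⟨C, by
    rw [eventually_map]
    exact hev.mono fun j hj => not_lt.1 hj⟩
  obtain ⟨D, hD⟩ := h1.bddAbove_range
  obtain ⟨j, hj⟩ := h D
  exact absurd (hD (mem_range_self j)) (not_le.2 hj)

lemma continuous_det_Gam {w : ℕ → ℝ → ℝ} {T : ℝ} (hw : Wt w T) (n k : ℕ) :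
    Continuous (fun p : (ℝ × ℝ) × Matrix (Fin n) (Fin k) ℂ => DC (om w p.1.1) p.2 p.1.2) := by
  have h1 : Continuous (fun p : (ℝ × ℝ) × Matrix (Fin n) (Fin k) ℂ =>
      toC (Gam (om w p.1.1) k n p.1.2)) := by
    refine continuous_toC.comp (continuous_matrix fun a b => ?_)
    simp only [Gam, Matrix.of_apply]
    exact (contDiff_ge_om hw a b).continuous.comp continuous_fst
  exact (h1.matrix_mul continuous_snd).matrix_det

lemma tendsto_DC {w : ℕ → ℝ → ℝ} {T : ℝ} (hw : Wt w T) {n k : ℕ} {s τ : ℕ → ℝ} {s0 τ0 : ℝ}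
    {Y : ℕ → Matrix (Fin n) (Fin k) ℂ} {Y0 : Matrix (Fin n) (Fin k) ℂ}
    (hs : Tendsto s atTop (𝓝 s0)) (hτ : Tendsto τ atTop (𝓝 τ0)) (hY : Tendsto Y atTop (𝓝 Y0)) :
    Tendsto (fun i => DC (om w (s i)) (Y i) (τ i)) atTop (𝓝 (DC (om w s0) Y0 τ0)) := by
  have h2 : Tendsto (fun i => (((s i, τ i), Y i) : (ℝ × ℝ) × Matrix (Fin n) (Fin k) ℂ)) atTop
      (𝓝 ((s0, τ0), Y0)) := (hs.prodMk_nhds hτ).prodMk_nhds hY
  have h3 := ((continuous_det_Gam hw n k).tendsto ((s0, τ0), Y0)).comp h2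
  simpa only [Function.comp_def] using h3

lemma DC_mul {v : ℕ → ℝ → ℝ} {n k : ℕ} (X : Matrix (Fin n) (Fin k) ℂ) (C : Matrix (Fin k) (Fin k) ℂ)
    (t : ℝ) : DC v (X * C) t = DC v X t * C.det := by
  unfold DC
  rw [← Matrix.mul_assoc, Matrix.det_mul]

lemma tendsto_mul_adj {n k : ℕ} {Y : ℕ → Matrix (Fin n) (Fin k) ℂ} {Y0 : Matrix (Fin n) (Fin k) ℂ}
    {C : ℕ → Matrix (Fin k) (Fin k) ℂ} {C0 : Matrix (Fin k) (Fin k) ℂ}
    (hY : Tendsto Y atTop (𝓝 Y0)) (hC : Tendsto C atTop (𝓝 C0)) (hC0 : C0.det ≠ 0) (a : Fin n)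
    (b : Fin k) : Tendsto (fun i => (Y i * (C i).adjugate) a b / (C i).det) atTop
      (𝓝 ((Y0 * C0.adjugate) a b / C0.det)) := by
  have hc : Continuous fun p : Matrix (Fin n) (Fin k) ℂ × Matrix (Fin k) (Fin k) ℂ =>
      (p.1 * p.2.adjugate) a b :=
    (continuous_fst.matrix_mul continuous_snd.matrix_adjugate).matrix_elem a b
  have h1 : Tendsto (fun i => (Y i * (C i).adjugate) a b) atTop (𝓝 ((Y0 * C0.adjugate) a b)) := by
    have h := (hc.tendsto (Y0, C0)).comp (hY.prodMk_nhds hC)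
    simpa only [Function.comp_def] using h
  have hd : Continuous fun Z : Matrix (Fin k) (Fin k) ℂ => Z.det := continuous_id.matrix_det
  have h3 : Tendsto (fun i => (C i).det) atTop (𝓝 C0.det) := by
    have h := (hd.tendsto C0).comp hC
    simpa only [Function.comp_def] using h
  exact h1.div h3 hC0

end Bdd

open Bdd in
theorem Bdd (hCpt : S_Cpt) : S_Bdd := by
  classical
  intro w T hw m k s s0 hs hs0 hG t t0 ht ht0 x hx
  by_contra hcon
  push Not at hcon
  obtain ⟨ψ, hψ, hψ2⟩ := extraction_forall_of_frequently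
    (fun n : ℕ => frequently_of_not_bdd hcon (n : ℝ))
  obtain ⟨φ, C, X0, hφ, hC, hX0, hlim⟩ := hCpt (m + k) k (fun i => Xinf (x (ψ i)))
    (fun i => Full_Xinf _)
  have hρ : Tendsto (fun i => ψ (φ i)) atTop atTop :=
    (hψ.comp hφ).tendsto_atTop
  -- the zeros of the limit
  have hz : ∀ l, DC (om w s0) X0 (t0 l) = 0 := by
    intro l
    have h1 := tendsto_DC hw (hs0.comp hρ) (((tendsto_pi_nhds.1 ht) l).comp hρ) hlim
    have h3 : (fun i => DC (om w ((s ∘ fun i => ψ (φ i)) i)) (Xinf (x (ψ (φ i))) * C i)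
        (((fun i => t i l) ∘ fun i => ψ (φ i)) i)) = fun _ => 0 := by
      funext i
      rw [DC_mul]
      have := hx (ψ (φ i)) l
      simp only [Function.comp_apply]
      rw [this, zero_mul]
    rw [h3] at h1
    exact tendsto_nhds_unique h1 tendsto_const_nhds
  -- the limit is in the chart at infinity
  have hinf : ¬ VanInf 1 X0 := by
    intro hv
    have h1 := hG X0 hX0 1 hv (Finset.univ.image t0) (fun _ => 1) (by
      intro a ha j hj
      obtain ⟨l, -, rfl⟩ := Finset.mem_image.1 ha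
      have : j = 0 := by omega
      subst this
      rw [iteratedDeriv_zero]
      exact hz l)
    rw [Finset.sum_const, smul_eq_mul, mul_one, Finset.card_image_of_injective _ ht0,
      Finset.card_univ, Fintype.card_fin] at h1
    omega
  rw [not_vanInf_last_iff (Nat.le_add_left k m), lastI_eq_natAdd] at hinf
  -- the column operations converge
  have hCl : Tendsto C atTop (𝓝 (X0.submatrix (Fin.natAdd m) id)) := by
    have hc : Continuous fun Z : Matrix (Fin (m + k)) (Fin k) ℂ => Z.submatrix (Fin.natAdd m) id :=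
      Continuous.matrix_submatrix continuous_id _ _
    have h1 := (hc.tendsto X0).comp hlim
    refine h1.congr fun i => ?_
    exact submatrix_Xinf_mul (x (ψ (φ i))) (C i)
  -- the coordinates converge
  have hcoord : ∀ q, Tendsto (fun i => x (ψ (φ i)) q) atTop
      (𝓝 ((X0 * (X0.submatrix (Fin.natAdd m) id).adjugate)
        (Fin.castAdd k (finProdFinEquiv.symm q).1) (finProdFinEquiv.symm q).2 /
          (X0.submatrix (Fin.natAdd m) id).det)) := by
    intro q
    refine (tendsto_mul_adj hlim hCl hinf (Fin.castAdd k (finProdFinEquiv.symm q).1)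
      (finProdFinEquiv.symm q).2).congr fun i => ?_
    exact (coord (x (ψ (φ i))) (C i) (hC i) q).symm
  have hx0 := tendsto_pi_nhds.2 hcoord
  have hn := hx0.norm
  obtain ⟨D, hD⟩ := hn.bddAbove_range
  obtain ⟨i, hi⟩ := exists_nat_gt D
  have h1 : ‖x (ψ (φ i))‖ ≤ D := hD (mem_range_self i)
  have h2 : (φ i : ℝ) < ‖x (ψ (φ i))‖ := hψ2 (φ i)
  have h3 : (i : ℝ) ≤ φ i := by exact_mod_cast hφ.le_apply
  linarith

end Pool.Agent.GC18
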