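import Pool.Agent.GC18.Rich

/-!
# Grassmann convexity (MP_5fea31_an): closing (par. 8)   (helper70)

* `Exch` : EXCHANGE, from `S_P1` and `S_FIN`
* `Close` : the property `G` passes to the right end of the interval
-/

set_option autoImplicit false

namespace Pool.Agent.GC18

open Matrix Filter Topology Set

open scoped Classical

/-! ## basic facts on `InS` -/

private lemma VanAt.mono {F : Type*} [NormedAddCommGroup F] [NormedSpace ℝ F] {f : ℝ → F} {q q' : ℕ} {t : ℝ}
    (h : VanAt f q t) (hq : q' ≤ q) : VanAt f q' t := fun j hj => h j (lt_of_lt_of_le hj hq)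

private lemma InS.mono {v : ℕ → ℝ → ℝ} {m k : ℕ} {M M' : Multiset (WithTop ℝ)}
    {X : Matrix (Fin (m + k)) (Fin k) ℂ} (h : InS v M X) (hM : M' ≤ M) : InS v M' X :=
  ⟨fun a => (h.1 a).mono (Multiset.count_le_of_le _ hM), h.2.mono (Multiset.count_le_of_le _ hM)⟩

private lemma InS.mul_right {v : ℕ → ℝ → ℝ} {m k : ℕ} {M : Multiset (WithTop ℝ)}
    {X : Matrix (Fin (m + k)) (Fin k) ℂ} (h : InS v M X) (C : Matrix (Fin k) (Fin k) ℂ) :
    InS v M (X * C) := by
  refine ⟨fun a j hj => ?_, VanInf_mul_right h.2 C⟩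
  have h1 : DC v (X * C) = fun t => C.det * DC v X t := by
    funext t; rw [DC_mul_right, mul_comm]
  have h2 := h.1 a j hj
  rw [h1, iteratedDeriv_const_mul_field, h2, mul_zero]

/-- add one simple real zero -/
private lemma InS.cons {v : ℕ → ℝ → ℝ} {m k : ℕ} {M : Multiset (WithTop ℝ)}
    {X : Matrix (Fin (m + k)) (Fin k) ℂ} (h : InS v M X) {y : ℝ} (hy : (y : WithTop ℝ) ∉ M)
    (h0 : DC v X y = 0) : InS v ((y : WithTop ℝ) ::ₘ M) X := by
  refine ⟨fun a => ?_, ?_⟩
  · by_cases hay : a = y
    · subst hay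
      rw [Multiset.count_cons_self, Multiset.count_eq_zero_of_notMem hy]
      intro j hj
      have : j = 0 := by omega
      subst this
      simpa using h0
    · have : (a : WithTop ℝ) ≠ y := by simpa using hay
      rw [Multiset.count_cons_of_ne this]
      exact h.1 a
  · have : (⊤ : WithTop ℝ) ≠ y := WithTop.top_ne_coe
    rw [Multiset.count_cons_of_ne this]
    exact h.2

/-! ## a chart at a given plane -/

/-- every full matrix is, up to column operations, a permuted `Xinf` -/
private lemma exists_chart {m k : ℕ} {X : Matrix (Fin (m + k)) (Fin k) ℂ} (hX : Full X) :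
    ∃ (g : Matrix (Fin (m + k)) (Fin (m + k)) ℝ) (C : Matrix (Fin k) (Fin k) ℂ)
      (x0 : Fin (m * k) → ℂ), g.det ≠ 0 ∧ C.det ≠ 0 ∧ toC g * Xinf x0 = X * C := by
  obtain ⟨I, C, hinj, hC, -, hId, -⟩ := exists_echelon_top hX
  -- a permutation `σ` with `σ (I b) = natAdd m b`
  let e : Fin k ≃ {j // ∃ b, I b = j} :=
    (Equiv.ofInjective I hinj).trans (Equiv.subtypeEquivRight fun j => by simp [Set.mem_range])
  let e' : Fin k ≃ {j : Fin (m + k) // ∃ b : Fin k, Fin.natAdd m b = j} :=
    (Equiv.ofInjective (Fin.natAdd m) (Fin.natAdd_injective k m)).trans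
      (Equiv.subtypeEquivRight fun j => by simp [Set.mem_range])
  let σ : Equiv.Perm (Fin (m + k)) := (e.symm.trans e').extendSubtype
  have hσ : ∀ b, σ (I b) = Fin.natAdd m b := by
    intro b
    have h1 : σ (I b) = ((e.symm.trans e') ⟨I b, b, rfl⟩ : {j : Fin (m + k) // ∃ b : Fin k, Fin.natAdd m b = j}) :=
      Equiv.extendSubtype_apply_of_mem _ _ _
    rw [h1]
    have h2 : e.symm ⟨I b, b, rfl⟩ = b := by
      rw [Equiv.symm_apply_eq]; rfl
    rw [Equiv.trans_apply, h2]; rfl
  let g : Matrix (Fin (m + k)) (Fin (m + k)) ℝ := Matrix.of fun i j => if σ i = j then 1 else 0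
  have hg : g = σ.permMatrix ℝ := by
    ext i j
    simp [g, Equiv.Perm.permMatrix, PEquiv.toMatrix_apply, eq_comm]
  let x0 : Fin (m * k) → ℂ := fun q => (X * C) (σ.symm (Fin.castAdd k (finProdFinEquiv.symm q).1)) (finProdFinEquiv.symm q).2
  refine ⟨g, C, x0, ?_, hC, ?_⟩
  · rw [hg, Matrix.det_permutation]
    simp
  · ext i c
    have h1 : (toC g * Xinf x0) i c = Xinf x0 (σ i) c := by
      rw [Matrix.mul_apply]
      rw [Finset.sum_eq_single (σ i)]
      · simp [toC, g]
      · intro j _ hj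
        simp [toC, g, hj.symm]
      · simp
    rw [h1]
    obtain ⟨j, rfl⟩ : ∃ j, i = σ.symm j := ⟨σ i, by simp⟩
    rw [Equiv.apply_symm_apply]
    refine Fin.addCases (fun a => ?_) (fun b => ?_) j
    · have h3 : finProdFinEquiv.symm (finProdFinEquiv (a, c)) = (a, c) := Equiv.symm_apply_apply _ _
      simp only [Xinf, x0, Matrix.of_apply, Fin.addCases_left, h3]
    · have h2 : σ.symm (Fin.natAdd m b) = I b := by rw [← hσ b]; simp
      rw [h2, hId]
      simp [Xinf]

/-! ## EXCHANGE -/

theorem Exch (hP1 : S_P1) (hFIN : S_FIN) : S_Exch := by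
  intro w T hw m k hm hk s hs hprev M hM ⟨X, hX, hXM⟩
  -- it suffices to treat a real `a`
  have main : ∀ (a : ℝ) (b : WithTop ℝ), (a : WithTop ℝ) ∈ M → b ∈ M → (a : WithTop ℝ) ≠ b →
      ∀ y : ℝ, (y : WithTop ℝ) ∉ M →
      (∃ X : Matrix (Fin (m + k)) (Fin k) ℂ, Full X ∧ InS (om w s) ((y : WithTop ℝ) ::ₘ M.erase a) X) ∨
      (∃ X : Matrix (Fin (m + k)) (Fin k) ℂ, Full X ∧ InS (om w s) ((y : WithTop ℝ) ::ₘ M.erase b) X) := by
    intro a b ha hb hab y hy
    have hs' : s ∈ Icc (0 : ℝ) 1 := ⟨hs.1.le, hs.2⟩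
    have hwt := wt_om hw hs'
    obtain ⟨g, C, x0, hg, hC, hgx⟩ := exists_chart hX
    have hgC : (toC g).det ≠ 0 := by rw [toC_det]; exact_mod_cast hg
    have hx0 : InS (om w s) M (toC g * Xinf x0) := by rw [hgx]; exact hXM.mul_right C
    -- the infinite case
    have hinf : ∀ c ∈ M, {x : Fin (m * k) → ℂ | InS (om w s) (M.erase c) (toC g * Xinf x)}.Infinite →
        ∃ X : Matrix (Fin (m + k)) (Fin k) ℂ, Full X ∧ InS (om w s) ((y : WithTop ℝ) ::ₘ M.erase c) X := by
      intro c hc h
      obtain ⟨X', h1, h2, h3⟩ := hFIN (om w s) T hwt m k (M.erase c) (toC g) hgC h y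
      exact ⟨X', h1, h2.cons (fun hmem => hy (Multiset.mem_of_mem_erase hmem)) h3⟩
    by_cases hA : {x : Fin (m * k) → ℂ | InS (om w s) (M.erase a) (toC g * Xinf x)}.Infinite
    · exact Or.inl (hinf a ha hA)
    by_cases hB : {x : Fin (m * k) → ℂ | InS (om w s) (M.erase b) (toC g * Xinf x)}.Infinite
    · exact Or.inr (hinf b hb hB)
    exfalso
    -- the finite case
    have hfin : ∀ c ∈ M, ¬ {x : Fin (m * k) → ℂ | InS (om w s) (M.erase c) (toC g * Xinf x)}.Infinite →
        ∃ y0 : Fin (m * k) → ℝ, (x0 = fun i => (y0 i : ℂ)) ∧ ∀ a : ℝ, ∀ᶠ η in 𝓝[>] (0 : ℝ),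
          0 < (-1 : ℝ) ^ ((M.erase c).count (a : WithTop ℝ)) *
            (DR (om w s) (g * Xinf y0) (a - η) * DR (om w s) (g * Xinf y0) (a + η)) := by
      intro c hc h
      rw [Set.not_infinite] at h
      have hcard : Multiset.card (M.erase c) = m * k := by
        rw [Multiset.card_erase_of_mem hc, hM]; rfl
      have hx0c : InS (om w s) (M.erase c) (toC g * Xinf x0) := hx0.mono (Multiset.erase_le _ _)
      refine hP1 w T hw m k hm hk s hs hprev (M.erase c) hcard g hg x0 hx0c ?_
      have hcl : IsClosed ({x : Fin (m * k) → ℂ | InS (om w s) (M.erase c) (toC g * Xinf x)} \ {x0}) :=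
        (h.subset Set.sdiff_subset).isClosed
      have hopen : ({x : Fin (m * k) → ℂ | InS (om w s) (M.erase c) (toC g * Xinf x)} \ {x0})ᶜ ∈ 𝓝 x0 :=
        hcl.isOpen_compl.mem_nhds (by simp)
      obtain ⟨R, hR, hRsub⟩ := Metric.nhds_basis_closedBall.mem_iff.1 hopen
      refine ⟨R, hR, fun x hx hxS => ?_⟩
      by_contra hne
      exact hRsub hx ⟨hxS, hne⟩
    obtain ⟨y1, hy1, hs1⟩ := hfin a ha hA
    obtain ⟨y2, hy2, hs2⟩ := hfin b hb hB
    have hy12 : y1 = y2 := by
      funext i
      have := congrFun (hy1.symm.trans hy2) i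
      exact_mod_cast this
    subst hy12
    have hc1 : (M.erase (a : WithTop ℝ)).count (a : WithTop ℝ) + 1 = M.count (a : WithTop ℝ) := by
      have h1 := Multiset.count_erase_self (a : WithTop ℝ) M
      have h2 : 0 < M.count (a : WithTop ℝ) := Multiset.count_pos.2 ha
      omega
    have hc2 : (M.erase b).count (a : WithTop ℝ) = M.count (a : WithTop ℝ) :=
      Multiset.count_erase_of_ne hab M
    obtain ⟨η, h1, h2⟩ := ((hs1 a).and (hs2 a)).exists
    rw [hc2, ← hc1, pow_succ] at h2
    nlinarith [h1, h2]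
  intro a ha b hb hab y hy
  induction a using WithTop.recTopCoe with
  | top =>
    induction b using WithTop.recTopCoe with
    | top => exact absurd rfl hab
    | coe b => exact (main b ⊤ hb ha (by simp) y hy).symm
  | coe a => exact main a b ha hb hab y hy

/-! ## the end of par. 8 -/

/-- bad configurations -/
private def Bad (v : ℕ → ℝ → ℝ) (m k : ℕ) (M : Multiset (WithTop ℝ)) : Prop :=
  Multiset.card M = m * k + 1 ∧ ∃ X : Matrix (Fin (m + k)) (Fin k) ℂ, Full X ∧ InS v M X

/-- a finite set of reals as a multiset of points of `ℝ ∪ {∞}` -/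
private noncomputable def upB (B : Finset ℝ) : Multiset (WithTop ℝ) := B.val.map (fun y : ℝ => (y : WithTop ℝ))

private lemma mem_upB {B : Finset ℝ} {y : ℝ} : (y : WithTop ℝ) ∈ upB B ↔ y ∈ B := by
  simp [upB]

private lemma top_not_mem_upB {B : Finset ℝ} : (⊤ : WithTop ℝ) ∉ upB B := by
  simp [upB]

private lemma nodup_upB (B : Finset ℝ) : (upB B).Nodup :=
  B.nodup.map WithTop.coe_injective

private lemma count_upB (B : Finset ℝ) (y : ℝ) : (upB B).count (y : WithTop ℝ) = if y ∈ B then 1 else 0 := by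
  rw [Multiset.count_eq_of_nodup (nodup_upB B)]
  simp only [mem_upB]

private lemma card_upB (B : Finset ℝ) : Multiset.card (upB B) = B.card := by
  simp [upB]

private lemma upB_insert {B : Finset ℝ} {y : ℝ} (hy : y ∉ B) : upB (insert y B) = (y : WithTop ℝ) ::ₘ upB B := by
  simp [upB, Finset.insert_val_of_notMem hy]

/-- moving the points to large numbers -/
private lemma move {v : ℕ → ℝ → ℝ} {m k : ℕ}
    (hE : ∀ M : Multiset (WithTop ℝ), Bad v m k M → ∀ a ∈ M, ∀ b ∈ M, a ≠ b →
      ∀ y : ℝ, (y : WithTop ℝ) ∉ M →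
      Bad v m k ((y : WithTop ℝ) ::ₘ M.erase a) ∨ Bad v m k ((y : WithTop ℝ) ::ₘ M.erase b)) :
    ∀ (n : ℕ) (A : Multiset (WithTop ℝ)), Multiset.card A = n → A ≠ 0 → ∀ (R : ℝ) (B : Finset ℝ), (∀ y ∈ B, R < y) →
      Bad v m k (A + upB B) → ∃ a ∈ A, ∃ q : ℕ, 1 ≤ q ∧ ∃ B' : Finset ℝ, (∀ y ∈ B', R < y) ∧
        Bad v m k (Multiset.replicate q a + upB B') := by
  intro n
  induction n with
  | zero =>
    intro A hA hA0
    exact absurd (Multiset.card_eq_zero.1 hA) hA0
  | succ n ih =>
    intro A hA hA0 R B hB hbad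
    by_cases hall : ∀ a ∈ A, ∀ b ∈ A, a = b
    · obtain ⟨a, ha⟩ := Multiset.exists_mem_of_ne_zero hA0
      refine ⟨a, ha, n + 1, by omega, B, hB, ?_⟩
      have : A = Multiset.replicate (n + 1) a := Multiset.eq_replicate.2 ⟨hA, fun b hb => hall b hb a ha⟩
      rw [← this]; exact hbad
    · push Not at hall
      obtain ⟨a, ha, b, hb, hab⟩ := hall
      -- a new point
      obtain ⟨y, hyR, hyM⟩ : ∃ y : ℝ, R < y ∧ (y : WithTop ℝ) ∉ A + upB B := by
        have hfin : {y : ℝ | (y : WithTop ℝ) ∈ A + upB B}.Finite := by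
          have h1 : {x : WithTop ℝ | x ∈ A + upB B}.Finite := by
            have : {x : WithTop ℝ | x ∈ A + upB B} = ((A + upB B).toFinset : Set (WithTop ℝ)) := by
              ext x; simp
            rw [this]; exact Finset.finite_toSet _
          exact h1.preimage (WithTop.coe_injective.injOn)
        obtain ⟨y, hy⟩ := (Set.Ioi_infinite R).exists_notMem_finite hfin
        exact ⟨y, hy.1, hy.2⟩
      have hyA : (y : WithTop ℝ) ∉ A := fun h => hyM (Multiset.mem_add.2 (Or.inl h))
      have hyB : y ∉ B := fun h => hyM (Multiset.mem_add.2 (Or.inr (mem_upB.2 h)))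
      have step : ∀ c ∈ A, (∃ d ∈ A, d ≠ c) → Bad v m k ((y : WithTop ℝ) ::ₘ (A + upB B).erase c) →
          ∃ a ∈ A, ∃ q : ℕ, 1 ≤ q ∧ ∃ B' : Finset ℝ, (∀ y ∈ B', R < y) ∧
            Bad v m k (Multiset.replicate q a + upB B') := by
        intro c hc ⟨d, hd, hdc⟩ hbad'
        have e : (y : WithTop ℝ) ::ₘ (A + upB B).erase c = A.erase c + upB (insert y B) := by
          rw [upB_insert hyB, Multiset.erase_add_left_pos _ hc, Multiset.add_cons]
        rw [e] at hbad'
        have hdm : d ∈ A.erase c := (Multiset.mem_erase_of_ne hdc).2 hd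
        obtain ⟨a', ha', q, hq, B', hB', hb'⟩ := ih (A.erase c)
          (by rw [Multiset.card_erase_of_mem hc, hA]; rfl)
          (fun h0 => by rw [h0] at hdm; exact absurd hdm (Multiset.notMem_zero d)) R (insert y B)
          (by
            intro z hz
            rcases Finset.mem_insert.1 hz with h | h
            · rw [h]; exact hyR
            · exact hB z h) hbad'
        exact ⟨a', Multiset.mem_of_mem_erase ha', q, hq, B', hB', hb'⟩
      rcases hE (A + upB B) hbad a (Multiset.mem_add.2 (Or.inl ha)) b (Multiset.mem_add.2 (Or.inl hb)) hab y hyM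
        with h | h
      · exact step a ha ⟨b, hb, hab.symm⟩ h
      · exact step b hb ⟨a, ha, hab⟩ h

theorem Close (hT : S_T) (hE : S_Exch) (hLim : S_Lim) (hR : S_Rich) : S_Close := by
  intro w T hw m k hm hk s hs hprev
  have hs' : s ∈ Icc (0 : ℝ) 1 := ⟨hs.1.le, hs.2⟩
  have hwt := wt_om hw hs'
  -- theorem T on [0,s)
  have hreal : ∀ s' ∈ Ico (0 : ℝ) s, GProp (om w s') m k ∧ RealProp (om w s') m k := by
    intro s' h
    refine ⟨hprev s' h, hT w T hw m k hm hk s' ⟨h.1, h.2.le.trans hs.2⟩ fun s'' h'' => ?_⟩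
    exact hprev s'' ⟨h''.1, lt_of_le_of_lt h''.2 h.2⟩
  by_contra hcon
  -- a bad multiset
  obtain ⟨M, hM⟩ : ∃ M : Multiset (WithTop ℝ), Bad (om w s) m k M := by
    unfold GProp at hcon
    push Not at hcon
    obtain ⟨X, hX, r, hr, Z, μ, hZ, hlt⟩ := hcon
    let M0 : Multiset (WithTop ℝ) :=
      (∑ t ∈ Z, Multiset.replicate (μ t) (t : WithTop ℝ)) + Multiset.replicate r ⊤
    have hM0 : Multiset.card M0 = ∑ t ∈ Z, μ t + r := by
      simp [M0]
    have hct : ∀ a : ℝ, M0.count (a : WithTop ℝ) = if a ∈ Z then μ a else 0 := by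
      intro a
      simp only [M0, Multiset.count_add, Multiset.count_sum', Multiset.count_replicate]
      have h1 : ¬ ((⊤ : WithTop ℝ) = a) := WithTop.top_ne_coe
      rw [if_neg h1, add_zero]
      have h2 : ∀ t : ℝ, ((t : WithTop ℝ) = (a : WithTop ℝ)) ↔ t = a := fun t => WithTop.coe_inj
      simp only [h2, Finset.sum_ite_eq']
    have hct2 : M0.count ⊤ = r := by
      simp only [M0, Multiset.count_add, Multiset.count_sum', Multiset.count_replicate]
      have h2 : ∀ t : ℝ, ¬ ((t : WithTop ℝ) = ⊤) := fun t => WithTop.coe_ne_top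
      simp [h2]
    have hS : InS (om w s) M0 X := by
      refine ⟨fun a => ?_, by rw [hct2]; exact hr⟩
      rw [hct]
      split_ifs with h
      · exact hZ a h
      · intro j hj; omega
    have hle : ((M0.toList.take (m * k + 1) : List (WithTop ℝ)) : Multiset (WithTop ℝ)) ≤ M0 := by
      conv_rhs => rw [← Multiset.coe_toList M0]
      exact (List.take_sublist _ _).subperm
    refine ⟨((M0.toList.take (m * k + 1) : List (WithTop ℝ)) : Multiset (WithTop ℝ)), ?_, X, hX,
      hS.mono hle⟩
    rw [Multiset.coe_card, List.length_take, Multiset.length_toList, hM0]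
    omega
  -- EXCHANGE
  have hEx : ∀ M : Multiset (WithTop ℝ), Bad (om w s) m k M → ∀ a ∈ M, ∀ b ∈ M, a ≠ b →
      ∀ y : ℝ, (y : WithTop ℝ) ∉ M →
      Bad (om w s) m k ((y : WithTop ℝ) ::ₘ M.erase a) ∨
        Bad (om w s) m k ((y : WithTop ℝ) ::ₘ M.erase b) := by
    intro M hM a ha b hb hab y hy
    have hc : ∀ c ∈ M, Multiset.card ((y : WithTop ℝ) ::ₘ M.erase c) = m * k + 1 := by
      intro c hc
      rw [Multiset.card_cons, Multiset.card_erase_of_mem hc, hM.1]; rfl
    rcases hE w T hw m k hm hk s hs hreal M hM.1 hM.2 a ha b hb hab y hy with h | h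
    · exact Or.inl ⟨hc a ha, h⟩
    · exact Or.inr ⟨hc b hb, h⟩
  have hM0 : M ≠ 0 := by
    intro h
    have := hM.1
    rw [h, Multiset.card_zero] at this
    omega
  -- points far away
  have hfar : ∀ R : ℝ, ∃ a ∈ M, ∃ q : ℕ, 1 ≤ q ∧ ∃ B' : Finset ℝ, (∀ y ∈ B', R < y) ∧
      Bad (om w s) m k (Multiset.replicate q a + upB B') := by
    intro R
    refine move hEx _ M rfl hM0 R ∅ (fun y hy => absurd hy (Finset.notMem_empty y)) ?_
    have : upB ∅ = 0 := by simp [upB]
    rw [this, add_zero]; exact hM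
  -- pigeonhole
  obtain ⟨a, q, hq, hP⟩ : ∃ (a : WithTop ℝ) (q : ℕ), 1 ≤ q ∧ ∀ j : ℕ, ∃ B' : Finset ℝ, (∀ y ∈ B', (j : ℝ) < y) ∧
      Bad (om w s) m k (Multiset.replicate q a + upB B') := by
    by_contra hno
    push Not at hno
    choose! J hJ using hno
    let D : Finset (WithTop ℝ × ℕ) := M.toFinset ×ˢ Finset.range (m * k + 2)
    obtain ⟨a, ha, q, hq, B', hB', hbad⟩ := hfar ((D.sup fun p => J p.1 p.2 : ℕ) : ℝ)
    have hcard := hbad.1
    rw [Multiset.card_add, Multiset.card_replicate, card_upB] at hcard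
    have hmem : (a, q) ∈ D := by
      simp only [D, Finset.mem_product, Multiset.mem_toFinset, Finset.mem_range]
      exact ⟨ha, by omega⟩
    have hle : J a q ≤ D.sup fun p => J p.1 p.2 := Finset.le_sup (f := fun p : WithTop ℝ × ℕ => J p.1 p.2) hmem
    refine hJ a q hq B' (fun y hy => lt_of_le_of_lt ?_ (hB' y hy)) hbad
    exact_mod_cast hle
  choose B hB hbad using hP
  have hcard : ∀ j, (B j).card = m * k + 1 - q := by
    intro j
    have := (hbad j).1
    rw [Multiset.card_add, Multiset.card_replicate, card_upB] at this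
    omega
  have hqle : q ≤ m * k + 1 := by
    have := (hbad 0).1
    rw [Multiset.card_add, Multiset.card_replicate, card_upB] at this
    omega
  set p := m * k + 1 - q with hp
  choose X hX hXS using fun j => (hbad j).2
  let z : ℕ → Fin p → ℝ := fun j => (B j).orderEmbOfFin (hcard j)
  have hzB : ∀ j i, z j i ∈ B j := fun j i => Finset.orderEmbOfFin_mem _ _ _
  have hzinj : ∀ j, Function.Injective (z j) := fun j => ((B j).orderEmbOfFin (hcard j)).injective
  have hzsurj : ∀ j, ∀ b ∈ B j, ∃ i, z j i = b := by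
    intro j b hb
    have := Finset.range_orderEmbOfFin (B j) (hcard j)
    have h2 : b ∈ Set.range ((B j).orderEmbOfFin (hcard j)) := by rw [this]; exact hb
    exact h2
  have hzt : ∀ i, Tendsto (fun j => (z j i : EReal)) atTop (𝓝 ⊤) := by
    intro i
    rw [EReal.tendsto_coe_nhds_top_iff]
    refine tendsto_atTop_mono (fun j => (hB j _ (hzB j i)).le) tendsto_natCast_atTop_atTop
  have hzc : ∀ j (b : ℝ), (Finset.univ.filter fun i => z j i = b).card = if b ∈ B j then 1 else 0 := by
    intro j b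
    split_ifs with h
    · obtain ⟨i, hi⟩ := hzsurj j b h
      rw [Finset.card_eq_one]
      refine ⟨i, ?_⟩
      ext i'
      simp only [Finset.mem_filter, Finset.mem_univ, true_and, Finset.mem_singleton]
      constructor
      · intro h'; exact hzinj j (h'.trans hi.symm)
      · intro h'; rw [h']; exact hi
    · rw [Finset.card_eq_zero, Finset.filter_eq_empty_iff]
      intro i _ h'
      exact h (h' ▸ hzB j i)
  have htend : Tendsto (fun _ : ℕ => s) atTop (𝓝 s) := tendsto_const_nhds
  have hcountR : ∀ j (b : ℝ), (Multiset.replicate q a + upB (B j)).count (b : WithTop ℝ) =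
      (if a = (b : WithTop ℝ) then q else 0) + if b ∈ B j then 1 else 0 := by
    intro j b
    rw [Multiset.count_add, Multiset.count_replicate, count_upB]
  have hcountT : ∀ j, (Multiset.replicate q a + upB (B j)).count ⊤ = if a = ⊤ then q else 0 := by
    intro j
    rw [Multiset.count_add, Multiset.count_replicate, Multiset.count_eq_zero_of_notMem top_not_mem_upB,
      add_zero]
  induction a using WithTop.recTopCoe with
  | top =>
    obtain ⟨φ, C, X0, -, -, hX0, -, hinf, -⟩ := hLim w T hw m k (fun _ => s) s (fun _ => hs') htend p q z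
      (fun _ => ⊤) hzt X (by
        intro j
        refine ⟨hX j, ?_, fun b => ?_⟩
        · have := (hXS j).2
          rwa [hcountT, if_pos rfl] at this
        · have := (hXS j).1 b
          rw [hcountR, if_neg WithTop.top_ne_coe, zero_add] at this
          rw [hzc]; exact this)
    have h1 := hR (om w s) T hwt m k X0 hX0 _ hinf 0 0 (fun j hj => absurd hj (Nat.not_lt_zero j))
    have h2 : (Finset.univ.filter fun i : Fin p => (⊤ : EReal) = ⊤ ∨ (⊤ : EReal) = ⊥).card = p := by
      simp
    rw [h2] at h1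
    omega
  | coe a =>
    let z' : ℕ → Fin (q + p) → ℝ := fun j => Fin.append (fun _ => a) (z j)
    let ζ' : Fin (q + p) → EReal := Fin.append (fun _ => (a : EReal)) (fun _ => ⊤)
    have hz' : ∀ i, Tendsto (fun j => (z' j i : EReal)) atTop (𝓝 (ζ' i)) := by
      intro i
      refine Fin.addCases (fun i => ?_) (fun i => ?_) i
      · simp only [z', ζ', Fin.append_left]; exact tendsto_const_nhds
      · simp only [z', ζ', Fin.append_right]; exact hzt i
    have hcz' : ∀ j (b : ℝ), (Finset.univ.filter fun i => z' j i = b).card =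
        (if (a : WithTop ℝ) = (b : WithTop ℝ) then q else 0) + if b ∈ B j then 1 else 0 := by
      intro j b
      rw [← hzc, Finset.card_filter, Finset.card_filter, Fin.sum_univ_add]
      simp only [z', Fin.append_left, Fin.append_right, WithTop.coe_inj]
      congr 1
      split_ifs <;> simp
    obtain ⟨φ, C, X0, -, -, hX0, -, hinf, hreal'⟩ := hLim w T hw m k (fun _ => s) s (fun _ => hs') htend
      (q + p) 0 z' ζ' hz' X (by
        intro j
        refine ⟨hX j, VanInf_zero _, fun b => ?_⟩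
        have := (hXS j).1 b
        rw [hcountR] at this
        rw [hcz']; exact this)
    have h3 : q ≤ (Finset.univ.filter fun i => ζ' i = (a : EReal)).card := by
      rw [Finset.card_filter, Fin.sum_univ_add]
      simp [ζ']
    have h4 : p ≤ 0 + (Finset.univ.filter fun i => ζ' i = ⊤ ∨ ζ' i = ⊥).card := by
      rw [Finset.card_filter, Fin.sum_univ_add]
      simp [ζ']
    have h1 := hR (om w s) T hwt m k X0 hX0 _ (hinf.mono h4) a q ((hreal' a).mono h3)
    omega

end Pool.Agent.GC18
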