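import Pool.Agent.GC18.Defs

/-!
# Grassmann convexity (MP_5fea31_an): statements of the modules   (architect: helper18)

Every module proves `theorem X : S_X`; it may use the statements of other modules as hypotheses
(`(h : S_Y)`) until they land.  Informal proofs: team store `MP_5fea31_proof.md` (paragraph numbers given).
-/

set_option autoImplicit false

namespace Pool.Agent.GC18

open Matrix Filter Topology Set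

open scoped Classical

/-! ## par. 0, 1 : the curve -/

/-- RICH (par. 1) : a single real point and infinity -/
def S_Rich : Prop := ∀ (v : ℕ → ℝ → ℝ) (T : ℝ), Wt v T → ∀ (m k : ℕ)
  (X : Matrix (Fin (m + k)) (Fin k) ℂ), Full X → ∀ r : ℕ, VanInf r X →
  ∀ (a : ℝ) (q : ℕ), VanAt (DC v X) q a → q + r ≤ m * k

/-- `G(0)` -/
def S_G0 : Prop := ∀ m k : ℕ, GProp one1 m k

/-! ## par. 2 : count -/

/-- TRICK -/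
def S_Trick : Prop := ∀ (m k : ℕ) (Γ : Fin (m * k) → Matrix (Fin k) (Fin (m + k)) ℂ)
  (Sol : Finset (Fin (m * k) → ℂ)), (∀ x ∈ Sol, FF Γ x = 0 ∧ JJ Γ x ≠ 0) → Sol.card = dd m k →
  ∀ y : Fin (m * k) → ℂ, FF Γ y = 0 → y ∈ Sol

/-- the representation theoretic bound (peeling off vectors), `p = |l|`; `E_l` is the space of multilinear
`φ` on `(ℂ^k)^p` of weight `l`, invariant under UPPER unitriangular matrices -/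
def S_DimE : Prop := ∀ (k p : ℕ) (l : Fin k → ℕ),
  ∀ (S : Submodule ℂ (MultilinearMap ℂ (fun _ : Fin p => (Fin k → ℂ)) ℂ)),
    (∀ φ ∈ S, (∀ (c : Fin k → ℂ) (u : Fin p → Fin k → ℂ),
        φ (fun a i => c i * u a i) = (∏ i, c i ^ l i) * φ u) ∧
      (∀ (g : Matrix (Fin k) (Fin k) ℂ), (∀ i j, j < i → g i j = 0) → (∀ i, g i i = 1) →
        ∀ u : Fin p → Fin k → ℂ, φ (fun a => g.mulVec (u a)) = φ u)) →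
    Module.finrank ℂ S ≤ ff k p l

/-! ## par. 3 : the sign of a flag -/

/-- one step change: interchange `Y_{j-1}` and `Y_j` -/
def S_E1 : Prop := ∀ (v : ℕ → ℝ → ℝ) (T : ℝ), Wt v T → ∀ (n k : ℕ), k ≤ n → ∀ Y : ℕ → Fin n → ℝ,
  Good v k Y → ∀ j, 0 < j → j < k → Good v k (Y ∘ Equiv.swap (j - 1) j) →
  epsF v k (Y ∘ Equiv.swap (j - 1) j) = epsF v k Y

/-- existence of good flags -/
def S_ExGood : Prop := ∀ (v : ℕ → ℝ → ℝ) (T : ℝ), Wt v T → ∀ (n k : ℕ), k ≤ n →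
  ∀ Y : ℕ → Fin n → ℝ, ¬ VanInf 1 (Ym Y k) →
    (∀ t, DR v (Ym Y k) t = 0 → deriv (DR v (Ym Y k)) t ≠ 0) →
  ∃ Y' : ℕ → Fin n → ℝ, Good v k Y' ∧
    Submodule.span ℝ (Y' '' Iio k) = Submodule.span ℝ (Y '' Iio k)

/-- independence of the flag -/
def S_E2 : Prop := ∀ (v : ℕ → ℝ → ℝ) (T : ℝ), Wt v T → ∀ (n k : ℕ), k ≤ n →
  ∀ Y Y' : ℕ → Fin n → ℝ, Good v k Y → Good v k Y' →
    Submodule.span ℝ (Y' '' Iio k) = Submodule.span ℝ (Y '' Iio k) →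
    epsF v k Y' = epsF v k Y

/-- local constancy -/
def S_E3 : Prop := ∀ (w : ℕ → ℝ → ℝ) (T : ℝ), Wt w T → ∀ (n k : ℕ), k ≤ n →
  ∀ s0 ∈ Icc (0 : ℝ) 1, ∀ Y0 : ℕ → Fin n → ℝ, Good (om w s0) k Y0 →
  ∀ᶠ p : ℝ × (ℕ → Fin n → ℝ) in 𝓝[(Icc (0 : ℝ) 1) ×ˢ univ] (s0, Y0),
    Good (om w p.1) k p.2 ∧ epsF (om w p.1) k p.2 = epsF (om w s0) k Y0

/-- the sign `ep s x` (assembly of E1, E2, E3) -/
def S_Eps : Prop := ∀ (w : ℕ → ℝ → ℝ) (T : ℝ), Wt w T → ∀ (m k : ℕ), 1 ≤ m → 1 ≤ k →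
  ∃ ep : ℝ → (Fin (m * k) → ℝ) → ℤ,
    (∀ s x, ep s x = 1 ∨ ep s x = -1) ∧
    (∀ s0 ∈ Icc (0 : ℝ) 1, ∀ x0 : Fin (m * k) → ℝ,
      (∀ t, DR (om w s0) (Xinf x0) t = 0 → deriv (DR (om w s0) (Xinf x0)) t ≠ 0) →
      ∀ᶠ p : ℝ × (Fin (m * k) → ℝ) in 𝓝[(Icc (0 : ℝ) 1) ×ˢ univ] (s0, x0), ep p.1 p.2 = ep s0 x0) ∧
    (∀ x : Fin (m * k) → ℝ, ∀ Y : ℕ → Fin (m + k) → ℝ, Good one1 k Y →
      Submodule.span ℝ (Y '' Iio k) = Submodule.span ℝ (range (fun (c : Fin k) i => Xinf x i c)) →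
      ep 0 x = epsF one1 k Y)

/-! ## par. 4 : analysis of a cluster (helper31) -/

/-- linear combinations of the maximal minors of `X(x)` -/
def FL {m k : ℕ} (c : Fin (m * k) → (Fin k → Fin (m + k)) → ℂ) (x : Fin (m * k) → ℂ) :
    Fin (m * k) → ℂ :=
  fun i => ∑ I : Fin k → Fin (m + k), c i I * ((Xinf x).submatrix I id).det

def S_BR : Prop := ∀ (m k : ℕ) (Γ : ℕ → Fin (m * k) → Matrix (Fin k) (Fin (m + k)) ℂ)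
  (Γ0 : Fin (m * k) → Matrix (Fin k) (Fin (m + k)) ℂ), Tendsto Γ atTop (𝓝 Γ0) →
  ∀ (x0 : Fin (m * k) → ℂ) (R : ℝ), 0 < R → (∀ y ∈ Metric.closedBall x0 R, FF Γ0 y = 0 → y = x0) →
  ∃ C : ℝ, ∀ᶠ j in atTop, ∀ Z : Finset (Fin (m * k) → ℂ),
    (∀ y, y ∈ Z ↔ y ∈ Metric.ball x0 R ∧ FF (Γ j) y = 0) → (∀ y ∈ Z, JJ (Γ j) y ≠ 0) →
    ‖∑ y ∈ Z, (JJ (Γ j) y)⁻¹‖ ≤ C

def S_Persist : Prop := ∀ (m k : ℕ) (c : ℕ → Fin (m * k) → (Fin k → Fin (m + k)) → ℂ)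
  (c0 : Fin (m * k) → (Fin k → Fin (m + k)) → ℂ), Tendsto c atTop (𝓝 c0) →
  ∀ (x0 : Fin (m * k) → ℂ) (R : ℝ), 0 < R → (∀ y ∈ Metric.closedBall x0 R, FL c0 y = 0 → y = x0) →
  FL c0 x0 = 0 → ∀ᶠ j in atTop, ∃ y ∈ Metric.ball x0 R, FL (c j) y = 0

def S_FinAlg : Prop := ∀ (M : ℕ) (κ : Type) (p : κ → MvPolynomial (Fin M) ℂ),
  Bornology.IsBounded {x : Fin M → ℂ | ∀ i, MvPolynomial.eval x (p i) = 0} →
  {x : Fin M → ℂ | ∀ i, MvPolynomial.eval x (p i) = 0}.Finite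

/-! ## par. 5 : start -/

def S_Start : Prop := ∀ (m k : ℕ), 1 ≤ m → 1 ≤ k → ∃ c0 : ℤ, (c0 = 1 ∨ c0 = -1) ∧
  ∃ t : Fin (m * k) → ℝ, StrictMono t ∧ ∃ Sol : Finset (Fin (m * k) → ℝ), Sol.card = dd m k ∧
    ∀ x ∈ Sol, FF (Gt one1 m k t) x = 0 ∧ JJ (Gt one1 m k t) x ≠ 0 ∧
      ∃ Y : ℕ → Fin (m + k) → ℝ, Good one1 k Y ∧
        Submodule.span ℝ (Y '' Iio k) = Submodule.span ℝ (range (fun (c : Fin k) i => Xinf x i c)) ∧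
        (epsF one1 k Y : ℝ) * SignType.sign (JJ (Gt one1 m k t) x) = c0

/-! ## par. 6 : theorem T -/

/-- all complex solutions for `N` distinct real times are real -/
def RealProp (v : ℕ → ℝ → ℝ) (m k : ℕ) : Prop :=
  ∀ t : Fin (m * k) → ℝ, Function.Injective t → ∀ x : Fin (m * k) → ℂ,
    (∀ i, DC v (Xinf x) (t i) = 0) → ∃ y : Fin (m * k) → ℝ, x = fun i => (y i : ℂ)

def S_T : Prop := ∀ (w : ℕ → ℝ → ℝ) (T : ℝ), Wt w T → ∀ (m k : ℕ), 1 ≤ m → 1 ≤ k →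
  ∀ s0 ∈ Icc (0 : ℝ) 1, (∀ s ∈ Icc (0 : ℝ) s0, GProp (om w s) m k) → RealProp (om w s0) m k

/-! ## par. 7 : limits -/

/-- compactness of the Grassmannian -/
def S_Cpt : Prop := ∀ (n k : ℕ) (X : ℕ → Matrix (Fin n) (Fin k) ℂ), (∀ j, Full (X j)) →
  ∃ (φ : ℕ → ℕ) (C : ℕ → Matrix (Fin k) (Fin k) ℂ) (X0 : Matrix (Fin n) (Fin k) ℂ),
    StrictMono φ ∧ (∀ j, (C j).det ≠ 0) ∧ Full X0 ∧ Tendsto (fun j => X (φ j) * C j) atTop (𝓝 X0)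

/-- Hurwitz/Rolle for smooth functions of a real variable -/
def S_Hur : Prop := ∀ (f : ℕ → ℝ → ℂ) (f0 : ℝ → ℂ) (a : ℝ) (q : ℕ) (z : ℕ → Fin q → ℝ),
  (∀ j, ContDiff ℝ (⊤ : ℕ∞) (f j)) → ContDiff ℝ (⊤ : ℕ∞) f0 →
  (∀ l : ℕ, TendstoUniformlyOn (fun j => iteratedDeriv l (f j)) (iteratedDeriv l f0) atTop
    (Icc (a - 1) (a + 1))) →
  (∀ i, Tendsto (fun j => z j i) atTop (𝓝 a)) →
  (∀ j b, VanAt (f j) ((Finset.univ.filter fun i => z j i = b).card) b) → VanAt f0 q a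

/-- LEMMA L; `σ i = true` : the zero tends to `+∞` -/
def S_LemL : Prop := ∀ (m k : ℕ) (Hp Hm : ℕ → Matrix (Fin (m + k)) (Fin (m + k)) ℝ)
  (Hp0 Hm0 : Matrix (Fin (m + k)) (Fin (m + k)) ℝ),
  (∀ j, (∀ a b, b < a → Hp j a b = 0) ∧ (∀ a, Hp j a a = 1)) →
  (∀ j, (∀ a b, b < a → Hm j a b = 0) ∧ (∀ a, Hm j a a = 1)) →
  Tendsto Hp atTop (𝓝 Hp0) → Tendsto Hm atTop (𝓝 Hm0) →
  ∀ (X : ℕ → Matrix (Fin (m + k)) (Fin k) ℂ) (X0 : Matrix (Fin (m + k)) (Fin k) ℂ) (r q : ℕ)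
    (z : ℕ → Fin q → ℝ) (σ : Fin q → Bool),
  (∀ j, Full (X j)) → Tendsto X atTop (𝓝 X0) → Full X0 → (∀ j, VanInf r (X j)) →
  (∀ i, σ i = true → Tendsto (fun j => z j i) atTop atTop) →
  (∀ i, σ i = false → Tendsto (fun j => z j i) atTop atBot) →
  (∀ j b, VanAt (DC one1 (toC (Hp j) * X j)) ((Finset.univ.filter fun i => σ i = true ∧ z j i = b).card) b) →
  (∀ j b, VanAt (DC one1 (toC (Hm j) * X j)) ((Finset.univ.filter fun i => σ i = false ∧ z j i = b).card) b) →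
  VanInf (r + q) X0

/-- limits of planes with zeros (assembly of Cpt, Hur, LemL) -/
def S_Lim : Prop := ∀ (w : ℕ → ℝ → ℝ) (T : ℝ), Wt w T → ∀ (m k : ℕ) (s : ℕ → ℝ) (s0 : ℝ),
  (∀ j, s j ∈ Icc (0 : ℝ) 1) → Tendsto s atTop (𝓝 s0) →
  ∀ (q r : ℕ) (z : ℕ → Fin q → ℝ) (ζ : Fin q → EReal),
  (∀ i, Tendsto (fun j => (z j i : EReal)) atTop (𝓝 (ζ i))) →
  ∀ X : ℕ → Matrix (Fin (m + k)) (Fin k) ℂ,
  (∀ j, Full (X j) ∧ VanInf r (X j) ∧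
    ∀ a, VanAt (DC (om w (s j)) (X j)) ((Finset.univ.filter fun i => z j i = a).card) a) →
  ∃ (φ : ℕ → ℕ) (C : ℕ → Matrix (Fin k) (Fin k) ℂ) (X0 : Matrix (Fin (m + k)) (Fin k) ℂ),
    StrictMono φ ∧ (∀ j, (C j).det ≠ 0) ∧ Full X0 ∧ Tendsto (fun j => X (φ j) * C j) atTop (𝓝 X0) ∧
    VanInf (r + (Finset.univ.filter fun i => ζ i = ⊤ ∨ ζ i = ⊥).card) X0 ∧
    ∀ a : ℝ, VanAt (DC (om w s0) X0) ((Finset.univ.filter fun i => ζ i = (a : EReal)).card) a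

/-- `G` is open -/
def S_Open : Prop := ∀ (w : ℕ → ℝ → ℝ) (T : ℝ), Wt w T → ∀ (m k : ℕ),
  ∀ s ∈ Icc (0 : ℝ) 1, GProp (om w s) m k → ∀ᶠ s' in 𝓝[Icc (0 : ℝ) 1] s, GProp (om w s') m k

/-! ## par. 8 : closing -/

/-- `X` satisfies the conditions `M` (a multiset of points of `ℝ ∪ {∞}`) -/
noncomputable def InS (v : ℕ → ℝ → ℝ) {m k : ℕ} (M : Multiset (WithTop ℝ))
    (X : Matrix (Fin (m + k)) (Fin k) ℂ) : Prop :=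
  (∀ a : ℝ, VanAt (DC v X) (M.count (a : WithTop ℝ)) a) ∧ VanInf (M.count ⊤) X

def S_P1 : Prop := ∀ (w : ℕ → ℝ → ℝ) (T : ℝ), Wt w T → ∀ (m k : ℕ), 1 ≤ m → 1 ≤ k →
  ∀ s ∈ Ioc (0 : ℝ) 1, (∀ s' ∈ Ico (0 : ℝ) s, GProp (om w s') m k ∧ RealProp (om w s') m k) →
  ∀ M : Multiset (WithTop ℝ), Multiset.card M = m * k →
  ∀ g : Matrix (Fin (m + k)) (Fin (m + k)) ℝ, g.det ≠ 0 → ∀ x0 : Fin (m * k) → ℂ,
  InS (om w s) M (toC g * Xinf x0) →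
  (∃ R > 0, ∀ x ∈ Metric.closedBall x0 R, InS (om w s) M (toC g * Xinf x) → x = x0) →
  ∃ y0 : Fin (m * k) → ℝ, (x0 = fun i => (y0 i : ℂ)) ∧ ∀ a : ℝ, ∀ᶠ η in 𝓝[>] (0 : ℝ),
    0 < (-1 : ℝ) ^ (M.count (a : WithTop ℝ)) *
      (DR (om w s) (g * Xinf y0) (a - η) * DR (om w s) (g * Xinf y0) (a + η))

def S_FIN : Prop := ∀ (v : ℕ → ℝ → ℝ) (T : ℝ), Wt v T → ∀ (m k : ℕ) (M : Multiset (WithTop ℝ))
  (g : Matrix (Fin (m + k)) (Fin (m + k)) ℂ), g.det ≠ 0 →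
  {x : Fin (m * k) → ℂ | InS v M (g * Xinf x)}.Infinite →
  ∀ y : ℝ, ∃ X : Matrix (Fin (m + k)) (Fin k) ℂ, Full X ∧ InS v M X ∧ DC v X y = 0

def S_Exch : Prop := ∀ (w : ℕ → ℝ → ℝ) (T : ℝ), Wt w T → ∀ (m k : ℕ), 1 ≤ m → 1 ≤ k →
  ∀ s ∈ Ioc (0 : ℝ) 1, (∀ s' ∈ Ico (0 : ℝ) s, GProp (om w s') m k ∧ RealProp (om w s') m k) →
  ∀ M : Multiset (WithTop ℝ), Multiset.card M = m * k + 1 →
  (∃ X : Matrix (Fin (m + k)) (Fin k) ℂ, Full X ∧ InS (om w s) M X) →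
  ∀ a ∈ M, ∀ b ∈ M, a ≠ b → ∀ y : ℝ, (y : WithTop ℝ) ∉ M →
  (∃ X : Matrix (Fin (m + k)) (Fin k) ℂ, Full X ∧ InS (om w s) ((y : WithTop ℝ) ::ₘ M.erase a) X) ∨
  (∃ X : Matrix (Fin (m + k)) (Fin k) ℂ, Full X ∧ InS (om w s) ((y : WithTop ℝ) ::ₘ M.erase b) X)

def S_Close : Prop := ∀ (w : ℕ → ℝ → ℝ) (T : ℝ), Wt w T → ∀ (m k : ℕ), 1 ≤ m → 1 ≤ k →
  ∀ s ∈ Ioc (0 : ℝ) 1, (∀ s' ∈ Ico (0 : ℝ) s, GProp (om w s') m k) → GProp (om w s) m k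

/-! ## par. 9 : top reduction -/

def S_Top : Prop := (∀ (w : ℕ → ℝ → ℝ) (T : ℝ), Wt w T → ∀ (m k : ℕ), 1 ≤ m → 1 ≤ k → GProp w m k) →
  ∀ k m : ℕ, 1 ≤ k → 1 ≤ m →
  ∀ J : Set ℝ, ∀ γ : ℝ → (Fin (k + m) → ℝ),
    ContDiff ℝ (⊤ : ℕ∞) γ →
    J.OrdConnected →
    (∀ t ∈ J, γ t ≠ 0) →
    (∀ a : Fin (k + m) → ℝ, a ≠ 0 →
      ∀ (s : Finset ℝ) (μ : ℝ → ℕ),
        (∀ t ∈ s, t ∈ J ∧ ∀ j < μ t,
          iteratedDeriv j (fun u => ∑ i, a i * γ u i) t = 0) →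
        ∑ t ∈ s, μ t ≤ k + m - 1) →
    ∀ ℓ : Fin m → (Fin (k + m) → ℝ), LinearIndependent ℝ ℓ →
      ∀ (s : Finset ℝ) (μ : ℝ → ℕ),
        (∀ t ∈ s, t ∈ J ∧ ∀ j < μ t,
          iteratedDeriv j
            (fun u => (Matrix.of (fun i c =>
              Fin.append (fun a : Fin k => iteratedDeriv (a : ℕ) γ u) ℓ c i)).det) t = 0) →
        ∑ t ∈ s, μ t ≤ k * m

end Pool.Agent.GC18
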