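import Pool.Agent.GC18.Deriv
import Pool.Agent.GC18.Stmts
import Pool.Agent.Lib_helper31.GC.Main

/-!
# Grassmann convexity (MP_5fea31_an), par. 4: analysis of a cluster   (helper31)
-/

set_option autoImplicit false

namespace Pool.Agent.GC18

open Matrix Filter Topology Set
open Pool.Agent.Lib_helper31.GC (IsPoly IsPolyMap)

namespace Cluster

variable {m k : ℕ}

lemma isPoly_Xinf (i : Fin (m + k)) (c : Fin k) :
    IsPoly (fun x : Fin (m * k) → ℂ => (Xinf x : Matrix (Fin (m + k)) (Fin k) ℂ) i c) := by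
  refine Fin.addCases (fun a => ?_) (fun b => ?_) i
  · simp only [Xinf_apply_castAdd]
    exact Pool.Agent.Lib_helper31.GC.IsPoly.coord _
  · simp only [Xinf_apply_natAdd]
    exact Pool.Agent.Lib_helper31.GC.IsPoly.const _

lemma isPolyMap_FF (Γ : Fin (m * k) → Matrix (Fin k) (Fin (m + k)) ℂ) :
    IsPolyMap (FF Γ) := by
  intro i
  refine Pool.Agent.Lib_helper31.GC.IsPoly.det (fun a b => ?_)
  simp only [Matrix.mul_apply]
  exact Pool.Agent.Lib_helper31.GC.IsPoly.sum _ (fun c _ => (isPoly_Xinf c b).const_mul _)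

lemma isPolyMap_FL (c : Fin (m * k) → (Fin k → Fin (m + k)) → ℂ) :
    IsPolyMap (FL c) := by
  intro i
  refine Pool.Agent.Lib_helper31.GC.IsPoly.sum _ (fun I _ => ?_)
  exact (Pool.Agent.Lib_helper31.GC.IsPoly.det (fun a b => isPoly_Xinf (I a) b)).const_mul _

lemma continuous_FL : Continuous (Function.uncurry
    (fun (c : Fin (m * k) → (Fin k → Fin (m + k)) → ℂ) (x : Fin (m * k) → ℂ) => FL c x)) := by
  refine continuous_pi (fun i => ?_)
  refine continuous_finsetSum _ (fun I _ => ?_)
  refine Continuous.mul ?_ ?_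
  · exact (continuous_apply I).comp ((continuous_apply i).comp continuous_fst)
  · refine Continuous.matrix_det ?_
    refine continuous_matrix (fun a b => ?_)
    have h : Continuous (fun p : (Fin (m * k) → (Fin k → Fin (m + k)) → ℂ) × (Fin (m * k) → ℂ) =>
        (Xinf p.2 : Matrix (Fin (m + k)) (Fin k) ℂ)) := continuous_Xinf.comp continuous_snd
    exact h.matrix_elem (I a) b

end Cluster

open Cluster

theorem BR : S_BR := by
  intro m k Γ Γ0 hΓ x0 R hR hIso
  have hU : TendstoUniformlyOn (fun j => FF (Γ j)) (FF Γ0) atTop (Metric.closedBall x0 (R + 1)) :=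
    Pool.Agent.Lib_helper31.GC.tendstoUniformlyOn_of_joint'
      (f := fun (Γ : Fin (m * k) → Matrix (Fin k) (Fin (m + k)) ℂ) (x : Fin (m * k) → ℂ) => FF Γ x)
      continuous_FF (isCompact_closedBall x0 (R + 1)) hΓ
  have key := Pool.Agent.Lib_helper31.GC.BR' (fun j => isPolyMap_FF (Γ j)) (isPolyMap_FF Γ0) hR
    (lt_add_one R) hU hIso
  simp only [det_fderiv_FF] at key
  exact key

theorem Persist : S_Persist := by
  intro m k c c0 hc x0 R hR hIso h0
  have hU : TendstoUniformlyOn (fun j => FL (c j)) (FL c0) atTop (Metric.closedBall x0 (R + 1)) :=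
    Pool.Agent.Lib_helper31.GC.tendstoUniformlyOn_of_joint'
      (f := fun (c : Fin (m * k) → (Fin k → Fin (m + k)) → ℂ) (x : Fin (m * k) → ℂ) => FL c x)
      continuous_FL (isCompact_closedBall x0 (R + 1)) hc
  exact Pool.Agent.Lib_helper31.GC.Persist' (fun j => isPolyMap_FL (c j)) (isPolyMap_FL c0) hR
    (lt_add_one R) hU hIso h0

end Pool.Agent.GC18
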