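import Pool.Agent.GC18.Alg

/-!
# Grassmann convexity (MP_5fea31_an): differentiability of the system `FF`, persistence of simple zeros   (helper18)

For `𝕜 = ℝ` or `ℂ`:
* `hasStrictFDerivAt_FF`, `fderiv_FF`, `det_fderiv_FF : (fderiv 𝕜 (FF Γ) x).det = JJ Γ x`
* `persist_simple` : a simple zero persists (implicit function theorem)
* `locally_unique` : uniqueness near a simple zero, uniformly in `Γ`
* `continuous_FF`, `continuous_JJ` (jointly in `(Γ, x)`), `FF_toC`, `JJ_toC`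
-/

set_option autoImplicit false

namespace Pool.Agent.GC18

open Matrix Filter Topology Set

section gen
variable {𝕜 : Type*} [RCLike 𝕜] {m k : ℕ}

lemma Xinf_apply_castAdd {𝕜 : Type*} [Zero 𝕜] [One 𝕜] {m k : ℕ} (x : Fin (m * k) → 𝕜) (a : Fin m) (c : Fin k) :
    (Xinf x : Matrix (Fin (m + k)) (Fin k) 𝕜) (Fin.castAdd k a) c = x (finProdFinEquiv (a, c)) := by
  simp [Xinf]

lemma Xinf_apply_natAdd {𝕜 : Type*} [Zero 𝕜] [One 𝕜] {m k : ℕ} (x : Fin (m * k) → 𝕜) (b : Fin k) (c : Fin k) :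
    (Xinf x : Matrix (Fin (m + k)) (Fin k) 𝕜) (Fin.natAdd m b) c = if b = c then 1 else 0 := by
  simp [Xinf]

/-- changing one coordinate changes one column -/
lemma mul_Xinf_add (Γ : Matrix (Fin k) (Fin (m + k)) 𝕜) (x : Fin (m * k) → 𝕜) (q : Fin (m * k)) (τ : 𝕜) :
    Γ * Xinf (x + Pi.single q τ) = (Γ * Xinf x).updateCol (finProdFinEquiv.symm q).2
      ((fun r => (Γ * Xinf x) r (finProdFinEquiv.symm q).2) +
        τ • (fun r => Γ r (Fin.castAdd k (finProdFinEquiv.symm q).1))) := by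
  ext r c
  have h1 : ∀ y : Fin (m * k) → 𝕜, (Γ * Xinf y) r c =
      (∑ a : Fin m, Γ r (Fin.castAdd k a) * y (finProdFinEquiv (a, c))) + Γ r (Fin.natAdd m c) := by
    intro y
    rw [Matrix.mul_apply, Fin.sum_univ_add]
    simp only [Xinf_apply_castAdd, Xinf_apply_natAdd, mul_ite, mul_one, mul_zero]
    simp
  rw [h1]
  by_cases hc : c = (finProdFinEquiv.symm q).2
  · have h2 : ∀ a : Fin m, (x + Pi.single q τ : Fin (m * k) → 𝕜) (finProdFinEquiv (a, c)) =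
        x (finProdFinEquiv (a, c)) + if a = (finProdFinEquiv.symm q).1 then τ else 0 := by
      intro a
      rw [Pi.add_apply, Pi.single_apply]
      congr 1
      have : (finProdFinEquiv (a, c) = q) ↔ a = (finProdFinEquiv.symm q).1 := by
        constructor
        · intro h; rw [← h]; simp
        · intro h
          have : (a, c) = finProdFinEquiv.symm q := Prod.ext h hc
          rw [this, Equiv.apply_symm_apply]
      simp only [this]
    simp only [h2, mul_add, Finset.sum_add_distrib, mul_ite, mul_zero, Finset.sum_ite_eq',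
      Finset.mem_univ, if_true]
    subst hc
    rw [Matrix.updateCol_self, Pi.add_apply, h1, Pi.smul_apply, smul_eq_mul]
    ring
  · have h2 : ∀ a : Fin m, (x + Pi.single q τ : Fin (m * k) → 𝕜) (finProdFinEquiv (a, c)) =
        x (finProdFinEquiv (a, c)) := by
      intro a
      rw [Pi.add_apply, Pi.single_apply, if_neg, add_zero]
      intro h
      apply hc
      rw [← h]; simp
    rw [Matrix.updateCol_ne hc, h1]
    simp only [h2]

lemma FF_add_single (Γ : Fin (m * k) → Matrix (Fin k) (Fin (m + k)) 𝕜) (x : Fin (m * k) → 𝕜)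
    (q : Fin (m * k)) (τ : 𝕜) (i : Fin (m * k)) :
    FF Γ (x + Pi.single q τ) i = FF Γ x i + τ * JM Γ x i q := by
  unfold FF
  rw [mul_Xinf_add, Matrix.det_updateCol_add, Matrix.det_updateCol_smul]
  congr 1
  exact congrArg Matrix.det (Matrix.updateCol_eq_self _ _)

/-- the parameters as plain functions (normed space) -/
abbrev PP (𝕜 : Type*) (m k : ℕ) := Fin (m * k) → Fin k → Fin (m + k) → 𝕜

/-- plain functions as matrices -/
def oo {𝕜 : Type*} {m k : ℕ} (A : PP 𝕜 m k) : Fin (m * k) → Matrix (Fin k) (Fin (m + k)) 𝕜 :=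
  fun i => Matrix.of (A i)

lemma contDiff_FF_joint : ContDiff 𝕜 (⊤ : ℕ∞)
    (fun p : PP 𝕜 m k × (Fin (m * k) → 𝕜) => FF (oo p.1) p.2) := by
  rw [contDiff_pi]
  intro i
  unfold FF
  simp only [Matrix.det_apply]
  refine ContDiff.sum fun σ _ => ContDiff.const_smul _ ?_
  refine contDiff_prod fun r _ => ?_
  simp only [Matrix.mul_apply]
  refine ContDiff.sum fun l _ => ContDiff.mul ?_ ?_
  · have h1 : ContDiff 𝕜 (⊤ : ℕ∞) (fun p : PP 𝕜 m k × (Fin (m * k) → 𝕜) => p.1 i) :=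
      (contDiff_pi.1 contDiff_fst) i
    have h2 := (contDiff_pi.1 h1) (σ r)
    exact (contDiff_pi.1 h2) l
  · refine Fin.addCases (fun a => ?_) (fun b => ?_) l
    · simp only [Xinf_apply_castAdd]
      exact (contDiff_pi.1 contDiff_snd) _
    · simp only [Xinf_apply_natAdd]
      exact contDiff_const

lemma contDiff_FF (Γ : Fin (m * k) → Matrix (Fin k) (Fin (m + k)) 𝕜) : ContDiff 𝕜 (⊤ : ℕ∞) (FF Γ) :=
  (contDiff_FF_joint (𝕜 := 𝕜) (m := m) (k := k)).comp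
    (ContDiff.prodMk (contDiff_const (c := (show PP 𝕜 m k from Γ))) contDiff_id)

lemma fderiv_FF_single (Γ : Fin (m * k) → Matrix (Fin k) (Fin (m + k)) 𝕜) (x : Fin (m * k) → 𝕜)
    (q : Fin (m * k)) : fderiv 𝕜 (FF Γ) x (Pi.single q 1) = fun i => JM Γ x i q := by
  have hd : DifferentiableAt 𝕜 (FF Γ) x := (contDiff_FF Γ).differentiable (by simp) x
  have h1 : HasDerivAt (fun τ : 𝕜 => FF Γ (x + τ • Pi.single q (1 : 𝕜))) (fderiv 𝕜 (FF Γ) x (Pi.single q 1)) 0 := by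
    have hx : HasFDerivAt (FF Γ) (fderiv 𝕜 (FF Γ) x) (x + (0 : 𝕜) • Pi.single q (1 : 𝕜)) := by
      rw [zero_smul, add_zero]; exact hd.hasFDerivAt
    have h2 : HasDerivAt (fun τ : 𝕜 => x + τ • Pi.single q (1 : 𝕜)) (Pi.single q (1 : 𝕜)) 0 := by
      have := ((hasDerivAt_id (0 : 𝕜)).smul_const (Pi.single q (1 : 𝕜) : Fin (m * k) → 𝕜)).const_add x
      simpa using this
    exact hx.comp_hasDerivAt 0 h2
  have h3 : HasDerivAt (fun τ : 𝕜 => FF Γ (x + τ • Pi.single q (1 : 𝕜))) (fun i => JM Γ x i q) 0 := by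
    have e : (fun τ : 𝕜 => FF Γ (x + τ • Pi.single q (1 : 𝕜))) =
        fun τ : 𝕜 => FF Γ x + τ • (fun i => JM Γ x i q) := by
      funext τ; funext i
      have : τ • (Pi.single q (1 : 𝕜) : Fin (m * k) → 𝕜) = Pi.single q τ := by
        rw [← Pi.single_smul]; simp
      rw [this, FF_add_single]; simp
    rw [e]
    have := ((hasDerivAt_id (0 : 𝕜)).smul_const (fun i => JM Γ x i q)).const_add (FF Γ x)
    simpa using this
  exact h1.unique h3

lemma fderiv_FF_apply (Γ : Fin (m * k) → Matrix (Fin k) (Fin (m + k)) 𝕜) (x h : Fin (m * k) → 𝕜) :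
    fderiv 𝕜 (FF Γ) x h = (JM Γ x).mulVec h := by
  have e : h = ∑ q, h q • (Pi.single q (1 : 𝕜) : Fin (m * k) → 𝕜) := by
    funext i
    simp [Finset.sum_apply, Pi.single_apply]
  conv_lhs => rw [e, map_sum]
  simp only [map_smul, fderiv_FF_single]
  funext i
  simp [Finset.sum_apply, Matrix.mulVec, dotProduct, mul_comm]

lemma det_fderiv_FF (Γ : Fin (m * k) → Matrix (Fin k) (Fin (m + k)) 𝕜) (x : Fin (m * k) → 𝕜) :
    (fderiv 𝕜 (FF Γ) x).det = JJ Γ x := by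
  have h : ((fderiv 𝕜 (FF Γ) x : (Fin (m * k) → 𝕜) →L[𝕜] (Fin (m * k) → 𝕜)) :
      (Fin (m * k) → 𝕜) →ₗ[𝕜] (Fin (m * k) → 𝕜)) = Matrix.toLin' (JM Γ x) := by
    apply LinearMap.ext; intro h
    exact fderiv_FF_apply Γ x h
  rw [ContinuousLinearMap.det, h, LinearMap.det_toLin']
  rfl

lemma hasStrictFDerivAt_FF (Γ : Fin (m * k) → Matrix (Fin k) (Fin (m + k)) 𝕜) (x : Fin (m * k) → 𝕜) :
    HasStrictFDerivAt (FF Γ) (fderiv 𝕜 (FF Γ) x) x :=
  (contDiff_FF Γ).hasStrictFDerivAt (by simp)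

lemma continuous_FF : Continuous
    (fun p : (Fin (m * k) → Matrix (Fin k) (Fin (m + k)) 𝕜) × (Fin (m * k) → 𝕜) => FF p.1 p.2) :=
  (contDiff_FF_joint (𝕜 := 𝕜) (m := m) (k := k)).continuous

lemma continuous_Xinf : Continuous (fun x : Fin (m * k) → 𝕜 => (Xinf x : Matrix (Fin (m + k)) (Fin k) 𝕜)) := by
  refine continuous_matrix fun i c => ?_
  refine Fin.addCases (fun a => ?_) (fun b => ?_) i
  · simp only [Xinf_apply_castAdd]; exact continuous_apply _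
  · simp only [Xinf_apply_natAdd]; exact continuous_const

lemma continuous_JJ : Continuous
    (fun p : (Fin (m * k) → Matrix (Fin k) (Fin (m + k)) 𝕜) × (Fin (m * k) → 𝕜) => JJ p.1 p.2) := by
  unfold JJ
  refine Continuous.matrix_det ?_
  refine continuous_matrix fun i q => ?_
  simp only [JM, Matrix.of_apply]
  refine Continuous.matrix_det ?_
  have h1 : Continuous (fun p : (Fin (m * k) → Matrix (Fin k) (Fin (m + k)) 𝕜) × (Fin (m * k) → 𝕜) => p.1 i) :=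
    (continuous_apply i).comp continuous_fst
  refine Continuous.matrix_updateCol _ ?_ ?_
  · exact h1.matrix_mul (continuous_Xinf.comp continuous_snd)
  · refine continuous_pi fun a => ?_
    exact (continuous_apply_apply a _).comp h1

/-- derivative of `(Γ, x) ↦ (Γ, FF Γ x)` is onto at a simple zero -/
lemma persist_simple_aux (Γ0 : PP 𝕜 m k) (x0 : Fin (m * k) → 𝕜)
    (h0 : FF (oo Γ0) x0 = 0) (hJ : JJ (oo Γ0) x0 ≠ 0) {U : Set (Fin (m * k) → 𝕜)} (hU : U ∈ 𝓝 x0) :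
    ∀ᶠ Γ in 𝓝 Γ0, ∃ x ∈ U, FF (oo Γ) x = 0 := by
  set G : PP 𝕜 m k × (Fin (m * k) → 𝕜) →
      PP 𝕜 m k × (Fin (m * k) → 𝕜) := fun p => (p.1, FF (oo p.1) p.2) with hG
  have hGc : ContDiff 𝕜 (⊤ : ℕ∞) G := contDiff_fst.prodMk contDiff_FF_joint
  have hs := hGc.hasStrictFDerivAt (x := (Γ0, x0)) (by simp)
  have hfst : ∀ p, (fderiv 𝕜 G (Γ0, x0) p).1 = p.1 := by
    intro p
    have h1 : HasFDerivAt (fun p => (G p).1) ((ContinuousLinearMap.fst 𝕜 _ _).comp (fderiv 𝕜 G (Γ0, x0))) (Γ0, x0) :=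
      hs.hasFDerivAt.fst
    have h2 : HasFDerivAt (fun p : PP 𝕜 m k × (Fin (m * k) → 𝕜) => (G p).1)
        (ContinuousLinearMap.fst 𝕜 _ _) (Γ0, x0) := hasFDerivAt_fst
    have := h1.unique h2
    exact congrArg (fun L => L p) this
  have hsnd : ∀ h : Fin (m * k) → 𝕜, (fderiv 𝕜 G (Γ0, x0) (0, h)).2 = (JM (oo Γ0) x0).mulVec h := by
    intro h
    have h1 : HasFDerivAt (fun p => (G p).2) ((ContinuousLinearMap.snd 𝕜 _ _).comp (fderiv 𝕜 G (Γ0, x0))) (Γ0, x0) :=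
      hs.hasFDerivAt.snd
    have h2 : HasFDerivAt (fun x : Fin (m * k) → 𝕜 => ((Γ0, x) : PP 𝕜 m k × (Fin (m * k) → 𝕜)))
        (ContinuousLinearMap.inr 𝕜 _ _) x0 := hasFDerivAt_prodMk_right Γ0 x0
    have h3 := HasFDerivAt.comp x0 (g := fun p => (G p).2) h1 h2
    have h4 : HasFDerivAt (FF (oo Γ0)) (fderiv 𝕜 (FF (oo Γ0)) x0) x0 := (hasStrictFDerivAt_FF (oo Γ0) x0).hasFDerivAt
    have h5 := h3.unique h4
    have h6 := congrArg (fun L => L h) h5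
    rw [← fderiv_FF_apply, ← h6]
    rfl
  have hdet : IsUnit (JM (oo Γ0) x0).det := isUnit_iff_ne_zero.2 hJ
  have hsurj : (fderiv 𝕜 G (Γ0, x0)).toLinearMap.range = ⊤ := by
    rw [LinearMap.range_eq_top]
    rintro ⟨A, b⟩
    -- first component
    obtain ⟨h, hh⟩ : ∃ h, (JM (oo Γ0) x0).mulVec h = b - (fderiv 𝕜 G (Γ0, x0) (A, 0)).2 := by
      refine ⟨(JM (oo Γ0) x0)⁻¹.mulVec (b - (fderiv 𝕜 G (Γ0, x0) (A, 0)).2), ?_⟩
      rw [Matrix.mulVec_mulVec, Matrix.mul_nonsing_inv _ hdet, Matrix.one_mulVec]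
    refine ⟨(A, h), ?_⟩
    have e : ((A, h) : PP 𝕜 m k × (Fin (m * k) → 𝕜)) = (A, 0) + (0, h) := by
      simp
    show fderiv 𝕜 G (Γ0, x0) (A, h) = (A, b)
    rw [e, map_add]
    refine Prod.ext ?_ ?_
    · rw [Prod.fst_add, hfst, hfst]; simp
    · rw [Prod.snd_add, hsnd, hh]; simp
  have hmap := hs.map_nhds_eq_of_surj hsurj
  have hG0 : G (Γ0, x0) = (Γ0, 0) := by simp [hG, h0]
  rw [hG0] at hmap
  have hmem : G '' (univ ×ˢ U) ∈ 𝓝 ((Γ0, 0) : PP 𝕜 m k × (Fin (m * k) → 𝕜)) := by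
    rw [← hmap]
    refine image_mem_map ?_
    exact prod_mem_nhds univ_mem hU
  have hcont : Tendsto (fun Γ : PP 𝕜 m k =>
      ((Γ, 0) : PP 𝕜 m k × (Fin (m * k) → 𝕜))) (𝓝 Γ0) (𝓝 (Γ0, 0)) :=
    (continuous_id.prodMk continuous_const).tendsto Γ0
  filter_upwards [hcont hmem] with Γ hΓ
  obtain ⟨⟨Γ', x⟩, ⟨-, hx⟩, heq⟩ := hΓ
  simp only [hG, Prod.mk.injEq] at heq
  obtain ⟨rfl, h2⟩ := heq
  exact ⟨x, hx, h2⟩

/-- local uniqueness, uniform in `Γ` -/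
lemma locally_unique_aux (Γ0 : PP 𝕜 m k) (x0 : Fin (m * k) → 𝕜)
    (hJ : JJ (oo Γ0) x0 ≠ 0) :
    ∃ U ∈ 𝓝 x0, ∀ᶠ Γ in 𝓝 Γ0, ∀ x ∈ U, ∀ y ∈ U, FF (oo Γ) x = FF (oo Γ) y → x = y := by
  have hs := (contDiff_FF_joint (𝕜 := 𝕜) (m := m) (k := k)).hasStrictFDerivAt (x := (Γ0, x0)) (by simp)
  set L := fderiv 𝕜 (fun p : PP 𝕜 m k × (Fin (m * k) → 𝕜) => FF (oo p.1) p.2) (Γ0, x0) with hL
  have hsnd : ∀ h : Fin (m * k) → 𝕜, L (0, h) = (JM (oo Γ0) x0).mulVec h := by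
    intro h
    have h2 : HasFDerivAt (fun x : Fin (m * k) → 𝕜 => ((Γ0, x) : PP 𝕜 m k × (Fin (m * k) → 𝕜)))
        (ContinuousLinearMap.inr 𝕜 _ _) x0 := hasFDerivAt_prodMk_right Γ0 x0
    have h3 := HasFDerivAt.comp x0 (g := fun p : PP 𝕜 m k × (Fin (m * k) → 𝕜) => FF (oo p.1) p.2)
      hs.hasFDerivAt h2
    have h4 : HasFDerivAt (FF (oo Γ0)) (fderiv 𝕜 (FF (oo Γ0)) x0) x0 := (hasStrictFDerivAt_FF (oo Γ0) x0).hasFDerivAt
    have h5 := h3.unique h4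
    have h6 := congrArg (fun L => L h) h5
    rw [← fderiv_FF_apply, ← h6]
    rfl
  have hker : (Matrix.toLin' (JM (oo Γ0) x0)).ker = ⊥ := by
    rw [LinearMap.ker_eq_bot']
    intro h hh
    have hdet : IsUnit (JM (oo Γ0) x0).det := isUnit_iff_ne_zero.2 hJ
    have h1 : (JM (oo Γ0) x0).mulVec h = 0 := hh
    have h2 : (JM (oo Γ0) x0)⁻¹.mulVec ((JM (oo Γ0) x0).mulVec h) = h := by
      rw [Matrix.mulVec_mulVec, Matrix.nonsing_inv_mul _ hdet, Matrix.one_mulVec]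
    rw [h1, Matrix.mulVec_zero] at h2
    exact h2.symm
  obtain ⟨K, hK, hanti⟩ := LinearMap.exists_antilipschitzWith _ hker
  have hlo := hs.isLittleO
  rw [Asymptotics.isLittleO_iff] at hlo
  have hc : (0 : ℝ) < 1 / (2 * K) := by positivity
  have h1 := hlo hc
  rw [nhds_prod_eq, Filter.eventually_prod_iff] at h1
  obtain ⟨pa, hpa, pb, hpb, hab⟩ := h1
  have hpab : ∀ᶠ p in 𝓝 (Γ0, x0), pa p ∧ pb p := hpa.and hpb
  rw [nhds_prod_eq, Filter.eventually_prod_iff] at hpab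
  obtain ⟨A, hA, B, hB, hAB⟩ := hpab
  refine ⟨{x | B x}, hB, ?_⟩
  filter_upwards [hA] with Γ hΓ x hx y hy hxy
  have h2 := hab (hAB hΓ hx).1 (hAB hΓ hy).2
  simp only [hxy, sub_self, zero_sub, norm_neg] at h2
  have e : ((Γ, x) : PP 𝕜 m k × (Fin (m * k) → 𝕜)) - (Γ, y) = (0, x - y) := by
    simp
  rw [e] at h2
  change ‖L (0, x - y)‖ ≤ _ at h2
  rw [hsnd] at h2
  have h3 := hanti.le_mul_dist x y
  rw [dist_eq_norm, dist_eq_norm, ← map_sub] at h3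
  have h4 : ‖((0, x - y) : PP 𝕜 m k × (Fin (m * k) → 𝕜))‖ = ‖x - y‖ := by
    simp
  rw [h4] at h2
  have h5 : ‖x - y‖ ≤ K * (1 / (2 * K) * ‖x - y‖) := by
    refine h3.trans ?_
    exact mul_le_mul_of_nonneg_left h2 K.2
  have hK' : (0 : ℝ) < K := hK
  have h6 : (K : ℝ) * (1 / (2 * K) * ‖x - y‖) = ‖x - y‖ / 2 := by field_simp
  rw [h6] at h5
  have h7 : ‖x - y‖ = 0 := by
    have := norm_nonneg (x - y)
    linarith
  exact sub_eq_zero.1 (norm_eq_zero.1 h7)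

lemma persist_simple (Γ0 : Fin (m * k) → Matrix (Fin k) (Fin (m + k)) 𝕜) (x0 : Fin (m * k) → 𝕜)
    (h0 : FF Γ0 x0 = 0) (hJ : JJ Γ0 x0 ≠ 0) {U : Set (Fin (m * k) → 𝕜)} (hU : U ∈ 𝓝 x0) :
    ∀ᶠ Γ in 𝓝 Γ0, ∃ x ∈ U, FF Γ x = 0 :=
  persist_simple_aux (𝕜 := 𝕜) (m := m) (k := k) Γ0 x0 h0 hJ hU

lemma locally_unique (Γ0 : Fin (m * k) → Matrix (Fin k) (Fin (m + k)) 𝕜) (x0 : Fin (m * k) → 𝕜)
    (hJ : JJ Γ0 x0 ≠ 0) :
    ∃ U ∈ 𝓝 x0, ∀ᶠ Γ in 𝓝 Γ0, ∀ x ∈ U, ∀ y ∈ U, FF Γ x = FF Γ y → x = y :=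
  locally_unique_aux (𝕜 := 𝕜) (m := m) (k := k) Γ0 x0 hJ

end gen

/-! ### real and complex -/

lemma FF_toC {m k : ℕ} (Γ : Fin (m * k) → Matrix (Fin k) (Fin (m + k)) ℝ) (x : Fin (m * k) → ℝ) (i : Fin (m * k)) :
    FF (fun i => toC (Γ i)) (fun j => (x j : ℂ)) i = ((FF Γ x i : ℝ) : ℂ) := by
  unfold FF
  rw [← toC_Xinf, ← toC_mul, toC_det]

lemma JJ_toC {m k : ℕ} (Γ : Fin (m * k) → Matrix (Fin k) (Fin (m + k)) ℝ) (x : Fin (m * k) → ℝ) :
    JJ (fun i => toC (Γ i)) (fun j => (x j : ℂ)) = ((JJ Γ x : ℝ) : ℂ) := by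
  unfold JJ
  have : JM (fun i => toC (Γ i)) (fun j => (x j : ℂ)) = toC (JM Γ x) := by
    ext i q
    simp only [JM, Matrix.of_apply, toC, Matrix.map_apply]
    have h := toC_det ((Γ i * Xinf x).updateCol (finProdFinEquiv.symm q).2
      (fun a => Γ i a (Fin.castAdd k (finProdFinEquiv.symm q).1)))
    rw [← h]
    congr 1
    ext r c
    simp only [toC, Matrix.map_apply, Matrix.updateCol_apply]
    split_ifs
    · rfl
    · have := congrFun (congrFun (toC_mul (Γ i) (Xinf x)) r) c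
      rw [toC_Xinf] at this
      exact this.symm
  rw [this, toC_det]

end Pool.Agent.GC18
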