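import Pool.Agent.GC18.Stmts
import Pool.Agent.GC18.Deriv

/-!
# Grassmann convexity (MP_5fea31_an), par. 2: the bound for the space of invariants, TRICK
-/

set_option autoImplicit false

namespace Pool.Agent.GC18

open Matrix Filter Topology Set

namespace Count

section poly
variable {k : ℕ}

/-- a multilinear map along a line is a polynomial -/
lemma poly_line {p : ℕ} (φ : MultilinearMap ℂ (fun _ : Fin p => (Fin k → ℂ)) ℂ)
    (u v : Fin p → Fin k → ℂ) :
    ∃ P : Polynomial ℂ, ∀ t : ℂ, P.eval t = φ (fun a => u a + t • v a) := by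
  classical
  refine ⟨∑ s : Finset (Fin p), Polynomial.C (φ (s.piecewise v u)) * Polynomial.X ^ s.card,
    fun t => ?_⟩
  rw [Polynomial.eval_finsetSum]
  have h : (fun a => u a + t • v a) = (fun a => t • v a) + u := by
    funext a
    rw [Pi.add_apply, add_comm]
  rw [h, MultilinearMap.map_add_univ]
  refine Finset.sum_congr rfl fun s _ => ?_
  have h1 := φ.map_piecewise_smul (fun _ => t) (s.piecewise v u) s
  have h2 : s.piecewise (fun i => t • (s.piecewise v u) i) (s.piecewise v u) =
      s.piecewise (fun a => t • v a) u := by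
    funext a
    by_cases ha : a ∈ s
    · simp [ha]
    · simp [ha]
  rw [h2] at h1
  rw [h1, Finset.prod_const, smul_eq_mul]
  simp only [Polynomial.eval_mul, Polynomial.eval_C, Polynomial.eval_pow, Polynomial.eval_X]
  ring

/-- the space of weight `l`, invariant under upper unitriangular matrices -/
def IsE (p : ℕ) (l : Fin k → ℕ) (φ : MultilinearMap ℂ (fun _ : Fin p => (Fin k → ℂ)) ℂ) : Prop :=
  (∀ (c : Fin k → ℂ) (u : Fin p → Fin k → ℂ),
    φ (fun a i => c i * u a i) = (∏ i, c i ^ l i) * φ u) ∧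
  (∀ (g : Matrix (Fin k) (Fin k) ℂ), (∀ i j, j < i → g i j = 0) → (∀ i, g i i = 1) →
    ∀ u : Fin p → Fin k → ℂ, φ (fun a => g.mulVec (u a)) = φ u)

/-- the same as a submodule -/
def EE (p : ℕ) (l : Fin k → ℕ) :
    Submodule ℂ (MultilinearMap ℂ (fun _ : Fin p => (Fin k → ℂ)) ℂ) where
  carrier := {φ | IsE p l φ}
  zero_mem' := by
    refine ⟨?_, ?_⟩
    · intro c u; simp
    · intro g _ _ u; simp
  add_mem' := by
    rintro φ ψ ⟨h1, h2⟩ ⟨h3, h4⟩
    refine ⟨?_, ?_⟩
    · intro c u
      simp only [MultilinearMap.add_apply, h1 c u, h3 c u]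
      ring
    · intro g hg hg' u
      simp only [MultilinearMap.add_apply, h2 g hg hg' u, h4 g hg hg' u]
  smul_mem' := by
    rintro r φ ⟨h1, h2⟩
    refine ⟨?_, ?_⟩
    · intro c u
      simp only [MultilinearMap.smul_apply, h1 c u, smul_eq_mul]
      ring
    · intro g hg hg' u
      simp only [MultilinearMap.smul_apply, h2 g hg hg' u]

lemma mem_EE {p : ℕ} {l : Fin k → ℕ} {φ : MultilinearMap ℂ (fun _ : Fin p => (Fin k → ℂ)) ℂ} :
    φ ∈ EE p l ↔ IsE p l φ := Iff.rfl

lemma transvection_mulVec {i j : Fin k} (hij : i ≠ j) (s : ℂ) (x : Fin k → ℂ) :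
    (Matrix.transvection i j s).mulVec x = x + s • (Pi.single i (x j)) := by
  unfold Matrix.transvection
  rw [Matrix.add_mulVec, Matrix.one_mulVec, Matrix.single_mulVec]
  congr 1
  funext a
  by_cases ha : a = i
  · subst ha; simp
  · simp [ha]

/-- the weights are increasing -/
lemma isE_eq_zero {p : ℕ} {l : Fin k → ℕ} {φ : MultilinearMap ℂ (fun _ : Fin p => (Fin k → ℂ)) ℂ}
    (h : IsE p l φ) {i j : Fin k} (hij : i < j) (hl : l j < l i) : φ = 0 := by
  classical
  obtain ⟨h1, h2⟩ := h
  have hne : i ≠ j := hij.ne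
  refine MultilinearMap.ext fun u => ?_
  rw [MultilinearMap.zero_apply]
  -- `P t = φ (L_t u)`, `Q s = φ (W U_s u)`
  obtain ⟨P, hP⟩ := poly_line φ u (fun a => Pi.single j (u a i))
  obtain ⟨Q, hQ⟩ := poly_line φ (fun a => (u a) ∘ (Equiv.swap i j)) (fun a => Pi.single j (u a j))
  have hU : ∀ (s : ℂ) (w : Fin p → Fin k → ℂ), φ (fun a => w a + s • Pi.single i (w a j)) = φ w := by
    intro s w
    have := h2 (Matrix.transvection i j s) (by
      intro a b hba
      simp only [Matrix.transvection, Matrix.add_apply, Matrix.one_apply, Matrix.single_apply]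
      have hab : a ≠ b := hba.ne'
      rw [if_neg hab, if_neg, add_zero]
      rintro ⟨rfl, rfl⟩
      exact absurd hba (not_lt.2 hij.le)) (by
      intro a
      simp only [Matrix.transvection, Matrix.add_apply, Matrix.one_apply_eq, Matrix.single_apply]
      rw [if_neg, add_zero]
      rintro ⟨rfl, h⟩
      exact hne h.symm) w
    rw [← this]
    congr 1
    funext a
    rw [transvection_mulVec hne]
  have key : ∀ t : ℂ, t ≠ 0 → t ^ (l i - l j) * P.eval t = (-1) ^ l i * Q.eval t⁻¹ := by
    intro t ht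
    -- `D` = multiply the `i`-th coordinate by `-1/t`, the `j`-th one by `t`
    set c : Fin k → ℂ := fun a => if a = i then -t⁻¹ else if a = j then t else 1 with hc
    set w : Fin p → Fin k → ℂ :=
      fun a => (u a) ∘ (Equiv.swap i j) + t⁻¹ • Pi.single j (u a j) with hw
    set w' : Fin p → Fin k → ℂ := fun a b => c b * w a b with hw'
    have e1 : (fun a => u a + t • Pi.single j (u a i)) =
        (fun a => w' a + t⁻¹ • Pi.single i (w' a j)) := by
      funext a b
      simp only [Pi.add_apply, Pi.smul_apply, Function.comp_apply, smul_eq_mul, Pi.single_apply, hc,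
        hw, hw']
      by_cases hbi : b = i
      · subst hbi
        simp only [if_true, if_neg hne, Equiv.swap_apply_left, Equiv.swap_apply_right, if_neg hne.symm]
        field_simp
        ring
      · by_cases hbj : b = j
        · subst hbj
          simp only [if_true, if_neg hne.symm, Equiv.swap_apply_right]
          field_simp
          ring
        · simp only [if_neg hbi, if_neg hbj, Equiv.swap_apply_of_ne_of_ne hbi hbj]
          ring
    rw [hP, hQ, e1, hU, h1]
    have e2 : (∏ a, c a ^ l a) = (-t⁻¹) ^ l i * t ^ l j := by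
      rw [← Finset.mul_prod_erase Finset.univ _ (Finset.mem_univ i),
        ← Finset.mul_prod_erase _ _ (Finset.mem_erase.2 ⟨hne.symm, Finset.mem_univ j⟩)]
      rw [Finset.prod_eq_one]
      · simp only [hc, if_true, if_neg hne.symm, mul_one]
      · intro a ha
        rw [Finset.mem_erase, Finset.mem_erase] at ha
        simp only [hc, if_neg ha.1, if_neg ha.2.1, one_pow]
    rw [e2]
    have e3 : t ^ (l i - l j) * ((-t⁻¹) ^ l i * t ^ l j) = (-1) ^ l i := by
      rw [neg_pow, inv_pow]
      have : t ^ (l i - l j) * t ^ l j = t ^ l i := by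
        rw [← pow_add]; congr 1; omega
      have h0 : t ^ l i ≠ 0 := pow_ne_zero _ ht
      calc t ^ (l i - l j) * ((-1) ^ l i * (t ^ l i)⁻¹ * t ^ l j)
          = (-1) ^ l i * (t ^ (l i - l j) * t ^ l j) * (t ^ l i)⁻¹ := by ring
        _ = (-1) ^ l i := by rw [this]; field_simp
    rw [← mul_assoc, e3]
  have hP0 : P = 0 := by
    by_contra hPne
    have hdeg : 0 < (Polynomial.X ^ (l i - l j) * P).degree := by
      rw [Polynomial.degree_mul, Polynomial.degree_X_pow]
      rw [Polynomial.degree_eq_natDegree hPne]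
      have : 0 < l i - l j := by omega
      exact_mod_cast (by omega : 0 < l i - l j + P.natDegree)
    have hz : Tendsto (fun n : ℕ => ‖((n : ℂ) + 1)‖) atTop atTop := by
      have : (fun n : ℕ => ‖((n : ℂ) + 1)‖) = fun n : ℕ => ((n : ℝ) + 1) := by
        funext n
        have : ((n : ℂ) + 1) = (((n + 1 : ℕ) : ℝ) : ℂ) := by push_cast; ring
        rw [this, Complex.norm_real, Real.norm_of_nonneg (by positivity)]
        push_cast; ring
      rw [this]
      exact tendsto_atTop_add_const_right _ _ tendsto_natCast_atTop_atTop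
    have ht := Polynomial.tendsto_norm_atTop (Polynomial.X ^ (l i - l j) * P) hdeg hz
    have ht2 : Tendsto (fun n : ℕ => ‖(-1 : ℂ) ^ l i * Q.eval ((n : ℂ) + 1)⁻¹‖) atTop
        (𝓝 ‖(-1 : ℂ) ^ l i * Q.eval 0‖) := by
      refine (Tendsto.const_mul _ ?_).norm
      refine (Q.continuous.tendsto 0).comp ?_
      exact tendsto_inv₀_cobounded.comp (tendsto_norm_atTop_iff_cobounded.1 hz)
    have heq : (fun n : ℕ => ‖Polynomial.eval ((n : ℂ) + 1) (Polynomial.X ^ (l i - l j) * P)‖) =
        fun n : ℕ => ‖(-1 : ℂ) ^ l i * Q.eval ((n : ℂ) + 1)⁻¹‖ := by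
      funext n
      rw [Polynomial.eval_mul, Polynomial.eval_pow, Polynomial.eval_X, key]
      exact_mod_cast Nat.succ_ne_zero n
    rw [heq] at ht
    exact not_tendsto_nhds_of_tendsto_atTop ht _ ht2
  have := hP 0
  rw [hP0, Polynomial.eval_zero] at this
  rw [this]
  congr 1
  funext a
  simp

/-- peeling off the first vector, as a linear map -/
def TT (p : ℕ) (e : Fin k → ℂ) :
    MultilinearMap ℂ (fun _ : Fin (p + 1) => (Fin k → ℂ)) ℂ →ₗ[ℂ]
      MultilinearMap ℂ (fun _ : Fin p => (Fin k → ℂ)) ℂ where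
  toFun φ := φ.curryLeft e
  map_add' φ ψ := by ext; simp
  map_smul' c φ := by ext; simp

lemma TT_apply {p : ℕ} (e : Fin k → ℂ) (φ : MultilinearMap ℂ (fun _ : Fin (p + 1) => (Fin k → ℂ)) ℂ)
    (u : Fin p → Fin k → ℂ) : TT p e φ u = φ (Fin.cons e u : Fin (p + 1) → Fin k → ℂ) := rfl

/-- peeling off `e_i`, `l i = 0` -/
lemma peel_zero {p : ℕ} {l : Fin k → ℕ}
    {φ : MultilinearMap ℂ (fun _ : Fin (p + 1) => (Fin k → ℂ)) ℂ} (h : IsE (p + 1) l φ) (i : Fin k)
    (hl : l i = 0) : TT p (Pi.single i 1) φ = 0 := by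
  classical
  refine MultilinearMap.ext fun u => ?_
  rw [TT_apply, MultilinearMap.zero_apply]
  have h1 := h.1 (Function.update (fun _ => 1) i 0) (Fin.cons (Pi.single i 1) u)
  have h2 : (∏ j, (Function.update (fun _ => (1 : ℂ)) i 0 : Fin k → ℂ) j ^ l j) = 1 := by
    refine Finset.prod_eq_one fun j _ => ?_
    by_cases hj : j = i
    · subst hj; rw [hl, pow_zero]
    · rw [Function.update_of_ne hj, one_pow]
  rw [h2, one_mul] at h1
  rw [← h1]
  refine φ.map_coord_zero 0 ?_
  funext j
  by_cases hj : j = i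
  · subst hj; simp
  · simp [hj]

/-- peeling off `e_i`, `l i > 0`, on the kernel of the previous ones -/
lemma peel_pos {p : ℕ} {l : Fin k → ℕ}
    {φ : MultilinearMap ℂ (fun _ : Fin (p + 1) => (Fin k → ℂ)) ℂ} (h : IsE (p + 1) l φ) (i : Fin k)
    (hl : 0 < l i) (hker : ∀ j, j < i → TT p (Pi.single j 1) φ = 0) :
    IsE p (Function.update l i (l i - 1)) (TT p (Pi.single i 1) φ) := by
  classical
  refine ⟨?_, ?_⟩
  · intro c u
    set ψ := TT p (Pi.single i 1) φ with hψ
    obtain ⟨P, hP⟩ := poly_line ψ (fun a b => if b = i then 0 else c b * u a b)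
      (fun a => Pi.single i (u a i))
    set K : ℂ := (∏ j ∈ Finset.univ.erase i, c j ^ l j) * ψ u with hK
    have hPt : ∀ t, P.eval t = ψ (fun a b => (Function.update c i t : Fin k → ℂ) b * u a b) := by
      intro t
      rw [hP]
      congr 1
      funext a b
      by_cases hb : b = i
      · subst hb; simp
      · simp [hb]
    have key : ∀ t, t * P.eval t = t ^ l i * K := by
      intro t
      rw [hPt, hψ, TT_apply]
      have h1 := h.1 (Function.update c i t) (Fin.cons (Pi.single i 1) u)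
      have h2 : (fun a b => (Function.update c i t : Fin k → ℂ) b *
          (Fin.cons (Pi.single i 1) u : Fin (p + 1) → Fin k → ℂ) a b) =
          Function.update (Fin.cons (Pi.single i 1)
            (fun a b => (Function.update c i t : Fin k → ℂ) b * u a b) :
              Fin (p + 1) → Fin k → ℂ) 0 (t • (Pi.single i 1 : Fin k → ℂ)) := by
        funext a
        refine Fin.cases ?_ (fun a => ?_) a
        · rw [Function.update_self, Fin.cons_zero]
          funext b
          by_cases hb : b = i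
          · subst hb; simp
          · simp [hb]
        · rw [Function.update_of_ne (Fin.succ_ne_zero a), Fin.cons_succ, Fin.cons_succ]
      rw [h2, MultilinearMap.map_update_smul] at h1
      have h3 : Function.update (Fin.cons (Pi.single i 1)
            (fun a b => (Function.update c i t : Fin k → ℂ) b * u a b) :
              Fin (p + 1) → Fin k → ℂ) 0 (Pi.single i 1 : Fin k → ℂ) =
          Fin.cons (Pi.single i 1) (fun a b => (Function.update c i t : Fin k → ℂ) b * u a b) := by
        funext a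
        refine Fin.cases ?_ (fun a => ?_) a
        · rw [Function.update_self, Fin.cons_zero]
        · rw [Function.update_of_ne (Fin.succ_ne_zero a)]
      rw [h3, smul_eq_mul] at h1
      rw [h1, hK, hψ, TT_apply, ← Finset.mul_prod_erase Finset.univ _ (Finset.mem_univ i),
        Function.update_self]
      rw [Finset.prod_congr rfl (g := fun j => c j ^ l j)]
      · ring
      · intro j hj
        rw [Function.update_of_ne (Finset.ne_of_mem_erase hj)]
    obtain ⟨q, hq⟩ : ∃ q, l i = q + 1 := ⟨l i - 1, by omega⟩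
    have hpoly : P = Polynomial.C K * Polynomial.X ^ q := by
      have : Polynomial.X * P = Polynomial.X * (Polynomial.C K * Polynomial.X ^ q) := by
        refine Polynomial.funext fun t => ?_
        rw [Polynomial.eval_mul, Polynomial.eval_X, key, hq]
        simp only [Polynomial.eval_mul, Polynomial.eval_C, Polynomial.eval_pow, Polynomial.eval_X]
        ring
      exact mul_left_cancel₀ Polynomial.X_ne_zero this
    have h5 := hPt (c i)
    rw [Function.update_eq_self] at h5
    rw [← h5, hpoly]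
    simp only [Polynomial.eval_mul, Polynomial.eval_C, Polynomial.eval_pow, Polynomial.eval_X]
    rw [hK, ← Finset.mul_prod_erase Finset.univ _ (Finset.mem_univ i), Function.update_self, hq,
      Nat.add_sub_cancel]
    rw [Finset.prod_congr rfl (g := fun j => c j ^ l j)
      (f := fun j => c j ^ (Function.update l i q : Fin k → ℕ) j)]
    · ring
    · intro j hj
      rw [Function.update_of_ne (Finset.ne_of_mem_erase hj)]
  · intro g hg hg' u
    have h1 := h.2 g hg hg' (Fin.cons (Pi.single i 1) u)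
    rw [TT_apply, TT_apply, ← h1]
    have h2 : (fun a => g.mulVec ((Fin.cons (Pi.single i 1) u : Fin (p + 1) → Fin k → ℂ) a)) =
        Fin.cons (∑ j, g j i • (Pi.single j 1 : Fin k → ℂ)) (fun a => g.mulVec (u a)) := by
      funext a
      refine Fin.cases ?_ (fun a => ?_) a
      · rw [Fin.cons_zero, Fin.cons_zero, Matrix.mulVec_single_one]
        funext b
        rw [Finset.sum_apply]
        simp [Pi.single_apply, Matrix.col_apply]
      · rw [Fin.cons_succ, Fin.cons_succ]
    rw [h2, ← MultilinearMap.curryLeft_apply φ, ← MultilinearMap.curryLeft_apply φ, map_sum]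
    rw [Finset.sum_eq_single i]
    · rw [hg' i, one_smul]
    · intro j _ hji
      rw [map_smul]
      rcases lt_or_gt_of_ne hji with hj | hj
      · have : φ.curryLeft (Pi.single j 1) = 0 := hker j hj
        rw [this, smul_zero]
      · rw [hg j i hj, zero_smul]
    · intro hi
      exact absurd (Finset.mem_univ i) hi

/-- a map which vanishes on all basis vectors in the first place -/
lemma eq_zero_of_peel {p : ℕ} {φ : MultilinearMap ℂ (fun _ : Fin (p + 1) => (Fin k → ℂ)) ℂ}
    (h : ∀ i, TT p (Pi.single i 1) φ = 0) : φ = 0 := by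
  classical
  refine MultilinearMap.ext fun u => ?_
  rw [MultilinearMap.zero_apply]
  have h1 : φ u = φ.curryLeft (u 0) (Fin.tail u) := by
    rw [MultilinearMap.curryLeft_apply, Fin.cons_self_tail]
  have h2 : u 0 = ∑ j, u 0 j • (Pi.single j 1 : Fin k → ℂ) := by
    funext b
    rw [Finset.sum_apply]
    simp [Pi.single_apply]
  rw [h1, h2, map_sum, Finset.sum_eq_zero]
  · rfl
  · intro j _
    rw [map_smul]
    have : φ.curryLeft (Pi.single j 1) = 0 := h j
    rw [this, smul_zero]

end poly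

/-- dimension of a subspace by a linear map -/
lemma finrank_le_add {V W : Type} [AddCommGroup V] [Module ℂ V] [FiniteDimensional ℂ V]
    [AddCommGroup W] [Module ℂ W] [FiniteDimensional ℂ W] (F G : Submodule ℂ V) (H : Submodule ℂ W)
    (T : V →ₗ[ℂ] W) (hG : ∀ x ∈ F, T x = 0 → x ∈ G) (hH : ∀ x ∈ F, T x ∈ H) :
    Module.finrank ℂ F ≤ Module.finrank ℂ G + Module.finrank ℂ H := by
  have h1 := LinearMap.finrank_range_add_finrank_ker (T.domRestrict F)
  have h2 : Module.finrank ℂ (LinearMap.range (T.domRestrict F)) ≤ Module.finrank ℂ H := by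
    refine Submodule.finrank_mono ?_
    rintro _ ⟨x, rfl⟩
    exact hH x.1 x.2
  have h3 : Module.finrank ℂ (LinearMap.ker (T.domRestrict F)) ≤ Module.finrank ℂ G := by
    rw [← Submodule.finrank_map_subtype_eq]
    refine Submodule.finrank_mono ?_
    rintro _ ⟨x, hx, rfl⟩
    exact hG x.1 x.2 hx
  omega

/-- the maps in `EE` which vanish on the first `j` basis vectors in the first place -/
def FF' {k : ℕ} (p : ℕ) (l : Fin k → ℕ) (j : ℕ) :
    Submodule ℂ (MultilinearMap ℂ (fun _ : Fin (p + 1) => (Fin k → ℂ)) ℂ) where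
  carrier := {φ | φ ∈ EE (p + 1) l ∧ ∀ i : Fin k, (i : ℕ) < j → TT p (Pi.single i 1) φ = 0}
  zero_mem' := ⟨Submodule.zero_mem _, fun i _ => map_zero _⟩
  add_mem' := by
    rintro φ ψ ⟨h1, h2⟩ ⟨h3, h4⟩
    exact ⟨Submodule.add_mem _ h1 h3, fun i hi => by rw [map_add, h2 i hi, h4 i hi, add_zero]⟩
  smul_mem' := by
    rintro r φ ⟨h1, h2⟩
    exact ⟨Submodule.smul_mem _ _ h1, fun i hi => by rw [map_smul, h2 i hi, smul_zero]⟩

lemma finrank_EE {k : ℕ} (p : ℕ) : ∀ l : Fin k → ℕ, Module.finrank ℂ (EE p l) ≤ ff k p l := by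
  classical
  induction p with
  | zero =>
    intro l
    by_cases hl : ∀ i, l i = 0
    · have h1 : Module.finrank ℂ (EE 0 l) ≤
          Module.finrank ℂ (MultilinearMap ℂ (fun _ : Fin 0 => (Fin k → ℂ)) ℂ) :=
        Submodule.finrank_le _
      have h2 : Module.finrank ℂ (MultilinearMap ℂ (fun _ : Fin 0 => (Fin k → ℂ)) ℂ) = 1 := by
        rw [(MultilinearMap.constLinearEquivOfIsEmpty (R := ℂ) (S := ℂ) (M₂ := ℂ)
          (M₁ := fun _ : Fin 0 => (Fin k → ℂ))).symm.finrank_eq]
        exact Module.finrank_self ℂ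
      rw [h2] at h1
      simpa [ff, hl] using h1
    · push Not at hl
      obtain ⟨i, hi⟩ := hl
      have h1 : EE 0 l = ⊥ := by
        rw [Submodule.eq_bot_iff]
        intro φ hφ
        refine MultilinearMap.ext fun u => ?_
        rw [MultilinearMap.zero_apply]
        have h2 := hφ.1 (fun _ => 0) u
        have h3 : (∏ j, (0 : ℂ) ^ l j) = 0 := Finset.prod_eq_zero (Finset.mem_univ i) (zero_pow hi)
        rw [h3, zero_mul] at h2
        rw [← h2]
        congr 1
        funext a
        exact Fin.elim0 a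
      rw [h1, finrank_bot]
      exact Nat.zero_le _
  | succ p ih =>
    intro l
    by_cases hl : Monotone l
    · -- the filtration
      set b : Fin k → ℕ := fun i => if 0 < l i then ff k p (Function.update l i (l i - 1)) else 0
        with hb
      have hff : ff k (p + 1) l = ∑ i, b i := by
        rw [ff, if_pos hl]
      have key : ∀ d j : ℕ, j + d = k →
          Module.finrank ℂ (FF' p l j) ≤ ∑ i ∈ Finset.univ.filter (fun i : Fin k => j ≤ (i : ℕ)), b i := by
        intro d
        induction d with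
        | zero =>
          intro j hj
          have h1 : FF' p l j = ⊥ := by
            rw [Submodule.eq_bot_iff]
            intro φ hφ
            exact eq_zero_of_peel fun i => hφ.2 i (by omega)
          rw [h1, finrank_bot]
          exact Nat.zero_le _
        | succ d ihd =>
          intro j hj
          have hjk : j < k := by omega
          have h1 := ihd (j + 1) (by omega)
          set i : Fin k := ⟨j, hjk⟩ with hi
          have hsum : ∑ i' ∈ Finset.univ.filter (fun i' : Fin k => j ≤ (i' : ℕ)), b i' =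
              ∑ i' ∈ Finset.univ.filter (fun i' : Fin k => j + 1 ≤ (i' : ℕ)), b i' + b i := by
            have h2 : Finset.univ.filter (fun i' : Fin k => j ≤ (i' : ℕ)) =
                insert i (Finset.univ.filter (fun i' : Fin k => j + 1 ≤ (i' : ℕ))) := by
              ext i'
              simp only [Finset.mem_filter, Finset.mem_univ, true_and, Finset.mem_insert, hi,
                Fin.ext_iff]
              omega
            rw [h2, Finset.sum_insert, add_comm]
            simp [hi]
          have hG : ∀ φ ∈ FF' p l j, TT p (Pi.single i 1) φ = 0 → φ ∈ FF' p l (j + 1) := by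
            intro φ hφ h0
            refine ⟨hφ.1, fun i' hi' => ?_⟩
            rcases Nat.lt_succ_iff_lt_or_eq.1 hi' with h | h
            · exact hφ.2 i' h
            · have : i' = i := Fin.ext h
              rw [this]; exact h0
          rw [hsum]
          by_cases hli : 0 < l i
          · have h3 := finrank_le_add (FF' p l j) (FF' p l (j + 1))
              (EE p (Function.update l i (l i - 1))) (TT p (Pi.single i 1)) hG
              (fun φ hφ => peel_pos hφ.1 i hli (fun i' hi' => hφ.2 i' hi'))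
            have h4 := ih (Function.update l i (l i - 1))
            have h5 : b i = ff k p (Function.update l i (l i - 1)) := by
              rw [hb]; simp only [if_pos hli]
            rw [h5]
            omega
          · have h3 := finrank_le_add (FF' p l j) (FF' p l (j + 1)) ⊥ (TT p (Pi.single i 1)) hG
              (fun φ hφ => by
                rw [peel_zero hφ.1 i (by omega)]
                exact Submodule.zero_mem _)
            rw [finrank_bot] at h3
            omega
      have h0 := key k 0 (by omega)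
      have h1 : EE (p + 1) l ≤ FF' p l 0 := fun φ hφ => ⟨hφ, fun i hi => absurd hi (Nat.not_lt_zero _)⟩
      refine (Submodule.finrank_mono h1).trans (h0.trans (le_of_eq ?_))
      rw [hff]
      refine Finset.sum_congr ?_ fun _ _ => rfl
      ext i
      simp
    · have h1 : EE (p + 1) l = ⊥ := by
        rw [Submodule.eq_bot_iff]
        intro φ hφ
        unfold Monotone at hl
        push Not at hl
        obtain ⟨i, j, hij, hlt⟩ := hl
        have hne : i ≠ j := fun h => by rw [h] at hlt; exact lt_irrefl _ hlt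
        exact isE_eq_zero hφ (lt_of_le_of_ne hij hne) hlt
      rw [h1, finrank_bot]
      exact Nat.zero_le _

end Count

theorem dimE : S_DimE := by
  intro k p l S hS
  refine le_trans (Submodule.finrank_mono ?_) (Count.finrank_EE p l)
  intro φ hφ
  exact hS φ hφ

namespace Count

variable {m k : ℕ}

/-- the matrix with rows `ζ_i ⊗ u_i` -/
def Mz (ζ : Fin (m * k) → Fin m → ℂ) (u : Fin (m * k) → Fin k → ℂ) :
    Matrix (Fin (m * k)) (Fin (m * k)) ℂ :=
  Matrix.of fun i q => ζ i (finProdFinEquiv.symm q).1 * u i (finProdFinEquiv.symm q).2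

/-- `v ↦ ζ ⊗ v` -/
def Lz (ζ : Fin m → ℂ) : (Fin k → ℂ) →ₗ[ℂ] (Fin (m * k) → ℂ) where
  toFun v q := ζ (finProdFinEquiv.symm q).1 * v (finProdFinEquiv.symm q).2
  map_add' v w := by funext q; simp [mul_add]
  map_smul' c v := by funext q; simp; ring

/-- `u ↦ det (ζ_i ⊗ u_i)` -/
noncomputable def phi (ζ : Fin (m * k) → Fin m → ℂ) :
    MultilinearMap ℂ (fun _ : Fin (m * k) => (Fin k → ℂ)) ℂ :=
  (Matrix.detRowAlternating (n := Fin (m * k)) (R := ℂ)).toMultilinearMap.compLinearMap
    (fun i => Lz (ζ i))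

lemma phi_apply (ζ : Fin (m * k) → Fin m → ℂ) (u : Fin (m * k) → Fin k → ℂ) :
    phi ζ u = (Mz ζ u).det := rfl

lemma phi_mulVec (ζ : Fin (m * k) → Fin m → ℂ) (u : Fin (m * k) → Fin k → ℂ)
    (g : Matrix (Fin k) (Fin k) ℂ) : phi ζ (fun a => g.mulVec (u a)) = g.det ^ m * phi ζ u := by
  rw [phi_apply, phi_apply]
  have h : Mz ζ (fun a => g.mulVec (u a)) = Mz ζ u *
      ((Matrix.kroneckerMap (· * ·) (1 : Matrix (Fin m) (Fin m) ℂ) gᵀ).submatrix
        finProdFinEquiv.symm finProdFinEquiv.symm) := by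
    ext i q
    rw [Matrix.mul_apply, ← Equiv.sum_comp finProdFinEquiv, Fintype.sum_prod_type]
    simp only [Mz, Matrix.of_apply, Matrix.submatrix_apply, Matrix.kroneckerMap_apply,
      Equiv.symm_apply_apply, Matrix.transpose_apply]
    rw [Finset.sum_eq_single (finProdFinEquiv.symm q).1]
    · simp only [Matrix.one_apply_eq, one_mul, Matrix.mulVec, dotProduct, Finset.mul_sum]
      refine Finset.sum_congr rfl fun b _ => ?_
      ring
    · intro a _ ha
      refine Finset.sum_eq_zero fun b _ => ?_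
      rw [Matrix.one_apply_ne ha]
      ring
    · intro h
      exact absurd (Finset.mem_univ _) h
  rw [h, Matrix.det_mul, Matrix.det_submatrix_equiv_self]
  have h2 := Matrix.det_kronecker (1 : Matrix (Fin m) (Fin m) ℂ) gᵀ
  rw [h2, Matrix.det_one, one_pow, one_mul, Matrix.det_transpose, Fintype.card_fin, mul_comm]

lemma phi_mem (ζ : Fin (m * k) → Fin m → ℂ) : phi ζ ∈ EE (m * k) (fun _ : Fin k => m) := by
  refine ⟨?_, ?_⟩
  · intro c u
    have h : (fun a i => c i * u a i) = fun a => (Matrix.diagonal c).mulVec (u a) := by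
      funext a i
      rw [Matrix.mulVec_diagonal]
    rw [h, phi_mulVec, Matrix.det_diagonal, Finset.prod_pow]
  · intro g hg hg' u
    rw [phi_mulVec, Matrix.det_of_upperTriangular (fun i j hij => hg i j hij),
      Finset.prod_eq_one (fun i _ => hg' i), one_pow, one_mul]

/-- `ζ_i = η_i Γ_i^1` -/
def zt (Γ : Fin (m * k) → Matrix (Fin k) (Fin (m + k)) ℂ) (η : Fin (m * k) → Fin k → ℂ) :
    Fin (m * k) → Fin m → ℂ := fun i a => ∑ r, η i r * Γ i r (Fin.castAdd k a)

/-- nondegenerate solutions -/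
structure ND (Γ : Fin (m * k) → Matrix (Fin k) (Fin (m + k)) ℂ) (x : Fin (m * k) → ℂ)
    (u η : Fin (m * k) → Fin k → ℂ) : Prop where
  ker : ∀ i, (Γ i * Xinf x).mulVec (u i) = 0
  coker : ∀ i, Matrix.vecMul (η i) (Γ i * Xinf x) = 0
  ndet : (Mz (zt Γ η) u).det ≠ 0

lemma Xinf_castAdd (x : Fin (m * k) → ℂ) (a : Fin m) (c : Fin k) :
    Xinf x (Fin.castAdd k a) c = x (finProdFinEquiv (a, c)) := by
  simp [Xinf]

lemma Xinf_natAdd (x : Fin (m * k) → ℂ) (b c : Fin k) :
    Xinf x (Fin.natAdd m b) c = if b = c then 1 else 0 := by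
  simp [Xinf]

lemma mul_Xinf (G : Matrix (Fin k) (Fin (m + k)) ℂ) (x : Fin (m * k) → ℂ) (r c : Fin k) :
    (G * Xinf x) r c = ∑ a : Fin m, G r (Fin.castAdd k a) * x (finProdFinEquiv (a, c)) +
      G r (Fin.natAdd m c) := by
  rw [Matrix.mul_apply, Fin.sum_univ_add]
  simp only [Xinf_castAdd, Xinf_natAdd]
  congr 1
  simp

/-- biorthogonality -/
lemma orth (Γ : Fin (m * k) → Matrix (Fin k) (Fin (m + k)) ℂ) {x y : Fin (m * k) → ℂ}
    (hxy : x ≠ y) {u η : Fin (m * k) → Fin k → ℂ} (hu : ∀ i, (Γ i * Xinf x).mulVec (u i) = 0)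
    (hη : ∀ i, Matrix.vecMul (η i) (Γ i * Xinf y) = 0) : (Mz (zt Γ η) u).det = 0 := by
  rw [← Matrix.exists_mulVec_eq_zero_iff]
  refine ⟨x - y, sub_ne_zero.2 hxy, ?_⟩
  funext i
  have h1 : η i ⬝ᵥ (Γ i * Xinf x).mulVec (u i) = 0 := by rw [hu i, dotProduct_zero]
  have h2 : η i ⬝ᵥ (Γ i * Xinf y).mulVec (u i) = 0 := by
    rw [Matrix.dotProduct_mulVec, hη i, zero_dotProduct]
  have h3 : ∀ z : Fin (m * k) → ℂ, η i ⬝ᵥ (Γ i * Xinf z).mulVec (u i) =
      ∑ q, Mz (zt Γ η) u i q * z q + ∑ r, ∑ c, η i r * Γ i r (Fin.natAdd m c) * u i c := by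
    intro z
    rw [← Equiv.sum_comp finProdFinEquiv, Fintype.sum_prod_type]
    simp only [Mz, Matrix.of_apply, Equiv.symm_apply_apply, zt, dotProduct, Matrix.mulVec, mul_Xinf]
    have e1 : ∀ r, η i r * ∑ c, (∑ a, Γ i r (Fin.castAdd k a) * z (finProdFinEquiv (a, c)) +
        Γ i r (Fin.natAdd m c)) * u i c =
        ∑ c, ∑ a, η i r * Γ i r (Fin.castAdd k a) * z (finProdFinEquiv (a, c)) * u i c +
        ∑ c, η i r * Γ i r (Fin.natAdd m c) * u i c := by
      intro r
      rw [Finset.mul_sum, ← Finset.sum_add_distrib]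
      refine Finset.sum_congr rfl fun c _ => ?_
      rw [add_mul, Finset.sum_mul, mul_add, Finset.mul_sum]
      congr 1
      · refine Finset.sum_congr rfl fun a _ => ?_
        ring
      · ring
    rw [Finset.sum_congr rfl fun r _ => e1 r, Finset.sum_add_distrib]
    congr 1
    -- reorder `∑ r, ∑ c, ∑ a` to `∑ a, ∑ c, ∑ r`
    rw [Finset.sum_comm]
    rw [Finset.sum_congr rfl fun c _ => Finset.sum_comm]
    rw [Finset.sum_comm]
    refine Finset.sum_congr rfl fun a _ => Finset.sum_congr rfl fun c _ => ?_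
    rw [Finset.sum_mul, Finset.sum_mul]
    refine Finset.sum_congr rfl fun r _ => ?_
    ring
  rw [h3] at h1 h2
  have h4 : ∑ q, Mz (zt Γ η) u i q * x q = ∑ q, Mz (zt Γ η) u i q * y q := by
    have := h1.trans h2.symm
    exact add_right_cancel this
  simp only [Matrix.mulVec, dotProduct, Pi.sub_apply, mul_sub, Finset.sum_sub_distrib,
    Pi.zero_apply]
  rw [h4, sub_self]

/-- COUNT -/
lemma count (Γ : Fin (m * k) → Matrix (Fin k) (Fin (m + k)) ℂ) (Sol : Finset (Fin (m * k) → ℂ))
    (h : ∀ x ∈ Sol, ∃ u η, ND Γ x u η) : Sol.card ≤ dd m k := by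
  classical
  choose! u η hnd using h
  set φ : Sol → MultilinearMap ℂ (fun _ : Fin (m * k) => (Fin k → ℂ)) ℂ :=
    fun x => phi (zt Γ (η x)) with hφ
  have hli : LinearIndependent ℂ φ := by
    rw [Fintype.linearIndependent_iff]
    intro g hg x0
    have h1 := congrArg (fun ψ : MultilinearMap ℂ (fun _ : Fin (m * k) => (Fin k → ℂ)) ℂ =>
      ψ (u x0)) hg
    simp only [MultilinearMap.sum_apply, MultilinearMap.smul_apply, MultilinearMap.zero_apply,
      smul_eq_mul] at h1
    rw [Finset.sum_eq_single x0] at h1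
    · exact (mul_eq_zero.1 h1).resolve_right (hnd x0 x0.2).ndet
    · intro x _ hx
      have hne : (x0 : Fin (m * k) → ℂ) ≠ x := fun h => hx (Subtype.ext h.symm)
      have := orth Γ hne (hnd x0 x0.2).ker (hnd x x.2).coker
      rw [hφ]
      simp only
      rw [phi_apply, this, mul_zero]
    · intro hx
      exact absurd (Finset.mem_univ _) hx
  have h1 := finrank_span_eq_card hli
  have h2 : Submodule.span ℂ (Set.range φ) ≤ EE (m * k) (fun _ : Fin k => m) := by
    rw [Submodule.span_le]
    rintro _ ⟨x, rfl⟩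
    exact phi_mem _
  have h3 := (Submodule.finrank_mono h2).trans (finrank_EE (m * k) _)
  rw [h1, Fintype.card_coe] at h3
  exact h3

/-- the adjugate of a singular matrix has rank at most one -/
lemma adj_rank_one (K : Matrix (Fin k) (Fin k) ℂ) (hdet : K.det = 0) (hadj : K.adjugate ≠ 0) :
    ∃ u η : Fin k → ℂ, K.mulVec u = 0 ∧ Matrix.vecMul η K = 0 ∧
      ∀ b r, K.adjugate b r = u b * η r := by
  classical
  obtain ⟨b₀, r₀, hbr⟩ : ∃ b₀ r₀, K.adjugate b₀ r₀ ≠ 0 := by
    by_contra hcon
    push Not at hcon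
    exact hadj (Matrix.ext fun b r => hcon b r)
  have hcol : ∀ r, K.mulVec (fun b => K.adjugate b r) = 0 := by
    intro r
    funext a
    have h := congrFun (congrFun (Matrix.mul_adjugate K) a) r
    rw [hdet, zero_smul, Matrix.mul_apply] at h
    exact h
  -- a kernel vector with zero `b₀`-coordinate is zero
  have hz : ∀ z : Fin k → ℂ, K.mulVec z = 0 → z b₀ = 0 → z = 0 := by
    intro z hz hz0
    by_contra hne
    apply hbr
    rw [Matrix.adjugate_apply, ← Matrix.det_transpose, ← Matrix.updateCol_transpose] 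
    -- use the column form
    have h1 := congrFun (Matrix.cramer_eq_adjugate_mulVec K (Pi.single r₀ 1)) b₀
    rw [Matrix.cramer_apply, Matrix.mulVec_single_one, Matrix.col_apply] at h1
    have h2 : (K.updateCol b₀ (Pi.single r₀ 1)).det = 0 := by
      rw [← Matrix.exists_mulVec_eq_zero_iff]
      refine ⟨z, hne, ?_⟩
      funext a
      have h3 := congrFun hz a
      simp only [Matrix.mulVec, dotProduct, Pi.zero_apply] at h3 ⊢
      rw [← h3]
      refine Finset.sum_congr rfl fun b _ => ?_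
      by_cases hb : b = b₀
      · rw [hb, hz0, mul_zero, mul_zero]
      · rw [Matrix.updateCol_ne hb]
    rw [h2, Matrix.adjugate_apply, ← Matrix.det_transpose, ← Matrix.updateCol_transpose] at h1
    exact h1.symm
  refine ⟨fun b => K.adjugate b r₀, fun r => K.adjugate b₀ r / K.adjugate b₀ r₀, hcol r₀, ?_, ?_⟩
  · funext c
    have h := congrFun (congrFun (Matrix.adjugate_mul K) b₀) c
    rw [hdet, zero_smul, Matrix.mul_apply] at h
    simp only [Matrix.vecMul, dotProduct, Pi.zero_apply]
    have : ∑ r, K.adjugate b₀ r / K.adjugate b₀ r₀ * K r c =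
        (∑ r, K.adjugate b₀ r * K r c) / K.adjugate b₀ r₀ := by
      rw [Finset.sum_div]
      refine Finset.sum_congr rfl fun r _ => ?_
      ring
    rw [this]
    have h' : ∑ r, K.adjugate b₀ r * K r c = 0 := h
    rw [h', zero_div]
  · intro b r
    have h1 := hz (fun b => K.adjugate b r - K.adjugate b₀ r / K.adjugate b₀ r₀ * K.adjugate b r₀)
      (by
        have e : (fun b => K.adjugate b r - K.adjugate b₀ r / K.adjugate b₀ r₀ * K.adjugate b r₀) =
            (fun b => K.adjugate b r) -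
              (K.adjugate b₀ r / K.adjugate b₀ r₀) • (fun b => K.adjugate b r₀) := by
          funext b
          simp
        rw [e, Matrix.mulVec_sub, Matrix.mulVec_smul, hcol, hcol, smul_zero, sub_zero])
      (by
        show K.adjugate b₀ r - K.adjugate b₀ r / K.adjugate b₀ r₀ * K.adjugate b₀ r₀ = 0
        rw [div_mul_cancel₀ _ hbr, sub_self])
    have h2 := congrFun h1 b
    simp only [Pi.zero_apply] at h2
    rw [sub_eq_zero] at h2
    rw [h2]
    ring

/-- simple solutions are nondegenerate -/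
lemma nd_of_simple (Γ : Fin (m * k) → Matrix (Fin k) (Fin (m + k)) ℂ) (x : Fin (m * k) → ℂ)
    (h0 : FF Γ x = 0) (hJ : JJ Γ x ≠ 0) : ∃ u η, ND Γ x u η := by
  classical
  have hJM : ∀ i q, JM Γ x i q = ((Γ i * Xinf x).adjugate.mulVec
      (fun r => Γ i r (Fin.castAdd k (finProdFinEquiv.symm q).1))) (finProdFinEquiv.symm q).2 := by
    intro i q
    rw [← Matrix.cramer_eq_adjugate_mulVec, Matrix.cramer_apply]
    rfl
  have hadj : ∀ i, (Γ i * Xinf x).adjugate ≠ 0 := by
    intro i h
    apply hJ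
    unfold JJ
    refine Matrix.det_eq_zero_of_row_eq_zero i fun q => ?_
    rw [hJM, h, Matrix.zero_mulVec]
    rfl
  have hdet : ∀ i, (Γ i * Xinf x).det = 0 := fun i => congrFun h0 i
  choose u η h1 h2 h3 using fun i => adj_rank_one (Γ i * Xinf x) (hdet i) (hadj i)
  refine ⟨u, η, h1, h2, ?_⟩
  have : Mz (zt Γ η) u = JM Γ x := by
    ext i q
    rw [hJM]
    simp only [Mz, Matrix.of_apply, zt, Matrix.mulVec, dotProduct, h3]
    rw [Finset.sum_mul]
    refine Finset.sum_congr rfl fun r _ => ?_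
    ring
  rw [this]
  exact hJ

/-- a vector not orthogonal to finitely many given nonzero vectors -/
lemma generic {ι : Type} [Finite ι] (t : ι → Fin k → ℂ) (ht : ∀ i, t i ≠ 0) :
    ∃ x : Fin k → ℂ, ∀ i, x ⬝ᵥ t i ≠ 0 := by
  obtain ⟨f, hf⟩ := Module.exists_dual_forall_apply_ne_zero (K := ℂ) t ht
  refine ⟨fun j => f (Pi.single j 1), fun i => ?_⟩
  have : f (t i) = (fun j => f (Pi.single j 1)) ⬝ᵥ t i := by
    conv_lhs => rw [pi_eq_sum_univ' (t i)]
    simp only [map_sum, map_smul, dotProduct, smul_eq_mul]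
    refine Finset.sum_congr rfl fun j _ => ?_
    rw [mul_comm]
  rw [← this]
  exact hf i

/-- the data of the perturbation at one index: `w · u = w · v = 1`, `η · h = 1` -/
lemma exists_wh {u v₀ η : Fin k → ℂ} (hu : u ≠ 0) (hv : v₀ ≠ 0) (hη : η ≠ 0) :
    ∃ (w h : Fin k → ℂ) (c : ℂ), c ≠ 0 ∧ w ⬝ᵥ u = 1 ∧ w ⬝ᵥ (c • v₀) = 1 ∧ η ⬝ᵥ h = 1 := by
  obtain ⟨w, hw⟩ := generic (fun b : Bool => if b then u else v₀) (by
    intro b
    cases b
    · exact hv
    · exact hu)
  have hwu : w ⬝ᵥ u ≠ 0 := hw true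
  have hwv : w ⬝ᵥ v₀ ≠ 0 := hw false
  obtain ⟨h, hh⟩ := generic (fun _ : Unit => η) (fun _ => hη)
  have hh' : η ⬝ᵥ h ≠ 0 := by rw [dotProduct_comm]; exact hh ()
  refine ⟨(w ⬝ᵥ u)⁻¹ • w, (η ⬝ᵥ h)⁻¹ • h, (w ⬝ᵥ u) / (w ⬝ᵥ v₀), div_ne_zero hwu hwv, ?_, ?_, ?_⟩
  · rw [smul_dotProduct, smul_eq_mul, inv_mul_cancel₀ hwu]
  · rw [smul_dotProduct, dotProduct_smul, smul_eq_mul, smul_eq_mul]
    field_simp
  · rw [dotProduct_smul, smul_eq_mul, inv_mul_cancel₀ hh']

/-- `y` becomes a nondegenerate solution after an arbitrarily small perturbation of `Γ` -/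
lemma perturb (Γ : Fin (m * k) → Matrix (Fin k) (Fin (m + k)) ℂ) (y : Fin (m * k) → ℂ)
    (h0 : FF Γ y = 0) : ∃ Δ : Fin (m * k) → Matrix (Fin k) (Fin (m + k)) ℂ,
      ∀ᶠ ε : ℂ in 𝓝[≠] 0, ∃ u η, ND (fun i => Γ i + ε • Δ i) y u η := by
  classical
  have hdet : ∀ i, (Γ i * Xinf y).det = 0 := fun i => congrFun h0 i
  choose u hu0 hu using fun i => Matrix.exists_mulVec_eq_zero_iff.2 (hdet i)
  choose η hη0 hη using fun i => Matrix.exists_vecMul_eq_zero_iff.2 (hdet i)
  set v₀ : Fin (m * k) → Fin k → ℂ := fun i => Pi.single (finProdFinEquiv.symm i).2 1 with hv₀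
  set ζ₀ : Fin (m * k) → Fin m → ℂ := fun i => Pi.single (finProdFinEquiv.symm i).1 1 with hζ₀
  have hv0 : ∀ i, v₀ i ≠ 0 := by
    intro i h
    have := congrFun h (finProdFinEquiv.symm i).2
    simp [hv₀] at this
  choose w h c hc hwu hwv hηh using fun i => exists_wh (hu0 i) (hv0 i) (hη0 i)
  set v : Fin (m * k) → Fin k → ℂ := fun i => c i • v₀ i with hv
  set ζ := zt Γ η with hζ
  set K : Fin (m * k) → Matrix (Fin k) (Fin k) ℂ := fun i => Γ i * Xinf y with hK
  -- the perturbation
  set Δ : Fin (m * k) → Matrix (Fin k) (Fin (m + k)) ℂ := fun i => Matrix.of fun r j =>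
    Fin.addCases (fun a : Fin m => h i r * (ζ₀ i a - ζ i a))
      (fun b : Fin k => -((K i).mulVec (v i) r * w i b) -
        ∑ a : Fin m, h i r * (ζ₀ i a - ζ i a) * y (finProdFinEquiv (a, b))) j with hΔ
  have hΔ1 : ∀ i r a, Δ i r (Fin.castAdd k a) = h i r * (ζ₀ i a - ζ i a) := by
    intro i r a; simp [hΔ]
  have hΔ2 : ∀ i r b, Δ i r (Fin.natAdd m b) = -((K i).mulVec (v i) r * w i b) -
        ∑ a : Fin m, h i r * (ζ₀ i a - ζ i a) * y (finProdFinEquiv (a, b)) := by
    intro i r b; simp [hΔ]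
  have hΔX : ∀ i r b, (Δ i * Xinf y) r b = -((K i).mulVec (v i) r * w i b) := by
    intro i r b
    rw [mul_Xinf, hΔ2]
    simp only [hΔ1]
    ring
  have hKε : ∀ (ε : ℂ) i, (Γ i + ε • Δ i) * Xinf y =
      K i - ε • Matrix.vecMulVec ((K i).mulVec (v i)) (w i) := by
    intro ε i
    ext r b
    rw [Matrix.add_mul, Matrix.smul_mul, Matrix.add_apply, Matrix.smul_apply, hΔX,
      Matrix.sub_apply, Matrix.smul_apply, Matrix.vecMulVec_apply, hK]
    simp only [smul_eq_mul]
    ring
  refine ⟨Δ, ?_⟩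
  -- the determinant is a polynomial in `ε`
  set U : ℂ → Fin (m * k) → Fin k → ℂ := fun ε i => (1 - ε) • u i + ε • v i with hU
  have hztε : ∀ ε : ℂ, zt (fun i => Γ i + ε • Δ i) η = fun i => (1 - ε) • ζ i + ε • ζ₀ i := by
    intro ε
    funext i a
    have e1 : zt (fun i => Γ i + ε • Δ i) η i a = ζ i a + ε * ((η i ⬝ᵥ h i) * (ζ₀ i a - ζ i a)) := by
      simp only [zt, hζ, Matrix.add_apply, Matrix.smul_apply, smul_eq_mul, hΔ1, dotProduct,
        Finset.sum_mul, Finset.mul_sum, mul_add, Finset.sum_add_distrib]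
      congr 1
      refine Finset.sum_congr rfl fun r _ => ?_
      ring
    rw [e1, hηh]
    simp only [Pi.add_apply, Pi.smul_apply, smul_eq_mul]
    ring
  obtain ⟨P, hP⟩ : ∃ P : Polynomial ℂ, ∀ ε : ℂ,
      P.eval ε = (Mz (fun i => (1 - ε) • ζ i + ε • ζ₀ i) (U ε)).det := by
    refine ⟨(Matrix.of fun i q =>
      (Polynomial.C (ζ i (finProdFinEquiv.symm q).1) * (1 - Polynomial.X) +
        Polynomial.C (ζ₀ i (finProdFinEquiv.symm q).1) * Polynomial.X) *
      (Polynomial.C (u i (finProdFinEquiv.symm q).2) * (1 - Polynomial.X) +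
        Polynomial.C (v i (finProdFinEquiv.symm q).2) * Polynomial.X) :
        Matrix (Fin (m * k)) (Fin (m * k)) (Polynomial ℂ)).det, fun ε => ?_⟩
    rw [← Polynomial.coe_evalRingHom, RingHom.map_det]
    congr 1
    ext i q
    simp only [RingHom.mapMatrix_apply, Matrix.map_apply, Matrix.of_apply, Mz, hU,
      Polynomial.coe_evalRingHom, Polynomial.eval_mul, Polynomial.eval_add, Polynomial.eval_C,
      Polynomial.eval_sub, Polynomial.eval_one, Polynomial.eval_X, Pi.add_apply, Pi.smul_apply,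
      smul_eq_mul]
    ring
  have hP1 : P.eval 1 ≠ 0 := by
    rw [hP]
    have e1 : (fun i => (1 - (1 : ℂ)) • ζ i + (1 : ℂ) • ζ₀ i) = ζ₀ := by
      funext i; simp
    have e2 : U 1 = fun i => c i • v₀ i := by
      funext i; simp [hU, hv]
    rw [e1, e2, ← phi_apply, MultilinearMap.map_smul_univ, phi_apply]
    have e3 : Mz ζ₀ v₀ = 1 := by
      ext i q
      simp only [Mz, Matrix.of_apply, hζ₀, hv₀, Pi.single_apply, Matrix.one_apply]
      by_cases hiq : i = q
      · subst hiq; simp
      · rw [if_neg hiq]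
        by_cases h1 : (finProdFinEquiv.symm q).1 = (finProdFinEquiv.symm i).1
        · by_cases h2 : (finProdFinEquiv.symm q).2 = (finProdFinEquiv.symm i).2
          · exact absurd (finProdFinEquiv.symm.injective (Prod.ext h1 h2)).symm hiq
          · rw [if_neg h2, mul_zero]
        · rw [if_neg h1, zero_mul]
    rw [e3, Matrix.det_one, smul_eq_mul, mul_one]
    exact Finset.prod_ne_zero_iff.2 fun i _ => hc i
  have hPne : P ≠ 0 := by
    rintro rfl
    exact hP1 Polynomial.eval_zero
  have hfin : {ε : ℂ | P.eval ε = 0}.Finite := by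
    refine (P.roots.toFinset.finite_toSet).subset fun ε hε => ?_
    simp only [Finset.mem_coe, Multiset.mem_toFinset]
    exact (Polynomial.mem_roots hPne).2 hε
  have hev : ∀ᶠ ε : ℂ in 𝓝[≠] 0, P.eval ε ≠ 0 := by
    have h1 : ({ε : ℂ | P.eval ε = 0} \ {0})ᶜ ∈ 𝓝 (0 : ℂ) :=
      (hfin.subset Set.diff_subset).isClosed.isOpen_compl.mem_nhds (by simp)
    filter_upwards [mem_nhdsWithin_of_mem_nhds h1, self_mem_nhdsWithin] with ε h2 h3 h4
    exact h2 ⟨h4, h3⟩
  filter_upwards [hev] with ε hε
  refine ⟨U ε, η, ?_, ?_, ?_⟩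
  · intro i
    rw [hKε, Matrix.sub_mulVec, Matrix.smul_mulVec, Matrix.vecMulVec_mulVec]
    have e1 : w i ⬝ᵥ U ε i = 1 := by
      rw [hU]
      simp only [dotProduct_add, dotProduct_smul, hwu, smul_eq_mul]
      have := hwv i
      rw [hv]
      simp only [this]
      ring
    have e2 : (K i).mulVec (U ε i) = ε • (K i).mulVec (v i) := by
      rw [hU]
      simp only [Matrix.mulVec_add, Matrix.mulVec_smul]
      rw [hK]
      simp only [hu, smul_zero, zero_add]
    rw [e1, e2]
    simp
  · intro i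
    rw [hKε, Matrix.vecMul_sub, Matrix.vecMul_smul, Matrix.vecMul_vecMulVec]
    have e1 : η i ⬝ᵥ (K i).mulVec (v i) = 0 := by
      rw [Matrix.dotProduct_mulVec, hK]
      simp only [hη, zero_dotProduct]
    rw [e1, zero_smul, smul_zero, sub_zero]
    exact hη i
  · rw [hztε]
    rw [← hP]
    exact hε

/-- a simple zero persists along the line `Γ + ε Δ` -/
lemma persist_line (Γ Δ : Fin (m * k) → Matrix (Fin k) (Fin (m + k)) ℂ) (x : Fin (m * k) → ℂ)
    (h0 : FF Γ x = 0) (hJ : JJ Γ x ≠ 0) {δ : ℝ} (hδ : 0 < δ) :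
    ∀ᶠ ε : ℂ in 𝓝[≠] 0, ∃ x' ∈ Metric.ball x δ,
      FF (fun i => Γ i + ε • Δ i) x' = 0 ∧ JJ (fun i => Γ i + ε • Δ i) x' ≠ 0 := by
  have h1 : ∀ᶠ p in 𝓝 Γ ×ˢ 𝓝 x, JJ p.1 p.2 ≠ 0 := by
    rw [← nhds_prod_eq]
    exact (continuous_JJ (𝕜 := ℂ)).continuousAt.eventually_ne hJ
  rw [Filter.eventually_prod_iff] at h1
  obtain ⟨A, hA, B, hB, hAB⟩ := h1
  have h2 := persist_simple (𝕜 := ℂ) Γ x h0 hJ (U := {x' | B x'} ∩ Metric.ball x δ)
    (Filter.inter_mem hB (Metric.ball_mem_nhds x hδ))
  have h3 : Tendsto (fun ε : ℂ => (fun i => Γ i + ε • Δ i)) (𝓝[≠] 0) (𝓝 Γ) := by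
    have : Continuous (fun ε : ℂ => (fun i => Γ i + ε • Δ i :
        Fin (m * k) → Matrix (Fin k) (Fin (m + k)) ℂ)) := by
      refine continuous_pi fun i => ?_
      exact continuous_const.add (continuous_id.smul continuous_const)
    have h4 := this.tendsto 0
    simp only [zero_smul, add_zero] at h4
    exact h4.mono_left nhdsWithin_le_nhds
  filter_upwards [h3.eventually h2, h3.eventually hA] with ε h5 h6
  obtain ⟨x', hx'B, hx'0⟩ := h5
  have h7 := @hAB _ h6 x' hx'B.1
  exact ⟨x', hx'B.2, hx'0, h7⟩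

end Count

open Count in
theorem trick : S_Trick := by
  classical
  intro m k Γ Sol hSol hcard y hy
  by_contra hyS
  obtain ⟨Δ, hΔ⟩ := perturb Γ y hy
  -- the radius
  obtain ⟨δ, hδ, hδ1⟩ : ∃ δ > 0, ∀ x ∈ insert y Sol, ∀ x' ∈ insert y Sol, x ≠ x' →
      2 * δ ≤ dist x x' := by
    have hfin : (((insert y Sol) ×ˢ (insert y Sol)).filter (fun p => p.1 ≠ p.2)).Nonempty ∨
        ¬ (((insert y Sol) ×ˢ (insert y Sol)).filter (fun p => p.1 ≠ p.2)).Nonempty := em _
    rcases hfin with hne | hne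
    · obtain ⟨p, hp, hmin⟩ := Finset.exists_min_image _ (fun p => dist p.1 p.2) hne
      rw [Finset.mem_filter] at hp
      refine ⟨dist p.1 p.2 / 2, by have := dist_pos.2 hp.2; linarith, ?_⟩
      intro x hx x' hx' hxx
      have := hmin (x, x') (Finset.mem_filter.2 ⟨Finset.mem_product.2 ⟨hx, hx'⟩, hxx⟩)
      simp only at this
      linarith
    · refine ⟨1, one_pos, ?_⟩
      intro x hx x' hx' hxx
      exact absurd ⟨(x, x'), Finset.mem_filter.2 ⟨Finset.mem_product.2 ⟨hx, hx'⟩, hxx⟩⟩ hne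
  have hper : ∀ x ∈ Sol, ∀ᶠ ε : ℂ in 𝓝[≠] 0, ∃ x' ∈ Metric.ball x δ,
      FF (fun i => Γ i + ε • Δ i) x' = 0 ∧ JJ (fun i => Γ i + ε • Δ i) x' ≠ 0 :=
    fun x hx => persist_line Γ Δ x (hSol x hx).1 (hSol x hx).2 hδ
  have hall : ∀ᶠ ε : ℂ in 𝓝[≠] 0, ∀ x ∈ Sol, ∃ x' ∈ Metric.ball x δ,
      FF (fun i => Γ i + ε • Δ i) x' = 0 ∧ JJ (fun i => Γ i + ε • Δ i) x' ≠ 0 :=
    (Filter.eventually_all_finset Sol).2 hper
  obtain ⟨ε, hε1, hε2⟩ := (hΔ.and hall).exists
  choose! g hg1 hg2 hg3 using hε2
  have hinj : Set.InjOn g Sol := by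
    intro x hx x' hx' hgg
    by_contra hne
    have h1 := hδ1 x (Finset.mem_insert_of_mem hx) x' (Finset.mem_insert_of_mem hx') hne
    have h2 := hg1 x hx
    have h3 := hg1 x' hx'
    rw [Metric.mem_ball] at h2 h3
    have h4 := dist_triangle_left x x' (g x)
    rw [hgg] at h4 h2
    linarith
  have hy' : y ∉ Sol.image g := by
    intro h
    obtain ⟨x, hx, hxy⟩ := Finset.mem_image.1 h
    have hne : y ≠ x := fun h => hyS (h ▸ hx)
    have h1 := hδ1 y (Finset.mem_insert_self _ _) x (Finset.mem_insert_of_mem hx) hne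
    have h2 := hg1 x hx
    rw [Metric.mem_ball, hxy] at h2
    linarith
  have hcount := count (fun i => Γ i + ε • Δ i) (insert y (Sol.image g)) (by
    intro x hx
    rcases Finset.mem_insert.1 hx with rfl | hx
    · exact hε1
    · obtain ⟨x0, hx0, rfl⟩ := Finset.mem_image.1 hx
      exact nd_of_simple _ _ (hg2 x0 hx0) (hg3 x0 hx0))
  rw [Finset.card_insert_of_notMem hy', Finset.card_image_of_injOn hinj, hcard] at hcount
  omega

end Pool.Agent.GC18
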