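import Mathlib

/-!
# Grassmann convexity (MP_5fea31_an): common definitions   (architect: helper18)

Informal proof: team store, `MP_5fea31_proof.md`.
All indices are 0-based.  `n` = dimension of the space, `p`/`k` = number of rows/columns.
-/

set_option autoImplicit false

namespace Pool.Agent.GC18

open Matrix Filter Topology

/-- the constant weights `1` (rational normal curve) -/
def one1 : ℕ → ℝ → ℝ := fun _ _ => 1

/-- weights on the path: `ω^s_i = 1 + s (w_i − 1)` -/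
def om (w : ℕ → ℝ → ℝ) (s : ℝ) : ℕ → ℝ → ℝ := fun i t => 1 + s * (w i t - 1)

/-- admissible weights -/
structure Wt (v : ℕ → ℝ → ℝ) (T : ℝ) : Prop where
  T_pos : 0 < T
  smooth : ∀ i, ContDiff ℝ (⊤ : ℕ∞) (v i)
  pos : ∀ i t, 0 < v i t
  one : ∀ i t, T ≤ |t| → v i t = 1

/-- `gd v d i t` is the entry `(i, i+d)` of the fundamental matrix:
`g_{i,i} = 1`, `g_{i,i+d+1}(t) = ∫_0^t v_i g_{i+1,i+1+d}` -/
noncomputable def gd (v : ℕ → ℝ → ℝ) : ℕ → ℕ → ℝ → ℝ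
  | 0, _ => fun _ => 1
  | d + 1, i => fun t => ∫ u in (0 : ℝ)..t, v i u * gd v d (i + 1) u

/-- entry `(i,j)` of the fundamental matrix (upper unitriangular) -/
noncomputable def ge (v : ℕ → ℝ → ℝ) (i j : ℕ) (t : ℝ) : ℝ := if i ≤ j then gd v (j - i) i t else 0

/-- the top `p` rows of the `n × n` fundamental matrix at time `t` -/
noncomputable def Gam (v : ℕ → ℝ → ℝ) (p n : ℕ) (t : ℝ) : Matrix (Fin p) (Fin n) ℝ :=
  Matrix.of fun i j => ge v i j t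

/-- a real matrix as a complex matrix -/
def toC {a b : Type*} (M : Matrix a b ℝ) : Matrix a b ℂ := M.map (fun x : ℝ => (x : ℂ))

/-- `D(t;X)` = det(top `p` rows of the fundamental matrix times `X`), real `X` -/
noncomputable def DR (v : ℕ → ℝ → ℝ) {n p : ℕ} (X : Matrix (Fin n) (Fin p) ℝ) (t : ℝ) : ℝ :=
  (Gam v p n t * X).det

/-- `D(t;X)` for complex `X` -/
noncomputable def DC (v : ℕ → ℝ → ℝ) {n p : ℕ} (X : Matrix (Fin n) (Fin p) ℂ) (t : ℝ) : ℂ :=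
  (toC (Gam v p n t) * X).det

/-- `X` has full rank `p`: some maximal minor is nonzero -/
def Full {𝕜 : Type*} [Field 𝕜] {n p : ℕ} (X : Matrix (Fin n) (Fin p) 𝕜) : Prop :=
  ∃ I : Fin p → Fin n, (X.submatrix I id).det ≠ 0

/-- `z_∞(X) ≥ r`: all maximal minors of grade `> p(n-p) - r` vanish -/
def VanInf {𝕜 : Type*} [Field 𝕜] {n p : ℕ} (r : ℕ) (X : Matrix (Fin n) (Fin p) 𝕜) : Prop :=
  ∀ I : Fin p → Fin n, (∑ i : Fin p, (n - p + (i : ℕ))) < (∑ i, (I i : ℕ)) + r →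
    (X.submatrix I id).det = 0

/-- `f` vanishes at `t` to order `≥ q` -/
def VanAt {F : Type*} [NormedAddCommGroup F] [NormedSpace ℝ F] (f : ℝ → F) (q : ℕ) (t : ℝ) : Prop :=
  ∀ j < q, iteratedDeriv j f t = 0

/-- THE BOUND `G(s)`: for every complex `k`-plane the zeros of `D` on `ℝ ∪ {∞}` number at most `k m` -/
def GProp (v : ℕ → ℝ → ℝ) (m k : ℕ) : Prop :=
  ∀ X : Matrix (Fin (m + k)) (Fin k) ℂ, Full X → ∀ r : ℕ, VanInf r X →
    ∀ (Z : Finset ℝ) (μ : ℝ → ℕ), (∀ t ∈ Z, VanAt (DC v X) (μ t) t) → ∑ t ∈ Z, μ t + r ≤ m * k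

/-- the chart at infinity: `X(x) = [x ; 1_k]` -/
def Xinf {𝕜 : Type*} [Zero 𝕜] [One 𝕜] {m k : ℕ} (x : Fin (m * k) → 𝕜) :
    Matrix (Fin (m + k)) (Fin k) 𝕜 :=
  Matrix.of fun i c => Fin.addCases (fun a : Fin m => x (finProdFinEquiv (a, c)))
    (fun b : Fin k => if b = c then 1 else 0) i

/-- the system of `N = m k` conditions -/
def FF {𝕜 : Type*} [Field 𝕜] {m k : ℕ} (Γ : Fin (m * k) → Matrix (Fin k) (Fin (m + k)) 𝕜)
    (x : Fin (m * k) → 𝕜) : Fin (m * k) → 𝕜 := fun i => (Γ i * Xinf x).det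

/-- its Jacobian matrix: `∂/∂x_{(a,b)} det (Γ_i X(x))` = det of `Γ_i X(x)` with column `b` replaced by
the column `a` of `Γ_i` -/
def JM {𝕜 : Type*} [Field 𝕜] {m k : ℕ} (Γ : Fin (m * k) → Matrix (Fin k) (Fin (m + k)) 𝕜)
    (x : Fin (m * k) → 𝕜) : Matrix (Fin (m * k)) (Fin (m * k)) 𝕜 :=
  Matrix.of fun i q => ((Γ i * Xinf x).updateCol (finProdFinEquiv.symm q).2
    (fun a => Γ i a (Fin.castAdd k (finProdFinEquiv.symm q).1))).det

/-- the Jacobian determinant -/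
def JJ {𝕜 : Type*} [Field 𝕜] {m k : ℕ} (Γ : Fin (m * k) → Matrix (Fin k) (Fin (m + k)) 𝕜)
    (x : Fin (m * k) → 𝕜) : 𝕜 := (JM Γ x).det

/-- the number `f(λ)` (`p = |λ|`), partitions are weakly INCREASING functions on `Fin k`;
removing one box from row `i` -/
def ff (k : ℕ) : ℕ → (Fin k → ℕ) → ℕ
  | 0, l => if ∀ i, l i = 0 then 1 else 0
  | p + 1, l => if Monotone l then ∑ i, (if 0 < l i then ff k p (Function.update l i (l i - 1)) else 0) else 0

/-- the number `d` of solutions (standard tableaux of the `k × m` rectangle) -/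
def dd (m k : ℕ) : ℕ := ff k (m * k) (fun _ => m)

/-- the configuration of real times `t` as a system -/
noncomputable def Gt (v : ℕ → ℝ → ℝ) (m k : ℕ) (t : Fin (m * k) → ℝ) :
    Fin (m * k) → Matrix (Fin k) (Fin (m + k)) ℝ := fun i => Gam v k (m + k) (t i)

/-! ### flags -/

/-- the first `j` vectors of a sequence, as the columns of a matrix -/
def Ym {n : ℕ} (Y : ℕ → Fin n → ℝ) (j : ℕ) : Matrix (Fin n) (Fin j) ℝ := Matrix.of fun i b => Y b i

/-- zero set of `W_j` -/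
def Zs (v : ℕ → ℝ → ℝ) {n : ℕ} (Y : ℕ → Fin n → ℝ) (j : ℕ) : Set ℝ := {t | DR v (Ym Y j) t = 0}

/-- `inv(p,q) = ⌊#Z(p)/2⌋ + #{(x,y) ∈ Z(p) × Z(q) : y < x}` -/
noncomputable def inv (A B : Set ℝ) : ℕ := A.ncard / 2 + {p : ℝ × ℝ | p.1 ∈ A ∧ p.2 ∈ B ∧ p.2 < p.1}.ncard

/-- the sign of a flag of length `k` -/
noncomputable def epsF (v : ℕ → ℝ → ℝ) {n : ℕ} (k : ℕ) (Y : ℕ → Fin n → ℝ) : ℤ :=
  (-1) ^ (∑ j ∈ Finset.Ioo 0 k, inv (Zs v Y j) (Zs v Y (j + 1)))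

/-- good flags (generic at infinity) -/
structure Good (v : ℕ → ℝ → ℝ) {n : ℕ} (k : ℕ) (Y : ℕ → Fin n → ℝ) : Prop where
  /-- generic at infinity: the last `j` coordinates of `Y_0..Y_{j-1}` are independent -/
  top : ∀ j, j ≤ k → ¬ VanInf 1 (Ym Y j)
  nocommon : ∀ j, 0 < j → j < k → ∀ t, ¬ (DR v (Ym Y j) t = 0 ∧ DR v (Ym Y (j + 1)) t = 0)
  simple : ∀ t, DR v (Ym Y k) t = 0 → deriv (DR v (Ym Y k)) t ≠ 0

/-- the columns of a matrix as a sequence of vectors (0 after the last one) -/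
def colsN {n k : ℕ} (X : Matrix (Fin n) (Fin k) ℝ) : ℕ → Fin n → ℝ :=
  fun b i => if h : b < k then X i ⟨b, h⟩ else 0

end Pool.Agent.GC18
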