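import Pool.Agent.GC18.Basics

/-!
# Grassmann convexity (MP_5fea31_an): derivative of `DR`, kernel vectors, change of basis  (helper3)
(namespace `Pool.Agent.GC18.KV`)
-/

set_option autoImplicit false

namespace Pool.Agent.GC18.KV

open Matrix Filter Topology Set

/-! ## derivative of a determinant -/

lemma prod_updateRow {𝔸 : Type*} [CommRing 𝔸] {p : ℕ} (M : Matrix (Fin p) (Fin p) 𝔸) (i : Fin p)
    (b : Fin p → 𝔸) (σ : Equiv.Perm (Fin p)) :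
    ∏ j, (M.updateRow i b) j (σ j) = (∏ j ∈ Finset.univ.erase i, M j (σ j)) * b (σ i) := by
  rw [← Finset.mul_prod_erase _ _ (Finset.mem_univ i), Matrix.updateRow_self, mul_comm]
  congr 1
  refine Finset.prod_congr rfl fun j hj => ?_
  rw [Matrix.updateRow_ne (Finset.ne_of_mem_erase hj)]

theorem hasDerivAt_det {𝔸 : Type*} [NormedCommRing 𝔸] [NormedAlgebra ℝ 𝔸] {p : ℕ}
    {A : ℝ → Matrix (Fin p) (Fin p) 𝔸} {A' : Matrix (Fin p) (Fin p) 𝔸} {t : ℝ}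
    (h : ∀ i j, HasDerivAt (fun t => A t i j) (A' i j) t) :
    HasDerivAt (fun t => (A t).det) (∑ i, ((A t).updateRow i (A' i)).det) t := by
  have e : ∀ M : Matrix (Fin p) (Fin p) 𝔸,
      M.det = ∑ σ : Equiv.Perm (Fin p), (Equiv.Perm.sign σ : ℤ) • ∏ j, M j (σ j) := by
    intro M
    rw [← Matrix.det_transpose, Matrix.det_apply]
    rfl
  have h1 : ∀ σ : Equiv.Perm (Fin p), HasDerivAt (fun t => ∏ j, A t j (σ j))
      (∑ i, (∏ j ∈ Finset.univ.erase i, A t j (σ j)) • A' i (σ i)) t := by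
    intro σ
    exact HasDerivAt.fun_finsetProd (u := Finset.univ) (fun i _ => h i (σ i))
  have h2 : HasDerivAt (fun t => ∑ σ : Equiv.Perm (Fin p), (Equiv.Perm.sign σ : ℤ) • ∏ j, A t j (σ j))
      (∑ σ : Equiv.Perm (Fin p), (Equiv.Perm.sign σ : ℤ) •
        ∑ i, (∏ j ∈ Finset.univ.erase i, A t j (σ j)) • A' i (σ i)) t := by
    apply HasDerivAt.fun_sum
    intro σ _
    simp only [← Int.cast_smul_eq_zsmul ℝ]
    exact (h1 σ).const_smul _
  have e2 : ∑ i, ((A t).updateRow i (A' i)).det = ∑ σ : Equiv.Perm (Fin p), (Equiv.Perm.sign σ : ℤ) •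
        ∑ i, (∏ j ∈ Finset.univ.erase i, A t j (σ j)) • A' i (σ i) := by
    simp only [e, prod_updateRow, Finset.smul_sum, smul_eq_mul]
    rw [Finset.sum_comm]
  rw [e2]
  simp only [e]
  exact h2

/-! ## rows of the fundamental matrix -/

/-- row `i` of the fundamental matrix -/
noncomputable def gr (v : ℕ → ℝ → ℝ) (n i : ℕ) (t : ℝ) : Fin n → ℝ := fun l => ge v i l t

lemma Gam_mul_apply (v : ℕ → ℝ → ℝ) {n p q : ℕ} (X : Matrix (Fin n) (Fin q) ℝ) (t : ℝ) (i : Fin p)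
    (b : Fin q) : (Gam v p n t * X) i b = gr v n i t ⬝ᵥ (fun l => X l b) := rfl

lemma Gam_mulVec_apply (v : ℕ → ℝ → ℝ) {n p : ℕ} (u : Fin n → ℝ) (t : ℝ) (i : Fin p) :
    (Gam v p n t *ᵥ u) i = gr v n i t ⬝ᵥ u := rfl

lemma gr_of_le (v : ℕ → ℝ → ℝ) {n i : ℕ} (h : n ≤ i) (t : ℝ) : gr v n i t = 0 := by
  funext l
  exact ge_of_lt v (lt_of_lt_of_le l.2 h) t

lemma hasDerivAt_gr_dot {v : ℕ → ℝ → ℝ} {T : ℝ} (hv : Wt v T) {n : ℕ} (i : ℕ) (u : Fin n → ℝ)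
    (t : ℝ) : HasDerivAt (fun t => gr v n i t ⬝ᵥ u) (v i t * (gr v n (i + 1) t ⬝ᵥ u)) t := by
  have h : HasDerivAt (fun t => ∑ l : Fin n, ge v i l t * u l)
      (∑ l : Fin n, v i t * ge v (i + 1) l t * u l) t := by
    apply HasDerivAt.fun_sum
    intro l _
    exact (hasDerivAt_ge hv i l t).mul_const (u l)
  have e : v i t * (gr v n (i + 1) t ⬝ᵥ u) = ∑ l : Fin n, v i t * ge v (i + 1) l t * u l := by
    simp only [dotProduct, gr, Finset.mul_sum, mul_assoc]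
  rw [e]
  exact h

/-- the bordered matrix: rows `0..p-1` of the fundamental matrix and `x`, times `X` -/
noncomputable def BM (v : ℕ → ℝ → ℝ) {n p : ℕ} (X : Matrix (Fin n) (Fin (p + 1)) ℝ) (x : Fin n → ℝ)
    (t : ℝ) : Matrix (Fin (p + 1)) (Fin (p + 1)) ℝ :=
  (Gam v (p + 1) n t * X).updateRow (Fin.last p) (fun b => x ⬝ᵥ (fun l => X l b))

lemma BM_self (v : ℕ → ℝ → ℝ) {n p : ℕ} (X : Matrix (Fin n) (Fin (p + 1)) ℝ) (t : ℝ) :
    BM v X (gr v n p t) t = Gam v (p + 1) n t * X := by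
  ext i b
  unfold BM
  by_cases h : i = Fin.last p
  · subst h; rw [Matrix.updateRow_self]; rfl
  · rw [Matrix.updateRow_ne h]

/-- `W_{p+1}' = v_p · det(rows 0..p-1, p+1)` -/
theorem hasDerivAt_DR {v : ℕ → ℝ → ℝ} {T : ℝ} (hv : Wt v T) {n p : ℕ}
    (X : Matrix (Fin n) (Fin (p + 1)) ℝ) (t : ℝ) :
    HasDerivAt (DR v X) (v p t * (BM v X (gr v n (p + 1) t) t).det) t := by
  have h := hasDerivAt_det (A := fun t => Gam v (p + 1) n t * X)
    (A' := Matrix.of fun i b => v i t * (gr v n ((i : ℕ) + 1) t ⬝ᵥ (fun l => X l b))) (t := t)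
    (fun i b => hasDerivAt_gr_dot hv i _ t)
  have e : ∑ i, ((Gam v (p + 1) n t * X).updateRow i
      ((Matrix.of fun i b => v i t * (gr v n ((i : ℕ) + 1) t ⬝ᵥ (fun l => X l b)) :
        Matrix (Fin (p + 1)) (Fin (p + 1)) ℝ) i)).det = v p t * (BM v X (gr v n (p + 1) t) t).det := by
    rw [Finset.sum_eq_single (Fin.last p)]
    · unfold BM
      rw [← Matrix.det_updateRow_smul]
      rfl
    · intro i _ hi
      have hlt : (i : ℕ) + 1 < p + 1 := by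
        have : (i : ℕ) < p := Fin.val_lt_last hi
        omega
      have e1 : ((Matrix.of fun i b => v i t * (gr v n ((i : ℕ) + 1) t ⬝ᵥ (fun l => X l b)) :
          Matrix (Fin (p + 1)) (Fin (p + 1)) ℝ) i) =
          v i t • (fun b => (Gam v (p + 1) n t * X) ⟨(i : ℕ) + 1, hlt⟩ b) := by
        funext b; rfl
      rw [e1, Matrix.det_updateRow_smul]
      have hne : (⟨(i : ℕ) + 1, hlt⟩ : Fin (p + 1)) ≠ i := by
        intro h; have := congrArg Fin.val h; simp at this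
      rw [Matrix.det_zero_of_row_eq (i := i) (j := ⟨(i : ℕ) + 1, hlt⟩) hne.symm, mul_zero]
      funext b
      rw [Matrix.updateRow_self, Matrix.updateRow_ne hne]
    · simp
  rw [e] at h
  exact h

theorem deriv_DR {v : ℕ → ℝ → ℝ} {T : ℝ} (hv : Wt v T) {n p : ℕ}
    (X : Matrix (Fin n) (Fin (p + 1)) ℝ) (t : ℝ) :
    deriv (DR v X) t = v p t * (BM v X (gr v n (p + 1) t) t).det := (hasDerivAt_DR hv X t).deriv

lemma DR_zero (v : ℕ → ℝ → ℝ) {n : ℕ} (X : Matrix (Fin n) (Fin 0) ℝ) (t : ℝ) : DR v X t = 1 := by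
  simp [DR]

/-! ## kernel vectors -/

lemma mulVec_Ym {n : ℕ} (Y : ℕ → Fin n → ℝ) (j : ℕ) (c : Fin j → ℝ) :
    Ym Y j *ᵥ c = ∑ b : Fin j, c b • Y b := by
  funext i
  simp only [Matrix.mulVec, dotProduct, Ym, Matrix.of_apply, Finset.sum_apply, Pi.smul_apply, smul_eq_mul]
  exact Finset.sum_congr rfl fun b _ => mul_comm _ _

/-- the span of the first `j` vectors -/
noncomputable def Vs {n : ℕ} (Y : ℕ → Fin n → ℝ) (j : ℕ) : Submodule ℝ (Fin n → ℝ) :=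
  Submodule.span ℝ (Y '' Iio j)

lemma image_Iio_eq_range {n : ℕ} (Y : ℕ → Fin n → ℝ) (j : ℕ) :
    Y '' Iio j = range (fun b : Fin j => Y b) := by
  ext u
  constructor
  · rintro ⟨b, hb, rfl⟩; exact ⟨⟨b, hb⟩, rfl⟩
  · rintro ⟨b, rfl⟩; exact ⟨b, b.2, rfl⟩

lemma mem_Vs_iff {n : ℕ} {Y : ℕ → Fin n → ℝ} {j : ℕ} {u : Fin n → ℝ} :
    u ∈ Vs Y j ↔ ∃ c : Fin j → ℝ, Ym Y j *ᵥ c = u := by
  unfold Vs
  rw [image_Iio_eq_range, Submodule.mem_span_range_iff_exists_fun]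
  simp only [mulVec_Ym]

/-- independence of the first `j` vectors -/
def Ind {n : ℕ} (Y : ℕ → Fin n → ℝ) (j : ℕ) : Prop := LinearIndependent ℝ (fun b : Fin j => Y b)

lemma ind_iff {n : ℕ} {Y : ℕ → Fin n → ℝ} {j : ℕ} :
    Ind Y j ↔ ∀ c : Fin j → ℝ, Ym Y j *ᵥ c = 0 → c = 0 := by
  unfold Ind
  rw [Fintype.linearIndependent_iff]
  simp only [mulVec_Ym]
  constructor
  · intro h c hc; funext i; exact h c hc i
  · intro h c hc i; rw [h c hc]; rfl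

lemma Ind.finrank {n : ℕ} {Y : ℕ → Fin n → ℝ} {j : ℕ} (h : Ind Y j) :
    Module.finrank ℝ (Vs Y j) = j := by
  unfold Vs
  rw [image_Iio_eq_range]
  have := finrank_span_eq_card (R := ℝ) h
  simpa using this

lemma ind_of_finrank {n : ℕ} {Y : ℕ → Fin n → ℝ} {j : ℕ} (h : Module.finrank ℝ (Vs Y j) = j) :
    Ind Y j := by
  unfold Ind
  rw [linearIndependent_iff_card_eq_finrank_span, Fintype.card_fin]
  unfold Vs at h
  rw [image_Iio_eq_range] at h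
  exact h.symm

lemma ind_iff_finrank {n : ℕ} {Y : ℕ → Fin n → ℝ} {j : ℕ} :
    Ind Y j ↔ Module.finrank ℝ (Vs Y j) = j := ⟨Ind.finrank, ind_of_finrank⟩

/-- `DR = 0` iff some nonzero vector of the span is killed by the first `j` rows -/
lemma DR_eq_zero_iff (v : ℕ → ℝ → ℝ) {n : ℕ} {Y : ℕ → Fin n → ℝ} {j : ℕ} (hI : Ind Y j) (t : ℝ) :
    DR v (Ym Y j) t = 0 ↔ ∃ u ∈ Vs Y j, u ≠ 0 ∧ ∀ i < j, gr v n i t ⬝ᵥ u = 0 := by
  unfold DR
  rw [← Matrix.exists_mulVec_eq_zero_iff]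
  constructor
  · rintro ⟨c, hc, h⟩
    refine ⟨Ym Y j *ᵥ c, mem_Vs_iff.2 ⟨c, rfl⟩, fun h0 => hc (ind_iff.1 hI c h0), fun i hi => ?_⟩
    rw [← Matrix.mulVec_mulVec] at h
    exact congrFun h ⟨i, hi⟩
  · rintro ⟨u, hu, hu0, h⟩
    obtain ⟨c, rfl⟩ := mem_Vs_iff.1 hu
    refine ⟨c, fun h0 => hu0 (by rw [h0, Matrix.mulVec_zero]), ?_⟩
    rw [← Matrix.mulVec_mulVec]
    funext i
    exact h i i.2

lemma BM_mulVec (v : ℕ → ℝ → ℝ) {n p : ℕ} (X : Matrix (Fin n) (Fin (p + 1)) ℝ) (x : Fin n → ℝ)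
    (t : ℝ) (c : Fin (p + 1) → ℝ) (i : Fin (p + 1)) :
    (BM v X x t *ᵥ c) i = if (i : ℕ) < p then gr v n i t ⬝ᵥ (X *ᵥ c) else x ⬝ᵥ (X *ᵥ c) := by
  by_cases h : i = Fin.last p
  · subst h
    simp only [Fin.val_last, lt_irrefl, if_false]
    have e : (BM v X x t *ᵥ c) (Fin.last p) = (fun b => x ⬝ᵥ (fun l => X l b)) ⬝ᵥ c := by
      unfold BM
      show (((Gam v (p + 1) n t * X).updateRow (Fin.last p) _) (Fin.last p)) ⬝ᵥ c = _
      rw [Matrix.updateRow_self]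
    rw [e, Matrix.dotProduct_mulVec]
    rfl
  · have hlt : (i : ℕ) < p := Fin.val_lt_last h
    rw [if_pos hlt]
    have e : (BM v X x t *ᵥ c) i = ((Gam v (p + 1) n t * X) *ᵥ c) i := by
      unfold BM
      show (((Gam v (p + 1) n t * X).updateRow (Fin.last p) _) i) ⬝ᵥ c = _
      rw [Matrix.updateRow_ne h]
      rfl
    rw [e, ← Matrix.mulVec_mulVec]
    rfl

/-- the bordered determinant vanishes iff some nonzero vector of the span is killed by the rows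
`0..p-1` and by `x` -/
lemma BM_det_eq_zero_iff (v : ℕ → ℝ → ℝ) {n : ℕ} {Y : ℕ → Fin n → ℝ} {p : ℕ} (hI : Ind Y (p + 1))
    (x : Fin n → ℝ) (t : ℝ) :
    (BM v (Ym Y (p + 1)) x t).det = 0 ↔
      ∃ u ∈ Vs Y (p + 1), u ≠ 0 ∧ (∀ i < p, gr v n i t ⬝ᵥ u = 0) ∧ x ⬝ᵥ u = 0 := by
  rw [← Matrix.exists_mulVec_eq_zero_iff]
  constructor
  · rintro ⟨c, hc, h⟩
    refine ⟨Ym Y (p + 1) *ᵥ c, mem_Vs_iff.2 ⟨c, rfl⟩, fun h0 => hc (ind_iff.1 hI c h0),
      fun i hi => ?_, ?_⟩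
    · have := congrFun h ⟨i, by omega⟩
      rw [BM_mulVec] at this
      simpa [hi] using this
    · have := congrFun h (Fin.last p)
      rw [BM_mulVec] at this
      simpa using this
  · rintro ⟨u, hu, hu0, h, hx⟩
    obtain ⟨c, rfl⟩ := mem_Vs_iff.1 hu
    refine ⟨c, fun h0 => hu0 (by rw [h0, Matrix.mulVec_zero]), ?_⟩
    funext i
    rw [BM_mulVec]
    split_ifs with hi
    · exact h i hi
    · exact hx

/-- `W_j' = 0` in terms of kernel vectors -/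
lemma deriv_DR_eq_zero_iff {v : ℕ → ℝ → ℝ} {T : ℝ} (hv : Wt v T) {n : ℕ} {Y : ℕ → Fin n → ℝ} {p : ℕ}
    (hI : Ind Y (p + 1)) (t : ℝ) :
    deriv (DR v (Ym Y (p + 1))) t = 0 ↔
      ∃ u ∈ Vs Y (p + 1), u ≠ 0 ∧ (∀ i < p, gr v n i t ⬝ᵥ u = 0) ∧ gr v n (p + 1) t ⬝ᵥ u = 0 := by
  rw [deriv_DR hv, ← BM_det_eq_zero_iff v hI, mul_eq_zero, or_iff_right (hv.pos p t).ne']

/-! ## genericity at infinity -/

/-- combinatorics: the last rows have the largest index sum -/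
lemma le_of_sum_le {n k : ℕ} (hk : k ≤ n) (I : Fin k → Fin n) (hI : Function.Injective I)
    (h : (∑ i : Fin k, (n - k + (i : ℕ))) ≤ ∑ i, (I i : ℕ)) (i : Fin k) : n - k ≤ (I i : ℕ) := by
  classical
  by_contra hlt
  push Not at hlt
  set S : Finset ℕ := Finset.univ.image fun i => (I i : ℕ) with hS
  set R : Finset ℕ := Finset.univ.image fun i : Fin k => n - k + (i : ℕ) with hR
  have hIn : Function.Injective fun i => (I i : ℕ) := fun a b hab => hI (Fin.ext hab)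
  have hRn : Function.Injective fun i : Fin k => n - k + (i : ℕ) := fun a b hab => Fin.ext (by
    simp only at hab; omega)
  have sS : ∑ x ∈ S, x = ∑ i, (I i : ℕ) := Finset.sum_image fun a _ b _ hab => hIn hab
  have sR : ∑ x ∈ R, x = ∑ i : Fin k, (n - k + (i : ℕ)) := Finset.sum_image fun a _ b _ hab => hRn hab
  have cS : S.card = k := by rw [hS, Finset.card_image_of_injective _ hIn]; simp
  have cR : R.card = k := by rw [hR, Finset.card_image_of_injective _ hRn]; simp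
  have hRge : ∀ x ∈ R, n - k ≤ x := by
    intro x hx
    obtain ⟨i, -, rfl⟩ := Finset.mem_image.1 hx
    exact Nat.le_add_right _ _
  have hmemR : ∀ x, n - k ≤ x → x < n → x ∈ R := by
    intro x h1 h2
    refine Finset.mem_image.2 ⟨⟨x - (n - k), by omega⟩, Finset.mem_univ _, ?_⟩
    simp only; omega
  have hSR : ∀ x ∈ S \ R, x + 1 ≤ n - k := by
    intro x hx
    obtain ⟨h1, h2⟩ := Finset.mem_sdiff.1 hx
    obtain ⟨i, -, rfl⟩ := Finset.mem_image.1 h1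
    by_contra h3
    exact h2 (hmemR _ (by omega) (I i).2)
  have c1 : (S \ R).card = (R \ S).card := by
    have e1 := Finset.card_sdiff_add_card_inter S R
    have e2 := Finset.card_sdiff_add_card_inter R S
    rw [Finset.inter_comm] at e2
    omega
  have hpos : 0 < (S \ R).card := by
    rw [Finset.card_pos]
    refine ⟨(I i : ℕ), Finset.mem_sdiff.2 ⟨Finset.mem_image_of_mem _ (Finset.mem_univ i), fun hh => ?_⟩⟩
    exact absurd (hRge _ hh) (by omega)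
  have b1 : ∑ x ∈ S \ R, x + (S \ R).card ≤ (S \ R).card * (n - k) := by
    have : ∑ x ∈ S \ R, (x + 1) ≤ ∑ _x ∈ S \ R, (n - k) := Finset.sum_le_sum hSR
    simpa [Finset.sum_add_distrib] using this
  have b2 : (R \ S).card * (n - k) ≤ ∑ x ∈ R \ S, x := by
    have : ∑ _x ∈ R \ S, (n - k) ≤ ∑ x ∈ R \ S, x :=
      Finset.sum_le_sum fun x hx => hRge x (Finset.mem_sdiff.1 hx).1
    simpa using this
  have d1 : ∑ x ∈ S, x = ∑ x ∈ S \ R, x + ∑ x ∈ S ∩ R, x := by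
    rw [← Finset.sum_sdiff (Finset.inter_subset_left (s₁ := S) (s₂ := R))]
    congr 2
    ext x; simp
  have d2 : ∑ x ∈ R, x = ∑ x ∈ R \ S, x + ∑ x ∈ S ∩ R, x := by
    rw [← Finset.sum_sdiff (Finset.inter_subset_right (s₁ := S) (s₂ := R))]
    congr 2
    ext x; simp
  rw [c1] at b1 hpos
  rw [← sS, ← sR] at h
  omega

/-- the last `k` rows of an `n × k` matrix -/
def botRows {n k : ℕ} (hk : k ≤ n) : Fin k → Fin n := fun i => ⟨n - k + i, by omega⟩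

lemma not_vanInf_one_iff {𝕜 : Type*} [Field 𝕜] {n k : ℕ} (hk : k ≤ n) (X : Matrix (Fin n) (Fin k) 𝕜) :
    ¬ VanInf 1 X ↔ (X.submatrix (botRows hk) id).det ≠ 0 := by
  constructor
  · intro h hdet
    unfold VanInf at h
    push Not at h
    obtain ⟨I, hs, hI⟩ := h
    have hinj : Function.Injective I := by
      intro a b hab
      by_contra hne
      refine hI (Matrix.det_zero_of_row_eq (i := a) (j := b) hne ?_)
      funext c
      simp [Matrix.submatrix, hab]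
    have hge := le_of_sum_le hk I hinj (by omega)
    obtain ⟨c, hc, hc0⟩ := Matrix.exists_mulVec_eq_zero_iff.2 hdet
    refine hI (Matrix.exists_mulVec_eq_zero_iff.1 ⟨c, hc, ?_⟩)
    funext i
    have hi : I i = botRows hk ⟨(I i : ℕ) - (n - k), by
        have := (I i).2; have := hge i; omega⟩ := by
      apply Fin.ext
      simp only [botRows]
      have := hge i
      omega
    have := congrFun hc0 ⟨(I i : ℕ) - (n - k), by
        have := (I i).2; have := hge i; omega⟩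
    simp only [Matrix.mulVec, dotProduct, Matrix.submatrix_apply, id] at this ⊢
    rw [hi]
    exact this
  · intro h hV
    exact h (hV (botRows hk) (by simp [botRows]))

/-- genericity at infinity for a subspace -/
def TopV {n : ℕ} (V : Submodule ℝ (Fin n → ℝ)) (k : ℕ) : Prop :=
  ∀ u ∈ V, u ≠ 0 → ∃ i : Fin n, n - k ≤ (i : ℕ) ∧ u i ≠ 0

lemma not_vanInf_Ym_iff {n k : ℕ} (hk : k ≤ n) (Y : ℕ → Fin n → ℝ) :
    ¬ VanInf 1 (Ym Y k) ↔ Ind Y k ∧ TopV (Vs Y k) k := by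
  rw [not_vanInf_one_iff hk]
  constructor
  · intro h
    have key : ∀ c : Fin k → ℝ, (∀ i : Fin n, n - k ≤ (i : ℕ) → (Ym Y k *ᵥ c) i = 0) → c = 0 := by
      intro c hc
      by_contra hne
      refine h (Matrix.exists_mulVec_eq_zero_iff.1 ⟨c, hne, ?_⟩)
      funext i
      exact hc (botRows hk i) (by simp [botRows])
    refine ⟨ind_iff.2 fun c hc => key c fun i _ => by rw [hc]; rfl, fun u hu hu0 => ?_⟩
    obtain ⟨c, rfl⟩ := mem_Vs_iff.1 hu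
    by_contra hcon
    push Not at hcon
    exact hu0 (by rw [key c hcon, Matrix.mulVec_zero])
  · rintro ⟨hI, hT⟩ hdet
    obtain ⟨c, hc, hc0⟩ := Matrix.exists_mulVec_eq_zero_iff.2 hdet
    obtain ⟨i, hi, hi0⟩ := hT (Ym Y k *ᵥ c) (mem_Vs_iff.2 ⟨c, rfl⟩) (fun h0 => hc (ind_iff.1 hI c h0))
    apply hi0
    have := congrFun hc0 ⟨(i : ℕ) - (n - k), by have := i.2; omega⟩
    have e : botRows hk ⟨(i : ℕ) - (n - k), by have := i.2; omega⟩ = i := by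
      apply Fin.ext; simp only [botRows]; omega
    simp only [Matrix.mulVec, dotProduct, Matrix.submatrix_apply, id, e] at this
    exact this

/-! ## flags in terms of subspaces -/

/-- some nonzero vector of `V` is killed by the first `j` rows at time `t` (`W_V(t) = 0`) -/
def Zv (v : ℕ → ℝ → ℝ) {n : ℕ} (V : Submodule ℝ (Fin n → ℝ)) (j : ℕ) (t : ℝ) : Prop :=
  ∃ u ∈ V, u ≠ 0 ∧ ∀ i < j, gr v n i t ⬝ᵥ u = 0

/-- some nonzero vector of `V` is killed by the rows `0..j-2, j` (`W_V'(t) = 0`) -/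
def Dv (v : ℕ → ℝ → ℝ) {n : ℕ} (V : Submodule ℝ (Fin n → ℝ)) (j : ℕ) (t : ℝ) : Prop :=
  ∃ u ∈ V, u ≠ 0 ∧ (∀ i, i + 1 < j → gr v n i t ⬝ᵥ u = 0) ∧ gr v n j t ⬝ᵥ u = 0

/-- all zeros are simple -/
def SimpleV (v : ℕ → ℝ → ℝ) {n : ℕ} (V : Submodule ℝ (Fin n → ℝ)) (j : ℕ) : Prop :=
  ∀ t, Zv v V j t → ¬ Dv v V j t

/-- no common zeros of `W_V` and `W_W`, `dim V = j`, `dim W = j + 1` -/
def NC (v : ℕ → ℝ → ℝ) {n : ℕ} (V W : Submodule ℝ (Fin n → ℝ)) (j : ℕ) : Prop :=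
  ∀ t, ¬ (Zv v V j t ∧ Zv v W (j + 1) t)

lemma DR_eq_zero_iff_Zv (v : ℕ → ℝ → ℝ) {n : ℕ} {Y : ℕ → Fin n → ℝ} {j : ℕ} (hI : Ind Y j) (t : ℝ) :
    DR v (Ym Y j) t = 0 ↔ Zv v (Vs Y j) j t := DR_eq_zero_iff v hI t

lemma deriv_DR_eq_zero_iff_Dv {v : ℕ → ℝ → ℝ} {T : ℝ} (hv : Wt v T) {n : ℕ} {Y : ℕ → Fin n → ℝ}
    {j : ℕ} (hj : 0 < j) (hI : Ind Y j) (t : ℝ) :
    deriv (DR v (Ym Y j)) t = 0 ↔ Dv v (Vs Y j) j t := by
  obtain ⟨p, rfl⟩ : ∃ p, j = p + 1 := ⟨j - 1, by omega⟩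
  rw [deriv_DR_eq_zero_iff hv hI]
  unfold Dv
  simp only [Nat.add_lt_add_iff_right]

lemma Zs_eq (v : ℕ → ℝ → ℝ) {n : ℕ} {Y : ℕ → Fin n → ℝ} {j : ℕ} (hI : Ind Y j) :
    Zs v Y j = {t | Zv v (Vs Y j) j t} := by
  ext t; exact DR_eq_zero_iff_Zv v hI t

lemma simple_iff {v : ℕ → ℝ → ℝ} {T : ℝ} (hv : Wt v T) {n : ℕ} {Y : ℕ → Fin n → ℝ} {j : ℕ}
    (hI : Ind Y j) : (∀ t, DR v (Ym Y j) t = 0 → deriv (DR v (Ym Y j)) t ≠ 0) ↔
      SimpleV v (Vs Y j) j := by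
  rcases Nat.eq_zero_or_pos j with h | h
  · subst h
    constructor
    · rintro - t ⟨u, hu, hu0, -⟩
      have : Vs Y 0 = ⊥ := by unfold Vs; simp
      rw [this] at hu
      exact absurd ((Submodule.mem_bot ℝ).1 hu) hu0
    · intro _ t ht
      rw [DR_zero] at ht
      exact absurd ht one_ne_zero
  · simp only [DR_eq_zero_iff_Zv v hI, ne_eq, deriv_DR_eq_zero_iff_Dv hv h hI]
    rfl

/-- good flags in terms of subspaces -/
lemma good_iff {v : ℕ → ℝ → ℝ} {T : ℝ} (hv : Wt v T) {n k : ℕ} (hk : k ≤ n) (Y : ℕ → Fin n → ℝ) :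
    Good v k Y ↔ (∀ j ≤ k, Ind Y j ∧ TopV (Vs Y j) j) ∧
      (∀ j, 0 < j → j < k → NC v (Vs Y j) (Vs Y (j + 1)) j) ∧ SimpleV v (Vs Y k) k := by
  constructor
  · intro h
    have h1 : ∀ j ≤ k, Ind Y j ∧ TopV (Vs Y j) j := fun j hj =>
      (not_vanInf_Ym_iff (hj.trans hk) Y).1 (h.top j hj)
    refine ⟨h1, fun j hj hjk t ht => ?_, (simple_iff hv (h1 k le_rfl).1).1 h.simple⟩
    refine h.nocommon j hj hjk t ⟨?_, ?_⟩
    · rw [DR_eq_zero_iff_Zv v (h1 j hjk.le).1]; exact ht.1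
    · rw [DR_eq_zero_iff_Zv v (h1 (j + 1) hjk).1]; exact ht.2
  · rintro ⟨h1, h2, h3⟩
    refine ⟨fun j hj => (not_vanInf_Ym_iff (hj.trans hk) Y).2 (h1 j hj), fun j hj hjk t ht => ?_,
      (simple_iff hv (h1 k le_rfl).1).2 h3⟩
    refine h2 j hj hjk t ⟨?_, ?_⟩
    · rw [← DR_eq_zero_iff_Zv v (h1 j hjk.le).1]; exact ht.1
    · rw [← DR_eq_zero_iff_Zv v (h1 (j + 1) hjk).1]; exact ht.2

/-- the sign of a flag only depends on the subspaces `V_1 < .. < V_k` -/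
lemma epsF_congr (v : ℕ → ℝ → ℝ) {n k : ℕ} {Y Y' : ℕ → Fin n → ℝ}
    (hI : ∀ j ≤ k, Ind Y j) (hI' : ∀ j ≤ k, Ind Y' j) (h : ∀ j ≤ k, Vs Y j = Vs Y' j) :
    epsF v k Y = epsF v k Y' := by
  unfold epsF
  congr 1
  refine Finset.sum_congr rfl fun j hj => ?_
  rw [Finset.mem_Ioo] at hj
  rw [Zs_eq v (hI j hj.2.le), Zs_eq v (hI' j hj.2.le), Zs_eq v (hI (j + 1) hj.2),
    Zs_eq v (hI' (j + 1) hj.2), h j hj.2.le, h (j + 1) hj.2]

end Pool.Agent.GC18.KV
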