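import Pool.Agent.GC18.Defs

/-!
# Grassmann convexity (MP_5fea31_an): real functions with finitely many simple zeros   (helper77)

`SimpleZ f Z`: `f` is continuous, its zero set is the finite set `Z`, all zeros are simple.
`sgn_count` (sign changes), `sgn_sum` (sum of the jumps of the sign), `finv` (parity datum, `inv_coe`),
`inv_step` (abstract form of E1), `exists_simpleZ` (finiteness of the zero set).
-/

set_option autoImplicit false

open Finset

namespace Pool.Agent.GC18.RZ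

/-- sign as an integer -/
noncomputable def sgn (x : ℝ) : ℤ := (SignType.sign x : ℤ)

theorem sgn_pos {x : ℝ} (h : 0 < x) : sgn x = 1 := by
  unfold sgn; rw [_root_.sign_pos h]; rfl

theorem sgn_neg {x : ℝ} (h : x < 0) : sgn x = -1 := by
  unfold sgn; rw [_root_.sign_neg h]; rfl

theorem sgn_mul (x y : ℝ) : sgn (x * y) = sgn x * sgn y := by
  unfold sgn; rw [_root_.sign_mul]; push_cast; rfl

theorem sgn_sq {x : ℝ} (h : x ≠ 0) : sgn x * sgn x = 1 := by
  rcases lt_or_gt_of_ne h with h | h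
  · rw [sgn_neg h]; norm_num
  · rw [sgn_pos h]; norm_num

/-- `f` is continuous and its zero set is `Z`, all zeros simple -/
structure SimpleZ (f : ℝ → ℝ) (Z : Finset ℝ) : Prop where
  cont : Continuous f
  mem : ∀ t, f t = 0 ↔ t ∈ Z
  der : ∀ z ∈ Z, ∃ d : ℝ, d ≠ 0 ∧ HasDerivAt f d z

/-- products of jumps -/
theorem prod_jump {M : Type*} [CommMonoid M] (Z : Finset ℝ) (Φ : ℝ → M) (j : ℝ → M)
    (h0 : ∀ y y', y ≤ y' → (∀ z ∈ Z, ¬ (y ≤ z ∧ z ≤ y')) → Φ y' = Φ y)
    (h1 : ∀ z ∈ Z, ∃ δ > 0, ∀ ε, 0 < ε → ε < δ → Φ (z + ε) = Φ (z - ε) * j z) :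
    ∀ (n : ℕ) (y y' : ℝ), y ≤ y' → y ∉ Z → y' ∉ Z →
      (Z.filter (fun z => y < z ∧ z < y')).card = n →
      Φ y' = Φ y * ∏ z ∈ Z.filter (fun z => y < z ∧ z < y'), j z := by
  intro n
  induction n with
  | zero =>
    intro y y' hyy' hy hy' hc
    rw [Finset.card_eq_zero] at hc
    rw [hc, Finset.prod_empty, mul_one]
    apply h0 y y' hyy'
    rintro z hz ⟨hz1, hz2⟩
    have h3 : z ∈ Z.filter (fun z => y < z ∧ z < y') := by
      rw [Finset.mem_filter]
      refine ⟨hz, lt_of_le_of_ne hz1 ?_, lt_of_le_of_ne hz2 ?_⟩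
      · rintro rfl; exact hy hz
      · rintro rfl; exact hy' hz
    rw [hc] at h3
    exact absurd h3 (Finset.notMem_empty z)
  | succ n ih =>
    intro y y' hyy' hy hy' hc
    have hne : (Z.filter (fun z => y < z ∧ z < y')).Nonempty := by
      rw [← Finset.card_pos, hc]; exact Nat.succ_pos n
    obtain ⟨z, hz⟩ : ∃ z, z = (Z.filter (fun z => y < z ∧ z < y')).min' hne := ⟨_, rfl⟩
    have hzm : z ∈ Z.filter (fun z => y < z ∧ z < y') := by
      rw [hz]; exact Finset.min'_mem _ hne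
    have hzle : ∀ x ∈ Z.filter (fun z => y < z ∧ z < y'), z ≤ x := by
      intro x hx; rw [hz]; exact Finset.min'_le _ x hx
    rw [Finset.mem_filter] at hzm
    obtain ⟨hzZ, hyz, hzy'⟩ := hzm
    obtain ⟨δ, hδ, hj⟩ := h1 z hzZ
    -- separation from the other zeros
    obtain ⟨η, hη, hsep⟩ : ∃ η > 0, ∀ x ∈ Z, x ≠ z → η < |x - z| := by
      by_cases hZ : (Z.erase z).Nonempty
      · obtain ⟨w, hw, hmin⟩ := Finset.exists_min_image (Z.erase z) (fun x => |x - z|) hZ
        have hw' : 0 < |w - z| := abs_pos.2 (sub_ne_zero.2 (Finset.ne_of_mem_erase hw))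
        refine ⟨|w - z| / 2, by positivity, fun x hx hxz => ?_⟩
        have := hmin x (Finset.mem_erase.2 ⟨hxz, hx⟩)
        linarith
      · refine ⟨1, one_pos, fun x hx hxz => ?_⟩
        exact absurd ⟨x, Finset.mem_erase.2 ⟨hxz, hx⟩⟩ hZ
    obtain ⟨ε, hε, hε1, hε2, hε3, hε4⟩ : ∃ ε : ℝ, 0 < ε ∧ ε < δ ∧ ε < η ∧ ε < z - y ∧ ε < y' - z := by
      refine ⟨min (min δ η) (min (z - y) (y' - z)) / 2, ?_, ?_, ?_, ?_, ?_⟩
      · have : 0 < min (min δ η) (min (z - y) (y' - z)) :=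
          lt_min (lt_min hδ hη) (lt_min (by linarith) (by linarith))
        linarith
      all_goals
        have h5 : 0 < min (min δ η) (min (z - y) (y' - z)) :=
          lt_min (lt_min hδ hη) (lt_min (by linarith) (by linarith))
        have h6 := min_le_left (min δ η) (min (z - y) (y' - z))
        have h7 := min_le_right (min δ η) (min (z - y) (y' - z))
        have h8 := min_le_left δ η
        have h9 := min_le_right δ η
        have h10 := min_le_left (z - y) (y' - z)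
        have h11 := min_le_right (z - y) (y' - z)
        linarith
    have hzero : ∀ x ∈ Z, z - ε ≤ x → x ≤ z + ε → x = z := by
      intro x hx h5 h6
      by_contra hxz
      have := hsep x hx hxz
      have h7 : |x - z| ≤ ε := abs_le.2 ⟨by linarith, by linarith⟩
      linarith
    have e1 : Φ (z - ε) = Φ y := by
      apply h0 y (z - ε) (by linarith)
      rintro x hx ⟨hx1, hx2⟩
      have hx3 : x ∈ Z.filter (fun z => y < z ∧ z < y') := by
        rw [Finset.mem_filter]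
        refine ⟨hx, lt_of_le_of_ne hx1 ?_, by linarith⟩
        rintro rfl; exact hy hx
      have := hzle x hx3
      linarith
    have e2 := hj ε hε hε1
    have hzε : z + ε ∉ Z := by
      intro h
      have := hzero _ h (by linarith) le_rfl
      linarith
    have hfil : Z.filter (fun x => z + ε < x ∧ x < y')
        = (Z.filter (fun z => y < z ∧ z < y')).erase z := by
      ext x
      rw [Finset.mem_filter, Finset.mem_erase, Finset.mem_filter]
      constructor
      · rintro ⟨h5, h6, h7⟩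
        exact ⟨by linarith [h6] |> fun (h : z < x) => ne_of_gt h, h5, by linarith, h7⟩
      · rintro ⟨h5, h6, h7, h8⟩
        refine ⟨h6, ?_, h8⟩
        by_contra h9
        push Not at h9
        have h10 := hzle x (Finset.mem_filter.2 ⟨h6, h7, h8⟩)
        exact h5 (hzero x h6 (by linarith) h9)
    have hzmem : z ∈ Z.filter (fun z => y < z ∧ z < y') :=
      Finset.mem_filter.2 ⟨hzZ, hyz, hzy'⟩
    have hcard : (Z.filter (fun x => z + ε < x ∧ x < y')).card = n := by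
      rw [hfil, Finset.card_erase_of_mem hzmem, hc]
      rfl
    have e3 := ih (z + ε) y' (by linarith) hzε hy' hcard
    rw [e3, e2, e1, hfil, mul_assoc, Finset.mul_prod_erase _ _ hzmem]

namespace SimpleZ

variable {f : ℝ → ℝ} {Z : Finset ℝ}

theorem sgn_const (h : SimpleZ f Z) : ∀ y y', y ≤ y' → (∀ z ∈ Z, ¬ (y ≤ z ∧ z ≤ y')) →
    sgn (f y') = sgn (f y) := by
  intro y y' hyy' hz
  have hne : ∀ t ∈ Set.Icc y y', f t ≠ 0 := by
    intro t ht h0
    exact hz t ((h.mem t).1 h0) ht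
  have hy := hne y (Set.left_mem_Icc.2 hyy')
  have hy' := hne y' (Set.right_mem_Icc.2 hyy')
  rcases lt_or_gt_of_ne hy with h1 | h1
  · rcases lt_or_gt_of_ne hy' with h2 | h2
    · rw [sgn_neg h1, sgn_neg h2]
    · exfalso
      obtain ⟨t, ht, ht0⟩ := intermediate_value_Icc hyy' h.cont.continuousOn
        (show (0 : ℝ) ∈ Set.Icc (f y) (f y') from ⟨h1.le, h2.le⟩)
      exact hne t ht ht0
  · rcases lt_or_gt_of_ne hy' with h2 | h2
    · exfalso
      obtain ⟨t, ht, ht0⟩ := intermediate_value_Icc' hyy' h.cont.continuousOn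
        (show (0 : ℝ) ∈ Set.Icc (f y') (f y) from ⟨h2.le, h1.le⟩)
      exact hne t ht ht0
    · rw [sgn_pos h1, sgn_pos h2]

/-- signs next to a simple zero -/
theorem sgn_near {d z : ℝ} (hd : d ≠ 0) (hf : HasDerivAt f d z) (h0 : f z = 0) :
    ∃ δ > 0, ∀ ε, 0 < ε → ε < δ → sgn (f (z + ε)) = sgn d ∧ sgn (f (z - ε)) = - sgn d := by
  have hev : ∀ᶠ t in nhdsWithin z {z}ᶜ, |slope f z t - d| < |d| := by
    have := hasDerivAt_iff_tendsto_slope.1 hf
    have h2 := Metric.tendsto_nhds.1 this |d| (abs_pos.2 hd)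
    filter_upwards [h2] with t ht
    rwa [Real.dist_eq] at ht
  rw [eventually_nhdsWithin_iff, Metric.eventually_nhds_iff] at hev
  obtain ⟨δ, hδ, hev⟩ := hev
  refine ⟨δ, hδ, fun ε hε hεδ => ?_⟩
  have h1 := hev (y := z + ε) (by rw [Real.dist_eq]; simpa [abs_of_pos hε] using hεδ)
    (by simp [hε.ne'])
  have h2 := hev (y := z - ε) (by rw [Real.dist_eq]; simpa [abs_of_pos hε] using hεδ)
    (by simp [hε.ne'])
  rw [slope_def_field, h0] at h1 h2
  have e1 : (f (z + ε) - 0) / (z + ε - z) = f (z + ε) / ε := by ring_nf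
  have e2 : (f (z - ε) - 0) / (z - ε - z) = - f (z - ε) / ε := by
    rw [show z - ε - z = -ε by ring, sub_zero, div_neg, neg_div]
  rw [e1, abs_lt] at h1
  rw [e2, abs_lt] at h2
  rcases lt_or_gt_of_ne hd with hd' | hd'
  · rw [abs_of_neg hd'] at h1 h2
    have h3 : f (z + ε) / ε < 0 := by linarith
    have h4 : - f (z - ε) / ε < 0 := by linarith
    rw [div_neg_iff] at h3 h4
    have h5 : f (z + ε) < 0 := by
      rcases h3 with h3 | h3
      · linarith
      · exact h3.1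
    have h6 : 0 < f (z - ε) := by
      rcases h4 with h4 | h4
      · linarith
      · linarith [h4.1]
    rw [sgn_neg h5, sgn_neg hd', sgn_pos h6]
    exact ⟨rfl, by norm_num⟩
  · rw [abs_of_pos hd'] at h1 h2
    have h3 : 0 < f (z + ε) / ε := by linarith
    have h4 : 0 < - f (z - ε) / ε := by linarith
    have h5 : 0 < f (z + ε) := by
      have := mul_pos h3 hε
      rwa [div_mul_cancel₀ _ hε.ne'] at this
    have h6 : f (z - ε) < 0 := by
      have := mul_pos h4 hε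
      rw [div_mul_cancel₀ _ hε.ne'] at this
      linarith
    rw [sgn_pos h5, sgn_pos hd', sgn_neg h6]
    exact ⟨rfl, rfl⟩

/-- the sign changes at each zero -/
theorem sgn_count (h : SimpleZ f Z) (y y' : ℝ) (hyy' : y ≤ y') (hy : y ∉ Z) (hy' : y' ∉ Z) :
    sgn (f y') = sgn (f y) * (-1) ^ (Z.filter (fun z => y < z ∧ z < y')).card := by
  have := prod_jump Z (fun t => sgn (f t)) (fun _ => (-1 : ℤ)) h.sgn_const ?_ _ y y' hyy' hy hy' rfl
  · rw [this, Finset.prod_const]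
  · intro z hz
    obtain ⟨d, hd, hfd⟩ := h.der z hz
    obtain ⟨δ, hδ, hs⟩ := sgn_near hd hfd ((h.mem z).2 hz)
    refine ⟨δ, hδ, fun ε h1 h2 => ?_⟩
    rw [(hs ε h1 h2).1, (hs ε h1 h2).2]
    ring

/-- the sum of the jumps of the sign -/
theorem sgn_sum (h : SimpleZ f Z) (D : ℝ → ℝ) (hD0 : ∀ z ∈ Z, D z ≠ 0)
    (hD : ∀ z ∈ Z, HasDerivAt f (D z) z) (y y' : ℝ) (hyy' : y ≤ y') (hy : y ∉ Z) (hy' : y' ∉ Z) :
    sgn (f y') = sgn (f y) + ∑ z ∈ Z.filter (fun z => y < z ∧ z < y'), 2 * sgn (D z) := by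
  have := prod_jump (M := Multiplicative ℤ) Z (fun t => Multiplicative.ofAdd (sgn (f t)))
    (fun z => Multiplicative.ofAdd (2 * sgn (D z)))
    (fun y y' h1 h2 => by rw [h.sgn_const y y' h1 h2]) ?_ _ y y' hyy' hy hy' rfl
  · rw [← ofAdd_sum, ← ofAdd_add] at this
    exact Multiplicative.ofAdd.injective this
  · intro z hz
    obtain ⟨δ, hδ, hs⟩ := sgn_near (hD0 z hz) (hD z hz) ((h.mem z).2 hz)
    refine ⟨δ, hδ, fun ε h1 h2 => ?_⟩
    rw [(hs ε h1 h2).1, (hs ε h1 h2).2, ← ofAdd_add]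
    congr 1
    ring

end SimpleZ

/-- the parity datum of two consecutive zero sets -/
noncomputable def finv (A B : Finset ℝ) : ℕ :=
  A.card / 2 + ((A ×ˢ B).filter (fun w => w.2 < w.1)).card

theorem card_pairs (A B : Finset ℝ) :
    ((A ×ˢ B).filter (fun w => w.2 < w.1)).card = ∑ y ∈ B, (A.filter (fun x => y < x)).card := by
  rw [Finset.card_filter, Finset.sum_product_right]
  refine Finset.sum_congr rfl fun y _ => ?_
  rw [Finset.card_filter]

theorem card_pairs' (A B : Finset ℝ) :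
    ((A ×ˢ B).filter (fun w => w.2 < w.1)).card = ∑ x ∈ A, (B.filter (fun y => y < x)).card := by
  rw [Finset.card_filter, Finset.sum_product]
  refine Finset.sum_congr rfl fun y _ => ?_
  rw [Finset.card_filter]

/-- `∑ sgn = #Z - 2 #{negative}` -/
theorem sum_sgn (Z : Finset ℝ) (g : ℝ → ℝ) (hg : ∀ z ∈ Z, g z ≠ 0) :
    ∑ z ∈ Z, sgn (g z) = (Z.card : ℤ) - 2 * ((Z.filter (fun z => g z < 0)).card : ℤ) := by
  rw [Finset.card_eq_sum_ones, Finset.card_filter]
  push_cast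
  rw [Finset.mul_sum, ← Finset.sum_sub_distrib]
  refine Finset.sum_congr rfl fun z hz => ?_
  rcases lt_or_gt_of_ne (hg z hz) with h | h
  · rw [sgn_neg h, if_pos h]; norm_num
  · rw [sgn_pos h, if_neg (not_lt.2 h.le)]; norm_num

/-- `∏ sgn = (-1)^#{negative}` -/
theorem prod_sgn (Z : Finset ℝ) (g : ℝ → ℝ) (hg : ∀ z ∈ Z, g z ≠ 0) :
    ∏ z ∈ Z, sgn (g z) = (-1) ^ (Z.filter (fun z => g z < 0)).card := by
  rw [← Finset.prod_const, Finset.prod_filter]
  refine Finset.prod_congr rfl fun z hz => ?_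
  rcases lt_or_gt_of_ne (hg z hz) with h | h
  · rw [sgn_neg h, if_pos h]
  · rw [sgn_pos h, if_neg (not_lt.2 h.le)]

/-- the sign count of one function -/
theorem neg_one_pow_inv {p r : ℝ → ℝ} {Zp Zq Zr : Finset ℝ} (hp : SimpleZ p Zp)
    (hr : SimpleZ r Zr) (hpq : Disjoint Zp Zq) (hqr : Disjoint Zq Zr) (T : ℝ)
    (hTp : ∀ z ∈ Zp, z < T) (hTr : ∀ z ∈ Zr, -T < z) (hTq : ∀ z ∈ Zq, -T < z ∧ z < T) :
    ((-1 : ℤ)) ^ (((Zp ×ˢ Zq).filter (fun w => w.2 < w.1)).card
        + ((Zq ×ˢ Zr).filter (fun w => w.2 < w.1)).card)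
      = (-1) ^ (Zq.filter (fun z => p z * r z < 0)).card * (sgn (p T) * sgn (r (-T))) ^ Zq.card := by
  have hTp' : T ∉ Zp := fun h => lt_irrefl _ (hTp T h)
  have hTr' : -T ∉ Zr := fun h => lt_irrefl _ (hTr _ h)
  have hpr : ∀ z ∈ Zq, p z ≠ 0 ∧ r z ≠ 0 := fun z hz =>
    ⟨fun h => Finset.disjoint_left.1 hpq ((hp.mem z).1 h) hz,
      fun h => Finset.disjoint_left.1 hqr hz ((hr.mem z).1 h)⟩
  rw [card_pairs, card_pairs', pow_add, ← Finset.prod_pow_eq_pow_sum,
    ← Finset.prod_pow_eq_pow_sum, ← Finset.prod_mul_distrib,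
    ← prod_sgn Zq (fun z => p z * r z) (fun z hz => mul_ne_zero (hpr z hz).1 (hpr z hz).2),
    ← Finset.prod_const, ← Finset.prod_mul_distrib]
  refine Finset.prod_congr rfl fun y hy => ?_
  have hyp : y ∉ Zp := fun h => Finset.disjoint_left.1 hpq h hy
  have hyr : y ∉ Zr := fun h => Finset.disjoint_left.1 hqr hy h
  have e1 := hp.sgn_count y T (hTq y hy).2.le hyp hTp'
  have e2 := hr.sgn_count (-T) y (hTq y hy).1.le hTr' hyr
  have f1 : Zp.filter (fun z => y < z ∧ z < T) = Zp.filter (fun x => y < x) := by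
    refine Finset.filter_congr fun x hx => ?_
    exact ⟨fun h => h.1, fun h => ⟨h, hTp x hx⟩⟩
  have f2 : Zr.filter (fun z => -T < z ∧ z < y) = Zr.filter (fun x => x < y) := by
    refine Finset.filter_congr fun x hx => ?_
    exact ⟨fun h => h.2, fun h => ⟨hTr x hx, h⟩⟩
  rw [f1] at e1
  rw [f2] at e2
  have s1 := sgn_sq (hpr y hy).1
  have s2 := sgn_sq (hpr y hy).2
  have s3 : sgn (p T) ≠ 0 := by
    have := sgn_sq (fun h => hTp' ((hp.mem T).1 h))
    intro h; rw [h] at this; norm_num at this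
  have s4 := sgn_sq (fun h => hTr' ((hr.mem (-T)).1 h))
  rw [sgn_mul]
  have g1 : (-1 : ℤ) ^ (Zp.filter (fun x => y < x)).card = sgn (p y) * sgn (p T) := by
    rw [e1, ← mul_assoc, s1, one_mul]
  have g2 : (-1 : ℤ) ^ (Zr.filter (fun x => x < y)).card = sgn (r y) * sgn (r (-T)) := by
    rw [e2]
    have : sgn (r (-T)) * (-1) ^ (Zr.filter (fun x => x < y)).card * sgn (r (-T))
        = (sgn (r (-T)) * sgn (r (-T))) * (-1) ^ (Zr.filter (fun x => x < y)).card := by ring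
    rw [this, s4, one_mul]
  rw [g1, g2]
  ring

/-- **E1**: one step invariance. -/
theorem inv_step {p q q' r ω : ℝ → ℝ} {Zp Zq Zq' Zr : Finset ℝ} (hp : SimpleZ p Zp)
    (hq : SimpleZ q Zq) (hq' : SimpleZ q' Zq') (hr : SimpleZ r Zr)
    (hpq : Disjoint Zp Zq) (hqr : Disjoint Zq Zr) (hpq' : Disjoint Zp Zq') (hqr' : Disjoint Zq' Zr)
    (dq dq' : ℝ → ℝ) (hdq : ∀ t, HasDerivAt q (dq t) t) (hdq' : ∀ t, HasDerivAt q' (dq' t) t)
    (hω : ∀ t, 0 < ω t) (hid : ∀ t, ω t * (p t * r t) = q t * dq' t - dq t * q' t)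
    (T : ℝ) (hTp : ∀ z ∈ Zp, z < T) (hTr : ∀ z ∈ Zr, -T < z)
    (hTq : ∀ z ∈ Zq, -T < z ∧ z < T) (hTq' : ∀ z ∈ Zq', -T < z ∧ z < T)
    (hend : 0 < (q T * q' T) * (q (-T) * q' (-T))) :
    (finv Zp Zq + finv Zq Zr) % 2 = (finv Zp Zq' + finv Zq' Zr) % 2 := by
  -- the product
  have hprq : ∀ z ∈ Zq, p z * r z ≠ 0 := fun z hz => mul_ne_zero
    (fun h => Finset.disjoint_left.1 hpq ((hp.mem z).1 h) hz)
    (fun h => Finset.disjoint_left.1 hqr hz ((hr.mem z).1 h))
  have hprq' : ∀ z ∈ Zq', p z * r z ≠ 0 := fun z hz => mul_ne_zero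
    (fun h => Finset.disjoint_left.1 hpq' ((hp.mem z).1 h) hz)
    (fun h => Finset.disjoint_left.1 hqr' hz ((hr.mem z).1 h))
  have hdisj : Disjoint Zq Zq' := by
    rw [Finset.disjoint_left]
    intro z hz hz'
    have h1 := hid z
    rw [(hq.mem z).2 hz, (hq'.mem z).2 hz', zero_mul, mul_zero, sub_zero] at h1
    rcases mul_eq_zero.1 h1 with h2 | h2
    · exact (hω z).ne' h2
    · exact hprq z hz h2
  have hDu : ∀ t, HasDerivAt (fun t => q t * q' t) (dq t * q' t + q t * dq' t) t :=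
    fun t => (hdq t).mul (hdq' t)
  have hDq : ∀ z ∈ Zq, dq z * q' z + q z * dq' z = - (ω z * (p z * r z)) := by
    intro z hz
    rw [hid z, (hq.mem z).2 hz]
    ring
  have hDq' : ∀ z ∈ Zq', dq z * q' z + q z * dq' z = ω z * (p z * r z) := by
    intro z hz
    rw [hid z, (hq'.mem z).2 hz]
    ring
  have hD0 : ∀ z ∈ Zq ∪ Zq', dq z * q' z + q z * dq' z ≠ 0 := by
    intro z hz
    rcases Finset.mem_union.1 hz with h | h
    · rw [hDq z h]
      exact neg_ne_zero.2 (mul_ne_zero (hω z).ne' (hprq z h))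
    · rw [hDq' z h]
      exact mul_ne_zero (hω z).ne' (hprq' z h)
  have hu : SimpleZ (fun t => q t * q' t) (Zq ∪ Zq') := by
    refine ⟨hq.cont.mul hq'.cont, ?_, ?_⟩
    · intro t
      rw [mul_eq_zero, hq.mem, hq'.mem, Finset.mem_union]
    · intro z hz
      exact ⟨_, hD0 z hz, hDu z⟩
  have hTu : ∀ z ∈ Zq ∪ Zq', -T < z ∧ z < T := by
    intro z hz
    rcases Finset.mem_union.1 hz with h | h
    · exact hTq z h
    · exact hTq' z h
  have hqT : q T * q' T ≠ 0 := fun h => by rw [h, zero_mul] at hend; exact lt_irrefl _ hend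
  have hqT' : q (-T) * q' (-T) ≠ 0 := fun h => by rw [h, mul_zero] at hend; exact lt_irrefl _ hend
  have hsum : ∑ z ∈ Zq ∪ Zq', 2 * sgn (dq z * q' z + q z * dq' z) = 0 := by
    by_cases hemp : Zq ∪ Zq' = ∅
    · rw [hemp, Finset.sum_empty]
    · obtain ⟨z₀, hz₀⟩ := Finset.nonempty_iff_ne_empty.2 hemp
      have hTT : -T ≤ T := by
        have := hTu z₀ hz₀
        linarith [this.1, this.2]
      have h1 := hu.sgn_sum _ hD0 (fun z _ => hDu z) (-T) T hTT
        (fun h => hqT' ((hu.mem _).2 h)) (fun h => hqT ((hu.mem _).2 h))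
      have h2 : (Zq ∪ Zq').filter (fun z => -T < z ∧ z < T) = Zq ∪ Zq' :=
        Finset.filter_true_of_mem hTu
      rw [h2] at h1
      have h3 : sgn (q T * q' T) = sgn (q (-T) * q' (-T)) := by
        rcases mul_pos_iff.1 hend with ⟨h4, h5⟩ | ⟨h4, h5⟩
        · rw [sgn_pos h4, sgn_pos h5]
        · rw [sgn_neg h4, sgn_neg h5]
      rw [h3] at h1
      linarith
  have hsum2 : ∑ z ∈ Zq', sgn (p z * r z) = ∑ z ∈ Zq, sgn (p z * r z) := by
    rw [Finset.sum_union hdisj] at hsum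
    have h1 : ∑ z ∈ Zq, 2 * sgn (dq z * q' z + q z * dq' z)
        = - 2 * ∑ z ∈ Zq, sgn (p z * r z) := by
      rw [Finset.mul_sum]
      refine Finset.sum_congr rfl fun z hz => ?_
      rw [hDq z hz]
      have : sgn (-(ω z * (p z * r z))) = - sgn (p z * r z) := by
        rw [show -(ω z * (p z * r z)) = (-1) * (ω z * (p z * r z)) by ring, sgn_mul, sgn_mul,
          sgn_neg (by norm_num : (-1 : ℝ) < 0), sgn_pos (hω z)]
        ring
      rw [this]
      ring
    have h2 : ∑ z ∈ Zq', 2 * sgn (dq z * q' z + q z * dq' z)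
        = 2 * ∑ z ∈ Zq', sgn (p z * r z) := by
      rw [Finset.mul_sum]
      refine Finset.sum_congr rfl fun z hz => ?_
      rw [hDq' z hz, sgn_mul, sgn_pos (hω z)]
      ring
    rw [h1, h2] at hsum
    linarith
  rw [sum_sgn Zq' _ hprq', sum_sgn Zq _ hprq] at hsum2
  -- parities
  have k1 := neg_one_pow_inv hp hr hpq hqr T hTp hTr hTq
  have k2 := neg_one_pow_inv hp hr hpq' hqr' T hTp hTr hTq'
  obtain ⟨a, ha⟩ : ∃ a, a = (Zq.filter (fun z => p z * r z < 0)).card := ⟨_, rfl⟩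
  obtain ⟨a', ha'⟩ : ∃ a', a' = (Zq'.filter (fun z => p z * r z < 0)).card := ⟨_, rfl⟩
  rw [← ha] at k1 hsum2
  rw [← ha'] at k2 hsum2
  obtain ⟨c, hc⟩ : ∃ c, c = sgn (p T) * sgn (r (-T)) := ⟨_, rfl⟩
  rw [← hc] at k1 k2
  have hTp' : T ∉ Zp := fun h => lt_irrefl _ (hTp T h)
  have hTr' : -T ∉ Zr := fun h => lt_irrefl _ (hTr _ h)
  have hcc : c * c = 1 := by
    rw [hc]
    have s1 := sgn_sq (fun h => hTp' ((hp.mem T).1 h))
    have s4 := sgn_sq (fun h => hTr' ((hr.mem (-T)).1 h))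
    calc sgn (p T) * sgn (r (-T)) * (sgn (p T) * sgn (r (-T)))
        = (sgn (p T) * sgn (p T)) * (sgn (r (-T)) * sgn (r (-T))) := by ring
      _ = 1 := by rw [s1, s4, one_mul]
  obtain ⟨A, hA⟩ : ∃ A, A = ((Zp ×ˢ Zq).filter (fun w => w.2 < w.1)).card
        + ((Zq ×ˢ Zr).filter (fun w => w.2 < w.1)).card := ⟨_, rfl⟩
  obtain ⟨A', hA'⟩ : ∃ A', A' = ((Zp ×ˢ Zq').filter (fun w => w.2 < w.1)).card
        + ((Zq' ×ˢ Zr).filter (fun w => w.2 < w.1)).card := ⟨_, rfl⟩
  rw [← hA] at k1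
  rw [← hA'] at k2
  -- `Zq.card = Zq'.card + 2 (a - a')`
  have hcard : (Zq.card : ℤ) - 2 * a = (Zq'.card : ℤ) - 2 * a' := by linarith
  have hcpow : c ^ Zq.card = c ^ Zq'.card := by
    have h1 : ∀ n : ℕ, c ^ n = c ^ (n % 2) := by
      intro n
      conv_lhs => rw [← Nat.div_add_mod n 2, pow_add, pow_mul, pow_two, hcc, one_pow, one_mul]
    rw [h1 Zq.card, h1 Zq'.card]
    congr 1
    omega
  have hpar : (A + a) % 2 = (A' + a') % 2 := by
    have h1 : (-1 : ℤ) ^ (A + a) = c ^ Zq.card := by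
      rw [pow_add, k1]
      have : ((-1 : ℤ) ^ a * c ^ Zq.card) * (-1) ^ a = ((-1) ^ a * (-1) ^ a) * c ^ Zq.card := by ring
      rw [this, ← mul_pow]
      norm_num
    have h2 : (-1 : ℤ) ^ (A' + a') = c ^ Zq'.card := by
      rw [pow_add, k2]
      have : ((-1 : ℤ) ^ a' * c ^ Zq'.card) * (-1) ^ a'
          = ((-1) ^ a' * (-1) ^ a') * c ^ Zq'.card := by ring
      rw [this, ← mul_pow]
      norm_num
    have h3 : (-1 : ℤ) ^ (A + a) = (-1) ^ (A' + a') := by rw [h1, h2, hcpow]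
    rcases Nat.mod_two_eq_zero_or_one (A + a) with h4 | h4 <;>
      rcases Nat.mod_two_eq_zero_or_one (A' + a') with h5 | h5
    · rw [h4, h5]
    · rw [(Nat.even_iff.2 h4).neg_one_pow, (Nat.odd_iff.2 h5).neg_one_pow] at h3
      norm_num at h3
    · rw [(Nat.odd_iff.2 h4).neg_one_pow, (Nat.even_iff.2 h5).neg_one_pow] at h3
      norm_num at h3
    · rw [h4, h5]
  unfold finv
  omega

/-- `finv` is the `inv` of the finite sets -/
theorem inv_coe (A B : Finset ℝ) : GC18.inv (A : Set ℝ) (B : Set ℝ) = finv A B := by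
  unfold GC18.inv finv
  congr 1
  · rw [Set.ncard_coe_finset]
  · rw [← Set.ncard_coe_finset]
    congr 1
    ext w
    simp only [Set.mem_ofPred_eq, Finset.mem_coe, Finset.mem_filter, Finset.mem_product, and_assoc]

theorem SimpleZ.zero_set {f : ℝ → ℝ} {Z : Finset ℝ} (h : SimpleZ f Z) :
    {t | f t = 0} = (Z : Set ℝ) := by
  ext t
  simp only [Set.mem_ofPred_eq, Finset.mem_coe]
  exact h.mem t

/-- a differentiable function with simple zeros only and no zero outside a compact interval has a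
finite zero set -/
theorem exists_simpleZ (f : ℝ → ℝ) (D : ℝ → ℝ) (hD : ∀ t, HasDerivAt f (D t) t)
    (hs : ∀ t, f t = 0 → D t ≠ 0) (T : ℝ) (hT : ∀ t, T ≤ |t| → f t ≠ 0) :
    ∃ Z : Finset ℝ, SimpleZ f Z ∧ ∀ z ∈ Z, -T < z ∧ z < T := by
  have hc : Continuous f := continuous_iff_continuousAt.2 fun t => (hD t).continuousAt
  have hfin : {t | f t = 0}.Finite := by
    by_contra hinf
    have hinf' : {t | f t = 0}.Infinite := hinf
    have hK : IsCompact (Set.Icc (-T) T) := isCompact_Icc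
    have hsub : {t | f t = 0} ⊆ Set.Icc (-T) T := by
      intro t ht
      have h1 : |t| < T := by
        by_contra h
        exact hT t (not_lt.1 h) ht
      exact ⟨by linarith [(abs_lt.1 h1).1], (abs_lt.1 h1).2.le⟩
    obtain ⟨z, hzK, hz⟩ := hinf'.exists_accPt_of_subset_isCompact hK hsub
    have hz0 : f z = 0 := by
      have hcl : IsClosed {t | f t = 0} := isClosed_eq hc continuous_const
      have h2 : z ∈ closure {t | f t = 0} := by
        have := hz.clusterPt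
        exact mem_closure_iff_clusterPt.2 this
      rwa [hcl.closure_eq] at h2
    have h3 := (hD z).eventually_ne (c := (0 : ℝ)) (hs z hz0)
    rw [accPt_iff_frequently] at hz
    rw [eventually_nhdsWithin_iff] at h3
    obtain ⟨t, ⟨ht1, ht2⟩, ht3⟩ := (hz.and_eventually h3).exists
    exact ht3 ht1 ht2
  refine ⟨hfin.toFinset, ⟨hc, fun t => ?_, fun z hz => ?_⟩, fun z hz => ?_⟩
  · rw [Set.Finite.mem_toFinset]; rfl
  · rw [Set.Finite.mem_toFinset] at hz
    exact ⟨D z, hs z hz, hD z⟩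
  · rw [Set.Finite.mem_toFinset] at hz
    have h1 : |z| < T := by
      by_contra h
      exact hT z (not_lt.1 h) hz
    exact abs_lt.1 h1

end Pool.Agent.GC18.RZ
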