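import Pool.Agent.GC18.Stmts
import Pool.Agent.GC18.RealZeros
import Pool.Agent.GC18.DetTools

/-!
# Grassmann convexity (MP_5fea31_an): module E1, one step change of the flag   (helper77)
-/

set_option autoImplicit false

namespace Pool.Agent.GC18

open Matrix Filter Topology Set

/-- the zero sets of a good flag are finite and all zeros are simple -/
lemma good_simpleZ {v : ℕ → ℝ → ℝ} {T : ℝ} (hv : Wt v T) {n k : ℕ} (hkn : k ≤ n)
    {Y : ℕ → Fin n → ℝ} (hY : Good v k Y) {i : ℕ} (hi : i ≤ k) :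
    ∃ Z : Finset ℝ, RZ.SimpleZ (DR v (Ym Y i)) Z := by
  rcases Nat.eq_zero_or_pos i with h | h
  · subst h
    refine ⟨∅, ⟨?_, ?_, ?_⟩⟩
    · have : DR v (Ym Y 0) = fun _ => 1 := funext fun t => DR_Ym_zero v Y t
      rw [this]
      exact continuous_const
    · intro t
      rw [DR_Ym_zero]
      simp
    · intro z hz
      exact absurd hz (Finset.notMem_empty z)
  · obtain ⟨p, rfl⟩ : ∃ p, i = p + 1 := ⟨i - 1, by omega⟩
    obtain ⟨T', hT'⟩ := exists_bound_DR hv (hi.trans hkn) (Ym Y (p + 1)) (hY.top (p + 1) hi)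
    obtain ⟨Z, hZ, -⟩ := RZ.exists_simpleZ (DR v (Ym Y (p + 1))) (dW v Y p)
      (fun t => hasDerivAt_W hv Y p t) (fun t h0 => good_simple hv hY hi t h0) T' hT'
    exact ⟨Z, hZ⟩

lemma Ym_swap_of_le {n : ℕ} (Y : ℕ → Fin n → ℝ) (p i : ℕ) (hi : i ≤ p) :
    Ym (Y ∘ Equiv.swap p (p + 1)) i = Ym Y i := by
  ext a b
  simp only [Ym, Matrix.of_apply, Function.comp_apply]
  have := b.2
  rw [Equiv.swap_apply_of_ne_of_ne (by omega) (by omega)]

lemma DR_swap_of_ge (v : ℕ → ℝ → ℝ) {n : ℕ} (Y : ℕ → Fin n → ℝ) (p i : ℕ) (hi : p + 2 ≤ i) (t : ℝ) :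
    DR v (Ym (Y ∘ Equiv.swap p (p + 1)) i) t = - DR v (Ym Y i) t := by
  rw [DR_Ym, DR_Ym]
  set a : Fin i := ⟨p, by omega⟩ with ha
  set b : Fin i := ⟨p + 1, by omega⟩ with hb
  have hab : a ≠ b := by
    intro h
    have := congrArg Fin.val h
    simp [ha, hb] at this
  have h1 : (Matrix.of fun (c d : Fin i) => rw' v (Y ∘ Equiv.swap p (p + 1)) t c d)
      = (Matrix.of fun (c d : Fin i) => rw' v Y t c d).submatrix id (Equiv.swap a b) := by
    ext c d
    simp only [Matrix.of_apply, Matrix.submatrix_apply, id]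
    unfold rw'
    refine Finset.sum_congr rfl fun l _ => ?_
    congr 1
    simp only [Function.comp_apply]
    congr 1
    rcases eq_or_ne d a with h | h
    · rw [h, Equiv.swap_apply_left]
      simp only [ha, hb]
      rw [Equiv.swap_apply_left]
    · rcases eq_or_ne d b with h' | h'
      · rw [h', Equiv.swap_apply_right]
        simp only [ha, hb]
        rw [Equiv.swap_apply_right]
      · rw [Equiv.swap_apply_of_ne_of_ne h h', Equiv.swap_apply_of_ne_of_ne]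
        · intro h2; exact h (Fin.ext h2)
        · intro h2; exact h' (Fin.ext h2)
  rw [h1, Matrix.det_permute', Equiv.Perm.sign_swap hab]
  simp

/-- parity of the total of two sequences which differ in two consecutive places -/
lemma sum_mod_two (f f' : ℕ → ℕ) (k p : ℕ) (hp : p + 1 < k)
    (h : ∀ i, i ≠ p → i ≠ p + 1 → f' i = f i)
    (h0 : f 0 = 0) (h0' : f' 0 = 0) (h2 : (f p + f (p + 1)) % 2 = (f' p + f' (p + 1)) % 2) :
    (∑ i ∈ Finset.Ioo 0 k, f i) % 2 = (∑ i ∈ Finset.Ioo 0 k, f' i) % 2 := by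
  have e : ∀ g : ℕ → ℕ, g 0 = 0 → ∑ i ∈ Finset.Ioo 0 k, g i = ∑ i ∈ Finset.range k, g i := by
    intro g hg
    have h3 : Finset.range k = insert 0 (Finset.Ioo 0 k) := by
      ext i
      simp only [Finset.mem_range, Finset.mem_insert, Finset.mem_Ioo]
      omega
    rw [h3, Finset.sum_insert (by simp), hg, zero_add]
  rw [e f h0, e f' h0']
  have e2 : ∀ g : ℕ → ℕ, ∑ i ∈ Finset.range k, g i
      = g p + (g (p + 1) + ∑ i ∈ ((Finset.range k).erase p).erase (p + 1), g i) := by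
    intro g
    rw [Finset.add_sum_erase _ g (by simp [Finset.mem_erase]; omega),
      Finset.add_sum_erase _ g (by simp; omega)]
  rw [e2 f, e2 f']
  have h3 : ∑ i ∈ ((Finset.range k).erase p).erase (p + 1), f' i
      = ∑ i ∈ ((Finset.range k).erase p).erase (p + 1), f i := by
    refine Finset.sum_congr rfl fun i hi => ?_
    simp only [Finset.mem_erase] at hi
    exact h i hi.2.1 hi.1
  rw [h3]
  omega

theorem E1 : S_E1 := by
  intro v T hv n k hkn Y hY j hj hjk hY'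
  obtain ⟨p, rfl⟩ : ∃ p, j = p + 1 := ⟨j - 1, by omega⟩
  rw [Nat.add_sub_cancel] at hY' ⊢
  set Y' := Y ∘ Equiv.swap p (p + 1) with hY'def
  -- zero sets
  have hZ : ∀ i, i ≤ k → ∃ Z : Finset ℝ, RZ.SimpleZ (DR v (Ym Y i)) Z := fun i hi =>
    good_simpleZ hv hkn hY hi
  obtain ⟨Zp, hZp⟩ := hZ p (by omega)
  obtain ⟨Zq, hZq⟩ := hZ (p + 1) (by omega)
  obtain ⟨Zr, hZr⟩ := hZ (p + 2) (by omega)
  obtain ⟨Zq', hZq'⟩ := good_simpleZ hv hkn hY' (i := p + 1) (by omega)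
  have hle : ∀ i, i ≤ p → Ym Y' i = Ym Y i := fun i hi => Ym_swap_of_le Y p i hi
  have hge : ∀ i t, p + 2 ≤ i → DR v (Ym Y' i) t = - DR v (Ym Y i) t := fun i t hi =>
    DR_swap_of_ge v Y p i hi t
  -- zero sets of the two flags
  have hZs : ∀ i, i ≠ p + 1 → Zs v Y' i = Zs v Y i := by
    intro i hi
    rcases Nat.lt_or_ge i (p + 1) with h | h
    · unfold Zs
      rw [hle i (by omega)]
    · unfold Zs
      ext t
      simp only [Set.mem_ofPred_eq]
      rw [hge i t (by omega), neg_eq_zero]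
  have hZs0 : Zs v Y 0 = ∅ := by
    unfold Zs
    ext t
    simp only [Set.mem_ofPred_eq, Set.mem_empty_iff_false, iff_false]
    rw [DR_Ym_zero]
    exact one_ne_zero
  have hZs0' : Zs v Y' 0 = ∅ := by
    rw [hZs 0 (by omega), hZs0]
  have hinv0 : ∀ B : Set ℝ, inv (∅ : Set ℝ) B = 0 := by
    intro B
    unfold inv
    have : {w : ℝ × ℝ | w.1 ∈ (∅ : Set ℝ) ∧ w.2 ∈ B ∧ w.2 < w.1} = ∅ := by
      ext w
      simp
    rw [this]
    simp
  have cp : Zs v Y p = (Zp : Set ℝ) := hZp.zero_set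
  have cq : Zs v Y (p + 1) = (Zq : Set ℝ) := hZq.zero_set
  have cr : Zs v Y (p + 2) = (Zr : Set ℝ) := hZr.zero_set
  have cq' : Zs v Y' (p + 1) = (Zq' : Set ℝ) := hZq'.zero_set
  -- disjointness
  have dpq : Disjoint Zp Zq := by
    rw [Finset.disjoint_left]
    intro t h1 h2
    rcases Nat.eq_zero_or_pos p with h | h
    · have h3 := (hZp.mem t).2 h1
      rw [h, DR_Ym_zero] at h3
      exact one_ne_zero h3
    · exact hY.nocommon p h (by omega) t ⟨(hZp.mem t).2 h1, (hZq.mem t).2 h2⟩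
  have dqr : Disjoint Zq Zr := by
    rw [Finset.disjoint_left]
    intro t h1 h2
    exact hY.nocommon (p + 1) (by omega) hjk t ⟨(hZq.mem t).2 h1, (hZr.mem t).2 h2⟩
  have dpq' : Disjoint Zp Zq' := by
    rw [Finset.disjoint_left]
    intro t h1 h2
    rcases Nat.eq_zero_or_pos p with h | h
    · have h3 := (hZp.mem t).2 h1
      rw [h, DR_Ym_zero] at h3
      exact one_ne_zero h3
    · refine hY'.nocommon p h (by omega) t ⟨?_, (hZq'.mem t).2 h2⟩
      rw [hle p le_rfl]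
      exact (hZp.mem t).2 h1
  have dqr' : Disjoint Zq' Zr := by
    rw [Finset.disjoint_left]
    intro t h1 h2
    refine hY'.nocommon (p + 1) (by omega) hjk t ⟨(hZq'.mem t).2 h1, ?_⟩
    rw [hge (p + 2) t le_rfl, (hZr.mem t).2 h2, neg_zero]
  -- the ends
  have hp1 : p + 1 ≤ n := by omega
  have hX := (not_vanInf_last_iff hp1 _).1 (hY.top (p + 1) (by omega))
  have hX' := (not_vanInf_last_iff hp1 _).1 (hY'.top (p + 1) (by omega))
  set N := (p + 1) * (n - (p + 1)) with hN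
  set L := cst n (p + 1) * ((Ym Y (p + 1)).submatrix (lastI hp1) id).det with hL
  set L' := cst n (p + 1) * ((Ym Y' (p + 1)).submatrix (lastI hp1) id).det with hL'
  have hL0 : L ≠ 0 := mul_ne_zero (cst_ne_zero _ _) hX
  have hL0' : L' ≠ 0 := mul_ne_zero (cst_ne_zero _ _) hX'
  have t1 := tendsto_DR_atTop hv hp1 _ hX
  have t2 := tendsto_DR_atTop hv hp1 _ hX'
  have t3 := (tendsto_DR_atBot hv hp1 _ hX).comp tendsto_neg_atTop_atBot
  have t4 := (tendsto_DR_atBot hv hp1 _ hX').comp tendsto_neg_atTop_atBot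
  have t5 := (t1.mul t2).mul (t3.mul t4)
  have hpos : 0 < L * L' * (L * L') := by
    have : L * L' ≠ 0 := mul_ne_zero hL0 hL0'
    exact mul_self_pos.2 this
  have t6 := t5.eventually_const_lt hpos
  -- the bound
  obtain ⟨T₀, hT₀⟩ : ∃ T₀ : ℝ, ∀ z ∈ Zp ∪ Zq ∪ Zq' ∪ Zr, |z| < T₀ := by
    by_cases hne : (Zp ∪ Zq ∪ Zq' ∪ Zr).Nonempty
    · obtain ⟨w, _, hw⟩ := Finset.exists_max_image (Zp ∪ Zq ∪ Zq' ∪ Zr) (fun z => |z|) hne
      exact ⟨|w| + 1, fun z hz => by linarith [hw z hz]⟩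
    · exact ⟨0, fun z hz => absurd ⟨z, hz⟩ hne⟩
  obtain ⟨T', hT'6, hT'0, hT'pos⟩ := ((t6.and (eventually_ge_atTop T₀)).and
    (eventually_gt_atTop (0 : ℝ))).exists.imp fun a ha => (⟨ha.1.1, ha.1.2, ha.2⟩ :
      _ ∧ _ ∧ _)
  have hbd : ∀ z ∈ Zp ∪ Zq ∪ Zq' ∪ Zr, -T' < z ∧ z < T' := by
    intro z hz
    have := hT₀ z hz
    rw [abs_lt] at this
    exact ⟨by linarith [this.1], by linarith [this.2]⟩
  have hend : 0 < (DR v (Ym Y (p + 1)) T' * DR v (Ym Y' (p + 1)) T') *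
      (DR v (Ym Y (p + 1)) (-T') * DR v (Ym Y' (p + 1)) (-T')) := by
    simp only [Function.comp_apply] at hT'6
    have e1 : DR v (Ym Y (p + 1)) T' / T' ^ N * (DR v (Ym Y' (p + 1)) T' / T' ^ N) *
        (DR v (Ym Y (p + 1)) (-T') / (-T') ^ N * (DR v (Ym Y' (p + 1)) (-T') / (-T') ^ N))
        = ((DR v (Ym Y (p + 1)) T' * DR v (Ym Y' (p + 1)) T') *
      (DR v (Ym Y (p + 1)) (-T') * DR v (Ym Y' (p + 1)) (-T')))
          / (T' ^ N * (-T') ^ N) ^ 2 := by
      field_simp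
    rw [e1] at hT'6
    have hne : (T' ^ N * (-T') ^ N) ≠ 0 :=
      mul_ne_zero (pow_ne_zero _ hT'pos.ne') (pow_ne_zero _ (neg_ne_zero.2 hT'pos.ne'))
    exact (div_pos_iff_of_pos_right (by positivity)).1 hT'6
  have hstep := RZ.inv_step hZp hZq hZq' hZr dpq dqr dpq' dqr' (dW v Y p) (dW v Y' p)
    (fun t => hasDerivAt_W hv Y p t) (fun t => hasDerivAt_W hv Y' p t) (fun t => hv.pos p t)
    (fun t => by
      have := W_identity v Y p t
      rw [this]) T'
    (fun z hz => (hbd z (by simp [hz])).2) (fun z hz => (hbd z (by simp [hz])).1)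
    (fun z hz => hbd z (by simp [hz])) (fun z hz => hbd z (by simp [hz])) hend
  have hmod : (∑ i ∈ Finset.Ioo 0 k, inv (Zs v Y i) (Zs v Y (i + 1))) % 2
      = (∑ i ∈ Finset.Ioo 0 k, inv (Zs v Y' i) (Zs v Y' (i + 1))) % 2 := by
    apply sum_mod_two _ _ k p hjk
    · intro i h1 h2
      rw [hZs i (by omega), hZs (i + 1) (by omega)]
    · rw [hZs0, hinv0]
    · rw [hZs0', hinv0]
    · rw [hZs p (by omega), hZs (p + 1 + 1) (by omega), cp, cq, cq', cr, RZ.inv_coe, RZ.inv_coe,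
        RZ.inv_coe, RZ.inv_coe]
      exact hstep
  unfold epsF
  rw [← Nat.div_add_mod (∑ i ∈ Finset.Ioo 0 k, inv (Zs v Y i) (Zs v Y (i + 1))) 2,
    ← Nat.div_add_mod (∑ i ∈ Finset.Ioo 0 k, inv (Zs v Y' i) (Zs v Y' (i + 1))) 2, hmod,
    pow_add, pow_add, pow_mul, pow_mul]
  norm_num

end Pool.Agent.GC18
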