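import Pool.Agent.GC18.DerivDet

/-!
# Grassmann convexity (MP_5fea31_an): generic hyperplane sections (par. 3, E2)  (helper3)
-/

set_option autoImplicit false

namespace Pool.Agent.GC18

open Matrix Filter Topology Set MeasureTheory KV

namespace E2M

/-- the hyperplane `l ⬝ u = 0` -/
def hyp {n : ℕ} (l : Fin n → ℝ) : Submodule ℝ (Fin n → ℝ) where
  carrier := {u | l ⬝ᵥ u = 0}
  add_mem' := by
    intro a b ha hb
    change l ⬝ᵥ (a + b) = 0
    change l ⬝ᵥ a = 0 at ha
    change l ⬝ᵥ b = 0 at hb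
    rw [dotProduct_add, ha, hb, add_zero]
  zero_mem' := by simp
  smul_mem' := by
    intro c a ha
    change l ⬝ᵥ (c • a) = 0
    change l ⬝ᵥ a = 0 at ha
    rw [dotProduct_smul, ha, smul_zero]

@[simp] lemma mem_hyp {n : ℕ} {l u : Fin n → ℝ} : u ∈ hyp l ↔ l ⬝ᵥ u = 0 := Iff.rfl

lemma ae_dot_ne {n : ℕ} {u : Fin n → ℝ} (hu : u ≠ 0) :
    ∀ᵐ l : Fin n → ℝ, l ⬝ᵥ u ≠ 0 := by
  have h : volume ((hyp u : Submodule ℝ (Fin n → ℝ)) : Set (Fin n → ℝ)) = 0 := by
    apply Measure.addHaar_submodule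
    intro htop
    have : u ∈ hyp u := by rw [htop]; trivial
    rw [mem_hyp, dotProduct_self_eq_zero] at this
    exact hu this
  rw [ae_iff]
  convert h using 2
  ext l
  simp [hyp, dotProduct_comm]

lemma contDiff_gr {v : ℕ → ℝ → ℝ} {T : ℝ} (hv : Wt v T) (n i : ℕ) :
    ContDiff ℝ (⊤ : ℕ∞) (gr v n i) := by
  rw [contDiff_pi]
  intro l
  exact contDiff_ge hv i l

lemma volume_range_eq_zero {E : Type*} [NormedAddCommGroup E] [NormedSpace ℝ E]
    [FiniteDimensional ℝ E] {n : ℕ} {f : E → (Fin n → ℝ)} (hf : ContDiff ℝ 1 f)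
    (hE : Module.finrank ℝ E < n) : volume (range f) = 0 := by
  rw [← hausdorffMeasure_pi_real]
  have h : dimH (range f) < ((n : NNReal) : ENNReal) := by
    refine lt_of_le_of_lt hf.dimH_range_le ?_
    exact_mod_cast hE
  have := hausdorffMeasure_of_dimH_lt h
  simpa using this

/-- vectors annihilating `V` -/
def perp {n : ℕ} (V : Submodule ℝ (Fin n → ℝ)) : Submodule ℝ (Fin n → ℝ) where
  carrier := {z | ∀ u ∈ V, z ⬝ᵥ u = 0}
  add_mem' := by
    intro a b ha hb u hu
    rw [add_dotProduct, ha u hu, hb u hu, add_zero]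
  zero_mem' := by intro u _; simp
  smul_mem' := by
    intro c a ha u hu
    rw [smul_dotProduct, ha u hu, smul_zero]

lemma finrank_perp {n : ℕ} (V : Submodule ℝ (Fin n → ℝ)) :
    Module.finrank ℝ V + Module.finrank ℝ (perp V) ≤ n := by
  have hd : Disjoint V (perp V) := by
    rw [Submodule.disjoint_def]
    intro x hx hx'
    exact dotProduct_self_eq_zero.1 (hx' x hx)
  have := Submodule.finrank_add_finrank_le_of_disjoint hd
  simpa using this

/-- the functionals whose restriction to `V` is a combination of the first `p - 1` rows at some time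
form a null set (`dim V = p + 1`, `p ≥ 1`) -/
lemma ae_not_comb {v : ℕ → ℝ → ℝ} {T : ℝ} (hv : Wt v T) {n p : ℕ} (hp : 0 < p)
    (V : Submodule ℝ (Fin n → ℝ)) (hfr : Module.finrank ℝ V = p + 1) :
    ∀ᵐ l : Fin n → ℝ, ∀ (t : ℝ) (y : Fin (p - 1) → ℝ),
      ¬ ∀ u ∈ V, l ⬝ᵥ u = ∑ i : Fin (p - 1), y i * (gr v n i t ⬝ᵥ u) := by
  let f : ℝ × (Fin (p - 1) → ℝ) × perp V → (Fin n → ℝ) := fun q =>
    ∑ i : Fin (p - 1), q.2.1 i • gr v n i q.1 + (q.2.2 : Fin n → ℝ)
  have hf : ContDiff ℝ 1 f := by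
    refine ContDiff.add ?_ ?_
    · apply ContDiff.sum
      intro i _
      have h1 : ContDiff ℝ 1 (fun q : ℝ × (Fin (p - 1) → ℝ) × perp V => q.2.1 i) :=
        (contDiff_apply ℝ ℝ i).comp (contDiff_fst.comp contDiff_snd)
      have h2 : ContDiff ℝ 1 (fun q : ℝ × (Fin (p - 1) → ℝ) × perp V => gr v n i q.1) :=
        ((contDiff_gr hv n i).of_le (by exact_mod_cast le_top)).comp contDiff_fst
      exact h1.smul h2
    · exact (perp V).subtypeL.contDiff.comp (contDiff_snd.comp contDiff_snd)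
  have hE : Module.finrank ℝ (ℝ × (Fin (p - 1) → ℝ) × perp V) < n := by
    have := finrank_perp V
    rw [hfr] at this
    simp only [Module.finrank_prod, Module.finrank_self, Module.finrank_fin_fun]
    omega
  have h0 := volume_range_eq_zero hf hE
  refine measure_mono_null ?_ h0
  intro l hl
  obtain ⟨t, hl⟩ := not_forall.1 hl
  obtain ⟨y, hl⟩ := not_forall.1 hl
  have h := not_not.1 hl
  refine ⟨(t, y, ⟨l - ∑ i : Fin (p - 1), y i • gr v n i t, ?_⟩), ?_⟩
  · intro u hu
    rw [sub_dotProduct, h u hu, sum_dotProduct]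
    simp [smul_dotProduct]
  · simp [f]

/-- the zero set of a regular subspace is countable -/
lemma zeros_countable {v : ℕ → ℝ → ℝ} {T : ℝ} (hv : Wt v T) {n k : ℕ}
    (V : Submodule ℝ (Fin n → ℝ)) (hfr : Module.finrank ℝ V = k) (hS : SimpleV v V k) :
    {t | Zv v V k t}.Countable := by
  obtain ⟨Y, hY⟩ : ∃ Y : ℕ → Fin n → ℝ, Vs Y k = V := by
    let b := Module.finBasisOfFinrankEq ℝ V hfr
    refine ⟨fun i => if h : i < k then (b ⟨i, h⟩ : Fin n → ℝ) else 0, ?_⟩
    unfold Vs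
    rw [image_Iio_eq_range]
    have e : (fun c : Fin k => (fun i => if h : i < k then (b ⟨i, h⟩ : Fin n → ℝ) else 0) (c : ℕ)) =
        (fun c : Fin k => ((b c : V) : Fin n → ℝ)) := by
      funext c; simp
    rw [e]
    have h1 : range (fun c : Fin k => ((b c : V) : Fin n → ℝ)) = V.subtype '' range b := by
      rw [← range_comp]; rfl
    rw [h1, Submodule.span_image, b.span_eq, Submodule.map_top, Submodule.range_subtype]
  subst hY
  have hI : Ind Y k := ind_of_finrank hfr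
  have hsub : {t | Zv v (Vs Y k) k t} ⊆
      {x ∈ {t | Zv v (Vs Y k) k t} | 𝓝[{t | Zv v (Vs Y k) k t} ∩ Ioi x] x = ⊥} := by
    intro x hx
    refine ⟨hx, ?_⟩
    have hd : deriv (DR v (Ym Y k)) x ≠ 0 := (simple_iff hv hI).2 hS x ((DR_eq_zero_iff_Zv v hI x).2 hx)
    have hda : HasDerivAt (DR v (Ym Y k)) (deriv (DR v (Ym Y k)) x) x :=
      (differentiableAt_of_deriv_ne_zero hd).hasDerivAt
    have hev := hda.eventually_ne hd (c := 0)
    rw [← empty_mem_iff_bot]
    rw [eventually_nhdsWithin_iff] at hev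
    rw [mem_nhdsWithin_iff_exists_mem_nhds_inter]
    refine ⟨_, hev, ?_⟩
    rintro y ⟨h1, h2, h3⟩
    exact (h1 (ne_of_gt h3)) ((DR_eq_zero_iff_Zv v hI y).2 h2)
  exact (countable_setOfPred_isolated_right_within).mono hsub

lemma finrank_inf_hyp {n p : ℕ} (V : Submodule ℝ (Fin n → ℝ)) (hfr : Module.finrank ℝ V = p + 1)
    (l : Fin n → ℝ) {u : Fin n → ℝ} (hu : u ∈ V) (hlu : l ⬝ᵥ u ≠ 0) :
    Module.finrank ℝ (V ⊓ hyp l : Submodule ℝ (Fin n → ℝ)) = p := by
  have h1 : (V ⊓ hyp l) < V := by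
    refine lt_of_le_of_ne inf_le_left fun h => ?_
    have : u ∈ V ⊓ hyp l := by rw [h]; exact hu
    exact hlu this.2
  have h2 := Submodule.finrank_lt_finrank_of_lt h1
  have h3 : V ≤ (V ⊓ hyp l) ⊔ Submodule.span ℝ {u} := by
    intro w hw
    have : w = (w - (l ⬝ᵥ w / l ⬝ᵥ u) • u) + (l ⬝ᵥ w / l ⬝ᵥ u) • u := by abel
    rw [this]
    refine Submodule.add_mem_sup ⟨V.sub_mem hw (V.smul_mem _ hu), ?_⟩
      (Submodule.smul_mem _ _ (Submodule.mem_span_singleton_self u))
    rw [SetLike.mem_coe, mem_hyp, dotProduct_sub, dotProduct_smul, smul_eq_mul, div_mul_cancel₀ _ hlu,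
      sub_self]
  have h4 := Submodule.finrank_mono h3
  have h5 := Submodule.finrank_add_le_finrank_add_finrank (V ⊓ hyp l) (Submodule.span ℝ {u})
  have h6 : Module.finrank ℝ (Submodule.span ℝ ({u} : Set (Fin n → ℝ))) = 1 :=
    finrank_span_singleton (fun h => hlu (by rw [h, dotProduct_zero]))
  omega

/-- **generic hyperplane sections**: for almost every `l`, the section `V ∩ ker l` is regular, generic at
infinity and has no common zero with `V` -/
theorem gen {v : ℕ → ℝ → ℝ} {T : ℝ} (hv : Wt v T) {n p : ℕ} (hpn : p + 1 ≤ n)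
    (V : Submodule ℝ (Fin n → ℝ)) (hfr : Module.finrank ℝ V = p + 1) (hT : TopV V (p + 1))
    (hS : SimpleV v V (p + 1)) :
    ∀ᵐ l : Fin n → ℝ, Module.finrank ℝ (V ⊓ hyp l : Submodule ℝ (Fin n → ℝ)) = p ∧
      TopV (V ⊓ hyp l) p ∧ SimpleV v (V ⊓ hyp l) p ∧ NC v (V ⊓ hyp l) V p := by
  classical
  -- (a)
  have ha : ∀ᵐ l : Fin n → ℝ, ∃ u ∈ V, l ⬝ᵥ u ≠ 0 := by
    have hne : V ≠ ⊥ := by
      intro h; rw [h, finrank_bot] at hfr; omega
    obtain ⟨u, hu, hu0⟩ := V.ne_bot_iff.1 hne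
    filter_upwards [ae_dot_ne hu0] with l hl
    exact ⟨u, hu, hl⟩
  -- (b)
  have hb : ∀ᵐ l : Fin n → ℝ, ∀ u ∈ V, u ≠ 0 → (∀ i : Fin n, n - p ≤ (i : ℕ) → u i = 0) →
      l ⬝ᵥ u ≠ 0 := by
    by_cases hex : ∃ u ∈ V, u ≠ 0 ∧ (∀ i : Fin n, n - p ≤ (i : ℕ) → u i = 0)
    · obtain ⟨u0, hu0, hne, h0⟩ := hex
      filter_upwards [ae_dot_ne hne] with l hl u hu hu' h1 hlu
      -- `u` is a multiple of `u0`
      let i0 : Fin n := ⟨n - (p + 1), by omega⟩
      have key : u0 i0 • u - u i0 • u0 = 0 := by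
        by_contra hcon
        obtain ⟨i, hi, hi0⟩ := hT _ (V.sub_mem (V.smul_mem _ hu) (V.smul_mem _ hu0)) hcon
        apply hi0
        rcases eq_or_ne i i0 with h | h
        · subst h; simp [mul_comm]
        · have : n - p ≤ (i : ℕ) := by
            have h3 : (i : ℕ) ≠ n - (p + 1) := fun h4 => h (Fin.ext h4)
            omega
          simp [h0 i this, h1 i this]
      have hui : u i0 ≠ 0 := by
        intro h
        obtain ⟨i, hi, hi0⟩ := hT u hu hu'
        rcases eq_or_ne i i0 with h' | h'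
        · subst h'; exact hi0 h
        · have : n - p ≤ (i : ℕ) := by
            have h3 : (i : ℕ) ≠ n - (p + 1) := fun h4 => h' (Fin.ext h4)
            omega
          exact hi0 (h1 i this)
      have h5 : l ⬝ᵥ (u0 i0 • u - u i0 • u0) = 0 := by rw [key, dotProduct_zero]
      rw [dotProduct_sub, dotProduct_smul, dotProduct_smul, hlu, smul_zero, zero_sub, neg_eq_zero,
        smul_eq_mul, mul_eq_zero] at h5
      rcases h5 with h5 | h5
      · exact hui h5
      · exact hl h5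
    · push Not at hex
      filter_upwards with l u hu hu0 h1
      obtain ⟨i, hi, hi0⟩ := hex u hu hu0
      exact absurd (h1 i hi) hi0
  -- (c)
  have hc : ∀ᵐ l : Fin n → ℝ, ∀ t ∈ {t | Zv v V (p + 1) t}, ∀ u ∈ V, u ≠ 0 →
      (∀ i < p, gr v n i t ⬝ᵥ u = 0) → l ⬝ᵥ u ≠ 0 := by
    rw [ae_ball_iff (zeros_countable hv V hfr hS)]
    intro t ht
    obtain ⟨u0, hu0, hne, h0⟩ := ht
    filter_upwards [ae_dot_ne hne] with l hl u hu hu' h1 hlu
    have key : (gr v n (p + 1) t ⬝ᵥ u0) • u - (gr v n (p + 1) t ⬝ᵥ u) • u0 = 0 := by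
      by_contra hcon
      refine hS t ⟨u0, hu0, hne, h0⟩ ⟨_, V.sub_mem (V.smul_mem _ hu) (V.smul_mem _ hu0), hcon, ?_, ?_⟩
      · intro i hi
        rw [dotProduct_sub, dotProduct_smul, dotProduct_smul, h0 i (by omega), h1 i (by omega)]
        simp
      · rw [dotProduct_sub, dotProduct_smul, dotProduct_smul, smul_eq_mul, smul_eq_mul, mul_comm, sub_self]
    have h2 : gr v n (p + 1) t ⬝ᵥ u ≠ 0 := by
      intro h
      exact hS t ⟨u0, hu0, hne, h0⟩ ⟨u, hu, hu', fun i hi => h1 i (by omega), h⟩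
    have h5 : l ⬝ᵥ ((gr v n (p + 1) t ⬝ᵥ u0) • u - (gr v n (p + 1) t ⬝ᵥ u) • u0) = 0 := by
      rw [key, dotProduct_zero]
    rw [dotProduct_sub, dotProduct_smul, dotProduct_smul, hlu, smul_zero, zero_sub, neg_eq_zero,
      smul_eq_mul, mul_eq_zero] at h5
    rcases h5 with h5 | h5
    · exact h2 h5
    · exact hl h5
  -- (d)
  have hd : ∀ᵐ l : Fin n → ℝ, 0 < p → ∀ (t : ℝ) (y : Fin (p - 1) → ℝ),
      ¬ ∀ u ∈ V, l ⬝ᵥ u = ∑ i : Fin (p - 1), y i * (gr v n i t ⬝ᵥ u) := by
    rcases Nat.eq_zero_or_pos p with h | h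
    · subst h
      filter_upwards with l hl
      exact absurd hl (lt_irrefl 0)
    · filter_upwards [ae_not_comb hv h V hfr] with l hl _
      exact hl
  filter_upwards [ha, hb, hc, hd] with l ha hb hc hd
  obtain ⟨w, hw, hlw⟩ := ha
  have hfrD := finrank_inf_hyp V hfr l hw hlw
  have hNC : NC v (V ⊓ hyp l) V p := by
    rintro t ⟨⟨u, hu, hu0, h1⟩, h2⟩
    exact hc t h2 u hu.1 hu0 h1 hu.2
  refine ⟨hfrD, ?_, ?_, hNC⟩
  · intro u hu hu0
    by_contra hcon
    push Not at hcon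
    exact hb u hu.1 hu0 hcon hu.2
  · intro t hZ hD
    rcases Nat.eq_zero_or_pos p with h | hp
    · subst h
      obtain ⟨u, hu, hu0, -⟩ := hZ
      have : (V ⊓ hyp l) = ⊥ := Submodule.finrank_eq_zero.1 hfrD
      rw [this] at hu
      exact hu0 ((Submodule.mem_bot ℝ).1 hu)
    · have hnZ : ¬ Zv v V (p + 1) t := fun h => hNC t ⟨hZ, h⟩
      -- the rows `0..p` restricted to `V` form a basis of the dual
      let Φ : V →ₗ[ℝ] (Fin (p + 1) → ℝ) :=
        { toFun := fun u i => gr v n i t ⬝ᵥ (u : Fin n → ℝ)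
          map_add' := by intro a b; funext i; simp [dotProduct_add]
          map_smul' := by intro c a; funext i; simp [dotProduct_smul] }
      have hΦ : Function.Injective Φ := by
        rw [← LinearMap.ker_eq_bot, LinearMap.ker_eq_bot']
        intro u hu
        by_contra hne
        refine hnZ ⟨u, u.2, fun h => hne (Subtype.ext h), fun i hi => ?_⟩
        exact congrFun hu ⟨i, hi⟩
      have hsurj : Function.Surjective Φ := by
        have h1 : Module.finrank ℝ V = Module.finrank ℝ (Fin (p + 1) → ℝ) := by simp [hfr]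
        exact (LinearMap.injective_iff_surjective_of_finrank_eq_finrank h1).1 hΦ
      choose e he using fun i : Fin (p + 1) => hsurj (Pi.single i 1)
      have hexp : ∀ u ∈ V, l ⬝ᵥ u = ∑ i : Fin (p + 1), (l ⬝ᵥ (e i : Fin n → ℝ)) * (gr v n i t ⬝ᵥ u) := by
        intro u hu
        have h1 : (⟨u, hu⟩ : V) = ∑ i : Fin (p + 1), (gr v n i t ⬝ᵥ u) • e i := by
          apply hΦ
          rw [map_sum]
          simp only [map_smul, he]
          funext j
          simp [Pi.single_apply, Φ]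
        have h2 : u = ∑ i : Fin (p + 1), (gr v n i t ⬝ᵥ u) • (e i : Fin n → ℝ) := by
          have := congrArg (fun x : V => (x : Fin n → ℝ)) h1
          simpa using this
        conv_lhs => rw [h2]
        rw [dotProduct_sum]
        refine Finset.sum_congr rfl fun i _ => ?_
        rw [dotProduct_smul, smul_eq_mul, mul_comm]
      obtain ⟨u1, hu1, hu10, h1⟩ := hZ
      obtain ⟨u2, hu2, hu20, h2, h2'⟩ := hD
      have g1 : gr v n p t ⬝ᵥ u1 ≠ 0 := by
        intro h
        refine hnZ ⟨u1, hu1.1, hu10, fun i hi => ?_⟩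
        rcases Nat.lt_succ_iff_lt_or_eq.1 hi with h' | h'
        · exact h1 i h'
        · rw [h']; exact h
      have g2 : gr v n (p - 1) t ⬝ᵥ u2 ≠ 0 := by
        intro h
        refine hnZ ⟨u2, hu2.1, hu20, fun i hi => ?_⟩
        rcases Nat.lt_succ_iff_lt_or_eq.1 hi with h' | h'
        · rcases Nat.lt_or_ge (i + 1) p with h'' | h''
          · exact h2 i h''
          · have : i = p - 1 := by omega
            rw [this]; exact h
        · rw [h']; exact h2'
      have c1 : l ⬝ᵥ (e (Fin.last p) : Fin n → ℝ) = 0 := by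
        have h3 := hexp u1 hu1.1
        rw [show l ⬝ᵥ u1 = 0 from hu1.2, Finset.sum_eq_single (Fin.last p)] at h3
        · rcases mul_eq_zero.1 h3.symm with h4 | h4
          · exact h4
          · exact absurd h4 g1
        · intro i _ hi
          rw [h1 i (Fin.val_lt_last hi), mul_zero]
        · simp
      have c2 : l ⬝ᵥ (e ⟨p - 1, by omega⟩ : Fin n → ℝ) = 0 := by
        have h3 := hexp u2 hu2.1
        rw [show l ⬝ᵥ u2 = 0 from hu2.2, Finset.sum_eq_single (⟨p - 1, by omega⟩ : Fin (p + 1))] at h3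
        · rcases mul_eq_zero.1 h3.symm with h4 | h4
          · exact h4
          · exact absurd h4 g2
        · intro i _ hi
          rcases Nat.lt_or_ge ((i : ℕ) + 1) p with h'' | h''
          · rw [h2 i h'', mul_zero]
          · have h5 : (i : ℕ) ≠ p - 1 := fun h => hi (Fin.ext h)
            have h6 : (i : ℕ) = p := by have := i.2; omega
            rw [h6, h2', mul_zero]
        · simp
      refine hd hp t (fun i => l ⬝ᵥ (e ⟨i, by omega⟩ : Fin n → ℝ)) fun u hu => ?_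
      rw [hexp u hu, Fin.sum_univ_castSucc]
      rw [c1, zero_mul, add_zero]
      obtain ⟨q, rfl⟩ : ∃ q, p = q + 1 := ⟨p - 1, by omega⟩
      rw [Fin.sum_univ_castSucc]
      have c2' : l ⬝ᵥ (e (Fin.castSucc (Fin.last q)) : Fin n → ℝ) = 0 := c2
      rw [c2', zero_mul, add_zero]
      rfl

end E2M

end Pool.Agent.GC18
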