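import Pool.Agent.GC18.Stmts
import Pool.Agent.GC18.E2Gen

/-!
# Grassmann convexity (MP_5fea31_an): existence of good flags and independence of the flag (par. 3)  (helper3)
-/

set_option autoImplicit false

namespace Pool.Agent.GC18

open Matrix Filter Topology Set MeasureTheory KV

namespace E2M

lemma Vs_zero {n : ℕ} (Y : ℕ → Fin n → ℝ) : Vs Y 0 = ⊥ := by
  unfold Vs; simp

lemma Vs_succ {n : ℕ} (Y : ℕ → Fin n → ℝ) (j : ℕ) :
    Vs Y (j + 1) = Vs Y j ⊔ Submodule.span ℝ {Y j} := by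
  unfold Vs
  rw [← Submodule.span_union]
  congr 1
  ext u
  simp only [mem_image, mem_Iio, mem_union, mem_singleton_iff]
  constructor
  · rintro ⟨b, hb, rfl⟩
    rcases Nat.lt_succ_iff_lt_or_eq.1 hb with h | h
    · exact Or.inl ⟨b, h, rfl⟩
    · exact Or.inr (by rw [h])
  · rintro (⟨b, hb, rfl⟩ | rfl)
    · exact ⟨b, by omega, rfl⟩
    · exact ⟨j, by omega, rfl⟩

lemma Vs_congr {n : ℕ} {Y Y' : ℕ → Fin n → ℝ} {j : ℕ} (h : ∀ i < j, Y i = Y' i) :
    Vs Y j = Vs Y' j := by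
  unfold Vs
  congr 1
  ext u
  simp only [mem_image, mem_Iio]
  constructor
  · rintro ⟨b, hb, rfl⟩; exact ⟨b, hb, (h b hb).symm⟩
  · rintro ⟨b, hb, rfl⟩; exact ⟨b, hb, h b hb⟩

lemma Vs_mono {n : ℕ} (Y : ℕ → Fin n → ℝ) {i j : ℕ} (h : i ≤ j) : Vs Y i ≤ Vs Y j := by
  unfold Vs
  exact Submodule.span_mono (image_mono (Iio_subset_Iio h))

lemma Vs_update {n : ℕ} (Y : ℕ → Fin n → ℝ) (k : ℕ) (u : Fin n → ℝ) {j : ℕ} (h : j ≤ k) :
    Vs (Function.update Y k u) j = Vs Y j := by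
  apply Vs_congr
  intro i hi
  rw [Function.update_of_ne (by omega)]

lemma Vs_update_succ {n : ℕ} (Y : ℕ → Fin n → ℝ) (k : ℕ) (u : Fin n → ℝ) :
    Vs (Function.update Y k u) (k + 1) = Vs Y k ⊔ Submodule.span ℝ {u} := by
  rw [Vs_succ, Vs_update Y k u le_rfl, Function.update_self]

lemma not_Zv_bot {v : ℕ → ℝ → ℝ} {n : ℕ} {j : ℕ} {t : ℝ} :
    ¬ Zv v (⊥ : Submodule ℝ (Fin n → ℝ)) j t := by
  rintro ⟨u, hu, hu0, -⟩
  exact hu0 ((Submodule.mem_bot ℝ).1 hu)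

lemma good_zero {v : ℕ → ℝ → ℝ} {T : ℝ} (hv : Wt v T) {n : ℕ} (Y : ℕ → Fin n → ℝ) : Good v 0 Y := by
  rw [good_iff hv (Nat.zero_le n)]
  refine ⟨fun j hj => ?_, fun j hj hjk => absurd hjk (Nat.not_lt_zero j), fun t ht => ?_⟩
  · obtain rfl : j = 0 := by omega
    refine ⟨ind_of_finrank (by rw [Vs_zero, finrank_bot]), fun u hu hu0 => ?_⟩
    rw [Vs_zero] at hu
    exact absurd ((Submodule.mem_bot ℝ).1 hu) hu0
  · rw [Vs_zero] at ht
    exact absurd ht not_Zv_bot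

/-- adding one more vector to a good flag -/
lemma good_extend {v : ℕ → ℝ → ℝ} {T : ℝ} (hv : Wt v T) {n k : ℕ} (hk : k + 1 ≤ n)
    {Y : ℕ → Fin n → ℝ} (hY : ∀ j ≤ k, Ind Y j ∧ TopV (Vs Y j) j)
    (hYn : ∀ j, 0 < j → j < k → NC v (Vs Y j) (Vs Y (j + 1)) j)
    {V : Submodule ℝ (Fin n → ℝ)} (hfr : Module.finrank ℝ V = k + 1) (hle : Vs Y k ≤ V)
    (hT : TopV V (k + 1)) (hS : SimpleV v V (k + 1)) (hN : NC v (Vs Y k) V k)
    {u : Fin n → ℝ} (hu : u ∈ V) (hu' : u ∉ Vs Y k) :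
    Good v (k + 1) (Function.update Y k u) ∧ Vs (Function.update Y k u) (k + 1) = V := by
  have h1 : Vs (Function.update Y k u) (k + 1) = V := by
    rw [Vs_update_succ]
    have hle' : Vs Y k ⊔ Submodule.span ℝ {u} ≤ V :=
      sup_le hle ((Submodule.span_singleton_le_iff_mem u V).2 hu)
    have hlt : Vs Y k < Vs Y k ⊔ Submodule.span ℝ {u} := by
      refine lt_of_le_of_ne le_sup_left fun h => hu' ?_
      rw [h]
      exact Submodule.mem_sup_right (Submodule.mem_span_singleton_self u)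
    have h2 := Submodule.finrank_lt_finrank_of_lt hlt
    rw [(hY k le_rfl).1.finrank] at h2
    exact Submodule.eq_of_le_of_finrank_le hle' (by omega)
  refine ⟨?_, h1⟩
  rw [good_iff hv hk]
  refine ⟨fun j hj => ?_, fun j hj hjk => ?_, ?_⟩
  · rcases Nat.le_succ_iff.1 hj with h | h
    · rw [ind_iff_finrank, Vs_update Y k u h, ← ind_iff_finrank]
      exact hY j h
    · subst h
      rw [ind_iff_finrank, h1]
      exact ⟨hfr, hT⟩
  · rcases Nat.lt_succ_iff_lt_or_eq.1 hjk with h | h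
    · rw [Vs_update Y k u h.le, Vs_update Y k u h]
      exact hYn j hj h
    · subst h
      rw [Vs_update Y j u le_rfl, h1]
      exact hN
  · rw [h1]; exact hS

/-- existence of good flags, subspace version -/
theorem exists_flag {v : ℕ → ℝ → ℝ} {T : ℝ} (hv : Wt v T) {n : ℕ} (k : ℕ) (hk : k ≤ n)
    (V : Submodule ℝ (Fin n → ℝ)) (hfr : Module.finrank ℝ V = k) (hT : TopV V k)
    (hS : SimpleV v V k) : ∃ Y : ℕ → Fin n → ℝ, Good v k Y ∧ Vs Y k = V := by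
  induction k generalizing V with
  | zero => exact ⟨0, good_zero hv 0, by rw [Vs_zero, Submodule.finrank_eq_zero.1 hfr]⟩
  | succ k ih =>
    obtain ⟨l, hl1, hl2, hl3, hl4⟩ := (gen hv hk V hfr hT hS).exists
    obtain ⟨Y, hY, hYD⟩ := ih (by omega) (V ⊓ hyp l) hl1 hl2 hl3
    have hY' := (good_iff hv (show k ≤ n by omega) Y).1 hY
    have hfY : Module.finrank ℝ (Vs Y k) = k := by rw [hYD]; exact hl1
    have hlt : Vs Y k < V := by
      refine lt_of_le_of_ne (by rw [hYD]; exact inf_le_left) fun h => ?_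
      rw [h, hfr] at hfY
      omega
    obtain ⟨u, hu, hu'⟩ := SetLike.exists_of_lt hlt
    exact ⟨_, good_extend hv hk hY'.1 hY'.2.1 hfr hlt.le hT hS (by rw [hYD]; exact hl4) hu hu'⟩

/-- all zeros of all `W_j` of a good flag are simple; truncation of a good flag -/
lemma good_sub {v : ℕ → ℝ → ℝ} {T : ℝ} (hv : Wt v T) {n q : ℕ} (hk : q + 2 ≤ n)
    {Y : ℕ → Fin n → ℝ} (hY : Good v (q + 2) Y) : Good v (q + 1) Y := by
  have h := (good_iff hv hk Y).1 hY
  rw [good_iff hv (show q + 1 ≤ n by omega)]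
  refine ⟨fun j hj => h.1 j (by omega), fun j hj hjk => h.2.1 j hj (by omega), ?_⟩
  intro t hZ hD
  have hN1 : ¬ Zv v (Vs Y q) q t := by
    rcases Nat.eq_zero_or_pos q with h0 | h0
    · subst h0; rw [Vs_zero]; exact not_Zv_bot
    · intro h3; exact h.2.1 q h0 (by omega) t ⟨h3, hZ⟩
  have hN2 : ¬ Zv v (Vs Y (q + 2)) (q + 2) t := fun h3 => h.2.1 (q + 1) (by omega) (by omega) t ⟨hZ, h3⟩
  obtain ⟨u, hu, hu0, h1⟩ := hZ
  obtain ⟨u', hu', hu'0, h2, h2'⟩ := hD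
  rw [Vs_succ, Submodule.mem_sup] at hu hu'
  obtain ⟨a, ha, b, hb, hab⟩ := hu
  obtain ⟨a', ha', b', hb', hab'⟩ := hu'
  obtain ⟨α, rfl⟩ := Submodule.mem_span_singleton.1 hb
  obtain ⟨α', rfl⟩ := Submodule.mem_span_singleton.1 hb'
  have key : α' • u - α • u' = 0 := by
    by_contra hcon
    refine hN1 ⟨α' • u - α • u', ?_, hcon, fun i hi => ?_⟩
    · have : α' • u - α • u' = α' • a - α • a' := by
        rw [← hab, ← hab', smul_add, smul_add, smul_comm α' α]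
        abel
      rw [this]
      exact (Vs Y q).sub_mem ((Vs Y q).smul_mem _ ha) ((Vs Y q).smul_mem _ ha')
    · rw [dotProduct_sub, dotProduct_smul, dotProduct_smul, h1 i (by omega), h2 i (by omega)]
      simp
  have hα' : α' ≠ 0 := by
    intro h0
    refine hN1 ⟨u', ?_, hu'0, fun i hi => h2 i (by omega)⟩
    rw [← hab', h0, zero_smul, add_zero]
    exact ha'
  have h3 : gr v n (q + 1) t ⬝ᵥ u = 0 := by
    have h4 : gr v n (q + 1) t ⬝ᵥ (α' • u - α • u') = 0 := by rw [key, dotProduct_zero]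
    rw [dotProduct_sub, dotProduct_smul, dotProduct_smul, h2', smul_zero, sub_zero, smul_eq_mul,
      mul_eq_zero] at h4
    exact h4.resolve_left hα'
  refine hN2 ⟨u, ?_, hu0, fun i hi => ?_⟩
  · have : u ∈ Vs Y (q + 1) := by
      rw [← hab, Vs_succ]
      exact Submodule.add_mem_sup ha hb
    exact Vs_mono Y (by omega) this
  · rcases Nat.lt_succ_iff_lt_or_eq.1 hi with h' | h'
    · exact h1 i h'
    · rw [h']; exact h3

lemma epsF_succ (v : ℕ → ℝ → ℝ) {n q : ℕ} (Y : ℕ → Fin n → ℝ) :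
    epsF v (q + 2) Y = epsF v (q + 1) Y * (-1) ^ (inv (Zs v Y (q + 1)) (Zs v Y (q + 2))) := by
  unfold epsF
  rw [← pow_add]
  congr 1
  have : Finset.Ioo 0 (q + 2) = insert (q + 1) (Finset.Ioo 0 (q + 1)) := by
    ext x; simp only [Finset.mem_Ioo, Finset.mem_insert]; omega
  rw [this, Finset.sum_insert (by simp), add_comm]

/-- the induction hypothesis -/
def IH (v : ℕ → ℝ → ℝ) (n k : ℕ) : Prop := ∀ Y Y' : ℕ → Fin n → ℝ, Good v k Y → Good v k Y' →
    Vs Y k = Vs Y' k → epsF v k Y = epsF v k Y'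

lemma step_eq {v : ℕ → ℝ → ℝ} {T : ℝ} (hv : Wt v T) {n q : ℕ} (hk : q + 2 ≤ n)
    (ih : IH v n (q + 1)) {Y Y' : ℕ → Fin n → ℝ} (hY : Good v (q + 2) Y) (hY' : Good v (q + 2) Y')
    (h1 : Vs Y (q + 1) = Vs Y' (q + 1)) (h2 : Vs Y (q + 2) = Vs Y' (q + 2)) :
    epsF v (q + 2) Y = epsF v (q + 2) Y' := by
  have i1 := ((good_iff hv hk Y).1 hY).1
  have i2 := ((good_iff hv hk Y').1 hY').1
  rw [epsF_succ, epsF_succ, ih Y Y' (good_sub hv hk hY) (good_sub hv hk hY') h1,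
    Zs_eq v (i1 (q + 1) (by omega)).1, Zs_eq v (i1 (q + 2) le_rfl).1,
    Zs_eq v (i2 (q + 1) (by omega)).1, Zs_eq v (i2 (q + 2) le_rfl).1, h1, h2]

/-- the key step: replace `V_{q+1} = A` by a generic hyperplane `D = V ∩ ker l` -/
lemma key_step (hE1 : S_E1) {v : ℕ → ℝ → ℝ} {T : ℝ} (hv : Wt v T) {n q : ℕ} (hk : q + 2 ≤ n)
    (ih : IH v n (q + 1)) {Y : ℕ → Fin n → ℝ} (hY : Good v (q + 2) Y) (l : Fin n → ℝ)
    (hD1 : Module.finrank ℝ (Vs Y (q + 2) ⊓ hyp l : Submodule ℝ (Fin n → ℝ)) = q + 1)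
    (hD2 : TopV (Vs Y (q + 2) ⊓ hyp l) (q + 1)) (hD3 : SimpleV v (Vs Y (q + 2) ⊓ hyp l) (q + 1))
    (hD4 : NC v (Vs Y (q + 2) ⊓ hyp l) (Vs Y (q + 2)) (q + 1))
    (hC1 : Module.finrank ℝ (Vs Y (q + 1) ⊓ hyp l : Submodule ℝ (Fin n → ℝ)) = q)
    (hC2 : TopV (Vs Y (q + 1) ⊓ hyp l) q) (hC3 : SimpleV v (Vs Y (q + 1) ⊓ hyp l) q)
    (hC4 : NC v (Vs Y (q + 1) ⊓ hyp l) (Vs Y (q + 1)) q) :
    ∃ Z : ℕ → Fin n → ℝ, Good v (q + 2) Z ∧ Vs Z (q + 1) = Vs Y (q + 2) ⊓ hyp l ∧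
      Vs Z (q + 2) = Vs Y (q + 2) ∧ epsF v (q + 2) Z = epsF v (q + 2) Y := by
  set V := Vs Y (q + 2) with hVdef
  set A := Vs Y (q + 1) with hAdef
  set D := V ⊓ hyp l with hDdef
  set C := A ⊓ hyp l with hCdef
  have gY := (good_iff hv hk Y).1 hY
  have gY1 := (good_iff hv (show q + 1 ≤ n by omega) Y).1 (good_sub hv hk hY)
  have hAV : A ≤ V := Vs_mono Y (by omega)
  have hCD : C ≤ D := inf_le_inf_right _ hAV
  have hfA : Module.finrank ℝ A = q + 1 := (gY.1 (q + 1) (by omega)).1.finrank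
  have hfV : Module.finrank ℝ V = q + 2 := (gY.1 (q + 2) le_rfl).1.finrank
  obtain ⟨c, hc, hcC⟩ := exists_flag hv q (by omega) C hC1 hC2 hC3
  have gc := (good_iff hv (show q ≤ n by omega) c).1 hc
  -- vectors
  have hfc : Module.finrank ℝ (Vs c q) = q := by rw [hcC]; exact hC1
  have hlt1 : Vs c q < A := by
    refine lt_of_le_of_ne (by rw [hcC]; exact inf_le_left) fun h => ?_
    rw [h, hfA] at hfc
    omega
  obtain ⟨a, ha, ha'⟩ := SetLike.exists_of_lt hlt1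
  have hlt2 : Vs c q < D := by
    refine lt_of_le_of_ne (by rw [hcC]; exact hCD) fun h => ?_
    rw [h, hD1] at hfc
    omega
  obtain ⟨d, hd, hd'⟩ := SetLike.exists_of_lt hlt2
  have hdA : d ∉ A := by
    intro h; apply hd'; rw [hcC]; exact ⟨h, hd.2⟩
  have haD : a ∉ D := by
    intro h; apply ha'; rw [hcC]; exact ⟨ha, h.2⟩
  -- `W_C` and `W_D` have no common zero
  have hNCD : NC v C D q := by
    rintro t ⟨⟨u, hu, hu0, h1⟩, ⟨w, hw, hw0, h2⟩⟩
    have hnA : ¬ Zv v A (q + 1) t := fun h => hC4 t ⟨⟨u, hu, hu0, h1⟩, h⟩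
    have hnD : ¬ Dv v D (q + 1) t := hD3 t ⟨w, hw, hw0, h2⟩
    have hgu : gr v n (q + 1) t ⬝ᵥ u ≠ 0 := by
      intro h
      exact hnD ⟨u, hCD hu, hu0, fun i hi => h1 i (by omega), h⟩
    have key : (gr v n (q + 1) t ⬝ᵥ u) • w - (gr v n (q + 1) t ⬝ᵥ w) • u = 0 := by
      by_contra hcon
      refine hnD ⟨_, D.sub_mem (D.smul_mem _ hw) (D.smul_mem _ (hCD hu)), hcon, fun i hi => ?_, ?_⟩
      · rw [dotProduct_sub, dotProduct_smul, dotProduct_smul, h1 i (by omega), h2 i (by omega)]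
        simp
      · rw [dotProduct_sub, dotProduct_smul, dotProduct_smul, smul_eq_mul, smul_eq_mul, mul_comm,
          sub_self]
    have hgw : gr v n (q + 1) t ⬝ᵥ w ≠ 0 := by
      intro h
      rw [h, zero_smul, sub_zero, smul_eq_zero] at key
      exact key.elim hgu hw0
    refine hnA ⟨u, hu.1, hu0, fun i hi => ?_⟩
    rcases Nat.lt_succ_iff_lt_or_eq.1 hi with h' | h'
    · exact h1 i h'
    · subst h'
      have h4 : gr v n i t ⬝ᵥ ((gr v n (i + 1) t ⬝ᵥ u) • w - (gr v n (i + 1) t ⬝ᵥ w) • u) = 0 := by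
        rw [key, dotProduct_zero]
      rw [dotProduct_sub, dotProduct_smul, dotProduct_smul, h2 i (by omega), smul_zero, zero_sub,
        neg_eq_zero, smul_eq_mul, mul_eq_zero] at h4
      exact h4.resolve_left hgw
  -- the flag `(.., C, A, V)`
  obtain ⟨g1, e1⟩ := good_extend hv (show q + 1 ≤ n by omega) gc.1 gc.2.1 hfA hlt1.le
    (gY.1 (q + 1) (by omega)).2 gY1.2.2 (by rw [hcC]; exact hC4) ha ha'
  have gg1 := (good_iff hv (show q + 1 ≤ n by omega) _).1 g1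
  obtain ⟨g2, e2⟩ := good_extend hv hk gg1.1 gg1.2.1 hfV (by rw [e1]; exact hAV)
    (gY.1 (q + 2) le_rfl).2 gY.2.2 (by rw [e1]; exact gY.2.1 (q + 1) (by omega) (by omega)) hd.1
    (by rw [e1]; exact hdA)
  -- the flag `(.., C, D, V)`
  obtain ⟨g3, e3⟩ := good_extend hv (show q + 1 ≤ n by omega) gc.1 gc.2.1 hD1 hlt2.le
    hD2 hD3 (by rw [hcC]; exact hNCD) hd hd'
  have gg3 := (good_iff hv (show q + 1 ≤ n by omega) _).1 g3
  obtain ⟨g4, e4⟩ := good_extend hv hk gg3.1 gg3.2.1 hfV (by rw [e3]; exact inf_le_left)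
    (gY.1 (q + 2) le_rfl).2 gY.2.2 (by rw [e3]; exact hD4) (hAV ha) (by rw [e3]; exact haD)
  set X := Function.update (Function.update c q a) (q + 1) d with hX
  set Z := Function.update (Function.update c q d) (q + 1) a with hZ
  have hXZ : X ∘ Equiv.swap (q + 1 - 1) (q + 1) = Z := by
    funext i
    simp only [Nat.add_sub_cancel, Function.comp_apply]
    rcases eq_or_ne i q with h | h
    · subst h
      rw [Equiv.swap_apply_left, hX, hZ, Function.update_self, Function.update_of_ne (by omega),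
        Function.update_self]
    · rcases eq_or_ne i (q + 1) with h' | h'
      · subst h'
        rw [Equiv.swap_apply_right, hX, hZ, Function.update_self, Function.update_of_ne (by omega),
          Function.update_self]
      · rw [Equiv.swap_apply_of_ne_of_ne h h', hX, hZ, Function.update_of_ne h',
          Function.update_of_ne h', Function.update_of_ne h, Function.update_of_ne h]
  have hE := hE1 v T hv n (q + 2) hk X g2 (q + 1) (by omega) (by omega) (by rw [hXZ]; exact g4)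
  rw [hXZ] at hE
  refine ⟨Z, g4, ?_, e4, ?_⟩
  · rw [hZ, Vs_update _ _ _ le_rfl, e3]
  · rw [hE]
    refine step_eq hv hk ih g2 hY ?_ ?_
    · rw [hX, Vs_update _ _ _ le_rfl, e1]
    · rw [e2]

theorem E2_aux (hE1 : S_E1) {v : ℕ → ℝ → ℝ} {T : ℝ} (hv : Wt v T) {n : ℕ} (k : ℕ) (hk : k ≤ n) :
    IH v n k := by
  induction k with
  | zero => intro Y Y' _ _ _; simp [epsF]
  | succ k ih =>
    rcases Nat.eq_zero_or_pos k with h | h
    · subst h
      intro Y Y' _ _ _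
      have : Finset.Ioo 0 (0 + 1) = ∅ := by
        ext x; simp only [Finset.mem_Ioo, Finset.notMem_empty, iff_false]; omega
      simp only [epsF, this, Finset.sum_empty]
    · obtain ⟨q, rfl⟩ : ∃ q, k = q + 1 := ⟨k - 1, by omega⟩
      have ih' := ih (by omega)
      intro Y Y' hY hY' hVV
      have gY := (good_iff hv hk Y).1 hY
      have gY' := (good_iff hv hk Y').1 hY'
      have gY1 := (good_iff hv (show q + 1 ≤ n by omega) Y).1 (good_sub hv hk hY)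
      have gY1' := (good_iff hv (show q + 1 ≤ n by omega) Y').1 (good_sub hv hk hY')
      have a1 := gen hv hk (Vs Y (q + 2)) (gY.1 (q + 2) le_rfl).1.finrank (gY.1 (q + 2) le_rfl).2 gY.2.2
      have a2 := gen hv (show q + 1 ≤ n by omega) (Vs Y (q + 1)) (gY.1 (q + 1) (by omega)).1.finrank
        (gY.1 (q + 1) (by omega)).2 gY1.2.2
      have a3 := gen hv (show q + 1 ≤ n by omega) (Vs Y' (q + 1)) (gY'.1 (q + 1) (by omega)).1.finrank
        (gY'.1 (q + 1) (by omega)).2 gY1'.2.2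
      obtain ⟨l, ⟨b1, b2, b3, b4⟩, ⟨c1, c2, c3, c4⟩, ⟨d1, d2, d3, d4⟩⟩ := (a1.and (a2.and a3)).exists
      obtain ⟨Z, gZ, z1, z2, z3⟩ := key_step hE1 hv hk ih' hY l b1 b2 b3 b4 c1 c2 c3 c4
      rw [hVV] at b1 b2 b3 b4
      obtain ⟨Z', gZ', z1', z2', z3'⟩ := key_step hE1 hv hk ih' hY' l b1 b2 b3 b4 d1 d2 d3 d4
      rw [← z3, ← z3']
      refine step_eq hv hk ih' gZ gZ' ?_ ?_
      · rw [z1, z1', hVV]
      · rw [z2, z2', hVV]

end E2M

open E2M

theorem ExGood : S_ExGood := by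
  intro v T hv n k hk Y hY hs
  obtain ⟨hI, hT⟩ := (not_vanInf_Ym_iff hk Y).1 hY
  obtain ⟨Y', h1, h2⟩ := exists_flag hv k hk (Vs Y k) hI.finrank hT ((simple_iff hv hI).1 hs)
  exact ⟨Y', h1, h2⟩

theorem E2 (hE1 : S_E1) : S_E2 := by
  intro v T hv n k hk Y Y' hY hY' hspan
  exact E2_aux hE1 hv k hk Y' Y hY' hY hspan

end Pool.Agent.GC18
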