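import Pool.Agent.GC18.E1

/-!
# Grassmann convexity (MP_5fea31_an): module E3, local constancy of the sign of a flag   (helper77)
-/

set_option autoImplicit false

namespace Pool.Agent.GC18

open Matrix Filter Topology Set

namespace E3

/-! ## abstract part -/

/-- one simple zero persists -/
lemma local_one {P : Type*} [TopologicalSpace P] {F D : P → ℝ → ℝ} {p0 : P} {L : Filter P}
    (hL : L ≤ 𝓝 p0) (hF : Continuous fun q : P × ℝ => F q.1 q.2)
    (hD : Continuous fun q : P × ℝ => D q.1 q.2)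
    (hd : ∀ᶠ p in L, ∀ t, HasDerivAt (F p) (D p t) t) (hd0 : ∀ t, HasDerivAt (F p0) (D p0 t) t)
    {z : ℝ} (hz : F p0 z = 0) (hDz : D p0 z ≠ 0) :
    ∀ᶠ δ in 𝓝[>] (0 : ℝ), ∀ᶠ p in L, (∃ x ∈ Icc (z - δ) (z + δ), F p x = 0) ∧
      (∀ x ∈ Icc (z - δ) (z + δ), ∀ y ∈ Icc (z - δ) (z + δ), F p x = 0 → F p y = 0 → x = y) ∧
      ∀ x ∈ Icc (z - δ) (z + δ), D p x ≠ 0 := by
  set c := D p0 z with hc
  have h1 : ∀ᶠ q : P × ℝ in 𝓝 (p0, z), 0 < c * D q.1 q.2 := by
    have h2 : Tendsto (fun q : P × ℝ => c * D q.1 q.2) (𝓝 (p0, z)) (𝓝 (c * D p0 z)) :=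
      (continuous_const.mul hD).tendsto (p0, z)
    refine h2.eventually_const_lt ?_
    rw [← hc]
    exact mul_self_pos.2 hDz
  rw [nhds_prod_eq, eventually_prod_iff] at h1
  obtain ⟨pa, hpa, pb, hpb, hab⟩ := h1
  rw [Metric.eventually_nhds_iff] at hpb
  obtain ⟨ε, hε, hpb⟩ := hpb
  have h0 : ∀ᶠ δ : ℝ in 𝓝[>] (0 : ℝ), δ < ε ∧ 0 < δ := by
    filter_upwards [self_mem_nhdsWithin, mem_nhdsWithin_of_mem_nhds (Iio_mem_nhds hε)] with δ h1 h2
    exact ⟨h2, h1⟩
  filter_upwards [h0] with δ hδ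
  obtain ⟨hδε, hδ0⟩ := hδ
  have hpos : ∀ p, pa p → ∀ x ∈ Icc (z - δ) (z + δ), 0 < c * D p x := by
    intro p hp x hx
    refine hab hp (hpb ?_)
    rw [Real.dist_eq, abs_lt]
    constructor
    · linarith [hx.1]
    · linarith [hx.2]
  have hmono : ∀ p, pa p → (∀ t, HasDerivAt (F p) (D p t) t) →
      StrictMonoOn (fun t => c * F p t) (Icc (z - δ) (z + δ)) := by
    intro p hp hdp
    refine strictMonoOn_of_deriv_pos (convex_Icc _ _) ?_ ?_
    · exact (continuous_const.mul (continuous_iff_continuousAt.2 fun t => (hdp t).continuousAt)).continuousOn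
    · intro x hx
      rw [interior_Icc] at hx
      rw [((hdp x).const_mul c).deriv]
      exact hpos p hp x ⟨hx.1.le, hx.2.le⟩
  have hp0 : pa p0 := hpa.self_of_nhds
  have hm0 := hmono p0 hp0 hd0
  have hl : c * F p0 (z - δ) < 0 := by
    have := hm0 (show z - δ ∈ Icc (z - δ) (z + δ) from ⟨le_rfl, by linarith⟩)
      (show z ∈ Icc (z - δ) (z + δ) from ⟨by linarith, by linarith⟩) (by linarith)
    simpa only [hz, mul_zero] using this
  have hr : 0 < c * F p0 (z + δ) := by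
    have := hm0 (show z ∈ Icc (z - δ) (z + δ) from ⟨by linarith, by linarith⟩)
      (show z + δ ∈ Icc (z - δ) (z + δ) from ⟨by linarith, le_rfl⟩) (by linarith)
    simpa only [hz, mul_zero] using this
  have hcont : ∀ t, Continuous fun p => c * F p t := fun t =>
    continuous_const.mul (hF.comp (continuous_id.prodMk continuous_const))
  have hl' : ∀ᶠ p in L, c * F p (z - δ) < 0 :=
    hL (((hcont (z - δ)).tendsto p0).eventually_lt_const hl)
  have hr' : ∀ᶠ p in L, 0 < c * F p (z + δ) :=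
    hL (((hcont (z + δ)).tendsto p0).eventually_const_lt hr)
  filter_upwards [hl', hr', hL hpa, hd] with p hlp hrp hpap hdp
  have hm := hmono p hpap hdp
  refine ⟨?_, ?_, ?_⟩
  · have hco : ContinuousOn (fun t => c * F p t) (Icc (z - δ) (z + δ)) :=
      (continuous_const.mul (continuous_iff_continuousAt.2 fun t => (hdp t).continuousAt)).continuousOn
    obtain ⟨x, hx, hx0⟩ := intermediate_value_Icc (show z - δ ≤ z + δ by linarith) hco
      (show (0 : ℝ) ∈ Icc (c * F p (z - δ)) (c * F p (z + δ)) from ⟨hlp.le, hrp.le⟩)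
    refine ⟨x, hx, ?_⟩
    have : c * F p x = 0 := hx0
    exact (mul_eq_zero.1 this).resolve_left hDz
  · intro x hx y hy hx0 hy0
    apply hm.injOn hx hy
    simp only [hx0, hy0]
  · intro x hx h0
    have := hpos p hpap x hx
    rw [h0, mul_zero] at this
    exact lt_irrefl _ this

/-- the abstract stability statement -/
theorem stable {P : Type*} [TopologicalSpace P] (k : ℕ) (F D : ℕ → P → ℝ → ℝ) (p0 : P)
    (L : Filter P) (hL : L ≤ 𝓝 p0)
    (hF : ∀ j < k, Continuous fun q : P × ℝ => F j q.1 q.2)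
    (hD : ∀ j < k, Continuous fun q : P × ℝ => D j q.1 q.2)
    (hd : ∀ j < k, ∀ᶠ p in L, ∀ t, HasDerivAt (F j p) (D j p t) t)
    (hd0 : ∀ j < k, ∀ t, HasDerivAt (F j p0) (D j p0 t) t)
    (Z : ℕ → Finset ℝ) (hZ : ∀ j < k, ∀ t, F j p0 t = 0 ↔ t ∈ Z j)
    (hs : ∀ j < k, ∀ t ∈ Z j, D j p0 t ≠ 0)
    (hR : ∀ j < k, ∃ R : ℝ, ∀ᶠ p in L, ∀ t, R ≤ |t| → F j p t ≠ 0) :
    ∃ ρ : ℝ → ℝ, ∀ᶠ p in L, (∀ j < k, BijOn ρ {t | F j p t = 0} (Z j)) ∧
      (∀ j < k, ∀ t, F j p t = 0 → D j p t ≠ 0) ∧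
      ∀ i < k, ∀ j < k, ∀ x y, F i p x = 0 → F j p y = 0 → ρ x < ρ y → x < y := by
  classical
  set U : Finset ℝ := (Finset.range k).biUnion Z with hU
  have hZU : ∀ j < k, ∀ z ∈ Z j, z ∈ U := fun j hj z hz =>
    Finset.mem_biUnion.2 ⟨j, Finset.mem_range.2 hj, hz⟩
  -- choice of δ
  have hδ1 : ∀ᶠ δ in 𝓝[>] (0 : ℝ), ∀ z ∈ U, ∀ z' ∈ U, z ≠ z' → 2 * δ < |z - z'| := by
    rw [eventually_all_finset]
    intro z hz
    rw [eventually_all_finset]
    intro z' hz'
    by_cases h : z = z'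
    · exact Eventually.of_forall fun δ hne => absurd h hne
    · have h1 : 0 < |z - z'| := abs_pos.2 (sub_ne_zero.2 h)
      have h2 : Tendsto (fun δ : ℝ => 2 * δ) (𝓝[>] (0 : ℝ)) (𝓝 (2 * 0)) :=
        ((continuous_const.mul continuous_id).tendsto 0).mono_left nhdsWithin_le_nhds
      rw [mul_zero] at h2
      exact (h2.eventually_lt_const h1).mono fun δ h3 _ => h3
  have hδ2 : ∀ᶠ δ in 𝓝[>] (0 : ℝ), ∀ j ∈ Finset.range k, ∀ z ∈ Z j, ∀ᶠ p in L,
      (∃ x ∈ Icc (z - δ) (z + δ), F j p x = 0) ∧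
      (∀ x ∈ Icc (z - δ) (z + δ), ∀ y ∈ Icc (z - δ) (z + δ), F j p x = 0 → F j p y = 0 → x = y) ∧
      ∀ x ∈ Icc (z - δ) (z + δ), D j p x ≠ 0 := by
    rw [eventually_all_finset]
    intro j hj
    rw [Finset.mem_range] at hj
    rw [eventually_all_finset]
    intro z hz
    exact local_one hL (hF j hj) (hD j hj) (hd j hj) (hd0 j hj) ((hZ j hj z).2 hz) (hs j hj z hz)
  have hδ3 : ∀ᶠ δ in 𝓝[>] (0 : ℝ), 0 < δ := self_mem_nhdsWithin
  obtain ⟨δ, ⟨hsep, hloc⟩, hδ0⟩ := ((hδ1.and hδ2).and hδ3).exists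
  have hloc' : ∀ᶠ p in L, ∀ j ∈ Finset.range k, ∀ z ∈ Z j, 
      (∃ x ∈ Icc (z - δ) (z + δ), F j p x = 0) ∧
      (∀ x ∈ Icc (z - δ) (z + δ), ∀ y ∈ Icc (z - δ) (z + δ), F j p x = 0 → F j p y = 0 → x = y) ∧
      ∀ x ∈ Icc (z - δ) (z + δ), D j p x ≠ 0 := by
    rw [eventually_all_finset]
    intro j hj
    rw [eventually_all_finset]
    intro z hz
    exact hloc j hj z hz
  -- no zero elsewhere
  have hout : ∀ᶠ p in L, ∀ j ∈ Finset.range k, ∀ t, F j p t = 0 → ∃ z ∈ Z j, t ∈ Icc (z - δ) (z + δ) := by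
    rw [eventually_all_finset]
    intro j hj
    rw [Finset.mem_range] at hj
    obtain ⟨R, hR⟩ := hR j hj
    have hK : IsCompact (Icc (-R) R \ ⋃ z ∈ Z j, Ioo (z - δ) (z + δ)) :=
      isCompact_Icc.diff (isOpen_biUnion fun z _ => isOpen_Ioo)
    have h1 : ∀ᶠ p in 𝓝 p0, ∀ t ∈ Icc (-R) R \ ⋃ z ∈ Z j, Ioo (z - δ) (z + δ), F j p t ≠ 0 := by
      refine hK.eventually_forall_of_forall_eventually fun t ht => ?_
      have h2 : F j p0 t ≠ 0 := by
        intro h0
        apply ht.2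
        have h3 := (hZ j hj t).1 h0
        exact mem_biUnion h3 ⟨by linarith, by linarith⟩
      exact ((hF j hj).tendsto (p0, t)).eventually_ne h2
    filter_upwards [hR, hL h1] with p hRp hp t ht
    by_contra hcon
    push Not at hcon
    refine hp t ⟨?_, ?_⟩ ht
    · have h2 : |t| < R := by
        by_contra h3
        exact hRp t (not_lt.1 h3) ht
      exact ⟨by linarith [(abs_lt.1 h2).1], (abs_lt.1 h2).2.le⟩
    · intro hmem
      rw [mem_iUnion₂] at hmem
      obtain ⟨z, hz, hzt⟩ := hmem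
      exact hcon z hz ⟨hzt.1.le, hzt.2.le⟩
  -- the map ρ
  let ρ : ℝ → ℝ := fun t => if h : ∃ z ∈ U, t ∈ Icc (z - δ) (z + δ) then h.choose else 0
  have hρ : ∀ z ∈ U, ∀ t ∈ Icc (z - δ) (z + δ), ρ t = z := by
    intro z hz t ht
    have h : ∃ z ∈ U, t ∈ Icc (z - δ) (z + δ) := ⟨z, hz, ht⟩
    have h1 : ρ t = h.choose := by
      simp only [ρ]
      rw [dif_pos h]
    rw [h1]
    have h2 := h.choose_spec
    by_contra hne
    have h3 := hsep _ h2.1 z hz hne
    have h4 : |h.choose - z| ≤ 2 * δ := by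
      rw [abs_le]
      constructor
      · linarith [h2.2.1, h2.2.2, ht.1, ht.2]
      · linarith [h2.2.1, h2.2.2, ht.1, ht.2]
    linarith
  refine ⟨ρ, ?_⟩
  filter_upwards [hloc', hout] with p hlp hop
  refine ⟨fun j hj => ⟨?_, ?_, ?_⟩, ?_, ?_⟩
  · intro t ht
    obtain ⟨z, hz, hzt⟩ := hop j (Finset.mem_range.2 hj) t ht
    rw [hρ z (hZU j hj z hz) t hzt]
    exact hz
  · intro x hx y hy hxy
    obtain ⟨z, hz, hzx⟩ := hop j (Finset.mem_range.2 hj) x hx
    obtain ⟨z', hz', hzy⟩ := hop j (Finset.mem_range.2 hj) y hy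
    rw [hρ z (hZU j hj z hz) x hzx, hρ z' (hZU j hj z' hz') y hzy] at hxy
    subst hxy
    exact (hlp j (Finset.mem_range.2 hj) z hz).2.1 x hzx y hzy hx hy
  · intro z hz
    have hz' : z ∈ Z j := hz
    obtain ⟨x, hx, hx0⟩ := (hlp j (Finset.mem_range.2 hj) z hz').1
    exact ⟨x, hx0, hρ z (hZU j hj z hz') x hx⟩
  · intro j hj t ht
    obtain ⟨z, hz, hzt⟩ := hop j (Finset.mem_range.2 hj) t ht
    exact (hlp j (Finset.mem_range.2 hj) z hz).2.2 t hzt
  · intro i hi j hj x y hx hy hxy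
    obtain ⟨z, hz, hzx⟩ := hop i (Finset.mem_range.2 hi) x hx
    obtain ⟨z', hz', hzy⟩ := hop j (Finset.mem_range.2 hj) y hy
    rw [hρ z (hZU i hi z hz) x hzx, hρ z' (hZU j hj z' hz') y hzy] at hxy
    have h3 := hsep _ (hZU i hi z hz) z' (hZU j hj z' hz') hxy.ne
    rw [abs_of_neg (by linarith)] at h3
    linarith [hzx.2, hzy.1]

/-- `inv` is preserved by an order preserving relabelling -/
lemma inv_congr {A B A' B' : Set ℝ} {ρ : ℝ → ℝ} (hA : BijOn ρ A A') (hB : BijOn ρ B B')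
    (h : ∀ x ∈ A, ∀ y ∈ B, y < x ↔ ρ y < ρ x) : GC18.inv A B = GC18.inv A' B' := by
  unfold GC18.inv
  have h1 : A.ncard = A'.ncard := by
    rw [← hA.image_eq, hA.injOn.ncard_image]
  have h2 : (fun q : ℝ × ℝ => (ρ q.1, ρ q.2)) '' {p : ℝ × ℝ | p.1 ∈ A ∧ p.2 ∈ B ∧ p.2 < p.1}
      = {p : ℝ × ℝ | p.1 ∈ A' ∧ p.2 ∈ B' ∧ p.2 < p.1} := by
    ext ⟨a, b⟩
    simp only [mem_image, Set.mem_ofPred_eq, Prod.mk.injEq, Prod.exists]
    constructor
    · rintro ⟨x, y, ⟨hx, hy, hxy⟩, rfl, rfl⟩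
      exact ⟨hA.mapsTo hx, hB.mapsTo hy, (h x hx y hy).1 hxy⟩
    · rintro ⟨ha, hb, hab⟩
      obtain ⟨x, hx, rfl⟩ := hA.surjOn ha
      obtain ⟨y, hy, rfl⟩ := hB.surjOn hb
      exact ⟨x, y, ⟨hx, hy, (h x hx y hy).2 hab⟩, rfl, rfl⟩
  rw [h1, ← h2, InjOn.ncard_image]
  rintro ⟨x, y⟩ ⟨hx, hy, -⟩ ⟨x', y'⟩ ⟨hx', hy', -⟩ heq
  simp only [Prod.mk.injEq] at heq
  have e1 : x = x' := hA.injOn hx hx' heq.1
  have e2 : y = y' := hB.injOn hy hy' heq.2
  rw [e1, e2]

/-! ## the ends, uniformly -/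

/-- the leading term of `det(top_p exp(tE) Y)`, `Y` varying -/
lemma tendsto_det_one' {ι : Type*} (n p : ℕ) (h : p ≤ n) (l : Filter ι) (t : ι → ℝ)
    (Y : ι → Matrix (Fin n) (Fin p) ℝ) (Y0 : Matrix (Fin n) (Fin p) ℝ) (hY : Tendsto Y l (𝓝 Y0))
    (hY0 : (Y0.submatrix (lastI h) id).det ≠ 0)
    (hl : Tendsto (fun i => (t i)⁻¹) l (𝓝 0)) (hl0 : ∀ᶠ i in l, t i ≠ 0) :
    Tendsto (fun i => (Gam one1 p n (t i) * Y i).det / t i ^ (p * (n - p))) l
      (𝓝 (cst n p * (Y0.submatrix (lastI h) id).det)) := by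
  classical
  set B : Matrix (Fin n) (Fin p) ℝ → Matrix (Fin p) (Fin p) ℝ := fun Y => Y.submatrix (lastI h) id
    with hB
  -- the scaled matrix
  let R : ℝ → Matrix (Fin n) (Fin p) ℝ → Matrix (Fin n) (Fin p) ℝ := fun u Z => Matrix.of fun a b =>
    if (a : ℕ) < n - p then u ^ (n - p + (b : ℕ) - a) * Z a b else (if (a : ℕ) = n - p + b then 1 else 0)
  have hdet : ∀ t : ℝ, t ≠ 0 → ∀ Y : Matrix (Fin n) (Fin p) ℝ, (B Y).det ≠ 0 →
      (Gam one1 p n t * Y).det / t ^ (p * (n - p))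
      = (Gam one1 p n 1 * R t⁻¹ (Y * (B Y)⁻¹)).det * (B Y).det := by
    intro t ht Y hYB
    have hBu : IsUnit (B Y).det := isUnit_iff_ne_zero.2 hYB
    set Z := Y * (B Y)⁻¹ with hZ
    have hZlast : ∀ b c : Fin p, Z (lastI h b) c = if b = c then 1 else 0 := by
      intro b c
      have h1 : Z.submatrix (lastI h) id = B Y * (B Y)⁻¹ := by
        rw [hZ]
        exact Matrix.submatrix_mul Y (B Y)⁻¹ _ id id Function.bijective_id
      rw [Matrix.mul_nonsing_inv _ hBu] at h1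
      have h2 := congrFun (congrFun h1 b) c
      rw [Matrix.submatrix_apply, Matrix.one_apply] at h2
      exact h2
    have hYZ : Y = Z * B Y := by
      rw [hZ, Matrix.mul_assoc, Matrix.nonsing_inv_mul _ hBu, Matrix.mul_one]
    have e2 : Matrix.diagonal (fun l : Fin n => t ^ (l : ℕ)) * Z
        = R t⁻¹ Z * Matrix.diagonal (fun b : Fin p => t ^ (n - p + (b : ℕ))) := by
      ext a b
      rw [Matrix.diagonal_mul, Matrix.mul_diagonal]
      simp only [R, Matrix.of_apply]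
      split_ifs with h1 h2
      · have h3 : t ^ (n - p + (b : ℕ)) = t ^ (n - p + (b : ℕ) - a) * t ^ (a : ℕ) := by
          rw [← pow_add]; congr 1; omega
        rw [h3, inv_pow]
        have h4 : t ^ (n - p + (b : ℕ) - a) ≠ 0 := pow_ne_zero _ ht
        field_simp
      · have h3 : a = lastI h b := Fin.ext h2
        rw [h3, hZlast, if_pos rfl]
        simp [lastI]
      · have h3 : a = lastI h ⟨(a : ℕ) - (n - p), by have := a.2; omega⟩ := by
          apply Fin.ext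
          simp only [lastI]
          omega
        rw [h3, hZlast, if_neg]
        · simp
        · intro h4
          apply h2
          have := congrArg Fin.val h4
          simp only at this
          omega
    have e1 : Gam one1 p n t * Y = Matrix.diagonal (fun i : Fin p => (t ^ (i : ℕ))⁻¹) *
        (Gam one1 p n 1 * R t⁻¹ Z) * Matrix.diagonal (fun b : Fin p => t ^ (n - p + (b : ℕ))) * B Y := by
      have e3 : Gam one1 p n t * Y = Gam one1 p n t * (Z * B Y) := by rw [← hYZ]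
      rw [e3, Gam_one_scale p n ht]
      calc Matrix.diagonal (fun i : Fin p => (t ^ (i : ℕ))⁻¹) * Gam one1 p n 1 *
            Matrix.diagonal (fun l : Fin n => t ^ (l : ℕ)) * (Z * B Y)
          = Matrix.diagonal (fun i : Fin p => (t ^ (i : ℕ))⁻¹) * Gam one1 p n 1 *
            (Matrix.diagonal (fun l : Fin n => t ^ (l : ℕ)) * Z) * B Y := by
              simp only [Matrix.mul_assoc]
        _ = _ := by
              rw [e2]
              simp only [Matrix.mul_assoc]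
    rw [e1, Matrix.det_mul, Matrix.det_mul, Matrix.det_mul, Matrix.det_diagonal,
      Matrix.det_diagonal]
    have e3 : (∏ i : Fin p, (t ^ (i : ℕ))⁻¹) * ∏ b : Fin p, t ^ (n - p + (b : ℕ))
        = t ^ (p * (n - p)) := by
      rw [← Finset.prod_mul_distrib]
      have e4 : ∀ i : Fin p, (t ^ (i : ℕ))⁻¹ * t ^ (n - p + (i : ℕ)) = t ^ (n - p) := by
        intro i
        rw [pow_add]
        have : t ^ (i : ℕ) ≠ 0 := pow_ne_zero _ ht
        field_simp
      rw [Finset.prod_congr rfl (fun i _ => e4 i), Finset.prod_const, Finset.card_univ,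
        Fintype.card_fin, ← pow_mul, mul_comm]
    have e5 : t ^ (p * (n - p)) ≠ 0 := pow_ne_zero _ ht
    rw [div_eq_iff e5, ← e3]
    ring
  have hcont : Continuous (fun q : ℝ × Matrix (Fin n) (Fin p) ℝ => (Gam one1 p n 1 * R q.1 q.2).det) := by
    apply Continuous.matrix_det
    apply Continuous.matrix_mul continuous_const
    apply continuous_matrix
    intro a b
    simp only [R, Matrix.of_apply]
    split_ifs with h1
    · exact (continuous_fst.pow _).mul (continuous_snd.matrix_elem a b)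
    · exact continuous_const
    · exact continuous_const
  have hlim : ∀ Z, (Gam one1 p n 1 * R 0 Z).det = cst n p := by
    intro Z
    unfold cst
    congr 1
    ext i b
    rw [Matrix.mul_apply]
    rw [Finset.sum_eq_single (lastI h b)]
    · simp only [R, Gam, Matrix.of_apply, lastI]
      rw [if_neg (by omega)]
      simp
    · intro a _ ha
      simp only [R, Matrix.of_apply]
      split_ifs with h1 h2
      · rw [zero_pow (by omega), zero_mul, mul_zero]
      · exact absurd (Fin.ext h2) ha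
      · rw [mul_zero]
    · intro h1
      exact absurd (Finset.mem_univ _) h1
  have hBc : Continuous B := by
    rw [hB]
    exact Continuous.matrix_submatrix continuous_id _ _
  have hBt : Tendsto (fun i => B (Y i)) l (𝓝 (B Y0)) := (hBc.tendsto Y0).comp hY
  have hBd : Tendsto (fun i => (B (Y i)).det) l (𝓝 (B Y0).det) :=
    ((continuous_id.matrix_det).tendsto (B Y0)).comp hBt
  have hBi : Tendsto (fun i => (B (Y i))⁻¹) l (𝓝 (B Y0)⁻¹) := by
    have h1 : Tendsto (fun i => ((B (Y i)).det)⁻¹ • (B (Y i)).adjugate) l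
        (𝓝 ((B Y0).det⁻¹ • (B Y0).adjugate)) :=
      (hBd.inv₀ hY0).smul (((continuous_id.matrix_adjugate).tendsto (B Y0)).comp hBt)
    simp only [Matrix.inv_def, Ring.inverse_eq_inv']
    exact h1
  have hZt : Tendsto (fun i => Y i * (B (Y i))⁻¹) l (𝓝 (Y0 * (B Y0)⁻¹)) := by
    have h1 : Continuous fun q : Matrix (Fin n) (Fin p) ℝ × Matrix (Fin p) (Fin p) ℝ => q.1 * q.2 :=
      continuous_fst.matrix_mul continuous_snd
    exact (h1.tendsto (Y0, (B Y0)⁻¹)).comp (hY.prodMk_nhds hBi)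
  have h1 : Tendsto (fun i => (Gam one1 p n 1 * R (t i)⁻¹ (Y i * (B (Y i))⁻¹)).det * (B (Y i)).det) l
      (𝓝 (cst n p * (B Y0).det)) := by
    rw [← hlim (Y0 * (B Y0)⁻¹)]
    exact ((hcont.tendsto (0, Y0 * (B Y0)⁻¹)).comp (hl.prodMk_nhds hZt)).mul hBd
  refine h1.congr' ?_
  filter_upwards [hl0, hBd.eventually_ne hY0] with i hi hi2
  exact (hdet (t i) hi (Y i) hi2).symm

/-- no zeros near the ends, uniformly in the parameters -/
lemma ends {w : ℕ → ℝ → ℝ} {T : ℝ} (hw : Wt w T) {n p : ℕ} (h : p ≤ n) {ι : Type*} (L : Filter ι)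
    (s : ι → ℝ) (s0 : ℝ) (hs : ∀ᶠ i in L, s i ∈ Icc (0 : ℝ) 1) (hst : Tendsto s L (𝓝 s0))
    (Y : ι → Matrix (Fin n) (Fin p) ℝ) (Y0 : Matrix (Fin n) (Fin p) ℝ) (hY : Tendsto Y L (𝓝 Y0))
    (hY0 : (Y0.submatrix (lastI h) id).det ≠ 0) :
    ∃ R : ℝ, ∀ᶠ i in L, ∀ t, R ≤ |t| → DR (om w (s i)) (Y i) t ≠ 0 := by
  have hL : cst n p * (Y0.submatrix (lastI h) id).det ≠ 0 := mul_ne_zero (cst_ne_zero n p) hY0
  -- right end
  have hright : ∃ R : ℝ, ∀ᶠ i in L, ∀ t, R ≤ t → DR (om w (s i)) (Y i) t ≠ 0 := by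
    have e1 := det_last_upper h (Hp (om w s0) T n) (fun i j hij => Hp_lower _ T n hij) (Hp_diag _ T n) Y0
    have h1 : Tendsto (fun q : ι × ℝ => Hp (om w (s q.1)) T n * Y q.1) (L ×ˢ atTop)
        (𝓝 (Hp (om w s0) T n * Y0)) := by
      have h2 : Continuous fun q : Matrix (Fin n) (Fin n) ℝ × Matrix (Fin n) (Fin p) ℝ => q.1 * q.2 :=
        continuous_fst.matrix_mul continuous_snd
      exact (h2.tendsto (Hp (om w s0) T n, Y0)).comp
        (((((continuous_Hp_om hw n).tendsto s0).comp hst).comp tendsto_fst).prodMk_nhds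
          (hY.comp tendsto_fst))
    have h2 := tendsto_det_one' n p h (L ×ˢ (atTop : Filter ℝ)) (fun q => q.2)
      (fun q => Hp (om w (s q.1)) T n * Y q.1) _ h1 (by rw [e1]; exact hY0)
      (tendsto_inv_atTop_zero.comp tendsto_snd) (tendsto_snd.eventually (eventually_ne_atTop 0))
    rw [e1] at h2
    have h3 := h2.eventually_ne hL
    rw [eventually_prod_iff] at h3
    obtain ⟨pa, hpa, pb, hpb, hab⟩ := h3
    obtain ⟨R, hR⟩ := eventually_atTop.1 hpb
    refine ⟨max R T, ?_⟩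
    filter_upwards [hpa, hs] with i hi hsi t ht
    have h4 := hab hi (hR t ((le_max_left _ _).trans ht))
    intro h5
    apply h4
    unfold DR at h5
    rw [Gam_right (wt_om hw hsi) p n ((le_max_right _ _).trans ht), Matrix.mul_assoc] at h5
    simp only [h5, zero_div]
  have hleft : ∃ R : ℝ, ∀ᶠ i in L, ∀ t, t ≤ R → DR (om w (s i)) (Y i) t ≠ 0 := by
    have e1 := det_last_upper h (Hm (om w s0) T n) (fun i j hij => Hm_lower _ T n hij) (Hm_diag _ T n) Y0
    have h1 : Tendsto (fun q : ι × ℝ => Hm (om w (s q.1)) T n * Y q.1) (L ×ˢ atBot)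
        (𝓝 (Hm (om w s0) T n * Y0)) := by
      have h2 : Continuous fun q : Matrix (Fin n) (Fin n) ℝ × Matrix (Fin n) (Fin p) ℝ => q.1 * q.2 :=
        continuous_fst.matrix_mul continuous_snd
      exact (h2.tendsto (Hm (om w s0) T n, Y0)).comp
        (((((continuous_Hm_om hw n).tendsto s0).comp hst).comp tendsto_fst).prodMk_nhds
          (hY.comp tendsto_fst))
    have h2 := tendsto_det_one' n p h (L ×ˢ (atBot : Filter ℝ)) (fun q => q.2)
      (fun q => Hm (om w (s q.1)) T n * Y q.1) _ h1 (by rw [e1]; exact hY0)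
      (tendsto_inv_atBot_zero.comp tendsto_snd) (tendsto_snd.eventually (eventually_ne_atBot 0))
    rw [e1] at h2
    have h3 := h2.eventually_ne hL
    rw [eventually_prod_iff] at h3
    obtain ⟨pa, hpa, pb, hpb, hab⟩ := h3
    obtain ⟨R, hR⟩ := eventually_atBot.1 hpb
    refine ⟨min R (-T), ?_⟩
    filter_upwards [hpa, hs] with i hi hsi t ht
    have h4 := hab hi (hR t (ht.trans (min_le_left _ _)))
    intro h5
    apply h4
    unfold DR at h5
    rw [Gam_left (wt_om hw hsi) p n (ht.trans (min_le_right _ _)), Matrix.mul_assoc] at h5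
    simp only [h5, zero_div]
  obtain ⟨R1, h1⟩ := hright
  obtain ⟨R2, h2⟩ := hleft
  refine ⟨max R1 (-R2), ?_⟩
  filter_upwards [h1, h2] with i hi1 hi2 t ht
  rcases le_or_gt 0 t with h0 | h0
  · rw [abs_of_nonneg h0] at ht
    exact hi1 t ((le_max_left _ _).trans ht)
  · rw [abs_of_neg h0] at ht
    exact hi2 t (by linarith [le_max_right R1 (-R2)])

/-! ## joint continuity -/

lemma continuous_rw' {w : ℕ → ℝ → ℝ} {T : ℝ} (hw : Wt w T) {n : ℕ} (a b : ℕ) :
    Continuous fun q : (ℝ × (ℕ → Fin n → ℝ)) × ℝ => rw' (om w q.1.1) q.1.2 q.2 a b := by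
  unfold rw'
  refine continuous_finsetSum _ fun l _ => Continuous.mul ?_ ?_
  · have h := (contDiff_ge_om hw a (l : ℕ)).continuous
    exact h.comp ((continuous_fst.comp continuous_fst).prodMk continuous_snd)
  · have h : Continuous fun q : (ℝ × (ℕ → Fin n → ℝ)) × ℝ => q.1.2 :=
      continuous_snd.comp continuous_fst
    exact (continuous_apply l).comp ((continuous_apply b).comp h)

lemma continuous_W {w : ℕ → ℝ → ℝ} {T : ℝ} (hw : Wt w T) {n : ℕ} (j : ℕ) :
    Continuous fun q : (ℝ × (ℕ → Fin n → ℝ)) × ℝ => DR (om w q.1.1) (Ym q.1.2 j) q.2 := by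
  simp only [DR_Ym]
  apply Continuous.matrix_det
  apply continuous_matrix
  intro a b
  simp only [Matrix.of_apply]
  exact continuous_rw' hw a b

lemma continuous_dW {w : ℕ → ℝ → ℝ} {T : ℝ} (hw : Wt w T) {n : ℕ} (j : ℕ) :
    Continuous fun q : (ℝ × (ℕ → Fin n → ℝ)) × ℝ => dW (om w q.1.1) q.1.2 j q.2 := by
  unfold dW
  refine Continuous.mul ?_ ?_
  · unfold om
    have h1 : Continuous fun q : (ℝ × (ℕ → Fin n → ℝ)) × ℝ => q.1.1 := continuous_fst.comp continuous_fst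
    have h2 : Continuous fun q : (ℝ × (ℕ → Fin n → ℝ)) × ℝ => w j q.2 :=
      (hw.smooth j).continuous.comp continuous_snd
    exact continuous_const.add (h1.mul (h2.sub continuous_const))
  · apply Continuous.matrix_det
    apply continuous_matrix
    intro a b
    simp only [Matrix.of_apply]
    exact continuous_rw' hw _ _

lemma continuous_Ym {n : ℕ} (j : ℕ) : Continuous fun q : ℝ × (ℕ → Fin n → ℝ) => Ym q.2 j := by
  apply continuous_matrix
  intro a b
  simp only [Ym, Matrix.of_apply]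
  exact (continuous_apply a).comp ((continuous_apply _).comp continuous_snd)

end E3

/-- **E3** local constancy of the sign of a good flag -/
theorem E3 : S_E3 := by
  intro w T hw n k hkn s0 hs0 Y0 hY0
  set L : Filter (ℝ × (ℕ → Fin n → ℝ)) := 𝓝[(Icc (0 : ℝ) 1) ×ˢ univ] (s0, Y0) with hL
  have hLle : L ≤ 𝓝 (s0, Y0) := nhdsWithin_le_nhds
  have hLs : ∀ᶠ p in L, p.1 ∈ Icc (0 : ℝ) 1 := by
    have : ∀ᶠ p in L, p ∈ (Icc (0 : ℝ) 1) ×ˢ (univ : Set (ℕ → Fin n → ℝ)) := self_mem_nhdsWithin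
    exact this.mono fun p hp => hp.1
  have hv0 := wt_om hw hs0
  have hsZ : ∀ j, ∃ Z : Finset ℝ, j < k → RZ.SimpleZ (DR (om w s0) (Ym Y0 (j + 1))) Z := by
    intro j
    by_cases hj : j < k
    · obtain ⟨Z, hZ⟩ := good_simpleZ hv0 hkn hY0 (i := j + 1) hj
      exact ⟨Z, fun _ => hZ⟩
    · exact ⟨∅, fun h => absurd h hj⟩
  choose Z hZ using hsZ
  have hlast : ∀ j (hj : j ≤ k), ((Ym Y0 j).submatrix (lastI (hj.trans hkn)) id).det ≠ 0 := fun j hj =>
    (not_vanInf_last_iff (hj.trans hkn) _).1 (hY0.top j hj)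
  obtain ⟨ρ, hρ⟩ := E3.stable k (fun j p t => DR (om w p.1) (Ym p.2 (j + 1)) t)
    (fun j p t => dW (om w p.1) p.2 j t) (s0, Y0) L hLle
    (fun j _ => E3.continuous_W hw (j + 1)) (fun j _ => E3.continuous_dW hw j)
    (fun j _ => hLs.mono fun p hp t => hasDerivAt_W (wt_om hw hp) p.2 j t)
    (fun j _ t => hasDerivAt_W hv0 Y0 j t) Z (fun j hj t => (hZ j hj).mem t)
    (fun j hj t ht => good_simple hv0 hY0 hj t (((hZ j hj).mem t).2 ht))
    (fun j hj => E3.ends hw (show j + 1 ≤ n by omega) L (fun p => p.1) s0 hLs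
      (tendsto_fst.mono_left (hLle.trans (by rw [nhds_prod_eq]))) (fun p => Ym p.2 (j + 1)) _
      (((E3.continuous_Ym (j + 1)).tendsto (s0, Y0)).mono_left hLle) (hlast (j + 1) hj))
  have htop : ∀ᶠ p in L, ∀ j ∈ Finset.range (k + 1), ¬ VanInf 1 (Ym p.2 j) := by
    rw [eventually_all_finset]
    intro j hj
    have hj' : j ≤ k := Nat.lt_succ_iff.1 (Finset.mem_range.1 hj)
    have h1 : Continuous fun q : ℝ × (ℕ → Fin n → ℝ) =>
        ((Ym q.2 j).submatrix (lastI (hj'.trans hkn)) id).det :=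
      ((E3.continuous_Ym j).matrix_submatrix _ _).matrix_det
    have h2 := ((h1.tendsto (s0, Y0)).mono_left hLle).eventually_ne (hlast j hj')
    filter_upwards [h2] with p hp
    exact (not_vanInf_last_iff (hj'.trans hkn) _).2 hp
  filter_upwards [hLs, hρ, htop] with p hps hpρ hptop
  obtain ⟨hbij, hsimp, hord⟩ := hpρ
  have hv := wt_om hw hps
  -- zero sets
  have hZ0 : ∀ j < k, Zs (om w s0) Y0 (j + 1) = (Z j : Set ℝ) := fun j hj => (hZ j hj).zero_set
  have hdisj : ∀ j, j + 1 < k → ∀ t, ¬ (t ∈ Z j ∧ t ∈ Z (j + 1)) := by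
    rintro j hj t ⟨h1, h2⟩
    exact hY0.nocommon (j + 1) (Nat.succ_pos j) hj t
      ⟨((hZ j (by omega)).mem t).2 h1, ((hZ (j + 1) hj).mem t).2 h2⟩
  refine ⟨⟨fun j hj => hptop j (Finset.mem_range.2 (by omega)), ?_, ?_⟩, ?_⟩
  · rintro j hj0 hjk t ⟨h1, h2⟩
    obtain ⟨i, rfl⟩ : ∃ i, j = i + 1 := ⟨j - 1, by omega⟩
    exact hdisj i hjk (ρ t) ⟨(hbij i (by omega)).mapsTo h1, (hbij (i + 1) hjk).mapsTo h2⟩
  · intro t ht
    rcases Nat.eq_zero_or_pos k with hk | hk
    · subst hk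
      rw [DR_Ym_zero] at ht
      exact absurd ht one_ne_zero
    · obtain ⟨i, rfl⟩ : ∃ i, k = i + 1 := ⟨k - 1, by omega⟩
      rw [deriv_W hv]
      exact hsimp i (Nat.lt_succ_self i) t ht
  · unfold epsF
    congr 1
    refine Finset.sum_congr rfl fun j hj => ?_
    rw [Finset.mem_Ioo] at hj
    obtain ⟨i, rfl⟩ : ∃ i, j = i + 1 := ⟨j - 1, by omega⟩
    rw [hZ0 i (by omega), hZ0 (i + 1) hj.2]
    refine E3.inv_congr (ρ := ρ) (hbij i (by omega)) (hbij (i + 1) hj.2) ?_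
    intro x hx y hy
    have hne : ρ y ≠ ρ x := by
      intro h
      refine hdisj i hj.2 (ρ x) ⟨(hbij i (by omega)).mapsTo hx, ?_⟩
      rw [← h]
      exact (hbij (i + 1) hj.2).mapsTo hy
    constructor
    · intro hxy
      rcases lt_or_gt_of_ne hne with h | h
      · exact h
      · exact absurd (hord i (by omega) (i + 1) hj.2 x y hx hy h) (not_lt.2 hxy.le)
    · intro h
      exact hord (i + 1) hj.2 i (by omega) y x hy hx h

end Pool.Agent.GC18
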