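import Pool.Agent.GC18.E3
import Pool.Agent.GC18.Assemble

/-!
# Grassmann convexity (MP_5fea31_an): module Eps, the sign `ep s x`   (helper77)
-/

set_option autoImplicit false

namespace Pool.Agent.GC18

open Matrix Filter Topology Set

namespace Eps

lemma Ym_colsN {n k : ℕ} (X : Matrix (Fin n) (Fin k) ℝ) : Ym (colsN X) k = X := by
  ext i b
  simp only [Ym, Matrix.of_apply, colsN, b.2, dif_pos]

lemma last_Xinf {m k : ℕ} (x : Fin (m * k) → ℝ) (h : k ≤ m + k) :
    (Xinf x).submatrix (lastI h) id = (1 : Matrix (Fin k) (Fin k) ℝ) := by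
  ext b c
  have e : lastI h b = Fin.natAdd m b := by
    apply Fin.ext
    simp only [lastI, Fin.val_natAdd]
    omega
  rw [Matrix.submatrix_apply, e]
  simp only [Xinf, Matrix.of_apply, Fin.addCases_right, id, Matrix.one_apply]

lemma image_colsN {n k : ℕ} (X : Matrix (Fin n) (Fin k) ℝ) :
    colsN X '' Iio k = range (fun (c : Fin k) i => X i c) := by
  ext u
  simp only [mem_image, mem_Iio, mem_range]
  constructor
  · rintro ⟨b, hb, rfl⟩
    exact ⟨⟨b, hb⟩, by funext i; simp only [colsN, hb, dif_pos]⟩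
  · rintro ⟨c, rfl⟩
    exact ⟨c, c.2, by funext i; simp only [colsN, c.2, dif_pos]⟩

/-- a flag with `X Q` as first columns -/
noncomputable def flagOf {n k : ℕ} (Q : Matrix (Fin k) (Fin k) ℝ) (Y0 : ℕ → Fin n → ℝ)
    (X : Matrix (Fin n) (Fin k) ℝ) : ℕ → Fin n → ℝ :=
  fun b i => if h : b < k then (X * Q) i ⟨b, h⟩ else Y0 b i

lemma flagOf_image {n k : ℕ} (Q : Matrix (Fin k) (Fin k) ℝ) (Y0 : ℕ → Fin n → ℝ)
    (X : Matrix (Fin n) (Fin k) ℝ) :
    flagOf Q Y0 X '' Iio k = range (fun (c : Fin k) i => (X * Q) i c) := by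
  ext u
  simp only [mem_image, mem_Iio, mem_range]
  constructor
  · rintro ⟨b, hb, rfl⟩
    exact ⟨⟨b, hb⟩, by funext i; simp only [flagOf, hb, dif_pos]⟩
  · rintro ⟨c, rfl⟩
    exact ⟨c, c.2, by funext i; simp only [flagOf, c.2, dif_pos]⟩

lemma span_mul_le {n k : ℕ} (X : Matrix (Fin n) (Fin k) ℝ) (Q : Matrix (Fin k) (Fin k) ℝ) :
    Submodule.span ℝ (range (fun (c : Fin k) i => (X * Q) i c))
      ≤ Submodule.span ℝ (range (fun (c : Fin k) i => X i c)) := by
  rw [Submodule.span_le]
  rintro _ ⟨c, rfl⟩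
  have : (fun i => (X * Q) i c) = ∑ d : Fin k, Q d c • (fun i => X i d) := by
    funext i
    simp only [Matrix.mul_apply, Finset.sum_apply, Pi.smul_apply, smul_eq_mul]
    exact Finset.sum_congr rfl fun d _ => mul_comm _ _
  show (fun i => (X * Q) i c) ∈ Submodule.span ℝ (range (fun (c : Fin k) i => X i c))
  rw [this]
  exact Submodule.sum_mem _ fun d _ => Submodule.smul_mem _ _ (Submodule.subset_span ⟨d, rfl⟩)

lemma span_mul {n k : ℕ} (X : Matrix (Fin n) (Fin k) ℝ) (Q : Matrix (Fin k) (Fin k) ℝ)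
    (hQ : Q.det ≠ 0) :
    Submodule.span ℝ (range (fun (c : Fin k) i => (X * Q) i c))
      = Submodule.span ℝ (range (fun (c : Fin k) i => X i c)) := by
  refine le_antisymm (span_mul_le X Q) ?_
  have h1 : (X * Q) * Q⁻¹ = X := by
    rw [Matrix.mul_assoc, Matrix.mul_nonsing_inv _ (isUnit_iff_ne_zero.2 hQ), Matrix.mul_one]
  have := span_mul_le (X * Q) Q⁻¹
  rwa [h1] at this

end Eps

open Eps in
/-- **Eps** the sign `ep s x` -/
theorem Eps (hEx : S_ExGood) (hE2 : S_E2) : S_Eps := by
  classical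
  intro w T hw m k hm hk
  have hkn : k ≤ m + k := Nat.le_add_left k m
  -- the condition
  let A : ℝ → (Fin (m * k) → ℝ) → Prop := fun s x => ∃ Y : ℕ → Fin (m + k) → ℝ, Good (om w s) k Y ∧
    Submodule.span ℝ (Y '' Iio k) = Submodule.span ℝ (range (fun (c : Fin k) i => Xinf x i c))
  let ep : ℝ → (Fin (m * k) → ℝ) → ℤ := fun s x =>
    if h : A s x then epsF (om w s) k h.choose else 1
  have hep : ∀ s ∈ Icc (0 : ℝ) 1, ∀ x : Fin (m * k) → ℝ, ∀ Y : ℕ → Fin (m + k) → ℝ, Good (om w s) k Y →
      Submodule.span ℝ (Y '' Iio k) = Submodule.span ℝ (range (fun (c : Fin k) i => Xinf x i c)) →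
      ep s x = epsF (om w s) k Y := by
    intro s hs x Y hY hsp
    have h : A s x := ⟨Y, hY, hsp⟩
    have h1 : ep s x = epsF (om w s) k h.choose := by
      simp only [ep]
      rw [dif_pos h]
    rw [h1]
    exact hE2 (om w s) T (wt_om hw hs) (m + k) k hkn Y h.choose hY h.choose_spec.1
      (h.choose_spec.2.trans hsp.symm)
  refine ⟨ep, ?_, ?_, ?_⟩
  · intro s x
    by_cases h : A s x
    · have h1 : ep s x = epsF (om w s) k h.choose := by
        simp only [ep]
        rw [dif_pos h]
      rw [h1]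
      unfold epsF
      exact neg_one_pow_eq_or ℤ _
    · left
      simp only [ep]
      rw [dif_neg h]
  · intro s0 hs0 x0 hx0
    have hv0 := wt_om hw hs0
    obtain ⟨Y0, hY0, hsp0⟩ := hEx (om w s0) T hv0 (m + k) k hkn (colsN (Xinf x0))
      (by
        rw [Ym_colsN, not_vanInf_last_iff hkn, last_Xinf, Matrix.det_one]
        exact one_ne_zero)
      (by
        rw [Ym_colsN]
        exact hx0)
    rw [image_colsN] at hsp0
    -- the change of basis
    have hQ : ∃ Q : Matrix (Fin k) (Fin k) ℝ, Ym Y0 k = Xinf x0 * Q := by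
      have h1 : ∀ b : Fin k, ∃ c : Fin k → ℝ, ∑ d, c d • (fun i => Xinf x0 i d) = Y0 b := by
        intro b
        have h2 : Y0 b ∈ Submodule.span ℝ (range (fun (c : Fin k) i => Xinf x0 i c)) := by
          rw [← hsp0]
          exact Submodule.subset_span ⟨b, b.2, rfl⟩
        exact (Submodule.mem_span_range_iff_exists_fun ℝ).1 h2
      choose c hc using h1
      refine ⟨Matrix.of fun d b => c b d, ?_⟩
      ext i b
      simp only [Ym, Matrix.of_apply, Matrix.mul_apply]
      rw [← hc b]
      simp only [Finset.sum_apply, Pi.smul_apply, smul_eq_mul]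
      exact Finset.sum_congr rfl fun d _ => mul_comm _ _
    obtain ⟨Q, hQ⟩ := hQ
    have hQdet : Q.det ≠ 0 := by
      have h1 := (not_vanInf_last_iff hkn _).1 (hY0.top k le_rfl)
      have h2 : (Ym Y0 k).submatrix (lastI hkn) id = (Xinf x0).submatrix (lastI hkn) id * Q := by
        rw [hQ]
        exact Matrix.submatrix_mul (Xinf x0) Q _ id id Function.bijective_id
      rw [h2, last_Xinf, Matrix.one_mul] at h1
      exact h1
    have hfl0 : flagOf Q Y0 (Xinf x0) = Y0 := by
      funext b i
      unfold flagOf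
      split_ifs with h
      · rw [← hQ]
        rfl
      · rfl
    have hflc : Continuous fun p : ℝ × (Fin (m * k) → ℝ) => (p.1, flagOf Q Y0 (Xinf p.2)) := by
      refine continuous_fst.prodMk ?_
      refine continuous_pi fun b => continuous_pi fun i => ?_
      unfold flagOf
      by_cases h : b < k
      · simp only [h, dif_pos]
        have h1 : Continuous fun p : ℝ × (Fin (m * k) → ℝ) => Xinf p.2 * Q := by
          have h2 : Continuous fun x : Fin (m * k) → ℝ => (Xinf x : Matrix (Fin (m + k)) (Fin k) ℝ) := by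
            apply continuous_matrix
            intro i c
            simp only [Xinf, Matrix.of_apply]
            refine Fin.addCases (fun a => ?_) (fun b => ?_) i
            · simp only [Fin.addCases_left]
              exact continuous_apply _
            · simp only [Fin.addCases_right]
              exact continuous_const
          exact (h2.comp continuous_snd).matrix_mul continuous_const
        exact h1.matrix_elem i ⟨b, h⟩
      · simp only [h, dif_neg, not_false_iff]
        exact continuous_const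
    have hE3' := E3 w T hw (m + k) k hkn s0 hs0 Y0 hY0
    have htend : Tendsto (fun p : ℝ × (Fin (m * k) → ℝ) => (p.1, flagOf Q Y0 (Xinf p.2)))
        (𝓝[(Icc (0 : ℝ) 1) ×ˢ univ] (s0, x0)) (𝓝[(Icc (0 : ℝ) 1) ×ˢ univ] (s0, Y0)) := by
      refine tendsto_nhdsWithin_iff.2 ⟨?_, ?_⟩
      · have := (hflc.tendsto (s0, x0)).mono_left
          (nhdsWithin_le_nhds (s := (Icc (0 : ℝ) 1) ×ˢ univ))
        simpa only [hfl0] using this
      · filter_upwards [self_mem_nhdsWithin] with p hp
        exact ⟨hp.1, mem_univ _⟩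
    have hspan : ∀ x, Submodule.span ℝ (flagOf Q Y0 (Xinf x) '' Iio k)
        = Submodule.span ℝ (range (fun (c : Fin k) i => Xinf x i c)) := by
      intro x
      rw [flagOf_image, span_mul _ _ hQdet]
    have h0 : ep s0 x0 = epsF (om w s0) k Y0 := hep s0 hs0 x0 Y0 hY0 hsp0
    filter_upwards [htend.eventually hE3', self_mem_nhdsWithin] with p hp hp1
    rw [h0, hep p.1 hp1.1 p.2 _ hp.1 (hspan p.2), hp.2]
  · intro x Y hY hsp
    have h0 : (0 : ℝ) ∈ Icc (0 : ℝ) 1 := ⟨le_rfl, zero_le_one⟩
    have h1 := hep 0 h0 x Y (by rw [om_zero]; exact hY) hsp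
    rw [om_zero] at h1
    exact h1

end Pool.Agent.GC18
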