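import Pool.Agent.GC18.Alg
import Pool.Agent.GC18.Stmts
import Pool.Agent.Lib_helper65.BddAlg
import Pool.Agent.Lib_helper65.GrComp

/-!
# Grassmann convexity (MP_5fea31_an): FINALG, compactness of the Grassmannian, FIN   (helper65)

* `FinAlg : S_FinAlg`
* `Cpt : S_Cpt`
* `FIN : S_FIN`
* `FA_poly` : `InS v M (g * Xinf x)` is a system of polynomial equations in `x`
* `FA_InS_mul_right` : invariance under column operations
* `FA_iteratedDeriv_DC` : derivatives of `D` in terms of maximal minors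
-/

set_option autoImplicit false

namespace Pool.Agent.GC18

open Matrix Filter Topology Set

open scoped Classical

theorem FinAlg : S_FinAlg := by
  intro M κ p hb
  obtain ⟨R, hR⟩ := hb.exists_norm_le
  refine Pool.Agent.Lib_helper65.finite_zeros_of_bounded p R fun x hx i => ?_
  exact (norm_le_pi_norm x i).trans (hR x hx)

theorem Cpt : S_Cpt := by
  intro n k X hX
  obtain ⟨g, φ, Y, I, hg, hφ, hY, -, hYI⟩ := Pool.Agent.Lib_helper65.exists_subseq X hX
  exact ⟨φ, fun j => g (φ j), Y, hφ, fun j => hg (φ j), ⟨I, by rw [hYI]; simp⟩, hY⟩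

/-- the coefficient functions of `DC` -/
noncomputable def FA_c (v : ℕ → ℝ → ℝ) {n k : ℕ} (I : Fin k → Fin n) (t : ℝ) : ℂ :=
  ((∏ i : Fin k, ge v i (I i) t : ℝ) : ℂ)

lemma FA_c_smooth {v : ℕ → ℝ → ℝ} {T : ℝ} (hv : Wt v T) {n k : ℕ} (I : Fin k → Fin n) :
    ContDiff ℝ (⊤ : ℕ∞) (FA_c v I) := by
  have h : ContDiff ℝ (⊤ : ℕ∞) (fun t => ∏ i : Fin k, ge v i (I i) t) :=
    contDiff_prod fun i _ => contDiff_ge hv i _
  exact Complex.ofRealCLM.contDiff.comp h

lemma FA_iteratedDeriv_DC {v : ℕ → ℝ → ℝ} {T : ℝ} (hv : Wt v T) {n k : ℕ}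
    (X : Matrix (Fin n) (Fin k) ℂ) (j : ℕ) (a : ℝ) :
    iteratedDeriv j (DC v X) a =
      ∑ I : Fin k → Fin n, iteratedDeriv j (FA_c v I) a * (X.submatrix I id).det := by
  have h1 : DC v X = fun t => ∑ I : Fin k → Fin n, FA_c v I t * (X.submatrix I id).det := by
    funext t
    rw [DC_expand]
    rfl
  rw [h1, iteratedDeriv_fun_sum]
  · refine Finset.sum_congr rfl fun I _ => ?_
    rw [iteratedDeriv_mul_const_field]
  · intro I _
    exact (((FA_c_smooth hv I).mul contDiff_const).of_le (by exact_mod_cast le_top)).contDiffAt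

lemma FA_InS_mul_right {v : ℕ → ℝ → ℝ} {T : ℝ} (hv : Wt v T) {m k : ℕ} {M : Multiset (WithTop ℝ)}
    {X : Matrix (Fin (m + k)) (Fin k) ℂ} (h : InS v M X) (C : Matrix (Fin k) (Fin k) ℂ) :
    InS v M (X * C) := by
  refine ⟨fun a j hj => ?_, VanInf_mul_right h.2 C⟩
  have h1 := h.1 a j hj
  rw [FA_iteratedDeriv_DC hv] at h1 ⊢
  simp only [det_submatrix_mul_right, ← mul_assoc]
  rw [← Finset.sum_mul, h1, zero_mul]

/-- the maximal minors of `g * Xinf x` as polynomials in `x` -/
noncomputable def FA_Q {m k : ℕ} (g : Matrix (Fin (m + k)) (Fin (m + k)) ℂ)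
    (I : Fin k → Fin (m + k)) : MvPolynomial (Fin (m * k)) ℂ :=
  (((g.map (MvPolynomial.C (σ := Fin (m * k)))) *
    (Xinf (fun q => (MvPolynomial.X q : MvPolynomial (Fin (m * k)) ℂ)))).submatrix I id).det

lemma FA_Q_eval {m k : ℕ} (g : Matrix (Fin (m + k)) (Fin (m + k)) ℂ)
    (I : Fin k → Fin (m + k)) (x : Fin (m * k) → ℂ) :
    MvPolynomial.eval x (FA_Q g I) = ((g * Xinf x).submatrix I id).det := by
  rw [FA_Q, RingHom.map_det]
  congr 1
  ext i c
  simp only [RingHom.mapMatrix_apply, Matrix.map_apply, Matrix.submatrix_apply, Matrix.mul_apply,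
    map_sum, map_mul, MvPolynomial.eval_C, id]
  refine Finset.sum_congr rfl fun l _ => ?_
  congr 1
  refine Fin.addCases (fun a => ?_) (fun b => ?_) l
  · simp [Xinf]
  · simp only [Xinf, Matrix.of_apply, Fin.addCases_right]
    split_ifs <;> simp

/-- `InS v M (g * Xinf x)` is a system of polynomial equations in `x` -/
lemma FA_poly {v : ℕ → ℝ → ℝ} {T : ℝ} (hv : Wt v T) {m k : ℕ} (M : Multiset (WithTop ℝ))
    (g : Matrix (Fin (m + k)) (Fin (m + k)) ℂ) :
    ∃ p : ((ℝ × ℕ) ⊕ (Fin k → Fin (m + k))) → MvPolynomial (Fin (m * k)) ℂ,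
      ∀ x : Fin (m * k) → ℂ, InS v M (g * Xinf x) ↔ ∀ i, MvPolynomial.eval x (p i) = 0 := by
  refine ⟨Sum.elim
    (fun q => if q.2 < M.count (q.1 : WithTop ℝ) then
      ∑ I : Fin k → Fin (m + k), MvPolynomial.C (iteratedDeriv q.2 (FA_c v I) q.1) * FA_Q g I
      else 0)
    (fun I => if (∑ i : Fin k, (m + k - k + (i : ℕ))) < (∑ i, (I i : ℕ)) + M.count ⊤ then
      FA_Q g I else 0), fun x => ?_⟩
  have h1 : ∀ (j : ℕ) (a : ℝ), MvPolynomial.eval x
      (∑ I : Fin k → Fin (m + k), MvPolynomial.C (iteratedDeriv j (FA_c v I) a) * FA_Q g I) =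
      iteratedDeriv j (DC v (g * Xinf x)) a := by
    intro j a
    rw [FA_iteratedDeriv_DC hv, map_sum]
    refine Finset.sum_congr rfl fun I _ => ?_
    rw [map_mul, MvPolynomial.eval_C, FA_Q_eval]
  constructor
  · rintro ⟨h2, h3⟩ (⟨a, j⟩ | I)
    · simp only [Sum.elim_inl]
      split_ifs with hj
      · rw [h1]; exact h2 a j hj
      · simp
    · simp only [Sum.elim_inr]
      split_ifs with hI
      · rw [FA_Q_eval]; exact h3 I hI
      · simp
  · intro h
    refine ⟨fun a j hj => ?_, fun I hI => ?_⟩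
    · have h2 := h (Sum.inl (a, j))
      simp only [Sum.elim_inl, if_pos hj] at h2
      rwa [h1] at h2
    · have h2 := h (Sum.inr I)
      simp only [Sum.elim_inr, if_pos hI] at h2
      rwa [FA_Q_eval] at h2

/-- `Xinf x` determines `x` up to column operations -/
lemma FA_Xinf_inj {m k : ℕ} {x y : Fin (m * k) → ℂ} {B : Matrix (Fin k) (Fin k) ℂ}
    (h : (Xinf x : Matrix (Fin (m + k)) (Fin k) ℂ) = Xinf y * B) : x = y := by
  have hB : B = 1 := by
    ext i c
    have h1 := congrFun (congrFun h (Fin.natAdd m i)) c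
    simp only [Xinf, Matrix.of_apply, Fin.addCases_right, Matrix.mul_apply] at h1
    rw [Finset.sum_eq_single i] at h1
    · rw [if_pos rfl, one_mul] at h1
      rw [← h1, Matrix.one_apply]
    · intro b _ hb
      rw [if_neg (fun h => hb h.symm), zero_mul]
    · intro h2; exact absurd (Finset.mem_univ _) h2
  rw [hB, Matrix.mul_one] at h
  funext q
  have h1 := congrFun (congrFun h (Fin.castAdd k (finProdFinEquiv.symm q).1)) (finProdFinEquiv.symm q).2
  simp only [Xinf, Matrix.of_apply, Fin.addCases_left] at h1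
  rwa [Prod.mk.eta, Equiv.apply_symm_apply] at h1

/-- Given `X` with invertible bottom block, `X` is `Xinf x` up to column operations. -/
lemma FA_exists_Xinf {m k : ℕ} (X : Matrix (Fin (m + k)) (Fin k) ℂ)
    (h : (X.submatrix (Fin.natAdd m) id).det ≠ 0) :
    ∃ x : Fin (m * k) → ℂ, X * (X.submatrix (Fin.natAdd m) id)⁻¹ = Xinf x := by
  set A := X.submatrix (Fin.natAdd m) id with hA
  refine ⟨fun q => (X * A⁻¹) (Fin.castAdd k (finProdFinEquiv.symm q).1) (finProdFinEquiv.symm q).2, ?_⟩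
  have h1 : A * A⁻¹ = 1 := Matrix.mul_nonsing_inv _ (isUnit_iff_ne_zero.2 h)
  ext i c
  refine Fin.addCases (fun a => ?_) (fun b => ?_) i
  · simp [Xinf]
  · have h2 := congrFun (congrFun h1 b) c
    rw [Matrix.one_apply] at h2
    simp only [Xinf, Matrix.of_apply, Fin.addCases_right]
    rw [← h2]
    simp [Matrix.mul_apply, hA]

/-- `InS` is a closed condition -/
lemma FA_InS_of_tendsto {v : ℕ → ℝ → ℝ} {T : ℝ} (hv : Wt v T) {m k : ℕ} {M : Multiset (WithTop ℝ)}
    {X : ℕ → Matrix (Fin (m + k)) (Fin k) ℂ} {X0 : Matrix (Fin (m + k)) (Fin k) ℂ}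
    (hX : Tendsto X atTop (𝓝 X0)) (h : ∀ j, InS v M (X j)) : InS v M X0 := by
  have hdet : ∀ I : Fin k → Fin (m + k), Tendsto (fun j => ((X j).submatrix I id).det) atTop
      (𝓝 (X0.submatrix I id).det) := by
    intro I
    have hc : Continuous fun Z : Matrix (Fin (m + k)) (Fin k) ℂ => (Z.submatrix I id).det :=
      Continuous.matrix_det (Continuous.matrix_submatrix continuous_id _ _)
    exact (hc.tendsto X0).comp hX
  refine ⟨fun a j hj => ?_, fun I hI => ?_⟩
  · have h1 : Tendsto (fun i => iteratedDeriv j (DC v (X i)) a) atTop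
        (𝓝 (iteratedDeriv j (DC v X0) a)) := by
      simp only [FA_iteratedDeriv_DC hv]
      exact tendsto_finsetSum _ fun I _ => (hdet I).const_mul _
    have h2 : (fun i => iteratedDeriv j (DC v (X i)) a) = fun _ => 0 := by
      funext i; exact (h i).1 a j hj
    rw [h2] at h1
    exact (tendsto_nhds_unique h1 tendsto_const_nhds)
  · have h2 : (fun j => ((X j).submatrix I id).det) = fun _ => 0 := by
      funext i; exact (h i).2 I hI
    have h1 := hdet I
    rw [h2] at h1
    exact (tendsto_nhds_unique h1 tendsto_const_nhds)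

/-- the reordering of the rows: `natAdd m b ↦ b`, `castAdd k a ↦ k + a` -/
def FA_σ (m k : ℕ) : Fin (m + k) ≃ Fin (m + k) :=
  (finSumFinEquiv.symm.trans (Equiv.sumComm _ _)).trans (finSumFinEquiv.trans (finCongr (add_comm k m)))

lemma FA_σ_natAdd {m k : ℕ} (b : Fin k) : ((FA_σ m k (Fin.natAdd m b) : Fin (m + k)) : ℕ) = b := by
  simp [FA_σ]

/-- chart at `y`: an invertible matrix `h` such that the bottom block of `h * X` is
the top part of the fundamental matrix at `y` times `X` -/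
lemma FA_chart {v : ℕ → ℝ → ℝ} (m k : ℕ) (y : ℝ) :
    ∃ h : Matrix (Fin (m + k)) (Fin (m + k)) ℂ, h.det ≠ 0 ∧
      ∀ X : Matrix (Fin (m + k)) (Fin k) ℂ,
        ((h * X).submatrix (Fin.natAdd m) id) = toC (Gam v k (m + k) y) * X := by
  have hU : (Gam v (m + k) (m + k) y).det = 1 := by
    rw [Matrix.det_of_isUpperTriangular]
    · apply Finset.prod_eq_one
      intro i _
      simp [Gam]
    · intro i j hij
      exact ge_of_lt v hij y
  refine ⟨(toC (Gam v (m + k) (m + k) y)).submatrix (FA_σ m k) id, ?_, fun X => ?_⟩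
  · rw [Matrix.det_permute, toC_det, hU]
    simp
  · ext i c
    simp only [Matrix.submatrix_apply, Matrix.mul_apply, id]
    refine Finset.sum_congr rfl fun l _ => ?_
    congr 1
    simp only [toC, Gam, Matrix.map_apply, Matrix.of_apply]
    rw [FA_σ_natAdd]

theorem FIN : S_FIN := by
  intro v T hv m k M g hg hinf y
  by_contra hcon
  push Not at hcon
  obtain ⟨h, hh, hbot⟩ := FA_chart (v := v) m k y
  have hunit : IsUnit h.det := isUnit_iff_ne_zero.2 hh
  have hhi : h⁻¹.det ≠ 0 := by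
    rw [Matrix.det_nonsing_inv, Ring.inverse_eq_inv']
    exact inv_ne_zero hh
  have hbotdet : ∀ X : Matrix (Fin (m + k)) (Fin k) ℂ,
      ((h * X).submatrix (Fin.natAdd m) id).det = DC v X y := by
    intro X
    rw [hbot]; rfl
  have hcancel : ∀ X : Matrix (Fin (m + k)) (Fin k) ℂ, h * (h⁻¹ * X) = X := by
    intro X
    rw [← Matrix.mul_assoc, Matrix.mul_nonsing_inv _ hunit, Matrix.one_mul]
  have hcancel' : ∀ X : Matrix (Fin (m + k)) (Fin k) ℂ, h⁻¹ * (h * X) = X := by
    intro X
    rw [← Matrix.mul_assoc, Matrix.nonsing_inv_mul _ hunit, Matrix.one_mul]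
  -- the zero set in the chart at `y` is bounded
  have hbdd : Bornology.IsBounded {x : Fin (m * k) → ℂ | InS v M (h⁻¹ * Xinf x)} := by
    by_contra hb
    have hb' : ∀ j : ℕ, ∃ x : Fin (m * k) → ℂ, InS v M (h⁻¹ * Xinf x) ∧ (j : ℝ) < ‖x‖ := by
      intro j
      by_contra hj
      push Not at hj
      exact hb (isBounded_iff_forall_norm_le.2 ⟨j, fun x hx => hj x hx⟩)
    choose x hx hxn using hb'
    obtain ⟨φ, C, X0, hφ, hC, hX0, hlim⟩ := Cpt (m + k) k (fun j => h⁻¹ * Xinf (x j))
      (fun j => (Full_Xinf (x j)).mul_left hhi)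
    have hIn : InS v M X0 := FA_InS_of_tendsto hv hlim fun j => FA_InS_mul_right hv (hx (φ j)) (C j)
    have hD := hcon X0 hX0 hIn
    have h1 : Tendsto (fun j => Xinf (x (φ j)) * C j) atTop (𝓝 (h * X0)) := by
      have hc : Continuous fun Z : Matrix (Fin (m + k)) (Fin k) ℂ => h * Z :=
        Continuous.matrix_mul continuous_const continuous_id
      have h2 := (hc.tendsto X0).comp hlim
      refine h2.congr fun j => ?_
      simp only [Function.comp]
      rw [Matrix.mul_assoc, hcancel]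
    have hA : Tendsto C atTop (𝓝 ((h * X0).submatrix (Fin.natAdd m) id)) := by
      have hc : Continuous fun Z : Matrix (Fin (m + k)) (Fin k) ℂ => Z.submatrix (Fin.natAdd m) id :=
        Continuous.matrix_submatrix continuous_id _ _
      have h2 := (hc.tendsto (h * X0)).comp h1
      refine h2.congr fun j => ?_
      simp only [Function.comp]
      ext i c
      simp [Xinf, Matrix.mul_apply]
    set A := (h * X0).submatrix (Fin.natAdd m) id with hAdef
    have hAdet : A.det ≠ 0 := by rw [hAdef, hbotdet]; exact hD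
    have hCinv : Tendsto (fun j => (C j)⁻¹) atTop (𝓝 A⁻¹) := by
      have hdet : Tendsto (fun j => (C j).det) atTop (𝓝 A.det) :=
        ((Continuous.matrix_det continuous_id).tendsto A).comp hA
      have hadj : Tendsto (fun j => (C j).adjugate) atTop (𝓝 A.adjugate) :=
        ((Continuous.matrix_adjugate continuous_id).tendsto A).comp hA
      simp only [Matrix.inv_def, Ring.inverse_eq_inv']
      exact (hdet.inv₀ hAdet).smul hadj
    have h3 : Tendsto (fun j => (Xinf (x (φ j)) : Matrix (Fin (m + k)) (Fin k) ℂ)) atTop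
        (𝓝 (h * X0 * A⁻¹)) := by
      have hc : Continuous fun p : Matrix (Fin (m + k)) (Fin k) ℂ × Matrix (Fin k) (Fin k) ℂ =>
          p.1 * p.2 := Continuous.matrix_mul continuous_fst continuous_snd
      have h4 := (hc.tendsto (h * X0, A⁻¹)).comp (h1.prodMk_nhds hCinv)
      refine h4.congr fun j => ?_
      simp only [Function.comp]
      rw [Matrix.mul_assoc, Matrix.mul_nonsing_inv _ (isUnit_iff_ne_zero.2 (hC j)), Matrix.mul_one]
    have h5 : Tendsto (fun j => x (φ j)) atTop
        (𝓝 fun q => (h * X0 * A⁻¹) (Fin.castAdd k (finProdFinEquiv.symm q).1)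
          (finProdFinEquiv.symm q).2) := by
      rw [tendsto_pi_nhds]
      intro q
      have h6 := ((continuous_apply_apply (Fin.castAdd k (finProdFinEquiv.symm q).1)
        (finProdFinEquiv.symm q).2).tendsto (h * X0 * A⁻¹)).comp h3
      refine h6.congr fun j => ?_
      simp only [Function.comp, Xinf, Matrix.of_apply, Fin.addCases_left]
      rw [Prod.mk.eta, Equiv.apply_symm_apply]
    have h6 : Tendsto (fun j => ‖x (φ j)‖) atTop atTop := by
      refine tendsto_atTop_mono (f := fun j : ℕ => (j : ℝ)) (fun j => ?_) tendsto_natCast_atTop_atTop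
      have h7 : (j : ℝ) ≤ (φ j : ℝ) := by exact_mod_cast hφ.id_le j
      exact h7.trans (hxn (φ j)).le
    exact not_tendsto_nhds_of_tendsto_atTop h6 _ h5.norm
  have hfin : {x : Fin (m * k) → ℂ | InS v M (h⁻¹ * Xinf x)}.Finite := by
    obtain ⟨p, hp⟩ := FA_poly hv M (m := m) (k := k) h⁻¹
    have h1 : {x : Fin (m * k) → ℂ | InS v M (h⁻¹ * Xinf x)} =
        {x : Fin (m * k) → ℂ | ∀ i, MvPolynomial.eval x (p i) = 0} := by
      ext x; exact hp x
    rw [h1] at hbdd ⊢
    exact FinAlg _ _ p hbdd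
  have hex : ∀ x : Fin (m * k) → ℂ, InS v M (g * Xinf x) →
      ∃ x' : Fin (m * k) → ℂ, (h * (g * Xinf x)) *
        ((h * (g * Xinf x)).submatrix (Fin.natAdd m) id)⁻¹ = Xinf x' := by
    intro x hx
    refine FA_exists_Xinf _ ?_
    rw [hbotdet]
    exact hcon _ ((Full_Xinf x).mul_left hg) hx
  choose! f hf using hex
  refine (Set.infinite_of_injOn_mapsTo (f := f) ?_ ?_ hinf) hfin
  · intro x₁ hx₁ x₂ hx₂ h12
    have h1 := hf x₁ hx₁
    have h2 := hf x₂ hx₂
    rw [h12, ← h2] at h1
    set A₁ := (h * (g * Xinf x₁)).submatrix (Fin.natAdd m) id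
    set A₂ := (h * (g * Xinf x₂)).submatrix (Fin.natAdd m) id
    have hA₁ : A₁.det ≠ 0 := by
      rw [hbotdet]; exact hcon _ ((Full_Xinf x₁).mul_left hg) hx₁
    have h3 : h * (g * Xinf x₁) = h * (g * (Xinf x₂ * (A₂⁻¹ * A₁))) := by
      have h4 := congrArg (fun Z => Z * A₁) h1
      simp only [Matrix.mul_assoc] at h4
      rw [Matrix.nonsing_inv_mul _ (isUnit_iff_ne_zero.2 hA₁), Matrix.mul_one] at h4
      rw [h4]
    have h5 := congrArg (fun Z => h⁻¹ * Z) h3
    simp only [hcancel'] at h5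
    have h6 := congrArg (fun Z => g⁻¹ * Z) h5
    simp only [← Matrix.mul_assoc] at h6
    rw [Matrix.nonsing_inv_mul _ (isUnit_iff_ne_zero.2 hg), Matrix.one_mul, Matrix.one_mul] at h6
    rw [Matrix.mul_assoc] at h6
    exact FA_Xinf_inj h6
  · intro x hx
    show InS v M (h⁻¹ * Xinf (f x))
    rw [← hf x hx, ← Matrix.mul_assoc, hcancel']
    exact FA_InS_mul_right hv hx _

end Pool.Agent.GC18
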