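import Pool.Agent.GC18.Stmts

/-!
# Grassmann convexity (MP_5fea31_an): zeros of limits of smooth functions   (helper81)
-/

set_option autoImplicit false

namespace Pool.Agent.GC18

open Matrix Filter Topology Set

open scoped Classical

/-- Rolle's theorem with multiplicities, one step -/
lemma Hur_step {q : ℕ} {g : ℝ → ℝ} (hg : ContDiff ℝ (⊤ : ℕ∞) g) {α β : ℝ} (z : Fin (q + 1) → ℝ)
    (hz : Monotone z) (hm : ∀ i, z i ∈ Icc α β)
    (hv : ∀ b, VanAt g ((Finset.univ.filter fun i => z i = b).card) b) :
    ∃ z' : Fin q → ℝ, (∀ i, z' i ∈ Icc α β) ∧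
      ∀ b, VanAt (deriv g) ((Finset.univ.filter fun i => z' i = b).card) b := by
  have hg0 : ∀ i, g (z i) = 0 := by
    intro i
    have h1 : 0 < (Finset.univ.filter fun i' => z i' = z i).card :=
      Finset.card_pos.2 ⟨i, by simp⟩
    have h2 := hv (z i) 0 h1
    rwa [iteratedDeriv_zero] at h2
  have key : ∀ i : Fin q, ∃ c, z i.castSucc ≤ c ∧ c ≤ z i.succ ∧
      (z i.castSucc < z i.succ → z i.castSucc < c ∧ c < z i.succ ∧ deriv g c = 0) := by
    intro i
    have hle : z i.castSucc ≤ z i.succ := hz (Fin.castSucc_lt_succ).le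
    rcases hle.eq_or_lt with h | h
    · exact ⟨z i.castSucc, le_rfl, hle, fun h' => absurd h (ne_of_lt h')⟩
    · obtain ⟨c, hc, hc'⟩ := exists_deriv_eq_zero h hg.continuous.continuousOn
        ((hg0 _).trans (hg0 _).symm)
      exact ⟨c, hc.1.le, hc.2.le, fun _ => ⟨hc.1, hc.2, hc'⟩⟩
  choose z' h1 h2 h3 using key
  refine ⟨z', fun i => ⟨(hm _).1.trans (h1 i), (h2 i).trans (hm _).2⟩, fun b => ?_⟩
  by_cases hb : ∃ i, z' i = b ∧ z i.castSucc < z i.succ
  · obtain ⟨i, hi, hlt⟩ := hb
    obtain ⟨h4, h5, h6⟩ := h3 i hlt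
    have hsub : (Finset.univ.filter fun i' => z' i' = b) ⊆ {i} := by
      intro i' hi'
      rw [Finset.mem_filter] at hi'
      rw [Finset.mem_singleton]
      rcases lt_trichotomy i' i with h | h | h
      · have h7 : z i'.succ ≤ z i.castSucc := hz (by
          rw [Fin.le_def]; simp only [Fin.val_succ, Fin.val_castSucc]; exact h)
        have h8 := h2 i'
        rw [hi'.2] at h8
        rw [hi] at h4
        linarith
      · exact h
      · have h7 : z i.succ ≤ z i'.castSucc := hz (by
          rw [Fin.le_def]; simp only [Fin.val_succ, Fin.val_castSucc]; exact h)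
        have h8 := h1 i'
        rw [hi'.2] at h8
        rw [hi] at h5
        linarith
    intro j hj
    have h9 := Finset.card_le_card hsub
    rw [Finset.card_singleton] at h9
    have : j = 0 := by omega
    subst this
    rw [iteratedDeriv_zero, ← hi]
    exact h6
  · push Not at hb
    have hall : ∀ i, z' i = b → z i.castSucc = b ∧ z i.succ = b := by
      intro i hi
      have h4 : z i.succ ≤ z i.castSucc := hb i hi
      have h5 := h1 i
      have h6 := h2 i
      rw [hi] at h5 h6
      exact ⟨le_antisymm h5 (h6.trans h4), le_antisymm (h4.trans h5) h6⟩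
    intro j hj
    have hne : (Finset.univ.filter fun i' => z' i' = b).Nonempty := by
      rw [← Finset.card_pos]; omega
    set F := Finset.univ.filter fun i' => z' i' = b with hF
    set i0 := F.min' hne with hi0
    have hi0F : i0 ∈ F := Finset.min'_mem F hne
    have hnot : i0.castSucc ∉ F.image Fin.succ := by
      rw [Finset.mem_image]
      rintro ⟨i, hi, hii⟩
      have h4 : i0 ≤ i := Finset.min'_le F i hi
      have h5 := congrArg Fin.val hii
      simp only [Fin.val_succ, Fin.val_castSucc] at h5
      have h6 : (i0 : ℕ) ≤ i := h4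
      omega
    have hsub : insert i0.castSucc (F.image Fin.succ) ⊆ Finset.univ.filter fun i => z i = b := by
      intro x hx
      rw [Finset.mem_insert, Finset.mem_image] at hx
      rw [Finset.mem_filter]
      refine ⟨Finset.mem_univ _, ?_⟩
      rcases hx with rfl | ⟨i, hi, rfl⟩
      · exact (hall i0 (Finset.mem_filter.1 hi0F).2).1
      · exact (hall i (Finset.mem_filter.1 hi).2).2
    have hcard := Finset.card_le_card hsub
    rw [Finset.card_insert_of_notMem hnot, Finset.card_image_of_injective _ (Fin.succ_injective _)]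
      at hcard
    have := hv b (j + 1) (by omega)
    rwa [iteratedDeriv_succ'] at this

/-- Rolle's theorem with multiplicities -/
lemma Hur_rolle (q : ℕ) : ∀ g : ℝ → ℝ, ContDiff ℝ (⊤ : ℕ∞) g → ∀ (α β : ℝ) (z : Fin q → ℝ),
    (∀ i, z i ∈ Icc α β) → (∀ b, VanAt g ((Finset.univ.filter fun i => z i = b).card) b) →
    ∀ l < q, ∃ c ∈ Icc α β, iteratedDeriv l g c = 0 := by
  induction q with
  | zero => intro g _ α β z _ _ l hl; omega
  | succ q ih =>
    intro g hg α β z hz hv l hl
    rcases l with _ | l
    · refine ⟨z 0, hz 0, ?_⟩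
      exact hv (z 0) 0 (Finset.card_pos.2 ⟨0, by simp⟩)
    · have hv' : ∀ b, VanAt g ((Finset.univ.filter fun i => (z ∘ Tuple.sort z) i = b).card) b := by
        intro b
        have : (Finset.univ.filter fun i => (z ∘ Tuple.sort z) i = b).card =
            (Finset.univ.filter fun i => z i = b).card := by
          refine Finset.card_bij (fun i _ => Tuple.sort z i) ?_ ?_ ?_
          · intro i hi
            simpa using hi
          · intro i _ j _ h
            exact (Tuple.sort z).injective h
          · intro i hi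
            refine ⟨(Tuple.sort z).symm i, ?_, by simp⟩
            simpa using hi
        rw [this]; exact hv b
      obtain ⟨z', hz', hvz'⟩ := Hur_step hg (z ∘ Tuple.sort z) (Tuple.monotone_sort z)
        (fun i => hz _) hv'
      have hg' : ContDiff ℝ (⊤ : ℕ∞) (deriv g) := (contDiff_infty_iff_deriv.1 hg).2
      obtain ⟨c, hc, hc'⟩ := ih (deriv g) hg' α β z' hz' hvz' l (by omega)
      refine ⟨c, hc, ?_⟩
      rw [iteratedDeriv_succ']
      exact hc'

lemma Hur_clm (L : ℂ →L[ℝ] ℝ) {f : ℝ → ℂ} (hf : ContDiff ℝ (⊤ : ℕ∞) f) (l : ℕ) :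
    iteratedDeriv l (fun t => L (f t)) = fun t => L (iteratedDeriv l f t) := by
  induction l with
  | zero => simp
  | succ l ih =>
    rw [iteratedDeriv_succ, ih]
    funext t
    have hd : DifferentiableAt ℝ (iteratedDeriv l f) t :=
      (hf.differentiable_iteratedDeriv l (by exact_mod_cast WithTop.coe_lt_top _)) t
    rw [iteratedDeriv_succ]
    exact (L.hasFDerivAt.comp_hasDerivAt t hd.hasDerivAt).deriv

/-- Hurwitz/Rolle for smooth functions of a real variable -/
theorem Hur : S_Hur := by
  intro f f0 a q z hf hf0 hlim hz hv l hl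
  have key : ∀ L : ℂ →L[ℝ] ℝ, L (iteratedDeriv l f0 a) = 0 := by
    intro L
    have hδ : Tendsto (fun j => ∑ i, |z j i - a|) atTop (𝓝 0) := by
      have h1 : ∀ i, Tendsto (fun j => |z j i - a|) atTop (𝓝 0) := by
        intro i
        have h2 := ((hz i).sub_const a).abs
        simpa using h2
      have h3 := tendsto_finsetSum Finset.univ fun i (_ : i ∈ Finset.univ) => h1 i
      simpa using h3
    have hc : ∀ j, ∃ c ∈ Icc (a - ∑ i, |z j i - a|) (a + ∑ i, |z j i - a|),
        L (iteratedDeriv l (f j) c) = 0 := by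
      intro j
      have h1 : ContDiff ℝ (⊤ : ℕ∞) (fun t => L (f j t)) := L.contDiff.comp (hf j)
      obtain ⟨c, hc, hc'⟩ := Hur_rolle q (fun t => L (f j t)) h1
        (a - ∑ i, |z j i - a|) (a + ∑ i, |z j i - a|) (z j) (by
          intro i
          have h2 : |z j i - a| ≤ ∑ i, |z j i - a| :=
            Finset.single_le_sum (f := fun i => |z j i - a|) (fun i _ => abs_nonneg _)
              (Finset.mem_univ i)
          have h3 := abs_le.1 h2
          constructor <;> linarith [h3.1, h3.2]) (by
          intro b j' hj'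
          rw [Hur_clm L (hf j)]
          simp only
          rw [hv j b j' hj', map_zero]) l hl
      refine ⟨c, hc, ?_⟩
      rw [Hur_clm L (hf j)] at hc'
      exact hc'
    choose c hc hc' using hc
    have hca : Tendsto c atTop (𝓝 a) := by
      have h1 : Tendsto (fun j => a - ∑ i, |z j i - a|) atTop (𝓝 a) := by
        simpa using hδ.const_sub a
      have h2 : Tendsto (fun j => a + ∑ i, |z j i - a|) atTop (𝓝 a) := by
        simpa using hδ.const_add a
      exact tendsto_of_tendsto_of_tendsto_of_le_of_le h1 h2 (fun j => (hc j).1) (fun j => (hc j).2)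
    have hloc : ∀ᶠ j in atTop, c j ∈ Icc (a - 1) (a + 1) := by
      have h1 : Icc (a - 1) (a + 1) ∈ 𝓝 a := Icc_mem_nhds (by linarith) (by linarith)
      exact hca h1
    have hcw : Tendsto c atTop (𝓝[Icc (a - 1) (a + 1)] a) :=
      tendsto_nhdsWithin_iff.2 ⟨hca, hloc⟩
    have hcont : ContinuousWithinAt (iteratedDeriv l f0) (Icc (a - 1) (a + 1)) a :=
      (hf0.continuous_iteratedDeriv l (by exact_mod_cast le_top)).continuousWithinAt
    have hT := (hlim l).tendsto_comp hcont hcw
    have hT2 := (L.continuous.tendsto _).comp hT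
    have hT3 : Tendsto (fun j => L (iteratedDeriv l (f j) (c j))) atTop
        (𝓝 (L (iteratedDeriv l f0 a))) := hT2
    simp only [hc'] at hT3
    exact (tendsto_nhds_unique hT3 tendsto_const_nhds)
  apply Complex.ext
  · exact key Complex.reCLM
  · exact key Complex.imCLM

end Pool.Agent.GC18
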