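import Pool.Agent.GC18.Rich

/-!
# Grassmann convexity (MP_5fea31_an): the rational normal curve, G(0)   (helper18)
-/

set_option autoImplicit false

namespace Pool.Agent.GC18

open Matrix Filter Topology Set Polynomial

/-- coefficient `∏ 1/(I i - i)!` (0 if some `I i < i`) -/
noncomputable def cI {n k : ℕ} (I : Fin k → Fin n) : ℝ :=
  ∏ i : Fin k, (if (i : ℕ) ≤ I i then (1 : ℝ) / ((I i : ℕ) - (i : ℕ)).factorial else 0)

/-- the polynomial `D(t;X)` of the rational normal curve -/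
noncomputable def PD {n k : ℕ} (X : Matrix (Fin n) (Fin k) ℂ) : Polynomial ℂ :=
  ∑ I : Fin k → Fin n, C (((cI I : ℝ) : ℂ) * (X.submatrix I id).det) *
    Polynomial.X ^ ((∑ i, (I i : ℕ)) - ∑ i : Fin k, (i : ℕ))

lemma prod_ge_one {n k : ℕ} (I : Fin k → Fin n) (t : ℝ) :
    ∏ i : Fin k, ge one1 i (I i) t = cI I * t ^ ((∑ i, (I i : ℕ)) - ∑ i : Fin k, (i : ℕ)) := by
  by_cases h : ∀ i : Fin k, (i : ℕ) ≤ I i
  · have e : (∑ i, (I i : ℕ)) - ∑ i : Fin k, (i : ℕ) = ∑ i : Fin k, ((I i : ℕ) - (i : ℕ)) := by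
      rw [Nat.sub_eq_iff_eq_add (Finset.sum_le_sum fun i _ => h i), ← Finset.sum_add_distrib]
      exact Finset.sum_congr rfl fun i _ => by have := h i; omega
    rw [e, ← Finset.prod_pow_eq_pow_sum, cI, ← Finset.prod_mul_distrib]
    refine Finset.prod_congr rfl fun i _ => ?_
    rw [ge_one, if_pos (h i), if_pos (h i)]; ring
  · push Not at h
    obtain ⟨i, hi⟩ := h
    rw [Finset.prod_eq_zero (Finset.mem_univ i) (by rw [ge_one, if_neg (not_le.2 hi)]),
      cI, Finset.prod_eq_zero (Finset.mem_univ i) (by rw [if_neg (not_le.2 hi)]), zero_mul]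

lemma DC_one_eq {n k : ℕ} (X : Matrix (Fin n) (Fin k) ℂ) (t : ℝ) :
    DC one1 X t = (PD X).eval (t : ℂ) := by
  rw [DC_expand, PD, eval_finsetSum]
  refine Finset.sum_congr rfl fun I _ => ?_
  rw [prod_ge_one]
  simp only [eval_mul, eval_C, eval_pow, eval_X]
  push_cast; ring

lemma hasDerivAt_eval_real (P : Polynomial ℂ) (t : ℝ) :
    HasDerivAt (fun t : ℝ => P.eval (t : ℂ)) ((derivative P).eval (t : ℂ)) t :=
  (P.hasDerivAt (t : ℂ)).comp_ofReal

lemma iteratedDeriv_eval_real (P : Polynomial ℂ) (j : ℕ) :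
    iteratedDeriv j (fun t : ℝ => P.eval (t : ℂ)) = fun t : ℝ => ((derivative^[j]) P).eval (t : ℂ) := by
  induction j generalizing P with
  | zero => simp
  | succ j ih =>
    rw [iteratedDeriv_succ']
    have : deriv (fun t : ℝ => P.eval (t : ℂ)) = fun t : ℝ => (derivative P).eval (t : ℂ) :=
      funext fun t => (hasDerivAt_eval_real P t).deriv
    rw [this, ih, Function.iterate_succ_apply]

lemma VanAt.le_rootMultiplicity {P : Polynomial ℂ} (hP : P ≠ 0) {q : ℕ} {t : ℝ}
    (h : VanAt (fun t : ℝ => P.eval (t : ℂ)) q t) : q ≤ P.rootMultiplicity (t : ℂ) := by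
  rcases Nat.eq_zero_or_pos q with h0 | h0
  · omega
  · have : q - 1 < P.rootMultiplicity (t : ℂ) := by
      rw [Polynomial.lt_rootMultiplicity_iff_isRoot_iterate_derivative hP]
      intro j hj
      have := h j (by omega)
      rw [iteratedDeriv_eval_real] at this
      exact this
    omega

lemma VanAt.of_le_rootMultiplicity {P : Polynomial ℂ} {q : ℕ} {t : ℝ}
    (h : q ≤ P.rootMultiplicity (t : ℂ)) : VanAt (fun t : ℝ => P.eval (t : ℂ)) q t := by
  intro j hj
  rw [iteratedDeriv_eval_real]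
  by_cases hP : P = 0
  · subst hP; simp
  · exact (Polynomial.lt_rootMultiplicity_iff_isRoot_iterate_derivative hP).1 (lt_of_lt_of_le hj h) j le_rfl

lemma sum_le_natDegree {P : Polynomial ℂ} (hP : P ≠ 0) (Z : Finset ℝ) (μ : ℝ → ℕ)
    (h : ∀ t ∈ Z, VanAt (fun t : ℝ => P.eval (t : ℂ)) (μ t) t) : ∑ t ∈ Z, μ t ≤ P.natDegree := by
  classical
  have h1 : ∑ t ∈ Z, μ t ≤ ∑ t ∈ Z, P.roots.count (t : ℂ) := by
    refine Finset.sum_le_sum fun t ht => ?_
    rw [Polynomial.count_roots]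
    exact VanAt.le_rootMultiplicity hP (h t ht)
  have h2 : ∑ t ∈ Z, P.roots.count (t : ℂ) = ∑ z ∈ Z.image (fun t : ℝ => (t : ℂ)), P.roots.count z := by
    rw [Finset.sum_image]
    intro a _ b _ hab
    exact Complex.ofReal_injective hab
  have h3 : ∑ z ∈ Z.image (fun t : ℝ => (t : ℂ)), P.roots.count z ≤ Multiset.card P.roots := by
    have := Multiset.sum_count_eq_card (s := P.roots.toFinset ∪ Z.image (fun t : ℝ => (t : ℂ))) (m := P.roots)
      (fun a ha => Finset.mem_union_left _ (Multiset.mem_toFinset.2 ha))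
    rw [← this]
    exact Finset.sum_le_sum_of_subset Finset.subset_union_right
  exact h1.trans (h2.le.trans (h3.trans (Polynomial.card_roots' P)))

/-- degree bound -/
lemma natDegree_PD_le {m k r : ℕ} {X : Matrix (Fin (m + k)) (Fin k) ℂ} (h : VanInf r X) :
    (PD X).natDegree ≤ m * k - r := by
  unfold PD
  refine Polynomial.natDegree_sum_le_of_forall_le _ _ fun I _ => ?_
  by_cases h0 : (X.submatrix I id).det = 0
  · rw [h0, mul_zero, C_0, zero_mul]; simp
  · refine (natDegree_C_mul_X_pow_le _ _).trans ?_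
    have h1 : ¬ (∑ i : Fin k, (m + k - k + (i : ℕ))) < (∑ i, (I i : ℕ)) + r := fun hh => h0 (h I hh)
    have e : ∑ i : Fin k, (m + k - k + (i : ℕ)) = m * k + ∑ i : Fin k, (i : ℕ) := by
      rw [Finset.sum_add_distrib]
      simp [mul_comm]
    rw [e] at h1
    omega

lemma PD_ne_zero {m k : ℕ} {X : Matrix (Fin (m + k)) (Fin k) ℂ} (hX : Full X) : PD X ≠ 0 := by
  intro h0
  have h1 : DC one1 X = fun _ => 0 := by
    funext t; rw [DC_one_eq, h0]; simp
  have := Rich one1 1 (wt_one1 one_pos) m k X hX 0 (VanInf_zero X) 0 (m * k + 1) (by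
    intro j _
    rw [h1]; simp)
  omega

theorem G0 : S_G0 := by
  intro m k X hX r hr Z μ hZ
  have h1 : r ≤ m * k := by
    have := Rich one1 1 (wt_one1 one_pos) m k X hX r hr 0 0 (fun j hj => absurd hj (Nat.not_lt_zero j))
    omega
  have h2 : DC one1 X = fun t : ℝ => (PD X).eval (t : ℂ) := funext fun t => DC_one_eq X t
  rw [h2] at hZ
  have h3 := sum_le_natDegree (PD_ne_zero hX) Z μ hZ
  have h4 := natDegree_PD_le hr
  omega

end Pool.Agent.GC18
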