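import Pool.Agent.GC18.Lim
import Pool.Agent.GC18.Poly
import Pool.Agent.GC18.Assemble
import Pool.Agent.GC18.Hur
import Pool.Agent.GC18.FinAlgCpt

/-!
# Grassmann convexity (MP_5fea31_an): LEMMA L, zeros tending to the two ends   (helper81)
-/

set_option autoImplicit false

namespace Pool.Agent.GC18

open Matrix Filter Topology Set

open scoped Classical

/-- sign of an end -/
noncomputable def LemL_e (s : Bool) : ℝ := if s then 1 else -1

lemma LemL_abs_e (s : Bool) : |LemL_e s| = 1 := by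
  cases s <;> simp [LemL_e]

/-- the scaling matrix -/
noncomputable def LemL_D (n : ℕ) (ρ : ℝ) : Matrix (Fin n) (Fin n) ℝ :=
  Matrix.diagonal (fun l : Fin n => ρ ^ (l : ℕ))

/-- its inverse -/
noncomputable def LemL_D' (n : ℕ) (ρ : ℝ) : Matrix (Fin n) (Fin n) ℝ :=
  Matrix.diagonal (fun l : Fin n => (ρ ^ (l : ℕ))⁻¹)

lemma LemL_D'_mul (n : ℕ) {ρ : ℝ} (hρ : ρ ≠ 0) : LemL_D' n ρ * LemL_D n ρ = 1 := by
  rw [LemL_D', LemL_D, Matrix.diagonal_mul_diagonal]
  have : (fun i : Fin n => (ρ ^ (i : ℕ))⁻¹ * ρ ^ (i : ℕ)) = fun _ => 1 := by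
    funext i; exact inv_mul_cancel₀ (pow_ne_zero _ hρ)
  rw [this, Matrix.diagonal_one]

lemma LemL_det_D (n : ℕ) {ρ : ℝ} (hρ : ρ ≠ 0) : (LemL_D n ρ).det ≠ 0 := by
  rw [LemL_D, Matrix.det_diagonal]
  exact Finset.prod_ne_zero_iff.2 fun i _ => pow_ne_zero _ hρ

lemma LemL_scale (k n : ℕ) (ρ t : ℝ) :
    Gam one1 k n t * LemL_D n ρ = LemL_D k ρ * Gam one1 k n (ρ * t) := by
  ext i l
  rw [LemL_D, LemL_D, Matrix.mul_diagonal, Matrix.diagonal_mul]
  simp only [Gam, Matrix.of_apply, ge_one]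
  split_ifs with h
  · rw [mul_pow]
    have : ρ ^ (l : ℕ) = ρ ^ (i : ℕ) * ρ ^ ((l : ℕ) - i) := by
      rw [← pow_add]; congr 1; omega
    rw [this]; ring
  · ring

lemma LemL_DC {k n : ℕ} (ρ : ℝ) (Y : Matrix (Fin n) (Fin k) ℂ) (C : Matrix (Fin k) (Fin k) ℂ)
    (t : ℝ) : DC one1 (toC (LemL_D n ρ) * Y * C) t =
      ((LemL_D k ρ).det : ℂ) * C.det * DC one1 Y (ρ * t) := by
  have h1 : toC (Gam one1 k n t) * (toC (LemL_D n ρ) * Y * C) =
      toC (LemL_D k ρ) * (toC (Gam one1 k n (ρ * t)) * Y) * C := by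
    rw [← Matrix.mul_assoc, ← Matrix.mul_assoc, ← toC_mul, LemL_scale, toC_mul,
      Matrix.mul_assoc (toC (LemL_D k ρ))]
  rw [DC, h1, Matrix.det_mul, Matrix.det_mul, toC_det, DC]
  ring

lemma LemL_minor {n k : ℕ} (ρ : ℝ) (X : Matrix (Fin n) (Fin k) ℂ) (C : Matrix (Fin k) (Fin k) ℂ)
    (I : Fin k → Fin n) : ((toC (LemL_D n ρ) * X * C).submatrix I id).det =
      (ρ : ℂ) ^ (∑ i, (I i : ℕ)) * (X.submatrix I id).det * C.det := by
  rw [det_submatrix_mul_right]
  have h1 : (toC (LemL_D n ρ) * X).submatrix I id =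
      Matrix.diagonal (fun i : Fin k => (ρ : ℂ) ^ ((I i : ℕ))) * X.submatrix I id := by
    ext i c
    rw [Matrix.diagonal_mul, Matrix.submatrix_apply]
    have : toC (LemL_D n ρ) = Matrix.diagonal (fun l : Fin n => (ρ : ℂ) ^ (l : ℕ)) := by
      rw [toC, LemL_D, Matrix.diagonal_map (by simp)]
      simp
    rw [this, Matrix.diagonal_mul]
    rfl
  rw [h1, Matrix.det_mul, Matrix.det_diagonal, Finset.prod_pow_eq_pow_sum]

lemma LemL_vanAt_scale {f : ℝ → ℂ} (hf : ContDiff ℝ (⊤ : ℕ∞) f) {ρ : ℝ} (K : ℂ) {μ : ℕ} {b : ℝ}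
    (h : VanAt f μ (ρ * b)) : VanAt (fun t => K * f (ρ * t)) μ b := by
  intro j hj
  rw [iteratedDeriv_const_mul_field, iteratedDeriv_comp_const_smul (hf.of_le (by exact_mod_cast le_top)) ρ]
  simp [h j hj]

/-- hypotheses of the induction -/
structure LemL_Hyp (m k r q : ℕ) (S : Finset (Fin q))
    (H : Bool → ℕ → Matrix (Fin (m + k)) (Fin (m + k)) ℝ)
    (X : ℕ → Matrix (Fin (m + k)) (Fin k) ℂ) (X0 : Matrix (Fin (m + k)) (Fin k) ℂ)
    (z : ℕ → Fin q → ℝ) (σ : Fin q → Bool) : Prop where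
  upper : ∀ s j a b, b < a → H s j a b = 0
  diag : ∀ s j a, H s j a a = 1
  lim : ∀ s, ∃ H0, Tendsto (H s) atTop (𝓝 H0)
  full : ∀ j, Full (X j)
  limX : Tendsto X atTop (𝓝 X0)
  full0 : Full X0
  inf : ∀ j, VanInf r (X j)
  tz : ∀ i ∈ S, Tendsto (fun j => LemL_e (σ i) * z j i) atTop atTop
  van : ∀ s j b, VanAt (DC one1 (toC (H s j) * X j))
    ((S.filter fun i => σ i = s ∧ z j i = b).card) b

lemma LemL_tendsto_minor {n k : ℕ} {X : ℕ → Matrix (Fin n) (Fin k) ℂ} {X0 : Matrix (Fin n) (Fin k) ℂ}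
    (h : Tendsto X atTop (𝓝 X0)) (I : Fin k → Fin n) :
    Tendsto (fun j => ((X j).submatrix I id).det) atTop (𝓝 (X0.submatrix I id).det) := by
  have hc : Continuous (fun Y : Matrix (Fin n) (Fin k) ℂ => (Y.submatrix I id).det) :=
    (continuous_id.matrix_submatrix I id).matrix_det
  exact (hc.tendsto X0).comp h

lemma LemL_zero {m k r q : ℕ} {H : Bool → ℕ → Matrix (Fin (m + k)) (Fin (m + k)) ℝ}
    {X : ℕ → Matrix (Fin (m + k)) (Fin k) ℂ} {X0 : Matrix (Fin (m + k)) (Fin k) ℂ}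
    {z : ℕ → Fin q → ℝ} {σ : Fin q → Bool} {S : Finset (Fin q)} (h : LemL_Hyp m k r q S H X X0 z σ) :
    VanInf r X0 := by
  intro I hI
  have h1 := LemL_tendsto_minor h.limX I
  have h2 : (fun j => ((X j).submatrix I id).det) = fun _ => 0 := funext fun j => h.inf j I hI
  rw [h2] at h1
  exact tendsto_nhds_unique h1 tendsto_const_nhds

/-- small minors of the rescaled limit vanish -/
lemma LemL_small {n k : ℕ} {X : ℕ → Matrix (Fin n) (Fin k) ℂ} {X0 X0' : Matrix (Fin n) (Fin k) ℂ}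
    {C : ℕ → Matrix (Fin k) (Fin k) ℂ} {ρ : ℕ → ℝ} (hρ1 : ∀ j, 1 ≤ ρ j)
    (hρ : Tendsto ρ atTop atTop) (hX : Tendsto X atTop (𝓝 X0))
    (hlim : Tendsto (fun j => toC (LemL_D n (ρ j)) * X j * C j) atTop (𝓝 X0'))
    {I J : Fin k → Fin n} (hI : (X0.submatrix I id).det ≠ 0)
    (hIJ : ∑ i, (J i : ℕ) < ∑ i, (I i : ℕ)) : (X0'.submatrix J id).det = 0 := by
  have h1 := LemL_tendsto_minor hlim I
  have h2 := LemL_tendsto_minor hlim J
  have h3 := LemL_tendsto_minor hX I
  have h4 := LemL_tendsto_minor hX J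
  obtain ⟨d, hd, hd0⟩ : ∃ d, ∑ i, (I i : ℕ) = ∑ i, (J i : ℕ) + d ∧ d ≠ 0 :=
    ⟨∑ i, (I i : ℕ) - ∑ i, (J i : ℕ), by omega, by omega⟩
  have h5 : Tendsto (fun j => ((ρ j : ℂ) ^ d)⁻¹) atTop (𝓝 0) := by
    have h6 : Tendsto (fun j => (ρ j ^ d)⁻¹) atTop (𝓝 0) :=
      tendsto_inv_atTop_zero.comp ((tendsto_pow_atTop hd0).comp hρ)
    have h7 := (Complex.continuous_ofReal.tendsto 0).comp h6
    have h8 : (fun j => ((ρ j : ℂ) ^ d)⁻¹) = Complex.ofReal ∘ (fun j => (ρ j ^ d)⁻¹) := by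
      funext j; simp
    rw [h8]; simpa using h7
  have h9 : (fun j => ((toC (LemL_D n (ρ j)) * X j * C j).submatrix J id).det *
      ((X j).submatrix I id).det) = fun j => ((toC (LemL_D n (ρ j)) * X j * C j).submatrix I id).det *
      ((X j).submatrix J id).det * ((ρ j : ℂ) ^ d)⁻¹ := by
    funext j
    have hne : ((ρ j : ℂ) ^ d) ≠ 0 := by
      apply pow_ne_zero
      have := hρ1 j
      exact_mod_cast (by linarith : (0 : ℝ) < ρ j).ne'
    rw [LemL_minor, LemL_minor, hd, pow_add]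
    field_simp
  have h10 := h2.mul h3
  rw [h9] at h10
  have h11 := (h1.mul h4).mul h5
  rw [mul_zero] at h11
  have h12 := tendsto_nhds_unique h10 h11
  exact (mul_eq_zero.1 h12).resolve_right hI

/-- the order at `0` -/
lemma LemL_order {n k : ℕ} {X : Matrix (Fin n) (Fin k) ℂ} {d : ℕ}
    (h : ∀ J : Fin k → Fin n, ∑ i, (J i : ℕ) < d → (X.submatrix J id).det = 0) (hP : PD X ≠ 0) :
    VanAt (DC one1 X) (d - ∑ i : Fin k, (i : ℕ)) 0 := by
  have h1 : DC one1 X = fun t : ℝ => (PD X).eval (t : ℂ) := funext fun t => DC_one_eq X t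
  rw [h1]
  apply VanAt.of_le_rootMultiplicity
  rw [Polynomial.le_rootMultiplicity_iff hP, Complex.ofReal_zero, Polynomial.C_0, sub_zero, PD]
  apply Finset.dvd_sum
  intro J _
  by_cases hJ : ∑ i, (J i : ℕ) < d
  · rw [h J hJ, mul_zero, Polynomial.C_0, zero_mul]; exact dvd_zero _
  · exact (pow_dvd_pow _ (by omega)).mul_left _

/-- the rescaled unitriangular matrices tend to `1` -/
lemma LemL_H {n : ℕ} {H : ℕ → Matrix (Fin n) (Fin n) ℝ} {H0 : Matrix (Fin n) (Fin n) ℝ}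
    {ρ : ℕ → ℝ} (hu : ∀ j a b, b < a → H j a b = 0) (hd : ∀ j a, H j a a = 1)
    (hH : Tendsto H atTop (𝓝 H0)) (hρ1 : ∀ j, 1 ≤ ρ j) (hρ : Tendsto ρ atTop atTop) :
    Tendsto (fun j => LemL_D n (ρ j) * H j * LemL_D' n (ρ j)) atTop (𝓝 1) := by
  refine tendsto_pi_nhds.2 fun a => tendsto_pi_nhds.2 fun b => ?_
  have e : ∀ j, (LemL_D n (ρ j) * H j * LemL_D' n (ρ j)) a b =
      ρ j ^ (a : ℕ) * H j a b * (ρ j ^ (b : ℕ))⁻¹ := by
    intro j
    rw [LemL_D, LemL_D', Matrix.mul_diagonal, Matrix.diagonal_mul]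
  have hne : ∀ j (l : ℕ), ρ j ^ l ≠ 0 := fun j l => pow_ne_zero _ (by linarith [hρ1 j])
  rcases lt_trichotomy a b with h | h | h
  · rw [Matrix.one_apply_ne h.ne]
    obtain ⟨d, hd', hd0⟩ : ∃ d, (b : ℕ) = (a : ℕ) + d ∧ d ≠ 0 :=
      ⟨(b : ℕ) - a, by have : (a : ℕ) < b := h; omega, by have : (a : ℕ) < b := h; omega⟩
    have h6 : Tendsto (fun j => (ρ j ^ d)⁻¹) atTop (𝓝 0) :=
      tendsto_inv_atTop_zero.comp ((tendsto_pow_atTop hd0).comp hρ)
    have h7 : Tendsto (fun j => H j a b) atTop (𝓝 (H0 a b)) :=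
      ((continuous_apply_apply a b).tendsto H0).comp hH
    have h8 := h7.mul h6
    rw [mul_zero] at h8
    refine h8.congr fun j => ?_
    have h1 := hne j a
    have h2 := hne j d
    rw [e, hd', pow_add]
    field_simp
  · subst h
    rw [Matrix.one_apply_eq]
    refine tendsto_const_nhds.congr fun j => ?_
    rw [e, hd, mul_one, mul_inv_cancel₀ (hne j a)]
  · rw [Matrix.one_apply_ne h.ne']
    refine tendsto_const_nhds.congr fun j => ?_
    rw [e, hu j a b h, mul_zero, zero_mul]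

/-- zeros of limits -/
lemma LemL_hur {n k q : ℕ} {Y : ℕ → Matrix (Fin n) (Fin k) ℂ} {Y0 : Matrix (Fin n) (Fin k) ℂ}
    (hY : Tendsto Y atTop (𝓝 Y0)) {z : ℕ → Fin q → ℝ} {T : Finset (Fin q)} {c : ℝ}
    (hz : ∀ i ∈ T, Tendsto (fun j => z j i) atTop (𝓝 c))
    (hv : ∀ j b, VanAt (DC one1 (Y j)) ((T.filter fun i => z j i = b).card) b) :
    VanAt (DC one1 Y0) T.card c := by
  have hw : Wt one1 1 := wt_one1 one_pos
  have hunif : ∀ l : ℕ, TendstoUniformlyOn (fun j => iteratedDeriv l (DC one1 (Y j)))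
      (iteratedDeriv l (DC one1 Y0)) atTop (Icc (c - 1) (c + 1)) := by
    intro l
    have := Lim_DC_unif hw (s := fun _ => 0) (s0 := 0) tendsto_const_nhds hY l
      (K := Icc (c - 1) (c + 1)) isCompact_Icc
    rwa [om_zero] at this
  refine Hur (fun j => DC one1 (Y j)) (DC one1 Y0) c T.card
    (fun j i => z j ((T.equivFin.symm i : T) : Fin q)) (fun j => contDiff_DC hw _) (contDiff_DC hw _)
    hunif (fun i => hz _ (T.equivFin.symm i).2) ?_
  intro j b
  refine (hv j b).mono ?_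
  apply Finset.card_le_card_of_injOn (fun i : Fin T.card => ((T.equivFin.symm i : T) : Fin q))
  · intro i hi
    simp only [Finset.coe_filter, Finset.mem_univ, true_and, mem_ofPred_eq] at hi ⊢
    exact ⟨(T.equivFin.symm i).2, hi⟩
  · intro i _ j _ h
    exact T.equivFin.symm.injective (Subtype.ext h)

lemma LemL_e_sq (s : Bool) : LemL_e s * LemL_e s = 1 := by
  cases s <;> simp [LemL_e]

lemma LemL_e_pos {s : Bool} {c : ℝ} (hc : 0 < c) : (0 < LemL_e s * c ↔ s = true) := by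
  cases s <;> simp [LemL_e, hc, hc.le]

/-- one rescaling step -/
lemma LemL_step {m k r q : ℕ} {S : Finset (Fin q)}
    {H : Bool → ℕ → Matrix (Fin (m + k)) (Fin (m + k)) ℝ}
    {X : ℕ → Matrix (Fin (m + k)) (Fin k) ℂ} {X0 : Matrix (Fin (m + k)) (Fin k) ℂ}
    {z : ℕ → Fin q → ℝ} {σ : Fin q → Bool} (h : LemL_Hyp m k r q S H X X0 z σ)
    (hS : S.Nonempty) :
    ∃ (S' : Finset (Fin q)) (H' : Bool → ℕ → Matrix (Fin (m + k)) (Fin (m + k)) ℝ)
      (X' : ℕ → Matrix (Fin (m + k)) (Fin k) ℂ) (X0' : Matrix (Fin (m + k)) (Fin k) ℂ)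
      (z' : ℕ → Fin q → ℝ), S'.card < S.card ∧ LemL_Hyp m k r q S' H' X' X0' z' σ ∧
        (VanInf (r + S'.card) X0' → VanInf (r + S.card) X0) := by
  -- the scale
  obtain ⟨ρ, hρdef⟩ : ∃ ρ : ℕ → ℝ, ρ = fun j => max 1 (S.inf' hS (fun i => |z j i|)) := ⟨_, rfl⟩
  have hρ1 : ∀ j, 1 ≤ ρ j := fun j => by rw [hρdef]; exact le_max_left _ _
  have hρ0 : ∀ j, 0 < ρ j := fun j => lt_of_lt_of_le one_pos (hρ1 j)
  have habs : ∀ i ∈ S, Tendsto (fun j => |z j i|) atTop atTop := by
    intro i hi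
    refine tendsto_atTop_mono (fun j => ?_) (h.tz i hi)
    calc LemL_e (σ i) * z j i ≤ |LemL_e (σ i) * z j i| := le_abs_self _
      _ = |z j i| := by rw [abs_mul, LemL_abs_e, one_mul]
  have hinf : Tendsto (fun j => S.inf' hS (fun i => |z j i|)) atTop atTop := by
    rw [tendsto_atTop]
    intro A
    have : ∀ᶠ j in atTop, ∀ i ∈ S, A ≤ |z j i| :=
      (Filter.eventually_all_finset S).2 fun i hi => (tendsto_atTop.1 (habs i hi)) A
    filter_upwards [this] with j hj
    exact (Finset.le_inf'_iff hS _).2 hj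
  have hρt : Tendsto ρ atTop atTop := by
    rw [hρdef]; exact tendsto_atTop_mono (fun j => le_max_right _ _) hinf
  have hρeq : ∀ᶠ j in atTop, ρ j = S.inf' hS (fun i => |z j i|) := by
    filter_upwards [tendsto_atTop.1 hinf 1] with j hj
    rw [hρdef]
    exact max_eq_right hj
  have hpos : ∀ᶠ j in atTop, ∀ i ∈ S, LemL_e (σ i) * z j i = |z j i| := by
    refine (Filter.eventually_all_finset S).2 fun i hi => ?_
    filter_upwards [tendsto_atTop.1 (h.tz i hi) 0] with j hj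
    rw [← abs_of_nonneg hj, abs_mul, LemL_abs_e, one_mul]
  have hge : ∀ᶠ j in atTop, ∀ i ∈ S, 1 ≤ LemL_e (σ i) * z j i / ρ j := by
    filter_upwards [hρeq, hpos] with j h1 h2 i hi
    rw [h2 i hi, le_div_iff₀ (hρ0 j), one_mul, h1]
    exact Finset.inf'_le _ hi
  -- compactness
  obtain ⟨φ, C, X0', hφ, hC, hF0, hlim⟩ := Cpt (m + k) k
    (fun j => toC (LemL_D (m + k) (ρ j)) * X j)
    (fun j => (h.full j).mul_left (by
      rw [toC_det]; exact_mod_cast LemL_det_D (m + k) (hρ0 j).ne'))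
  obtain ⟨ζ, -, ψ, hψ, hζ⟩ := isCompact_univ.tendsto_subseq
    (x := fun j (i : Fin q) => ((LemL_e (σ i) * z (φ j) i / ρ (φ j) : ℝ) : EReal))
    (fun _ => mem_univ _)
  obtain ⟨θ, hθdef⟩ : ∃ θ : ℕ → ℕ, θ = φ ∘ ψ := ⟨_, rfl⟩
  have hθ : StrictMono θ := by rw [hθdef]; exact hφ.comp hψ
  have hθt : Tendsto θ atTop atTop := hθ.tendsto_atTop
  have hζ' : ∀ i, Tendsto (fun j => ((LemL_e (σ i) * z (θ j) i / ρ (θ j) : ℝ) : EReal)) atTop
      (𝓝 (ζ i)) := by
    intro i
    have := (tendsto_pi_nhds.1 hζ) i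
    rw [hθdef]
    exact this
  have hX' : Tendsto (fun j => toC (LemL_D (m + k) (ρ (θ j))) * X (θ j) * C (ψ j)) atTop
      (𝓝 X0') := by
    have := hlim.comp hψ.tendsto_atTop
    rw [hθdef]
    exact this
  have hge' : ∀ᶠ j in atTop, ∀ i ∈ S, 1 ≤ LemL_e (σ i) * z (θ j) i / ρ (θ j) :=
    hθt.eventually hge
  have hρt' : Tendsto (fun j => ρ (θ j)) atTop atTop := hρt.comp hθt
  -- the new data
  obtain ⟨S', hS'⟩ : ∃ S' : Finset (Fin q), S' = S.filter fun i => ζ i = ⊤ := ⟨_, rfl⟩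
  obtain ⟨H', hH'⟩ : ∃ H' : Bool → ℕ → Matrix (Fin (m + k)) (Fin (m + k)) ℝ,
      H' = fun s j => LemL_D (m + k) (ρ (θ j)) * H s (θ j) * LemL_D' (m + k) (ρ (θ j)) := ⟨_, rfl⟩
  obtain ⟨X', hXd⟩ : ∃ X' : ℕ → Matrix (Fin (m + k)) (Fin k) ℂ,
      X' = fun j => toC (LemL_D (m + k) (ρ (θ j))) * X (θ j) * C (ψ j) := ⟨_, rfl⟩
  obtain ⟨z', hz'⟩ : ∃ z' : ℕ → Fin q → ℝ, z' = fun j i => z (θ j) i / ρ (θ j) := ⟨_, rfl⟩
  have hH1 : ∀ s, Tendsto (H' s) atTop (𝓝 1) := by
    intro s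
    obtain ⟨H0, hH0⟩ := h.lim s
    rw [hH']
    exact LemL_H (fun j => h.upper s (θ j)) (fun j => h.diag s (θ j)) (hH0.comp hθt)
      (fun j => hρ1 (θ j)) hρt'
  -- zeros of the rescaled functions
  have hDC : ∀ s j, DC one1 (toC (H' s j) * X' j) = fun t =>
      (((LemL_D k (ρ (θ j))).det : ℂ) * (C (ψ j)).det) *
        DC one1 (toC (H s (θ j)) * X (θ j)) (ρ (θ j) * t) := by
    intro s j
    funext t
    have h1 : toC (H' s j) * X' j =
        toC (LemL_D (m + k) (ρ (θ j))) * (toC (H s (θ j)) * X (θ j)) * C (ψ j) := by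
      rw [hH', hXd]
      simp only
      have h2 : toC (LemL_D' (m + k) (ρ (θ j))) * toC (LemL_D (m + k) (ρ (θ j))) = 1 := by
        rw [← toC_mul, LemL_D'_mul _ (hρ0 _).ne', toC, Matrix.map_one _ (by simp) (by simp)]
      rw [toC_mul, toC_mul, Matrix.mul_assoc (toC (LemL_D (m + k) (ρ (θ j)))),
        ← Matrix.mul_assoc (toC (LemL_D (m + k) (ρ (θ j))) * _), ← Matrix.mul_assoc
        (toC (LemL_D (m + k) (ρ (θ j))) * _), Matrix.mul_assoc (toC (LemL_D (m + k) (ρ (θ j)))),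
        Matrix.mul_assoc (toC (H s (θ j))), h2, Matrix.mul_one, ← Matrix.mul_assoc]
    rw [h1, LemL_DC]
  have hvan : ∀ s j b, VanAt (DC one1 (toC (H' s j) * X' j))
      ((S.filter fun i => σ i = s ∧ z' j i = b).card) b := by
    intro s j b
    rw [hDC]
    apply LemL_vanAt_scale (contDiff_DC (wt_one1 one_pos) _)
    have h1 : (S.filter fun i => σ i = s ∧ z' j i = b) =
        S.filter fun i => σ i = s ∧ z (θ j) i = ρ (θ j) * b := by
      apply Finset.filter_congr
      intro i _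
      rw [hz']
      simp only
      rw [div_eq_iff (hρ0 (θ j)).ne', mul_comm b]
    rw [h1]
    exact h.van s (θ j) _
  -- finite limits
  have hfin : ∀ i ∈ S, ζ i ≠ ⊤ → ∃ c : ℝ, 1 ≤ c ∧ ζ i = (c : EReal) ∧
      Tendsto (fun j => z' j i) atTop (𝓝 (LemL_e (σ i) * c)) := by
    intro i hi hne
    have h1 : (1 : EReal) ≤ ζ i := by
      refine ge_of_tendsto (hζ' i) ?_
      filter_upwards [hge'] with j hj
      exact_mod_cast hj i hi
    have hbot : ζ i ≠ ⊥ := by
      intro hb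
      rw [hb, le_bot_iff] at h1
      exact EReal.coe_ne_bot 1 h1
    obtain ⟨c, hc⟩ : ∃ c : ℝ, ζ i = (c : EReal) := ⟨(ζ i).toReal, (EReal.coe_toReal hne hbot).symm⟩
    refine ⟨c, ?_, hc, ?_⟩
    · rw [hc] at h1
      exact_mod_cast h1
    · have h2 := hζ' i
      rw [hc, EReal.tendsto_coe] at h2
      have h3 := h2.const_mul (LemL_e (σ i))
      refine h3.congr fun j => ?_
      rw [hz']
      simp only
      rw [mul_div_assoc, ← mul_assoc, LemL_e_sq, one_mul]
  choose! c hc1 hcζ hct using hfin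
  -- some limit is finite
  have hex : ∃ i ∈ S, ζ i ≠ ⊤ := by
    by_contra hcon
    push Not at hcon
    have h1 : ∀ᶠ j in atTop, ∀ i ∈ S, 2 ≤ LemL_e (σ i) * z (θ j) i / ρ (θ j) := by
      refine (Filter.eventually_all_finset S).2 fun i hi => ?_
      have h2 := hζ' i
      rw [hcon i hi, EReal.tendsto_coe_nhds_top_iff] at h2
      exact tendsto_atTop.1 h2 2
    have h3 : ∀ᶠ j in atTop, (∀ i ∈ S, 2 ≤ LemL_e (σ i) * z (θ j) i / ρ (θ j)) ∧
        ρ (θ j) = S.inf' hS (fun i => |z (θ j) i|) ∧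
        ∀ i ∈ S, LemL_e (σ i) * z (θ j) i = |z (θ j) i| :=
      h1.and ((hθt.eventually hρeq).and (hθt.eventually hpos))
    obtain ⟨j, h4, h5, h6⟩ := h3.exists
    obtain ⟨i, hi, hi'⟩ := Finset.exists_mem_eq_inf' hS (fun i => |z (θ j) i|)
    have h7 := h4 i hi
    rw [h6 i hi, ← hi', ← h5, div_self (hρ0 _).ne'] at h7
    linarith
  refine ⟨S', H', X', X0', z', ?_, ?_, ?_⟩
  · rw [hS']
    apply Finset.card_lt_card
    rw [Finset.filter_ssubset]
    obtain ⟨i, hi, hne⟩ := hex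
    exact ⟨i, hi, hne⟩
  · refine ⟨?_, ?_, fun s => ⟨1, hH1 s⟩, ?_, ?_, hF0, ?_, ?_, ?_⟩
    · intro s j a b hab
      rw [hH']
      simp only
      rw [LemL_D, LemL_D', Matrix.mul_diagonal, Matrix.diagonal_mul, h.upper s _ a b hab,
        mul_zero, zero_mul]
    · intro s j a
      rw [hH']
      simp only
      rw [LemL_D, LemL_D', Matrix.mul_diagonal, Matrix.diagonal_mul, h.diag, mul_one,
        mul_inv_cancel₀ (pow_ne_zero _ (hρ0 _).ne')]
    · intro j
      rw [hXd]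
      exact ((h.full _).mul_left (by
        rw [toC_det]; exact_mod_cast LemL_det_D (m + k) (hρ0 _).ne')).mul_right (hC _)
    · rw [hXd]; exact hX'
    · intro j I hI
      rw [hXd]
      simp only
      rw [LemL_minor, h.inf (θ j) I hI, mul_zero, zero_mul]
    · intro i hi
      rw [hS', Finset.mem_filter] at hi
      have h2 := hζ' i
      rw [hi.2, EReal.tendsto_coe_nhds_top_iff] at h2
      refine h2.congr fun j => ?_
      rw [hz', mul_div_assoc]
    · intro s j b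
      refine (hvan s j b).mono (Finset.card_le_card ?_)
      rw [hS']
      exact Finset.filter_subset_filter _ (Finset.filter_subset _ _)
  · intro hV I hI
    by_contra hne
    -- the finite limits
    obtain ⟨R, hR⟩ : ∃ R : Finset (Fin q), R = S.filter fun i => ζ i ≠ ⊤ := ⟨_, rfl⟩
    obtain ⟨η, hη⟩ : ∃ η : Fin q → ℝ, η = fun i => LemL_e (σ i) * c i := ⟨_, rfl⟩
    have hRS : ∀ i ∈ R, i ∈ S ∧ ζ i ≠ ⊤ := fun i hi => by
      rw [hR, Finset.mem_filter] at hi; exact hi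
    have hη0 : ∀ i ∈ R, η i ≠ 0 := by
      intro i hi
      obtain ⟨h1, h2⟩ := hRS i hi
      rw [hη]
      intro h3
      have h4 := congrArg abs h3
      simp only [abs_mul, LemL_abs_e, one_mul, abs_zero, abs_eq_zero] at h4
      have := hc1 i h1 h2
      linarith
    obtain ⟨μ, hμ⟩ : ∃ μ : ℝ → ℕ, μ = fun t => if t = 0 then
      (∑ i, (I i : ℕ)) - ∑ i : Fin k, (i : ℕ) else (R.filter fun i => η i = t).card := ⟨_, rfl⟩
    have h0 : (0 : ℝ) ∉ R.image η := by
      rw [Finset.mem_image]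
      rintro ⟨i, hi, hi'⟩
      exact hη0 i hi hi'
    have hG := G0 m k X0' hF0 (r + S'.card) hV (insert 0 (R.image η)) μ (by
      intro t ht
      rw [Finset.mem_insert] at ht
      by_cases ht0 : t = 0
      · rw [hμ, ht0]
        simp only [if_true]
        exact LemL_order (fun J hJ => LemL_small (fun j => hρ1 (θ j)) hρt' (h.limX.comp hθt)
          hX' hne hJ) (PD_ne_zero hF0)
      · rw [hμ]
        simp only [if_neg ht0]
        -- the sign of `t`
        obtain ⟨s, hs⟩ : ∃ s : Bool, s = decide (0 < t) := ⟨_, rfl⟩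
        have hsig : ∀ i ∈ R, η i = t → σ i = s := by
          intro i hi hit
          obtain ⟨h1, h2⟩ := hRS i hi
          have h3 : 0 < c i := lt_of_lt_of_le one_pos (hc1 i h1 h2)
          have h4 := LemL_e_pos (s := σ i) h3
          rw [hη] at hit
          simp only at hit
          rw [hit] at h4
          rw [hs]
          by_cases h5 : 0 < t
          · rw [h4.1 h5]; simp [h5]
          · have h6 : ¬ σ i = true := fun h7 => h5 (h4.2 h7)
            simp only [Bool.not_eq_true] at h6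
            rw [h6]; simp [h5]
        have hY : Tendsto (fun j => toC (H' s j) * X' j) atTop (𝓝 X0') := by
          have h1 : Tendsto (fun j => toC (H' s j)) atTop (𝓝 1) := by
            have h2 : Continuous (fun M : Matrix (Fin (m + k)) (Fin (m + k)) ℝ => toC M) := by
              unfold toC
              exact continuous_id.matrix_map Complex.continuous_ofReal
            have h3 := (h2.tendsto 1).comp (hH1 s)
            have h4 : toC (1 : Matrix (Fin (m + k)) (Fin (m + k)) ℝ) = 1 := by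
              rw [toC, Matrix.map_one _ (by simp) (by simp)]
            rw [h4] at h3
            exact h3
          have h5 : Tendsto X' atTop (𝓝 X0') := by rw [hXd]; exact hX'
          have h6 : Continuous (fun p : Matrix (Fin (m + k)) (Fin (m + k)) ℂ ×
              Matrix (Fin (m + k)) (Fin k) ℂ => p.1 * p.2) :=
            continuous_fst.matrix_mul continuous_snd
          have h7 := (h6.tendsto (1, X0')).comp (h1.prodMk_nhds h5)
          simp only [Matrix.one_mul] at h7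
          exact h7
        refine LemL_hur hY (z := z') (fun i hi => ?_) (fun j b => ?_)
        · rw [Finset.mem_filter] at hi
          obtain ⟨h1, h2⟩ := hRS i hi.1
          have h3 := hct i h1 h2
          rw [← hi.2, hη]
          exact h3
        · refine (hvan s j b).mono (Finset.card_le_card ?_)
          intro i hi
          rw [Finset.mem_filter, Finset.mem_filter] at hi
          rw [Finset.mem_filter]
          exact ⟨(hRS i hi.1.1).1, hsig i hi.1.1 hi.1.2, hi.2⟩)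
    have hsum : ∑ t ∈ insert 0 (R.image η), μ t =
        ((∑ i, (I i : ℕ)) - ∑ i : Fin k, (i : ℕ)) + R.card := by
      rw [Finset.sum_insert h0]
      congr 1
      · rw [hμ]; simp
      · rw [Finset.card_eq_sum_card_image η R]
        apply Finset.sum_congr rfl
        intro t ht
        have ht0 : t ≠ 0 := fun h => h0 (h ▸ ht)
        rw [hμ]
        simp only [if_neg ht0]
    have hcard : S'.card + R.card = S.card := by
      rw [hS', hR]
      exact Finset.card_filter_add_card_filter_not _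
    have e : ∑ i : Fin k, (m + k - k + (i : ℕ)) = m * k + ∑ i : Fin k, (i : ℕ) := by
      rw [Finset.sum_add_distrib]
      simp [mul_comm]
    rw [e] at hI
    rw [hsum] at hG
    omega

lemma LemL_main (m k r : ℕ) (N : ℕ) : ∀ (q : ℕ) (S : Finset (Fin q)), S.card ≤ N →
    ∀ (H : Bool → ℕ → Matrix (Fin (m + k)) (Fin (m + k)) ℝ)
      (X : ℕ → Matrix (Fin (m + k)) (Fin k) ℂ) (X0 : Matrix (Fin (m + k)) (Fin k) ℂ)
      (z : ℕ → Fin q → ℝ) (σ : Fin q → Bool), LemL_Hyp m k r q S H X X0 z σ →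
      VanInf (r + S.card) X0 := by
  induction N with
  | zero =>
    intro q S hS H X X0 z σ h
    rw [Nat.le_zero.1 hS, add_zero]
    exact LemL_zero h
  | succ N ih =>
    intro q S hS H X X0 z σ h
    rcases S.eq_empty_or_nonempty with h0 | h0
    · rw [h0, Finset.card_empty, add_zero]
      exact LemL_zero h
    · obtain ⟨S', H', X', X0', z', h1, h2, h3⟩ := LemL_step h h0
      exact h3 (ih q S' (by omega) H' X' X0' z' σ h2)

/-- LEMMA L -/
theorem LemL : S_LemL := by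
  intro m k Hp Hm Hp0 Hm0 hp hm hpt hmt X X0 r q z σ hF hX hF0 hV hz1 hz2 hv1 hv2
  have h : LemL_Hyp m k r q Finset.univ (fun s => if s then Hp else Hm) X X0 z σ := by
    refine ⟨?_, ?_, ?_, hF, hX, hF0, hV, ?_, ?_⟩
    · intro s j a b hab
      cases s
      · simpa using (hm j).1 a b hab
      · simpa using (hp j).1 a b hab
    · intro s j a
      cases s
      · simpa using (hm j).2 a
      · simpa using (hp j).2 a
    · intro s
      cases s
      · exact ⟨Hm0, by simpa using hmt⟩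
      · exact ⟨Hp0, by simpa using hpt⟩
    · intro i _
      cases hi : σ i
      · have := tendsto_neg_atBot_atTop.comp (hz2 i hi)
        refine this.congr fun j => ?_
        simp [LemL_e]
      · refine (hz1 i hi).congr fun j => ?_
        simp [LemL_e]
    · intro s j b
      cases s
      · simpa using hv2 j b
      · simpa using hv1 j b
  have := LemL_main m k r q q Finset.univ (by simp) _ X X0 z σ h
  simpa using this

end Pool.Agent.GC18
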