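import Pool.Agent.GC18.Alg
import Pool.Agent.GC18.Stmts

/-!
# Grassmann convexity (MP_5fea31_an): limits of planes with zeros, `G` is open   (helper60)
-/

set_option autoImplicit false

namespace Pool.Agent.GC18

open Matrix Filter Topology Set

open scoped Classical

/-! ## elementary facts -/

lemma Lim_toC_mul {a b c : Type*} [Fintype b] (M : Matrix a b ℝ) (N : Matrix b c ℝ) :
    toC (M * N) = toC M * toC N := by
  ext i j
  simp [toC, Matrix.mul_apply]

lemma VanAt.mono {F : Type*} [NormedAddCommGroup F] [NormedSpace ℝ F] {f : ℝ → F} {q q' : ℕ}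
    {t : ℝ} (h : VanAt f q t) (hq : q' ≤ q) : VanAt f q' t := fun j hj => h j (lt_of_lt_of_le hj hq)

lemma VanAt.zero {F : Type*} [NormedAddCommGroup F] [NormedSpace ℝ F] (f : ℝ → F) (t : ℝ) :
    VanAt f 0 t := fun j hj => absurd hj (Nat.not_lt_zero j)

lemma VanAt.congr {F : Type*} [NormedAddCommGroup F] [NormedSpace ℝ F] {f g : ℝ → F} {q : ℕ}
    {t : ℝ} (h : VanAt f q t) (hfg : f =ᶠ[𝓝 t] g) : VanAt g q t := fun j hj => by
  rw [← hfg.iteratedDeriv_eq j]; exact h j hj

lemma VanInf.mul {𝕜 : Type*} [Field 𝕜] {n p : ℕ} {r : ℕ} {X : Matrix (Fin n) (Fin p) 𝕜}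
    (h : VanInf r X) (C : Matrix (Fin p) (Fin p) 𝕜) : VanInf r (X * C) := fun I hI => by
  have e : (X * C).submatrix I id = X.submatrix I id * C := by
    ext i j; simp [Matrix.mul_apply]
  rw [e, Matrix.det_mul, h I hI, zero_mul]

lemma Full.mul {𝕜 : Type*} [Field 𝕜] {n p : ℕ} {X : Matrix (Fin n) (Fin p) 𝕜}
    (h : Full X) {C : Matrix (Fin p) (Fin p) 𝕜} (hC : C.det ≠ 0) : Full (X * C) := by
  obtain ⟨I, hI⟩ := h
  refine ⟨I, ?_⟩
  have e : (X * C).submatrix I id = X.submatrix I id * C := by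
    ext i j; simp [Matrix.mul_apply]
  rw [e, Matrix.det_mul]
  exact mul_ne_zero hI hC

lemma Lim_DC_mul (v : ℕ → ℝ → ℝ) {n p : ℕ} (X : Matrix (Fin n) (Fin p) ℂ)
    (C : Matrix (Fin p) (Fin p) ℂ) : DC v (X * C) = fun t => DC v X t * C.det := by
  funext t
  rw [DC, DC, ← Matrix.mul_assoc, Matrix.det_mul]

lemma VanAt.DC_mul {v : ℕ → ℝ → ℝ} {n p : ℕ} {X : Matrix (Fin n) (Fin p) ℂ} {q : ℕ} {t : ℝ}
    (h : VanAt (DC v X) q t) (C : Matrix (Fin p) (Fin p) ℂ) : VanAt (DC v (X * C)) q t := by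
  intro j hj
  rw [Lim_DC_mul, iteratedDeriv_mul_const_field, h j hj, zero_mul]

lemma Lim_DC_right {v : ℕ → ℝ → ℝ} {T : ℝ} (hv : Wt v T) {n p : ℕ} (X : Matrix (Fin n) (Fin p) ℂ)
    {t : ℝ} (ht : T ≤ t) : DC one1 (toC (Hp v T n) * X) t = DC v X t := by
  rw [DC, DC, Gam_right hv p n ht, Lim_toC_mul, Matrix.mul_assoc]

lemma Lim_DC_left {v : ℕ → ℝ → ℝ} {T : ℝ} (hv : Wt v T) {n p : ℕ} (X : Matrix (Fin n) (Fin p) ℂ)
    {t : ℝ} (ht : t ≤ -T) : DC one1 (toC (Hm v T n) * X) t = DC v X t := by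
  rw [DC, DC, Gam_left hv p n ht, Lim_toC_mul, Matrix.mul_assoc]

/-! ## joint smoothness -/

/-- `D` as a function of all parameters -/
noncomputable def Lim_F (w : ℕ → ℝ → ℝ) (n p : ℕ) : (ℝ × (Fin n → Fin p → ℂ)) × ℝ → ℂ :=
  fun q => DC (om w q.1.1) (Matrix.of q.1.2) q.2

lemma Lim_F_smooth {w : ℕ → ℝ → ℝ} {T : ℝ} (hw : Wt w T) (n p : ℕ) :
    ContDiff ℝ (⊤ : ℕ∞) (Lim_F w n p) := by
  unfold Lim_F DC
  simp only [Matrix.det_apply, Matrix.mul_apply, toC, Gam, Matrix.map_apply, Matrix.of_apply]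
  refine ContDiff.sum fun σ _ => ContDiff.const_smul _ (contDiff_prod fun i _ => ContDiff.sum
    fun l _ => ContDiff.mul ?_ ?_)
  · refine Complex.ofRealCLM.contDiff.comp ?_
    have h := contDiff_ge_om hw (σ i : ℕ) (l : ℕ)
    exact h.comp ((contDiff_fst.comp contDiff_fst).prodMk contDiff_snd)
  · have h : ContDiff ℝ (⊤ : ℕ∞) (fun q : (ℝ × (Fin n → Fin p → ℂ)) × ℝ => q.1.2) :=
      contDiff_snd.comp contDiff_fst
    exact (contDiff_pi.1 ((contDiff_pi.1 h) l)) i

/-- derivatives with respect to the last variable -/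
lemma Lim_iter {P : Type*} [NormedAddCommGroup P] [NormedSpace ℝ P] (l : ℕ) :
    ∀ F : P × ℝ → ℂ, ContDiff ℝ (⊤ : ℕ∞) F →
      ContDiff ℝ (⊤ : ℕ∞) (fun q : P × ℝ => iteratedDeriv l (fun t => F (q.1, t)) q.2) := by
  induction l with
  | zero =>
    intro F hF
    simpa only [iteratedDeriv_zero] using hF
  | succ l ih =>
    intro F hF
    have h1 : ContDiff ℝ (⊤ : ℕ∞) (fun q : P × ℝ => fderiv ℝ F q (0, 1)) := by
      have h2 : ContDiff ℝ (⊤ : ℕ∞) (fderiv ℝ F) := hF.fderiv_right (by simp)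
      exact h2.clm_apply contDiff_const
    have h3 := ih _ h1
    have h4 : ∀ p : P, deriv (fun t => F (p, t)) = fun t => fderiv ℝ F (p, t) (0, 1) := by
      intro p
      funext t
      have h5 : HasFDerivAt F (fderiv ℝ F (p, t)) (p, t) :=
        (hF.differentiable (by simp)).differentiableAt.hasFDerivAt
      have h6 : HasDerivAt (fun t : ℝ => ((p, t) : P × ℝ)) (0, 1) t :=
        (hasDerivAt_const t p).prodMk (hasDerivAt_id t)
      exact (h5.comp_hasDerivAt t h6).deriv
    have h5 : (fun q : P × ℝ => iteratedDeriv (l + 1) (fun t => F (q.1, t)) q.2) =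
        fun q : P × ℝ => iteratedDeriv l (fun t => fderiv ℝ F (q.1, t) (0, 1)) q.2 := by
      funext q
      rw [iteratedDeriv_succ', h4]
    rw [h5]
    exact h3

lemma Lim_unif {P : Type*} [NormedAddCommGroup P] [NormedSpace ℝ P] {G : P × ℝ → ℂ}
    (hG : Continuous G) {p : ℕ → P} {p0 : P} (hp : Tendsto p atTop (𝓝 p0)) {K : Set ℝ}
    (hK : IsCompact K) :
    TendstoUniformlyOn (fun j t => G (p j, t)) (fun t => G (p0, t)) atTop K := by
  have h1 : Tendsto (fun j => ContinuousMap.curry ⟨G, hG⟩ (p j)) atTop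
      (𝓝 (ContinuousMap.curry ⟨G, hG⟩ p0)) :=
    ((ContinuousMap.curry ⟨G, hG⟩).continuous.tendsto p0).comp hp
  exact (ContinuousMap.tendsto_iff_forall_isCompact_tendstoUniformlyOn.1 h1) K hK

lemma Lim_DC_unif {w : ℕ → ℝ → ℝ} {T : ℝ} (hw : Wt w T) {n p : ℕ} {s : ℕ → ℝ} {s0 : ℝ}
    (hs : Tendsto s atTop (𝓝 s0)) {X : ℕ → Matrix (Fin n) (Fin p) ℂ}
    {X0 : Matrix (Fin n) (Fin p) ℂ} (hX : Tendsto X atTop (𝓝 X0)) (l : ℕ) {K : Set ℝ}
    (hK : IsCompact K) :
    TendstoUniformlyOn (fun j => iteratedDeriv l (DC (om w (s j)) (X j)))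
      (iteratedDeriv l (DC (om w s0) X0)) atTop K := by
  have h1 := (Lim_iter l _ (Lim_F_smooth hw n p)).continuous
  have h2 : Tendsto (fun j => ((s j, X j) : ℝ × (Fin n → Fin p → ℂ))) atTop (𝓝 (s0, X0)) :=
    hs.prodMk_nhds hX
  exact Lim_unif h1 h2 hK

lemma Lim_DC_smooth {w : ℕ → ℝ → ℝ} {T : ℝ} (hw : Wt w T) {n p : ℕ} (s : ℝ)
    (X : Matrix (Fin n) (Fin p) ℂ) : ContDiff ℝ (⊤ : ℕ∞) (DC (om w s) X) := by
  have h := (Lim_F_smooth hw n p).comp
    (contDiff_const (c := ((s, X) : ℝ × (Fin n → Fin p → ℂ))) |>.prodMk contDiff_id)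
  exact h

/-! ## LIM -/

lemma Lim_card {q : ℕ} (I : Finset (Fin q)) (P : Fin q → Prop) :
    (Finset.univ.filter fun i : Fin I.card => P (I.equivFin.symm i)).card ≤
      (Finset.univ.filter P).card := by
  apply Finset.card_le_card_of_injOn (fun i : Fin I.card => ((I.equivFin.symm i : I) : Fin q))
  · intro i hi
    simp only [Finset.coe_filter, Finset.mem_univ, true_and] at hi ⊢
    exact hi
  · intro i _ j _ h
    exact I.equivFin.symm.injective (Subtype.ext h)

/-- limits of planes with zeros -/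
theorem Lim (hCpt : S_Cpt) (hHur : S_Hur) (hLemL : S_LemL) : S_Lim := by
  intro w T hw m k s s0 hs hs0 q r z ζ hz X hX
  obtain ⟨φ, C, X0, hφ, hC, hF0, hlim⟩ := hCpt (m + k) k X (fun j => (hX j).1)
  refine ⟨φ, C, X0, hφ, hC, hF0, hlim, ?_, ?_⟩
  all_goals
    have hF' : ∀ j, Full (X (φ j) * C j) := fun j => (hX (φ j)).1.mul (hC j)
    have hV' : ∀ j, VanInf r (X (φ j) * C j) := fun j => (hX (φ j)).2.1.mul (C j)
    have hVan : ∀ j a, VanAt (DC (om w (s (φ j))) (X (φ j) * C j))
        ((Finset.univ.filter fun i => z (φ j) i = a).card) a := fun j a =>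
      ((hX (φ j)).2.2 a).DC_mul (C j)
    have hsφ : Tendsto (fun j => s (φ j)) atTop (𝓝 s0) := hs0.comp hφ.tendsto_atTop
    have hzφ : ∀ i, Tendsto (fun j => ((z (φ j) i : ℝ) : EReal)) atTop (𝓝 (ζ i)) := fun i =>
      (hz i).comp hφ.tendsto_atTop
  · -- the zeros at infinity
    set I : Finset (Fin q) := Finset.univ.filter fun i => ζ i = ⊤ ∨ ζ i = ⊥ with hI
    have heI : ∀ i : Fin I.card, ζ (I.equivFin.symm i) = ⊤ ∨ ζ (I.equivFin.symm i) = ⊥ := by
      intro i
      exact (Finset.mem_filter.1 (I.equivFin.symm i).2).2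
    have hev : ∀ᶠ j in atTop, ∀ i : Fin I.card,
        (ζ (I.equivFin.symm i) = ⊤ → T < z (φ j) (I.equivFin.symm i)) ∧
        (ζ (I.equivFin.symm i) = ⊥ → z (φ j) (I.equivFin.symm i) < -T) := by
      refine eventually_all.2 fun i => ?_
      refine Filter.Eventually.and ?_ ?_
      · by_cases h : ζ (I.equivFin.symm i) = ⊤
        · have h1 := hzφ (I.equivFin.symm i)
          rw [h, EReal.tendsto_coe_nhds_top_iff] at h1
          filter_upwards [h1.eventually_gt_atTop T] with j hj _
          exact hj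
        · exact Filter.Eventually.of_forall fun j h' => absurd h' h
      · by_cases h : ζ (I.equivFin.symm i) = ⊥
        · have h1 := hzφ (I.equivFin.symm i)
          rw [h, EReal.tendsto_coe_nhds_bot_iff] at h1
          filter_upwards [h1.eventually_lt_atBot (-T)] with j hj _
          exact hj
        · exact Filter.Eventually.of_forall fun j h' => absurd h' h
    obtain ⟨J, hJ⟩ := eventually_atTop.1 hev
    have hshift : Tendsto (fun j : ℕ => j + J) atTop atTop := tendsto_add_atTop_nat J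
    have hwt : ∀ j, Wt (om w (s j)) T := fun j => wt_om hw (hs j)
    refine hLemL m k (fun j => Hp (om w (s (φ (j + J)))) T (m + k))
      (fun j => Hm (om w (s (φ (j + J)))) T (m + k)) (Hp (om w s0) T (m + k))
      (Hm (om w s0) T (m + k)) ?_ ?_ ?_ ?_ (fun j => X (φ (j + J)) * C (j + J)) X0 r I.card
      (fun j i => z (φ (j + J)) (I.equivFin.symm i))
      (fun i => decide (ζ (I.equivFin.symm i) = ⊤)) ?_ ?_ hF0 ?_ ?_ ?_ ?_ ?_
    · exact fun j => ⟨fun a b h => Hp_lower _ _ _ h, fun a => Hp_diag _ _ _ a⟩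
    · exact fun j => ⟨fun a b h => Hm_lower _ _ _ h, fun a => Hm_diag _ _ _ a⟩
    · exact ((continuous_Hp_om hw (m + k)).tendsto s0).comp (hsφ.comp hshift)
    · exact ((continuous_Hm_om hw (m + k)).tendsto s0).comp (hsφ.comp hshift)
    · exact fun j => hF' (j + J)
    · exact hlim.comp hshift
    · exact fun j => hV' (j + J)
    · intro i hi
      have h1 := hzφ (I.equivFin.symm i)
      rw [of_decide_eq_true hi, EReal.tendsto_coe_nhds_top_iff] at h1
      exact h1.comp hshift
    · intro i hi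
      have h1 := hzφ (I.equivFin.symm i)
      have h2 : ζ (I.equivFin.symm i) = ⊥ := (heI i).resolve_left (of_decide_eq_false hi)
      rw [h2, EReal.tendsto_coe_nhds_bot_iff] at h1
      exact h1.comp hshift
    · intro j b
      by_cases hc : ∃ i : Fin I.card, ζ (I.equivFin.symm i) = ⊤ ∧
          z (φ (j + J)) (I.equivFin.symm i) = b
      · obtain ⟨i, hi1, hi2⟩ := hc
        have hb : T < b := by
          rw [← hi2]; exact (hJ (j + J) (by omega) i).1 hi1
        have h1 := (hVan (j + J) b).mono (q' := (Finset.univ.filter fun i : Fin I.card =>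
          decide (ζ (I.equivFin.symm i) = ⊤) = true ∧
            z (φ (j + J)) (I.equivFin.symm i) = b).card) (by
          refine le_trans (Finset.card_le_card ?_)
            (Lim_card I (fun i => z (φ (j + J)) i = b))
          intro i hi
          rw [Finset.mem_filter] at hi ⊢
          exact ⟨hi.1, hi.2.2⟩)
        refine h1.congr ?_
        filter_upwards [Ioi_mem_nhds hb] with t ht
        exact (Lim_DC_right (hwt _) _ (le_of_lt ht)).symm
      · have h0 : (Finset.univ.filter fun i : Fin I.card =>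
          decide (ζ (I.equivFin.symm i) = ⊤) = true ∧
            z (φ (j + J)) (I.equivFin.symm i) = b).card = 0 := by
          rw [Finset.card_eq_zero, Finset.filter_eq_empty_iff]
          rintro i _ ⟨h1, h2⟩
          exact hc ⟨i, of_decide_eq_true h1, h2⟩
        rw [h0]
        exact VanAt.zero _ _
    · intro j b
      by_cases hc : ∃ i : Fin I.card, ζ (I.equivFin.symm i) = ⊥ ∧
          z (φ (j + J)) (I.equivFin.symm i) = b
      · obtain ⟨i, hi1, hi2⟩ := hc
        have hb : b < -T := by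
          rw [← hi2]; exact (hJ (j + J) (by omega) i).2 hi1
        have h1 := (hVan (j + J) b).mono (q' := (Finset.univ.filter fun i : Fin I.card =>
          decide (ζ (I.equivFin.symm i) = ⊤) = false ∧
            z (φ (j + J)) (I.equivFin.symm i) = b).card) (by
          refine le_trans (Finset.card_le_card ?_)
            (Lim_card I (fun i => z (φ (j + J)) i = b))
          intro i hi
          rw [Finset.mem_filter] at hi ⊢
          exact ⟨hi.1, hi.2.2⟩)
        refine h1.congr ?_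
        filter_upwards [Iio_mem_nhds hb] with t ht
        exact (Lim_DC_left (hwt _) _ (le_of_lt ht)).symm
      · have h0 : (Finset.univ.filter fun i : Fin I.card =>
          decide (ζ (I.equivFin.symm i) = ⊤) = false ∧
            z (φ (j + J)) (I.equivFin.symm i) = b).card = 0 := by
          rw [Finset.card_eq_zero, Finset.filter_eq_empty_iff]
          rintro i _ ⟨h1, h2⟩
          exact hc ⟨i, (heI i).resolve_left (of_decide_eq_false h1), h2⟩
        rw [h0]
        exact VanAt.zero _ _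
  · -- the finite zeros
    intro a
    set I : Finset (Fin q) := Finset.univ.filter fun i => ζ i = (a : EReal) with hI
    have heI : ∀ i : Fin I.card, ζ (I.equivFin.symm i) = (a : EReal) := by
      intro i
      exact (Finset.mem_filter.1 (I.equivFin.symm i).2).2
    refine hHur (fun j => DC (om w (s (φ j))) (X (φ j) * C j)) (DC (om w s0) X0) a I.card
      (fun j i => z (φ j) (I.equivFin.symm i)) (fun j => Lim_DC_smooth hw _ _)
      (Lim_DC_smooth hw _ _) (fun l => Lim_DC_unif hw hsφ hlim l isCompact_Icc) ?_ ?_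
    · intro i
      have h1 := hzφ (I.equivFin.symm i)
      rw [heI i, EReal.tendsto_coe] at h1
      exact h1
    · intro j b
      exact (hVan j b).mono (Lim_card I (fun i => z (φ j) i = b))

/-! ## OPEN -/

/-- a bad plane with exactly `N + 1` zeros, `r` of them at infinity -/
def Lim_Bad (v : ℕ → ℝ → ℝ) (m k r : ℕ) : Prop :=
  ∃ (X : Matrix (Fin (m + k)) (Fin k) ℂ) (z : Fin (m * k + 1 - r) → ℝ), Full X ∧ VanInf r X ∧
    ∀ a, VanAt (DC v X) ((Finset.univ.filter fun i => z i = a).card) a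

lemma Lim_bad_of_not {v : ℕ → ℝ → ℝ} {m k : ℕ} (h : ¬ GProp v m k) :
    ∃ r ∈ Finset.range (m * k + 2), Lim_Bad v m k r := by
  unfold GProp at h
  push Not at h
  obtain ⟨X, hF, r, hV, Z, μ, hZ, hlt⟩ := h
  refine ⟨Min.min r (m * k + 1), Finset.mem_range.2 (by omega), X, ?_⟩
  set D : Finset (Σ _ : ℝ, ℕ) := Z.sigma fun t => Finset.range (μ t) with hD
  have hcard : m * k + 1 - Min.min r (m * k + 1) ≤ D.card := by
    rw [hD, Finset.card_sigma]
    simp only [Finset.card_range]
    omega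
  obtain ⟨S, hS, hSc⟩ := Finset.exists_subset_card_eq hcard
  refine ⟨fun i => ((S.equivFinOfCardEq hSc).symm i).1.1, hF, hV.mono (min_le_left _ _), ?_⟩
  intro a
  have hmem : ∀ i, ((S.equivFinOfCardEq hSc).symm i).1.1 ∈ Z ∧
      ((S.equivFinOfCardEq hSc).symm i).1.2 < μ ((S.equivFinOfCardEq hSc).symm i).1.1 := by
    intro i
    have h1 := hS ((S.equivFinOfCardEq hSc).symm i).2
    rw [hD, Finset.mem_sigma, Finset.mem_range] at h1
    exact h1
  by_cases ha : a ∈ Z
  · refine (hZ a ha).mono ?_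
    have h2 : (Finset.univ.filter fun i => ((S.equivFinOfCardEq hSc).symm i).1.1 = a).card ≤
        (Finset.range (μ a)).card := by
      apply Finset.card_le_card_of_injOn (fun i => ((S.equivFinOfCardEq hSc).symm i).1.2)
      · intro i hi
        simp only [Finset.coe_filter, Finset.mem_univ, true_and, Set.mem_ofPred_eq] at hi
        simp only [Finset.coe_range, Set.mem_Iio]
        have := (hmem i).2
        rwa [hi] at this
      · intro i hi j hj hij
        simp only [Finset.coe_filter, Finset.mem_univ, true_and, Set.mem_ofPred_eq] at hi hj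
        apply (S.equivFinOfCardEq hSc).symm.injective
        apply Subtype.ext
        exact Sigma.ext (hi.trans hj.symm) (heq_of_eq hij)
    rwa [Finset.card_range] at h2
  · have h0 : (Finset.univ.filter fun i => ((S.equivFinOfCardEq hSc).symm i).1.1 = a).card = 0 := by
      rw [Finset.card_eq_zero, Finset.filter_eq_empty_iff]
      intro i _ hi
      exact ha (hi ▸ (hmem i).1)
    rw [h0]
    exact VanAt.zero _ _

/-- `G` is open -/
theorem Open (hLim : S_Lim) : S_Open := by
  intro w T hw m k s hs hG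
  have key : ∀ r ∈ Finset.range (m * k + 2), ∀ᶠ s' in 𝓝[Icc (0 : ℝ) 1] s,
      ¬ Lim_Bad (om w s') m k r := by
    intro r hr
    by_contra hcon
    have hfr : ∃ᶠ s' in 𝓝[Icc (0 : ℝ) 1] s, Lim_Bad (om w s') m k r := by
      rwa [Filter.Frequently]
    have hfr2 := hfr.and_eventually self_mem_nhdsWithin
    obtain ⟨S, hS, hbad⟩ := Filter.exists_seq_forall_of_frequently hfr2
    choose X z hF hV hz using fun j => (hbad j).1
    obtain ⟨ζ, φ, hφ, hζ⟩ := CompactSpace.tendsto_subseq
      (fun (j : ℕ) (i : Fin (m * k + 1 - r)) => ((z j i : ℝ) : EReal))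
    have hζ' : ∀ i, Tendsto (fun j => ((z (φ j) i : ℝ) : EReal)) atTop (𝓝 (ζ i)) := fun i =>
      (tendsto_pi_nhds.1 hζ) i
    have hSs : Tendsto S atTop (𝓝 s) := hS.mono_right nhdsWithin_le_nhds
    obtain ⟨φ', C, X0, hφ', hC, hF0, hlim, hinf, hfin⟩ := hLim w T hw m k (fun j => S (φ j)) s
      (fun j => (hbad (φ j)).2) (hSs.comp hφ.tendsto_atTop) (m * k + 1 - r) r
      (fun j => z (φ j)) ζ hζ' (fun j => X (φ j)) (fun j => ⟨hF _, hV _, hz _⟩)
    -- count
    set A : Finset (Fin (m * k + 1 - r)) := Finset.univ.filter fun i => ζ i = ⊤ ∨ ζ i = ⊥ with hA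
    set B : Finset (Fin (m * k + 1 - r)) :=
      Finset.univ.filter fun i => ¬ (ζ i = ⊤ ∨ ζ i = ⊥) with hB
    have hAB : A.card + B.card = m * k + 1 - r := by
      rw [hA, hB, Finset.card_filter_add_card_filter_not, Finset.card_univ, Fintype.card_fin]
    have hBc : B.card = ∑ a ∈ B.image (fun i => (ζ i).toReal),
        (Finset.univ.filter fun i => ζ i = ((a : ℝ) : EReal)).card := by
      rw [Finset.card_eq_sum_card_image (fun i => (ζ i).toReal) B]
      refine Finset.sum_congr rfl fun a _ => ?_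
      congr 1
      ext i
      simp only [hB, Finset.mem_filter, Finset.mem_univ, true_and]
      constructor
      · rintro ⟨h1, h2⟩
        push Not at h1
        rw [← h2, EReal.coe_toReal h1.1 h1.2]
      · intro h
        rw [h]
        exact ⟨by simp, EReal.toReal_coe a⟩
    have hcount := hG X0 hF0 (r + A.card) hinf (B.image (fun i => (ζ i).toReal))
      (fun a => (Finset.univ.filter fun i => ζ i = ((a : ℝ) : EReal)).card) (fun a _ => hfin a)
    rw [← hBc] at hcount
    rw [Finset.mem_range] at hr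
    omega
  have hall := (Filter.eventually_all_finset (Finset.range (m * k + 2))).2 key
  filter_upwards [hall] with s' hs'
  by_contra hn
  obtain ⟨r, hr, hb⟩ := Lim_bad_of_not hn
  exact hs' r hr hb

end Pool.Agent.GC18
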