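import Pool.Agent.GC18.FinAlgCpt
import Pool.Agent.GC18.RealZeros
import Pool.Agent.GC18.Poly
import Pool.Agent.GC18.DetTools

/-!
# Grassmann convexity (MP_5fea31_an): three lemmas for P1   (helper77)
-/

set_option autoImplicit false

namespace Pool.Agent.GC18.P1

open Matrix Filter Topology Set

lemma full_toC_mul {m k : ℕ} (g : Matrix (Fin (m + k)) (Fin (m + k)) ℝ) (hg : g.det ≠ 0)
    (x : Fin (m * k) → ℂ) : Full (toC g * (Xinf x : Matrix (Fin (m + k)) (Fin k) ℂ)) := by
  apply (Full_Xinf x).mul_left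
  rw [toC_det]
  exact_mod_cast hg

lemma lastI_eq_natAdd (m k : ℕ) :
    (lastI (n := m + k) (p := k) (by omega) : Fin k → Fin (m + k)) = Fin.natAdd m := by
  funext b
  apply Fin.ext
  simp [lastI]

/-- `N` distinct zeros force the plane into the chart at infinity -/
lemma not_vanInf_of_nodes {v : ℕ → ℝ → ℝ} {m k : ℕ} (hG : GProp v m k)
    (X : Matrix (Fin (m + k)) (Fin k) ℂ) (hX : Full X) (t : Fin (m * k) → ℝ)
    (ht : Function.Injective t) (h0 : ∀ i, DC v X (t i) = 0) : ¬ VanInf 1 X := by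
  classical
  intro hV
  have h1 := hG X hX 1 hV (Finset.univ.image t) (fun _ => 1) (by
    intro s hs j hj
    rw [Finset.mem_image] at hs
    obtain ⟨i, _, rfl⟩ := hs
    have : j = 0 := by omega
    rw [this, iteratedDeriv_zero]
    exact h0 i)
  rw [Finset.sum_const, smul_eq_mul, mul_one, Finset.card_image_of_injective _ ht,
    Finset.card_univ, Fintype.card_fin] at h1
  omega

lemma real_of_nodes {v : ℕ → ℝ → ℝ} {T : ℝ} (_hv : Wt v T) {m k : ℕ} (hG : GProp v m k)
    (hR : RealProp v m k) (g : Matrix (Fin (m + k)) (Fin (m + k)) ℝ) (hg : g.det ≠ 0)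
    (t : Fin (m * k) → ℝ) (ht : Function.Injective t) (x : Fin (m * k) → ℂ)
    (hx : ∀ i, DC v (toC g * Xinf x) (t i) = 0) :
    ∃ y : Fin (m * k) → ℝ, x = fun i => (y i : ℂ) := by
  classical
  set X : Matrix (Fin (m + k)) (Fin k) ℂ := toC g * Xinf x with hXdef
  have hX : Full X := full_toC_mul g hg x
  have hnV := not_vanInf_of_nodes hG X hX t ht hx
  have hdet : (X.submatrix (Fin.natAdd m) id).det ≠ 0 := by
    rw [not_vanInf_last_iff (by omega : k ≤ m + k), lastI_eq_natAdd] at hnV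
    exact hnV
  obtain ⟨x', hx'⟩ := FA_exists_Xinf X hdet
  set A := X.submatrix (Fin.natAdd m) id with hA
  obtain ⟨y', hy'⟩ := hR t ht x' (fun i => by
    rw [← hx', DC_mul_right, hx i, zero_mul])
  -- `Xinf x * A⁻¹` is real
  have hgu : IsUnit g.det := isUnit_iff_ne_zero.2 hg
  have hAu : IsUnit A.det := isUnit_iff_ne_zero.2 hdet
  have h1 : (Xinf x : Matrix (Fin (m + k)) (Fin k) ℂ) * A⁻¹ = toC (g⁻¹ * Xinf y') := by
    have h2 : toC g * ((Xinf x : Matrix (Fin (m + k)) (Fin k) ℂ) * A⁻¹) = toC (Xinf y') := by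
      rw [← Matrix.mul_assoc, ← hXdef, hx', toC_Xinf, hy']
    have h3 : toC (g⁻¹) * toC g = (1 : Matrix (Fin (m + k)) (Fin (m + k)) ℂ) := by
      rw [← toC_mul, Matrix.nonsing_inv_mul _ hgu]
      ext i j
      simp only [toC, Matrix.map_apply, Matrix.one_apply]
      split_ifs <;> simp
    calc (Xinf x : Matrix (Fin (m + k)) (Fin k) ℂ) * A⁻¹
        = toC (g⁻¹) * toC g * ((Xinf x : Matrix (Fin (m + k)) (Fin k) ℂ) * A⁻¹) := by
          rw [h3, Matrix.one_mul]
      _ = toC (g⁻¹) * toC (Xinf y') := by rw [Matrix.mul_assoc, h2]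
      _ = _ := by rw [← toC_mul]
  -- the bottom block
  set R : Matrix (Fin k) (Fin k) ℝ := (g⁻¹ * Xinf y').submatrix (Fin.natAdd m) id with hRdef
  have hAR : A⁻¹ = toC R := by
    have h2 : ((Xinf x : Matrix (Fin (m + k)) (Fin k) ℂ) * A⁻¹).submatrix (Fin.natAdd m) id
        = A⁻¹ := by
      ext i c
      rw [Matrix.submatrix_apply, Matrix.mul_apply, Finset.sum_eq_single i]
      · simp [Xinf]
      · intro j _ hj
        simp [Xinf, hj.symm]
      · intro h
        exact absurd (Finset.mem_univ _) h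
    rw [← h2, h1]
    ext i c
    simp [toC, hRdef]
  have hRu : IsUnit R.det := by
    have h2 : (A⁻¹).det ≠ 0 := by
      have := Matrix.isUnit_nonsing_inv_det A hAu
      exact this.ne_zero
    rw [hAR, toC_det] at h2
    exact isUnit_iff_ne_zero.2 (by exact_mod_cast h2)
  have h4 : (Xinf x : Matrix (Fin (m + k)) (Fin k) ℂ) = toC (g⁻¹ * Xinf y' * R⁻¹) := by
    have h5 : toC R * toC (R⁻¹) = (1 : Matrix (Fin k) (Fin k) ℂ) := by
      rw [← toC_mul, Matrix.mul_nonsing_inv _ hRu]
      ext i j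
      simp only [toC, Matrix.map_apply, Matrix.one_apply]
      split_ifs <;> simp
    calc (Xinf x : Matrix (Fin (m + k)) (Fin k) ℂ)
        = (Xinf x : Matrix (Fin (m + k)) (Fin k) ℂ) * (toC R * toC (R⁻¹)) := by
          rw [h5, Matrix.mul_one]
      _ = toC (g⁻¹ * Xinf y') * toC (R⁻¹) := by
          rw [← Matrix.mul_assoc, ← hAR, h1]
      _ = _ := by rw [← toC_mul]
  refine ⟨fun q => (g⁻¹ * Xinf y' * R⁻¹) (Fin.castAdd k (finProdFinEquiv.symm q).1)
    (finProdFinEquiv.symm q).2, ?_⟩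
  funext q
  have h5 := congrFun (congrFun h4 (Fin.castAdd k (finProdFinEquiv.symm q).1))
    (finProdFinEquiv.symm q).2
  have h6 : (Xinf x : Matrix (Fin (m + k)) (Fin k) ℂ) (Fin.castAdd k (finProdFinEquiv.symm q).1)
      (finProdFinEquiv.symm q).2 = x q := by
    simp only [Xinf, Matrix.of_apply, Fin.addCases_left]
    congr 1
    exact finProdFinEquiv.apply_symm_apply q
  rw [h6] at h5
  rw [h5]
  rfl

lemma DC_toC_eq (v : ℕ → ℝ → ℝ) {n p : ℕ} (Y : Matrix (Fin n) (Fin p) ℝ) :
    DC v (toC Y) = fun t => ((DR v Y t : ℝ) : ℂ) := funext fun t => DC_toC v Y t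

lemma hasDerivAt_DC_toC {v : ℕ → ℝ → ℝ} {T : ℝ} (hv : Wt v T) {n p : ℕ}
    (Y : Matrix (Fin n) (Fin p) ℝ) (t : ℝ) :
    HasDerivAt (DC v (toC Y)) ((deriv (DR v Y) t : ℝ) : ℂ) t := by
  rw [DC_toC_eq]
  have h1 : HasDerivAt (DR v Y) (deriv (DR v Y) t) t :=
    ((contDiff_DR hv Y).differentiable (by simp) t).hasDerivAt
  exact h1.ofReal_comp

lemma iteratedDeriv_DC_toC {v : ℕ → ℝ → ℝ} {T : ℝ} (hv : Wt v T) {n p : ℕ}
    (Y : Matrix (Fin n) (Fin p) ℝ) (j : ℕ) (t : ℝ) :
    iteratedDeriv j (DC v (toC Y)) t = ((iteratedDeriv j (DR v Y) t : ℝ) : ℂ) := by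
  rw [DC_toC_eq]
  have key : ∀ (j : ℕ) (f : ℝ → ℝ), ContDiff ℝ (⊤ : ℕ∞) f → ∀ t : ℝ,
      iteratedDeriv j (fun t => ((f t : ℝ) : ℂ)) t = ((iteratedDeriv j f t : ℝ) : ℂ) := by
    intro j
    induction j with
    | zero => intro f _ t; simp
    | succ j ih =>
      intro f hf t
      rw [iteratedDeriv_succ', iteratedDeriv_succ']
      have h1 : deriv (fun t => ((f t : ℝ) : ℂ)) = fun t => ((deriv f t : ℝ) : ℂ) := by
        funext s
        exact ((hf.differentiable (by simp) s).hasDerivAt.ofReal_comp).deriv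
      rw [h1]
      exact ih (deriv f) (contDiff_infty_iff_deriv.1 hf).2 t
  exact key j _ (contDiff_DR hv Y) t

lemma simple_of_nodes {v : ℕ → ℝ → ℝ} {T : ℝ} (hv : Wt v T) {m k : ℕ} (hG : GProp v m k)
    (Y : Matrix (Fin (m + k)) (Fin k) ℝ) (hY : Full (toC Y)) (t : Fin (m * k) → ℝ)
    (ht : Function.Injective t) (h0 : ∀ i, DR v Y (t i) = 0) :
    RZ.SimpleZ (DR v Y) (Finset.univ.image t) := by
  classical
  have hcard : (Finset.univ.image t).card = m * k := by
    rw [Finset.card_image_of_injective _ ht, Finset.card_univ, Fintype.card_fin]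
  have h0' : ∀ s ∈ Finset.univ.image t, DR v Y s = 0 := by
    intro s hs
    rw [Finset.mem_image] at hs
    obtain ⟨i, _, rfl⟩ := hs
    exact h0 i
  refine ⟨(contDiff_DR hv Y).continuous, fun s => ⟨fun hs => ?_, h0' s⟩, fun z hz => ?_⟩
  · by_contra hsn
    have h1 := hG (toC Y) hY 0 (VanInf_zero _) (insert s (Finset.univ.image t)) (fun _ => 1) (by
      intro u hu j hj
      have hj0 : j = 0 := by omega
      rw [hj0, iteratedDeriv_zero, DC_toC]
      rcases Finset.mem_insert.1 hu with h | h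
      · rw [h, hs]; simp
      · rw [h0' u h]; simp)
    rw [Finset.sum_const, smul_eq_mul, mul_one, Finset.card_insert_of_notMem hsn, hcard] at h1
    omega
  · refine ⟨deriv (DR v Y) z, fun hd => ?_, ((contDiff_DR hv Y).differentiable (by simp) z).hasDerivAt⟩
    have h1 := hG (toC Y) hY 0 (VanInf_zero _) (Finset.univ.image t) (fun s => if s = z then 2 else 1) (by
      intro u hu j hj
      rcases Nat.eq_zero_or_pos j with hj0 | hj0
      · rw [hj0, iteratedDeriv_zero, DC_toC, h0' u hu]; simp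
      · have huz : u = z := by
          by_contra hne
          simp only [if_neg hne] at hj
          omega
        have hj1 : j = 1 := by
          simp only [if_pos huz] at hj
          omega
        rw [hj1, huz, iteratedDeriv_one, (hasDerivAt_DC_toC hv Y z).deriv, hd]
        simp)
    have h2 : ∑ s ∈ Finset.univ.image t, (if s = z then 2 else 1) = m * k + 1 := by
      have h3 : ∀ s : ℝ, (if s = z then 2 else 1) = 1 + (if s = z then 1 else 0) := by
        intro s; split_ifs <;> rfl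
      simp only [h3, Finset.sum_add_distrib, Finset.sum_const, smul_eq_mul, mul_one, hcard]
      rw [Finset.sum_ite_eq' (Finset.univ.image t) z (fun _ => 1), if_pos hz]
    simp only [h2] at h1
    omega

/-- a smooth function with a nonzero derivative of some order has isolated zeros -/
lemma eventually_ne_zero_of_iteratedDeriv (q : ℕ) : ∀ (f : ℝ → ℝ), ContDiff ℝ (⊤ : ℕ∞) f →
    ∀ a : ℝ, iteratedDeriv q f a ≠ 0 → ∀ᶠ s in 𝓝[≠] a, f s ≠ 0 := by
  induction q with
  | zero =>
    intro f hf a ha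
    rw [iteratedDeriv_zero] at ha
    exact (hf.continuous.continuousAt.eventually_ne ha).filter_mono nhdsWithin_le_nhds
  | succ q ih =>
    intro f hf a ha
    by_cases h0 : f a = 0
    · rw [iteratedDeriv_succ'] at ha
      have h1 := ih (deriv f) (contDiff_infty_iff_deriv.1 hf).2 a ha
      rw [eventually_nhdsWithin_iff, Metric.eventually_nhds_iff] at h1 ⊢
      obtain ⟨δ, hδ, h1⟩ := h1
      refine ⟨δ, hδ, fun s hs hsa hfs => ?_⟩
      rcases lt_or_gt_of_ne (show s ≠ a from hsa) with h | h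
      · obtain ⟨ξ, hξ, hξ0⟩ := exists_deriv_eq_zero h hf.continuous.continuousOn (by rw [hfs, h0])
        refine h1 (y := ξ) ?_ (ne_of_lt hξ.2) hξ0
        rw [Real.dist_eq] at hs ⊢
        rw [abs_of_neg (by linarith)] at hs
        rw [abs_of_neg (by linarith [hξ.2])]
        linarith [hξ.1]
      · obtain ⟨ξ, hξ, hξ0⟩ := exists_deriv_eq_zero h hf.continuous.continuousOn (by rw [hfs, h0])
        refine h1 (y := ξ) ?_ (ne_of_gt hξ.1) hξ0
        rw [Real.dist_eq] at hs ⊢
        rw [abs_of_pos (by linarith)] at hs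
        rw [abs_of_pos (by linarith [hξ.1])]
        linarith [hξ.2]
    · exact (hf.continuous.continuousAt.eventually_ne h0).filter_mono nhdsWithin_le_nhds

lemma isolated {v : ℕ → ℝ → ℝ} {T : ℝ} (hv : Wt v T) {m k : ℕ}
    (Y : Matrix (Fin (m + k)) (Fin k) ℝ) (hY : Full (toC Y)) (a : ℝ) :
    ∀ᶠ η in 𝓝[>] (0 : ℝ), DR v Y (a - η) ≠ 0 ∧ DR v Y (a + η) ≠ 0 := by
  have hex : ∃ q, iteratedDeriv q (DR v Y) a ≠ 0 := by
    by_contra hcon
    push Not at hcon
    have h1 := Rich v T hv m k (toC Y) hY 0 (VanInf_zero _) a (m * k + 1) (by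
      intro j _
      rw [iteratedDeriv_DC_toC hv, hcon j]
      simp)
    omega
  obtain ⟨q, hq⟩ := hex
  have h1 := eventually_ne_zero_of_iteratedDeriv q (DR v Y) (contDiff_DR hv Y) a hq
  have t1 : Tendsto (fun η : ℝ => a - η) (𝓝[>] (0 : ℝ)) (𝓝[≠] a) := by
    apply tendsto_nhdsWithin_of_tendsto_nhds_of_eventually_within
    · have : Tendsto (fun η : ℝ => a - η) (𝓝 0) (𝓝 (a - 0)) := tendsto_const_nhds.sub tendsto_id
      rw [sub_zero] at this
      exact this.mono_left nhdsWithin_le_nhds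
    · filter_upwards [self_mem_nhdsWithin] with η hη
      have : (0 : ℝ) < η := hη
      exact ne_of_lt (by linarith)
  have t2 : Tendsto (fun η : ℝ => a + η) (𝓝[>] (0 : ℝ)) (𝓝[≠] a) := by
    apply tendsto_nhdsWithin_of_tendsto_nhds_of_eventually_within
    · have : Tendsto (fun η : ℝ => a + η) (𝓝 0) (𝓝 (a + 0)) := tendsto_const_nhds.add tendsto_id
      rw [add_zero] at this
      exact this.mono_left nhdsWithin_le_nhds
    · filter_upwards [self_mem_nhdsWithin] with η hη
      have : (0 : ℝ) < η := hη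
      exact ne_of_gt (by linarith)
  exact (t1.eventually h1).and (t2.eventually h1)

end Pool.Agent.GC18.P1
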