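import Pool.Agent.GC18.P1inf
import Pool.Agent.GC18.RealZeros
import Pool.Agent.GC18.P1b

/-!
# Grassmann convexity (MP_5fea31_an): P1   (helper65, P1b: helper77)
-/

set_option autoImplicit false

namespace Pool.Agent.GC18.P1

open Matrix Filter Topology Set

open scoped Classical

/-! ## the system -/

/-- the points of a multiset, with their index -/
abbrev MT (M : Multiset (WithTop ℝ)) : Type := (x : WithTop ℝ) × Fin (M.count x)

/-- nodes -/
noncomputable def nd (h : ℝ) (a : WithTop ℝ) (j : ℕ) : ℝ :=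
  WithTop.recTopCoe (C := fun _ => ℝ) (((j + 1 : ℝ) * h)⁻¹) (fun a => a + j * h) a

/-- functionals -/
noncomputable def Phi (w : ℕ → ℝ → ℝ) (T s : ℝ) (m k : ℕ) (a : WithTop ℝ)
    (I : Fin k → Fin (m + k)) (q : ℝ × ℝ) : ℂ :=
  WithTop.recTopCoe (C := fun _ => ℂ) (Pinf w T m k I (q.1, q.2 + (s - q.1)))
    (fun a => FA_c (om w q.1) I (a + q.2)) a

/-- their values on a plane -/
noncomputable def Psi (w : ℕ → ℝ → ℝ) (T s : ℝ) {m k : ℕ} (a : WithTop ℝ)
    (X : Matrix (Fin (m + k)) (Fin k) ℂ) (q : ℝ × ℝ) : ℂ :=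
  ∑ I : Fin k → Fin (m + k), Phi w T s m k a I q * (X.submatrix I id).det

lemma Phi_smooth {w : ℕ → ℝ → ℝ} {T : ℝ} (hw : Wt w T) (s : ℝ) (m k : ℕ) (a : WithTop ℝ)
    (I : Fin k → Fin (m + k)) : ContDiff ℝ (⊤ : ℕ∞) (Phi w T s m k a I) := by
  induction a using WithTop.recTopCoe with
  | top =>
    have h1 : ContDiff ℝ (⊤ : ℕ∞) (fun q : ℝ × ℝ => (q.1, q.2 + (s - q.1))) :=
      contDiff_fst.prodMk (contDiff_snd.add (contDiff_const.sub contDiff_fst))
    exact (Pinf_smooth hw m k I).comp h1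
  | coe a =>
    have h : ContDiff ℝ (⊤ : ℕ∞) (fun q : ℝ × ℝ => ∏ i : Fin k, ge (om w q.1) i (I i) (a + q.2)) := by
      refine contDiff_prod fun i _ => ?_
      exact (contDiff_ge_om hw i (I i)).comp (contDiff_fst.prodMk (contDiff_const.add contDiff_snd))
    exact Complex.ofRealCLM.contDiff.comp h

lemma Psi_coe (w : ℕ → ℝ → ℝ) (T s : ℝ) {m k : ℕ} (a : ℝ)
    (X : Matrix (Fin (m + k)) (Fin k) ℂ) (q : ℝ × ℝ) :
    Psi w T s (a : WithTop ℝ) X q = DC (om w q.1) X (a + q.2) := by
  rw [DC_expand]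
  rfl

lemma Psi_top (w : ℕ → ℝ → ℝ) (T s : ℝ) {m k : ℕ}
    (X : Matrix (Fin (m + k)) (Fin k) ℂ) (q : ℝ × ℝ) :
    Psi w T s (⊤ : WithTop ℝ) X q = RP (toC (Hp (om w q.1) T (m + k)) * X) (q.2 + (s - q.1)) := by
  rw [← Pinf_sum]
  rfl

lemma fd_sum {ι : Type*} (A : Finset ι) (f : ι → ℝ → ℂ) (d : ι → ℂ) (h a : ℝ) (l : ℕ) :
    (fwdDiff h)^[l] (fun t => ∑ I ∈ A, f I t * d I) a = ∑ I ∈ A, (fwdDiff h)^[l] (f I) a * d I := by
  simp only [fwdDiff_iter_eq_sum_shift, Finset.smul_sum, Finset.sum_mul]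
  rw [Finset.sum_comm]
  refine Finset.sum_congr rfl fun I _ => Finset.sum_congr rfl fun j _ => ?_
  rw [smul_mul_assoc]

/-- the coefficients of the system at `h` -/
noncomputable def cc (w : ℕ → ℝ → ℝ) (T s : ℝ) {m k : ℕ} (g : Matrix (Fin (m + k)) (Fin (m + k)) ℂ)
    (e : Fin (m * k) → WithTop ℝ × ℕ) (h : ℝ) (i : Fin (m * k)) (J : Fin k → Fin (m + k)) : ℂ :=
  ∑ I : Fin k → Fin (m + k), (((h : ℂ) ^ (e i).2)⁻¹ *
    (fwdDiff h)^[(e i).2] (fun t => Phi w T s m k (e i).1 I (s - h, t)) 0) * ∏ b, g (I b) (J b)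

/-- the coefficients of the limit system -/
noncomputable def cc0 (w : ℕ → ℝ → ℝ) (T s : ℝ) {m k : ℕ} (g : Matrix (Fin (m + k)) (Fin (m + k)) ℂ)
    (e : Fin (m * k) → WithTop ℝ × ℕ) (i : Fin (m * k)) (J : Fin k → Fin (m + k)) : ℂ :=
  ∑ I : Fin k → Fin (m + k),
    iteratedDeriv (e i).2 (fun t => Phi w T s m k (e i).1 I (s, t)) 0 * ∏ b, g (I b) (J b)

lemma cc_tendsto {w : ℕ → ℝ → ℝ} {T : ℝ} (hw : Wt w T) (s : ℝ) {m k : ℕ}
    (g : Matrix (Fin (m + k)) (Fin (m + k)) ℂ) (e : Fin (m * k) → WithTop ℝ × ℕ) (h : ℕ → ℝ)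
    (hh : Tendsto h atTop (𝓝[>] 0)) :
    Tendsto (fun j => cc w T s g e (h j)) atTop (𝓝 (cc0 w T s g e)) := by
  refine tendsto_pi_nhds.2 fun i => tendsto_pi_nhds.2 fun J => ?_
  unfold cc cc0
  refine tendsto_finsetSum _ fun I _ => Tendsto.mul_const _ ?_
  exact (fd_tendsto _ (Phi_smooth hw s m k (e i).1 I) s 0 (e i).2).comp hh

lemma FL_cc (w : ℕ → ℝ → ℝ) (T s : ℝ) {m k : ℕ} (g : Matrix (Fin (m + k)) (Fin (m + k)) ℂ)
    (e : Fin (m * k) → WithTop ℝ × ℕ) (h : ℝ) (x : Fin (m * k) → ℂ) (i : Fin (m * k)) :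
    FL (cc w T s g e h) x i = ((h : ℂ) ^ (e i).2)⁻¹ *
      (fwdDiff h)^[(e i).2] (fun t => Psi w T s (e i).1 (g * Xinf x) (s - h, t)) 0 := by
  unfold FL cc Psi
  rw [fd_sum, Finset.mul_sum]
  simp only [Finset.sum_mul]
  rw [Finset.sum_comm]
  refine Finset.sum_congr rfl fun I _ => ?_
  rw [det_submatrix_mul, Finset.mul_sum, Finset.mul_sum]
  refine Finset.sum_congr rfl fun J _ => ?_
  ring

lemma FL_cc0 {w : ℕ → ℝ → ℝ} {T : ℝ} (hw : Wt w T) (s : ℝ) {m k : ℕ}
    (g : Matrix (Fin (m + k)) (Fin (m + k)) ℂ)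
    (e : Fin (m * k) → WithTop ℝ × ℕ) (x : Fin (m * k) → ℂ) (i : Fin (m * k)) :
    FL (cc0 w T s g e) x i =
      iteratedDeriv (e i).2 (fun t => Psi w T s (e i).1 (g * Xinf x) (s, t)) 0 := by
  unfold FL cc0 Psi
  rw [iteratedDeriv_fun_sum]
  · simp only [iteratedDeriv_mul_const_field, Finset.sum_mul]
    rw [Finset.sum_comm]
    refine Finset.sum_congr rfl fun I _ => ?_
    rw [det_submatrix_mul, Finset.mul_sum]
    refine Finset.sum_congr rfl fun J _ => ?_
    ring
  · intro I _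
    have h1 : ContDiff ℝ (⊤ : ℕ∞) (fun t => Phi w T s m k (e i).1 I (s, t)) :=
      (Phi_smooth hw s m k (e i).1 I).comp (contDiff_const.prodMk contDiff_id)
    exact ((h1.mul contDiff_const).of_le (by exact_mod_cast le_top)).contDiffAt

/-- `z_∞` is invariant under upper unitriangular matrices, both directions -/
lemma VanInf_upper_iff {n k ν : ℕ} {U : Matrix (Fin n) (Fin n) ℂ} (hU : ∀ i j, j < i → U i j = 0)
    (hd : U.det ≠ 0) (X : Matrix (Fin n) (Fin k) ℂ) : VanInf ν (U * X) ↔ VanInf ν X := by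
  constructor
  · intro h
    have hinv : Invertible U := Matrix.invertibleOfIsUnitDet U (isUnit_iff_ne_zero.2 hd)
    have h1 : Matrix.BlockTriangular U (id : Fin n → Fin n) := fun i j hij => hU i j hij
    have h2 := Matrix.blockTriangular_inv_of_blockTriangular h1
    have h3 := VanInf_mul_upper h U⁻¹ (fun i j hij => h2 hij)
    rwa [← Matrix.mul_assoc, Matrix.nonsing_inv_mul _ (isUnit_iff_ne_zero.2 hd), Matrix.one_mul] at h3
  · intro h
    exact VanInf_mul_upper h U hU

lemma Hp_det (v : ℕ → ℝ → ℝ) (T : ℝ) (n : ℕ) : (toC (Hp v T n)).det ≠ 0 := by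
  rw [toC_det]
  have : (Hp v T n).det = 1 := by
    rw [Matrix.det_of_isUpperTriangular]
    · simp [Hp_diag]
    · intro i j hij
      exact Hp_lower v T n hij
  rw [this]; simp

/-- enumeration of the conditions -/
lemma InS_iff {w : ℕ → ℝ → ℝ} {T : ℝ} (hw : Wt w T) (s : ℝ) {m k : ℕ} {M : Multiset (WithTop ℝ)}
    (e : Fin (m * k) ≃ MT M) {g : Matrix (Fin (m + k)) (Fin (m + k)) ℂ} (hg : g.det ≠ 0)
    (x : Fin (m * k) → ℂ) :
    FL (cc0 w T s g (fun i => ((e i).1, ((e i).2 : ℕ)))) x = 0 ↔ InS (om w s) M (g * Xinf x) := by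
  have key : FL (cc0 w T s g (fun i => ((e i).1, ((e i).2 : ℕ)))) x = 0 ↔
      ∀ (a : WithTop ℝ) (j : ℕ), j < M.count a →
        iteratedDeriv j (fun t => Psi w T s a (g * Xinf x) (s, t)) 0 = 0 := by
    constructor
    · intro h a j hj
      have h1 := congrFun h (e.symm ⟨a, ⟨j, hj⟩⟩)
      rw [FL_cc0 hw] at h1
      have h2 : (fun p : MT M => iteratedDeriv (p.2 : ℕ)
          (fun t => Psi w T s p.1 (g * Xinf x) (s, t)) 0) (e (e.symm ⟨a, ⟨j, hj⟩⟩)) = 0 := h1
      rw [Equiv.apply_symm_apply] at h2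
      exact h2
    · intro h
      funext i
      rw [FL_cc0 hw]
      exact h (e i).1 (e i).2 (e i).2.2
  rw [key]
  have hXF : Full (g * Xinf x : Matrix (Fin (m + k)) (Fin k) ℂ) := (Full_Xinf x).mul_left hg
  constructor
  · intro h
    refine ⟨fun a j hj => ?_, ?_⟩
    · have h1 := h a j hj
      simp only [Psi_coe] at h1
      rw [iteratedDeriv_comp_const_add] at h1
      simpa using h1
    · rw [← VanInf_upper_iff (U := toC (Hp (om w s) T (m + k)))
        (fun i j hij => by simp only [toC, Matrix.map_apply]; rw [Hp_lower _ _ _ hij]; simp)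
        (Hp_det _ _ _)]
      refine van_RP (hXF.mul_left (Hp_det _ _ _)) fun j hj => ?_
      have h1 := h ⊤ j hj
      simp only [Psi_top, sub_self, add_zero] at h1
      exact h1
  · rintro ⟨h1, h2⟩ a j hj
    induction a using WithTop.recTopCoe with
    | top =>
      simp only [Psi_top, sub_self, add_zero]
      refine RP_van ?_ j hj
      rw [VanInf_upper_iff
        (fun i j hij => by simp only [toC, Matrix.map_apply]; rw [Hp_lower _ _ _ hij]; simp)
        (Hp_det _ _ _)]
      exact h2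
    | coe a =>
      simp only [Psi_coe]
      rw [iteratedDeriv_comp_const_add]
      have h3 := h1 a j hj
      simpa using h3

/-- vanishing of the system at `h` : the nodes are zeros -/
lemma nodes_zero {w : ℕ → ℝ → ℝ} {T : ℝ} (hw : Wt w T) {s h : ℝ} {m k : ℕ} {M : Multiset (WithTop ℝ)}
    (e : Fin (m * k) ≃ MT M) {g : Matrix (Fin (m + k)) (Fin (m + k)) ℂ}
    (x : Fin (m * k) → ℂ) (hh : 0 < h) (hs : s - h ∈ Icc (0 : ℝ) 1)
    (hT : ∀ i : Fin (m * k), T ≤ ((((e i).2 : ℕ) + 1 : ℝ) * h)⁻¹)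
    (hx : FL (cc w T s g (fun i => ((e i).1, ((e i).2 : ℕ))) h) x = 0) (i : Fin (m * k)) :
    DC (om w (s - h)) (g * Xinf x) (nd h (e i).1 ((e i).2 : ℕ)) = 0 := by
  have hhc : (h : ℂ) ≠ 0 := by exact_mod_cast hh.ne'
  have h1 : ∀ l < M.count (e i).1,
      (fwdDiff h)^[l] (fun t => Psi w T s (e i).1 (g * Xinf x) (s - h, t)) 0 = 0 := by
    intro l hl
    have h2 := congrFun hx (e.symm ⟨(e i).1, ⟨l, hl⟩⟩)
    rw [FL_cc] at h2
    have h3 : (fun p : MT M => ((h : ℂ) ^ (p.2 : ℕ))⁻¹ * (fwdDiff h)^[(p.2 : ℕ)]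
        (fun t => Psi w T s p.1 (g * Xinf x) (s - h, t)) 0)
        (e (e.symm ⟨(e i).1, ⟨l, hl⟩⟩)) = 0 := h2
    rw [Equiv.apply_symm_apply] at h3
    rcases mul_eq_zero.1 h3 with h3 | h3
    · exact absurd (inv_eq_zero.1 h3) (pow_ne_zero _ hhc)
    · exact h3
  have h2 := fd_zero h1 ((e i).2 : ℕ) (e i).2.2
  have hTi := hT i
  generalize (e i).2.1 = l at h2 hTi ⊢
  generalize (e i).1 = a at h2 ⊢
  induction a using WithTop.recTopCoe with
  | top =>
    simp only [Psi_top] at h2
    have h3 : (0 : ℝ) + (l : ℝ) * h + (s - (s - h)) = ((((l : ℝ) + 1) * h)⁻¹)⁻¹ := by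
      rw [inv_inv]; ring
    have hpos : 0 < ((l : ℝ) + 1) * h := by positivity
    rw [h3, RP_eq _ (inv_ne_zero hpos.ne')] at h2
    have h4 : DC one1 (toC (Hp (om w (s - h)) T (m + k)) * (g * Xinf x)) (((l : ℝ) + 1) * h)⁻¹ =
        DC (om w (s - h)) (g * Xinf x) (((l : ℝ) + 1) * h)⁻¹ := by
      rw [DC, DC, Gam_right (wt_om hw hs) k (m + k) hTi, toC_mul, Matrix.mul_assoc]
    rw [h4, mul_eq_zero] at h2
    rcases h2 with h2 | h2
    · exfalso
      rw [inv_inv] at h2
      exact (pow_ne_zero _ (by exact_mod_cast hpos.ne')) h2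
    · exact h2
  | coe a =>
    simp only [Psi_coe, zero_add] at h2
    exact h2

/-! ## nodes -/

lemma nd_coe (h a : ℝ) (j : ℕ) : nd h (a : WithTop ℝ) j = a + j * h := rfl

lemma nd_top (h : ℝ) (j : ℕ) : nd h ⊤ j = ((j + 1 : ℝ) * h)⁻¹ := rfl

/-- behaviour of the nodes for `h → 0` -/
lemma nd_tendsto_coe (a : ℝ) (j : ℕ) : Tendsto (fun h => nd h (a : WithTop ℝ) j) (𝓝[>] 0) (𝓝 a) := by
  have : Tendsto (fun h : ℝ => a + j * h) (𝓝 0) (𝓝 (a + j * 0)) :=
    (by fun_prop : Continuous fun h : ℝ => a + j * h).tendsto 0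
  rw [mul_zero, add_zero] at this
  exact this.mono_left nhdsWithin_le_nhds

lemma nd_tendsto_top (j : ℕ) : Tendsto (fun h => nd h ⊤ j) (𝓝[>] 0) atTop := by
  have h1 : Tendsto (fun h : ℝ => ((j : ℝ) + 1) * h) (𝓝[>] 0) (𝓝[>] 0) := by
    refine tendsto_nhdsWithin_of_tendsto_nhds_of_eventually_within _ ?_ ?_
    · have : Tendsto (fun h : ℝ => ((j : ℝ) + 1) * h) (𝓝 0) (𝓝 (((j : ℝ) + 1) * 0)) :=
        (by fun_prop : Continuous fun h : ℝ => ((j : ℝ) + 1) * h).tendsto 0
      rw [mul_zero] at this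
      exact this.mono_left nhdsWithin_le_nhds
    · filter_upwards [self_mem_nhdsWithin] with h hh
      have hh' : (0 : ℝ) < h := hh
      show (0 : ℝ) < ((j : ℝ) + 1) * h
      positivity
  exact tendsto_inv_nhdsGT_zero.comp h1

/-- the nodes are eventually distinct -/
lemma nd_inj {M : Multiset (WithTop ℝ)} {N : ℕ} (e : Fin N ≃ MT M) :
    ∀ᶠ h in 𝓝[>] (0 : ℝ), Function.Injective (fun i => nd h (e i).1 ((e i).2 : ℕ)) := by
  have h1 : ∀ i i' : Fin N, i ≠ i' → ∀ᶠ h in 𝓝[>] (0 : ℝ),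
      nd h (e i).1 ((e i).2 : ℕ) ≠ nd h (e i').1 ((e i').2 : ℕ) := by
    intro i i' hii'
    have hne : e i ≠ e i' := fun h => hii' (e.injective h)
    generalize e i = p at hne ⊢
    generalize e i' = p' at hne ⊢
    obtain ⟨a, l⟩ := p
    obtain ⟨a', l'⟩ := p'
    simp only
    by_cases haa : a = a'
    · subst haa
      have hll : (l : ℕ) ≠ l' := by
        intro h
        exact hne (by rw [Fin.ext h])
      have hll' : (l : ℝ) ≠ (l' : ℝ) := by exact_mod_cast hll
      filter_upwards [self_mem_nhdsWithin] with h hh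
      have hh' : (0 : ℝ) < h := hh
      induction a using WithTop.recTopCoe with
      | top =>
        rw [nd_top, nd_top]
        intro heq
        have h2 := inv_injective heq
        have h3 := mul_right_cancel₀ hh'.ne' h2
        exact hll' (by linarith)
      | coe a =>
        rw [nd_coe, nd_coe]
        intro heq
        have h2 : (l : ℝ) * h = (l' : ℝ) * h := by linarith
        exact hll' (mul_right_cancel₀ hh'.ne' h2)
    · clear hne
      generalize (l : ℕ) = l1
      generalize (l' : ℕ) = l2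
      induction a using WithTop.recTopCoe with
      | top =>
        induction a' using WithTop.recTopCoe with
        | top => exact absurd rfl haa
        | coe b =>
          have h2 := (nd_tendsto_top l1).eventually_gt_atTop (b + 1)
          have h3 := (nd_tendsto_coe b l2).eventually (gt_mem_nhds (show b < b + 1 by linarith))
          filter_upwards [h2, h3] with h h4 h5
          exact ne_of_gt (h5.trans h4)
      | coe b =>
        induction a' using WithTop.recTopCoe with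
        | top =>
          have h2 := (nd_tendsto_top l2).eventually_gt_atTop (b + 1)
          have h3 := (nd_tendsto_coe b l1).eventually (gt_mem_nhds (show b < b + 1 by linarith))
          filter_upwards [h2, h3] with h h4 h5
          exact ne_of_lt (h5.trans h4)
        | coe b' =>
          have hbb : b ≠ b' := fun h => haa (by rw [h])
          have h2 := (nd_tendsto_coe b l1).sub (nd_tendsto_coe b' l2)
          have h3 := h2.eventually_ne (sub_ne_zero.2 hbb)
          filter_upwards [h3] with h h4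
          exact sub_ne_zero.1 h4
  have h2 : ∀ᶠ h in 𝓝[>] (0 : ℝ), ∀ i i' : Fin N, i ≠ i' →
      nd h (e i).1 ((e i).2 : ℕ) ≠ nd h (e i').1 ((e i').2 : ℕ) := by
    rw [Filter.eventually_all]
    intro i
    rw [Filter.eventually_all]
    intro i'
    by_cases hii : i = i'
    · exact Filter.Eventually.of_forall fun h h' => absurd hii h'
    · exact (h1 i i' hii).mono fun h h' _ => h'
  filter_upwards [h2] with h h3
  intro i i' hii
  by_contra hne
  exact h3 i i' hne hii

/-- the nodes in a small interval around `a` -/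
lemma nd_window {M : Multiset (WithTop ℝ)} {N : ℕ} (e : Fin N ≃ MT M) (a η : ℝ) (hη : 0 < η)
    (hsep : ∀ i, ∀ b : ℝ, (e i).1 = (b : WithTop ℝ) → b ≠ a → η < |b - a|) :
    ∀ᶠ h in 𝓝[>] (0 : ℝ), ∀ i, (a - η < nd h (e i).1 ((e i).2 : ℕ) ∧
      nd h (e i).1 ((e i).2 : ℕ) < a + η) ↔ (e i).1 = (a : WithTop ℝ) := by
  rw [Filter.eventually_all]
  intro i
  have hsi := hsep i
  generalize ((e i).2 : ℕ) = l
  generalize (e i).1 = b at hsi ⊢
  induction b using WithTop.recTopCoe with
  | top =>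
    filter_upwards [(nd_tendsto_top l).eventually_gt_atTop (a + η)] with h hh
    constructor
    · rintro ⟨_, h2⟩
      exact absurd h2 (not_lt.2 hh.le)
    · intro h2
      exact absurd h2 (WithTop.coe_ne_top).symm
  | coe b =>
    by_cases hb : b = a
    · subst hb
      have h1 := (nd_tendsto_coe b l).eventually (lt_mem_nhds (show b - η < b by linarith))
      have h2 := (nd_tendsto_coe b l).eventually (gt_mem_nhds (show b < b + η by linarith))
      filter_upwards [h1, h2] with h h3 h4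
      exact ⟨fun _ => rfl, fun _ => ⟨h3, h4⟩⟩
    · have h1 := hsi b rfl hb
      rcases lt_or_gt_of_ne hb with h2 | h2
      · rw [abs_of_neg (by linarith)] at h1
        filter_upwards [(nd_tendsto_coe b l).eventually
          (gt_mem_nhds (show b < a - η by linarith))] with h h3
        constructor
        · rintro ⟨h4, _⟩
          exact absurd h4 (not_lt.2 h3.le)
        · intro h4
          exact absurd (WithTop.coe_injective h4) hb
      · rw [abs_of_pos (by linarith)] at h1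
        filter_upwards [(nd_tendsto_coe b l).eventually
          (lt_mem_nhds (show a + η < b by linarith))] with h h3
        constructor
        · rintro ⟨_, h4⟩
          exact absurd h4 (not_lt.2 h3.le)
        · intro h4
          exact absurd (WithTop.coe_injective h4) hb

lemma card_fiber {M : Multiset (WithTop ℝ)} {N : ℕ} (e : Fin N ≃ MT M) (a : WithTop ℝ) :
    (Finset.univ.filter fun i => (e i).1 = a).card = M.count a := by
  have h1 : (Finset.univ.filter fun i => (e i).1 = a) =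
      Finset.univ.image (fun l : Fin (M.count a) => e.symm ⟨a, l⟩) := by
    ext i
    simp only [Finset.mem_filter, Finset.mem_univ, true_and, Finset.mem_image]
    constructor
    · intro hi
      have : ∃ l : Fin (M.count a), e i = ⟨a, l⟩ := by
        generalize e i = p at hi ⊢
        obtain ⟨b, l⟩ := p
        simp only at hi
        subst hi
        exact ⟨l, rfl⟩
      obtain ⟨l, hl⟩ := this
      exact ⟨l, by rw [← hl, Equiv.symm_apply_apply]⟩
    · rintro ⟨l, rfl⟩
      rw [Equiv.apply_symm_apply]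
  rw [h1, Finset.card_image_of_injective _ (fun l l' h => ?_), Finset.card_univ, Fintype.card_fin]
  have h2 := e.symm.injective h
  simpa using h2

/-- joint continuity of the real function -/
lemma DR_cont {w : ℕ → ℝ → ℝ} {T : ℝ} (hw : Wt w T) {m k : ℕ}
    (g : Matrix (Fin (m + k)) (Fin (m + k)) ℝ) (b : ℝ) :
    Continuous fun q : ℝ × (Fin (m * k) → ℝ) => DR (om w q.1) (g * Xinf q.2) b := by
  unfold DR
  refine Continuous.matrix_det (Continuous.matrix_mul ?_ (Continuous.matrix_mul continuous_const ?_))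
  · refine continuous_matrix fun i j => ?_
    simp only [Gam, Matrix.of_apply]
    exact (contDiff_ge_om hw i j).continuous.comp (continuous_fst.prodMk continuous_const)
  · refine continuous_matrix fun i c => ?_
    refine Fin.addCases (fun a => ?_) (fun a => ?_) i
    · simp only [Xinf, Matrix.of_apply, Fin.addCases_left]
      exact (continuous_apply _).comp continuous_snd
    · simp only [Xinf, Matrix.of_apply, Fin.addCases_right]
      exact continuous_const

/-- **P1** -/
theorem main (hPer : S_Persist) : S_P1 := by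
  intro w T hw m k hm hk s hs hall M hM g hg x0 hIn hR
  obtain ⟨R, hR0, hiso⟩ := hR
  have hgC : (toC g).det ≠ 0 := by
    rw [toC_det]; exact_mod_cast hg
  have hcard : Fintype.card M = m * k := by rw [Multiset.card_coe, hM]
  let e : Fin (m * k) ≃ MT M := (Fintype.equivFinOfCardEq hcard).symm
  let ee : Fin (m * k) → WithTop ℝ × ℕ := fun i => ((e i).1, ((e i).2 : ℕ))
  let h : ℕ → ℝ := fun j => s / (j + 2)
  have hhpos : ∀ j, 0 < h j := fun j => div_pos hs.1 (by positivity)
  have hhs : ∀ j, s - h j ∈ Ico (0 : ℝ) s := by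
    intro j
    refine ⟨?_, by linarith [hhpos j]⟩
    have : h j ≤ s := div_le_self hs.1.le (by linarith [Nat.cast_nonneg (α := ℝ) j])
    linarith
  have hhs1 : ∀ j, s - h j ∈ Icc (0 : ℝ) 1 := fun j => ⟨(hhs j).1, (hhs j).2.le.trans hs.2⟩
  have hh0 : Tendsto h atTop (𝓝[>] 0) := by
    refine tendsto_nhdsWithin_of_tendsto_nhds_of_eventually_within _ ?_ ?_
    · have h1 : Tendsto (fun j : ℕ => (j : ℝ) + 2) atTop atTop :=
        tendsto_atTop_add_const_right _ _ tendsto_natCast_atTop_atTop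
      exact h1.const_div_atTop s
    · exact Filter.Eventually.of_forall fun j => hhpos j
  have hc := cc_tendsto hw s (toC g) ee h hh0
  have hInj := hh0.eventually (nd_inj e)
  have hTev : ∀ᶠ j in atTop, ∀ i : Fin (m * k), T ≤ ((((e i).2 : ℕ) + 1 : ℝ) * h j)⁻¹ := by
    rw [Filter.eventually_all]
    intro i
    exact hh0.eventually ((nd_tendsto_top ((e i).2 : ℕ)).eventually_ge_atTop T)
  -- the approximating real solutions
  have key : ∀ ε > 0, ∀ᶠ j in atTop, ∃ y : Fin (m * k) → ℝ,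
      (fun i => (y i : ℂ)) ∈ Metric.ball x0 ε ∧
      ∀ i, DR (om w (s - h j)) (g * Xinf y) (nd (h j) (e i).1 ((e i).2 : ℕ)) = 0 := by
    intro ε hε
    have h1 := hPer m k (fun j => cc w T s (toC g) ee (h j)) (cc0 w T s (toC g) ee) hc x0
      (min ε R) (lt_min hε hR0) (fun y hy hy0 => hiso y
        (Metric.closedBall_subset_closedBall (min_le_right _ _) hy)
        ((InS_iff hw s e hgC y).1 hy0)) ((InS_iff hw s e hgC x0).2 hIn)
    filter_upwards [h1, hInj, hTev] with j hj hinj hTj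
    obtain ⟨x, hx, hx0⟩ := hj
    have h2 := nodes_zero hw e x (hhpos j) (hhs1 j) hTj hx0
    obtain ⟨y, rfl⟩ := real_of_nodes (wt_om hw (hhs1 j)) (hall _ (hhs j)).1 (hall _ (hhs j)).2
      g hg _ hinj x h2
    refine ⟨y, Metric.ball_subset_ball (min_le_left _ _) hx, fun i => ?_⟩
    have h3 := h2 i
    rw [← toC_Xinf, ← toC_mul, DC_toC] at h3
    exact_mod_cast h3
  -- `x0` is real
  have hreal : ∀ i, (x0 i).im = 0 := by
    intro i
    by_contra hne
    obtain ⟨j, y, hy, -⟩ := (key |(x0 i).im| (abs_pos.2 hne)).exists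
    have h1 : dist ((y i : ℂ)) (x0 i) < |(x0 i).im| :=
      lt_of_le_of_lt (dist_le_pi_dist (fun i => (y i : ℂ)) x0 i) hy
    rw [dist_eq_norm] at h1
    have h2 := Complex.abs_im_le_norm ((y i : ℂ) - x0 i)
    rw [Complex.sub_im, Complex.ofReal_im, zero_sub, abs_neg] at h2
    linarith
  refine ⟨fun i => (x0 i).re, ?_, fun a => ?_⟩
  · funext i
    apply Complex.ext
    · simp
    · simp [hreal i]
  set y0 : Fin (m * k) → ℝ := fun i => (x0 i).re with hy0
  have hx0 : x0 = fun i => (y0 i : ℂ) := by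
    funext i
    apply Complex.ext
    · simp [hy0]
    · simp [hreal i]
  have hFull : ∀ y : Fin (m * k) → ℝ, Full (toC (g * Xinf y) : Matrix (Fin (m + k)) (Fin k) ℂ) := by
    intro y
    rw [toC_mul, toC_Xinf]
    exact (Full_Xinf _).mul_left hgC
  have hiso0 := isolated (wt_om hw ⟨hs.1.le, hs.2⟩) (g * Xinf y0) (hFull y0) a
  have hsep : ∀ᶠ η in 𝓝[>] (0 : ℝ), ∀ i, ∀ b : ℝ, (e i).1 = (b : WithTop ℝ) → b ≠ a → η < |b - a| := by
    rw [Filter.eventually_all]
    intro i
    generalize (e i).1 = c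
    induction c using WithTop.recTopCoe with
    | top => exact Filter.Eventually.of_forall fun η b hb => absurd hb.symm WithTop.coe_ne_top
    | coe c =>
      by_cases hca : c = a
      · exact Filter.Eventually.of_forall fun η b hb hb' =>
          absurd ((WithTop.coe_injective hb).symm.trans hca) hb'
      · have h1 : ∀ᶠ η in 𝓝 (0 : ℝ), η < |c - a| :=
          gt_mem_nhds (abs_pos.2 (sub_ne_zero.2 hca))
        filter_upwards [nhdsWithin_le_nhds h1] with η hη b hb _
        rw [← WithTop.coe_injective hb]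
        exact hη
  filter_upwards [hiso0, hsep, self_mem_nhdsWithin] with η h1 h2 h3
  have hη : (0 : ℝ) < η := h3
  by_contra hcon
  set c := M.count (a : WithTop ℝ) with hcdef
  let G : ℝ × (Fin (m * k) → ℝ) → ℝ := fun q => (-1 : ℝ) ^ c *
    (DR (om w q.1) (g * Xinf q.2) (a - η) * DR (om w q.1) (g * Xinf q.2) (a + η))
  have hGc : Continuous G := continuous_const.mul ((DR_cont hw g _).mul (DR_cont hw g _))
  have hG0 : G (s, y0) < 0 := by
    have h4 : G (s, y0) ≠ 0 := by
      refine mul_ne_zero (pow_ne_zero _ (by norm_num)) (mul_ne_zero h1.1 h1.2)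
    exact lt_of_le_of_ne (not_lt.1 hcon) h4
  obtain ⟨ε, hε, hball⟩ := Metric.mem_nhds_iff.1 (hGc.continuousAt.preimage_mem_nhds
    (Iio_mem_nhds hG0))
  have h4 : ∀ᶠ j in atTop, h j < ε := by
    have := (tendsto_nhdsWithin_iff.1 hh0).1
    exact this.eventually (gt_mem_nhds hε)
  obtain ⟨j, ⟨⟨hj1, hj2⟩, hj3⟩, y, hy, hyn⟩ :=
    (((hInj.and h4).and (hh0.eventually (nd_window e a η hη h2))).and (key ε hε)).exists
  have hyd : dist y y0 < ε := by
    rw [dist_pi_lt_iff hε]
    intro i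
    have h5 : dist ((y i : ℂ)) (x0 i) < ε :=
      lt_of_le_of_lt (dist_le_pi_dist (fun i => (y i : ℂ)) x0 i) hy
    rw [hx0, Complex.dist_of_im_eq (by simp)] at h5
    simpa using h5
  have hGneg : G (s - h j, y) < 0 := by
    have h5 : ((s - h j, y) : ℝ × (Fin (m * k) → ℝ)) ∈ Metric.ball (s, y0) ε := by
      rw [Metric.mem_ball, Prod.dist_eq, max_lt_iff]
      refine ⟨?_, hyd⟩
      simp only [Real.dist_eq]
      have : s - h j - s = -h j := by ring
      rw [this, abs_neg, abs_of_pos (hhpos j)]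
      exact hj2
    exact hball h5
  set f : ℝ → ℝ := DR (om w (s - h j)) (g * Xinf y) with hf
  have hS := simple_of_nodes (wt_om hw (hhs1 j)) (hall _ (hhs j)).1 (g * Xinf y) (hFull y) _ hj1 hyn
  have hGval : G (s - h j, y) = (-1 : ℝ) ^ c * (f (a - η) * f (a + η)) := rfl
  rw [hGval] at hGneg
  have hfm : f (a - η) ≠ 0 := by
    intro h5; rw [h5] at hGneg; simp at hGneg
  have hfp : f (a + η) ≠ 0 := by
    intro h5; rw [h5] at hGneg; simp at hGneg
  have h6 := hS.sgn_count (a - η) (a + η) (by linarith) (fun h5 => hfm ((hS.mem _).2 h5))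
    (fun h5 => hfp ((hS.mem _).2 h5))
  have h7 : ((Finset.univ.image (fun i => nd (h j) (e i).1 ((e i).2 : ℕ))).filter
      (fun z => a - η < z ∧ z < a + η)).card = c := by
    rw [Finset.filter_image, Finset.card_image_of_injective _ hj1, hcdef, ← card_fiber e]
    congr 1
    ext i
    simp only [Finset.mem_filter, Finset.mem_univ, true_and]
    exact hj3 i
  rw [h7] at h6
  have h8 : RZ.sgn ((-1 : ℝ) ^ c * (f (a - η) * f (a + η))) = 1 := by
    rw [RZ.sgn_mul, RZ.sgn_mul, h6]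
    have h9 : RZ.sgn ((-1 : ℝ) ^ c) = (-1) ^ c := by
      induction c with
      | zero => simp [RZ.sgn]
      | succ c ih =>
        rw [pow_succ, RZ.sgn_mul, ih, RZ.sgn_neg (by norm_num : (-1 : ℝ) < 0), pow_succ]
    rw [h9]
    have h10 : ((-1 : ℤ) ^ c) * (-1) ^ c = 1 := by
      rw [← mul_pow]; simp
    have h11 := RZ.sgn_sq hfm
    calc ((-1 : ℤ) ^ c) * (RZ.sgn (f (a - η)) * (RZ.sgn (f (a - η)) * (-1) ^ c))
        = (((-1 : ℤ) ^ c) * (-1) ^ c) * (RZ.sgn (f (a - η)) * RZ.sgn (f (a - η))) := by ring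
      _ = 1 := by rw [h10, h11, one_mul]
  rw [RZ.sgn_neg hGneg] at h8
  norm_num at h8

end Pool.Agent.GC18.P1

namespace Pool.Agent.GC18

theorem P1 (hPer : S_Persist) : S_P1 := P1.main hPer

end Pool.Agent.GC18
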