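import Pool.Agent.GC18.StJDefs

/-!
# Grassmann convexity (MP_5fea31_an): echelon coordinates of `X_T(z)`   (helper8)

* `EE T z a c` : the echelon matrix, rows indexed by `ℕ`; `EE_piv`, `EE_gt`, `EE_ri`
* `StEch` : for the full rectangle `XM m T z = Xinf (xT m T z) * CT m T z`
-/

set_option autoImplicit false

namespace Pool.Agent.GC18.St

open Matrix Filter Topology Set

/-- the echelon matrix, rows indexed by `ℕ` -/
noncomputable def EE {k : ℕ} : List (Fin k) → (ℕ → ℝ) → ℕ → Fin k → ℝ
  | [], _ => fun a c => if a = c then 1 else 0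
  | i :: T, z => fun a c =>
      if c = i then (EE T z a i + (if a = piv T i + 1 then z T.length * EE T z (piv T i) i else 0)) / z T.length
      else EE T z a c + (if a = piv T i + 1 then z T.length * EE T z (piv T i) c else 0)
        - EE T z (piv T i + 1) c *
          ((EE T z a i + (if a = piv T i + 1 then z T.length * EE T z (piv T i) i else 0)) / z T.length)

lemma EE_cons_self {k : ℕ} (i : Fin k) (T : List (Fin k)) (z : ℕ → ℝ) (a : ℕ) :
    EE (i :: T) z a i =
      (EE T z a i + (if a = piv T i + 1 then z T.length * EE T z (piv T i) i else 0)) / z T.length := by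
  simp only [EE, if_true]

lemma EE_cons_ne {k : ℕ} {i c : Fin k} (h : c ≠ i) (T : List (Fin k)) (z : ℕ → ℝ) (a : ℕ) :
    EE (i :: T) z a c = EE T z a c + (if a = piv T i + 1 then z T.length * EE T z (piv T i) c else 0)
        - EE T z (piv T i + 1) c *
          ((EE T z a i + (if a = piv T i + 1 then z T.length * EE T z (piv T i) i else 0)) / z T.length) := by
  simp only [EE, if_neg h]

/-- pivot rows and rows above the pivot -/
lemma EE_piv_gt {k m : ℕ} {T : List (Fin k)} (h : Lat m T) {z : ℕ → ℝ} (hz : ∀ q < T.length, z q ≠ 0) :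
    (∀ c c', EE T z (piv T c) c' = if c = c' then 1 else 0) ∧ (∀ a c, piv T c < a → EE T z a c = 0) := by
  induction T with
  | nil =>
    refine ⟨fun c c' => ?_, fun a c ha => ?_⟩
    · simp only [EE, piv, List.count_nil, zero_add]
      by_cases e : c = c'
      · simp [e]
      · rw [if_neg e, if_neg (fun e' => e (Fin.ext e'))]
    · have : (c : ℕ) < a := by simpa [piv] using ha
      simp only [EE]
      rw [if_neg (by omega)]
  | cons i T ih =>
    have hT := h.tail
    obtain ⟨ih1, ih2⟩ := ih hT (fun q hq => hz q (by simp; omega))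
    have hz0 : z T.length ≠ 0 := hz _ (by simp)
    have hinj := (piv_strictMono hT).injective
    -- no pivot at `piv T i + 1`
    have hnp : ∀ c, c ≠ i → piv T c ≠ piv T i + 1 := by
      intro c hc e
      have h2 : piv (i :: T) c = piv (i :: T) i := by rw [piv_cons_ne hc, piv_cons_self, e]
      exact hc ((piv_strictMono h).injective h2)
    refine ⟨fun c c' => ?_, fun a c ha => ?_⟩
    · by_cases hc : c = i
      · subst hc
        rw [piv_cons_self]
        by_cases hc' : c' = c
        · subst hc'
          rw [EE_cons_self, if_pos rfl, ih2 _ _ (Nat.lt_succ_self _), ih1, if_pos rfl, zero_add,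
            mul_one, div_self hz0]
        · rw [EE_cons_ne hc', if_pos rfl, if_pos rfl, ih1, ih1, if_pos rfl, ih2 _ c (Nat.lt_succ_self _),
            if_neg (Ne.symm hc')]
          field_simp
          ring
      · rw [piv_cons_ne hc]
        by_cases hc' : c' = i
        · subst hc'
          rw [EE_cons_self, if_neg (hnp c hc), ih1, if_neg hc]
          simp
        · rw [EE_cons_ne hc', if_neg (hnp c hc), if_neg (hnp c hc), ih1, ih1, if_neg hc]
          simp
    · by_cases hc : c = i
      · subst hc
        rw [piv_cons_self] at ha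
        rw [EE_cons_self, ih2 a c (by omega), if_neg (by omega)]
        simp
      · rw [piv_cons_ne hc] at ha
        rw [EE_cons_ne hc, ih2 a c ha, ih1, if_neg (Ne.symm hc)]
        by_cases h1 : piv T c < piv T i + 1
        · rw [ih2 _ c h1]; simp
        · have h2 := hnp c hc
          have ha' : ¬ a = piv T i + 1 := by omega
          simp [ih2 a i (by omega), ha']

lemma EE_piv {k m : ℕ} {T : List (Fin k)} (h : Lat m T) {z : ℕ → ℝ} (hz : ∀ q < T.length, z q ≠ 0)
    (c c' : Fin k) : EE T z (piv T c) c' = if c = c' then 1 else 0 := (EE_piv_gt h hz).1 c c'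

lemma EE_gt {k m : ℕ} {T : List (Fin k)} (h : Lat m T) {z : ℕ → ℝ} (hz : ∀ q < T.length, z q ≠ 0)
    {a : ℕ} {c : Fin k} (ha : piv T c < a) : EE T z a c = 0 := (EE_piv_gt h hz).2 a c ha

/-- `X_T(z)` has the same column space -/
lemma EE_fac {k m : ℕ} {T : List (Fin k)} (h : Lat m T) {z : ℕ → ℝ} (hz : ∀ q < T.length, z q ≠ 0) :
    ∃ C : Matrix (Fin k) (Fin k) ℝ, ∀ a c', XT T z a c' = ∑ c, EE T z a c * C c c' := by
  induction T with
  | nil =>
    refine ⟨1, fun a c' => ?_⟩
    simp [XT, EE, Matrix.one_apply]
  | cons i T ih =>
    obtain ⟨C, hC⟩ := ih h.tail (fun q hq => hz q (by simp; omega))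
    have hz0 : z T.length ≠ 0 := hz _ (by simp)
    refine ⟨Matrix.of fun c c' => if c = i then z T.length * C i c' +
        ∑ c'' ∈ Finset.univ.erase i, EE T z (piv T i + 1) c'' * C c'' c' else C c c', fun a c' => ?_⟩
    rw [XT_cons, hC, hC]
    rw [← Finset.add_sum_erase Finset.univ (fun c => EE (i :: T) z a c * _) (Finset.mem_univ i)]
    simp only [Matrix.of_apply, if_true]
    have e1 : ∑ c ∈ Finset.univ.erase i, EE (i :: T) z a c *
        (if c = i then z T.length * C i c' +
          ∑ c'' ∈ Finset.univ.erase i, EE T z (piv T i + 1) c'' * C c'' c' else C c c') =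
        ∑ c ∈ Finset.univ.erase i, (EE T z a c +
          (if a = piv T i + 1 then z T.length * EE T z (piv T i) c else 0)) * C c c'
        - EE (i :: T) z a i * ∑ c ∈ Finset.univ.erase i, EE T z (piv T i + 1) c * C c c' := by
      rw [Finset.mul_sum, ← Finset.sum_sub_distrib]
      refine Finset.sum_congr rfl fun c hc => ?_
      have hc' : c ≠ i := Finset.ne_of_mem_erase hc
      rw [if_neg hc', EE_cons_ne hc', EE_cons_self]
      ring
    rw [e1, EE_cons_self]
    rw [← Finset.add_sum_erase Finset.univ (fun c => EE T z a c * C c c') (Finset.mem_univ i)]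
    rw [← Finset.add_sum_erase Finset.univ (fun c => EE T z (piv T i) c * C c c') (Finset.mem_univ i)]
    simp only [add_mul, Finset.sum_add_distrib]
    split_ifs with hb
    · rw [mul_add, Finset.mul_sum]
      have e2 : ∀ c, z T.length * (EE T z (piv T i) c * C c c') = z T.length * EE T z (piv T i) c * C c c' :=
        fun c => by ring
      simp only [e2]
      field_simp
      ring
    · simp only [zero_mul, Finset.sum_const_zero, add_zero]
      field_simp
      ring

/-! ### the non-pivot rows -/

/-- the `l`-th non-pivot row -/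
def ri {k : ℕ} (T : List (Fin k)) (l : ℕ) : ℕ := l + (Finset.univ.filter (fun c : Fin k => T.count c ≤ l)).card

lemma ri_strictMono {k : ℕ} (T : List (Fin k)) : StrictMono (ri T) := by
  intro a b hab
  have : (Finset.univ.filter (fun c : Fin k => T.count c ≤ a)).card ≤
      (Finset.univ.filter (fun c : Fin k => T.count c ≤ b)).card := by
    refine Finset.card_le_card fun c hc => ?_
    rw [Finset.mem_filter] at hc ⊢
    exact ⟨hc.1, hc.2.trans hab.le⟩
  unfold ri
  omega

/-- the row `ri T (T.count i)` is the row above the pivot `i`, when a box can be added in row `i` -/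
lemma ri_self {k m : ℕ} {i : Fin k} {T : List (Fin k)} (h : Lat m (i :: T)) :
    ri T (T.count i) = piv T i + 1 := by
  have e : (Finset.univ.filter (fun c : Fin k => T.count c ≤ T.count i)) = Finset.Iic i := by
    ext c
    rw [Finset.mem_filter, Finset.mem_Iic]
    constructor
    · rintro ⟨-, hc⟩
      by_contra hlt
      push Not at hlt
      have h1 : (i :: T).count i ≤ (i :: T).count c := h.mono hlt.le
      rw [List.count_cons_self, List.count_cons_of_ne (ne_of_lt hlt)] at h1
      omega
    · intro hc
      exact ⟨Finset.mem_univ _, h.tail.mono hc⟩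
  unfold ri piv
  rw [e, Fin.card_Iic]
  omega

lemma ri_cons_self {k m : ℕ} {i : Fin k} {T : List (Fin k)} (h : Lat m (i :: T)) :
    ri (i :: T) (T.count i) = piv T i := by
  have e : (Finset.univ.filter (fun c : Fin k => (i :: T).count c ≤ T.count i)) = Finset.Iio i := by
    ext c
    rw [Finset.mem_filter, Finset.mem_Iio]
    constructor
    · rintro ⟨-, hc⟩
      by_contra hlt
      push Not at hlt
      have h1 : (i :: T).count i ≤ (i :: T).count c := h.mono hlt
      rw [List.count_cons_self] at h1
      omega
    · intro hc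
      refine ⟨Finset.mem_univ _, ?_⟩
      rw [List.count_cons_of_ne (ne_of_gt hc)]
      exact h.tail.mono hc.le
  unfold ri piv
  rw [e, Fin.card_Iio]

lemma ri_cons_ne {k : ℕ} {i : Fin k} {T : List (Fin k)} {l : ℕ} (hl : l ≠ T.count i) :
    ri (i :: T) l = ri T l := by
  have e : (Finset.univ.filter (fun c : Fin k => (i :: T).count c ≤ l)) =
      (Finset.univ.filter (fun c : Fin k => T.count c ≤ l)) := by
    ext c
    simp only [Finset.mem_filter, Finset.mem_univ, true_and]
    by_cases hc : c = i
    · subst hc; rw [List.count_cons_self]; omega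
    · rw [List.count_cons_of_ne (Ne.symm hc)]
  unfold ri
  rw [e]

lemma YT_of_ge {k m : ℕ} {T : List (Fin k)} (h : Lat m T) (z : ℕ → ℝ) {c : Fin k} {l : ℕ}
    (hl : T.count c ≤ l) : YT T z c l = 0 := by
  induction T generalizing c l with
  | nil => rfl
  | cons i T ih =>
    have hT := h.tail
    simp only [YT]
    by_cases hc : c = i
    · subst hc
      rw [List.count_cons_self] at hl
      rw [if_pos rfl, if_neg (by omega : ¬ l < T.count c), if_neg (by omega : ¬ l = T.count c)]
    · rw [if_neg hc]
      rw [List.count_cons_of_ne (Ne.symm hc)] at hl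
      split_ifs with h1 h2 h3
      · exfalso
        have h4 : (i :: T).count i ≤ (i :: T).count c := h.mono h1.le
        rw [List.count_cons_self, List.count_cons_of_ne (Ne.symm hc)] at h4
        omega
      · exfalso
        have h4 : (i :: T).count i ≤ (i :: T).count c := h.mono h1.le
        rw [List.count_cons_self, List.count_cons_of_ne (Ne.symm hc)] at h4
        omega
      · exact ih hT hl
      · exact ih hT hl

/-- entries of the echelon matrix in the non-pivot rows -/
lemma EE_ri {k m : ℕ} {T : List (Fin k)} (h : Lat m T) {z : ℕ → ℝ} (hz : ∀ q < T.length, z q ≠ 0)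
    (c : Fin k) (l : ℕ) : EE T z (ri T l) c = YT T z c l := by
  induction T generalizing c l with
  | nil =>
    simp only [EE, YT]
    rw [if_neg]
    have := c.2
    simp only [ri, List.count_nil, Nat.zero_le, Finset.filter_true, Finset.card_univ, Fintype.card_fin]
    omega
  | cons i T ih =>
    have hT := h.tail
    have hz' : ∀ q < T.length, z q ≠ 0 := fun q hq => hz q (by simp; omega)
    have IH := ih hT hz'
    have hs := ri_self h
    by_cases hl : l = T.count i
    · subst hl
      rw [ri_cons_self h]
      by_cases hc : c = i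
      · subst hc
        rw [EE_cons_self, if_neg (by omega), EE_piv hT hz']
        simp [YT]
      · rw [EE_cons_ne hc, if_neg (by omega), if_neg (by omega), EE_piv hT hz', EE_piv hT hz',
          if_neg (Ne.symm hc), if_pos rfl, ← hs, IH]
        simp only [YT, if_neg hc, lt_irrefl, if_false, if_true]
        split_ifs with h1
        · ring
        · have h2 : c < i := lt_of_le_of_ne (not_lt.1 h1) hc
          rw [YT_of_ge hT z (c := c) (hT.mono h2.le)]
          simp
    · rw [ri_cons_ne hl]
      have hne : ri T l ≠ piv T i + 1 := by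
        rw [← hs]
        exact fun e => hl ((ri_strictMono T).injective e)
      by_cases hc : c = i
      · subst hc
        rw [EE_cons_self, if_neg hne, IH, add_zero]
        simp only [YT, if_true, if_neg hl]
        split_ifs with h1
        · rfl
        · rw [YT_of_ge hT z (c := c) (by omega)]
          simp
      · rw [EE_cons_ne hc, if_neg hne, if_neg hne, IH, IH, ← hs, IH]
        simp only [YT, if_neg hc, if_neg hl]
        split_ifs with h1 h2
        · ring
        · rw [YT_of_ge hT z (c := i) (l := l) (by omega)]
          simp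
        · have h2 : c < i := lt_of_le_of_ne (not_lt.1 h1) hc
          rw [YT_of_ge hT z (c := c) (l := T.count i) (hT.mono h2.le)]
          simp

/-! ### the full rectangle -/

lemma sum_count {k : ℕ} (T : List (Fin k)) : ∑ c, T.count c = T.length := by
  induction T with
  | nil => simp
  | cons i T ih =>
    simp only [List.count_cons, Finset.sum_add_distrib, ih, List.length_cons]
    simp

lemma count_full {k m : ℕ} {T : List (Fin k)} (h : Lat m T) (hl : T.length = m * k) (c : Fin k) :
    T.count c = m := by
  have h1 : ∑ c, T.count c = ∑ _c : Fin k, m := by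
    rw [sum_count, hl]; simp [mul_comm]
  exact (Finset.sum_eq_sum_iff_of_le (fun c _ => h.le c)).1 h1 c (Finset.mem_univ c)

/-- d1 -/
theorem XM_eq_Xinf_mul {k m : ℕ} {T : List (Fin k)} (h : Lat m T) (hl : T.length = m * k) {z : ℕ → ℝ}
    (hz : ∀ q < T.length, z q ≠ 0) : XM m T z = Xinf (xT m T z) * CT m T z := by
  obtain ⟨C, hC⟩ := EE_fac h hz
  have hp : ∀ b : Fin k, piv T b = m + b := fun b => by unfold piv; rw [count_full h hl]
  have hCT : CT m T z = C := by
    ext b c
    show XT T z (m + b) c = C b c
    rw [hC, ← hp]
    simp [EE_piv h hz]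
  rw [hCT]
  ext a c
  rw [XM_apply, hC, Matrix.mul_apply]
  refine Finset.sum_congr rfl fun c' _ => ?_
  congr 1
  refine Fin.addCases (fun a => ?_) (fun b => ?_) a
  · have e1 : ri T a = a := by
      unfold ri
      have : (Finset.univ.filter (fun c : Fin k => T.count c ≤ (a : ℕ))) = ∅ := by
        refine Finset.filter_eq_empty_iff.2 fun c _ => ?_
        rw [count_full h hl]
        have := a.2
        omega
      rw [this]; simp
    have e2 := EE_ri h hz c' (a : ℕ)
    rw [e1] at e2
    simp only [Xinf, Matrix.of_apply, Fin.addCases_left, xT, Equiv.symm_apply_apply]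
    exact e2
  · simp only [Xinf, Matrix.of_apply, Fin.addCases_right]
    show EE T z (m + (b : ℕ)) c' = _
    rw [← hp, EE_piv h hz]

lemma det_CT {k m : ℕ} {T : List (Fin k)} (h : Lat m T) (hl : T.length = m * k) (z : ℕ → ℝ) :
    (CT m T z).det = ∏ q ∈ Finset.range T.length, z q := by
  have hp : ∀ b : Fin k, piv T b = m + b := fun b => by unfold piv; rw [count_full h hl]
  have h1 : (CT m T z).BlockTriangular id := by
    intro b c hbc
    have h2 : (c : ℕ) < b := hbc
    show XT T z (m + b) c = 0
    refine XT_of_gt h z ?_
    rw [hp]; omega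
  rw [Matrix.det_of_isUpperTriangular h1, ← prod_pr]
  refine Finset.prod_congr rfl fun b _ => ?_
  show XT T z (m + b) b = _
  rw [← hp, XT_piv h]

theorem StEch : S_StEch := fun _ _ _ h hl z hz => ⟨XM_eq_Xinf_mul h hl hz, det_CT h hl z⟩

end Pool.Agent.GC18.St
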