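import Pool.Agent.GC18.StShape
import Pool.Agent.GC18.Deriv

/-!
# Grassmann convexity (MP_5fea31_an): block (d) `S_StJ`, split into three pieces   (helper50)

* d1 `S_StEch`  : `X_T(z) = Xinf (xT z) * CT z` for the full rectangle (echelon coordinates `YT`)
* d2 `S_StYJ`   : sign of `det (∂ x_j / ∂ z_q)`
* d3 `S_StJ` from d1, d2 (chain rule)

All formulas numerically verified for (k,m) = (1,1),(2,1),(1,2),(2,2),(2,3),(3,1),(3,2),(3,3).
-/

set_option autoImplicit false

namespace Pool.Agent.GC18.St

open Matrix Filter Topology Set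

/-- echelon coordinates of the plane of `X_T(z)`: `YT T z c l` is the entry of the reduced matrix
in the column `c` and the `l`-th row which is not a pivot row (meaningful for `l < T.count c`);
the `l`-th non-pivot row is the row `l + #{c' : T.count c' ≤ l}` -/
noncomputable def YT {k : ℕ} : List (Fin k) → (ℕ → ℝ) → Fin k → ℕ → ℝ
  | [], _ => fun _ _ => 0
  | i :: T, z => fun c l =>
      if c = i then
        (if l < T.count i then YT T z i l / z T.length
         else if l = T.count i then 1 / z T.length else 0)
      else if i < c then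
        (if l < T.count i then YT T z c l - YT T z c (T.count i) * YT T z i l / z T.length
         else if l = T.count i then - YT T z c (T.count i) / z T.length
         else YT T z c l)
      else YT T z c l

/-- the point of the chart at infinity: `x_{(a,c)} = YT T z c a` -/
noncomputable def xT {k : ℕ} (m : ℕ) (T : List (Fin k)) (z : ℕ → ℝ) : Fin (m * k) → ℝ :=
  fun j => YT T z (finProdFinEquiv.symm j).2 (finProdFinEquiv.symm j).1

/-- bottom block of `X_T(z)` -/
def CT {k : ℕ} (m : ℕ) (T : List (Fin k)) (z : ℕ → ℝ) : Matrix (Fin k) (Fin k) ℝ :=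
  Matrix.of fun b c => XT T z (m + (b : ℕ)) c

/-- the Jacobian matrix of the coordinate change -/
noncomputable def AJ {k : ℕ} (m : ℕ) (T : List (Fin k)) (z : ℕ → ℝ) : Matrix (Fin (m * k)) (Fin (m * k)) ℝ :=
  Matrix.of fun j q => deriv (fun τ => xT m T (Function.update z q τ) j) (z q)

/-- (d1) -/
def S_StEch : Prop := ∀ (m k : ℕ) (T : List (Fin k)), Lat m T → T.length = m * k →
  ∀ z : ℕ → ℝ, (∀ q < T.length, z q ≠ 0) →
    XM m T z = Xinf (xT m T z) * CT m T z ∧ (CT m T z).det = ∏ q ∈ Finset.range T.length, z q

/-- (d2) -/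
def S_StYJ : Prop := ∀ (m k : ℕ), 1 ≤ m → 1 ≤ k → ∃ c : ℤ, (c = 1 ∨ c = -1) ∧
  ∀ T : List (Fin k), Lat m T → T.length = m * k → ∀ z : ℕ → ℝ, Neg T z →
    (SignType.sign (AJ m T z).det : ℤ) = c * (-1) ^ invT T

/-- smooth dependence of the echelon coordinates -/
lemma differentiableAt_YT {k : ℕ} {f : ℝ → ℕ → ℝ} {y : ℝ}
    (hf : ∀ q, DifferentiableAt ℝ (fun y => f y q) y) (T : List (Fin k)) (h0 : ∀ q < T.length, f y q ≠ 0)
    (c : Fin k) (l : ℕ) : DifferentiableAt ℝ (fun y => YT T (f y) c l) y := by
  induction T generalizing c l with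
  | nil => exact differentiableAt_const _
  | cons i T ih =>
    have h0' : ∀ q < T.length, f y q ≠ 0 := fun q hq => h0 q (by simp; omega)
    have h1 : f y T.length ≠ 0 := h0 _ (by simp)
    have ih' := fun c l => ih h0' c l
    simp only [YT]
    split_ifs
    · exact (ih' _ _).div (hf _) h1
    · exact (differentiableAt_const _).div (hf _) h1
    · exact differentiableAt_const _
    · exact (ih' _ _).sub (((ih' _ _).mul (ih' _ _)).div (hf _) h1)
    · exact (ih' _ _).neg.div (hf _) h1
    · exact ih' _ _
    · exact ih' _ _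

lemma YT_congr {k : ℕ} (T : List (Fin k)) {z z' : ℕ → ℝ} (h : ∀ q < T.length, z q = z' q) (c : Fin k) (l : ℕ) :
    YT T z c l = YT T z' c l := by
  induction T generalizing c l with
  | nil => rfl
  | cons i T ih =>
    have h' : ∀ q < T.length, z q = z' q := fun q hq => h q (by simp; omega)
    simp only [YT, ih h', h T.length (by simp)]

/-- differentiability along a coordinate line -/
lemma differentiableAt_YT_update {k : ℕ} (T : List (Fin k)) (z : ℕ → ℝ) (h0 : ∀ q < T.length, z q ≠ 0)
    (q : ℕ) (c : Fin k) (l : ℕ) :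
    DifferentiableAt ℝ (fun τ => YT T (Function.update z q τ) c l) (z q) := by
  apply differentiableAt_YT (f := fun τ => Function.update z q τ)
  · intro q'
    by_cases h : q' = q
    · subst h; simp
    · simp [h]
  · intro q' hq'
    rw [Function.update_eq_self]
    exact h0 q' hq'

end Pool.Agent.GC18.St
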