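import Pool.Agent.GC18.StJ3
import Pool.Agent.GC18.StJDefs

/-!
# Grassmann convexity (MP_5fea31_an): GC_Start, block (d) from (d1) and (d2)   (helper45)
-/

set_option autoImplicit false

namespace Pool.Agent.GC18.St

open Matrix Filter Topology Set Pool.Agent.GC18

namespace JA

lemma sign_prod_neg (z : ℕ → ℝ) (n : ℕ) (h : ∀ q < n, z q < 0) :
    SignType.sign (∏ q ∈ Finset.range n, z q) = (-1) ^ n := by
  induction n with
  | zero => simp
  | succ n ih =>
    rw [Finset.prod_range_succ, sign_mul, ih (fun q hq => h q (by omega)), sign_neg (h n (by omega)),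
      pow_succ]

lemma continuous_det_CT {k : ℕ} (m : ℕ) (T : List (Fin k)) (z : ℕ → ℝ) (q : ℕ) :
    Continuous (fun τ : ℝ => (CT m T (Function.update z q τ)).det) := by
  apply Continuous.matrix_det
  refine continuous_matrix fun b c => ?_
  exact (continuous_XT T (m + (b : ℕ)) c).comp (continuous_const.update q continuous_id)

end JA

theorem StJ (h1 : S_StEch) (h2 : S_StYJ) : S_StJ := by
  intro m k hm hk
  obtain ⟨c2, hc2, H2⟩ := h2 m k hm hk
  refine ⟨c2 * ((-1) ^ (m * k)) ^ (m * k), ?_, ?_⟩
  · rcases hc2 with h | h <;> rcases neg_one_pow_eq_or ℤ (m * k) with h' | h' <;> rw [h, h']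
    · left; simp
    · rcases neg_one_pow_eq_or ℤ (m * k) with h'' | h'' <;> rw [h''] <;> simp
    · right; simp
    · rcases neg_one_pow_eq_or ℤ (m * k) with h'' | h'' <;> rw [h''] <;> simp
  · intro T hT hlen t z hz hzero hJ
    have hne : ∀ q < T.length, z q ≠ 0 := hz.ne_zero
    obtain ⟨hX, hdet⟩ := h1 m k T hT hlen z hne
    have hC0 : (CT m T z).det ≠ 0 := by
      rw [hdet, Finset.prod_ne_zero_iff]
      intro q hq
      exact hne q (Finset.mem_range.1 hq)
    have hXev : ∀ q < m * k, ∀ᶠ τ in 𝓝 (z q), XM m T (Function.update z q τ) =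
        Xinf (xT m T (Function.update z q τ)) * CT m T (Function.update z q τ) := by
      intro q hq
      have hq0 : z q ≠ 0 := hne q (by rw [hlen]; exact hq)
      filter_upwards [isOpen_ne.mem_nhds hq0] with τ hτ
      apply (h1 m k T hT hlen (Function.update z q τ) _).1
      intro q' hq'
      by_cases h : q' = q
      · subst h
        rw [Function.update_self]
        exact hτ
      · rw [Function.update_of_ne h]
        exact hne q' hq'
    have hdx : ∀ l q : Fin (m * k), HasDerivAt (fun τ => xT m T (Function.update z (q : ℕ) τ) l)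
        (deriv (fun τ => xT m T (Function.update z (q : ℕ) τ) l) (z q)) (z q) := by
      intro l q
      exact (differentiableAt_YT_update T z hne q _ _).hasDerivAt
    have hchain := StJ_chain T hlen t z (xT m T) (CT m T) hXev
      (fun l q => deriv (fun τ => xT m T (Function.update z (q : ℕ) τ) l) (z q)) hdx
      (fun q _ => (JA.continuous_det_CT m T z q).continuousAt) hzero hC0
    have hAJ : (Matrix.of fun l q : Fin (m * k) =>
        deriv (fun τ => xT m T (Function.update z (q : ℕ) τ) l) (z q)) = AJ m T z := rfl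
    have hchain' : Jz m T t z = (CT m T z).det ^ (m * k) *
        JJ (Gt one1 m k (fun p => t p)) (xT m T z) * (AJ m T z).det := hchain
    refine ⟨xT m T z, CT m T z, hC0, hX, ?_, ?_⟩
    · intro h0
      apply hJ
      rw [hchain', h0, mul_zero, zero_mul]
    · have hs := congrArg SignType.sign hchain'
      rw [sign_mul, sign_mul, sign_pow] at hs
      have hsC : SignType.sign (CT m T z).det = (-1) ^ (m * k) := by
        rw [hdet, JA.sign_prod_neg z T.length hz.1, hlen]
      have hsA := H2 T hT hlen z hz
      have hs' : (SignType.sign (Jz m T t z) : ℤ) = ((-1) ^ (m * k)) ^ (m * k) *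
          (SignType.sign (JJ (Gt one1 m k (fun p => t p)) (xT m T z)) : ℤ) *
            (c2 * (-1) ^ invT T) := by
        rw [hs, hsC, ← hsA]
        push_cast
        rfl
      rw [hs']
      have e1 : (((-1 : ℤ) ^ (m * k)) ^ (m * k)) * (((-1) ^ (m * k)) ^ (m * k)) = 1 := by
        rw [← mul_pow, ← mul_pow]
        simp
      have e2 : ((-1 : ℤ) ^ invT T) * (-1) ^ invT T = 1 := by
        rw [← mul_pow]
        simp
      have e3 : c2 * c2 = 1 := by
        rcases hc2 with h | h <;> rw [h] <;> norm_num
      set S := (SignType.sign (JJ (Gt one1 m k (fun p => t p)) (xT m T z)) : ℤ)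
      calc S = 1 * 1 * 1 * S := by ring
        _ = (c2 * c2) * ((((-1 : ℤ) ^ (m * k)) ^ (m * k)) * (((-1) ^ (m * k)) ^ (m * k))) *
            (((-1 : ℤ) ^ invT T) * (-1) ^ invT T) * S := by rw [e1, e2, e3]
        _ = _ := by ring

end Pool.Agent.GC18.St
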