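import Pool.Agent.GC18.StShape

/-!
# Grassmann convexity (MP_5fea31_an): GC_Start, block (d), the sign of the permutation
(time order of the boxes) -> (order of `finProdFinEquiv`)   (helper45)
-/

set_option autoImplicit false

namespace Pool.Agent.GC18.St.J4

open Finset Pool.Agent.GC18

variable {k : ℕ}

/-- the box added at time `q` -/
def bx (d : Fin k) : List (Fin k) → ℕ → Fin k × ℕ
  | [], _ => (d, 0)
  | i :: T, q => if q = T.length then (i, T.count i) else bx d T q

lemma bx_cons_self (d i : Fin k) (T : List (Fin k)) : bx d (i :: T) T.length = (i, T.count i) := by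
  simp [bx]

lemma bx_cons_lt (d i : Fin k) (T : List (Fin k)) {q : ℕ} (h : q < T.length) :
    bx d (i :: T) q = bx d T q := by
  simp [bx, h.ne]

lemma bx_lt_count (d : Fin k) (T : List (Fin k)) : ∀ q < T.length, (bx d T q).2 < T.count (bx d T q).1 := by
  induction T with
  | nil => intro q hq; simp at hq
  | cons i T ih =>
    intro q hq
    rw [List.length_cons] at hq
    rcases Nat.lt_succ_iff_lt_or_eq.1 hq with h | h
    · rw [bx_cons_lt d i T h]
      have h1 := ih q h
      have h2 : T.count (bx d T q).1 ≤ (i :: T).count (bx d T q).1 :=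
        List.Sublist.count_le _ (List.sublist_cons_self _ _)
      omega
    · subst h
      rw [bx_cons_self]
      simp

lemma bx_lt_of_lt (d : Fin k) (T : List (Fin k)) : ∀ q q', q < q' → q' < T.length →
    (bx d T q).1 = (bx d T q').1 → (bx d T q).2 < (bx d T q').2 := by
  induction T with
  | nil => intro q q' _ hq; simp at hq
  | cons i T ih =>
    intro q q' hqq hq he
    rw [List.length_cons] at hq
    rcases Nat.lt_succ_iff_lt_or_eq.1 hq with h | h
    · rw [bx_cons_lt d i T h, bx_cons_lt d i T (hqq.trans h)] at he ⊢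
      exact ih q q' hqq h he
    · subst h
      rw [bx_cons_self, bx_cons_lt d i T hqq] at he ⊢
      have := bx_lt_count d T q hqq
      simp only at he ⊢
      rwa [he] at this

lemma bx_inj (d : Fin k) (T : List (Fin k)) {q q' : ℕ} (hq : q < T.length) (hq' : q' < T.length)
    (h : bx d T q = bx d T q') : q = q' := by
  rcases lt_trichotomy q q' with h1 | h1 | h1
  · have := bx_lt_of_lt d T q q' h1 hq' (by rw [h])
    rw [h] at this
    omega
  · exact h1
  · have := bx_lt_of_lt d T q' q h1 hq (by rw [h])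
    rw [h] at this
    omega

/-- the row-major order as an antisymmetric sign -/
def F (b b' : Fin k × ℕ) : ℤ :=
  if b.1 < b'.1 ∨ (b.1 = b'.1 ∧ b.2 < b'.2) then 1
  else if b'.1 < b.1 ∨ (b'.1 = b.1 ∧ b'.2 < b.2) then -1 else 0

lemma F_antisymm (b b' : Fin k × ℕ) : F b b' = -F b' b := by
  unfold F
  by_cases h1 : b.1 < b'.1 ∨ (b.1 = b'.1 ∧ b.2 < b'.2)
  · have h2 : ¬ (b'.1 < b.1 ∨ (b'.1 = b.1 ∧ b'.2 < b.2)) := by
      rintro (h | ⟨h, h'⟩) <;> rcases h1 with h3 | ⟨h3, h4⟩ <;> omega
    rw [if_pos h1, if_neg h2, if_pos h1]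
    norm_num
  · by_cases h2 : b'.1 < b.1 ∨ (b'.1 = b.1 ∧ b'.2 < b.2)
    · rw [if_neg h1, if_pos h2, if_pos h2]
    · rw [if_neg h1, if_neg h2, if_neg h2, if_neg h1]
      norm_num

lemma F_pm {b b' : Fin k × ℕ} (h : b ≠ b') : F b b' = 1 ∨ F b b' = -1 := by
  unfold F
  split_ifs with h1 h2
  · exact Or.inl rfl
  · exact Or.inr rfl
  · exfalso
    apply h
    push Not at h1 h2
    have e1 : b.1 = b'.1 := le_antisymm h2.1 h1.1
    exact Prod.ext e1 (le_antisymm (h2.2 e1.symm) (h1.2 e1))

/-- the product over the pairs with a new last box -/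
lemma prod_last (d i : Fin k) (T : List (Fin k)) :
    ∏ q ∈ range T.length, F (bx d T q) (i, T.count i) =
      (-1) ^ (∑ c ∈ univ.filter (fun c => i < c), T.count c) := by
  have h1 : ∀ q ∈ range T.length, F (bx d T q) (i, T.count i) =
      if i < (bx d T q).1 then -1 else 1 := by
    intro q hq
    have h2 := bx_lt_count d T q (mem_range.1 hq)
    unfold F
    rcases lt_trichotomy (bx d T q).1 i with h | h | h
    · rw [if_pos (Or.inl h), if_neg (not_lt.2 h.le)]
    · rw [if_pos (Or.inr ⟨h, by rw [← h]; exact h2⟩), if_neg (by rw [h]; exact lt_irrefl _)]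
    · rw [if_neg, if_pos (Or.inl h), if_pos h]
      rintro (h3 | ⟨h3, _⟩)
      · exact absurd h (not_lt.2 h3.le)
      · rw [h3] at h
        exact absurd h (lt_irrefl _)
  rw [prod_congr rfl h1]
  clear h1
  -- count the boxes in the rows `> i`
  induction T with
  | nil => simp
  | cons j T ih =>
    rw [List.length_cons, prod_range_succ, bx_cons_self]
    have h2 : ∏ q ∈ range T.length, (if i < (bx d (j :: T) q).1 then (-1 : ℤ) else 1) =
        ∏ q ∈ range T.length, (if i < (bx d T q).1 then -1 else 1) := by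
      apply prod_congr rfl
      intro q hq
      rw [bx_cons_lt d j T (mem_range.1 hq)]
    rw [h2, ih]
    have h3 : ∑ c ∈ univ.filter (fun c => i < c), (j :: T).count c =
        (∑ c ∈ univ.filter (fun c => i < c), T.count c) + (if i < j then 1 else 0) := by
      have h4 : ∀ c, (j :: T).count c = T.count c + (if j = c then 1 else 0) := by
        intro c
        rw [List.count_cons]
        simp
      simp only [h4, sum_add_distrib]
      congr 1
      rw [sum_ite_eq]
      simp
    rw [h3, pow_add]
    congr 1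
    simp only
    split_ifs <;> simp

lemma prod_pairs (d : Fin k) (T : List (Fin k)) :
    ∏ j ∈ range T.length, ∏ q ∈ range j, F (bx d T q) (bx d T j) = (-1) ^ invT T := by
  induction T with
  | nil => simp [invT]
  | cons i T ih =>
    rw [List.length_cons, prod_range_succ, bx_cons_self]
    have h1 : ∏ j ∈ range T.length, ∏ q ∈ range j, F (bx d (i :: T) q) (bx d (i :: T) j) =
        ∏ j ∈ range T.length, ∏ q ∈ range j, F (bx d T q) (bx d T j) := by
      apply prod_congr rfl
      intro j hj
      apply prod_congr rfl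
      intro q hq
      rw [bx_cons_lt d i T (mem_range.1 hj),
        bx_cons_lt d i T ((mem_range.1 hq).trans (mem_range.1 hj))]
    have h2 : ∏ q ∈ range T.length, F (bx d (i :: T) q) (i, T.count i) =
        ∏ q ∈ range T.length, F (bx d T q) (i, T.count i) := by
      apply prod_congr rfl
      intro q hq
      rw [bx_cons_lt d i T (mem_range.1 hq)]
    rw [h1, ih, h2, prod_last, invT, pow_add]

/-- the box with the number `e` -/
def bo {m : ℕ} (e : Fin (m * k)) : Fin k × ℕ := ((finProdFinEquiv.symm e).2, (finProdFinEquiv.symm e).1)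

lemma bo_inj {m : ℕ} {e e' : Fin (m * k)} (h : (bo e : Fin k × ℕ) = bo e') : e = e' := by
  unfold bo at h
  simp only [Prod.mk.injEq] at h
  apply finProdFinEquiv.symm.injective
  exact Prod.ext (Fin.ext h.2) h.1

/-- the constant -/
def cc (m k : ℕ) : ℤ := ∏ j : Fin (m * k), ∏ i ∈ Finset.Iio j, F (bo i : Fin k × ℕ) (bo j)

lemma cc_pm (m k : ℕ) : cc m k = 1 ∨ cc m k = -1 := by
  have hmul : ∀ {ι : Type} (s : Finset ι) (f : ι → ℤ), (∀ i ∈ s, f i = 1 ∨ f i = -1) →
      (∏ i ∈ s, f i = 1 ∨ ∏ i ∈ s, f i = -1) := by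
    intro ι s f hf
    classical
    induction s using Finset.induction_on with
    | empty => left; simp
    | insert a s ha ih =>
      rw [prod_insert ha]
      rcases hf a (mem_insert_self a s) with h | h <;>
        rcases ih (fun i hi => hf i (mem_insert_of_mem hi)) with h' | h' <;> rw [h, h'] <;> simp
  unfold cc
  apply hmul
  intro j _
  apply hmul
  intro i hi
  apply F_pm
  intro h
  have := bo_inj h
  rw [this] at hi
  simp at hi

/-- the permutation: the number of the box added at time `q` -/
lemma exists_perm {m : ℕ} (d : Fin k) {T : List (Fin k)} (hT : Lat m T) (hlen : T.length = m * k) :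
    ∃ σ : Equiv.Perm (Fin (m * k)), (∀ q : Fin (m * k), bo (σ q) = bx d T q) ∧
      ((Equiv.Perm.sign σ : ℤˣ) : ℤ) = cc m k * (-1) ^ invT T := by
  have hcol : ∀ q : Fin (m * k), (bx d T q).2 < m := by
    intro q
    exact lt_of_lt_of_le (bx_lt_count d T q (by rw [hlen]; exact q.2)) (hT.le _)
  let f : Fin (m * k) → Fin (m * k) := fun q => finProdFinEquiv (⟨(bx d T q).2, hcol q⟩, (bx d T q).1)
  have hf : ∀ q, (bo (f q) : Fin k × ℕ) = bx d T q := by
    intro q
    simp only [bo, f, Equiv.symm_apply_apply]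
  have hinj : Function.Injective f := by
    intro q q' h
    apply Fin.ext
    apply bx_inj d T (by rw [hlen]; exact q.2) (by rw [hlen]; exact q'.2)
    rw [← hf, ← hf, h]
  let σ : Equiv.Perm (Fin (m * k)) := Equiv.ofBijective f (Finite.injective_iff_bijective.1 hinj)
  have hσ : ∀ q, bo (σ q) = bx d T q := hf
  refine ⟨σ, hσ, ?_⟩
  have h1 := σ.prod_Iio_comp_eq_sign_mul_prod (R := ℤ)
    (f := fun e e' => F (bo e : Fin k × ℕ) (bo e')) (fun e e' => F_antisymm _ _)
  simp only [hσ] at h1
  have h2 : ∏ j : Fin (m * k), ∏ i ∈ Finset.Iio j, F (bx d T i) (bx d T j) = (-1) ^ invT T := by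
    rw [← prod_pairs d T, hlen]
    rw [← Fin.prod_univ_eq_prod_range (fun j => ∏ q ∈ range j, F (bx d T q) (bx d T j)) (m * k)]
    apply prod_congr rfl
    intro j _
    refine prod_bij (fun i _ => (i : ℕ)) ?_ ?_ ?_ ?_
    · intro i hi
      rw [mem_Iio] at hi
      rw [mem_range]
      exact hi
    · intro i _ i' _ h
      exact Fin.ext h
    · intro q hq
      rw [mem_range] at hq
      exact ⟨⟨q, hq.trans j.2⟩, by rw [mem_Iio]; exact hq, rfl⟩
    · intro i _
      rfl
  rw [h2] at h1
  have h3 : (∏ j : Fin (m * k), ∏ i ∈ Finset.Iio j, F (bo i : Fin k × ℕ) (bo j)) = cc m k := rfl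
  rw [h3] at h1
  rw [h1]
  rcases cc_pm m k with h | h <;> rw [h] <;> simp

end Pool.Agent.GC18.St.J4
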