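import Pool.Agent.GC18.StJDefs

/-!
# Grassmann convexity (MP_5fea31_an): block (d2) `StYJ : S_StYJ`   (helper50)

The Jacobian matrix of the echelon coordinates with respect to `z`, rows in the lexicographic order of the
boxes (`lexB`), by induction on the word: Laplace expansion along the row of the new box.
-/

set_option autoImplicit false

namespace Pool.Agent.GC18.St

namespace YJ

open Matrix Filter Topology Set

/-- number of boxes in the rows `≤ i` -/
def PB {k : ℕ} (i : Fin k) (T : List (Fin k)) : ℕ :=
  ∑ c ∈ Finset.univ.filter (fun c => c ≤ i), T.count c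

lemma sum_count {k : ℕ} (T : List (Fin k)) : ∑ c, T.count c = T.length := by
  induction T with
  | nil => simp
  | cons i T ih =>
    simp only [List.count_cons, Finset.sum_add_distrib, ih, List.length_cons]
    simp

lemma PB_le {k : ℕ} (i : Fin k) (T : List (Fin k)) : PB i T ≤ T.length := by
  rw [← sum_count T]
  exact Finset.sum_le_sum_of_subset (Finset.filter_subset _ _)

/-- position of the new box -/
def posB {k : ℕ} (i : Fin k) (T : List (Fin k)) : Fin (T.length + 1) :=
  ⟨PB i T, Nat.lt_succ_of_le (PB_le i T)⟩

/-- the boxes of the shape of `T` in lexicographic order -/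
def lexB {k : ℕ} : (T : List (Fin k)) → Fin T.length → Fin k × ℕ
  | [] => fun j => j.elim0
  | i :: T => Fin.insertNth (α := fun _ => Fin k × ℕ) (posB i T) (i, T.count i) (lexB T)

lemma lexB_same {k : ℕ} (i : Fin k) (T : List (Fin k)) : lexB (i :: T) (posB i T) = (i, T.count i) :=
  Fin.insertNth_apply_same (α := fun _ => Fin k × ℕ) (posB i T) (i, T.count i) (lexB T)

lemma lexB_succAbove {k : ℕ} (i : Fin k) (T : List (Fin k)) (j : Fin T.length) :
    lexB (i :: T) ((posB i T).succAbove j) = lexB T j :=
  Fin.insertNth_apply_succAbove (α := fun _ => Fin k × ℕ) (posB i T) (i, T.count i) (lexB T) j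

lemma sum_lexB {k : ℕ} {M : Type*} [AddCommMonoid M] (f : Fin k × ℕ → M) (i : Fin k) (T : List (Fin k)) :
    ∑ j, f (lexB (i :: T) j) = f (i, T.count i) + ∑ j, f (lexB T j) := by
  have h := Fin.sum_univ_succAbove (fun j : Fin (T.length + 1) => f (lexB (i :: T) j)) (posB i T)
  simp only [lexB_same, lexB_succAbove] at h
  exact h

/-- number of boxes in the rows `< c` -/
def PL {k : ℕ} (c : Fin k) (T : List (Fin k)) : ℕ :=
  ∑ c' ∈ Finset.univ.filter (fun c' => c' < c), T.count c'

lemma PB_eq {k : ℕ} (i : Fin k) (T : List (Fin k)) : PB i T = PL i T + T.count i := by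
  have h : Finset.univ.filter (fun c : Fin k => c ≤ i) = insert i (Finset.univ.filter (fun c : Fin k => c < i)) := by
    ext c; simp [le_iff_lt_or_eq, or_comm]
  rw [PB, h, Finset.sum_insert (by simp), PL]; ring

lemma PL_le_of_lt {k : ℕ} {c c' : Fin k} (h : c < c') (T : List (Fin k)) : PB c T ≤ PL c' T := by
  refine Finset.sum_le_sum_of_subset fun x hx => ?_
  simp only [Finset.mem_filter, Finset.mem_univ, true_and] at hx ⊢
  exact lt_of_le_of_lt hx h

lemma PL_cons {k : ℕ} (i c : Fin k) (T : List (Fin k)) :
    PL c (i :: T) = PL c T + if i < c then 1 else 0 := by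
  simp only [PL, List.count_cons, Finset.sum_add_distrib]
  congr 1
  simp only [beq_iff_eq, Finset.sum_ite_eq, Finset.mem_filter, Finset.mem_univ, true_and]

lemma lexB_spec {k : ℕ} (T : List (Fin k)) (j : Fin T.length) :
    (lexB T j).2 < T.count (lexB T j).1 ∧ (j : ℕ) = PL (lexB T j).1 T + (lexB T j).2 := by
  induction T with
  | nil => exact j.elim0
  | cons i T ih =>
    have key : ∀ j : Fin (T.length + 1), (lexB (i :: T) j).2 < (i :: T).count (lexB (i :: T) j).1 ∧
        (j : ℕ) = PL (lexB (i :: T) j).1 (i :: T) + (lexB (i :: T) j).2 := by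
      intro j
      rcases Fin.eq_self_or_eq_succAbove (posB i T) j with rfl | ⟨j, rfl⟩
      · rw [lexB_same]
        refine ⟨by simp, ?_⟩
        simp only [PL_cons, lt_irrefl, if_false]
        show PB i T = _
        rw [PB_eq]; ring
      · rw [lexB_succAbove]
        obtain ⟨h1, h2⟩ := ih j
        refine ⟨lt_of_lt_of_le h1 ?_, ?_⟩
        · rw [List.count_cons]; omega
        · rw [PL_cons]
          by_cases hc : i < (lexB T j).1
          · rw [if_pos hc]
            have h3 : PB i T ≤ PL (lexB T j).1 T := PL_le_of_lt hc T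
            have h4 : posB i T ≤ Fin.castSucc j := by
              rw [Fin.le_def]; show PB i T ≤ (j : ℕ); omega
            rw [Fin.succAbove_of_le_castSucc _ _ h4, Fin.val_succ]
            omega
          · rw [if_neg hc]
            have h3 : (j : ℕ) < PB (lexB T j).1 T := by rw [PB_eq]; omega
            have h3' : PB (lexB T j).1 T ≤ PB i T := by
              refine Finset.sum_le_sum_of_subset fun x hx => ?_
              simp only [Finset.mem_filter, Finset.mem_univ, true_and] at hx ⊢
              exact hx.trans (not_lt.1 hc)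
            have h4 : Fin.castSucc j < posB i T := by
              rw [Fin.lt_def]; show (j : ℕ) < PB i T; omega
            rw [Fin.succAbove_of_castSucc_lt _ _ h4, Fin.val_castSucc]
            omega
    exact key j

lemma lexB_injective {k : ℕ} (T : List (Fin k)) : Function.Injective (lexB T) := by
  intro j j' h
  apply Fin.ext
  rw [(lexB_spec T j).2, (lexB_spec T j').2, h]

lemma lexB_unique {k : ℕ} (T : List (Fin k)) {c : Fin k} {l : ℕ} (hl : l < T.count c) (j : Fin T.length)
    (hj : (j : ℕ) = PL c T + l) : lexB T j = (c, l) := by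
  obtain ⟨h1, h2⟩ := lexB_spec T j
  rcases lt_trichotomy c (lexB T j).1 with h | h | h
  · have := PL_le_of_lt h T
    rw [PB_eq] at this
    omega
  · apply Prod.ext h.symm
    show (lexB T j).2 = l
    rw [← h] at h2
    omega
  · have := PL_le_of_lt h T
    rw [PB_eq] at this
    omega

lemma lexB_surj {k : ℕ} (T : List (Fin k)) {c : Fin k} {l : ℕ} (hl : l < T.count c) :
    ∃ j, lexB T j = (c, l) := by
  have h : PL c T + l < T.length := by
    have h1 := PB_le c T
    rw [PB_eq] at h1
    omega
  exact ⟨⟨PL c T + l, h⟩, lexB_unique T hl _ rfl⟩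

/-! ### the Jacobian matrix -/

/-- Jacobian matrix, rows in the lexicographic order of the boxes, columns in the order of time -/
noncomputable def AL {k : ℕ} (T : List (Fin k)) (z : ℕ → ℝ) : Matrix (Fin T.length) (Fin T.length) ℝ :=
  Matrix.of fun j q => deriv (fun τ => YT T (Function.update z q τ) (lexB T j).1 (lexB T j).2) (z q)

/-- diagonal of the change of chart -/
noncomputable def dL {k : ℕ} (i : Fin k) (T : List (Fin k)) (z : ℕ → ℝ) (j : Fin T.length) : ℝ :=
  if (lexB T j).1 = i then 1 / z T.length
  else if i < (lexB T j).1 ∧ (lexB T j).2 = T.count i then -1 / z T.length else 1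

/-- the matrix of the change of chart -/
noncomputable def BL {k : ℕ} (i : Fin k) (T : List (Fin k)) (z : ℕ → ℝ) :
    Matrix (Fin T.length) (Fin T.length) ℝ :=
  Matrix.of fun j j' =>
    if i < (lexB T j).1 ∧ (lexB T j).2 < T.count i then
      (if j' = j then 1 else 0)
      - (if lexB T j' = ((lexB T j).1, T.count i) then YT T z i (lexB T j).2 / z T.length else 0)
      - (if lexB T j' = (i, (lexB T j).2) then YT T z (lexB T j).1 (T.count i) / z T.length else 0)
    else (if j' = j then dL i T z j else 0)

lemma BL_mul_AL {k m : ℕ} {i : Fin k} {T : List (Fin k)} (hL : Lat m (i :: T)) (z : ℕ → ℝ)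
    (hz : ∀ q < (i :: T).length, z q ≠ 0) (j q : Fin T.length) :
    (BL i T z * AL T z) j q =
      deriv (fun τ => YT (i :: T) (Function.update z q τ) (lexB T j).1 (lexB T j).2) (z q) := by
  have hz' : ∀ q < T.length, z q ≠ 0 := fun q hq => hz q (by simp; omega)
  have hr : ∀ τ, (Function.update z q τ) T.length = z T.length := fun τ =>
    Function.update_of_ne (by have := q.2; omega) _ _
  have hself : Function.update z (q : ℕ) (z q) = z := Function.update_eq_self _ _
  have hd : ∀ c l, HasDerivAt (fun τ => YT T (Function.update z q τ) c l)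
      (deriv (fun τ => YT T (Function.update z q τ) c l) (z q)) (z q) :=
    fun c l => (differentiableAt_YT_update T z hz' q c l).hasDerivAt
  have hA : ∀ j' c l, lexB T j' = (c, l) → AL T z j' q = deriv (fun τ => YT T (Function.update z q τ) c l) (z q) := by
    intro j' c l h
    simp only [AL, Matrix.of_apply, h]
  rw [Matrix.mul_apply]
  set c := (lexB T j).1 with hc
  set l := (lexB T j).2 with hl
  have hj : lexB T j = (c, l) := rfl
  obtain ⟨hlc, -⟩ := lexB_spec T j
  rw [← hc, ← hl] at hlc
  by_cases h1 : c = i
  · have hlL : l < T.count i := by rw [← h1]; exact hlc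
    have e : ∀ τ, YT (i :: T) (Function.update z q τ) c l = YT T (Function.update z q τ) c l / z T.length := by
      intro τ
      simp only [YT, if_pos hlL, hr, h1, if_true]
    simp only [e]
    rw [((hd c l).div_const _).deriv]
    simp only [BL, Matrix.of_apply, ← hc, ← hl]
    rw [Finset.sum_eq_single j]
    · rw [if_neg (by rw [h1]; simp), if_pos rfl, hA j c l hj, dL, ← hc, if_pos h1]; ring
    · intro j' _ hj'
      rw [if_neg (by rw [h1]; simp), if_neg hj', zero_mul]
    · simp
  · by_cases h2 : i < c
    · have hLc : T.count i < T.count c := by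
        have h3 := hL.mono h2.le
        simp only [List.count_cons_self, List.count_cons_of_ne (Ne.symm h1)] at h3
        omega
      by_cases h3 : l < T.count i
      · have e : ∀ τ, YT (i :: T) (Function.update z q τ) c l = YT T (Function.update z q τ) c l -
            YT T (Function.update z q τ) c (T.count i) * YT T (Function.update z q τ) i l / z T.length := by
          intro τ
          simp only [YT, if_neg h1, if_pos h2, if_pos h3, hr]
        simp only [e]
        rw [((hd c l).fun_sub (((hd c (T.count i)).fun_mul (hd i l)).div_const _)).deriv]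
        simp only [hself]
        obtain ⟨jX, hX⟩ := lexB_surj T hLc
        obtain ⟨jY, hY⟩ := lexB_surj T h3
        simp only [BL, Matrix.of_apply, ← hc, ← hl]
        have e1 : ∀ j', (lexB T j' = (c, T.count i)) ↔ j' = jX := by
          intro j'; rw [← hX]; exact (lexB_injective T).eq_iff
        have e2 : ∀ j', (lexB T j' = (i, l)) ↔ j' = jY := by
          intro j'; rw [← hY]; exact (lexB_injective T).eq_iff
        simp only [e1, e2, if_pos (And.intro h2 h3), sub_mul, Finset.sum_sub_distrib, ite_mul, zero_mul,
          one_mul, Finset.sum_ite_eq', Finset.mem_univ, if_true]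
        rw [hA j c l hj, hA jX _ _ hX, hA jY _ _ hY]
        ring
      · have hB : ∀ j', BL i T z j j' = if j' = j then dL i T z j else 0 := by
          intro j'
          simp only [BL, Matrix.of_apply, ← hc, ← hl]
          rw [if_neg (by simp [h3])]
        simp only [hB, ite_mul, zero_mul, Finset.sum_ite_eq', Finset.mem_univ, if_true]
        by_cases h4 : l = T.count i
        · have e : ∀ τ, YT (i :: T) (Function.update z q τ) c l =
              - YT T (Function.update z q τ) c l / z T.length := by
            intro τ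
            simp only [YT, if_neg h1, if_pos h2, hr, h4, lt_irrefl, if_false, if_true]
          simp only [e]
          rw [((hd c l).fun_neg.div_const _).deriv, hA j c l hj, dL, ← hc, ← hl, if_neg h1,
            if_pos ⟨h2, h4⟩]
          ring
        · have e : ∀ τ, YT (i :: T) (Function.update z q τ) c l = YT T (Function.update z q τ) c l := by
            intro τ
            simp only [YT, if_neg h1, if_pos h2, if_neg h3, if_neg h4]
          simp only [e]
          rw [hA j c l hj, dL, ← hc, ← hl, if_neg h1, if_neg (by simp [h4])]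
          ring
    · have hB : ∀ j', BL i T z j j' = if j' = j then dL i T z j else 0 := by
        intro j'
        simp only [BL, Matrix.of_apply, ← hc, ← hl]
        rw [if_neg (by simp [h2])]
      simp only [hB, ite_mul, zero_mul, Finset.sum_ite_eq', Finset.mem_univ, if_true]
      have e : ∀ τ, YT (i :: T) (Function.update z q τ) c l = YT T (Function.update z q τ) c l := by
        intro τ
        simp only [YT, if_neg h1, if_neg h2]
      simp only [e]
      rw [hA j c l hj, dL, ← hc, ← hl, if_neg h1, if_neg (by simp [h2])]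
      ring

lemma det_AL_cons {k m : ℕ} {i : Fin k} {T : List (Fin k)} (hL : Lat m (i :: T)) (z : ℕ → ℝ)
    (hz : ∀ q < (i :: T).length, z q ≠ 0) :
    (AL (i :: T) z).det =
      (-1) ^ (PB i T + T.length) * (-1 / (z T.length) ^ 2) * ((BL i T z).det * (AL T z).det) := by
  have hzr : z T.length ≠ 0 := hz _ (by simp)
  have h := Matrix.det_succ_row (n := T.length) (AL (i :: T) z) (posB i T)
  rw [Finset.sum_eq_single (Fin.last T.length)] at h
  · refine h.trans ?_
    rw [← Matrix.det_mul]
    have e1 : AL (i :: T) z (posB i T) (Fin.last T.length) = -1 / (z T.length) ^ 2 := by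
      have e : (fun τ => YT (i :: T) (Function.update z (Fin.last T.length : Fin (T.length + 1)) τ) (lexB (i :: T) (posB i T)).1
          (lexB (i :: T) (posB i T)).2) = fun τ => τ⁻¹ := by
        funext τ
        rw [lexB_same]
        simp [YT]
      show deriv (fun τ => YT (i :: T) (Function.update z (Fin.last T.length : Fin (T.length + 1)) τ) (lexB (i :: T) (posB i T)).1
          (lexB (i :: T) (posB i T)).2) _ = _
      rw [e, deriv_inv]
      simp [neg_div]
    rw [e1]
    congr 2
    ext j q
    rw [BL_mul_AL hL z hz j q, Matrix.submatrix_apply]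
    show deriv (fun τ => YT (i :: T) (Function.update z ((Fin.last T.length).succAbove q : Fin (T.length + 1)) τ)
      (lexB (i :: T) ((posB i T).succAbove j)).1 (lexB (i :: T) ((posB i T).succAbove j)).2)
      (z ((Fin.last T.length).succAbove q : Fin (T.length + 1))) = _
    rw [lexB_succAbove, Fin.succAbove_last, Fin.val_castSucc]
  · intro q _ hq
    have e1 : AL (i :: T) z (posB i T) q = 0 := by
      have hq' : T.length ≠ (q : ℕ) := by
        intro h'
        apply hq
        apply Fin.ext
        rw [Fin.val_last]; exact h'.symm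
      have e : (fun τ => YT (i :: T) (Function.update z (q : ℕ) τ) (lexB (i :: T) (posB i T)).1
          (lexB (i :: T) (posB i T)).2) = fun τ => 1 / z T.length := by
        funext τ
        rw [lexB_same]
        simp [YT, Function.update_of_ne hq']
      show deriv (fun τ => YT (i :: T) (Function.update z (q : ℕ) τ) (lexB (i :: T) (posB i T)).1
          (lexB (i :: T) (posB i T)).2) _ = _
      rw [e, deriv_const]
    rw [e1]; simp
  · simp

/-! ### the sign -/

lemma det_BL {k m : ℕ} {i : Fin k} {T : List (Fin k)} (hL : Lat m (i :: T)) (z : ℕ → ℝ) :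
    (BL i T z).det = ∏ j, dL i T z j := by
  have hLc : ∀ c, i < c → T.count i < T.count c := by
    intro c hc
    have h3 := hL.mono hc.le
    simp only [List.count_cons_self, List.count_cons_of_ne hc.ne] at h3
    omega
  set p : Fin T.length → Prop := fun j => i < (lexB T j).1 ∧ (lexB T j).2 < T.count i with hp
  have hdec : DecidablePred p := fun j => by rw [hp]; infer_instance
  rw [Matrix.twoBlockTriangular_det (BL i T z) p]
  · have e1 : toSquareBlockProp (BL i T z) p = Matrix.diagonal (fun j : {j // p j} => dL i T z j) := by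
      ext j j'
      have hj := j.2
      have hj' := j'.2
      simp only [hp] at hj hj'
      have h1 : ¬ lexB T j' = ((lexB T j).1, T.count i) := by
        intro h; rw [h] at hj'; exact absurd hj'.2 (lt_irrefl _)
      have h2 : ¬ lexB T j' = (i, (lexB T j).2) := by
        intro h; rw [h] at hj'; exact absurd hj'.1 (lt_irrefl _)
      have h3 : dL i T z j = 1 := by
        rw [dL, if_neg hj.1.ne', if_neg (by intro h; omega)]
      change BL i T z j j' = _
      simp only [Matrix.of_apply, BL, if_pos hj, if_neg h1, if_neg h2, Matrix.diagonal_apply, h3, sub_zero]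
      by_cases hjj : j = j'
      · subst hjj; simp
      · rw [if_neg hjj, if_neg (fun h => hjj (Subtype.ext h.symm))]
    have e2 : toSquareBlockProp (BL i T z) (fun j => ¬ p j) =
        Matrix.diagonal (fun j : {j // ¬ p j} => dL i T z j) := by
      ext j j'
      have hj := j.2
      simp only [hp] at hj
      change BL i T z j j' = _
      simp only [Matrix.of_apply, BL, if_neg hj, Matrix.diagonal_apply]
      by_cases hjj : j = j'
      · subst hjj; simp
      · rw [if_neg hjj, if_neg (fun h => hjj (Subtype.ext h.symm))]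
    rw [e1, e2, Matrix.det_diagonal, Matrix.det_diagonal]
    exact Fintype.prod_subtype_mul_prod_subtype p (fun j => dL i T z j)
  · intro j hj j' hj'
    simp only [hp] at hj
    simp only [BL, Matrix.of_apply, if_neg hj]
    rw [if_neg]
    rintro rfl
    exact hj hj'

lemma sum_ind_lexB {k : ℕ} (c : Fin k) (T : List (Fin k)) :
    ∑ j, (if (lexB T j).1 = c then 1 else 0) = T.count c := by
  induction T with
  | nil => simp
  | cons i T ih =>
    rw [sum_lexB (fun p : Fin k × ℕ => if p.1 = c then 1 else 0) i T, ih, List.count_cons]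
    simp only [beq_iff_eq]
    ring

lemma prod_dL_pos {k : ℕ} (i : Fin k) (T : List (Fin k)) (z : ℕ → ℝ) (hz : z T.length < 0) :
    0 < (-1 : ℝ) ^ (T.count i) * ∏ j, dL i T z j := by
  rw [← sum_ind_lexB i T, ← Finset.prod_pow_eq_pow_sum, ← Finset.prod_mul_distrib]
  refine Finset.prod_pos fun j _ => ?_
  simp only [dL]
  have h1 : 0 < -(1 / z T.length) := by
    rw [neg_pos]; exact one_div_neg.2 hz
  split_ifs
  · rw [pow_one]; linarith
  · rw [pow_zero, one_mul, neg_div]; exact h1
  · simp

lemma sum_filter_lt {k : ℕ} (i : Fin k) (T : List (Fin k)) :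
    PB i T + ∑ c ∈ Finset.univ.filter (fun c => i < c), T.count c = T.length := by
  rw [← sum_count T, PB, ← Finset.sum_filter_add_sum_filter_not Finset.univ (fun c : Fin k => c ≤ i)]
  simp only [not_le]

lemma AL_pos {k m : ℕ} {T : List (Fin k)} (hL : Lat m T) (z : ℕ → ℝ) (hz : ∀ q < T.length, z q < 0) :
    0 < (-1 : ℝ) ^ (T.length + ∑ j, (lexB T j).2 + invT T) * (AL T z).det := by
  induction T with
  | nil =>
    have h : (AL ([] : List (Fin k)) z).det = 1 := Matrix.det_fin_zero
    rw [h]; simp [invT]
  | cons i T ih =>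
    have hz' : ∀ q < T.length, z q < 0 := fun q hq => hz q (by simp; omega)
    have hzr : z T.length < 0 := hz _ (by simp)
    have h1 := ih hL.tail hz'
    have h2 := prod_dL_pos i T z hzr
    rw [det_AL_cons hL z (fun q hq => (hz q hq).ne), det_BL hL z, sum_lexB (fun p : Fin k × ℕ => p.2) i T]
    have h3 : 0 < 1 / (z T.length) ^ 2 := one_div_pos.2 ((sq_pos_of_neg hzr))
    have h4 := sum_filter_lt i T
    have h5 := mul_pos h3 (mul_pos h1 h2)
    have e : ∀ (a b c d s f : ℕ) (D1 D2 x : ℝ), a + b = c →
        (-1 : ℝ) ^ (c + 1 + (d + s) + (f + b)) * ((-1) ^ (a + c) * (-1 / x) * (D1 * D2)) =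
        1 / x * ((-1) ^ (c + s + f) * D2 * ((-1) ^ d * D1)) := by
      intro a b c d s f D1 D2 x hab
      have h6 : (-1 : ℝ) ^ (a + c) = (-1) ^ b := by
        rw [← hab, show a + (a + b) = 2 * a + b by ring, pow_add, pow_mul]; simp
      have h7 : (-1 : ℝ) ^ b * (-1) ^ b = 1 := by
        rw [← pow_add, ← two_mul, pow_mul]; simp
      rw [h6, pow_add _ _ (f + b), pow_add _ (c + 1), pow_add _ d, pow_add _ f, pow_add _ c 1,
        pow_add _ (c + s), pow_add _ c s]
      have h8 : (-1 : ℝ) ^ c * (-1) ^ 1 * ((-1) ^ d * (-1) ^ s) * ((-1) ^ f * (-1) ^ b) *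
          ((-1) ^ b * (-1 / x) * (D1 * D2)) =
          ((-1) ^ b * (-1) ^ b) * ((-1 : ℝ) ^ c * (-1) ^ 1 * ((-1) ^ d * (-1) ^ s) * ((-1) ^ f) *
          ((-1 / x) * (D1 * D2))) := by ring
      rw [h8, h7]
      ring
    have h6 := e (PB i T) (∑ c ∈ Finset.univ.filter (fun c => i < c), T.count c) T.length
      (T.count i) (∑ j, (lexB T j).2) (invT T) (∏ j, dL i T z j) (AL T z).det (z T.length ^ 2) h4
    have h7 : (i :: T).length + (T.count i + ∑ j, (lexB T j).2) + invT (i :: T) =
        T.length + 1 + (T.count i + ∑ j, (lexB T j).2) +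
          (invT T + ∑ c ∈ Finset.univ.filter (fun c => i < c), T.count c) := rfl
    rw [h7, h6]
    exact h5

/-! ### the full rectangle -/

lemma count_full {k m : ℕ} {T : List (Fin k)} (hL : Lat m T) (h : T.length = m * k) (c : Fin k) :
    T.count c = m := by
  have h1 : ∑ c, T.count c = ∑ c : Fin k, m := by
    rw [sum_count, h]; simp [mul_comm]
  exact (Finset.sum_eq_sum_iff_of_le (fun c _ => hL.le c)).1 h1 c (Finset.mem_univ c)

lemma PL_full {k m : ℕ} {T : List (Fin k)} (hL : Lat m T) (h : T.length = m * k) (c : Fin k) :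
    PL c T = m * c := by
  rw [PL, Finset.sum_congr rfl (fun c _ => count_full hL h c), Finset.sum_const]
  have : Finset.univ.filter (fun c' : Fin k => c' < c) = Finset.Iio c := by ext; simp
  rw [this, Fin.card_Iio, smul_eq_mul, mul_comm]

/-- from the order of `finProdFinEquiv` to the lexicographic order -/
def piP (m k : ℕ) : Equiv.Perm (Fin (m * k)) :=
  (finProdFinEquiv (m := m) (n := k)).symm.trans ((Equiv.prodComm (Fin m) (Fin k)).trans
    ((finProdFinEquiv (m := k) (n := m)).trans (finCongr (mul_comm k m))))

lemma piP_val {m k : ℕ} (j : Fin (m * k)) :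
    ((piP m k j : Fin (m * k)) : ℕ) =
      ((finProdFinEquiv.symm j).1 : ℕ) + m * ((finProdFinEquiv.symm j).2 : ℕ) := by
  simp only [piP, Equiv.trans_apply, Equiv.prodComm_apply, finCongr_apply, Fin.val_cast,
    finProdFinEquiv_apply_val, Prod.fst_swap, Prod.snd_swap]

lemma lexB_full {k m : ℕ} {T : List (Fin k)} (hL : Lat m T) (h : T.length = m * k) (j : Fin (m * k)) :
    lexB T (finCongr h.symm (piP m k j)) =
      ((finProdFinEquiv.symm j).2, ((finProdFinEquiv.symm j).1 : ℕ)) := by
  apply lexB_unique
  · rw [count_full hL h]; exact (finProdFinEquiv.symm j).1.2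
  · rw [finCongr_apply, Fin.val_cast, piP_val, PL_full hL h]; ring

lemma det_AJ {k m : ℕ} {T : List (Fin k)} (hL : Lat m T) (h : T.length = m * k) (z : ℕ → ℝ) :
    (AJ m T z).det = ((Equiv.Perm.sign (piP m k) : ℤ) : ℝ) * (AL T z).det := by
  have e : AJ m T z = ((AL T z).submatrix (finCongr h.symm) (finCongr h.symm)).submatrix (piP m k) id := by
    ext j q
    simp only [Matrix.submatrix_apply, AJ, AL, Matrix.of_apply, xT, lexB_full hL h, id]
    simp
  rw [e, Matrix.det_permute, Matrix.det_submatrix_equiv_self]

lemma sum_snd_full {k m : ℕ} {T : List (Fin k)} (hL : Lat m T) (h : T.length = m * k) :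
    ∑ j, (lexB T j).2 = ∑ j : Fin (m * k), ((finProdFinEquiv.symm j).1 : ℕ) := by
  rw [← Equiv.sum_comp ((piP m k).trans (finCongr h.symm)) (fun j => (lexB T j).2)]
  refine Finset.sum_congr rfl fun j _ => ?_
  rw [Equiv.trans_apply, lexB_full hL h]

lemma sign_of_pos {e : ℕ} {d : ℝ} (h : 0 < (-1 : ℝ) ^ e * d) : (SignType.sign d : ℤ) = (-1) ^ e := by
  rcases neg_one_pow_eq_or ℝ e with h1 | h1
  · rw [h1, one_mul] at h
    have h2 : (-1 : ℤ) ^ e = 1 := by
      have : ((-1 : ℤ) ^ e : ℝ) = (1 : ℤ) := by push_cast; exact h1
      exact_mod_cast this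
    rw [h2, sign_pos h]; rfl
  · rw [h1] at h
    have h2 : (-1 : ℤ) ^ e = -1 := by
      have : ((-1 : ℤ) ^ e : ℝ) = (-1 : ℤ) := by push_cast; exact h1
      exact_mod_cast this
    rw [h2, sign_neg (by linarith)]; rfl

end YJ

open YJ in
theorem StYJ : S_StYJ := by
  intro m k _ _
  set S : ℕ := ∑ j : Fin (m * k), ((finProdFinEquiv.symm j).1 : ℕ) with hS
  refine ⟨(Equiv.Perm.sign (piP m k) : ℤ) * (-1) ^ (m * k + S), ?_, ?_⟩
  · rcases Int.units_eq_one_or (Equiv.Perm.sign (piP m k)) with h | h <;>
      rcases neg_one_pow_eq_or ℤ (m * k + S) with h' | h' <;> rw [h, h'] <;> simp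
  · intro T hL h z hz
    have h1 := AL_pos hL z hz.1
    have h2 : (SignType.sign (AL T z).det : ℤ) = (-1) ^ (m * k + S + invT T) := by
      have h3 := sign_of_pos h1
      rw [sum_snd_full hL h, ← hS] at h3
      rw [h3]
      congr 1
      omega
    rw [det_AJ hL h]
    rcases Int.units_eq_one_or (Equiv.Perm.sign (piP m k)) with h' | h'
    · rw [h']
      simp only [Units.val_one, Int.cast_one, one_mul, h2, pow_add]
    · rw [h']
      simp only [Units.val_neg, Units.val_one, Int.cast_neg, Int.cast_one, neg_mul, one_mul, Left.sign_neg,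
        SignType.coe_neg, h2, pow_add]

end Pool.Agent.GC18.St
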