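import Pool.Agent.GC18.StStmts
import Pool.Agent.GC18.E2

/-!
# Grassmann convexity (MP_5fea31_an): GC_Start, block (a): a good triangular base flag  (helper3)
-/

set_option autoImplicit false

namespace Pool.Agent.GC18.St

open Matrix Filter Topology Set KV

namespace BaseM

lemma wtB : Wt one1 1 where
  T_pos := one_pos
  smooth _ := contDiff_const
  pos _ _ := one_pos
  one _ _ _ := rfl

/-- the identity flag -/
def Y0 (k : ℕ) : ℕ → Fin k → ℝ := fun s c => if s = (c : ℕ) then 1 else 0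

lemma Ym_Y0 (k : ℕ) : Ym (Y0 k) k = (1 : Matrix (Fin k) (Fin k) ℝ) := by
  ext i b
  simp only [Ym, Y0, Matrix.of_apply, Matrix.one_apply, Fin.ext_iff]
  by_cases h : (i : ℕ) = b
  · rw [if_pos h.symm, if_pos h]
  · rw [if_neg (fun h' => h h'.symm), if_neg h]

lemma det_Gam (k : ℕ) (t : ℝ) : (Gam one1 k k t).det = 1 := by
  rw [Matrix.det_of_isUpperTriangular]
  · refine Finset.prod_eq_one fun i _ => ?_
    simp [Gam, ge, gd]
  · intro i j hij
    have h : (j : ℕ) < i := hij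
    simp only [Gam, Matrix.of_apply, ge]
    rw [if_neg (by omega)]

lemma DR_Y0 (k : ℕ) (t : ℝ) : DR one1 (Ym (Y0 k) k) t = 1 := by
  rw [Ym_Y0]
  unfold DR
  rw [Matrix.mul_one, det_Gam]

lemma not_van_Y0 (k : ℕ) : ¬ VanInf 1 (Ym (Y0 k) k) := by
  rw [not_vanInf_one_iff le_rfl, Ym_Y0]
  have : (1 : Matrix (Fin k) (Fin k) ℝ).submatrix (botRows (le_refl k)) id = 1 := by
    ext i b
    simp only [Matrix.submatrix_apply, id, Matrix.one_apply, botRows, Fin.ext_iff]
    simp
  rw [this, Matrix.det_one]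
  exact one_ne_zero

/-- a vector of `V_{s+1}` with last `s + 1` coordinates `(1, 0, .., 0)` -/
lemma exists_tri {k : ℕ} {Y : ℕ → Fin k → ℝ} {s : ℕ} (hs : s < k) (h : ¬ VanInf 1 (Ym Y (s + 1))) :
    ∃ u ∈ Vs Y (s + 1), (∀ c : Fin k, k < s + (c : ℕ) + 1 → u c = 0) ∧
      ∀ c : Fin k, s + (c : ℕ) + 1 = k → u c = 1 := by
  rw [not_vanInf_one_iff (Nat.succ_le_of_lt hs)] at h
  set A := (Ym Y (s + 1)).submatrix (botRows (Nat.succ_le_of_lt hs)) id with hA
  have hu : IsUnit A.det := isUnit_iff_ne_zero.2 h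
  set d : Fin (s + 1) → ℝ := A⁻¹ *ᵥ (Pi.single 0 1) with hd
  have hAd : A *ᵥ d = Pi.single 0 1 := by
    rw [hd, Matrix.mulVec_mulVec, Matrix.mul_nonsing_inv A hu, Matrix.one_mulVec]
  have key : ∀ i : Fin (s + 1), (Ym Y (s + 1) *ᵥ d) (botRows (Nat.succ_le_of_lt hs) i) =
      (Pi.single 0 1 : Fin (s + 1) → ℝ) i := by
    intro i
    rw [← hAd]
    rfl
  refine ⟨Ym Y (s + 1) *ᵥ d, mem_Vs_iff.2 ⟨d, rfl⟩, fun c hc => ?_, fun c hc => ?_⟩
  · have h1 : (c : ℕ) - (k - (s + 1)) < s + 1 := by have := c.2; omega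
    have h2 : botRows (Nat.succ_le_of_lt hs) ⟨(c : ℕ) - (k - (s + 1)), h1⟩ = c := by
      apply Fin.ext
      simp only [botRows]
      omega
    have h3 := key ⟨(c : ℕ) - (k - (s + 1)), h1⟩
    rw [h2] at h3
    rw [h3, Pi.single_eq_of_ne]
    intro h4
    have := congrArg Fin.val h4
    simp only [Fin.val_zero] at this
    omega
  · have h2 : botRows (Nat.succ_le_of_lt hs) 0 = c := by
      apply Fin.ext
      simp only [botRows, Fin.val_zero]
      omega
    have h3 := key 0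
    rw [h2] at h3
    rw [h3, Pi.single_eq_same]

/-- triangular flags are independent -/
lemma ind_of_base {k : ℕ} {U : ℕ → Fin k → ℝ} (hU : Base U) {j : ℕ} (hj : j ≤ k) : Ind U j := by
  rw [ind_iff]
  intro c hc
  have key : ∀ (n : ℕ) (s : Fin j), (s : ℕ) = n → c s = 0 := by
    intro n
    induction n using Nat.strong_induction_on with
    | _ n ih =>
      intro s hs
      have hsk : k - 1 - (s : ℕ) < k := by have := s.2; omega
      have h1 := congrFun hc ⟨k - 1 - (s : ℕ), hsk⟩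
      rw [mulVec_Ym] at h1
      simp only [Finset.sum_apply, Pi.smul_apply, smul_eq_mul, Pi.zero_apply] at h1
      rw [Finset.sum_eq_single s] at h1
      · rw [hU.one s ⟨k - 1 - (s : ℕ), hsk⟩ (by simp only; have := s.2; omega), mul_one] at h1
        exact h1
      · intro b _ hb
        rcases lt_or_gt_of_ne (fun h => hb (Fin.ext h) : (b : ℕ) ≠ s) with h | h
        · rw [ih b (by omega) b rfl, zero_mul]
        · rw [hU.zero b ⟨k - 1 - (s : ℕ), hsk⟩ (by simp only; have := s.2; omega), mul_zero]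
      · intro h
        exact absurd (Finset.mem_univ s) h
  funext s
  exact key s s rfl

/-- for the empty word the determinants are the ones in dimension `k` -/
lemma DR_Yv_nil {m k : ℕ} (U : ℕ → Fin k → ℝ) (z : ℕ → ℝ) (j : ℕ) :
    DR one1 (Ym (Yv m U ([] : List (Fin k)) z) j) = DR one1 (Ym U j) := by
  funext t
  unfold DR
  congr 1
  ext i b
  simp only [Matrix.mul_apply, Gam, Matrix.of_apply, Ym, Yv, XT, Finset.mul_sum]
  rw [Finset.sum_comm]
  refine Finset.sum_congr rfl fun c _ => ?_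
  rw [Finset.sum_eq_single (⟨(c : ℕ), by have := c.2; omega⟩ : Fin (m + k))]
  · simp
  · intro a _ ha
    have : (a : ℕ) ≠ c := fun h => ha (Fin.ext h)
    rw [if_neg this]
    ring
  · intro h
    exact absurd (Finset.mem_univ _) h

end BaseM

open BaseM in
/-- block (a) -/
theorem StBase : S_StBase := by
  intro m k hk
  obtain ⟨Y, hY, -⟩ := ExGood one1 1 wtB k k le_rfl (Y0 k) (not_van_Y0 k)
    (fun t ht => absurd (by rw [DR_Y0] at ht; exact ht) one_ne_zero)
  have hex : ∀ s, ∃ u : Fin k → ℝ, (s < k → u ∈ Vs Y (s + 1)) ∧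
      (∀ c : Fin k, k < s + (c : ℕ) + 1 → u c = 0) ∧
      ∀ c : Fin k, s + (c : ℕ) + 1 = k → u c = 1 := by
    intro s
    by_cases hs : s < k
    · obtain ⟨u, h1, h2, h3⟩ := exists_tri hs (hY.top (s + 1) hs)
      exact ⟨u, fun _ => h1, h2, h3⟩
    · refine ⟨0, fun h => absurd h hs, fun _ _ => rfl, fun c hc => ?_⟩
      have := c.2
      omega
  choose U hU1 hU2 hU3 using hex
  have hB : Base U := ⟨hU2, hU3⟩
  obtain ⟨h1, h2, h3⟩ := (good_iff wtB le_rfl Y).1 hY
  have hVs : ∀ j ≤ k, Vs U j = Vs Y j := by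
    intro j hj
    have hle : Vs U j ≤ Vs Y j := by
      unfold Vs
      rw [Submodule.span_le]
      rintro _ ⟨s, hs, rfl⟩
      exact Submodule.span_mono (image_mono (Iio_subset_Iio (Nat.succ_le_of_lt hs)))
        (hU1 s (lt_of_lt_of_le hs hj))
    apply Submodule.eq_of_le_of_finrank_eq hle
    rw [(ind_of_base hB hj).finrank, (h1 j hj).1.finrank]
  have hG : Good one1 k U := by
    rw [good_iff wtB le_rfl]
    refine ⟨fun j hj => ⟨ind_of_base hB hj, ?_⟩, fun j hj hjk => ?_, ?_⟩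
    · rw [hVs j hj]; exact (h1 j hj).2
    · rw [hVs j hjk.le, hVs (j + 1) hjk]; exact h2 j hj hjk
    · rw [hVs k le_rfl]; exact h3
  refine ⟨U, hB, ⟨fun j hj hjk t => ?_, fun t => ?_⟩⟩
  · rw [DR_Yv_nil, DR_Yv_nil]
    exact hG.nocommon j hj hjk t
  · rw [DR_Yv_nil]
    exact hG.simple t

end Pool.Agent.GC18.St
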