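import Pool.Agent.GC18.StWords

/-!
# Grassmann convexity (MP_5fea31_an): GC_Start (f), planes in different cells are different   (helper34)
-/

set_option autoImplicit false

namespace Pool.Agent.GC18.St

open Finset

/-- the pivot rows -/
def pivI {k m : ℕ} (T : List (Fin k)) (hL : Lat m T) : Fin k → Fin (m + k) :=
  fun c => ⟨piv T c, piv_lt hL c⟩

lemma det_piv_ne_zero {k m : ℕ} (T : List (Fin k)) (hL : Lat m T) (z : ℕ → ℝ)
    (hz : ∀ q < T.length, z q ≠ 0) : ((XM m T z).submatrix (pivI T hL) id).det ≠ 0 := by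
  rw [Matrix.det_of_isUpperTriangular]
  · rw [Finset.prod_ne_zero_iff]
    intro c _
    show XT T z (piv T c) c ≠ 0
    rw [XT_piv hL]
    exact pr_ne_zero T hz c
  · intro a b hab
    exact XT_of_gt hL z (piv_strictMono hL hab)

lemma det_piv_aux {k m : ℕ} {T T' : List (Fin k)} (hL : Lat m T) (hL' : Lat m T') {b c s : Fin k}
    (hb1 : b ≤ c) (hb2 : c ≤ s) (hc : T.count c < T'.count c) : piv T b < piv T' s := by
  have h1 : piv T' c ≤ piv T' s := (piv_strictMono hL').monotone hb2
  have h2 : piv T b ≤ piv T c := (piv_strictMono hL).monotone hb1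
  have h3 : piv T c < piv T' c := by unfold piv; omega
  omega

lemma det_piv_eq_zero {k m : ℕ} (T T' : List (Fin k)) (hL : Lat m T) (hL' : Lat m T') (z : ℕ → ℝ)
    (c : Fin k) (hc : T.count c < T'.count c) : ((XM m T z).submatrix (pivI T' hL') id).det = 0 := by
  rw [Matrix.det_apply]
  refine Finset.sum_eq_zero fun σ _ => ?_
  have hex : ∃ b : Fin k, b ≤ c ∧ c ≤ σ b := by
    by_contra hcon
    push Not at hcon
    have h1 : (Finset.Iic c).card ≤ (Finset.Iio c).card := by
      apply Finset.card_le_card_of_injOn σ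
      · intro b hb
        rw [Finset.coe_Iio, Set.mem_Iio]
        exact hcon b (Finset.mem_Iic.1 hb)
      · exact σ.injective.injOn
    simp at h1
  obtain ⟨b, hb1, hb2⟩ := hex
  have hz : (∏ i, (XM m T z).submatrix (pivI T' hL') id (σ i) i) = 0 := by
    refine Finset.prod_eq_zero (Finset.mem_univ b) ?_
    exact XT_of_gt hL z (det_piv_aux hL hL' hb1 hb2 hc)
  rw [hz]
  exact smul_zero _

theorem StCell : S_StCell := by
  intro m k T T' hL hL' hlen z z' hz hz' hne
  have hz1 : ∀ q < T.length, z q ≠ 0 := fun q hq => (hz.1 q hq).ne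
  have hz2 : ∀ q < T'.length, z' q ≠ 0 := fun q hq => (hz'.1 q hq).ne
  have hex : ∃ c, T.count c < T'.count c := by
    by_contra hcon
    push Not at hcon
    obtain ⟨c, hc⟩ := hne
    have h1 : T'.count c < T.count c := lt_of_le_of_ne (hcon c) (Ne.symm hc)
    have h2 : ∑ c, T'.count c < ∑ c, T.count c :=
      Finset.sum_lt_sum (fun c _ => hcon c) ⟨c, Finset.mem_univ _, h1⟩
    rw [sum_count, sum_count, hlen] at h2
    exact lt_irrefl _ h2
  obtain ⟨c, hc⟩ := hex
  refine ⟨pivI T hL, pivI T' hL', ?_⟩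
  rw [det_piv_eq_zero T T' hL hL' z c hc, zero_mul]
  exact mul_ne_zero (det_piv_ne_zero T hL z hz1) (det_piv_ne_zero T' hL' z' hz2)

end Pool.Agent.GC18.St
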