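import Pool.Agent.GC18.StShape

/-!
# Grassmann convexity (MP_5fea31_an): block (c) of GC_Start, implicit function theorem   (helper65)

`theorem StIFT : S_StIFT`
-/

set_option autoImplicit false

namespace Pool.Agent.GC18.St

open Matrix Filter Topology Set

namespace IFT

/-! ### abstract part -/

lemma deriv_update_eq {n : ℕ} {f : (Fin n → ℝ) → ℝ} {y : Fin n → ℝ} (hf : DifferentiableAt ℝ f y) (q : Fin n) :
    deriv (fun τ => f (Function.update y q τ)) (y q) = fderiv ℝ f y (Pi.single q 1) := by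
  have h1 : HasDerivAt (Function.update y q) (Pi.single q (1 : ℝ)) (y q) := hasDerivAt_update y q (y q)
  have h2 : HasFDerivAt f (fderiv ℝ f y) (Function.update y q (y q)) := by
    rw [Function.update_eq_self]; exact hf.hasFDerivAt
  exact (h2.comp_hasDerivAt (y q) h1).deriv

lemma fderiv_eq_sum {n : ℕ} {E : Type*} [NormedAddCommGroup E] [NormedSpace ℝ E]
    (L : (Fin n → ℝ) →L[ℝ] E) (h : Fin n → ℝ) :
    L h = ∑ q, h q • L (Pi.single q 1) := by
  have e : h = ∑ q, h q • (Pi.single q (1 : ℝ) : Fin n → ℝ) := by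
    funext i
    simp [Finset.sum_apply, Pi.single_apply]
  conv_lhs => rw [e, map_sum]
  simp only [map_smul]

/-- implicit function theorem with one parameter -/
lemma ift_abs {n : ℕ} {F : ℝ × (Fin n → ℝ) → (Fin n → ℝ)} (hF : ContDiff ℝ (⊤ : ℕ∞) F) (y0 : Fin n → ℝ)
    (h0 : F (0, y0) = 0) {M : Matrix (Fin n) (Fin n) ℝ}
    (hM : ∀ h, fderiv ℝ (fun y => F (0, y)) y0 h = M.mulVec h) (hdet : M.det ≠ 0)
    {U : Set (Fin n → ℝ)} (hU : U ∈ 𝓝 y0) : ∀ᶠ κ in 𝓝 (0 : ℝ), ∃ y ∈ U, F (κ, y) = 0 := by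
  set G : ℝ × (Fin n → ℝ) → ℝ × (Fin n → ℝ) := fun p => (p.1, F p) with hG
  have hGc : ContDiff ℝ (⊤ : ℕ∞) G := contDiff_fst.prodMk hF
  have hs := hGc.hasStrictFDerivAt (x := (0, y0)) (by simp)
  have hfst : ∀ p, (fderiv ℝ G (0, y0) p).1 = p.1 := by
    intro p
    have h1 : HasFDerivAt (fun p => (G p).1) ((ContinuousLinearMap.fst ℝ _ _).comp (fderiv ℝ G (0, y0))) (0, y0) :=
      hs.hasFDerivAt.fst
    have h2 : HasFDerivAt (fun p : ℝ × (Fin n → ℝ) => (G p).1)
        (ContinuousLinearMap.fst ℝ _ _) (0, y0) := hasFDerivAt_fst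
    have := h1.unique h2
    exact congrArg (fun L => L p) this
  have hsnd : ∀ h : Fin n → ℝ, (fderiv ℝ G (0, y0) (0, h)).2 = M.mulVec h := by
    intro h
    have h1 : HasFDerivAt (fun p => (G p).2) ((ContinuousLinearMap.snd ℝ _ _).comp (fderiv ℝ G (0, y0))) (0, y0) :=
      hs.hasFDerivAt.snd
    have h2 : HasFDerivAt (fun x : Fin n → ℝ => (((0 : ℝ), x) : ℝ × (Fin n → ℝ)))
        (ContinuousLinearMap.inr ℝ _ _) y0 := hasFDerivAt_prodMk_right (0 : ℝ) y0
    have h3 := HasFDerivAt.comp y0 (g := fun p => (G p).2) h1 h2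
    have h4 : fderiv ℝ (fun y => F (0, y)) y0 =
      ((ContinuousLinearMap.snd ℝ _ _).comp (fderiv ℝ G (0, y0))).comp (ContinuousLinearMap.inr ℝ _ _) := h3.fderiv
    rw [← hM, h4]
    rfl
  have hdet' : IsUnit M.det := isUnit_iff_ne_zero.2 hdet
  have hsurj : (fderiv ℝ G (0, y0)).toLinearMap.range = ⊤ := by
    rw [LinearMap.range_eq_top]
    rintro ⟨A, b⟩
    obtain ⟨h, hh⟩ : ∃ h, M.mulVec h = b - (fderiv ℝ G (0, y0) (A, 0)).2 := by
      refine ⟨M⁻¹.mulVec (b - (fderiv ℝ G (0, y0) (A, 0)).2), ?_⟩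
      rw [Matrix.mulVec_mulVec, Matrix.mul_nonsing_inv _ hdet', Matrix.one_mulVec]
    refine ⟨(A, h), ?_⟩
    have e : ((A, h) : ℝ × (Fin n → ℝ)) = (A, 0) + (0, h) := by simp
    show fderiv ℝ G (0, y0) (A, h) = (A, b)
    rw [e, map_add]
    refine Prod.ext ?_ ?_
    · rw [Prod.fst_add, hfst, hfst]; simp
    · rw [Prod.snd_add, hsnd, hh]; simp
  have hmap := hs.map_nhds_eq_of_surj hsurj
  have hG0 : G (0, y0) = (0, 0) := by simp [hG, h0]
  rw [hG0] at hmap
  have hmem : G '' (univ ×ˢ U) ∈ 𝓝 ((0, 0) : ℝ × (Fin n → ℝ)) := by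
    rw [← hmap]
    refine image_mem_map ?_
    exact prod_mem_nhds univ_mem hU
  have hcont : Tendsto (fun κ : ℝ => ((κ, 0) : ℝ × (Fin n → ℝ))) (𝓝 0) (𝓝 (0, 0)) :=
    (continuous_id.prodMk continuous_const).tendsto 0
  filter_upwards [hcont hmem] with κ hκ
  obtain ⟨⟨κ', y⟩, ⟨-, hy⟩, heq⟩ := hκ
  simp only [hG, Prod.mk.injEq] at heq
  obtain ⟨rfl, h2⟩ := heq
  exact ⟨y, hy, h2⟩

/-! ### smooth dependence of the coefficients -/

/-- all coefficients are smooth -/
def SC {E : Type*} [NormedAddCommGroup E] [NormedSpace ℝ E] (g : E → Polynomial ℝ) : Prop :=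
  ∀ n, ContDiff ℝ (⊤ : ℕ∞) (fun y => (g y).coeff n)

section SC
variable {E : Type*} [NormedAddCommGroup E] [NormedSpace ℝ E]

lemma SC.mul {f g : E → Polynomial ℝ} (hf : SC f) (hg : SC g) : SC (fun y => f y * g y) := by
  intro n
  simp only [Polynomial.coeff_mul]
  exact ContDiff.sum fun x _ => (hf _).mul (hg _)

lemma SC.one : SC (fun _ : E => (1 : Polynomial ℝ)) := fun _ => contDiff_const

lemma SC.prod {ι : Type*} (S : Finset ι) {f : ι → E → Polynomial ℝ} (hf : ∀ i ∈ S, SC (f i)) :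
    SC (fun y => ∏ i ∈ S, f i y) := by
  classical
  induction S using Finset.induction_on with
  | empty => simpa using SC.one
  | insert a S ha ih =>
    simp only [Finset.prod_insert ha]
    exact (hf a (Finset.mem_insert_self a S)).mul (ih fun i hi => hf i (Finset.mem_insert_of_mem hi))

lemma SC_RP {n p : ℕ} {V : E → Matrix (Fin n) (Fin p) ℝ}
    (hV : ∀ b s, ContDiff ℝ (⊤ : ℕ∞) (fun y => V y b s)) : SC (fun y => RP (V y)) := by
  intro d
  simp only [RP, Matrix.det_apply, Polynomial.finsetSum_coeff]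
  refine ContDiff.sum fun σ _ => ?_
  have h1 : SC (fun y => ∏ i, PMat (V y) (σ i) i) := by
    refine SC.prod _ fun i _ => ?_
    intro e
    simp only [PMat, Matrix.of_apply, Polynomial.finsetSum_coeff, Polynomial.coeff_C_mul_X_pow]
    refine ContDiff.sum fun b _ => ?_
    split_ifs
    · exact contDiff_const.mul (hV b i)
    · exact contDiff_const
  have h2 := h1 d
  have h3 : (fun y => (Equiv.Perm.sign σ • ∏ i, PMat (V y) (σ i) i).coeff d) =
      fun y => ((Equiv.Perm.sign σ : ℤ) : ℝ) * (∏ i, PMat (V y) (σ i) i).coeff d := by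
    funext y
    rw [Polynomial.coeff_smul]
    rcases Int.units_eq_one_or (Equiv.Perm.sign σ) with h | h <;> simp [h]
  rw [h3]
  exact contDiff_const.mul h2

end SC

/-- extension by zero -/
noncomputable def Zx {n : ℕ} (y : Fin n → ℝ) : ℕ → ℝ := fun q => if h : q < n then y ⟨q, h⟩ else 0

lemma Zx_lt {n : ℕ} (y : Fin n → ℝ) {q : ℕ} (h : q < n) : Zx y q = y ⟨q, h⟩ := by simp [Zx, h]

lemma Zx_val {n : ℕ} (y : Fin n → ℝ) (q : Fin n) : Zx y q = y q := by simp [Zx]

lemma Zx_ge {n : ℕ} (y : Fin n → ℝ) {q : ℕ} (h : n ≤ q) : Zx y q = 0 := by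
  simp [Zx, Nat.not_lt.2 h]

lemma Zx_update {n : ℕ} (y : Fin n → ℝ) (q : Fin n) (τ : ℝ) :
    Function.update (Zx y) (q : ℕ) τ = Zx (Function.update y q τ) := by
  funext a
  by_cases h : a = q
  · subst h
    rw [Function.update_self, Zx_val, Function.update_self]
  · rw [Function.update_of_ne h]
    by_cases h2 : a < n
    · rw [Zx_lt _ h2, Zx_lt _ h2, Function.update_of_ne]
      intro e; exact h (congrArg Fin.val e)
    · rw [Zx_ge _ (not_lt.1 h2), Zx_ge _ (not_lt.1 h2)]

lemma contDiff_Zx {n : ℕ} (q : ℕ) : ContDiff ℝ (⊤ : ℕ∞) (fun y : Fin n → ℝ => Zx y q) := by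
  by_cases h : q < n
  · simp only [Zx_lt _ h]; exact contDiff_apply ℝ ℝ _
  · simp only [Zx_ge _ (not_lt.1 h)]; exact contDiff_const

lemma cB_pos {p : ℕ} {β : Fin p → ℕ} (hβ : StrictMono β) : 0 < cB β := by
  rw [cB_formula]
  refine mul_pos ?_ ?_
  · exact Finset.prod_pos fun s _ => by positivity
  · refine Finset.prod_pos fun i _ => Finset.prod_pos fun j hj => ?_
    rw [Finset.mem_Ioi] at hj
    have : β i < β j := hβ hj
    rw [sub_pos]; exact_mod_cast this

/-- the coefficients as functions of `y` -/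
noncomputable def cc {k : ℕ} (m : ℕ) (T : List (Fin k)) (n : ℕ) (y : Fin T.length → ℝ) : ℝ :=
  (RP (XM m T (Zx y))).coeff n

lemma contDiff_cc {k : ℕ} (m : ℕ) (T : List (Fin k)) (n : ℕ) : ContDiff ℝ (⊤ : ℕ∞) (cc m T n) := by
  refine SC_RP (V := fun y => XM m T (Zx y)) ?_ n
  intro b s
  exact contDiff_XT (f := fun y => Zx y) (fun q => contDiff_Zx q) T b s

lemma DR_eq_sum {k m : ℕ} {T : List (Fin k)} (h : Lat m T) (z : ℕ → ℝ) (t : ℝ) :
    DR one1 (XM m T z) t = ∑ n ∈ Finset.range (T.length + 1), (RP (XM m T z)).coeff n * t ^ n := by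
  rw [← RP_eval]
  exact Polynomial.eval_eq_sum_range' (Nat.lt_succ_of_le (RP_XM_natDegree h z)) t

lemma DR_Zx {k m : ℕ} {T : List (Fin k)} (h : Lat m T) (y : Fin T.length → ℝ) (t : ℝ) :
    DR one1 (XM m T (Zx y)) t = ∑ n ∈ Finset.range (T.length + 1), cc m T n y * t ^ n :=
  DR_eq_sum h (Zx y) t

/-- partial derivatives -/
noncomputable def pd {n : ℕ} (f : (Fin n → ℝ) → ℝ) (q : Fin n) (y : Fin n → ℝ) : ℝ :=
  fderiv ℝ f y (Pi.single q 1)

lemma continuous_pd {n : ℕ} {f : (Fin n → ℝ) → ℝ} (hf : ContDiff ℝ (⊤ : ℕ∞) f) (q : Fin n) :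
    Continuous (pd f q) := by
  have h1 : Continuous (fderiv ℝ f) := hf.continuous_fderiv (by simp)
  exact h1.clm_apply continuous_const

lemma fderiv_sum_cc {k : ℕ} (m : ℕ) (T : List (Fin k)) (N : ℕ) (w : ℕ → ℝ) (y h : Fin T.length → ℝ) :
    fderiv ℝ (fun y' => ∑ n ∈ Finset.range N, cc m T n y' * w n) y h =
      ∑ n ∈ Finset.range N, fderiv ℝ (cc m T n) y h * w n := by
  have hd : ∀ n, DifferentiableAt ℝ (cc m T n) y := fun n =>
    (contDiff_cc m T n).differentiable (by simp) y
  rw [fderiv_fun_sum (fun n _ => (hd n).mul_const _), _root_.sum_apply]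
  refine Finset.sum_congr rfl fun n _ => ?_
  rw [fderiv_mul_const (hd n)]
  simp [mul_comm]

lemma sum_pd {k m : ℕ} {T : List (Fin k)} (h : Lat m T) (t : ℝ) (y : Fin T.length → ℝ) (q : Fin T.length) :
    ∑ n ∈ Finset.range (T.length + 1), pd (cc m T n) q y * t ^ n =
      deriv (fun τ => DR one1 (XM m T (Function.update (Zx y) q τ)) t) (Zx y q) := by
  have e : (fun τ => DR one1 (XM m T (Function.update (Zx y) q τ)) t) =
      fun τ => (fun y' => ∑ n ∈ Finset.range (T.length + 1), cc m T n y' * t ^ n) (Function.update y q τ) := by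
    funext τ
    rw [Zx_update, DR_Zx h]
  have hD : DifferentiableAt ℝ (fun y' => ∑ n ∈ Finset.range (T.length + 1), cc m T n y' * t ^ n) y :=
    DifferentiableAt.fun_sum fun n _ => ((contDiff_cc m T n).differentiable (by simp) y).mul_const _
  rw [e, Zx_val, deriv_update_eq (f := fun y' => ∑ n ∈ Finset.range (T.length + 1), cc m T n y' * t ^ n) hD,
    fderiv_sum_cc]
  rfl

lemma Jz_Zx {k m : ℕ} {T : List (Fin k)} (h : Lat m T) (t : ℕ → ℝ) (y : Fin T.length → ℝ) :
    Jz m T t (Zx y) = (Matrix.of fun p q : Fin T.length =>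
      ∑ n ∈ Finset.range (T.length + 1), pd (cc m T n) q y * t p ^ n).det := by
  unfold Jz
  congr 1
  ext p q
  simp only [Matrix.of_apply]
  rw [sum_pd h]

/-! ### the system -/

/-- weights -/
noncomputable def ww (r : ℕ) (t : ℕ → ℝ) (p : Fin (r + 1)) (κ : ℝ) (n : ℕ) : ℝ :=
  if (p : ℕ) < r then t p ^ n else κ ^ (r + 1 - n)

lemma contDiff_ww (r : ℕ) (t : ℕ → ℝ) (p : Fin (r + 1)) (n : ℕ) :
    ContDiff ℝ (⊤ : ℕ∞) (fun κ => ww r t p κ n) := by
  unfold ww
  split_ifs
  · exact contDiff_const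
  · exact contDiff_id.pow _

/-- the system `F(κ, y)` -/
noncomputable def Fs {k : ℕ} (m : ℕ) (i : Fin k) (T : List (Fin k)) (t : ℕ → ℝ)
    (x : ℝ × (Fin (T.length + 1) → ℝ)) : Fin (T.length + 1) → ℝ :=
  fun p => ∑ n ∈ Finset.range (T.length + 2), cc m (i :: T) n x.2 * ww T.length t p x.1 n

/-- its Jacobian matrix -/
noncomputable def Ms {k : ℕ} (m : ℕ) (i : Fin k) (T : List (Fin k)) (t : ℕ → ℝ)
    (x : ℝ × (Fin (T.length + 1) → ℝ)) : Matrix (Fin (T.length + 1)) (Fin (T.length + 1)) ℝ :=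
  Matrix.of fun p q => ∑ n ∈ Finset.range (T.length + 2),
    pd (n := T.length + 1) (cc m (i :: T) n) q x.2 * ww T.length t p x.1 n

lemma contDiff_Fs {k : ℕ} (m : ℕ) (i : Fin k) (T : List (Fin k)) (t : ℕ → ℝ) :
    ContDiff ℝ (⊤ : ℕ∞) (Fs m i T t) := by
  rw [contDiff_pi]
  intro p
  refine ContDiff.sum fun n _ => ?_
  exact ((contDiff_cc m (i :: T) n).comp contDiff_snd).mul ((contDiff_ww _ t p n).comp contDiff_fst)

lemma continuous_Ms {k : ℕ} (m : ℕ) (i : Fin k) (T : List (Fin k)) (t : ℕ → ℝ) :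
    Continuous (Ms m i T t) := by
  refine continuous_matrix fun p q => ?_
  simp only [Ms, Matrix.of_apply]
  refine continuous_finsetSum _ fun n _ => ?_
  exact ((continuous_pd (contDiff_cc m (i :: T) n) q).comp continuous_snd).mul
    ((contDiff_ww _ t p n).continuous.comp continuous_fst)

lemma fderiv_Fs {k : ℕ} (m : ℕ) (i : Fin k) (T : List (Fin k)) (t : ℕ → ℝ) (κ : ℝ)
    (y h : Fin (T.length + 1) → ℝ) :
    fderiv ℝ (fun y => Fs m i T t (κ, y)) y h = (Ms m i T t (κ, y)).mulVec h := by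
  have hd : ∀ p, DifferentiableAt ℝ (fun y => Fs m i T t (κ, y) p) y := by
    intro p
    have h1 : ContDiff ℝ (⊤ : ℕ∞) (fun y => Fs m i T t (κ, y) p) :=
      (contDiff_pi.1 (contDiff_Fs m i T t) p).comp (contDiff_const.prodMk contDiff_id)
    exact h1.differentiable (by simp) y
  have hpi : fderiv ℝ (fun y => Fs m i T t (κ, y)) y =
      ContinuousLinearMap.pi (fun p => fderiv ℝ (fun y => Fs m i T t (κ, y) p) y) := by
    exact fderiv_pi hd
  rw [hpi]
  funext p
  rw [ContinuousLinearMap.pi_apply]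
  have h2 : fderiv ℝ (fun y => Fs m i T t (κ, y) p) y h =
      ∑ n ∈ Finset.range (T.length + 2), fderiv ℝ (cc m (i :: T) n) y h * ww T.length t p κ n :=
    fderiv_sum_cc m (i :: T) (T.length + 2) (fun n => ww T.length t p κ n) y h
  rw [h2, Matrix.mulVec, dotProduct]
  have h3 : ∀ n, fderiv ℝ (cc m (i :: T) n) y h = ∑ q, h q * pd (n := T.length + 1) (cc m (i :: T) n) q y := by
    intro n
    exact fderiv_eq_sum (n := T.length + 1) (fderiv ℝ (cc m (i :: T) n) y) h
  simp only [h3, Ms, Matrix.of_apply, Finset.sum_mul]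
  rw [Finset.sum_comm]
  refine Finset.sum_congr rfl fun q _ => Finset.sum_congr rfl fun n _ => ?_
  ring

lemma cc_top {k m : ℕ} {T : List (Fin k)} (h : Lat m T) (y : Fin T.length → ℝ) :
    cc m T T.length y = (∏ q ∈ Finset.range T.length, Zx y q) * cB (piv T) :=
  RP_XM_coeff h (Zx y)

lemma XM_cons_zero {k : ℕ} (m : ℕ) (i : Fin k) (T : List (Fin k)) {z : ℕ → ℝ} (h : z T.length = 0) :
    XM m (i :: T) z = XM m T z := by
  ext a c
  exact XT_cons_zero i T h a c

/-- the starting point -/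
noncomputable def y0f {k : ℕ} (T : List (Fin k)) (z0 : ℕ → ℝ) : Fin (T.length + 1) → ℝ := fun q => z0 q

lemma Zx_y0f {k : ℕ} {T : List (Fin k)} {z0 : ℕ → ℝ} (h : Neg T z0) :
    Zx (y0f T z0) = z0 := by
  funext q
  by_cases hq : q < T.length + 1
  · rw [Zx_lt _ hq]; rfl
  · rw [Zx_ge _ (not_lt.1 hq), h.2 q (by omega)]

lemma Fs_zero {k m : ℕ} {i : Fin k} {T : List (Fin k)} (hL : Lat m (i :: T)) {t z0 : ℕ → ℝ} (hN : Neg T z0)
    (h0 : ∀ p < T.length, DR one1 (XM m T z0) (t p) = 0) : Fs m i T t (0, y0f T z0) = 0 := by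
  funext p
  have hz : z0 T.length = 0 := hN.2 _ le_rfl
  show ∑ n ∈ Finset.range (T.length + 2), cc m (i :: T) n (y0f T z0) * ww T.length t p 0 n = 0
  by_cases hp : (p : ℕ) < T.length
  · have h1 := h0 p hp
    rw [← XM_cons_zero m i T hz, ← Zx_y0f hN] at h1
    have h2 := DR_Zx hL (y0f T z0) (t p)
    have h3 : DR one1 (XM m (i :: T) (Zx (y0f T z0))) (t p) = 0 := by
      simpa using h1
    rw [h2] at h3
    rw [← h3]
    refine Finset.sum_congr rfl fun n _ => ?_
    simp [ww, hp]
  · simp only [ww, hp, if_false]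
    rw [Finset.sum_eq_single (T.length + 1)]
    · have h1 := cc_top hL (y0f T z0)
      have h2 : ∏ q ∈ Finset.range (i :: T).length, Zx (n := (i :: T).length) (y0f T z0) q = 0 := by
        refine Finset.prod_eq_zero (i := T.length) (by simp) ?_
        have := congrFun (Zx_y0f hN) T.length
        exact this.trans hz
      rw [h2, zero_mul] at h1
      have h3 : cc m (i :: T) (T.length + 1) (y0f T z0) = 0 := h1
      rw [h3, zero_mul]
    · intro n hn hn'
      rw [Finset.mem_range] at hn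
      have : T.length + 1 - n ≠ 0 := by omega
      rw [zero_pow this, mul_zero]
    · intro h; exact absurd (Finset.mem_range.2 (by omega)) h

/-- last row of the Jacobian at the starting point -/
lemma Ms_last {k m : ℕ} {i : Fin k} {T : List (Fin k)} (hL : Lat m (i :: T)) (t : ℕ → ℝ) {z0 : ℕ → ℝ} (hN : Neg T z0)
    (q : Fin (T.length + 1)) : Ms m i T t (0, y0f T z0) (Fin.last T.length) q =
      if q = Fin.last T.length then (∏ q ∈ Finset.range T.length, z0 q) * cB (piv (i :: T)) else 0 := by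
  have hz : z0 T.length = 0 := hN.2 _ le_rfl
  have e1 : Ms m i T t (0, y0f T z0) (Fin.last T.length) q =
      pd (n := T.length + 1) (cc m (i :: T) (T.length + 1)) q (y0f T z0) := by
    show ∑ n ∈ Finset.range (T.length + 2), pd (n := T.length + 1) (cc m (i :: T) n) q (y0f T z0) *
      ww T.length t (Fin.last T.length) 0 n = _
    rw [Finset.sum_eq_single (T.length + 1)]
    · simp [ww]
    · intro n hn hn'
      rw [Finset.mem_range] at hn
      have : T.length + 1 - n ≠ 0 := by omega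
      simp [ww, this]
    · intro h; exact absurd (Finset.mem_range.2 (by omega)) h
  have e2 : pd (n := T.length + 1) (cc m (i :: T) (T.length + 1)) q (y0f T z0) =
      deriv (fun τ => cc m (i :: T) (T.length + 1) (Function.update (y0f T z0) q τ)) (y0f T z0 q) := by
    have hd : DifferentiableAt ℝ (cc m (i :: T) (T.length + 1)) (y0f T z0) :=
      (contDiff_cc m (i :: T) (T.length + 1)).differentiable (by simp) _
    exact (deriv_update_eq (n := T.length + 1) hd q).symm
  rw [e1, e2]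
  have e3 : ∀ y : Fin (T.length + 1) → ℝ, cc m (i :: T) (T.length + 1) y =
      (∏ q ∈ Finset.range T.length, Zx y q) * y (Fin.last T.length) * cB (piv (i :: T)) := by
    intro y
    have h1 := cc_top hL y
    have h2 : ∏ q ∈ Finset.range (i :: T).length, Zx (n := (i :: T).length) y q =
        (∏ q ∈ Finset.range T.length, Zx y q) * Zx y T.length := Finset.prod_range_succ _ _
    have h3 : Zx y T.length = y (Fin.last T.length) := by
      rw [Zx_lt y (Nat.lt_succ_self _)]; rfl
    rw [h2, h3] at h1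
    exact h1
  by_cases hq : q = Fin.last T.length
  · subst hq
    rw [if_pos rfl]
    have e4 : (fun τ => cc m (i :: T) (T.length + 1) (Function.update (y0f T z0) (Fin.last T.length) τ)) =
        fun τ => (∏ q ∈ Finset.range T.length, z0 q) * cB (piv (i :: T)) * τ := by
      funext τ
      rw [e3, Function.update_self]
      have : ∏ q ∈ Finset.range T.length, Zx (Function.update (y0f T z0) (Fin.last T.length) τ) q =
          ∏ q ∈ Finset.range T.length, z0 q := by
        refine Finset.prod_congr rfl fun q hq => ?_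
        rw [Finset.mem_range] at hq
        rw [← Zx_update, Function.update_of_ne, Zx_y0f hN]
        rw [Fin.val_last]; omega
      rw [this]; ring
    rw [e4]
    simp
  · rw [if_neg hq]
    have e4 : (fun τ => cc m (i :: T) (T.length + 1) (Function.update (y0f T z0) q τ)) = fun _ => 0 := by
      funext τ
      rw [e3, Function.update_of_ne (Ne.symm hq)]
      have : y0f T z0 (Fin.last T.length) = 0 := hz
      rw [this]; simp
    rw [e4]
    simp

/-- the other rows -/
lemma Ms_minor {k m : ℕ} {i : Fin k} {T : List (Fin k)} (hL : Lat m (i :: T)) (t : ℕ → ℝ) {z0 : ℕ → ℝ} (hN : Neg T z0)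
    (p q : Fin T.length) : Ms m i T t (0, y0f T z0) p.castSucc q.castSucc =
      deriv (fun τ => DR one1 (XM m T (Function.update z0 q τ)) (t p)) (z0 q) := by
  have hz : z0 T.length = 0 := hN.2 _ le_rfl
  have h1 := sum_pd hL (t p) (y0f T z0) q.castSucc
  have h2 : Zx (n := (i :: T).length) (y0f T z0) = z0 := Zx_y0f hN
  rw [h2] at h1
  have h3 : ((q.castSucc : Fin (T.length + 1)) : ℕ) = q := rfl
  have e : (fun τ => DR one1 (XM m (i :: T) (Function.update z0 (q : ℕ) τ)) (t p)) =
      fun τ => DR one1 (XM m T (Function.update z0 (q : ℕ) τ)) (t p) := by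
    funext τ
    rw [XM_cons_zero]
    rw [Function.update_of_ne, hz]
    have := q.2; omega
  have h4 : ∑ n ∈ Finset.range ((i :: T).length + 1), pd (n := (i :: T).length) (cc m (i :: T) n) q.castSucc (y0f T z0) * t p ^ n
      = deriv (fun τ => DR one1 (XM m T (Function.update z0 (q : ℕ) τ)) (t p)) (z0 q) := by
    rw [← e]; exact h1
  rw [← h4]
  show ∑ n ∈ Finset.range (T.length + 2), pd (n := T.length + 1) (cc m (i :: T) n) q.castSucc (y0f T z0) *
      ww T.length t p.castSucc 0 n = _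
  refine Finset.sum_congr rfl fun n _ => ?_
  simp [ww]

lemma det_Ms {k m : ℕ} {i : Fin k} {T : List (Fin k)} (hL : Lat m (i :: T)) (t : ℕ → ℝ) {z0 : ℕ → ℝ} (hN : Neg T z0) :
    (Ms m i T t (0, y0f T z0)).det =
      (∏ q ∈ Finset.range T.length, z0 q) * cB (piv (i :: T)) * Jz m T t z0 := by
  rw [Matrix.det_succ_row _ (Fin.last T.length), Finset.sum_eq_single (Fin.last T.length)]
  · rw [Ms_last hL t hN, if_pos rfl, Fin.val_last, Even.neg_one_pow ⟨T.length, rfl⟩, one_mul]
    congr 1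
    unfold Jz
    congr 1
    ext p q
    rw [Matrix.submatrix_apply, Fin.succAbove_last, Ms_minor hL t hN]
    rfl
  · intro q _ hq
    rw [Ms_last hL t hN, if_neg hq]; simp
  · intro h; exact absurd (Finset.mem_univ _) h

lemma sign_prod_neg {T : ℕ} {z0 : ℕ → ℝ} (h : ∀ q < T, z0 q < 0) :
    (SignType.sign (∏ q ∈ Finset.range T, z0 q) : ℤ) = (-1) ^ T := by
  induction T with
  | zero => simp
  | succ T ih =>
    rw [Finset.prod_range_succ, sign_mul, sign_neg (h T (Nat.lt_succ_self T)), pow_succ]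
    have := ih fun q hq => h q (Nat.lt_succ_of_lt hq)
    push_cast
    rw [this]
    simp

/-- the function `H` with `c_{r+1} = - κ H` on the zero set -/
noncomputable def Hs {k : ℕ} (m : ℕ) (i : Fin k) (T : List (Fin k))
    (x : ℝ × (Fin (T.length + 1) → ℝ)) : ℝ :=
  ∑ n ∈ Finset.range (T.length + 1), cc m (i :: T) n x.2 * x.1 ^ (T.length - n)

lemma continuous_Hs {k : ℕ} (m : ℕ) (i : Fin k) (T : List (Fin k)) : Continuous (Hs m i T) := by
  unfold Hs
  refine continuous_finsetSum _ fun n _ => ?_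
  exact ((contDiff_cc m (i :: T) n).continuous.comp continuous_snd).mul (continuous_fst.pow _)

lemma Hs_zero {k m : ℕ} {i : Fin k} {T : List (Fin k)} (hL : Lat m (i :: T)) {z0 : ℕ → ℝ} (hN : Neg T z0) :
    Hs m i T (0, y0f T z0) = (∏ q ∈ Finset.range T.length, z0 q) * cB (piv T) := by
  have hz : z0 T.length = 0 := hN.2 _ le_rfl
  show ∑ n ∈ Finset.range (T.length + 1), cc m (i :: T) n (y0f T z0) * 0 ^ (T.length - n) = _
  rw [Finset.sum_eq_single T.length]
  · rw [Nat.sub_self, pow_zero, mul_one]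
    show (RP (XM m (i :: T) (Zx (n := (i :: T).length) (y0f T z0)))).coeff T.length = _
    have h2 : Zx (n := (i :: T).length) (y0f T z0) = z0 := Zx_y0f hN
    rw [h2, XM_cons_zero m i T hz]
    exact RP_XM_coeff hL.tail z0
  · intro n hn hn'
    rw [Finset.mem_range] at hn
    have : T.length - n ≠ 0 := by omega
    rw [zero_pow this, mul_zero]
  · intro h; exact absurd (Finset.mem_range.2 (by omega)) h

lemma sign_eq_of_mul_pos {a b : ℝ} (h : 0 < a * b) : SignType.sign a = SignType.sign b := by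
  rcases pos_and_pos_or_neg_and_neg_of_mul_pos h with ⟨h1, h2⟩ | ⟨h1, h2⟩
  · rw [sign_pos h1, sign_pos h2]
  · rw [sign_neg h1, sign_neg h2]

theorem main : S_StIFT := by
  intro m k i T hL t z0 hN h0 hJ δ hδ
  set r := T.length with hr
  set y0 := y0f T z0 with hy0
  have hcB' : 0 < cB (piv (i :: T)) := cB_pos (piv_strictMono hL)
  have hcB : 0 < cB (piv T) := cB_pos (piv_strictMono hL.tail)
  have hprod : ∏ q ∈ Finset.range T.length, z0 q ≠ 0 :=
    Finset.prod_ne_zero_iff.2 fun q hq => hN.ne_zero q (Finset.mem_range.1 hq)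
  have hdet : (Ms m i T t (0, y0)).det ≠ 0 := by
    rw [det_Ms hL t hN]
    exact mul_ne_zero (mul_ne_zero hprod hcB'.ne') hJ
  -- open conditions
  have hcQ : Continuous (fun x : ℝ × (Fin (T.length + 1) → ℝ) => ∏ q ∈ Finset.range T.length, Zx x.2 q) := by
    refine continuous_finsetProd _ fun q _ => ?_
    exact (contDiff_Zx q).continuous.comp continuous_snd
  have hc1 : ∀ᶠ x in 𝓝 ((0 : ℝ), y0), 0 < (Ms m i T t x).det * (Ms m i T t (0, y0)).det := by
    have hc : Continuous (fun x => (Ms m i T t x).det * (Ms m i T t (0, y0)).det) :=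
      (continuous_Ms m i T t).matrix_det.mul continuous_const
    exact hc.tendsto _ (lt_mem_nhds (mul_self_pos.2 hdet))
  have hc2 : ∀ᶠ x in 𝓝 ((0 : ℝ), y0), 0 < Hs m i T x * ∏ q ∈ Finset.range T.length, Zx x.2 q := by
    have hc : Continuous (fun x : ℝ × (Fin (T.length + 1) → ℝ) => Hs m i T x * ∏ q ∈ Finset.range T.length, Zx x.2 q) :=
      (continuous_Hs m i T).mul hcQ
    refine hc.tendsto _ (lt_mem_nhds ?_)
    show 0 < Hs m i T (0, y0) * ∏ q ∈ Finset.range T.length, Zx y0 q
    rw [Hs_zero hL hN, hy0, Zx_y0f hN]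
    have := mul_self_pos.2 hprod
    nlinarith
  have hc3 : ∀ᶠ x in 𝓝 ((0 : ℝ), y0), ∀ q : Fin (T.length + 1), |x.2 q - z0 q| < δ := by
    rw [eventually_all]
    intro q
    have hc : Continuous (fun x : ℝ × (Fin (T.length + 1) → ℝ) => |x.2 q - z0 q|) :=
      (((continuous_apply q).comp continuous_snd).sub continuous_const).abs
    refine hc.tendsto _ (gt_mem_nhds ?_)
    show |y0 q - z0 q| < δ
    rw [hy0, y0f, sub_self, abs_zero]; exact hδ
  have hc4 : ∀ᶠ x in 𝓝 ((0 : ℝ), y0), ∀ q : Fin T.length, x.2 q.castSucc < 0 := by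
    rw [eventually_all]
    intro q
    have hc : Continuous (fun x : ℝ × (Fin (T.length + 1) → ℝ) => x.2 q.castSucc) :=
      (continuous_apply _).comp continuous_snd
    refine hc.tendsto _ (gt_mem_nhds ?_)
    exact hN.1 q q.2
  have hall := ((hc1.and hc2).and hc3).and hc4
  rw [nhds_prod_eq, Filter.eventually_prod_iff] at hall
  obtain ⟨pa, hpa, pb, hpb, hab⟩ := hall
  have hift := ift_abs (contDiff_Fs m i T t) y0 (Fs_zero hL hN h0) (M := Ms m i T t (0, y0))
    (fun h => fderiv_Fs m i T t 0 y0 h) hdet (U := {y | pb y}) hpb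
  obtain ⟨κ0, hκ0, hball⟩ := Metric.eventually_nhds_iff.1 (hpa.and hift)
  refine ⟨κ0, hκ0, fun κ hκ hκlt => ?_⟩
  have hdist : dist κ 0 < κ0 := by rw [Real.dist_eq, sub_zero, abs_of_pos hκ]; exact hκlt
  obtain ⟨hpaκ, y, hyU, hFy⟩ := hball hdist
  obtain ⟨⟨⟨h1, h2⟩, h3⟩, h4⟩ := hab hpaκ hyU
  have hκ' : κ ≠ 0 := hκ.ne'
  -- the equations
  have heq : ∀ p : Fin (T.length + 1),
      ∑ n ∈ Finset.range (T.length + 2), cc m (i :: T) n y * ww T.length t p κ n = 0 := fun p => congrFun hFy p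
  have hlast : ∑ n ∈ Finset.range (T.length + 2), cc m (i :: T) n y * κ ^ (T.length + 1 - n) = 0 := by
    have := heq (Fin.last T.length)
    simpa [ww] using this
  have hyneg : y (Fin.last T.length) < 0 := by
    have e1 : cc m (i :: T) (T.length + 1) y = - (κ * Hs m i T (κ, y)) := by
      rw [Finset.sum_range_succ, Nat.sub_self, pow_zero, mul_one] at hlast
      have e2 : ∑ n ∈ Finset.range (T.length + 1), cc m (i :: T) n y * κ ^ (T.length + 1 - n) =
          κ * Hs m i T (κ, y) := by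
        simp only [Hs, Finset.mul_sum]
        refine Finset.sum_congr rfl fun n hn => ?_
        rw [Finset.mem_range] at hn
        have : T.length + 1 - n = (T.length - n) + 1 := by omega
        rw [this, pow_succ]; ring
      linarith
    have e3 : cc m (i :: T) (T.length + 1) y =
        (∏ q ∈ Finset.range T.length, Zx y q) * y (Fin.last T.length) * cB (piv (i :: T)) := by
      have h1 := cc_top hL y
      have h2 : ∏ q ∈ Finset.range (i :: T).length, Zx (n := (i :: T).length) y q =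
          (∏ q ∈ Finset.range T.length, Zx y q) * Zx y T.length := Finset.prod_range_succ _ _
      have h3 : Zx y T.length = y (Fin.last T.length) := by
        rw [Zx_lt y (Nat.lt_succ_self _)]; rfl
      rw [h2, h3] at h1
      exact h1
    set Q := ∏ q ∈ Finset.range T.length, Zx y q with hQ
    have h2' : 0 < Hs m i T (κ, y) * Q := h2
    have e4 : Q * Q * cB (piv (i :: T)) * y (Fin.last T.length) = - (κ * (Hs m i T (κ, y) * Q)) := by
      have := e3.symm.trans e1
      calc Q * Q * cB (piv (i :: T)) * y (Fin.last T.length)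
          = Q * (Q * y (Fin.last T.length) * cB (piv (i :: T))) := by ring
        _ = Q * (- (κ * Hs m i T (κ, y))) := by rw [this]
        _ = _ := by ring
    have hQ0 : Q ≠ 0 := by
      intro h; rw [h, mul_zero] at h2'; exact lt_irrefl _ h2'
    have h5 : 0 < Q * Q * cB (piv (i :: T)) := mul_pos (mul_self_pos.2 hQ0) hcB'
    by_contra hcon
    push Not at hcon
    have h6 : 0 ≤ Q * Q * cB (piv (i :: T)) * y (Fin.last T.length) := mul_nonneg h5.le hcon
    rw [e4] at h6
    have := mul_pos hκ h2'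
    linarith
  have hNy : Neg (i :: T) (Zx y) := by
    refine ⟨fun q hq => ?_, fun q hq => Zx_ge _ hq⟩
    have hq' : q < T.length + 1 := hq
    rw [Zx_lt y hq']
    rcases Nat.lt_succ_iff_lt_or_eq.1 hq' with h | h
    · exact h4 ⟨q, h⟩
    · subst h; exact hyneg
  have hJeq : Jz m (i :: T) (Function.update t T.length κ⁻¹) (Zx y) =
      (κ ^ (T.length + 1))⁻¹ * (Ms m i T t (κ, y)).det := by
    have e1 := Jz_Zx hL (Function.update t T.length κ⁻¹) y
    have e2 : (Matrix.of fun p q : Fin (T.length + 1) =>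
        ∑ n ∈ Finset.range (T.length + 2), pd (n := T.length + 1) (cc m (i :: T) n) q y *
          (Function.update t T.length κ⁻¹) p ^ n) =
        Matrix.of fun p q : Fin (T.length + 1) =>
          (if (p : ℕ) < T.length then 1 else (κ ^ (T.length + 1))⁻¹) * Ms m i T t (κ, y) p q := by
      ext p q
      simp only [Matrix.of_apply, Ms, Finset.mul_sum]
      refine Finset.sum_congr rfl fun n hn => ?_
      rw [Finset.mem_range] at hn
      by_cases hp : (p : ℕ) < T.length
      · rw [Function.update_of_ne (by omega), if_pos hp, ww, if_pos hp, one_mul]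
      · have hp' : (p : ℕ) = T.length := by have := p.2; omega
        rw [hp', Function.update_self, if_neg (lt_irrefl _), ww, if_neg (by omega)]
        have : κ ^ (T.length + 1) = κ ^ (T.length + 1 - n) * κ ^ n := by
          rw [← pow_add]; congr 1; omega
        rw [this, inv_pow]
        field_simp
    have e3 : Jz m (i :: T) (Function.update t T.length κ⁻¹) (Zx y) =
        (Matrix.of fun p q : Fin (T.length + 1) =>
        ∑ n ∈ Finset.range (T.length + 2), pd (n := T.length + 1) (cc m (i :: T) n) q y *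
          (Function.update t T.length κ⁻¹) p ^ n).det := e1
    rw [e3, e2, Matrix.det_mul_column]
    congr 1
    rw [Fin.prod_univ_castSucc]
    simp
  have hsgn : SignType.sign (Jz m (i :: T) (Function.update t T.length κ⁻¹) (Zx y)) =
      SignType.sign ((Ms m i T t (0, y0)).det) := by
    rw [hJeq, sign_mul, sign_pos (inv_pos.2 (pow_pos hκ _)), one_mul]
    exact sign_eq_of_mul_pos h1
  refine ⟨Zx y, fun q => ?_, hNy, fun p hp => ?_, ?_, ?_⟩
  · by_cases hq : q < T.length + 1
    · rw [Zx_lt y hq]; exact h3 ⟨q, hq⟩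
    · rw [Zx_ge y (not_lt.1 hq), hN.2 q (by omega)]
      simpa using hδ
  · have hp' : p < T.length + 1 := hp
    have e1 := DR_Zx hL y (Function.update t T.length κ⁻¹ p)
    refine e1.trans ?_
    rcases Nat.lt_succ_iff_lt_or_eq.1 hp' with h | h
    · rw [Function.update_of_ne (by omega)]
      have e2 := heq ⟨p, hp'⟩
      refine Eq.trans ?_ e2
      refine Finset.sum_congr rfl fun n _ => ?_
      simp [ww, h]
    · subst h
      rw [Function.update_self]
      have e2 : ∑ n ∈ Finset.range ((i :: T).length + 1), cc m (i :: T) n y * κ⁻¹ ^ n =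
          (κ ^ (T.length + 1))⁻¹ *
            ∑ n ∈ Finset.range (T.length + 2), cc m (i :: T) n y * κ ^ (T.length + 1 - n) := by
        rw [Finset.mul_sum]
        refine Finset.sum_congr rfl fun n hn => ?_
        rw [Finset.mem_range] at hn
        have hn' : n < T.length + 2 := hn
        have : κ ^ (T.length + 1) = κ ^ (T.length + 1 - n) * κ ^ n := by
          rw [← pow_add]; congr 1; omega
        rw [this, inv_pow]
        field_simp
      rw [e2, hlast, mul_zero]
  · intro hzero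
    rw [hzero, sign_zero] at hsgn
    exact hdet (sign_eq_zero_iff.1 hsgn.symm)
  · rw [hsgn, det_Ms hL t hN, sign_mul, sign_mul, sign_pos hcB', mul_one]
    push_cast
    rw [sign_prod_neg hN.1]

end IFT

theorem StIFT : S_StIFT := IFT.main

end Pool.Agent.GC18.St
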