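import Pool.Agent.GC18.StStmts
import Pool.Agent.GC18.RealZeros

/-!
# Grassmann convexity (MP_5fea31_an): pairs of families of polynomials (b1)   (helper70)

`theorem StPair : S_StPair`.
-/

set_option autoImplicit false

namespace Pool.Agent.GC18.St

open Matrix Filter Topology Set Polynomial

open scoped Classical

namespace Pr

variable {ι : Type} {l : Filter ι}

/-- coefficientwise convergence with bounded degree -/
structure Cv (l : Filter ι) (F : ι → ℝ[X]) (F0 : ℝ[X]) (N : ℕ) : Prop where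
  deg : ∀ i, (F i).natDegree ≤ N
  deg0 : F0.natDegree ≤ N
  lim : ∀ n, Tendsto (fun i => (F i).coeff n) l (𝓝 (F0.coeff n))

lemma Cv.unif {F : ι → ℝ[X]} {F0 : ℝ[X]} {N : ℕ} (h : Cv l F F0 N) (R : ℝ) {ε : ℝ} (hε : 0 < ε) :
    ∀ᶠ i in l, ∀ t, |t| ≤ R → |(F i).eval t - F0.eval t| < ε := by
  set R' := max R 1 with hR'
  have hR1 : 1 ≤ R' := le_max_right _ _
  have hpos : 0 < R' ^ N := by positivity
  have hS : Tendsto (fun i => ∑ n ∈ Finset.range (N + 1), |(F i).coeff n - F0.coeff n|) l (𝓝 0) := by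
    have : Tendsto (fun i => ∑ n ∈ Finset.range (N + 1), |(F i).coeff n - F0.coeff n|) l
        (𝓝 (∑ n ∈ Finset.range (N + 1), |F0.coeff n - F0.coeff n|)) :=
      tendsto_finsetSum _ fun n _ => ((h.lim n).sub_const _).abs
    simpa using this
  have hev := hS.eventually (gt_mem_nhds (show 0 < ε / R' ^ N by positivity))
  filter_upwards [hev] with i hi t ht
  have h1 : (F i).eval t = ∑ n ∈ Finset.range (N + 1), (F i).coeff n * t ^ n :=
    Polynomial.eval_eq_sum_range' (Nat.lt_succ_of_le (h.deg i)) t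
  have h2 : F0.eval t = ∑ n ∈ Finset.range (N + 1), F0.coeff n * t ^ n :=
    Polynomial.eval_eq_sum_range' (Nat.lt_succ_of_le h.deg0) t
  rw [h1, h2, ← Finset.sum_sub_distrib]
  have h3 : ∀ n ∈ Finset.range (N + 1), |(F i).coeff n * t ^ n - F0.coeff n * t ^ n| ≤
      |(F i).coeff n - F0.coeff n| * R' ^ N := by
    intro n hn
    rw [← sub_mul, abs_mul, abs_pow]
    refine mul_le_mul_of_nonneg_left ?_ (abs_nonneg _)
    have hn' : n ≤ N := Nat.lt_succ_iff.1 (Finset.mem_range.1 hn)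
    calc |t| ^ n ≤ R' ^ n := pow_le_pow_left₀ (abs_nonneg _) (ht.trans (le_max_left _ _)) n
      _ ≤ R' ^ N := pow_le_pow_right₀ hR1 hn'
  calc |∑ n ∈ Finset.range (N + 1), ((F i).coeff n * t ^ n - F0.coeff n * t ^ n)|
      ≤ ∑ n ∈ Finset.range (N + 1), |(F i).coeff n * t ^ n - F0.coeff n * t ^ n| :=
        Finset.abs_sum_le_sum_abs _ _
    _ ≤ ∑ n ∈ Finset.range (N + 1), |(F i).coeff n - F0.coeff n| * R' ^ N := Finset.sum_le_sum h3
    _ = (∑ n ∈ Finset.range (N + 1), |(F i).coeff n - F0.coeff n|) * R' ^ N := by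
        rw [Finset.sum_mul]
    _ < ε := by rwa [lt_div_iff₀ hpos] at hi

lemma Cv.der {F : ι → ℝ[X]} {F0 : ℝ[X]} {N : ℕ} (h : Cv l F F0 N) :
    Cv l (fun i => derivative (F i)) (derivative F0) N := by
  refine ⟨fun i => (natDegree_derivative_le _).trans ((Nat.sub_le _ _).trans (h.deg i)),
    (natDegree_derivative_le _).trans ((Nat.sub_le _ _).trans h.deg0), fun n => ?_⟩
  simp only [coeff_derivative]
  exact (h.lim (n + 1)).mul_const _

lemma Cv.neg {F : ι → ℝ[X]} {F0 : ℝ[X]} {N : ℕ} (h : Cv l F F0 N) :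
    Cv l (fun i => -(F i)) (-F0) N := by
  refine ⟨fun i => by rw [natDegree_neg]; exact h.deg i, by rw [natDegree_neg]; exact h.deg0,
    fun n => ?_⟩
  simp only [coeff_neg]
  exact (h.lim n).neg

lemma Cv.refl {F : ι → ℝ[X]} {F0 : ℝ[X]} {N : ℕ} (h : Cv l F F0 N) :
    Cv l (fun i => reflect N (F i)) (reflect N F0) N := by
  refine ⟨fun i => natDegree_reflect_le.trans (max_le le_rfl (h.deg i)),
    natDegree_reflect_le.trans (max_le le_rfl h.deg0), fun n => ?_⟩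
  simp only [coeff_reflect]
  exact h.lim _

/-- nonvanishing near a nonzero of the limit, on a compact set -/
lemma Cv.nonzero {F : ι → ℝ[X]} {F0 : ℝ[X]} {N : ℕ} (h : Cv l F F0 N) {K : Set ℝ} (hK : IsCompact K)
    (h0 : ∀ t ∈ K, F0.eval t ≠ 0) : ∀ᶠ i in l, ∀ t ∈ K, (F i).eval t ≠ 0 := by
  rcases K.eq_empty_or_nonempty with rfl | hne
  · exact Eventually.of_forall fun i t ht => absurd ht (Set.notMem_empty t)
  obtain ⟨z, hz, hmin⟩ := hK.exists_isMinOn hne (f := fun t => |F0.eval t|)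
    (F0.continuous.abs.continuousOn)
  have hc : 0 < |F0.eval z| := abs_pos.2 (h0 z hz)
  obtain ⟨R, hR⟩ := hK.isBounded.exists_norm_le
  filter_upwards [h.unif R hc] with i hi t ht h1
  have h2 := hi t (by simpa [Real.norm_eq_abs] using hR t ht)
  rw [h1, zero_sub, abs_neg] at h2
  exact absurd (hmin ht) (not_le.2 h2)

/-- local lemma at a simple zero, positive derivative -/
lemma Cv.local_pos {F : ι → ℝ[X]} {F0 : ℝ[X]} {N : ℕ} (h : Cv l F F0 N) {z : ℝ}
    (hz : F0.eval z = 0) (hd : 0 < (derivative F0).eval z) :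
    ∃ η > 0, ∀ η', 0 < η' → η' ≤ η → ∀ᶠ i in l, ∃ t, |t - z| < η' ∧ (F i).eval t = 0 ∧
      (∀ t', |t' - z| ≤ η' → (F i).eval t' = 0 → t' = t) ∧
      ∀ t', |t' - z| ≤ η' → (derivative (F i)).eval t' ≠ 0 := by
  set c := (derivative F0).eval z with hc
  -- the derivative of the limit
  obtain ⟨η, hη, hcont⟩ : ∃ η > 0, ∀ t, |t - z| ≤ η → c / 2 < (derivative F0).eval t := by
    have h1 : ∀ᶠ t in 𝓝 z, c / 2 < (derivative F0).eval t :=
      (derivative F0).continuous.continuousAt.eventually (lt_mem_nhds (by linarith))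
    obtain ⟨η, hη, hs⟩ := Metric.nhds_basis_closedBall.mem_iff.1 h1
    exact ⟨η, hη, fun t ht => hs (by simpa [Real.dist_eq] using ht)⟩
  refine ⟨η, hη, fun η' hη' hle => ?_⟩
  -- strict monotonicity for polynomials with positive derivative
  have mono : ∀ P : ℝ[X], (∀ t, |t - z| ≤ η' → 0 < (derivative P).eval t) →
      StrictMonoOn (fun t => P.eval t) (Icc (z - η') (z + η')) := by
    intro P hP
    refine strictMonoOn_of_deriv_pos (convex_Icc _ _) P.continuous.continuousOn fun t ht => ?_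
    rw [interior_Icc] at ht
    rw [Polynomial.deriv]
    exact hP t (abs_le.2 ⟨by linarith [ht.1], by linarith [ht.2]⟩)
  have m0 := mono F0 (fun t ht => by have := hcont t (ht.trans hle); linarith)
  have hz1 : z - η' / 2 ∈ Icc (z - η') (z + η') := ⟨by linarith, by linarith⟩
  have hz2 : z + η' / 2 ∈ Icc (z - η') (z + η') := ⟨by linarith, by linarith⟩
  have hz3 : z ∈ Icc (z - η') (z + η') := ⟨by linarith, by linarith⟩
  have hneg : F0.eval (z - η' / 2) < 0 := by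
    have := m0 hz1 hz3 (by linarith)
    simpa [hz] using this
  have hpos : 0 < F0.eval (z + η' / 2) := by
    have := m0 hz3 hz2 (by linarith)
    simpa [hz] using this
  have hR : ∀ t, |t - z| ≤ η' → |t| ≤ |z| + η' := by
    intro t ht
    calc |t| = |(t - z) + z| := by ring_nf
      _ ≤ |t - z| + |z| := abs_add_le _ _
      _ ≤ |z| + η' := by linarith
  have hc2 : 0 < c / 2 := by linarith
  filter_upwards [h.der.unif (|z| + η') hc2,
    h.unif (|z| + η') (show 0 < -F0.eval (z - η' / 2) by linarith), h.unif (|z| + η') hpos]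
    with i h1 h2 h3
  have hder : ∀ t, |t - z| ≤ η' → 0 < (derivative (F i)).eval t := by
    intro t ht
    have h4 := h1 t (hR t ht)
    have h5 := hcont t (ht.trans hle)
    rw [abs_lt] at h4
    linarith [h4.1]
  have m := mono (F i) hder
  have ha : (F i).eval (z - η' / 2) < 0 := by
    have h4 := h2 (z - η' / 2) (hR _ (by rw [abs_le]; constructor <;> linarith))
    rw [abs_lt] at h4
    linarith [h4.2]
  have hb : 0 < (F i).eval (z + η' / 2) := by
    have h4 := h3 (z + η' / 2) (hR _ (by rw [abs_le]; constructor <;> linarith))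
    rw [abs_lt] at h4
    linarith [h4.1]
  obtain ⟨t, ht, ht0⟩ := intermediate_value_Icc (show z - η' / 2 ≤ z + η' / 2 by linarith)
    (f := fun t => (F i).eval t) (F i).continuous.continuousOn
    (show (0 : ℝ) ∈ Icc ((F i).eval (z - η' / 2)) ((F i).eval (z + η' / 2)) from ⟨ha.le, hb.le⟩)
  have htI : t ∈ Icc (z - η') (z + η') := ⟨by linarith [ht.1], by linarith [ht.2]⟩
  refine ⟨t, ?_, ht0, fun t' ht' h0 => ?_, fun t' ht' => (hder t' ht').ne'⟩
  · rw [abs_lt]; constructor <;> linarith [ht.1, ht.2]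
  · have ht'I : t' ∈ Icc (z - η') (z + η') := by
      rw [abs_le] at ht'; exact ⟨by linarith [ht'.1], by linarith [ht'.2]⟩
    exact m.injOn ht'I htI (by simp only [h0]; exact ht0.symm)

/-- local lemma at a simple zero -/
lemma Cv.loc {F : ι → ℝ[X]} {F0 : ℝ[X]} {N : ℕ} (h : Cv l F F0 N) {z : ℝ}
    (hz : F0.eval z = 0) (hd : (derivative F0).eval z ≠ 0) :
    ∃ η > 0, ∀ η', 0 < η' → η' ≤ η → ∀ᶠ i in l, ∃ t, |t - z| < η' ∧ (F i).eval t = 0 ∧
      (∀ t', |t' - z| ≤ η' → (F i).eval t' = 0 → t' = t) ∧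
      ∀ t', |t' - z| ≤ η' → (derivative (F i)).eval t' ≠ 0 := by
  rcases lt_or_gt_of_ne hd with hd | hd
  · obtain ⟨η, hη, hh⟩ := h.neg.local_pos (z := z) (by simp [hz]) (by simp; linarith)
    refine ⟨η, hη, fun η' h1 h2 => ?_⟩
    filter_upwards [hh η' h1 h2] with i hi
    obtain ⟨t, h3, h4, h5, h6⟩ := hi
    simp only [derivative_neg, eval_neg, neg_eq_zero, ne_eq] at h4 h5 h6
    exact ⟨t, h3, h4, h5, h6⟩
  · exact h.local_pos hz hd

/-- the bounded zeros -/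
lemma Cv.bounded {F : ι → ℝ[X]} {F0 : ℝ[X]} {N : ℕ} (h : Cv l F F0 N) (h0 : F0 ≠ 0)
    (hs : ∀ t, F0.eval t = 0 → (derivative F0).eval t ≠ 0) {η : ℝ} (hη : 0 < η) (R : ℝ) :
    ∀ᶠ i in l, ∃ φ : ℝ → ℝ,
      (∀ z ∈ F0.roots.toFinset, |φ z - z| < η ∧ (F i).eval (φ z) = 0 ∧
        (derivative (F i)).eval (φ z) ≠ 0) ∧
      ∀ t, |t| ≤ R → (F i).eval t = 0 → ∃ z ∈ F0.roots.toFinset, φ z = t := by
  have hmem : ∀ z, z ∈ F0.roots.toFinset ↔ F0.eval z = 0 := by
    intro z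
    rw [Multiset.mem_toFinset, mem_roots h0, IsRoot.def]
  have hloc := fun z (hz : z ∈ F0.roots.toFinset) => h.loc ((hmem z).1 hz) (hs z ((hmem z).1 hz))
  choose! ηz hηz hloc using hloc
  obtain ⟨η', hη', hη'le, hη'z⟩ : ∃ η' > 0, η' ≤ η ∧ ∀ z ∈ F0.roots.toFinset, η' ≤ ηz z := by
    by_cases hne : F0.roots.toFinset.Nonempty
    · obtain ⟨w, hw, hmin⟩ := Finset.exists_min_image _ ηz hne
      exact ⟨min η (ηz w), lt_min hη (hηz w hw), min_le_left _ _, fun z hz =>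
        (min_le_right _ _).trans (hmin z hz)⟩
    · exact ⟨η, hη, le_rfl, fun z hz => absurd ⟨z, hz⟩ hne⟩
  have h1 : ∀ᶠ i in l, ∀ z ∈ F0.roots.toFinset, ∃ t, |t - z| < η' ∧ (F i).eval t = 0 ∧
      (∀ t', |t' - z| ≤ η' → (F i).eval t' = 0 → t' = t) ∧
      ∀ t', |t' - z| ≤ η' → (derivative (F i)).eval t' ≠ 0 := by
    rw [Filter.eventually_all_finset]
    intro z hz
    exact hloc z hz η' hη' (hη'z z hz)
  have hK : IsCompact (Icc (-R) R \ ⋃ z ∈ F0.roots.toFinset, Metric.ball z η') :=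
    isCompact_Icc.diff (isOpen_biUnion fun z _ => Metric.isOpen_ball)
  have h2 := h.nonzero hK (fun t ht h00 => ht.2 (by
    simp only [Set.mem_iUnion, Metric.mem_ball]
    exact ⟨t, (hmem t).2 h00, by simpa using hη'⟩))
  filter_upwards [h1, h2] with i hi1 hi2
  choose! φ hφ1 hφ2 hφ3 hφ4 using hi1
  refine ⟨φ, fun z hz => ⟨(hφ1 z hz).trans_le hη'le, hφ2 z hz, hφ4 z hz _ (hφ1 z hz).le⟩,
    fun t ht h00 => ?_⟩
  by_contra hno
  push Not at hno
  refine hi2 t ⟨abs_le.1 ht, fun hmemU => ?_⟩ h00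
  simp only [Set.mem_iUnion, Metric.mem_ball, exists_prop] at hmemU
  obtain ⟨z, hz, hd⟩ := hmemU
  rw [Real.dist_eq] at hd
  exact hno z hz (hφ3 z hz t hd.le h00).symm

lemma eval_refl {P : ℝ[X]} {N : ℕ} (hP : P.natDegree ≤ N) {t : ℝ} (ht : t ≠ 0) :
    (reflect N P).eval t⁻¹ * t ^ N = P.eval t := by
  let _ : Invertible t := invertibleOfNonzero ht
  have := eval₂_reflect_mul_pow (RingHom.id ℝ) t N P hP
  simpa [eval₂_id, invOf_eq_inv] using this

lemma der_refl {P : ℝ[X]} {N : ℕ} (hP : P.natDegree ≤ N) {t : ℝ} (ht : t ≠ 0) (h0 : P.eval t = 0)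
    (hd : (derivative (reflect N P)).eval t⁻¹ ≠ 0) : (derivative P).eval t ≠ 0 := by
  have h1 : HasDerivAt (fun x => P.eval x) ((derivative P).eval t) t := P.hasDerivAt t
  have h2 : HasDerivAt (fun x => (reflect N P).eval x⁻¹ * x ^ N)
      (((derivative (reflect N P)).eval t⁻¹ * (-(t ^ 2)⁻¹)) * t ^ N +
        (reflect N P).eval t⁻¹ * ((N : ℝ) * t ^ (N - 1))) t := by
    have h3 := ((reflect N P).hasDerivAt t⁻¹).comp t (hasDerivAt_inv ht)
    exact h3.mul (hasDerivAt_pow N t)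
  have h3 : (reflect N P).eval t⁻¹ = 0 := by
    have := eval_refl hP ht
    rw [h0] at this
    exact (mul_eq_zero.1 this).resolve_right (pow_ne_zero _ ht)
  have h4 : (fun x => P.eval x) =ᶠ[𝓝 t] fun x => (reflect N P).eval x⁻¹ * x ^ N := by
    filter_upwards [isOpen_ne.mem_nhds ht] with x hx
    exact (eval_refl hP hx).symm
  have h5 := (h2.congr_of_eventuallyEq h4).unique h1
  rw [← h5, h3, zero_mul, add_zero]
  refine mul_ne_zero (mul_ne_zero hd ?_) (pow_ne_zero _ ht)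
  exact neg_ne_zero.2 (inv_ne_zero (pow_ne_zero _ ht))

/-- all zeros are bounded if the degree is constant -/
lemma outA {P : ι → ℝ[X]} {P0 : ℝ[X]} {d : ℕ} (h : TypA l P P0 d) {η : ℝ} (hη : 0 < η) :
    ∀ᶠ i in l, ∃ φ : ℝ → ℝ, (∀ z ∈ P0.roots.toFinset, |φ z - z| < η) ∧
      (∀ t, (P i).eval t = 0 ↔ ∃ z ∈ P0.roots.toFinset, φ z = t) ∧
      (∀ t, (P i).eval t = 0 → (derivative (P i)).eval t ≠ 0) := by
  have cv : Cv l P P0 d := ⟨h.deg, h.deg0.le, h.lim⟩
  have hlead : P0.coeff d ≠ 0 := by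
    rw [← h.deg0]; exact leadingCoeff_ne_zero.2 h.ne0
  have h0 : (reflect d P0).eval 0 ≠ 0 := by
    rw [← coeff_zero_eq_eval_zero, coeff_reflect, revAt_le (Nat.zero_le d), Nat.sub_zero]
    exact hlead
  obtain ⟨η0, hη0, hball⟩ : ∃ η0 > 0, ∀ κ ∈ Metric.closedBall (0 : ℝ) η0, (reflect d P0).eval κ ≠ 0 := by
    have h1 : ∀ᶠ κ in 𝓝 (0 : ℝ), (reflect d P0).eval κ ≠ 0 :=
      (reflect d P0).continuous.continuousAt.eventually_ne h0
    obtain ⟨η0, hη0, hs⟩ := Metric.nhds_basis_closedBall.mem_iff.1 h1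
    exact ⟨η0, hη0, fun κ hκ => hs hκ⟩
  filter_upwards [cv.refl.nonzero (isCompact_closedBall (0 : ℝ) η0) hball,
    cv.bounded h.ne0 h.simple hη (1 / η0)] with i h1 h2
  obtain ⟨φ, h3, h4⟩ := h2
  have hmem : ∀ t, (P i).eval t = 0 ↔ ∃ z ∈ P0.roots.toFinset, φ z = t := by
    intro t
    constructor
    · intro ht
      by_cases hR : |t| ≤ 1 / η0
      · exact h4 t hR ht
      · exfalso
        push Not at hR
        have htpos : 0 < |t| := lt_trans (by positivity) hR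
        have ht0 : t ≠ 0 := abs_pos.1 htpos
        have h5 : t⁻¹ ∈ Metric.closedBall (0 : ℝ) η0 := by
          rw [Metric.mem_closedBall, dist_zero_right, Real.norm_eq_abs, abs_inv]
          rw [div_lt_iff₀ hη0] at hR
          rw [inv_le_iff_one_le_mul₀ htpos]
          nlinarith
        have h6 := eval_refl (h.deg i) ht0
        rw [ht] at h6
        exact h1 _ h5 ((mul_eq_zero.1 h6).resolve_right (pow_ne_zero _ ht0))
    · rintro ⟨z, hz, rfl⟩
      exact (h3 z hz).2.1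
  refine ⟨φ, fun z hz => (h3 z hz).1, hmem, fun t ht => ?_⟩
  obtain ⟨z, hz, rfl⟩ := (hmem t).1 ht
  exact (h3 z hz).2.2

/-- one new zero if the degree grows by one -/
lemma outB {e : ι → ℝ} (he : ∀ᶠ i in l, 0 < e i) (he0 : Tendsto e l (𝓝 0)) {P : ι → ℝ[X]}
    {P0 : ℝ[X]} {d : ℕ} {ρ : ℝ} (h : TypB l e P P0 d ρ) {η : ℝ} (hη : 0 < η) (R : ℝ) {ε : ℝ}
    (hε : 0 < ε) :
    ∀ᶠ i in l, ∃ (φ : ℝ → ℝ) (ν : ℝ), (∀ z ∈ P0.roots.toFinset, |φ z - z| < η) ∧
      (∀ t, (P i).eval t = 0 ↔ (∃ z ∈ P0.roots.toFinset, φ z = t) ∨ t = ν) ∧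
      (∀ t, (P i).eval t = 0 → (derivative (P i)).eval t ≠ 0) ∧ 0 < ν ∧ R < ν ∧
      |ν⁻¹ / e i - ρ⁻¹| < ε := by
  have cv : Cv l P P0 (d + 1) := ⟨h.deg, by rw [h.deg0]; exact Nat.le_succ d, h.lim⟩
  have hρ := h.rho
  have hlead : P0.coeff d ≠ 0 := by
    rw [← h.deg0]; exact leadingCoeff_ne_zero.2 h.ne0
  have hz0 : (reflect (d + 1) P0).eval 0 = 0 := by
    rw [← coeff_zero_eq_eval_zero, coeff_reflect, revAt_le (Nat.zero_le _), Nat.sub_zero]
    exact coeff_eq_zero_of_natDegree_lt (by rw [h.deg0]; exact Nat.lt_succ_self d)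
  have hz1 : (derivative (reflect (d + 1) P0)).eval 0 ≠ 0 := by
    rw [← coeff_zero_eq_eval_zero, coeff_derivative, coeff_reflect, revAt_le (by omega)]
    simpa using hlead
  obtain ⟨η1, hη1, hloc⟩ := cv.refl.loc hz0 hz1
  have hloc1 := hloc η1 hη1 le_rfl
  -- the location of the small zero
  have hsc : ∀ s : ℝ, Tendsto (fun i => (reflect (d + 1) (P i)).eval (e i * s) / e i) l
      (𝓝 (P0.coeff d * s - P0.coeff d / ρ)) := by
    intro s
    have h1 : ∀ᶠ i in l, (P i).coeff (d + 1) / e i + (P i).coeff d * s +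
        ∑ n ∈ Finset.range d, (reflect (d + 1) (P i)).coeff (n + 2) * (e i ^ (n + 1) * s ^ (n + 2)) =
        (reflect (d + 1) (P i)).eval (e i * s) / e i := by
      filter_upwards [he] with i hi
      rw [Polynomial.eval_eq_sum_range' (n := d + 2)
        (Nat.lt_succ_of_le (cv.refl.deg i)) (e i * s), Finset.sum_range_succ', Finset.sum_range_succ']
      have e1 : (reflect (d + 1) (P i)).coeff 0 = (P i).coeff (d + 1) := by
        rw [coeff_reflect, revAt_le (Nat.zero_le _), Nat.sub_zero]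
      have e2 : (reflect (d + 1) (P i)).coeff (0 + 1) = (P i).coeff d := by
        rw [coeff_reflect, revAt_le (by omega)]
        congr 1
      rw [e1, e2, add_div, add_div, Finset.sum_div]
      have e3 : ∀ n ∈ Finset.range d, (reflect (d + 1) (P i)).coeff (n + 1 + 1) * (e i * s) ^ (n + 1 + 1) / e i =
          (reflect (d + 1) (P i)).coeff (n + 2) * (e i ^ (n + 1) * s ^ (n + 2)) := by
        intro n _
        rw [mul_pow]
        field_simp
        ring
      rw [Finset.sum_congr rfl e3]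
      field_simp
      ring
    refine Tendsto.congr' h1 ?_
    have h2 : Tendsto (fun i => ∑ n ∈ Finset.range d,
        (reflect (d + 1) (P i)).coeff (n + 2) * (e i ^ (n + 1) * s ^ (n + 2))) l (𝓝 0) := by
      have : Tendsto (fun i => ∑ n ∈ Finset.range d,
          (reflect (d + 1) (P i)).coeff (n + 2) * (e i ^ (n + 1) * s ^ (n + 2))) l
          (𝓝 (∑ n ∈ Finset.range d, (reflect (d + 1) P0).coeff (n + 2) * ((0 : ℝ) ^ (n + 1) * s ^ (n + 2)))) := by
        refine tendsto_finsetSum _ fun n _ => ?_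
        exact (cv.refl.lim (n + 2)).mul ((he0.pow (n + 1)).mul_const _)
      simpa using this
    have h3 := (h.top.add ((h.lim d).mul_const s)).add h2
    have e4 : P0.coeff d * s - P0.coeff d / ρ = -P0.coeff d / ρ + P0.coeff d * s + 0 := by ring
    rw [e4]
    exact h3
  -- the two comparison points
  obtain ⟨ε', hε', hε'1, hε'2⟩ : ∃ ε' : ℝ, 0 < ε' ∧ ε' < ε ∧ ε' < ρ⁻¹ := by
    refine ⟨min ε ρ⁻¹ / 2, ?_, ?_, ?_⟩
    · have : 0 < min ε ρ⁻¹ := lt_min hε (inv_pos.2 hρ)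
      linarith
    · have : 0 < min ε ρ⁻¹ := lt_min hε (inv_pos.2 hρ)
      have := min_le_left ε ρ⁻¹
      linarith
    · have : 0 < min ε ρ⁻¹ := lt_min hε (inv_pos.2 hρ)
      have := min_le_right ε ρ⁻¹
      linarith
  have hprod : ∀ᶠ i in l, ((reflect (d + 1) (P i)).eval (e i * (ρ⁻¹ - ε')) / e i) *
      ((reflect (d + 1) (P i)).eval (e i * (ρ⁻¹ + ε')) / e i) < 0 := by
    have h1 := (hsc (ρ⁻¹ - ε')).mul (hsc (ρ⁻¹ + ε'))
    refine h1.eventually (gt_mem_nhds ?_)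
    have h2 : 0 < P0.coeff d * P0.coeff d := mul_self_pos.2 hlead
    have e1 : (P0.coeff d * (ρ⁻¹ - ε') - P0.coeff d / ρ) * (P0.coeff d * (ρ⁻¹ + ε') - P0.coeff d / ρ) =
        -(P0.coeff d * P0.coeff d * (ε' * ε')) := by ring
    rw [e1]
    have := mul_pos h2 (mul_pos hε' hε')
    linarith
  have hsmall : ∀ᶠ i in l, e i * (ρ⁻¹ + ε') < min η1 (1 / (|R| + 1)) := by
    have h1 : Tendsto (fun i => e i * (ρ⁻¹ + ε')) l (𝓝 0) := by
      simpa using he0.mul_const (ρ⁻¹ + ε')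
    exact h1.eventually (gt_mem_nhds (lt_min hη1 (by positivity)))
  filter_upwards [he, hloc1, hprod, hsmall, cv.bounded h.ne0 h.simple hη (1 / η1)] with i hei h1 h2 h3 h4
  obtain ⟨κ, hκ1, hκ2, hκ3, hκ4⟩ := h1
  obtain ⟨φ, h5, h6⟩ := h4
  -- the zero is between the comparison points
  have hlt : e i * (ρ⁻¹ - ε') < e i * (ρ⁻¹ + ε') := mul_lt_mul_of_pos_left (by linarith) hei
  have hlow : 0 < e i * (ρ⁻¹ - ε') := mul_pos hei (by linarith)
  have h2' : (reflect (d + 1) (P i)).eval (e i * (ρ⁻¹ - ε')) *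
      (reflect (d + 1) (P i)).eval (e i * (ρ⁻¹ + ε')) < 0 := by
    have e1 : ((reflect (d + 1) (P i)).eval (e i * (ρ⁻¹ - ε')) / e i) *
      ((reflect (d + 1) (P i)).eval (e i * (ρ⁻¹ + ε')) / e i) =
      ((reflect (d + 1) (P i)).eval (e i * (ρ⁻¹ - ε')) *
      (reflect (d + 1) (P i)).eval (e i * (ρ⁻¹ + ε'))) / (e i * e i) := by
        rw [div_mul_div_comm]
    rw [e1, div_lt_iff₀ (mul_pos hei hei), zero_mul] at h2
    exact h2
  obtain ⟨κ', hκ'1, hκ'2⟩ : ∃ κ' ∈ Ioo (e i * (ρ⁻¹ - ε')) (e i * (ρ⁻¹ + ε')),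
      (reflect (d + 1) (P i)).eval κ' = 0 := by
    have hcont : ContinuousOn (fun κ => (reflect (d + 1) (P i)).eval κ)
        (Icc (e i * (ρ⁻¹ - ε')) (e i * (ρ⁻¹ + ε'))) := (reflect (d + 1) (P i)).continuous.continuousOn
    rcases mul_neg_iff.1 h2' with ⟨ha, hb⟩ | ⟨ha, hb⟩
    · exact intermediate_value_Ioo' hlt.le hcont ⟨hb, ha⟩
    · exact intermediate_value_Ioo hlt.le hcont ⟨ha, hb⟩
  have hη1' := (lt_min_iff.1 h3).1
  have hRR := (lt_min_iff.1 h3).2
  have hκ'pos : 0 < κ' := hlow.trans hκ'1.1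
  have hκ'η : |κ' - 0| ≤ η1 := by
    rw [sub_zero, abs_of_pos hκ'pos]
    exact (hκ'1.2.trans hη1').le
  have hκκ' : κ' = κ := hκ3 κ' hκ'η hκ'2
  subst hκκ'
  have hνη : 1 / η1 < κ'⁻¹ := by
    rw [one_div]
    exact inv_strictAnti₀ hκ'pos (hκ'1.2.trans hη1')
  have hνpos : 0 < κ'⁻¹ := inv_pos.2 hκ'pos
  have hPν : (P i).eval κ'⁻¹ = 0 := by
    have := eval_refl (h.deg i) hνpos.ne'
    rw [inv_inv, hκ2, zero_mul] at this
    exact this.symm
  have hmem : ∀ t, (P i).eval t = 0 ↔ (∃ z ∈ P0.roots.toFinset, φ z = t) ∨ t = κ'⁻¹ := by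
    intro t
    constructor
    · intro ht
      by_cases hR : |t| ≤ 1 / η1
      · exact Or.inl (h6 t hR ht)
      · right
        push Not at hR
        have htpos : 0 < |t| := lt_trans (by positivity) hR
        have ht0 : t ≠ 0 := abs_pos.1 htpos
        have h7 : |t⁻¹ - 0| ≤ η1 := by
          rw [sub_zero, abs_inv]
          rw [div_lt_iff₀ hη1] at hR
          rw [inv_le_iff_one_le_mul₀ htpos]
          nlinarith
        have h8 := eval_refl (h.deg i) ht0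
        rw [ht] at h8
        have h9 := hκ3 _ h7 ((mul_eq_zero.1 h8).resolve_right (pow_ne_zero _ ht0))
        rw [← h9, inv_inv]
    · rintro (⟨z, hz, rfl⟩ | rfl)
      · exact (h5 z hz).2.1
      · exact hPν
  refine ⟨φ, κ'⁻¹, fun z hz => (h5 z hz).1, hmem, fun t ht => ?_, hνpos, ?_, ?_⟩
  · rcases (hmem t).1 ht with ⟨z, hz, rfl⟩ | rfl
    · exact (h5 z hz).2.2
    · exact der_refl (h.deg i) hνpos.ne' hPν (by rw [inv_inv]; exact hκ4 κ' hκ'η)
  · have h7 : κ' < 1 / (|R| + 1) := hκ'1.2.trans hRR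
    have h8 : |R| + 1 < κ'⁻¹ := by
      rw [lt_inv_comm₀ (by positivity) hκ'pos, ← one_div]; exact h7
    linarith [le_abs_self R]
  · rw [inv_inv, abs_lt]
    have h7 : ρ⁻¹ - ε' < κ' / e i := by
      rw [lt_div_iff₀ hei, mul_comm]; exact hκ'1.1
    have h8 : κ' / e i < ρ⁻¹ + ε' := by
      rw [div_lt_iff₀ hei, mul_comm]; exact hκ'1.2
    constructor <;> linarith

/-- parity of the number of real zeros -/
lemma parity {P0 : ℝ[X]} (h0 : P0 ≠ 0) (hs : ∀ t, P0.eval t = 0 → (derivative P0).eval t ≠ 0) :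
    P0.roots.toFinset.card % 2 = P0.natDegree % 2 := by
  set Z := P0.roots.toFinset with hZ
  have hmem : ∀ z, P0.eval z = 0 ↔ z ∈ Z := by
    intro z
    rw [hZ, Multiset.mem_toFinset, mem_roots h0, IsRoot.def]
  have hSZ : RZ.SimpleZ (fun t => P0.eval t) Z :=
    ⟨P0.continuous, hmem, fun z hz => ⟨_, hs z ((hmem z).2 hz), P0.hasDerivAt z⟩⟩
  set d := P0.natDegree with hd
  have hlead : P0.coeff d ≠ 0 := leadingCoeff_ne_zero.2 h0
  -- signs at the ends
  have h1 : (reflect d P0).eval 0 = P0.coeff d := by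
    rw [← coeff_zero_eq_eval_zero, coeff_reflect, revAt_le (Nat.zero_le d), Nat.sub_zero]
  obtain ⟨η, hη, hball⟩ : ∃ η > 0, ∀ κ : ℝ, |κ| ≤ η → 0 < (reflect d P0).eval κ * P0.coeff d := by
    have h2 : ∀ᶠ κ in 𝓝 (0 : ℝ), 0 < (reflect d P0).eval κ * P0.coeff d := by
      have h3 : ContinuousAt (fun κ => (reflect d P0).eval κ * P0.coeff d) 0 :=
        ((reflect d P0).continuous.mul continuous_const).continuousAt
      refine h3.eventually (lt_mem_nhds ?_)
      simp only [h1]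
      exact mul_self_pos.2 hlead
    obtain ⟨η, hη, hs'⟩ := Metric.nhds_basis_closedBall.mem_iff.1 h2
    exact ⟨η, hη, fun κ hκ => hs' (by simpa [Real.dist_eq] using hκ)⟩
  obtain ⟨T, hT, hTZ⟩ : ∃ T : ℝ, 1 / η < T ∧ ∀ z ∈ Z, |z| < T := by
    obtain ⟨M, hM⟩ := (Z.image fun z => |z|).exists_le
    refine ⟨max (1 / η) M + 1, by linarith [le_max_left (1 / η) M], fun z hz => ?_⟩
    have := hM _ (Finset.mem_image_of_mem _ hz)
    linarith [le_max_right (1 / η) M]
  have hTpos : 0 < T := lt_trans (by positivity) hT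
  have hTinv : T⁻¹ ≤ η := by
    rw [inv_le_iff_one_le_mul₀ hTpos]
    rw [div_lt_iff₀ hη] at hT
    linarith [mul_comm T η]
  have hp := hball T⁻¹ (by rw [abs_of_pos (inv_pos.2 hTpos)]; exact hTinv)
  have hm := hball (-T)⁻¹ (by rw [abs_inv, abs_neg, abs_of_pos hTpos]; exact hTinv)
  have ep := eval_refl (P := P0) (N := d) le_rfl hTpos.ne'
  have em := eval_refl (P := P0) (N := d) le_rfl (neg_ne_zero.2 hTpos.ne')
  have hcount := hSZ.sgn_count (-T) T (by linarith)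
    (fun h => by have := hTZ _ h; rw [abs_neg, abs_of_pos hTpos] at this; exact lt_irrefl _ this)
    (fun h => by have := hTZ _ h; rw [abs_of_pos hTpos] at this; exact lt_irrefl _ this)
  have hfil : Z.filter (fun z => -T < z ∧ z < T) = Z :=
    Finset.filter_true_of_mem fun z hz => abs_lt.1 (hTZ z hz)
  rw [hfil] at hcount
  have s1 : RZ.sgn (P0.eval T) = RZ.sgn (P0.coeff d) := by
    rw [← ep, RZ.sgn_mul, RZ.sgn_pos (pow_pos hTpos d), mul_one]
    rcases lt_or_gt_of_ne hlead with h | h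
    · have : (reflect d P0).eval T⁻¹ < 0 := by nlinarith
      rw [RZ.sgn_neg h, RZ.sgn_neg this]
    · have : 0 < (reflect d P0).eval T⁻¹ := by
        by_contra hn; push Not at hn; nlinarith
      rw [RZ.sgn_pos h, RZ.sgn_pos this]
  have s2 : RZ.sgn (P0.eval (-T)) = RZ.sgn (P0.coeff d) * (-1) ^ d := by
    rw [← em, RZ.sgn_mul]
    congr 1
    · rcases lt_or_gt_of_ne hlead with h | h
      · have : (reflect d P0).eval (-T)⁻¹ < 0 := by nlinarith
        rw [RZ.sgn_neg h, RZ.sgn_neg this]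
      · have : 0 < (reflect d P0).eval (-T)⁻¹ := by
          by_contra hn; push Not at hn; nlinarith
        rw [RZ.sgn_pos h, RZ.sgn_pos this]
    · rw [neg_pow, RZ.sgn_mul, RZ.sgn_pos (pow_pos hTpos d), mul_one]
      rcases Nat.even_or_odd d with h | h
      · rw [h.neg_one_pow, h.neg_one_pow, RZ.sgn_pos one_pos]
      · rw [h.neg_one_pow, h.neg_one_pow, RZ.sgn_neg (by norm_num)]
  rw [s1, s2] at hcount
  have s3 := RZ.sgn_sq hlead
  have h5 : (-1 : ℤ) ^ (d + Z.card) = 1 := by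
    have h6 : RZ.sgn (P0.coeff d) * (RZ.sgn (P0.coeff d)) =
        RZ.sgn (P0.coeff d) * (RZ.sgn (P0.coeff d) * (-1) ^ d * (-1) ^ Z.card) := by
      rw [← hcount]
    rw [mul_assoc, ← mul_assoc, s3, one_mul, ← pow_add] at h6
    exact h6.symm
  have h6 : Even (d + Z.card) := by
    by_contra hn
    rw [Nat.not_even_iff_odd] at hn
    rw [hn.neg_one_pow] at h5
    norm_num at h5
  rw [Nat.even_iff] at h6
  omega

/-! ### counting pairs -/

/-- the number of inverted pairs -/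
noncomputable def pr (A B : Finset ℝ) : ℕ := ((A ×ˢ B).filter (fun w => w.2 < w.1)).card

lemma finv_pr (A B : Finset ℝ) : RZ.finv A B = A.card / 2 + pr A B := rfl

lemma pr_image {A B : Finset ℝ} {φ ψ : ℝ → ℝ} (hφ : Set.InjOn φ A) (hψ : Set.InjOn ψ B)
    (hord : ∀ x ∈ A, ∀ y ∈ B, (ψ y < φ x ↔ y < x)) : pr (A.image φ) (B.image ψ) = pr A B := by
  unfold pr
  rw [RZ.card_pairs, RZ.card_pairs, Finset.sum_image hψ]
  refine Finset.sum_congr rfl fun y hy => ?_
  rw [Finset.filter_image, Finset.card_image_of_injOn (hφ.mono (by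
    intro x hx; exact (Finset.mem_filter.1 hx).1))]
  congr 1
  exact Finset.filter_congr fun x hx => hord x hx y hy

lemma pr_insert_right {A B : Finset ℝ} {ν : ℝ} (hν : ν ∉ B) (h : ∀ x ∈ A, x < ν) :
    pr A (insert ν B) = pr A B := by
  unfold pr
  rw [RZ.card_pairs, RZ.card_pairs, Finset.sum_insert hν]
  have : A.filter (fun x => ν < x) = ∅ := by
    rw [Finset.filter_eq_empty_iff]
    intro x hx
    exact not_lt.2 (h x hx).le
  rw [this, Finset.card_empty, zero_add]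

lemma pr_insert_left {A B : Finset ℝ} {μ : ℝ} (hμ : μ ∉ A) (h : ∀ y ∈ B, y < μ) :
    pr (insert μ A) B = pr A B + B.card := by
  unfold pr
  rw [RZ.card_pairs', RZ.card_pairs', Finset.sum_insert hμ]
  rw [Finset.filter_true_of_mem h, add_comm]

/-- separation of finite sets -/
lemma exists_sep (Z : Finset ℝ) : ∃ η > 0, ∀ x ∈ Z, ∀ y ∈ Z, x ≠ y → 2 * η ≤ |x - y| := by
  by_cases hne : Z.offDiag.Nonempty
  · obtain ⟨w, hw, hmin⟩ := Finset.exists_min_image Z.offDiag (fun w => |w.1 - w.2|) hne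
    have hw' := (Finset.mem_offDiag.1 hw).2.2
    refine ⟨|w.1 - w.2| / 2, ?_, fun x hx y hy hxy => ?_⟩
    · have := abs_pos.2 (sub_ne_zero.2 hw')
      linarith
    · have := hmin (x, y) (Finset.mem_offDiag.2 ⟨hx, hy, hxy⟩)
      simp only at this
      linarith
  · refine ⟨1, one_pos, fun x hx y hy hxy => ?_⟩
    exact absurd ⟨(x, y), Finset.mem_offDiag.2 ⟨hx, hy, hxy⟩⟩ hne

lemma lt_iff_of_close {x y x' y' η : ℝ} (hx : |x' - x| < η) (hy : |y' - y| < η)
    (hxy : 2 * η ≤ |x - y|) : y' < x' ↔ y < x := by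
  rw [abs_lt] at hx hy
  rcases le_abs.1 hxy with h | h
  · constructor
    · intro _; linarith [hx.1, hy.1]
    · intro _; linarith [hx.1, hy.2]
  · constructor
    · intro h1; linarith [hx.1, hx.2, hy.1, hy.2]
    · intro h1; linarith [hx.1, hx.2, hy.1, hy.2]

lemma injOn_of_close {Z : Finset ℝ} {φ : ℝ → ℝ} {η : ℝ}
    (hsep : ∀ x ∈ Z, ∀ y ∈ Z, x ≠ y → 2 * η ≤ |x - y|) (h : ∀ z ∈ Z, |φ z - z| < η) :
    Set.InjOn φ Z := by
  intro x hx y hy hxy
  by_contra hne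
  have h1 := hsep x hx y hy hne
  have h2 := lt_iff_of_close (h x hx) (h y hy) h1
  have h3 := lt_iff_of_close (h y hy) (h x hx) (by rw [abs_sub_comm]; exact h1)
  rcases lt_or_gt_of_ne hne with h4 | h4
  · exact absurd (h3.2 h4) (by rw [hxy]; exact lt_irrefl _)
  · exact absurd (h2.2 h4) (by rw [hxy]; exact lt_irrefl _)

end Pr

open Pr in
theorem StPair : S_StPair := by
  intro ι l e he he0 P Q P0 Q0 dp dq ρp ρq hno
  set A0 := P0.roots.toFinset with hA0
  set B0 := Q0.roots.toFinset with hB0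
  obtain ⟨η, hη, hsep⟩ := exists_sep (A0 ∪ B0)
  have hsepA : ∀ x ∈ A0, ∀ y ∈ A0, x ≠ y → 2 * η ≤ |x - y| := fun x hx y hy =>
    hsep x (Finset.mem_union_left _ hx) y (Finset.mem_union_left _ hy)
  have hsepB : ∀ x ∈ B0, ∀ y ∈ B0, x ≠ y → 2 * η ≤ |x - y| := fun x hx y hy =>
    hsep x (Finset.mem_union_right _ hx) y (Finset.mem_union_right _ hy)
  obtain ⟨M, hM⟩ := (A0 ∪ B0).exists_le
  have hRA : ∀ x ∈ A0, x + η < M + η + 1 := fun x hx => by
    have := hM x (Finset.mem_union_left _ hx); linarith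
  have hRB : ∀ x ∈ B0, x + η < M + η + 1 := fun x hx => by
    have := hM x (Finset.mem_union_right _ hx); linarith
  -- zero sets of the limits
  have hZ0 : P0 ≠ 0 → Zr P0 = (A0 : Set ℝ) := by
    intro h0
    ext t
    simp only [Zr, Set.mem_ofPred_eq, Finset.mem_coe, hA0, Multiset.mem_toFinset, mem_roots h0, IsRoot.def]
  have hW0 : Q0 ≠ 0 → Zr Q0 = (B0 : Set ℝ) := by
    intro h0
    ext t
    simp only [Zr, Set.mem_ofPred_eq, Finset.mem_coe, hB0, Multiset.mem_toFinset, mem_roots h0, IsRoot.def]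
  have hAB : P0 ≠ 0 → Q0 ≠ 0 → ∀ x ∈ A0, ∀ y ∈ B0, 2 * η ≤ |x - y| := by
    intro h1 h2 x hx y hy
    refine hsep x (Finset.mem_union_left _ hx) y (Finset.mem_union_right _ hy) ?_
    rintro rfl
    refine hno x ⟨?_, ?_⟩
    · rwa [hA0, Multiset.mem_toFinset, mem_roots h1, IsRoot.def] at hx
    · rwa [hB0, Multiset.mem_toFinset, mem_roots h2, IsRoot.def] at hy
  -- zero sets of the members
  have imA : ∀ (R : ℝ[X]) (C0 : Finset ℝ) (φ : ℝ → ℝ), (∀ t, R.eval t = 0 ↔ ∃ z ∈ C0, φ z = t) →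
      Zr R = ((C0.image φ : Finset ℝ) : Set ℝ) := by
    intro R C0 φ h
    ext t
    simp only [Zr, Set.mem_ofPred_eq, h t, Finset.coe_image, Set.mem_image, Finset.mem_coe]
  have imB : ∀ (R : ℝ[X]) (C0 : Finset ℝ) (φ : ℝ → ℝ) (ν : ℝ),
      (∀ t, R.eval t = 0 ↔ (∃ z ∈ C0, φ z = t) ∨ t = ν) →
      Zr R = ((insert ν (C0.image φ) : Finset ℝ) : Set ℝ) := by
    intro R C0 φ ν h
    ext t
    simp only [Zr, Set.mem_ofPred_eq, h t, Finset.coe_insert, Finset.coe_image, Set.mem_insert_iff,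
      Set.mem_image, Finset.mem_coe]
    exact or_comm
  have bdA : ∀ (φ : ℝ → ℝ), (∀ z ∈ A0, |φ z - z| < η) → ∀ x ∈ A0.image φ, x < M + η + 1 := by
    intro φ h x hx
    obtain ⟨z, hz, rfl⟩ := Finset.mem_image.1 hx
    have h1 := (abs_lt.1 (h z hz)).2
    have h2 := hRA z hz
    linarith
  have bdB : ∀ (φ : ℝ → ℝ), (∀ z ∈ B0, |φ z - z| < η) → ∀ x ∈ B0.image φ, x < M + η + 1 := by
    intro φ h x hx
    obtain ⟨z, hz, rfl⟩ := Finset.mem_image.1 hx
    have h1 := (abs_lt.1 (h z hz)).2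
    have h2 := hRB z hz
    linarith
  refine ⟨fun hP hQ => ?_, fun hP hQ => ?_, fun hP hQ hρ => ?_⟩
  · -- AA
    filter_upwards [outA hP hη, outA hQ hη] with i h1 h2
    obtain ⟨φ, hφ1, hφ2, hφ3⟩ := h1
    obtain ⟨ψ, hψ1, hψ2, hψ3⟩ := h2
    have hord : ∀ x ∈ A0, ∀ y ∈ B0, (ψ y < φ x ↔ y < x) := fun x hx y hy =>
      lt_iff_of_close (hφ1 x hx) (hψ1 y hy) (hAB hP.ne0 hQ.ne0 x hx y hy)
    refine ⟨hφ3, hψ3, ?_, ?_⟩
    · rintro t ⟨ht1, ht2⟩
      obtain ⟨x, hx, rfl⟩ := (hφ2 t).1 ht1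
      obtain ⟨y, hy, hxy⟩ := (hψ2 _).1 ht2
      have h3 := hAB hP.ne0 hQ.ne0 x hx y hy
      have h4 := abs_lt.1 (hφ1 x hx)
      have h5 := abs_lt.1 (hψ1 y hy)
      rcases le_abs.1 h3 with h6 | h6 <;> linarith [h4.1, h4.2, h5.1, h5.2]
    · rw [imA _ _ _ hφ2, imA _ _ _ hψ2, hZ0 hP.ne0, hW0 hQ.ne0, RZ.inv_coe, RZ.inv_coe, finv_pr, finv_pr,
        pr_image (injOn_of_close hsepA hφ1) (injOn_of_close hsepB hψ1) hord,
        Finset.card_image_of_injOn (injOn_of_close hsepA hφ1)]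
      rfl
  · -- AB
    filter_upwards [outA hP hη, outB he he0 hQ hη (M + η + 1) one_pos] with i h1 h2
    obtain ⟨φ, hφ1, hφ2, hφ3⟩ := h1
    obtain ⟨ψ, ν, hψ1, hψ2, hψ3, hν0, hνR, -⟩ := h2
    have hord : ∀ x ∈ A0, ∀ y ∈ B0, (ψ y < φ x ↔ y < x) := fun x hx y hy =>
      lt_iff_of_close (hφ1 x hx) (hψ1 y hy) (hAB hP.ne0 hQ.ne0 x hx y hy)
    have hbA := bdA φ hφ1
    have hbB := bdB ψ hψ1
    refine ⟨hφ3, hψ3, ?_, ?_⟩
    · rintro t ⟨ht1, ht2⟩
      obtain ⟨x, hx, rfl⟩ := (hφ2 t).1 ht1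
      rcases (hψ2 _).1 ht2 with ⟨y, hy, hxy⟩ | hxy
      · have h3 := hAB hP.ne0 hQ.ne0 x hx y hy
        have h4 := abs_lt.1 (hφ1 x hx)
        have h5 := abs_lt.1 (hψ1 y hy)
        rcases le_abs.1 h3 with h6 | h6 <;> linarith [h4.1, h4.2, h5.1, h5.2]
      · have := hbA _ (Finset.mem_image_of_mem φ hx)
        rw [hxy] at this
        linarith
    · rw [imA _ _ _ hφ2, imB _ _ _ _ hψ2, hZ0 hP.ne0, hW0 hQ.ne0, RZ.inv_coe, RZ.inv_coe, finv_pr, finv_pr,
        pr_insert_right (fun h => by have := hbB _ h; linarith) (fun x hx => (hbA x hx).trans hνR),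
        pr_image (injOn_of_close hsepA hφ1) (injOn_of_close hsepB hψ1) hord,
        Finset.card_image_of_injOn (injOn_of_close hsepA hφ1)]
      rfl
  · -- BB
    have hρp := hP.rho
    have hρq := hQ.rho
    have hinv : ρp⁻¹ < ρq⁻¹ := inv_strictAnti₀ hρq hρ
    have hε : 0 < (ρq⁻¹ - ρp⁻¹) / 2 := by linarith
    filter_upwards [he, outB he he0 hP hη (M + η + 1) hε, outB he he0 hQ hη (M + η + 1) hε]
      with i hei h1 h2
    obtain ⟨φ, μ, hφ1, hφ2, hφ3, hμ0, hμR, hμ⟩ := h1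
    obtain ⟨ψ, ν, hψ1, hψ2, hψ3, hν0, hνR, hν⟩ := h2
    have hνμ : ν < μ := by
      have h3 := (abs_lt.1 hμ).2
      have h4 := (abs_lt.1 hν).1
      have h5 : μ⁻¹ / e i < ν⁻¹ / e i := by linarith
      rw [div_lt_div_iff_of_pos_right hei] at h5
      exact (inv_lt_inv₀ hμ0 hν0).1 h5
    have hord : ∀ x ∈ A0, ∀ y ∈ B0, (ψ y < φ x ↔ y < x) := fun x hx y hy =>
      lt_iff_of_close (hφ1 x hx) (hψ1 y hy) (hAB hP.ne0 hQ.ne0 x hx y hy)
    have hbA := bdA φ hφ1
    have hbB := bdB ψ hψ1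
    have hνB : ν ∉ B0.image ψ := fun h => by have := hbB _ h; linarith
    have hμA : μ ∉ A0.image φ := fun h => by have := hbA _ h; linarith
    refine ⟨hφ3, hψ3, ?_, ?_⟩
    · rintro t ⟨ht1, ht2⟩
      rcases (hφ2 t).1 ht1 with ⟨x, hx, rfl⟩ | rfl
      · rcases (hψ2 _).1 ht2 with ⟨y, hy, hxy⟩ | hxy
        · have h3 := hAB hP.ne0 hQ.ne0 x hx y hy
          have h4 := abs_lt.1 (hφ1 x hx)
          have h5 := abs_lt.1 (hψ1 y hy)
          rcases le_abs.1 h3 with h6 | h6 <;> linarith [h4.1, h4.2, h5.1, h5.2]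
        · have := hbA _ (Finset.mem_image_of_mem φ hx)
          rw [hxy] at this
          linarith
      · rcases (hψ2 _).1 ht2 with ⟨y, hy, hxy⟩ | hxy
        · have := hbB _ (Finset.mem_image_of_mem ψ hy)
          rw [hxy] at this
          linarith
        · linarith
    · rw [imB _ _ _ _ hφ2, imB _ _ _ _ hψ2, hZ0 hP.ne0, hW0 hQ.ne0, RZ.inv_coe, RZ.inv_coe, finv_pr, finv_pr,
        pr_insert_left hμA (fun y hy => by
          rcases Finset.mem_insert.1 hy with h | h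
          · rw [h]; exact hνμ
          · exact (hbB y h).trans hμR),
        pr_insert_right hνB (fun x hx => (hbA x hx).trans hνR),
        pr_image (injOn_of_close hsepA hφ1) (injOn_of_close hsepB hψ1) hord,
        Finset.card_insert_of_notMem hμA, Finset.card_insert_of_notMem hνB,
        Finset.card_image_of_injOn (injOn_of_close hsepA hφ1),
        Finset.card_image_of_injOn (injOn_of_close hsepB hψ1)]
      have p1 := parity hP.ne0 hP.simple
      have p2 := parity hQ.ne0 hQ.simple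
      rw [hP.deg0] at p1
      rw [hQ.deg0] at p2
      rw [← hA0] at p1
      rw [← hB0] at p2
      omega

end Pool.Agent.GC18.St
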