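import Pool.Agent.GC18.StZeroA

/-!
# Grassmann convexity, GC_Start block (b): StZero (helper31)
-/

set_option autoImplicit false

namespace Pool.Agent.GC18.St

open Matrix Filter Topology Set

namespace Z31

/-! ### continuity of coefficients -/

section cont
variable {X : Type*} [TopologicalSpace X]

/-- all coefficients are continuous -/
def CC (f : X → Polynomial ℝ) : Prop := ∀ n, Continuous (fun x => (f x).coeff n)

lemma CC.add {f g : X → Polynomial ℝ} (hf : CC f) (hg : CC g) : CC (fun x => f x + g x) := by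
  intro n
  simp only [Polynomial.coeff_add]
  exact (hf n).add (hg n)

lemma CC.mul {f g : X → Polynomial ℝ} (hf : CC f) (hg : CC g) : CC (fun x => f x * g x) := by
  intro n
  simp only [Polynomial.coeff_mul]
  exact continuous_finsetSum _ (fun a _ => (hf _).mul (hg _))

lemma CC.const (p : Polynomial ℝ) : CC (fun _ : X => p) := fun _ => continuous_const

lemma CC.C {f : X → ℝ} (hf : Continuous f) : CC (fun x => Polynomial.C (f x)) := by
  intro n
  simp only [Polynomial.coeff_C]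
  split_ifs
  · exact hf
  · exact continuous_const

lemma CC.sum {ι : Type*} (s : Finset ι) {f : ι → X → Polynomial ℝ} (hf : ∀ i ∈ s, CC (f i)) :
    CC (fun x => ∑ i ∈ s, f i x) := by
  intro n
  simp only [Polynomial.finsetSum_coeff]
  exact continuous_finsetSum _ (fun i hi => hf i hi n)

lemma CC.prod {ι : Type*} (s : Finset ι) {f : ι → X → Polynomial ℝ} (hf : ∀ i ∈ s, CC (f i)) :
    CC (fun x => ∏ i ∈ s, f i x) := by
  classical
  induction s using Finset.induction_on with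
  | empty => simpa using CC.const (X := X) 1
  | insert a s ha ih =>
    simp only [Finset.prod_insert ha]
    exact (hf a (Finset.mem_insert_self _ _)).mul
      (ih (fun b hb => hf b (Finset.mem_insert_of_mem hb)))

lemma CC.RP {n p : ℕ} {V : X → Matrix (Fin n) (Fin p) ℝ}
    (hV : ∀ b s, Continuous (fun x => V x b s)) : CC (fun x => RP (V x)) := by
  simp only [St.RP, Matrix.det_apply']
  refine CC.sum _ (fun σ _ => (CC.const _).mul (CC.prod _ (fun s _ => ?_)))
  simp only [PMat, Matrix.of_apply]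
  exact CC.sum _ (fun b _ => (CC.C (continuous_const.mul (hV b s))).mul (CC.const _))

end cont

/-! ### the filter -/

/-- neighbourhoods of `z0` in the open orthant -/
def lz {k : ℕ} (T : List (Fin k)) (z0 : ℕ → ℝ) : Filter (ℕ → ℝ) where
  sets := {S | ∃ δ > 0, ∀ z : ℕ → ℝ, (∀ q, |z q - z0 q| < δ) → Neg T z → z ∈ S}
  univ_sets := ⟨1, one_pos, fun _ _ _ => mem_univ _⟩
  sets_of_superset := by
    rintro S S' ⟨δ, hδ, h⟩ hSS
    exact ⟨δ, hδ, fun z h1 h2 => hSS (h z h1 h2)⟩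
  inter_sets := by
    rintro S S' ⟨δ, hδ, h⟩ ⟨δ', hδ', h'⟩
    exact ⟨min δ δ', lt_min hδ hδ', fun z h1 h2 =>
      ⟨h z (fun q => (h1 q).trans_le (min_le_left _ _)) h2,
        h' z (fun q => (h1 q).trans_le (min_le_right _ _)) h2⟩⟩

lemma eventually_lz {k : ℕ} {T : List (Fin k)} {z0 : ℕ → ℝ} {p : (ℕ → ℝ) → Prop} :
    (∀ᶠ z in lz T z0, p z) ↔ ∃ δ > 0, ∀ z : ℕ → ℝ, (∀ q, |z q - z0 q| < δ) → Neg T z → p z := Iff.rfl

lemma lz_le {k : ℕ} (T : List (Fin k)) (z0 : ℕ → ℝ) : lz T z0 ≤ 𝓝 z0 := by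
  rw [nhds_pi, Filter.le_pi]
  intro q
  rw [Metric.tendsto_nhds]
  intro ε hε
  rw [eventually_lz]
  exact ⟨ε, hε, fun z h1 _ => by rw [Real.dist_eq]; exact h1 q⟩

/-! ### pivots of the flag -/

/-- pivots in decreasing order -/
def pvN {k : ℕ} (hk : 0 < k) (T : List (Fin k)) (s : ℕ) : ℕ := piv T ⟨k - 1 - s, by omega⟩

lemma pvN_anti {k m : ℕ} (hk : 0 < k) {T : List (Fin k)} (h : Lat m T) :
    ∀ a b, a < b → b < k → pvN hk T b < pvN hk T a := by
  intro a b hab hb
  refine piv_strictMono h ?_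
  rw [Fin.mk_lt_mk]
  omega

lemma pvN_lt {k m : ℕ} (hk : 0 < k) {T : List (Fin k)} (h : Lat m T) (s : ℕ) :
    pvN hk T s < m + k := piv_lt h _

/-- the degree of `W_j` -/
def dJ {k : ℕ} (hk : 0 < k) (T : List (Fin k)) (j : ℕ) : ℕ :=
  (∑ s : Fin j, pvN hk T s) - ∑ s : Fin j, (s : ℕ)

lemma sum_rev_eq (k : ℕ) : ∀ j ≤ k, ∑ s ∈ Finset.range j, (k - 1 - s)
    = j * (k - j) + ∑ s ∈ Finset.range j, s := by
  intro j
  induction j with
  | zero => intro _; simp
  | succ j ih =>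
    intro hj
    rw [Finset.sum_range_succ, Finset.sum_range_succ, ih (by omega)]
    obtain ⟨r, rfl⟩ : ∃ r, k = j + 1 + r := ⟨k - (j + 1), by omega⟩
    have h1 : j + 1 + r - j = r + 1 := by omega
    have h2 : j + 1 + r - 1 - j = r := by omega
    have h3 : j + 1 + r - (j + 1) = r := by omega
    rw [h1, h2, h3]
    ring

/-- number of boxes in the last `j` rows -/
def cnt {k : ℕ} (hk : 0 < k) (T : List (Fin k)) (j : ℕ) : ℕ :=
  ∑ s ∈ Finset.range j, T.count (⟨k - 1 - s, by omega⟩ : Fin k)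

lemma dJ_eq {k : ℕ} (hk : 0 < k) (T : List (Fin k)) {j : ℕ} (hj : j ≤ k) :
    dJ hk T j = cnt hk T j + j * (k - j) := by
  unfold dJ
  rw [Fin.sum_univ_eq_sum_range (fun s => pvN hk T s) j, Fin.sum_univ_eq_sum_range (fun s => s) j]
  have h1 : ∑ s ∈ Finset.range j, pvN hk T s = cnt hk T j + ∑ s ∈ Finset.range j, (k - 1 - s) := by
    unfold cnt pvN piv
    rw [← Finset.sum_add_distrib]
  rw [h1, sum_rev_eq k j hj]
  omega

lemma cnt_eq {k : ℕ} (hk : 0 < k) (T : List (Fin k)) {j : ℕ} (hj : j ≤ k) :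
    cnt hk T j = ∑ c ∈ Finset.univ.filter (fun c : Fin k => k - j ≤ c), T.count c := by
  unfold cnt
  refine Finset.sum_bij (fun s _ => (⟨k - 1 - s, by omega⟩ : Fin k)) ?_ ?_ ?_ ?_
  · intro s hs
    rw [Finset.mem_range] at hs
    simp only [Finset.mem_filter, Finset.mem_univ, true_and]
    omega
  · intro a ha b hb hab
    rw [Finset.mem_range] at ha hb
    have := congrArg Fin.val hab
    simp only at this
    omega
  · intro c hc
    simp only [Finset.mem_filter, Finset.mem_univ, true_and] at hc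
    refine ⟨k - 1 - c, ?_, ?_⟩
    · rw [Finset.mem_range]
      have := c.2
      omega
    · apply Fin.ext
      simp only
      have := c.2
      omega
  · intro s _
    rfl

lemma dJ_full {k : ℕ} (hk : 0 < k) (T : List (Fin k)) : dJ hk T k = T.length := by
  rw [dJ_eq hk T le_rfl, cnt_eq hk T le_rfl, Nat.sub_self, mul_zero, add_zero]
  have h1 : (Finset.univ.filter (fun c : Fin k => 0 ≤ (c : ℕ))) = Finset.univ := by
    ext c; simp
  rw [h1]
  have h2 := sum_piv T
  have h3 : ∑ c, piv T c = (∑ c : Fin k, T.count c) + ∑ c : Fin k, (c : ℕ) := by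
    rw [← Finset.sum_add_distrib]; rfl
  rw [h3] at h2
  omega

lemma cnt_cons {k : ℕ} (hk : 0 < k) (i : Fin k) (T : List (Fin k)) {j : ℕ} (hj : j ≤ k) :
    cnt hk (i :: T) j = cnt hk T j + (if k - 1 - (i : ℕ) < j then 1 else 0) := by
  rw [cnt_eq hk _ hj, cnt_eq hk _ hj]
  have h1 : ∀ c : Fin k, (i :: T).count c = T.count c + (if c = i then 1 else 0) := by
    intro c
    by_cases h : c = i
    · subst h; simp
    · rw [List.count_cons_of_ne (Ne.symm h)]; simp [h]
  simp only [h1, Finset.sum_add_distrib]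
  congr 1
  rw [Finset.sum_ite_eq']
  have := i.2
  have h2 : (i ∈ Finset.univ.filter (fun c : Fin k => k - j ≤ c)) ↔ k - 1 - (i : ℕ) < j := by
    simp only [Finset.mem_filter, Finset.mem_univ, true_and]
    omega
  simp only [h2]

lemma dJ_cons {k : ℕ} (hk : 0 < k) (i : Fin k) (T : List (Fin k)) {j : ℕ} (hj : j ≤ k) :
    dJ hk (i :: T) j = dJ hk T j + (if k - 1 - (i : ℕ) < j then 1 else 0) := by
  rw [dJ_eq hk _ hj, dJ_eq hk _ hj, cnt_cons hk i T hj]
  ring

/-! ### the flag matrices -/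

variable {m k : ℕ} {U : ℕ → Fin k → ℝ}

lemma Yv_below (hk : 0 < k) (hU : Base U) {T : List (Fin k)} (hT : Lat m T) (z : ℕ → ℝ) {j : ℕ}
    (hj : j ≤ k) (b : Fin (m + k)) (s : Fin j) (hb : pvN hk T s < b) :
    Ym (Yv m U T z) j b s = 0 := by
  show ∑ c, XT T z b c * U s c = 0
  refine Finset.sum_eq_zero (fun c _ => ?_)
  by_cases hc : k < (s : ℕ) + (c : ℕ) + 1
  · rw [hU.zero s c hc, mul_zero]
  · have h1 : piv T c ≤ pvN hk T s := by
      refine (piv_strictMono hT).monotone ?_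
      rw [Fin.le_def]
      simp only
      omega
    rw [XT_of_gt hT z (by omega : piv T c < (b : ℕ)), zero_mul]

lemma Yv_pivot (hk : 0 < k) (hU : Base U) {T : List (Fin k)} (hT : Lat m T) (z : ℕ → ℝ) {j : ℕ}
    (hj : j ≤ k) (s : Fin j) :
    Ym (Yv m U T z) j ⟨pvN hk T s, pvN_lt hk hT s⟩ s = pr T z ⟨k - 1 - s, by omega⟩ := by
  show ∑ c, XT T z (pvN hk T s) c * U s c = _
  have hs := s.2
  rw [Finset.sum_eq_single (⟨k - 1 - s, by omega⟩ : Fin k)]
  · rw [hU.one s _ (by simp only; omega), mul_one]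
    exact XT_piv hT z _
  · intro c _ hc
    by_cases hc' : k < (s : ℕ) + (c : ℕ) + 1
    · rw [hU.zero s c hc', mul_zero]
    · have h1 : piv T c < pvN hk T s := by
        refine piv_strictMono hT ?_
        rw [Fin.lt_def]
        simp only
        have h2 : (c : ℕ) ≠ k - 1 - s := fun h => hc (Fin.ext h)
        omega
      rw [XT_of_gt hT z h1, zero_mul]
  · intro h
    exact absurd (Finset.mem_univ _) h

lemma natDegree_W (hk : 0 < k) (hU : Base U) {T : List (Fin k)} (hT : Lat m T) (z : ℕ → ℝ) {j : ℕ}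
    (hj : j ≤ k) : (RP (Ym (Yv m U T z) j)).natDegree ≤ dJ hk T j :=
  RP_natDegree_le (V := Ym (Yv m U T z) j) (β := fun s : Fin j => pvN hk T s)
    (fun b s hb => Yv_below hk hU hT z hj b s hb)

/-- product of the diagonal entries -/
noncomputable def dg (hk : 0 < k) (T : List (Fin k)) (z : ℕ → ℝ) (j : ℕ) : ℝ :=
  ∏ s : Fin j, pr T z ⟨k - 1 - s, by omega⟩

lemma coeff_W (hk : 0 < k) (hU : Base U) {T : List (Fin k)} (hT : Lat m T) (z : ℕ → ℝ) {j : ℕ}
    (hj : j ≤ k) : (RP (Ym (Yv m U T z) j)).coeff (dJ hk T j) = dg hk T z j * cn (pvN hk T) j := by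
  have h := RP_coeff_top (V := Ym (Yv m U T z) j) (β := fun s : Fin j => pvN hk T s)
    (fun b s hb => Yv_below hk hU hT z hj b s hb) (fun s => pvN_lt hk hT s)
  unfold dJ
  rw [h]
  unfold dg cn
  congr 1
  exact Finset.prod_congr rfl (fun s _ => Yv_pivot hk hU hT z hj s)

lemma dg_ne_zero (hk : 0 < k) {T : List (Fin k)} {z : ℕ → ℝ} (h : Neg T z) (j : ℕ) :
    dg hk T z j ≠ 0 :=
  Finset.prod_ne_zero_iff.mpr (fun _ _ => pr_ne_zero T h.ne_zero _)

lemma dg_cons (hk : 0 < k) (i : Fin k) (T : List (Fin k)) (z : ℕ → ℝ) {j : ℕ} (hj : j ≤ k)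
    (hij : k - 1 - (i : ℕ) < j) : dg hk (i :: T) z j = z T.length * dg hk T z j := by
  unfold dg
  have h1 : ∀ s : Fin j, pr (i :: T) z ⟨k - 1 - s, by omega⟩
      = (if s = (⟨k - 1 - i, hij⟩ : Fin j) then z T.length else 1) * pr T z ⟨k - 1 - s, by omega⟩ := by
    intro s
    have hs := s.2
    have hi := i.2
    have h2 : ((⟨k - 1 - s, by omega⟩ : Fin k) = i) ↔ s = (⟨k - 1 - i, hij⟩ : Fin j) := by
      rw [Fin.ext_iff, Fin.ext_iff]
      simp only
      omega
    simp only [pr, h2]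
    split_ifs <;> simp
  rw [Finset.prod_congr rfl (fun s _ => h1 s), Finset.prod_mul_distrib, Finset.prod_ite_eq']
  simp

lemma continuous_dg (hk : 0 < k) (T : List (Fin k)) (j : ℕ) : Continuous (fun z => dg hk T z j) := by
  unfold dg
  refine continuous_finsetProd _ (fun s _ => ?_)
  generalize (⟨k - 1 - (s : ℕ), _⟩ : Fin k) = c
  induction T with
  | nil => exact continuous_const
  | cons i T ih =>
    simp only [pr]
    split_ifs
    · exact (continuous_apply _).mul ih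
    · exact ih

/-! ### the families `W_j` -/

lemma tendsto_coeff (i : Fin k) (T : List (Fin k)) (z0 : ℕ → ℝ) (h0 : z0 T.length = 0) (j n : ℕ) :
    Tendsto (fun z => (RP (Ym (Yv m U (i :: T) z) j)).coeff n) (lz (i :: T) z0)
      (𝓝 ((RP (Ym (Yv m U T z0) j)).coeff n)) := by
  have hc : CC (fun z : ℕ → ℝ => RP (Ym (Yv m U (i :: T) z) j)) := by
    refine CC.RP (fun b s => ?_)
    show Continuous (fun z : ℕ → ℝ => ∑ c, XT (i :: T) z b c * U s c)
    exact continuous_finsetSum _ (fun c _ => (continuous_XT _ _ _).mul continuous_const)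
  have h1 : Ym (Yv m U (i :: T) z0) j = Ym (Yv m U T z0) j := by
    ext b s
    show ∑ c, XT (i :: T) z0 b c * U s c = ∑ c, XT T z0 b c * U s c
    refine Finset.sum_congr rfl fun c _ => ?_
    rw [XT_cons_zero i T h0]
  have h2 := ((hc n).tendsto z0).mono_left (lz_le (i :: T) z0)
  simp only [h1] at h2
  exact h2

lemma coeff_W_ne (hk : 0 < k) (hU : Base U) {T : List (Fin k)} (hT : Lat m T) {z : ℕ → ℝ} (hz : Neg T z)
    {j : ℕ} (hj : j ≤ k) : (RP (Ym (Yv m U T z) j)).coeff (dJ hk T j) ≠ 0 := by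
  rw [coeff_W hk hU hT z hj]
  exact mul_ne_zero (dg_ne_zero hk hz j)
    (cn_ne_zero _ _ (fun a b hab hb => pvN_anti hk hT a b hab (by omega)))

lemma natDegree_W_eq (hk : 0 < k) (hU : Base U) {T : List (Fin k)} (hT : Lat m T) {z : ℕ → ℝ}
    (hz : Neg T z) {j : ℕ} (hj : j ≤ k) : (RP (Ym (Yv m U T z) j)).natDegree = dJ hk T j :=
  le_antisymm (natDegree_W hk hU hT z hj)
    (Polynomial.le_natDegree_of_ne_zero (coeff_W_ne hk hU hT hz hj))

lemma W_ne_zero (hk : 0 < k) (hU : Base U) {T : List (Fin k)} (hT : Lat m T) {z : ℕ → ℝ}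
    (hz : Neg T z) {j : ℕ} (hj : j ≤ k) : RP (Ym (Yv m U T z) j) ≠ 0 := by
  intro h
  apply coeff_W_ne hk hU hT hz hj
  rw [h, Polynomial.coeff_zero]

lemma W_simple {T : List (Fin k)} {z : ℕ → ℝ} (h : GoodT m U T z) {j : ℕ} (hj : j ≤ k) (t : ℝ)
    (h0 : (RP (Ym (Yv m U T z) j)).eval t = 0) :
    (Polynomial.derivative (RP (Ym (Yv m U T z) j))).eval t ≠ 0 := by
  rw [← deriv_DR_eq]
  rw [RP_eval] at h0
  exact goodT_simple h hj t h0

/-- type A -/
lemma typA (hk : 0 < k) (hU : Base U) {i : Fin k} {T : List (Fin k)} (hT : Lat m (i :: T))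
    {z0 : ℕ → ℝ} (hz0 : Neg T z0) (hg : GoodT m U T z0) {j : ℕ} (hj : j ≤ k)
    (hij : ¬ (k - 1 - (i : ℕ) < j)) :
    TypA (lz (i :: T) z0) (fun z => RP (Ym (Yv m U (i :: T) z) j)) (RP (Ym (Yv m U T z0) j))
      (dJ hk T j) where
  ne0 := W_ne_zero hk hU hT.tail hz0 hj
  deg0 := natDegree_W_eq hk hU hT.tail hz0 hj
  deg z := by
    have h1 := natDegree_W hk hU hT z hj
    rwa [dJ_cons hk i T hj, if_neg hij, add_zero] at h1
  lim n := tendsto_coeff i T z0 (hz0.2 _ le_rfl) j n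
  simple t h0 := W_simple hg hj t h0

/-- the constants `ρ_j` -/
noncomputable def rh (hk : 0 < k) (i : Fin k) (T : List (Fin k)) (j : ℕ) : ℝ :=
  cn (pvN hk T) j / cn (pvN hk (i :: T)) j

lemma rh_main (hk : 0 < k) {i : Fin k} {T : List (Fin k)} (hT : Lat m (i :: T)) :
    (∀ j, k - 1 - (i : ℕ) < j → j ≤ k → 0 < rh hk i T j) ∧
    (∀ j, k - 1 - (i : ℕ) < j → j + 1 ≤ k → rh hk i T (j + 1) < rh hk i T j) := by
  have hi := i.2
  refine rho_main (pvN hk T) (pvN hk (i :: T)) k (k - 1 - i) (by omega) (pvN_anti hk hT.tail)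
    (pvN_anti hk hT) ?_ ?_
  · have h1 : (⟨k - 1 - (k - 1 - (i : ℕ)), by omega⟩ : Fin k) = i := by
      apply Fin.ext
      simp only
      omega
    unfold pvN
    rw [h1]
    exact piv_cons_self i T
  · intro s hsk hs
    unfold pvN
    refine piv_cons_ne (fun h => hs ?_) T
    have h2 := congrArg Fin.val h
    simp only at h2
    omega

/-- type B -/
lemma typB (hk : 0 < k) (hU : Base U) {i : Fin k} {T : List (Fin k)} (hT : Lat m (i :: T))
    {z0 : ℕ → ℝ} (hz0 : Neg T z0) (hg : GoodT m U T z0) {j : ℕ} (hj : j ≤ k)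
    (hij : k - 1 - (i : ℕ) < j) :
    TypB (lz (i :: T) z0) (fun z => - z T.length) (fun z => RP (Ym (Yv m U (i :: T) z) j))
      (RP (Ym (Yv m U T z0) j)) (dJ hk T j) (rh hk i T j) where
  ne0 := W_ne_zero hk hU hT.tail hz0 hj
  deg0 := natDegree_W_eq hk hU hT.tail hz0 hj
  deg z := by
    have h1 := natDegree_W hk hU hT z hj
    rwa [dJ_cons hk i T hj, if_pos hij] at h1
  lim n := tendsto_coeff i T z0 (hz0.2 _ le_rfl) j n
  simple t h0 := W_simple hg hj t h0
  rho := (rh_main hk hT).1 j hij hj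
  top := by
    have hev : ∀ᶠ z in lz (i :: T) z0, - (dg hk T z j * cn (pvN hk (i :: T)) j)
        = (RP (Ym (Yv m U (i :: T) z) j)).coeff (dJ hk T j + 1) / - z T.length := by
      rw [eventually_lz]
      refine ⟨1, one_pos, fun z _ hz => ?_⟩
      have h1 := coeff_W hk hU hT z hj
      rw [dJ_cons hk i T hj, if_pos hij, dg_cons hk i T z hj hij] at h1
      have h2 : z T.length ≠ 0 := hz.ne_zero _ (by simp)
      rw [h1]
      field_simp
    refine Tendsto.congr' hev ?_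
    have h3 : -((RP (Ym (Yv m U T z0) j)).coeff (dJ hk T j)) / rh hk i T j
        = - (dg hk T z0 j * cn (pvN hk (i :: T)) j) := by
      rw [coeff_W hk hU hT.tail z0 hj, rh]
      have h4 : cn (pvN hk T) j ≠ 0 :=
        cn_ne_zero _ _ (fun a b hab hb => pvN_anti hk hT.tail a b hab (by omega))
      have h5 : cn (pvN hk (i :: T)) j ≠ 0 :=
        cn_ne_zero _ _ (fun a b hab hb => pvN_anti hk hT a b hab (by omega))
      field_simp
    rw [h3]
    exact ((((continuous_dg hk T j).mul continuous_const).neg).tendsto z0).mono_left (lz_le _ _)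

/-- the exponents -/
def xj (hk : 0 < k) (i : Fin k) (T : List (Fin k)) (j : ℕ) : ℕ :=
  if k - 1 - (i : ℕ) < j then dJ hk T j + dJ hk T (j + 1) + 1 else 0

lemma sum_alt (d : ℕ → ℕ) (a : ℕ) : ∀ n, (∑ j ∈ Finset.range n, (d (a + j) + d (a + j + 1) + 1)) % 2
    = (d a + d (a + n) + n) % 2 := by
  intro n
  induction n with
  | zero => simp; omega
  | succ n ih =>
    rw [Finset.sum_range_succ]
    have h1 : a + (n + 1) = a + n + 1 := by ring
    rw [h1]
    omega

lemma sum_xj (hk : 0 < k) (i : Fin k) (T : List (Fin k)) :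
    (∑ j ∈ Finset.Ioo 0 k, xj hk i T j) % 2 = ((i : ℕ) +
      ∑ c ∈ Finset.univ.filter (fun c => i ≤ c), T.count c + (k - i) * i + T.length) % 2 := by
  have hi := i.2
  have h1 : ∑ j ∈ Finset.Ioo 0 k, xj hk i T j = ∑ j ∈ Finset.Ico (k - i) k, (dJ hk T j + dJ hk T (j + 1) + 1) := by
    unfold xj
    rw [← Finset.sum_filter]
    refine Finset.sum_congr ?_ (fun _ _ => rfl)
    ext j
    simp only [Finset.mem_filter, Finset.mem_Ioo, Finset.mem_Ico]
    omega
  have h2 : k - (k - (i : ℕ)) = i := by omega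
  rw [h1, Finset.sum_Ico_eq_sum_range, h2, sum_alt, dJ_eq hk T (by omega : k - (i : ℕ) ≤ k), h2,
    cnt_eq hk T (by omega : k - (i : ℕ) ≤ k), h2]
  have h3 : k - (i : ℕ) + i = k := by omega
  rw [h3, dJ_full]
  have h4 : (Finset.univ.filter (fun c : Fin k => (i : ℕ) ≤ (c : ℕ))) = Finset.univ.filter (fun c : Fin k => i ≤ c) :=
    Finset.filter_congr (fun c _ => Fin.le_def.symm)
  rw [h4]
  congr 1
  ring

lemma Zs_eq {n : ℕ} (Y : ℕ → Fin n → ℝ) (j : ℕ) : Zs one1 Y j = Zr (RP (Ym Y j)) := by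
  ext t
  simp only [Zs, Zr, mem_setOf_eq, RP_eval]

lemma sum_mod {s : Finset ℕ} {f g h : ℕ → ℕ} (hf : ∀ j ∈ s, f j % 2 = (g j + h j) % 2) :
    (∑ j ∈ s, f j) % 2 = (∑ j ∈ s, g j + ∑ j ∈ s, h j) % 2 := by
  rw [← Finset.sum_add_distrib, Finset.sum_nat_mod, Finset.sum_nat_mod s 2 (fun j => g j + h j)]
  congr 1
  exact Finset.sum_congr rfl hf

end Z31

open Z31 in
theorem StZero (hS : S_StPair) : S_StZero := by
  intro m k i T hT U hU z0 hz0 hg
  have hk : 0 < k := lt_of_le_of_lt (Nat.zero_le _) i.2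
  have he : ∀ᶠ z in lz (i :: T) z0, 0 < - z T.length := by
    rw [eventually_lz]
    refine ⟨1, one_pos, fun z _ hz => ?_⟩
    have := hz.1 T.length (by simp)
    linarith
  have he0 : Tendsto (fun z : ℕ → ℝ => - z T.length) (lz (i :: T) z0) (𝓝 0) := by
    have h0 : Continuous (fun z : ℕ → ℝ => - z T.length) := (continuous_apply T.length).neg
    have h1 := (h0.tendsto z0).mono_left (lz_le (i :: T) z0)
    simp only [hz0.2 _ le_rfl, neg_zero] at h1
    exact h1
  have hpair : ∀ j ∈ Finset.range k, ∀ᶠ z in lz (i :: T) z0,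
      PairOK (RP (Ym (Yv m U (i :: T) z) j)) (RP (Ym (Yv m U (i :: T) z) (j + 1)))
        (RP (Ym (Yv m U T z0) j)) (RP (Ym (Yv m U T z0) (j + 1))) (xj hk i T j) := by
    intro j hj
    rw [Finset.mem_range] at hj
    have hnc : ∀ t, ¬ ((RP (Ym (Yv m U T z0) j)).eval t = 0 ∧ (RP (Ym (Yv m U T z0) (j + 1))).eval t = 0) := by
      intro t
      rw [RP_eval, RP_eval]
      rcases Nat.eq_zero_or_pos j with h0 | h0
      · subst h0
        rintro ⟨h1, -⟩
        rw [DR_Ym_zero] at h1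
        exact one_ne_zero h1
      · exact hg.nocommon j h0 hj t
    have h := hS (ℕ → ℝ) (lz (i :: T) z0) (fun z => - z T.length) he he0
      (fun z => RP (Ym (Yv m U (i :: T) z) j)) (fun z => RP (Ym (Yv m U (i :: T) z) (j + 1)))
      (RP (Ym (Yv m U T z0) j)) (RP (Ym (Yv m U T z0) (j + 1))) (dJ hk T j) (dJ hk T (j + 1))
      (rh hk i T j) (rh hk i T (j + 1)) hnc
    unfold xj
    by_cases h1 : k - 1 - (i : ℕ) < j
    · rw [if_pos h1]
      exact h.2.2 (typB hk hU hT hz0 hg hj.le h1) (typB hk hU hT hz0 hg hj (by omega))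
        ((rh_main hk hT).2 j h1 hj)
    · rw [if_neg h1]
      by_cases h2 : k - 1 - (i : ℕ) < j + 1
      · exact h.2.1 (typA hk hU hT hz0 hg hj.le h1) (typB hk hU hT hz0 hg hj h2)
      · exact h.1 (typA hk hU hT hz0 hg hj.le h1) (typA hk hU hT hz0 hg hj h2)
  have hall := (Filter.eventually_all_finset (Finset.range k)).mpr hpair
  rw [eventually_lz] at hall
  obtain ⟨δ, hδ, hall⟩ := hall
  refine ⟨δ, hδ, fun z hz hzN => ?_⟩
  have hP := hall z hz hzN
  refine ⟨⟨fun j h0 hjk t => ?_, fun t ht => ?_⟩, ?_⟩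
  · have := (hP j (Finset.mem_range.mpr hjk)).2.2.1 t
    rwa [RP_eval, RP_eval] at this
  · obtain ⟨q, rfl⟩ : ∃ q, k = q + 1 := ⟨k - 1, by omega⟩
    rw [deriv_DR_eq]
    refine (hP q (Finset.mem_range.mpr (Nat.lt_succ_self q))).2.1 t ?_
    rwa [RP_eval]
  · unfold Ex
    rw [sum_mod (s := Finset.Ioo 0 k) (g := fun j => inv (Zs one1 (Yv m U T z0) j) (Zs one1 (Yv m U T z0) (j + 1)))
      (h := fun j => xj hk i T j), Nat.add_mod, sum_xj hk i T, ← Nat.add_mod]
    intro j hj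
    rw [Finset.mem_Ioo] at hj
    simp only [Zs_eq]
    exact (hP j (Finset.mem_range.mpr hj.2)).2.2.2

end Pool.Agent.GC18.St
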