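import Pool.Agent.GC18.StAsm2
import Pool.Agent.GC18.StBase
import Pool.Agent.GC18.StCell
import Pool.Agent.GC18.StIFT
import Pool.Agent.GC18.StZero
import Pool.Agent.GC18.StPair

/-!
# GC_Start: final assembly   (helper19)
-/

set_option autoImplicit false

namespace Pool.Agent.GC18.St

open Matrix Filter Topology Set

/-- anti-triangular matrices -/
lemma det_ne_zero_of_anti {j : ℕ} (A : Matrix (Fin j) (Fin j) ℝ)
    (h0 : ∀ b s : Fin j, j < (b : ℕ) + s + 1 → A b s = 0)
    (h1 : ∀ b s : Fin j, (b : ℕ) + s + 1 = j → A b s ≠ 0) : A.det ≠ 0 := by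
  intro hdet
  have h2 : (A.submatrix id (Fin.revPerm : Equiv.Perm (Fin j))).det = 0 := by
    rw [Matrix.det_permute', hdet, mul_zero]
  rw [Matrix.det_of_isUpperTriangular] at h2
  · rw [Finset.prod_eq_zero_iff] at h2
    obtain ⟨i, -, hi⟩ := h2
    refine h1 i (Fin.rev i) ?_ (by simpa using hi)
    rw [Fin.val_rev]
    have := i.2
    omega
  · intro b s hbs
    have h3 : (s : ℕ) < b := hbs
    simp only [Matrix.submatrix_apply, id]
    refine h0 b _ ?_
    rw [Fin.revPerm_apply, Fin.val_rev]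
    have := s.2
    omega

lemma span_cols_mul {n k : ℕ} (B : Matrix (Fin n) (Fin k) ℝ) (M : Matrix (Fin k) (Fin k) ℝ) (hM : M.det ≠ 0) :
    Submodule.span ℝ (range (B * M).col) = Submodule.span ℝ (range B.col) := by
  rw [← Matrix.range_mulVecLin, ← Matrix.range_mulVecLin, Matrix.mulVecLin_mul, LinearMap.range_comp]
  have : LinearMap.range M.mulVecLin = ⊤ := by
    rw [LinearMap.range_eq_top]
    intro v
    refine ⟨M⁻¹ *ᵥ v, ?_⟩
    rw [Matrix.mulVecLin_apply, Matrix.mulVec_mulVec,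
      Matrix.mul_nonsing_inv _ (isUnit_iff_ne_zero.2 hM), Matrix.one_mulVec]
  rw [this, ← LinearMap.range_eq_map]

lemma det_Ym_base {k : ℕ} {U : ℕ → Fin k → ℝ} (hU : Base U) : (Ym U k).det ≠ 0 := by
  refine det_ne_zero_of_anti _ (fun b s h => ?_) (fun b s h => ?_)
  · exact hU.zero s b (by omega)
  · have : Ym U k b s = 1 := hU.one s b (by omega)
    rw [this]
    exact one_ne_zero

lemma Ym_Yv {k : ℕ} (m : ℕ) (U : ℕ → Fin k → ℝ) (T : List (Fin k)) (z : ℕ → ℝ) (j : ℕ) :
    Ym (Yv m U T z) j = XM m T z * Ym U j := by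
  ext a s
  simp [Ym, Yv, XM, Matrix.mul_apply]

lemma top_full {k m : ℕ} {U : ℕ → Fin k → ℝ} (hU : Base U) {T : List (Fin k)} (hT : Lat m T)
    (hl : T.length = m * k) {z : ℕ → ℝ} (hz : Neg T z) {j : ℕ} (hj : j ≤ k) :
    ¬ VanInf 1 (Ym (Yv m U T z) j) := by
  have hpiv : ∀ c, piv T c = m + c := fun c => by
    show T.count c + c = m + c
    rw [hT.count_eq hl c]
  have hjm : j ≤ m + k := by omega
  rw [not_vanInf_last_iff hjm]
  refine det_ne_zero_of_anti _ (fun b s h => ?_) (fun b s h => ?_)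
  · simp only [Matrix.submatrix_apply, id, Ym, Matrix.of_apply, Yv, lastI]
    refine Finset.sum_eq_zero fun c _ => ?_
    by_cases hc : k < (s : ℕ) + c + 1
    · rw [hU.zero s c hc, mul_zero]
    · rw [XT_of_gt hT z (by rw [hpiv]; omega), zero_mul]
  · simp only [Matrix.submatrix_apply, id, Ym, Matrix.of_apply, Yv, lastI]
    have hs := s.2
    rw [Finset.sum_eq_single (⟨k - 1 - s, by omega⟩ : Fin k)]
    · rw [hU.one s _ (by simp only; omega), mul_one]
      have e : m + k - j + (b : ℕ) = piv T ⟨k - 1 - s, by omega⟩ := by rw [hpiv]; simp only; omega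
      rw [e, XT_piv hT]
      exact pr_ne_zero T hz.ne_zero _
    · intro c _ hc
      have hc' : (c : ℕ) ≠ k - 1 - s := fun h => hc (Fin.ext h)
      by_cases hc2 : k < (s : ℕ) + c + 1
      · rw [hU.zero s c hc2, mul_zero]
      · rw [XT_of_gt hT z (by rw [hpiv]; omega), zero_mul]
    · intro h
      exact absurd (Finset.mem_univ _) h

lemma span_Yv {k m : ℕ} {U : ℕ → Fin k → ℝ} (hU : Base U) {T : List (Fin k)} {z : ℕ → ℝ}
    {x : Fin (m * k) → ℝ} {C : Matrix (Fin k) (Fin k) ℝ} (hC : C.det ≠ 0) (hX : XM m T z = Xinf x * C) :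
    Submodule.span ℝ (Yv m U T z '' Iio k) =
      Submodule.span ℝ (range (fun (c : Fin k) i => Xinf x i c)) := by
  have h1 : Yv m U T z '' Iio k = range (Ym (Yv m U T z) k).col := by
    ext v
    constructor
    · rintro ⟨s, hs, rfl⟩
      exact ⟨⟨s, hs⟩, rfl⟩
    · rintro ⟨s, rfl⟩
      exact ⟨s, s.2, rfl⟩
  have h2 : (fun (c : Fin k) i => Xinf x i c) = (Xinf x).col := rfl
  rw [h1, h2, Ym_Yv, hX, Matrix.mul_assoc, span_cols_mul]
  rw [Matrix.det_mul]
  exact mul_ne_zero hC (det_Ym_base hU)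

lemma sign_cast (y : ℝ) : ((SignType.sign y : ℤ) : ℝ) = ((SignType.sign y : SignType) : ℝ) := by
  cases SignType.sign y <;> simp

lemma neg_one_pow_mod {a b : ℕ} (h : a % 2 = b % 2) : ((-1 : ℤ)) ^ a = (-1) ^ b := by
  rw [neg_one_pow_eq_pow_mod_two, h, ← neg_one_pow_eq_pow_mod_two]

theorem Start (hB : S_StBase) (hZ : S_StZero) (hI : S_StIFT) (hJ : S_StJ) (hW : S_StWords)
    (hC : S_StCell) : S_Start := by
  intro m k hm hk
  obtain ⟨U, hU, hg⟩ := hB m k hk
  obtain ⟨t, zf, hts, hP, hD⟩ := ind hZ hI hC hU hg (m * k)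
  obtain ⟨c, hc, hJ'⟩ := hJ m k hm hk
  obtain ⟨L, hL, hcard⟩ := hW m k
  set E0 : ℕ := Ex m U ([] : List (Fin k)) (fun _ => 0) with hE0
  set S0 : ℕ := ∑ q ∈ Finset.range (m * k), q with hS0
  set C1 : ℕ := S0 + ∑ c : Fin k, (∑ s ∈ Finset.range m, s + m * ((c : ℕ) + (k - c) * c)) with hC1
  have hcx : ∀ T : List (Fin k), Lat m T → T.length = m * k → cx T = C1 := by
    intro T hT hl
    unfold cx
    rw [hl, hC1, hS0]
    congr 1
    refine Finset.sum_congr rfl fun c _ => ?_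
    rw [hT.count_eq hl c]
  -- the charts
  have hx : ∀ T : List (Fin k), ∃ (x : Fin (m * k) → ℝ) (C : Matrix (Fin k) (Fin k) ℝ), T ∈ L →
      C.det ≠ 0 ∧ XM m T (zf T) = Xinf x * C ∧ JJ (Gt one1 m k (fun p => t p)) x ≠ 0 ∧
      (SignType.sign (JJ (Gt one1 m k (fun p => t p)) x) : ℤ) =
        c * (-1) ^ invT T * SignType.sign (Jz m T t (zf T)) := by
    intro T
    by_cases hT : T ∈ L
    · obtain ⟨hl, hlat⟩ := (hL T).1 hT
      have hpt := hP T hlat hl
      obtain ⟨x, C, h⟩ := hJ' T hlat hl t (zf T) hpt.neg hpt.eqn hpt.jac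
      exact ⟨x, C, fun _ => h⟩
    · exact ⟨0, 0, fun h => absurd h hT⟩
  choose xf Cf hxf using hx
  refine ⟨c * (-1) ^ (E0 + C1 + S0), ?_, fun p => t p, ?_, ?_⟩
  · rcases hc with rfl | rfl <;> rcases neg_one_pow_eq_or ℤ (E0 + C1 + S0) with h | h <;> rw [h] <;> simp
  · intro p q hpq
    exact hts p q hpq q.2
  · classical
    refine ⟨L.image xf, ?_, ?_⟩
    · rw [Finset.card_image_of_injOn, hcard]
      intro T hT T' hT' he
      by_contra hne
      obtain ⟨hl, hlat⟩ := (hL T).1 hT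
      obtain ⟨hl', hlat'⟩ := (hL T').1 hT'
      obtain ⟨I, I', hII⟩ := hD T T' hlat hlat' hl hl' hne
      obtain ⟨-, h1, -⟩ := hxf T hT
      obtain ⟨-, h2, -⟩ := hxf T' hT'
      apply hII
      rw [h1, h2, he]
      simp only [det_submatrix_mul_right]
      ring
    · intro x hx
      rw [Finset.mem_image] at hx
      obtain ⟨T, hT, rfl⟩ := hx
      obtain ⟨hl, hlat⟩ := (hL T).1 hT
      have hpt := hP T hlat hl
      obtain ⟨h1, h2, h3, h4⟩ := hxf T hT
      refine ⟨?_, h3, Yv m U T (zf T), ⟨?_, ?_, ?_⟩, span_Yv hU h1 h2, ?_⟩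
      · funext q
        have h5 := hpt.eqn q (by rw [hl]; exact q.2)
        rw [h2, DR_mul_right] at h5
        exact (mul_eq_zero.1 h5).resolve_right h1
      · intro j hj
        exact top_full hU hlat hl hpt.neg hj
      · exact hpt.good.nocommon
      · exact hpt.good.simple
      · have h5 : epsF one1 k (Yv m U T (zf T)) = (-1) ^ (Ex m U T (zf T)) := rfl
        rw [← sign_cast, h4, h5, hpt.sgn, hl]
        have h6 := hpt.par
        rw [hcx T hlat hl] at h6
        have h7 : (-1 : ℤ) ^ (Ex m U T (zf T)) * (-1) ^ invT T = (-1) ^ (E0 + C1) := by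
          rw [← pow_add]
          exact neg_one_pow_mod h6
        have h8 : (-1 : ℤ) ^ (Ex m U T (zf T)) * (c * (-1) ^ invT T * (-1) ^ S0) =
            c * (-1) ^ (E0 + C1 + S0) := by
          rw [pow_add (-1 : ℤ) (E0 + C1) S0, ← h7]
          ring
        rw [← h8]
        push_cast
        ring

end Pool.Agent.GC18.St

namespace Pool.Agent.GC18

/-- GC_Start from the remaining block (d) -/
theorem Start (hJ : St.S_StJ) : S_Start :=
  St.Start St.StBase (St.StZero St.StPair) St.StIFT hJ St.StWords St.StCell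

end Pool.Agent.GC18
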