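import Pool.Agent.GC18.Alg
import Pool.Agent.GC18.Stmts

/-!
# Grassmann convexity (MP_5fea31_an): order lemma, RICH, G(0)   (helper18)
-/

set_option autoImplicit false

namespace Pool.Agent.GC18

open Matrix Filter Topology Set

/-! ## local behaviour of the transition functions -/

/-- leading coefficients of the transition functions at the base point -/
noncomputable def kap (v : ℕ → ℝ → ℝ) (a : ℝ) (i j : ℕ) : ℝ :=
  if i ≤ j then (∏ l ∈ Finset.range j, v l a) / (∏ l ∈ Finset.range i, v l a) / (j - i).factorial else 0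

lemma tendsto_gda {v : ℕ → ℝ → ℝ} {T : ℝ} (hv : Wt v T) (a : ℝ) (d i : ℕ) :
    Tendsto (fun t => gda v a d i t / (t - a) ^ d) (𝓝[≠] a)
      (𝓝 ((∏ l ∈ Finset.range d, v (i + l) a) / d.factorial)) := by
  induction d generalizing i with
  | zero => simp [gda]
  | succ d ih =>
    have h1 : ∀ t, HasDerivAt (gda v a (d + 1) i) (v i t * gda v a d (i + 1) t) t := hasDerivAt_gda hv a d i
    have h2 : ∀ t, HasDerivAt (fun t => (t - a) ^ (d + 1)) (((d + 1 : ℕ) : ℝ) * (t - a) ^ d) t := by
      intro t
      have := ((hasDerivAt_id' t).sub_const a).fun_pow (d + 1)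
      simpa using this
    refine HasDerivAt.lhopital_zero_nhdsNE (Eventually.of_forall h1) (Eventually.of_forall h2) ?_ ?_ ?_ ?_
    · filter_upwards [self_mem_nhdsWithin] with t ht
      have : t - a ≠ 0 := sub_ne_zero.2 ht
      positivity
    · have : gda v a (d + 1) i a = 0 := by simp [gda]
      have h3 := (h1 a).continuousAt.tendsto
      rw [this] at h3
      exact h3.mono_left nhdsWithin_le_nhds
    · have h3 := (h2 a).continuousAt.tendsto
      simp only [sub_self, ne_eq, Nat.succ_ne_zero, not_false_eq_true, zero_pow] at h3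
      exact h3.mono_left nhdsWithin_le_nhds
    · have h3 : Tendsto (fun t => v i t / ((d + 1 : ℕ) : ℝ) * (gda v a d (i + 1) t / (t - a) ^ d)) (𝓝[≠] a)
          (𝓝 (v i a / ((d + 1 : ℕ) : ℝ) * ((∏ l ∈ Finset.range d, v (i + 1 + l) a) / d.factorial))) := by
        refine Tendsto.mul ?_ (ih (i + 1))
        exact ((hv.smooth i).continuous.continuousAt.tendsto.mono_left nhdsWithin_le_nhds).div_const _
      have e : v i a / ((d + 1 : ℕ) : ℝ) * ((∏ l ∈ Finset.range d, v (i + 1 + l) a) / d.factorial) =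
          (∏ l ∈ Finset.range (d + 1), v (i + l) a) / (d + 1).factorial := by
        rw [Finset.prod_range_succ', Nat.factorial_succ]
        have : ∀ l, v (i + 1 + l) a = v (i + (l + 1)) a := fun l => by congr 1; ring
        simp only [this, add_zero]
        push_cast
        field_simp
      rw [← e]
      refine h3.congr' ?_
      filter_upwards with t
      rw [mul_div_mul_comm]

lemma prod_pos_v {v : ℕ → ℝ → ℝ} {T : ℝ} (hv : Wt v T) (a : ℝ) (i : ℕ) :
    0 < ∏ l ∈ Finset.range i, v l a := Finset.prod_pos fun l _ => hv.pos l a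

/-- `(t-a)^i g_{ij}(t) / (t-a)^j → κ_{ij}` for ALL `i, j` -/
lemma tendsto_gea {v : ℕ → ℝ → ℝ} {T : ℝ} (hv : Wt v T) (a : ℝ) (i j : ℕ) :
    Tendsto (fun t => (t - a) ^ i * gea v a i j t / (t - a) ^ j) (𝓝[≠] a) (𝓝 (kap v a i j)) := by
  unfold kap gea
  by_cases h : i ≤ j
  · simp only [h, if_true]
    obtain ⟨d, rfl⟩ := Nat.exists_eq_add_of_le h
    have e0 : i + d - i = d := by omega
    rw [e0]
    have h1 := tendsto_gda hv a d i
    have e : (∏ l ∈ Finset.range (i + d), v l a) / (∏ l ∈ Finset.range i, v l a) / (d.factorial : ℝ) =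
        (∏ l ∈ Finset.range d, v (i + l) a) / d.factorial := by
      rw [Finset.prod_range_add]
      have := (prod_pos_v hv a i).ne'
      field_simp
    rw [e]
    refine h1.congr' ?_
    filter_upwards [self_mem_nhdsWithin] with t ht
    have : t - a ≠ 0 := sub_ne_zero.2 ht
    rw [pow_add]
    field_simp
  · simp only [h, if_false, mul_zero, zero_div]
    exact tendsto_const_nhds

/-- the matrix `(κ_{i, a_c})` is invertible for distinct `a_c` -/
lemma det_kap_ne {v : ℕ → ℝ → ℝ} {T : ℝ} (hv : Wt v T) (a : ℝ) {k : ℕ} (A : Fin k → ℕ)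
    (hA : Function.Injective A) : (Matrix.of fun i c : Fin k => kap v a i (A c)).det ≠ 0 := by
  have h1 : (Matrix.of fun i c : Fin k => kap v a i (A c)) =
      Matrix.of fun i c : Fin k => (∏ l ∈ Finset.range i, v l a)⁻¹ *
        (Matrix.of fun i c : Fin k => ((∏ l ∈ Finset.range (A c), v l a) / (A c).factorial) *
          (Matrix.of fun i c : Fin k => ((A c).descFactorial i : ℝ)) i c) i c := by
    ext i c
    simp only [Matrix.of_apply, kap]
    split_ifs with h
    · have h2 := Nat.factorial_mul_descFactorial h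
      have h3 : ((A c - i).factorial : ℝ) * ((A c).descFactorial i : ℝ) = ((A c).factorial : ℝ) := by
        exact_mod_cast h2
      have h4 : ((A c - i).factorial : ℝ) ≠ 0 := by positivity
      have h5 : ((A c).factorial : ℝ) ≠ 0 := by positivity
      have h6 := (prod_pos_v hv a i).ne'
      field_simp
      rw [← h3]; ring
    · have : (A c).descFactorial i = 0 := Nat.descFactorial_eq_zero_iff_lt.2 (not_le.1 h)
      rw [this]; simp
  rw [h1, Matrix.det_mul_column, Matrix.det_mul_row]
  refine mul_ne_zero ?_ (mul_ne_zero ?_ ?_)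
  · exact Finset.prod_ne_zero_iff.2 fun i _ => inv_ne_zero (prod_pos_v hv a i).ne'
  · refine Finset.prod_ne_zero_iff.2 fun c _ => div_ne_zero (prod_pos_v hv a _).ne' (by positivity)
  · have h2 : (Matrix.of fun i c : Fin k => ((A c).descFactorial i : ℝ)) =
        (Matrix.of fun c i : Fin k => Polynomial.eval ((A c : ℕ) : ℝ) (descPochhammer ℝ i)).transpose := by
      ext i c
      simp [descPochhammer_eval_eq_descFactorial]
    rw [h2, Matrix.det_transpose, ← Matrix.det_eval_matrixOfPolynomials_eq_det_vandermonde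
      (fun c => ((A c : ℕ) : ℝ)) (fun i : Fin k => descPochhammer ℝ i)
      (fun i => descPochhammer_natDegree ℝ i) (fun i => monic_descPochhammer ℝ i)]
    rw [Matrix.det_vandermonde_ne_zero_iff]
    intro c c' h
    exact hA (by simpa using h)

/-! ## functions vanishing to high order -/

lemma VanAt.isBigO {F : Type*} [NormedAddCommGroup F] [NormedSpace ℝ F] {a : ℝ} (q : ℕ) :
    ∀ {f : ℝ → F}, ContDiff ℝ (⊤ : ℕ∞) f → VanAt f q a →
    f =O[𝓝 a] fun t => (t - a) ^ q := by
  induction q with
  | zero =>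
    intro f hf _
    simp only [pow_zero]
    exact hf.continuous.continuousAt.norm.isBoundedUnder_le.isBigO_one ℝ
  | succ q ih =>
    intro f hf hv
    have hf' : ContDiff ℝ (⊤ : ℕ∞) (deriv f) := ((contDiff_infty_iff_deriv).1 hf).2
    have hd : Differentiable ℝ f := ((contDiff_infty_iff_deriv).1 hf).1
    have h1 : VanAt (deriv f) q a := by
      intro j hj
      rw [← iteratedDeriv_succ']
      exact hv (j + 1) (by omega)
    have h2 := ih hf' h1
    have h3 : f a = 0 := by simpa using hv 0 (by omega)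
    obtain ⟨C, hC⟩ := h2.bound
    rw [Metric.eventually_nhds_iff] at hC
    obtain ⟨ε, hε, hC⟩ := hC
    refine Asymptotics.IsBigO.of_bound C ?_
    filter_upwards [Metric.ball_mem_nhds a hε] with t ht
    have h4 : ∀ u ∈ Metric.closedBall a ‖t - a‖, ‖deriv f u‖ ≤ C * ‖t - a‖ ^ q := by
      intro u hu
      have hu1 : dist u a ≤ ‖t - a‖ := hu
      have hu2 : dist u a < ε := lt_of_le_of_lt hu1 (by rw [← dist_eq_norm]; exact ht)
      have hC0 := hC hu2
      have hCt := hC (show dist t a < ε from ht)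
      refine hC0.trans ?_
      rw [norm_pow]
      have hCnn : 0 ≤ C ∨ u = a := by
        by_cases hua : u = a
        · right; exact hua
        · left
          by_contra hneg
          push Not at hneg
          have : 0 < ‖u - a‖ := norm_pos_iff.2 (sub_ne_zero.2 hua)
          have h5 : C * ‖(u - a) ^ q‖ < 0 := by
            rw [norm_pow]; exact mul_neg_of_neg_of_pos hneg (by positivity)
          exact absurd ((norm_nonneg _).trans hC0) (not_le.2 h5)
      rcases hCnn with h | h
      · rw [dist_eq_norm] at hu1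
        exact mul_le_mul_of_nonneg_left (pow_le_pow_left₀ (norm_nonneg _) hu1 q) h
      · subst h
        by_cases hta : t = u
        · subst hta; exact le_rfl
        · have : 0 < ‖t - u‖ := norm_pos_iff.2 (sub_ne_zero.2 hta)
          have hC1 : 0 ≤ C := by
            by_contra hneg
            push Not at hneg
            have h5 : C * ‖(t - u) ^ q‖ < 0 := by
              rw [norm_pow]; exact mul_neg_of_neg_of_pos hneg (by positivity)
            exact absurd ((norm_nonneg _).trans hCt) (not_le.2 h5)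
          exact mul_le_mul_of_nonneg_left (pow_le_pow_left₀ (norm_nonneg _) (by simp) q) hC1
    have h5 := Convex.norm_image_sub_le_of_norm_deriv_le (𝕜 := ℝ) (f := f)
      (s := Metric.closedBall a ‖t - a‖) (x := a) (y := t) (fun x _ => hd x) h4
      (convex_closedBall _ _) (by simp) (by simp [dist_eq_norm])
    rw [h3, sub_zero] at h5
    rw [norm_pow, pow_succ, ← mul_assoc]
    exact h5

/-! ## the order lemma -/

/-- order lemma: in echelon form at `a`, order + Σ i ≤ Σ a_c -/
lemma order_le {v : ℕ → ℝ → ℝ} {T : ℝ} (hv : Wt v T) {n k : ℕ} (X : Matrix (Fin n) (Fin k) ℂ)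
    (hX : Full X) (a : ℝ) (q : ℕ) (hq : VanAt (DC v X) q a) :
    ∃ I : Fin k → Fin n, ((toC (Gam v n n a) * X).submatrix I id).det ≠ 0 ∧
      q + ∑ i : Fin k, (i : ℕ) ≤ ∑ c, (I c : ℕ) := by
  have hG : (toC (Gam v n n a)).det ≠ 0 := by
    rw [toC_det]
    have : (Gam v n n a).det = 1 := by
      rw [Matrix.det_of_isUpperTriangular]
      · simp [Gam]
      · intro i j hij
        exact ge_of_lt v hij a
    rw [this]; simp
  obtain ⟨I, C, hinj, hC, hI, hId, hlow⟩ := exists_echelon_top (hX.mul_left hG)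
  refine ⟨I, hI, ?_⟩
  by_contra hlt
  push Not at hlt
  set Y := toC (Gam v n n a) * X with hY
  -- the scaled matrix
  let M : ℝ → Matrix (Fin k) (Fin k) ℂ := fun t => Matrix.of fun i c =>
    ∑ j : Fin n, (((t - a) ^ (i : ℕ) * gea v a i j t / (t - a) ^ (I c : ℕ) : ℝ) : ℂ) * (Y * C) j c
  have hM : Tendsto M (𝓝[≠] a) (𝓝 (Matrix.of fun i c : Fin k => ((kap v a i (I c) : ℝ) : ℂ))) := by
    refine tendsto_pi_nhds.2 fun i => tendsto_pi_nhds.2 fun c => ?_
    simp only [M, Matrix.of_apply]
    have hsum : ((kap v a i (I c) : ℝ) : ℂ) = ∑ j : Fin n, if j = I c then ((kap v a i (I c) : ℝ) : ℂ) else 0 := by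
      simp
    rw [hsum]
    refine tendsto_finsetSum _ fun j _ => ?_
    rcases lt_trichotomy j (I c) with hj | hj | hj
    · rw [hlow j c hj, if_neg hj.ne]
      simp only [mul_zero]; exact tendsto_const_nhds
    · subst hj
      rw [hId, if_pos rfl, if_pos rfl]
      simp only [mul_one]
      exact (Complex.continuous_ofReal.tendsto _).comp (tendsto_gea hv a i _)
    · rw [if_neg hj.ne']
      have h1 : Tendsto (fun t => (t - a) ^ (i : ℕ) * gea v a i j t / (t - a) ^ (I c : ℕ)) (𝓝[≠] a) (𝓝 0) := by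
        have h2 := (tendsto_gea hv a i j)
        have h3 : Tendsto (fun t : ℝ => (t - a) ^ ((j : ℕ) - I c)) (𝓝[≠] a) (𝓝 0) := by
          have : Tendsto (fun t : ℝ => (t - a) ^ ((j : ℕ) - I c)) (𝓝 a) (𝓝 ((a - a) ^ ((j : ℕ) - I c))) :=
            (by fun_prop : Continuous fun t : ℝ => (t - a) ^ ((j : ℕ) - I c)).tendsto a
          rw [sub_self, zero_pow] at this
          · exact this.mono_left nhdsWithin_le_nhds
          · have : (I c : ℕ) < j := hj
            omega
        have h4 := h2.mul h3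
        rw [mul_zero] at h4
        refine h4.congr' ?_
        filter_upwards [self_mem_nhdsWithin] with t ht
        have hta : t - a ≠ 0 := sub_ne_zero.2 ht
        have hle : (I c : ℕ) ≤ j := le_of_lt hj
        have e : (t - a) ^ (j : ℕ) = (t - a) ^ (I c : ℕ) * (t - a) ^ ((j : ℕ) - I c) := by
          rw [← pow_add]; congr 1; omega
        rw [e]
        field_simp
      have h5 := (Complex.continuous_ofReal.tendsto _).comp h1
      have h6 := h5.mul_const ((Y * C) j c)
      simpa using h6
  have hdet : Tendsto (fun t => (M t).det) (𝓝[≠] a)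
      (𝓝 (Matrix.of fun i c : Fin k => ((kap v a i (I c) : ℝ) : ℂ)).det) :=
    (Continuous.matrix_det continuous_id).continuousAt.tendsto.comp hM
  have hne : (Matrix.of fun i c : Fin k => ((kap v a i (I c) : ℝ) : ℂ)).det ≠ 0 := by
    have h1 := det_kap_ne hv a (fun c => (I c : ℕ)) (fun c c' h => hinj (Fin.ext h))
    have h2 : (Matrix.of fun i c : Fin k => ((kap v a i (I c) : ℝ) : ℂ)) =
        toC (Matrix.of fun i c : Fin k => kap v a i (I c)) := rfl
    rw [h2, toC_det]
    exact_mod_cast h1
  -- the determinant of `M t`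
  have hMdet : ∀ t ≠ a, (M t).det = ((t - a : ℝ) : ℂ) ^ (∑ i : Fin k, (i : ℕ)) *
      (DC v X t * C.det) / ((t - a : ℝ) : ℂ) ^ (∑ c, (I c : ℕ)) := by
    intro t ht
    have hta : ((t - a : ℝ) : ℂ) ≠ 0 := by exact_mod_cast sub_ne_zero.2 ht
    have h1 : M t = Matrix.of fun (i c : Fin k) => ((t - a : ℝ) : ℂ) ^ (i : ℕ) *
        (Matrix.of fun (i c : Fin k) => (((t - a : ℝ) : ℂ) ^ (I c : ℕ))⁻¹ * (toC (Gam v k n t) * X * C) i c) i c := by
      ext i c
      have e1 : toC (Gam v k n t) * X * C = toC (Matrix.of fun (i : Fin k) (l : Fin n) => gea v a i l t) * (Y * C) := by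
        rw [hY, ← Matrix.mul_assoc, ← Matrix.mul_assoc, ← toC_mul, ← Gam_cocycle hv k n a t]
      rw [e1]
      simp only [M, Matrix.of_apply]
      rw [Matrix.mul_apply, Finset.mul_sum, Finset.mul_sum]
      refine Finset.sum_congr rfl fun j _ => ?_
      simp only [toC, Matrix.map_apply, Matrix.of_apply]
      push_cast
      field_simp
    rw [h1, Matrix.det_mul_column, Matrix.det_mul_row, Matrix.det_mul]
    rw [Finset.prod_inv_distrib, Finset.prod_pow_eq_pow_sum, Finset.prod_pow_eq_pow_sum]
    rw [DC]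
    ring
  -- the bound
  have hO := VanAt.isBigO q (contDiff_DC hv X) hq
  have hlim : Tendsto (fun t => (M t).det) (𝓝[≠] a) (𝓝 0) := by
    obtain ⟨K, hK⟩ := hO.bound
    have hK' : ∀ᶠ t in 𝓝[≠] a, ‖(M t).det‖ ≤ |K| * ‖C.det‖ * |t - a| := by
      have hnear : ∀ᶠ t in 𝓝[≠] a, |t - a| ≤ 1 := by
        have : Metric.closedBall a 1 ∈ 𝓝 a := Metric.closedBall_mem_nhds a one_pos
        filter_upwards [mem_nhdsWithin_of_mem_nhds this] with t ht
        simpa [Real.dist_eq] using ht
      filter_upwards [nhdsWithin_le_nhds hK, self_mem_nhdsWithin, hnear] with t hKt hta h1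
      rw [hMdet t hta]
      have htp : 0 < |t - a| := abs_pos.2 (sub_ne_zero.2 hta)
      have hn : ‖((t - a : ℝ) : ℂ)‖ = |t - a| := by rw [Complex.norm_real, Real.norm_eq_abs]
      rw [norm_div, norm_mul, norm_mul, norm_pow, norm_pow, hn, div_le_iff₀ (by positivity)]
      have hKt' : ‖DC v X t‖ ≤ |K| * |t - a| ^ q := by
        refine hKt.trans ?_
        rw [norm_pow, Real.norm_eq_abs]
        exact mul_le_mul_of_nonneg_right (le_abs_self K) (by positivity)
      have e : |t - a| ^ (∑ i : Fin k, (i : ℕ)) * (‖DC v X t‖ * ‖C.det‖) ≤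
          |t - a| ^ (∑ i : Fin k, (i : ℕ)) * ((|K| * |t - a| ^ q) * ‖C.det‖) := by
        gcongr
      refine e.trans ?_
      have e2 : |t - a| ^ (∑ i : Fin k, (i : ℕ)) * |t - a| ^ q ≤ |t - a| * |t - a| ^ (∑ c, (I c : ℕ)) := by
        rw [← pow_add, ← pow_succ']
        exact pow_le_pow_of_le_one htp.le h1 (by omega)
      calc |t - a| ^ (∑ i : Fin k, (i : ℕ)) * ((|K| * |t - a| ^ q) * ‖C.det‖)
          = |K| * ‖C.det‖ * (|t - a| ^ (∑ i : Fin k, (i : ℕ)) * |t - a| ^ q) := by ring
        _ ≤ |K| * ‖C.det‖ * (|t - a| * |t - a| ^ (∑ c, (I c : ℕ))) := by gcongr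
        _ = _ := by ring
    refine squeeze_zero_norm' hK' ?_
    have : Tendsto (fun t => |K| * ‖C.det‖ * |t - a|) (𝓝 a) (𝓝 (|K| * ‖C.det‖ * |a - a|)) :=
      (by fun_prop : Continuous fun t : ℝ => |K| * ‖C.det‖ * |t - a|).tendsto a
    simp only [sub_self, abs_zero, mul_zero] at this
    exact this.mono_left nhdsWithin_le_nhds
  exact hne (tendsto_nhds_unique hdet hlim)

lemma Gam_lower (v : ℕ → ℝ → ℝ) (n : ℕ) (a : ℝ) {i j : Fin n} (h : j < i) :
    toC (Gam v n n a) i j = 0 := by
  simp only [toC, Matrix.map_apply, Gam, Matrix.of_apply]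
  rw [ge_of_lt v h]; simp

theorem Rich : S_Rich := by
  intro v T hv m k X hX r hr a q hq
  obtain ⟨I, hI, hle⟩ := order_le hv X hX a q hq
  have h1 : VanInf r (toC (Gam v (m + k) (m + k) a) * X) :=
    VanInf_mul_upper hr _ fun i j h => Gam_lower v (m + k) a h
  by_contra hcon
  push Not at hcon
  apply hI
  apply h1
  have e : ∑ i : Fin k, (m + k - k + (i : ℕ)) = m * k + ∑ i : Fin k, (i : ℕ) := by
    rw [Finset.sum_add_distrib]
    simp [mul_comm]
  rw [e]
  omega

end Pool.Agent.GC18
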