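import Pool.Agent.GC18.Deriv
import Pool.Agent.GC18.Rich
import Pool.Agent.GC18.Assemble

/-!
# Grassmann convexity (MP_5fea31_an): Theorem T (par. 6)   (helper18)
-/

set_option autoImplicit false

namespace Pool.Agent.GC18

open Matrix Filter Topology Set

/-- boundedness of the solutions (par. 6) -/
def S_Bdd : Prop := ∀ (w : ℕ → ℝ → ℝ) (T : ℝ), Wt w T → ∀ (m k : ℕ) (s : ℕ → ℝ) (s0 : ℝ),
  (∀ j, s j ∈ Icc (0 : ℝ) 1) → Tendsto s atTop (𝓝 s0) → GProp (om w s0) m k →
  ∀ (t : ℕ → Fin (m * k) → ℝ) (t0 : Fin (m * k) → ℝ), Tendsto t atTop (𝓝 t0) → Function.Injective t0 →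
  ∀ x : ℕ → Fin (m * k) → ℂ, (∀ j i, DC (om w (s j)) (Xinf (x j)) (t j i) = 0) → ∃ C : ℝ, ∀ j, ‖x j‖ ≤ C

/-! ### simplicity of the zeros -/

lemma deriv_DC_toC {v : ℕ → ℝ → ℝ} {T : ℝ} (hv : Wt v T) {n p : ℕ} (X : Matrix (Fin n) (Fin p) ℝ) (t : ℝ) :
    deriv (DC v (toC X)) t = ((deriv (DR v X) t : ℝ) : ℂ) := by
  have h1 : DC v (toC X) = fun t => ((DR v X t : ℝ) : ℂ) := funext fun t => DC_toC v X t
  have hd : HasDerivAt (DR v X) (deriv (DR v X) t) t :=
    ((contDiff_DR hv X).differentiable (by simp) t).hasDerivAt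
  rw [h1]
  exact hd.ofReal_comp.deriv

lemma simple_of_GProp {v : ℕ → ℝ → ℝ} {T : ℝ} (hv : Wt v T) {m k : ℕ} (hG : GProp v m k)
    {t : Fin (m * k) → ℝ} (ht : Function.Injective t) {x : Fin (m * k) → ℝ}
    (hx : FF (Gt v m k t) x = 0) (a : ℝ) (ha : DR v (Xinf x : Matrix (Fin (m + k)) (Fin k) ℝ) a = 0) :
    deriv (DR v (Xinf x : Matrix (Fin (m + k)) (Fin k) ℝ)) a ≠ 0 := by
  classical
  intro hd
  have hx' : ∀ i, DR v (Xinf x : Matrix (Fin (m + k)) (Fin k) ℝ) (t i) = 0 := fun i => congrFun hx i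
  have h := hG (toC (Xinf x)) (by rw [toC_Xinf]; exact Full_Xinf _) 0 (VanInf_zero _)
    (insert a (Finset.univ.image t)) (fun b => if b = a then 2 else 1) (by
      intro b hb j hj
      by_cases hba : b = a
      · subst hba
        simp only [if_true] at hj
        interval_cases j
        · rw [iteratedDeriv_zero, DC_toC, ha]; simp
        · rw [iteratedDeriv_one, deriv_DC_toC hv, hd]; simp
      · rw [if_neg hba] at hj
        have hj0 : j = 0 := by omega
        subst hj0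
        rw [Finset.mem_insert] at hb
        rcases hb with hb | hb
        · exact absurd hb hba
        · obtain ⟨i, -, rfl⟩ := Finset.mem_image.1 hb
          rw [iteratedDeriv_zero, DC_toC, hx' i]; simp)
  have h2 : ∑ b ∈ insert a (Finset.univ.image t), (if b = a then 2 else 1) =
      (insert a (Finset.univ.image t)).card + 1 := by
    rw [← Finset.add_sum_erase _ _ (Finset.mem_insert_self a _)]
    have : ∑ b ∈ (insert a (Finset.univ.image t)).erase a, (if b = a then 2 else 1) =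
        ∑ b ∈ (insert a (Finset.univ.image t)).erase a, 1 :=
      Finset.sum_congr rfl fun b hb => by rw [if_neg (Finset.ne_of_mem_erase hb)]
    rw [this, Finset.sum_const, smul_eq_mul, mul_one, Finset.card_erase_of_mem (Finset.mem_insert_self a _)]
    have : 0 < (insert a (Finset.univ.image t)).card := Finset.card_pos.2 ⟨a, Finset.mem_insert_self a _⟩
    simp only [if_true]
    omega
  have h3 : m * k ≤ (insert a (Finset.univ.image t)).card := by
    calc m * k = (Finset.univ.image t).card := by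
          rw [Finset.card_image_of_injective _ ht]; simp
      _ ≤ _ := Finset.card_le_card (Finset.subset_insert _ _)
  omega

/-! ### the property that is propagated -/

/-- `d` real simple solutions with the same twisted sign -/
def Pst (w : ℕ → ℝ → ℝ) (m k : ℕ) (ep : ℝ → (Fin (m * k) → ℝ) → ℤ) (c0 : ℤ)
    (p : ℝ × (Fin (m * k) → ℝ)) : Prop :=
  ∃ Sol : Finset (Fin (m * k) → ℝ), Sol.card = dd m k ∧ ∀ x ∈ Sol,
    FF (Gt (om w p.1) m k p.2) x = 0 ∧ JJ (Gt (om w p.1) m k p.2) x ≠ 0 ∧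
      (ep p.1 x : ℝ) * SignType.sign (JJ (Gt (om w p.1) m k p.2) x) = c0

lemma continuous_Gt {w : ℕ → ℝ → ℝ} {T : ℝ} (hw : Wt w T) (m k : ℕ) :
    Continuous (fun p : ℝ × (Fin (m * k) → ℝ) => Gt (om w p.1) m k p.2) := by
  refine continuous_pi fun i => continuous_matrix fun a b => ?_
  simp only [Gt, Gam, Matrix.of_apply]
  exact (contDiff_ge_om hw a b).continuous.comp
    (continuous_fst.prodMk ((continuous_apply i).comp continuous_snd))

/-- the Jacobian as a function of the parameters and the point -/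
noncomputable def Jf (w : ℕ → ℝ → ℝ) (m k : ℕ) (z : (ℝ × (Fin (m * k) → ℝ)) × (Fin (m * k) → ℝ)) : ℝ :=
  JJ (Gt (om w z.1.1) m k z.1.2) z.2

/-- the system as a function of the parameters and the point -/
noncomputable def Ff (w : ℕ → ℝ → ℝ) (m k : ℕ) (z : (ℝ × (Fin (m * k) → ℝ)) × (Fin (m * k) → ℝ)) :
    Fin (m * k) → ℝ := FF (Gt (om w z.1.1) m k z.1.2) z.2

lemma continuous_GtP {w : ℕ → ℝ → ℝ} {T : ℝ} (hw : Wt w T) (m k : ℕ) :
    Continuous (fun z : (ℝ × (Fin (m * k) → ℝ)) × (Fin (m * k) → ℝ) => (Gt (om w z.1.1) m k z.1.2, z.2)) :=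
  ((continuous_Gt hw m k).comp continuous_fst).prodMk continuous_snd

lemma continuous_Jf {w : ℕ → ℝ → ℝ} {T : ℝ} (hw : Wt w T) (m k : ℕ) : Continuous (Jf w m k) :=
  Continuous.comp (g := fun p : (Fin (m * k) → Matrix (Fin k) (Fin (m + k)) ℝ) × (Fin (m * k) → ℝ) => JJ p.1 p.2)
    (f := fun z : (ℝ × (Fin (m * k) → ℝ)) × (Fin (m * k) → ℝ) => (Gt (om w z.1.1) m k z.1.2, z.2))
    continuous_JJ (continuous_GtP hw m k)

lemma continuous_Ff {w : ℕ → ℝ → ℝ} {T : ℝ} (hw : Wt w T) (m k : ℕ) : Continuous (Ff w m k) :=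
  Continuous.comp (g := fun p : (Fin (m * k) → Matrix (Fin k) (Fin (m + k)) ℝ) × (Fin (m * k) → ℝ) => FF p.1 p.2)
    (f := fun z : (ℝ × (Fin (m * k) → ℝ)) × (Fin (m * k) → ℝ) => (Gt (om w z.1.1) m k z.1.2, z.2))
    continuous_FF (continuous_GtP hw m k)

lemma continuous_toC {a b : Type*} : Continuous (fun M : Matrix a b ℝ => toC M) := by
  refine continuous_matrix fun i j => ?_
  exact Complex.continuous_ofReal.comp (continuous_apply_apply i j)

/-- the local constancy property of the sign -/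
def EpLoc (w : ℕ → ℝ → ℝ) (m k : ℕ) (ep : ℝ → (Fin (m * k) → ℝ) → ℤ) : Prop :=
  ∀ s0 ∈ Icc (0 : ℝ) 1, ∀ x0 : Fin (m * k) → ℝ,
    (∀ t, DR (om w s0) (Xinf x0 : Matrix (Fin (m + k)) (Fin k) ℝ) t = 0 →
      deriv (DR (om w s0) (Xinf x0 : Matrix (Fin (m + k)) (Fin k) ℝ)) t ≠ 0) →
    ∀ᶠ p : ℝ × (Fin (m * k) → ℝ) in 𝓝[(Icc (0 : ℝ) 1) ×ˢ univ] (s0, x0), ep p.1 p.2 = ep s0 x0

lemma eventually_prod_nhdsWithin {s0 : ℝ} {N : ℕ} {x0 : Fin N → ℝ} {P : ℝ × (Fin N → ℝ) → Prop}
    (h : ∀ᶠ p in 𝓝[(Icc (0 : ℝ) 1) ×ˢ univ] (s0, x0), P p) :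
    ∃ A ∈ 𝓝 s0, ∃ B ∈ 𝓝 x0, ∀ s ∈ A, s ∈ Icc (0 : ℝ) 1 → ∀ x ∈ B, P (s, x) := by
  rw [eventually_nhdsWithin_iff, nhds_prod_eq, Filter.eventually_prod_iff] at h
  obtain ⟨pa, hpa, pb, hpb, hab⟩ := h
  exact ⟨{s | pa s}, hpa, {x | pb x}, hpb, fun s hs hs1 x hx => hab hs hx ⟨hs1, mem_univ _⟩⟩

lemma eventually_prod_nhds {α β : Type*} [TopologicalSpace α] [TopologicalSpace β] {a : α} {b : β}
    {P : α × β → Prop} (h : ∀ᶠ p in 𝓝 (a, b), P p) :
    ∃ A ∈ 𝓝 a, ∃ B ∈ 𝓝 b, ∀ s ∈ A, ∀ x ∈ B, P (s, x) := by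
  rw [nhds_prod_eq, Filter.eventually_prod_iff] at h
  obtain ⟨pa, hpa, pb, hpb, hab⟩ := h
  exact ⟨{s | pa s}, hpa, {x | pb x}, hpb, fun s hs x hx => hab hs hx⟩

lemma eventually_sign_eq {α : Type*} [TopologicalSpace α] {f : α → ℝ} {a : α} (hf : ContinuousAt f a)
    (h : f a ≠ 0) : ∀ᶠ x in 𝓝 a, SignType.sign (f x) = SignType.sign (f a) := by
  rcases lt_or_gt_of_ne h with h1 | h1
  · have := hf.eventually (gt_mem_nhds h1)
    filter_upwards [this] with x hx
    rw [sign_neg hx, sign_neg h1]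
  · have := hf.eventually (lt_mem_nhds h1)
    filter_upwards [this] with x hx
    rw [sign_pos hx, sign_pos h1]

/-- the parameter space -/
def KK (s0 : ℝ) (N : ℕ) : Set (ℝ × (Fin N → ℝ)) := {p | p.1 ∈ Icc (0 : ℝ) s0 ∧ StrictMono p.2}

lemma convex_KK (s0 : ℝ) (N : ℕ) : Convex ℝ (KK s0 N) := by
  intro p hp q hq a b ha hb hab
  refine ⟨?_, ?_⟩
  · exact (convex_Icc (0 : ℝ) s0) hp.1 hq.1 ha hb hab
  · intro i j hij
    have h1 := hp.2 hij
    have h2 := hq.2 hij
    show a * p.2 i + b * q.2 i < a * p.2 j + b * q.2 j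
    rcases ha.eq_or_lt with h | h
    · subst h
      have : b = 1 := by linarith
      subst this; linarith
    · have := mul_lt_mul_of_pos_left h1 h
      have := mul_le_mul_of_nonneg_left h2.le hb
      linarith

theorem P_open {w : ℕ → ℝ → ℝ} {T : ℝ} (hw : Wt w T) {m k : ℕ} {ep : ℝ → (Fin (m * k) → ℝ) → ℤ}
    {c0 : ℤ} (hloc : EpLoc w m k ep) {s0 : ℝ} (hs0 : s0 ≤ 1) {p : ℝ × (Fin (m * k) → ℝ)}
    (hp : p ∈ KK s0 (m * k)) (hG : GProp (om w p.1) m k) (hP : Pst w m k ep c0 p) :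
    ∀ᶠ q in 𝓝[KK s0 (m * k)] p, Pst w m k ep c0 q := by
  classical
  obtain ⟨Sol, hcard, hSol⟩ := hP
  have hp1 : p.1 ∈ Icc (0 : ℝ) 1 := ⟨hp.1.1, hp.1.2.trans hs0⟩
  obtain ⟨U, hU, hdisj⟩ := Set.Finite.t2_separation (Sol.finite_toSet)
  -- one solution
  have key : ∀ x ∈ Sol, ∀ᶠ q in 𝓝[KK s0 (m * k)] p, ∃ y ∈ U x,
      FF (Gt (om w q.1) m k q.2) y = 0 ∧ JJ (Gt (om w q.1) m k q.2) y ≠ 0 ∧
      (ep q.1 y : ℝ) * SignType.sign (JJ (Gt (om w q.1) m k q.2) y) = c0 := by
    intro x hx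
    obtain ⟨h0, hJ, hs⟩ := hSol x hx
    have hsimple := fun t => simple_of_GProp (wt_om hw hp1) hG hp.2.injective h0 t
    obtain ⟨A, hA, B, hB, hAB⟩ := eventually_prod_nhdsWithin (hloc p.1 hp1 x hsimple)
    -- the sign of J
    have hsgev : ∀ᶠ z in 𝓝 (p, x), SignType.sign (Jf w m k z) = SignType.sign (Jf w m k (p, x)) :=
      eventually_sign_eq (continuous_Jf hw m k).continuousAt hJ
    obtain ⟨A2, hA2, B2, hB2, hAB2⟩ := eventually_prod_nhds hsgev
    have hmem : U x ∩ (B ∩ B2) ∈ 𝓝 x := inter_mem ((hU x).2.mem_nhds (hU x).1) (inter_mem hB hB2)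
    have h1 := persist_simple (Gt (om w p.1) m k p.2) x h0 hJ hmem
    have h2 : ∀ᶠ q in 𝓝 p, ∃ y ∈ U x ∩ (B ∩ B2), FF (Gt (om w q.1) m k q.2) y = 0 :=
      (continuous_Gt hw m k).continuousAt.eventually h1
    have hA' : ∀ᶠ q in 𝓝 p, q.1 ∈ A := continuous_fst.continuousAt.eventually hA
    filter_upwards [nhdsWithin_le_nhds h2, nhdsWithin_le_nhds hA', nhdsWithin_le_nhds hA2,
      self_mem_nhdsWithin] with q ⟨y, ⟨hyU, hyB, hyB2⟩, hy0⟩ hqA hqA2 hqK
    have hsg : SignType.sign (JJ (Gt (om w q.1) m k q.2) y) = SignType.sign (JJ (Gt (om w p.1) m k p.2) x) :=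
      hAB2 q hqA2 y hyB2
    refine ⟨y, hyU, hy0, ?_, ?_⟩
    · intro h
      rw [h, sign_zero] at hsg
      exact hJ (sign_eq_zero_iff.1 hsg.symm)
    · have he : ep q.1 y = ep p.1 x := hAB q.1 hqA ⟨hqK.1.1, hqK.1.2.trans hs0⟩ y hyB
      rw [hsg, he]; exact hs
  have key2 : ∀ᶠ q in 𝓝[KK s0 (m * k)] p, ∀ x ∈ Sol, ∃ y ∈ U x,
      FF (Gt (om w q.1) m k q.2) y = 0 ∧ JJ (Gt (om w q.1) m k q.2) y ≠ 0 ∧
      (ep q.1 y : ℝ) * SignType.sign (JJ (Gt (om w q.1) m k q.2) y) = c0 :=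
    (Filter.eventually_all_finset Sol).2 key
  filter_upwards [key2] with q hq
  choose! f hfU hf using hq
  refine ⟨Sol.image f, ?_, ?_⟩
  · rw [Finset.card_image_of_injOn, hcard]
    intro x hx y hy hxy
    by_contra hne
    have := hdisj hx hy hne
    exact Set.disjoint_left.1 this (hfU x hx) (hxy ▸ hfU y hy)
  · intro y hy
    obtain ⟨x, hx, rfl⟩ := Finset.mem_image.1 hy
    exact hf x hx

/-! ### closedness -/

lemma zeros_finite (hFin : S_FinAlg) {w : ℕ → ℝ → ℝ} {T : ℝ} (hw : Wt w T) (hBdd : S_Bdd) {m k : ℕ}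
    {s : ℝ} (hs : s ∈ Icc (0 : ℝ) 1) (hG : GProp (om w s) m k) {t : Fin (m * k) → ℝ}
    (ht : Function.Injective t) :
    {x : Fin (m * k) → ℂ | FF (fun i => toC (Gt (om w s) m k t i)) x = 0}.Finite := by
  classical
  -- the polynomials
  let P1 : Fin (m * k) → Matrix (Fin k) (Fin (m + k)) (MvPolynomial (Fin (m * k)) ℂ) := fun i =>
    (toC (Gt (om w s) m k t i)).map (MvPolynomial.C (σ := Fin (m * k)) (R := ℂ))
  let P2 : Matrix (Fin (m + k)) (Fin k) (MvPolynomial (Fin (m * k)) ℂ) :=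
    Matrix.of fun (a : Fin (m + k)) (c : Fin k) => Fin.addCases
        (motive := fun _ => MvPolynomial (Fin (m * k)) ℂ) (fun a : Fin m => MvPolynomial.X (finProdFinEquiv (a, c)))
        (fun b : Fin k => if b = c then 1 else 0) a
  let p : Fin (m * k) → MvPolynomial (Fin (m * k)) ℂ := fun i => Matrix.det (P1 i * P2)
  have hp : ∀ x i, MvPolynomial.eval x (p i) = FF (fun i => toC (Gt (om w s) m k t i)) x i := by
    intro x i
    have h1 : (MvPolynomial.eval x) (Matrix.det (P1 i * P2)) =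
        ((P1 i).map (MvPolynomial.eval x) * P2.map (MvPolynomial.eval x)).det := by
      rw [RingHom.map_det, RingHom.mapMatrix_apply, Matrix.map_mul]
    have h2 : (P1 i).map (MvPolynomial.eval x) = toC (Gt (om w s) m k t i) := by
      ext a b; simp [P1]
    have h3 : P2.map (MvPolynomial.eval x) = Xinf x := by
      ext a c
      induction a using Fin.addCases with
      | left a => simp [Xinf, P2]
      | right b =>
        simp only [Matrix.map_apply, Matrix.of_apply, Xinf, Fin.addCases_right, P2]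
        split_ifs <;> simp
    show (MvPolynomial.eval x) (Matrix.det (P1 i * P2)) = _
    rw [h1, h2, h3]
    rfl
  have hset : {x : Fin (m * k) → ℂ | FF (fun i => toC (Gt (om w s) m k t i)) x = 0} =
      {x : Fin (m * k) → ℂ | ∀ i, MvPolynomial.eval x (p i) = 0} := by
    ext x
    simp only [Set.mem_ofPred_eq, hp]
    exact ⟨fun h i => congrFun h i, fun h => funext h⟩
  rw [hset]
  refine hFin (m * k) (Fin (m * k)) p ?_
  rw [← hset]
  by_contra hnb
  have : ∀ j : ℕ, ∃ x : Fin (m * k) → ℂ, FF (fun i => toC (Gt (om w s) m k t i)) x = 0 ∧ (j : ℝ) < ‖x‖ := by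
    intro j
    by_contra hcon
    push Not at hcon
    apply hnb
    rw [isBounded_iff_forall_norm_le]
    exact ⟨j, fun x hx => hcon x hx⟩
  choose x hx0 hx1 using this
  obtain ⟨C, hC⟩ := hBdd w T hw m k (fun _ => s) s (fun _ => hs) tendsto_const_nhds hG (fun _ => t) t
    tendsto_const_nhds ht x (fun j i => congrFun (hx0 j) i)
  obtain ⟨j, hj⟩ := exists_nat_gt C
  linarith [hC j, hx1 j]

lemma norm_ofReal_pi {N : ℕ} (x y : Fin N → ℝ) :
    ‖(fun i => (x i : ℂ)) - (fun i => (y i : ℂ))‖ = ‖x - y‖ := by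
  have : ((fun i => (x i : ℂ)) - (fun i => (y i : ℂ))) = fun i => (((x - y) i : ℝ) : ℂ) := by
    funext i; simp
  rw [this]
  simp only [Pi.norm_def]
  congr 2
  funext i
  exact Complex.nnnorm_real _

theorem P_closed (hFin : S_FinAlg) (hBdd : S_Bdd) (hBR : S_BR) (hTrick : S_Trick)
    {w : ℕ → ℝ → ℝ} {T : ℝ} (hw : Wt w T) {m k : ℕ} {ep : ℝ → (Fin (m * k) → ℝ) → ℤ}
    (hpm : ∀ s x, ep s x = 1 ∨ ep s x = -1)
    {c0 : ℤ} (hc0 : c0 = 1 ∨ c0 = -1) (hloc : EpLoc w m k ep) {s0 : ℝ} (hs0 : s0 ≤ 1)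
    {p : ℝ × (Fin (m * k) → ℝ)}
    (hp : p ∈ KK s0 (m * k)) (hG : GProp (om w p.1) m k)
    (hP : ∃ᶠ q in 𝓝[KK s0 (m * k)] p, Pst w m k ep c0 q) : Pst w m k ep c0 p := by
  classical
  have hp1 : p.1 ∈ Icc (0 : ℝ) 1 := ⟨hp.1.1, hp.1.2.trans hs0⟩
  have ht0 : Function.Injective p.2 := hp.2.injective
  -- a sequence
  obtain ⟨q, hq, hqP⟩ := Filter.exists_seq_forall_of_frequently
    (hP.and_eventually self_mem_nhdsWithin)
  have hq' : Tendsto q atTop (𝓝 p) := hq.mono_right nhdsWithin_le_nhds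
  have hqK : ∀ j, q j ∈ KK s0 (m * k) := fun j => (hqP j).2
  have hqI : ∀ j, (q j).1 ∈ Icc (0 : ℝ) 1 := fun j => ⟨(hqK j).1.1, (hqK j).1.2.trans hs0⟩
  choose Sol hcard hSol using fun j => (hqP j).1
  -- enumerate
  let e : ∀ j, Sol j ≃ Fin (dd m k) := fun j => Finset.equivFinOfCardEq (hcard j)
  let x : ℕ → Fin (dd m k) → Fin (m * k) → ℝ := fun j a => ((e j).symm a : Fin (m * k) → ℝ)
  have hxmem : ∀ j a, x j a ∈ Sol j := fun j a => ((e j).symm a).2
  have hxinj : ∀ j, Function.Injective (x j) := fun j a b hab => (e j).symm.injective (Subtype.ext hab)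
  -- bounded
  have hbdd1 : ∀ a, ∃ C : ℝ, ∀ j, ‖x j a‖ ≤ C := by
    intro a
    obtain ⟨C, hC⟩ := hBdd w T hw m k (fun j => (q j).1) p.1 hqI
      ((continuous_fst.tendsto p).comp hq') hG (fun j => (q j).2) p.2
      ((continuous_snd.tendsto p).comp hq') ht0 (fun j i => (x j a i : ℂ)) (by
        intro j i
        have h1 : DR (om w (q j).1) (Xinf (x j a) : Matrix (Fin (m + k)) (Fin k) ℝ) ((q j).2 i) = 0 :=
          congrFun (hSol j _ (hxmem j a)).1 i
        rw [← toC_Xinf, DC_toC, h1]; simp)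
    refine ⟨C, fun j => ?_⟩
    have := hC j
    have h2 := norm_ofReal_pi (x j a) 0
    simp only [Pi.zero_apply, Complex.ofReal_zero, sub_zero] at h2
    have h3 : (fun i => (x j a i : ℂ)) - (fun _ : Fin (m * k) => (0 : ℂ)) = fun i => (x j a i : ℂ) := by
      funext i; simp
    rw [h3] at h2
    rw [← h2]; exact this
  choose C hC using hbdd1
  have hbdd : Bornology.IsBounded (range x) := by
    rw [isBounded_iff_forall_norm_le]
    refine ⟨∑ a, |C a|, ?_⟩
    rintro _ ⟨j, rfl⟩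
    rw [pi_norm_le_iff_of_nonneg (Finset.sum_nonneg fun a _ => abs_nonneg _)]
    intro a
    exact (hC a j).trans ((le_abs_self _).trans (Finset.single_le_sum (f := fun a => |C a|)
      (fun a _ => abs_nonneg _) (Finset.mem_univ a)))
  obtain ⟨xs, -, φ, hφ, hlim⟩ := tendsto_subseq_of_bounded hbdd (fun j => mem_range_self j)
  have hlim' : ∀ a, Tendsto (fun j => x (φ j) a) atTop (𝓝 (xs a)) := fun a =>
    (tendsto_pi_nhds.1 hlim) a
  have hqφ : Tendsto (fun j => q (φ j)) atTop (𝓝 p) := hq'.comp hφ.tendsto_atTop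
  -- continuity of F and J along the sequence
  have hcF : Continuous (Ff w m k) := continuous_Ff hw m k
  have hcJ : Continuous (Jf w m k) := continuous_Jf hw m k
  have hpair : ∀ a, Tendsto (fun j => (q (φ j), x (φ j) a)) atTop (𝓝 (p, xs a)) := fun a =>
    hqφ.prodMk_nhds (hlim' a)
  have hF0 : ∀ a, FF (Gt (om w p.1) m k p.2) (xs a) = 0 := by
    intro a
    have h1 := (hcF.tendsto (p, xs a)).comp (hpair a)
    have h2 : (fun j => FF (Gt (om w (q (φ j)).1) m k (q (φ j)).2) (x (φ j) a)) = fun _ => 0 := by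
      funext j; exact (hSol _ _ (hxmem _ a)).1
    have h3 : Tendsto (fun j => FF (Gt (om w (q (φ j)).1) m k (q (φ j)).2) (x (φ j) a)) atTop
        (𝓝 (FF (Gt (om w p.1) m k p.2) (xs a))) := h1
    rw [h2] at h3
    exact tendsto_nhds_unique h3 tendsto_const_nhds
  have hfin := zeros_finite hFin hw hBdd hp1 hG ht0
  -- complexified systems
  have hΓ : Tendsto (fun j => fun i => toC (Gt (om w (q (φ j)).1) m k (q (φ j)).2 i)) atTop
      (𝓝 (fun i => toC (Gt (om w p.1) m k p.2 i))) := by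
    have : Continuous (fun z : ℝ × (Fin (m * k) → ℝ) => fun i => toC (Gt (om w z.1) m k z.2 i)) :=
      continuous_pi fun i => continuous_toC.comp ((continuous_apply i).comp (continuous_Gt hw m k))
    exact (this.tendsto p).comp hqφ
  -- J does not vanish
  have hJ0 : ∀ a, JJ (Gt (om w p.1) m k p.2) (xs a) ≠ 0 := by
    intro a
    have hsimple := fun t => simple_of_GProp (wt_om hw hp1) hG ht0 (hF0 a) t
    obtain ⟨A, hA, B, hB, hAB⟩ := eventually_prod_nhdsWithin (hloc p.1 hp1 (xs a) hsimple)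
    obtain ⟨R1, hR1, hB1⟩ := Metric.mem_nhds_iff.1 hB
    -- isolation
    set xc : Fin (m * k) → ℂ := fun i => (xs a i : ℂ) with hxc
    have hiso : ∃ R2 > 0, ∀ y ∈ Metric.closedBall xc R2,
        FF (fun i => toC (Gt (om w p.1) m k p.2 i)) y = 0 → y = xc := by
      have h1 : ({x : Fin (m * k) → ℂ | FF (fun i => toC (Gt (om w p.1) m k p.2 i)) x = 0} \ {xc}).Finite :=
        hfin.subset sdiff_subset
      have h2 : ({x : Fin (m * k) → ℂ | FF (fun i => toC (Gt (om w p.1) m k p.2 i)) x = 0} \ {xc})ᶜ ∈ 𝓝 xc :=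
        h1.isClosed.isOpen_compl.mem_nhds (by simp)
      obtain ⟨R2, hR2, h3⟩ := Metric.nhds_basis_closedBall.mem_iff.1 h2
      refine ⟨R2, hR2, fun y hy hy0 => ?_⟩
      by_contra hne
      exact h3 hy ⟨hy0, hne⟩
    obtain ⟨R2, hR2, hiso⟩ := hiso
    set R := min R1 R2 with hR
    have hRpos : 0 < R := lt_min hR1 hR2
    obtain ⟨Cb, hCb⟩ := hBR m k (fun j => fun i => toC (Gt (om w (q (φ j)).1) m k (q (φ j)).2 i))
      (fun i => toC (Gt (om w p.1) m k p.2 i)) hΓ xc R hRpos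
      (fun y hy => hiso y (Metric.closedBall_subset_closedBall (min_le_right _ _) hy))
    set sg : ℝ := (c0 : ℝ) * ep p.1 (xs a) with hsg
    have hsg1 : |sg| = 1 := by
      rw [hsg, abs_mul]
      rcases hc0 with h | h <;> rcases hpm p.1 (xs a) with h' | h' <;> rw [h, h'] <;> simp
    have hev1 : ∀ᶠ j in atTop, x (φ j) a ∈ Metric.ball (xs a) R :=
      (hlim' a).eventually (Metric.ball_mem_nhds _ hRpos)
    have hev2 : ∀ᶠ j in atTop, (q (φ j)).1 ∈ A :=
      ((continuous_fst.tendsto p).comp hqφ).eventually hA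
    have hbound : ∀ᶠ j in atTop, (max Cb 1)⁻¹ ≤ |JJ (Gt (om w (q (φ j)).1) m k (q (φ j)).2) (x (φ j) a)| := by
      filter_upwards [hCb, hev1, hev2] with j hj hj1 hj2
      -- the complex solutions
      set Γj := Gt (om w (q (φ j)).1) m k (q (φ j)).2 with hΓj
      have hinjR : Function.Injective (fun (x : Fin (m * k) → ℝ) => fun i => (x i : ℂ)) := by
        intro x y hxy
        funext i
        exact Complex.ofReal_injective (congrFun hxy i)
      set SolC : Finset (Fin (m * k) → ℂ) := (Sol (φ j)).image (fun x => fun i => (x i : ℂ)) with hSolC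
      have hcC : SolC.card = dd m k := by
        rw [hSolC, Finset.card_image_of_injective _ hinjR, hcard]
      have hall : ∀ y : Fin (m * k) → ℂ, FF (fun i => toC (Γj i)) y = 0 → y ∈ SolC := by
        refine hTrick m k _ SolC ?_ hcC
        intro y hy
        obtain ⟨x', hx', rfl⟩ := Finset.mem_image.1 hy
        obtain ⟨h1, h2, -⟩ := hSol _ _ hx'
        refine ⟨?_, ?_⟩
        · funext i
          rw [FF_toC, h1]; simp
        · rw [JJ_toC]; exact_mod_cast h2
      set Z := SolC.filter (fun y => y ∈ Metric.ball xc R) with hZ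
      have hZ1 : ∀ y, y ∈ Z ↔ y ∈ Metric.ball xc R ∧ FF (fun i => toC (Γj i)) y = 0 := by
        intro y
        rw [hZ, Finset.mem_filter]
        constructor
        · rintro ⟨h1, h2⟩
          obtain ⟨x', hx', rfl⟩ := Finset.mem_image.1 h1
          refine ⟨h2, ?_⟩
          funext i
          rw [FF_toC, (hSol _ _ hx').1]; simp
        · rintro ⟨h1, h2⟩
          exact ⟨hall y h2, h1⟩
      -- the values
      have hval : ∀ y ∈ Z, ∃ r : ℝ, 0 < r ∧ (JJ (fun i => toC (Γj i)) y)⁻¹ = ((sg * r : ℝ) : ℂ) := by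
        intro y hy
        rw [hZ, Finset.mem_filter] at hy
        obtain ⟨h1, h2⟩ := hy
        obtain ⟨x', hx', rfl⟩ := Finset.mem_image.1 h1
        obtain ⟨-, h3, h4⟩ := hSol _ _ hx'
        have hx'B : x' ∈ B := by
          apply hB1
          rw [Metric.mem_ball, dist_eq_norm]
          rw [Metric.mem_ball, dist_eq_norm, norm_ofReal_pi] at h2
          exact lt_of_lt_of_le h2 (min_le_left _ _)
        have h5 : ep (q (φ j)).1 x' = ep p.1 (xs a) := hAB _ hj2 (hqI _) x' hx'B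
        rw [h5] at h4
        set J := JJ Γj x' with hJdef
        have h6 : (SignType.sign J : ℝ) = sg := by
          have hsq : (ep p.1 (xs a) : ℝ) * ep p.1 (xs a) = 1 := by
            rcases hpm p.1 (xs a) with h' | h' <;> rw [h'] <;> simp
          calc (SignType.sign J : ℝ) = ((ep p.1 (xs a) : ℝ) * ep p.1 (xs a)) * SignType.sign J := by
                rw [hsq, one_mul]
            _ = ep p.1 (xs a) * ((ep p.1 (xs a) : ℝ) * SignType.sign J) := by ring
            _ = sg := by rw [h4, hsg]; ring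
        refine ⟨|J|⁻¹, by positivity, ?_⟩
        rw [JJ_toC, ← Complex.ofReal_inv]
        congr 1
        have h7 : J = sg * |J| := by rw [← h6]; exact (sign_mul_abs J).symm
        have hsgi : sg⁻¹ = sg := by
          rcases abs_eq (zero_le_one) |>.1 hsg1 with h | h <;> rw [h] <;> norm_num
        calc J⁻¹ = (sg * |J|)⁻¹ := by rw [← h7]
          _ = sg * |J|⁻¹ := by rw [mul_inv, hsgi]
      have hne : ∀ y ∈ Z, JJ (fun i => toC (Γj i)) y ≠ 0 := by
        intro y hy h0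
        obtain ⟨r, hr, hr'⟩ := hval y hy
        rw [h0, _root_.inv_zero] at hr'
        have : (sg * r : ℝ) = 0 := by exact_mod_cast hr'.symm
        rcases mul_eq_zero.1 this with h | h
        · rw [h] at hsg1; simp at hsg1
        · exact hr.ne' h
      have hsum := hj Z hZ1 hne
      choose! r hr hr' using hval
      have hsum2 : ∑ y ∈ Z, (JJ (fun i => toC (Γj i)) y)⁻¹ = ((sg * ∑ y ∈ Z, r y : ℝ) : ℂ) := by
        rw [Finset.sum_congr rfl hr', Finset.mul_sum]
        push_cast; rfl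
      rw [hsum2, Complex.norm_real, Real.norm_eq_abs, abs_mul, hsg1, one_mul] at hsum
      -- the term of `x (φ j) a`
      have hmem : (fun i => (x (φ j) a i : ℂ)) ∈ Z := by
        rw [hZ, Finset.mem_filter]
        refine ⟨Finset.mem_image.2 ⟨_, hxmem _ _, rfl⟩, ?_⟩
        rw [Metric.mem_ball, dist_eq_norm, norm_ofReal_pi, ← dist_eq_norm]
        exact hj1
      have h8 : r (fun i => (x (φ j) a i : ℂ)) ≤ max Cb 1 := by
        calc r (fun i => (x (φ j) a i : ℂ)) ≤ ∑ y ∈ Z, r y :=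
              Finset.single_le_sum (f := r) (fun y hy => (hr y hy).le) hmem
          _ ≤ |∑ y ∈ Z, r y| := le_abs_self _
          _ ≤ Cb := hsum
          _ ≤ _ := le_max_left _ _
      have h9 := hr' _ hmem
      rw [JJ_toC, ← Complex.ofReal_inv] at h9
      have h10 : (JJ Γj (x (φ j) a))⁻¹ = sg * r (fun i => (x (φ j) a i : ℂ)) := by exact_mod_cast h9
      have h11 : |JJ Γj (x (φ j) a)|⁻¹ = r (fun i => (x (φ j) a i : ℂ)) := by
        rw [← abs_inv, h10, abs_mul, hsg1, one_mul, abs_of_pos (hr _ hmem)]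
      have h12 : 0 < |JJ Γj (x (φ j) a)| := abs_pos.2 (hSol _ _ (hxmem _ _)).2.1
      rw [← h11] at h8
      exact (inv_le_comm₀ h12 (lt_of_lt_of_le one_pos (le_max_right _ _))).1 h8
    have hlimJ : Tendsto (fun j => |JJ (Gt (om w (q (φ j)).1) m k (q (φ j)).2) (x (φ j) a)|) atTop
        (𝓝 |JJ (Gt (om w p.1) m k p.2) (xs a)|) :=
      ((hcJ.tendsto (p, xs a)).comp (hpair a)).abs
    have hge := ge_of_tendsto hlimJ hbound
    have : 0 < (max Cb 1)⁻¹ := inv_pos.2 (lt_of_lt_of_le one_pos (le_max_right _ _))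
    exact abs_pos.1 (lt_of_lt_of_le this hge)
  -- distinct limits
  have hinj : Function.Injective xs := by
    intro a b hab
    by_contra hne
    obtain ⟨U, hU, hUev⟩ := locally_unique (Gt (om w p.1) m k p.2) (xs a) (hJ0 a)
    have h1 : ∀ᶠ j in atTop, ∀ x' ∈ U, ∀ y ∈ U, FF (Gt (om w (q (φ j)).1) m k (q (φ j)).2) x' =
        FF (Gt (om w (q (φ j)).1) m k (q (φ j)).2) y → x' = y :=
      (((continuous_Gt hw m k).tendsto p).comp hqφ).eventually hUev
    have h2 : ∀ᶠ j in atTop, x (φ j) a ∈ U := (hlim' a).eventually hU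
    have h3 : ∀ᶠ j in atTop, x (φ j) b ∈ U := (hlim' b).eventually (hab ▸ hU)
    obtain ⟨j, h1, h2, h3⟩ := (h1.and (h2.and h3)).exists
    have := h1 _ h2 _ h3 (by rw [(hSol _ _ (hxmem _ a)).1, (hSol _ _ (hxmem _ b)).1])
    exact hne (hxinj _ this)
  refine ⟨Finset.univ.image xs, ?_, ?_⟩
  · rw [Finset.card_image_of_injective _ hinj]; simp
  · intro y hy
    obtain ⟨a, -, rfl⟩ := Finset.mem_image.1 hy
    refine ⟨hF0 a, hJ0 a, ?_⟩
    have hsimple := fun t => simple_of_GProp (wt_om hw hp1) hG ht0 (hF0 a) t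
    obtain ⟨A, hA, B, hB, hAB⟩ := eventually_prod_nhdsWithin (hloc p.1 hp1 (xs a) hsimple)
    have hev2 : ∀ᶠ j in atTop, (q (φ j)).1 ∈ A := ((continuous_fst.tendsto p).comp hqφ).eventually hA
    have hev3 : ∀ᶠ j in atTop, x (φ j) a ∈ B := (hlim' a).eventually hB
    have hsgev : ∀ᶠ z in 𝓝 (p, xs a), SignType.sign (Jf w m k z) = SignType.sign (Jf w m k (p, xs a)) :=
      eventually_sign_eq hcJ.continuousAt (hJ0 a)
    have hsgn : ∀ᶠ j in atTop, SignType.sign (JJ (Gt (om w (q (φ j)).1) m k (q (φ j)).2) (x (φ j) a)) =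
        SignType.sign (JJ (Gt (om w p.1) m k p.2) (xs a)) :=
      (hpair a).eventually hsgev
    obtain ⟨j, h1, h2, h3⟩ := (hev2.and (hev3.and hsgn)).exists
    have h4 := (hSol _ _ (hxmem (φ j) a)).2.2
    rw [h3, hAB _ h1 (hqI _) _ h2] at h4
    exact h4

/-! ### Theorem T -/

theorem TheoremT (hEps : S_Eps) (hStart : S_Start) (hFin : S_FinAlg) (hBdd : S_Bdd) (hBR : S_BR)
    (hTrick : S_Trick) : S_T := by
  classical
  intro w T hw m k hm hk s0 hs0 hG
  obtain ⟨ep, hpm, hloc, hgood⟩ := hEps w T hw m k hm hk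
  obtain ⟨c0, hc0, t1, ht1, Sol1, hcard1, hSol1⟩ := hStart m k hm hk
  -- all parameters
  have hall : ∀ p ∈ KK s0 (m * k), Pst w m k ep c0 p := by
    have hpre : IsPreconnected (KK s0 (m * k)) := (convex_KK s0 (m * k)).isPreconnected
    have : PreconnectedSpace (KK s0 (m * k)) := isPreconnected_iff_preconnectedSpace.1 hpre
    have hclopen : IsClopen {p : KK s0 (m * k) | Pst w m k ep c0 p} := by
      constructor
      · rw [← isOpen_compl_iff, isOpen_iff_mem_nhds]
        intro p hp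
        by_contra hcon
        apply hp
        refine P_closed hFin hBdd hBR hTrick hw hpm hc0 hloc hs0.2 p.2 (hG p.1.1 p.2.1) ?_
        intro hev
        apply hcon
        have h1 := (tendsto_nhdsWithin_iff.2 ⟨continuous_subtype_val.continuousAt (x := p),
          Eventually.of_forall fun q : KK s0 (m * k) => q.2⟩).eventually hev
        exact h1
      · rw [isOpen_iff_mem_nhds]
        intro p hp
        have h := P_open hw hloc hs0.2 p.2 (hG p.1.1 p.2.1) hp
        exact (tendsto_nhdsWithin_iff.2 ⟨continuous_subtype_val.continuousAt (x := p),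
          Eventually.of_forall fun q : KK s0 (m * k) => q.2⟩).eventually h
    have hstart : Pst w m k ep c0 (0, t1) := by
      refine ⟨Sol1, hcard1, fun x hx => ?_⟩
      obtain ⟨h1, h2, Y, hY, hspan, h3⟩ := hSol1 x hx
      simp only [om_zero]
      refine ⟨h1, h2, ?_⟩
      rw [hgood x Y hY hspan]
      exact h3
    have huniv := hclopen.eq_univ ⟨⟨(0, t1), ⟨⟨le_rfl, hs0.1⟩, ht1⟩⟩, hstart⟩
    intro p hp
    have : (⟨p, hp⟩ : KK s0 (m * k)) ∈ {p : KK s0 (m * k) | Pst w m k ep c0 p} := by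
      rw [huniv]; trivial
    exact this
  intro t ht x hx
  -- sort
  set σ := Tuple.sort t
  have hmono : StrictMono (t ∘ σ) :=
    (Tuple.monotone_sort t).strictMono_of_injective (ht.comp σ.injective)
  obtain ⟨Sol, hcard, hSol⟩ := hall (s0, t ∘ σ) ⟨⟨hs0.1, le_rfl⟩, hmono⟩
  have hinjR : Function.Injective (fun (x : Fin (m * k) → ℝ) => fun i => (x i : ℂ)) := by
    intro x y hxy
    funext i
    exact Complex.ofReal_injective (congrFun hxy i)
  have hmem := hTrick m k (fun i => toC (Gt (om w s0) m k (t ∘ σ) i))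
    (Sol.image (fun x => fun i => (x i : ℂ))) (by
      intro y hy
      obtain ⟨x', hx', rfl⟩ := Finset.mem_image.1 hy
      obtain ⟨h1, h2, -⟩ := hSol _ hx'
      refine ⟨?_, ?_⟩
      · funext i
        rw [FF_toC]
        have := congrFun h1 i
        simp only at this
        rw [this]; simp
      · rw [JJ_toC]; exact_mod_cast h2)
    (by rw [Finset.card_image_of_injective _ hinjR, hcard]) x (by
      funext i
      exact hx (σ i))
  obtain ⟨y, -, hy⟩ := Finset.mem_image.1 hmem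
  exact ⟨y, hy.symm⟩

end Pool.Agent.GC18
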