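import Pool.Agent.GC18.Cluster
import Pool.Agent.GC18.Closing
import Pool.Agent.GC18.Count
import Pool.Agent.GC18.E1
import Pool.Agent.GC18.E2
import Pool.Agent.GC18.E2Gen
import Pool.Agent.GC18.E3
import Pool.Agent.GC18.Eps
import Pool.Agent.GC18.FinAlgCpt
import Pool.Agent.GC18.TheoremT
import Pool.Agent.GC18.Bdd
import Pool.Agent.GC18.Poly
import Pool.Agent.GC18.P1
import Pool.Agent.GC18.Lim
import Pool.Agent.GC18.LemL
import Pool.Agent.GC18.Hur
import Pool.Agent.GC18.Top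
import Pool.Agent.GC18.Assemble
import Pool.Agent.GC18.StEch
import Pool.Agent.GC18.StYJ
import Pool.Agent.GC18.StJ
import Pool.Agent.GC18.StJ4
import Pool.Agent.GC18.Start

/-!
# Grassmann convexity (MP_5fea31_an): the main chain   (architect: helper18)

Crew: helper3, helper8, helper19, helper31, helper34, helper45, helper50, helper60, helper65, helper70,
helper77, helper81, helper18.
-/

set_option autoImplicit false

namespace Pool.Agent.GC18

theorem EpsT : S_Eps := Eps ExGood (E2 E1)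

theorem StartT : S_Start := Start (St.StJ St.StEch St.StYJ)

theorem TT : S_T := TheoremT EpsT StartT FinAlg (Bdd Cpt) BR trick

theorem ExchT : S_Exch := Exch (P1 Persist) FIN

theorem LimT : S_Lim := Lim Cpt Hur LemL

theorem CloseT : S_Close := Close TT ExchT LimT Rich

/-- THE BOUND for all smooth positive weights -/
theorem GT : ∀ (w : ℕ → ℝ → ℝ) (T : ℝ), Wt w T → ∀ (m k : ℕ), 1 ≤ m → 1 ≤ k → GProp w m k :=
  GProp_all G0 (Open LimT) CloseT

/-- Grassmann convexity -/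
theorem GrassmannConvexity : ∀ k m : ℕ, 1 ≤ k → 1 ≤ m →
  ∀ J : Set ℝ, ∀ γ : ℝ → (Fin (k + m) → ℝ),
    ContDiff ℝ (⊤ : ℕ∞) γ →
    J.OrdConnected →
    (∀ t ∈ J, γ t ≠ 0) →
    (∀ a : Fin (k + m) → ℝ, a ≠ 0 →
      ∀ (s : Finset ℝ) (μ : ℝ → ℕ),
        (∀ t ∈ s, t ∈ J ∧ ∀ j < μ t,
          iteratedDeriv j (fun u => ∑ i, a i * γ u i) t = 0) →
        ∑ t ∈ s, μ t ≤ k + m - 1) →
    ∀ ℓ : Fin m → (Fin (k + m) → ℝ), LinearIndependent ℝ ℓ →
      ∀ (s : Finset ℝ) (μ : ℝ → ℕ),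
        (∀ t ∈ s, t ∈ J ∧ ∀ j < μ t,
          iteratedDeriv j
            (fun u => (Matrix.of (fun i c =>
              Fin.append (fun a : Fin k => iteratedDeriv (a : ℕ) γ u) ℓ c i)).det) t = 0) →
        ∑ t ∈ s, μ t ≤ k * m :=
  Top Hur GT

end Pool.Agent.GC18
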