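import Pool.Agent.GC18.FinAlgCpt
import Pool.Agent.GC18.Poly

/-!
# Grassmann convexity (MP_5fea31_an): forward differences, the system near a multiset   (helper65)

* `P1.fd_tendsto` : `Δ_h^l F(s-h,·)(a) / h^l → ∂_t^l F(s,a)`
* `P1.fd_zero` : vanishing of the forward differences = vanishing of the values
* `P1.Pinf` : the functional at infinity, `P1.van_inf_iff`
-/

set_option autoImplicit false

namespace Pool.Agent.GC18.P1

open Matrix Filter Topology Set

open scoped Classical

/-! ## forward differences -/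

lemma fd_bound (l : ℕ) : ∀ (f : ℝ → ℂ), ContDiff ℝ (⊤ : ℕ∞) f → ∀ (c : ℂ) (ε a h : ℝ), 0 ≤ h →
    (∀ u ∈ Icc a (a + l * h), ‖iteratedDeriv l f u - c‖ ≤ ε) →
    ‖(fwdDiff h)^[l] f a - (h : ℂ) ^ l * c‖ ≤ ε * h ^ l := by
  induction l with
  | zero =>
    intro f _ c ε a h hh hb
    have := hb a ⟨le_rfl, by simp⟩
    simpa using this
  | succ l ih =>
    intro f hf c ε a h hh hb
    set g : ℝ → ℂ := fwdDiff h f with hg
    have hg' : g = fun t => f (t + h) - f t := rfl
    have hgs : ContDiff ℝ (⊤ : ℕ∞) g := by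
      rw [hg']
      exact (hf.comp (contDiff_id.add contDiff_const)).sub hf
    have hgd : ∀ t, iteratedDeriv l g t = iteratedDeriv l f (t + h) - iteratedDeriv l f t := by
      intro t
      rw [hg']
      have h1 : ContDiff ℝ (⊤ : ℕ∞) (fun t => f (t + h)) := hf.comp (contDiff_id.add contDiff_const)
      have h2 := iteratedDeriv_fun_sub (n := l) (x := t) (f := fun t => f (t + h)) (g := f)
        (h1.of_le (by exact_mod_cast le_top)).contDiffAt (hf.of_le (by exact_mod_cast le_top)).contDiffAt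
      rw [h2, iteratedDeriv_comp_add_const]
    have hder : ∀ u, HasDerivAt (iteratedDeriv l f) (iteratedDeriv (l + 1) f u) u := by
      intro u
      rw [iteratedDeriv_succ]
      exact ((hf.differentiable_iteratedDeriv l (by exact_mod_cast WithTop.coe_lt_top _)) u).hasDerivAt
    have hb' : ∀ t ∈ Icc a (a + l * h), ‖iteratedDeriv l g t - (h : ℂ) * c‖ ≤ ε * h := by
      intro t ht
      have hd' : ∀ u ∈ Icc t (t + h), HasDerivWithinAt
          (fun u : ℝ => iteratedDeriv l f u - (u : ℂ) * c) (iteratedDeriv (l + 1) f u - c)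
          (Icc t (t + h)) u := by
        intro u _
        have h4 : HasDerivAt (fun u : ℝ => (u : ℂ) * c) c u := by
          have := (Complex.ofRealCLM.hasDerivAt (x := u)).mul_const c
          simpa using this
        exact ((hder u).sub h4).hasDerivWithinAt
      have hbd : ∀ u ∈ Ico t (t + h), ‖iteratedDeriv (l + 1) f u - c‖ ≤ ε := by
        intro u hu
        refine hb u ⟨by linarith [hu.1, ht.1], ?_⟩
        push_cast
        linarith [hu.2, ht.2]
      have h3 := norm_image_sub_le_of_norm_deriv_le_segment' hd' hbd (t + h)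
        ⟨by linarith, le_rfl⟩
      have h4 : (fun u : ℝ => iteratedDeriv l f u - (u : ℂ) * c) (t + h) -
          (fun u : ℝ => iteratedDeriv l f u - (u : ℂ) * c) t = iteratedDeriv l g t - (h : ℂ) * c := by
        simp only
        rw [hgd]; push_cast; ring
      rw [h4] at h3
      have h5 : ε * ((t + h) - t) = ε * h := by ring
      rw [h5] at h3
      exact h3
    have h6 := ih g hgs ((h : ℂ) * c) (ε * h) a h hh hb'
    rw [Function.iterate_succ_apply]
    calc ‖(fwdDiff h)^[l] (fwdDiff h f) a - (h : ℂ) ^ (l + 1) * c‖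
        = ‖(fwdDiff h)^[l] g a - (h : ℂ) ^ l * ((h : ℂ) * c)‖ := by
          rw [hg]; congr 2; ring
      _ ≤ ε * h * h ^ l := h6
      _ = ε * h ^ (l + 1) := by ring

/-- derivatives with respect to the last variable are jointly smooth -/
lemma iter_smooth {P : Type*} [NormedAddCommGroup P] [NormedSpace ℝ P] (l : ℕ) :
    ∀ F : P × ℝ → ℂ, ContDiff ℝ (⊤ : ℕ∞) F →
      ContDiff ℝ (⊤ : ℕ∞) (fun q : P × ℝ => iteratedDeriv l (fun t => F (q.1, t)) q.2) := by
  induction l with
  | zero =>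
    intro F hF
    simpa only [iteratedDeriv_zero] using hF
  | succ l ih =>
    intro F hF
    have h1 : ContDiff ℝ (⊤ : ℕ∞) (fun q : P × ℝ => fderiv ℝ F q (0, 1)) := by
      have h2 : ContDiff ℝ (⊤ : ℕ∞) (fderiv ℝ F) := hF.fderiv_right (by simp)
      exact h2.clm_apply contDiff_const
    have h3 := ih _ h1
    have h4 : ∀ p : P, deriv (fun t => F (p, t)) = fun t => fderiv ℝ F (p, t) (0, 1) := by
      intro p
      funext t
      have h5 : HasFDerivAt F (fderiv ℝ F (p, t)) (p, t) :=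
        (hF.differentiable (by simp)).differentiableAt.hasFDerivAt
      have h6 : HasDerivAt (fun t : ℝ => ((p, t) : P × ℝ)) (0, 1) t :=
        (hasDerivAt_const t p).prodMk (hasDerivAt_id t)
      exact (h5.comp_hasDerivAt t h6).deriv
    have h5 : (fun q : P × ℝ => iteratedDeriv (l + 1) (fun t => F (q.1, t)) q.2) =
        fun q : P × ℝ => iteratedDeriv l (fun t => fderiv ℝ F (q.1, t) (0, 1)) q.2 := by
      funext q
      rw [iteratedDeriv_succ', h4]
    rw [h5]
    exact h3

lemma fd_tendsto (F : ℝ × ℝ → ℂ) (hF : ContDiff ℝ (⊤ : ℕ∞) F) (s a : ℝ) (l : ℕ) :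
    Tendsto (fun h : ℝ => ((h : ℂ) ^ l)⁻¹ * (fwdDiff h)^[l] (fun t => F (s - h, t)) a) (𝓝[>] 0)
      (𝓝 (iteratedDeriv l (fun t => F (s, t)) a)) := by
  have hc := (iter_smooth l F hF).continuous
  rw [Metric.tendsto_nhds]
  intro ε hε
  have h1 := Metric.continuousAt_iff.1 (hc.continuousAt (x := (s, a))) (ε / 2) (half_pos hε)
  obtain ⟨δ, hδ, h1⟩ := h1
  have hpos : (0 : ℝ) < (l : ℝ) + 1 := by positivity
  have h2 : ∀ᶠ h in 𝓝[>] (0 : ℝ), h < δ / (l + 1) := by
    have : ∀ᶠ h in 𝓝 (0 : ℝ), h < δ / (l + 1) := by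
      exact (tendsto_id.eventually (gt_mem_nhds (by positivity)))
    exact nhdsWithin_le_nhds this
  filter_upwards [h2, self_mem_nhdsWithin] with h hh hpos'
  have hh0 : (0 : ℝ) < h := hpos'
  have hh1 : (l + 1) * h < δ := by
    rw [lt_div_iff₀ hpos] at hh
    linarith
  have hsm : ContDiff ℝ (⊤ : ℕ∞) (fun t => F (s - h, t)) :=
    hF.comp (contDiff_const.prodMk contDiff_id)
  have h3 := fd_bound l (fun t => F (s - h, t)) hsm (iteratedDeriv l (fun t => F (s, t)) a)
    (ε / 2) a h hh0.le (by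
      intro u hu
      have h4 : dist ((s - h, u) : ℝ × ℝ) (s, a) < δ := by
        rw [Prod.dist_eq, max_lt_iff]
        constructor
        · rw [Real.dist_eq]
          have : s - h - s = -h := by ring
          rw [this, abs_neg, abs_of_pos hh0]
          nlinarith [Nat.cast_nonneg (α := ℝ) l]
        · rw [Real.dist_eq, abs_of_nonneg (by linarith [hu.1])]
          linarith [hu.2]
      have h5 := h1 h4
      rw [dist_eq_norm] at h5
      exact h5.le)
  have hhc : (h : ℂ) ≠ 0 := by exact_mod_cast hh0.ne'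
  have hhl : (h : ℂ) ^ l ≠ 0 := pow_ne_zero _ hhc
  rw [dist_eq_norm]
  have h6 : ((h : ℂ) ^ l)⁻¹ * (fwdDiff h)^[l] (fun t => F (s - h, t)) a -
      iteratedDeriv l (fun t => F (s, t)) a = ((h : ℂ) ^ l)⁻¹ *
      ((fwdDiff h)^[l] (fun t => F (s - h, t)) a -
        (h : ℂ) ^ l * iteratedDeriv l (fun t => F (s, t)) a) := by
    field_simp
  rw [h6, norm_mul, norm_inv, norm_pow, Complex.norm_real, Real.norm_eq_abs, abs_of_pos hh0]
  have h7 : (h ^ l)⁻¹ * ‖(fwdDiff h)^[l] (fun t => F (s - h, t)) a -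
        (h : ℂ) ^ l * iteratedDeriv l (fun t => F (s, t)) a‖ ≤ (h ^ l)⁻¹ * (ε / 2 * h ^ l) := by
    gcongr
  have h8 : (h ^ l)⁻¹ * (ε / 2 * h ^ l) = ε / 2 := by
    have : h ^ l ≠ 0 := pow_ne_zero _ hh0.ne'
    field_simp
  linarith

/-- vanishing forward differences: the values vanish -/
lemma fd_zero {f : ℝ → ℂ} {h a : ℝ} {ν : ℕ} (hf : ∀ l < ν, (fwdDiff h)^[l] f a = 0) :
    ∀ j < ν, f (a + j * h) = 0 := by
  intro j hj
  have h1 := shift_eq_sum_fwdDiff_iter h f j a
  rw [nsmul_eq_mul] at h1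
  rw [h1]
  refine Finset.sum_eq_zero fun l hl => ?_
  rw [hf l (lt_of_le_of_lt (Nat.le_of_lt_succ (Finset.mem_range.1 hl)) hj), smul_zero]

end Pool.Agent.GC18.P1
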