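import Pool.Agent.GC18.P1a

/-!
# Grassmann convexity (MP_5fea31_an): the functional at infinity   (helper65)

`P1.RP Y κ = κ^(mk) D(1/κ; Y)` (rational normal curve), `P1.RP_van_iff : VanAt (RP Y) ν 0 ↔ VanInf ν Y`,
`P1.Pinf_sum`.
-/

set_option autoImplicit false

namespace Pool.Agent.GC18.P1

open Matrix Filter Topology Set

open scoped Classical

/-- exponent of `κ` -/
def ex (m : ℕ) {k : ℕ} (J : Fin k → Fin (m + k)) : ℕ :=
  m * k - ((∑ i, (J i : ℕ)) - ∑ i : Fin k, (i : ℕ))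

/-- the reversed polynomial as a function -/
noncomputable def RP {m k : ℕ} (Y : Matrix (Fin (m + k)) (Fin k) ℂ) (κ : ℝ) : ℂ :=
  ∑ J : Fin k → Fin (m + k), ((cI J * κ ^ ex m J : ℝ) : ℂ) * (Y.submatrix J id).det

/-- the functional at infinity -/
noncomputable def Pinf (w : ℕ → ℝ → ℝ) (T : ℝ) (m k : ℕ) (I : Fin k → Fin (m + k)) (q : ℝ × ℝ) : ℂ :=
  ∑ J : Fin k → Fin (m + k), ((cI J * q.2 ^ ex m J : ℝ) : ℂ) *
    ((∏ i, Hp (om w q.1) T (m + k) (J i) (I i) : ℝ) : ℂ)

lemma Pinf_smooth {w : ℕ → ℝ → ℝ} {T : ℝ} (hw : Wt w T) (m k : ℕ) (I : Fin k → Fin (m + k)) :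
    ContDiff ℝ (⊤ : ℕ∞) (Pinf w T m k I) := by
  unfold Pinf
  refine ContDiff.sum fun J _ => ContDiff.mul ?_ ?_
  · exact Complex.ofRealCLM.contDiff.comp (contDiff_const.mul (contDiff_snd.pow _))
  · have h : ContDiff ℝ (⊤ : ℕ∞) (fun q : ℝ × ℝ =>
        ∏ i, Hp (om w q.1) T (m + k) (J i) (I i)) := by
      refine contDiff_prod fun i _ => ?_
      simp only [Hp, Matrix.of_apply]
      refine ContDiff.sum fun l _ => contDiff_const.mul ?_
      exact (contDiff_ge_om hw l (I i)).comp (contDiff_fst.prodMk contDiff_const)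
    exact Complex.ofRealCLM.contDiff.comp h

lemma Pinf_sum (w : ℕ → ℝ → ℝ) (T : ℝ) {m k : ℕ} (σ κ : ℝ) (X : Matrix (Fin (m + k)) (Fin k) ℂ) :
    ∑ I : Fin k → Fin (m + k), Pinf w T m k I (σ, κ) * (X.submatrix I id).det =
      RP (toC (Hp (om w σ) T (m + k)) * X) κ := by
  simp only [Pinf, RP, det_submatrix_mul, Finset.sum_mul, Finset.mul_sum]
  rw [Finset.sum_comm]
  refine Finset.sum_congr rfl fun J _ => Finset.sum_congr rfl fun I _ => ?_
  simp only [toC, Matrix.map_apply]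
  push_cast
  ring

/-- for rank reasons the exponents do not exceed `m k` -/
lemma ex_eq {m k : ℕ} {Y : Matrix (Fin (m + k)) (Fin k) ℂ} {J : Fin k → Fin (m + k)}
    (h : (Y.submatrix J id).det ≠ 0) :
    ((∑ i, (J i : ℕ)) - ∑ i : Fin k, (i : ℕ)) ≤ m * k := by
  have h1 := VanInf_zero Y
  by_contra hcon
  push Not at hcon
  refine h (h1 J ?_)
  have e : ∑ i : Fin k, (m + k - k + (i : ℕ)) = m * k + ∑ i : Fin k, (i : ℕ) := by
    rw [Finset.sum_add_distrib]
    simp [mul_comm]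
  rw [e]
  omega

lemma RP_eq {m k : ℕ} (Y : Matrix (Fin (m + k)) (Fin k) ℂ) {t : ℝ} (ht : t ≠ 0) :
    RP Y t⁻¹ = ((t⁻¹ : ℝ) : ℂ) ^ (m * k) * DC one1 Y t := by
  rw [DC_expand, RP, Finset.mul_sum]
  refine Finset.sum_congr rfl fun J _ => ?_
  rw [prod_ge_one]
  by_cases h : (Y.submatrix J id).det = 0
  · rw [h]; simp
  · rw [← mul_assoc]
    congr 1
    have h1 := ex_eq h
    have h2 : (t⁻¹) ^ ex m J = (t⁻¹) ^ (m * k) * t ^ ((∑ i, (J i : ℕ)) - ∑ i : Fin k, (i : ℕ)) := by
      unfold ex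
      rw [pow_sub₀ _ (inv_ne_zero ht) h1]
      congr 1
      rw [← inv_pow, inv_inv]
    rw [h2]
    push_cast
    ring

lemma RP_smooth {m k : ℕ} (Y : Matrix (Fin (m + k)) (Fin k) ℂ) : ContDiff ℝ (⊤ : ℕ∞) (RP Y) := by
  unfold RP
  refine ContDiff.sum fun J _ => ContDiff.mul ?_ contDiff_const
  exact Complex.ofRealCLM.contDiff.comp (contDiff_const.mul (contDiff_id.pow _))

/-- coefficients -/
lemma iter_pow_zero (p j : ℕ) (h : j < p) (c : ℂ) :
    iteratedDeriv j (fun κ : ℝ => ((κ : ℂ) ^ p * c)) 0 = 0 := by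
  have h1 : (fun κ : ℝ => ((κ : ℂ) ^ p * c)) = fun κ : ℝ =>
      (Polynomial.C c * Polynomial.X ^ p : Polynomial ℂ).eval (κ : ℂ) := by
    funext κ; simp; ring
  rw [h1, iteratedDeriv_eval_real]
  have h2 : ((Polynomial.derivative^[j]) (Polynomial.C c * Polynomial.X ^ p : Polynomial ℂ)).eval
      (((0 : ℝ)) : ℂ) = ((Polynomial.derivative^[j]) (Polynomial.C c * Polynomial.X ^ p :
        Polynomial ℂ)).coeff 0 := by
    rw [Polynomial.coeff_zero_eq_eval_zero]; simp
  show ((Polynomial.derivative^[j]) (Polynomial.C c * Polynomial.X ^ p : Polynomial ℂ)).eval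
      (((0 : ℝ)) : ℂ) = 0
  rw [h2, Polynomial.coeff_iterate_derivative, Polynomial.coeff_C_mul_X_pow, if_neg (by omega)]
  simp

lemma RP_van {m k ν : ℕ} {Y : Matrix (Fin (m + k)) (Fin k) ℂ} (h : VanInf ν Y) :
    VanAt (RP Y) ν 0 := by
  intro j hj
  unfold RP
  rw [iteratedDeriv_fun_sum]
  · refine Finset.sum_eq_zero fun J _ => ?_
    by_cases h0 : (Y.submatrix J id).det = 0
    · rw [h0]
      simp only [mul_zero]
      simp
    · by_cases hc : cI J = 0
      · rw [hc]
        simp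
      · have hle : ∀ i : Fin k, (i : ℕ) ≤ J i := by
          by_contra hcon
          push Not at hcon
          obtain ⟨i, hi⟩ := hcon
          exact hc (by rw [cI, Finset.prod_eq_zero (Finset.mem_univ i) (by rw [if_neg (not_le.2 hi)])])
        have hsum : ∑ i : Fin k, (i : ℕ) ≤ ∑ i, (J i : ℕ) := Finset.sum_le_sum fun i _ => hle i
        have hex : j < ex m J := by
          by_contra hcon
          push Not at hcon
          refine h0 (h J ?_)
          have e : ∑ i : Fin k, (m + k - k + (i : ℕ)) = m * k + ∑ i : Fin k, (i : ℕ) := by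
            rw [Finset.sum_add_distrib]
            simp [mul_comm]
          rw [e]
          have := ex_eq h0
          unfold ex at hcon
          omega
        have h1 : (fun κ : ℝ => ((cI J * κ ^ ex m J : ℝ) : ℂ) * (Y.submatrix J id).det) =
            fun κ : ℝ => (κ : ℂ) ^ ex m J * ((cI J : ℂ) * (Y.submatrix J id).det) := by
          funext κ; push_cast; ring
        rw [h1]
        exact iter_pow_zero _ _ hex _
  · intro J _
    refine ContDiffAt.mul ?_ contDiffAt_const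
    exact (Complex.ofRealCLM.contDiff.comp (contDiff_const.mul (contDiff_id.pow _))).contDiffAt

lemma RP_mul_right {m k : ℕ} (Y : Matrix (Fin (m + k)) (Fin k) ℂ) (C : Matrix (Fin k) (Fin k) ℂ)
    (κ : ℝ) : RP (Y * C) κ = RP Y κ * C.det := by
  unfold RP
  rw [Finset.sum_mul]
  refine Finset.sum_congr rfl fun J _ => ?_
  rw [det_submatrix_mul_right]
  ring

/-- the converse of `RP_van` -/
lemma van_RP {m k ν : ℕ} {Y : Matrix (Fin (m + k)) (Fin k) ℂ} (hY : Full Y)
    (h : VanAt (RP Y) ν 0) : VanInf ν Y := by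
  obtain ⟨I, C, hinj, hC, hI, hmax, hId, hup⟩ := exists_echelon_bot hY
  by_contra hcon
  unfold VanInf at hcon
  push Not at hcon
  obtain ⟨J, hJ, hJ0⟩ := hcon
  have hJI := hmax J hJ0
  have e : ∑ i : Fin k, (m + k - k + (i : ℕ)) = m * k + ∑ i : Fin k, (i : ℕ) := by
    rw [Finset.sum_add_distrib]
    simp [mul_comm]
  rw [e] at hJ
  have hIle := ex_eq hI
  -- the exponent of the leading term
  have hI' : m * k + ∑ i : Fin k, (i : ℕ) < (∑ i, (I i : ℕ)) + ν := by omega
  -- the scaled matrix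
  let E : ℝ → Matrix (Fin k) (Fin k) ℂ := fun κ => Matrix.of fun i c =>
    ∑ j : Fin (m + k), (if (j : ℕ) ≤ I c ∧ (i : ℕ) ≤ j then
      ((κ ^ ((I c : ℕ) - j) * (((j : ℕ) - i).factorial : ℝ)⁻¹ : ℝ) : ℂ) else 0) * (Y * C) j c
  have hEcont : Continuous E := by
    refine continuous_matrix fun i c => ?_
    simp only [E, Matrix.of_apply]
    refine continuous_finsetSum _ fun j _ => Continuous.mul ?_ continuous_const
    split_ifs
    · exact Complex.continuous_ofReal.comp (by fun_prop)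
    · exact continuous_const
  have hE0 : (E 0).det ≠ 0 := by
    have h1 := det_kap_ne (wt_one1 one_pos) (0 : ℝ) (fun c => (I c : ℕ))
      (fun c c' h => hinj (Fin.ext h))
    have h2 : E 0 = toC (Matrix.of fun i c : Fin k => kap one1 0 i (I c)) := by
      ext i c
      simp only [E, Matrix.of_apply, toC, Matrix.map_apply, kap, one1, Finset.prod_const_one]
      rw [Finset.sum_eq_single (I c)]
      · rw [hId, if_pos rfl]
        by_cases hic : (i : ℕ) ≤ I c
        · rw [if_pos ⟨le_rfl, hic⟩, if_pos hic]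
          simp
        · rw [if_neg (fun h => hic h.2), if_neg hic]
          simp
      · intro j _ hj
        split_ifs with hjc
        · have hlt : (j : ℕ) < I c := lt_of_le_of_ne hjc.1 (fun h => hj (Fin.ext h))
          rw [zero_pow (by omega)]
          simp
        · simp
      · intro h; exact absurd (Finset.mem_univ _) h
    rw [h2, toC_det]
    exact_mod_cast h1
  -- relation to `RP`
  have hrel : ∀ κ : ℝ, κ ≠ 0 → RP Y κ * C.det * (κ : ℂ) ^ (∑ i, (I i : ℕ)) =
      (κ : ℂ) ^ (m * k + ∑ i : Fin k, (i : ℕ)) * (E κ).det := by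
    intro κ hκ
    have hκc : (κ : ℂ) ≠ 0 := by exact_mod_cast hκ
    have h1 := RP_eq (Y * C) (inv_ne_zero hκ)
    rw [inv_inv, RP_mul_right] at h1
    have h2 : E κ = Matrix.of fun (i c : Fin k) => ((κ : ℂ) ^ (i : ℕ))⁻¹ *
        (Matrix.of fun (i c : Fin k) => (κ : ℂ) ^ (I c : ℕ) *
          (toC (Gam one1 k (m + k) κ⁻¹) * (Y * C)) i c) i c := by
      ext i c
      have hmul : (toC (Gam one1 k (m + k) κ⁻¹) * (Y * C)) i c =
          ∑ j, toC (Gam one1 k (m + k) κ⁻¹) i j * (Y * C) j c := Matrix.mul_apply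
      simp only [E, Matrix.of_apply]
      rw [hmul, Finset.mul_sum, Finset.mul_sum]
      refine Finset.sum_congr rfl fun j _ => ?_
      simp only [toC, Matrix.map_apply, Gam, Matrix.of_apply]
      rw [ge_one]
      by_cases hij : (i : ℕ) ≤ j
      · rw [if_pos hij]
        by_cases hjc : (j : ℕ) ≤ I c
        · rw [if_pos ⟨hjc, hij⟩]
          obtain ⟨a, ha⟩ := Nat.exists_eq_add_of_le hij
          obtain ⟨b, hb⟩ := Nat.exists_eq_add_of_le hjc
          have e1 : (j : ℕ) - i = a := by omega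
          have e2 : (I c : ℕ) - j = b := by omega
          rw [e1, e2, hb, ha]
          push_cast
          rw [pow_add, pow_add, inv_pow]
          field_simp
        · have hlt : I c < j := not_le.1 hjc
          rw [hup j c hlt]
          simp
      · rw [if_neg hij, if_neg (fun h => hij h.2)]
        simp
    have h3 : (E κ).det = (((κ : ℂ)) ^ (∑ i : Fin k, (i : ℕ)))⁻¹ *
        ((κ : ℂ) ^ (∑ c, (I c : ℕ)) * DC one1 (Y * C) κ⁻¹) := by
      rw [h2, Matrix.det_mul_column, Matrix.det_mul_row]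
      rw [Finset.prod_inv_distrib, Finset.prod_pow_eq_pow_sum, Finset.prod_pow_eq_pow_sum]
      rfl
    rw [h3, h1, pow_add]
    field_simp
  have hO := VanAt.isBigO ν (RP_smooth Y) h
  obtain ⟨K, hK⟩ := hO.bound
  have hlim : Tendsto (fun κ => (E κ).det) (𝓝[≠] 0) (𝓝 0) := by
    have hK' : ∀ᶠ κ : ℝ in 𝓝[≠] 0, ‖(E κ).det‖ ≤ |K| * ‖C.det‖ * |κ| := by
      have hnear : ∀ᶠ κ : ℝ in 𝓝[≠] 0, |κ| ≤ 1 := by
        have : Metric.closedBall (0 : ℝ) 1 ∈ 𝓝 (0 : ℝ) := Metric.closedBall_mem_nhds 0 one_pos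
        filter_upwards [mem_nhdsWithin_of_mem_nhds this] with t ht
        simpa [Real.dist_eq] using ht
      filter_upwards [nhdsWithin_le_nhds hK, self_mem_nhdsWithin, hnear] with κ hKκ hκ h1
      have hκ0 : κ ≠ 0 := hκ
      have hκp : 0 < |κ| := abs_pos.2 hκ0
      have h2 := congrArg (fun z => ‖z‖) (hrel κ hκ0)
      simp only [norm_mul, norm_pow, Complex.norm_real, Real.norm_eq_abs] at h2
      have h3 : ‖RP Y κ‖ ≤ |K| * |κ| ^ ν := by
        refine hKκ.trans ?_
        rw [norm_pow, Real.norm_eq_abs, sub_zero]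
        exact mul_le_mul_of_nonneg_right (le_abs_self K) (by positivity)
      have h4 : |κ| ^ (m * k + ∑ i : Fin k, (i : ℕ)) * ‖(E κ).det‖ ≤
          |κ| ^ (m * k + ∑ i : Fin k, (i : ℕ)) * (|K| * ‖C.det‖ * |κ|) := by
        rw [← h2]
        calc ‖RP Y κ‖ * ‖C.det‖ * |κ| ^ (∑ i, (I i : ℕ))
            ≤ (|K| * |κ| ^ ν) * ‖C.det‖ * |κ| ^ (∑ i, (I i : ℕ)) := by gcongr
          _ = |K| * ‖C.det‖ * |κ| ^ (ν + ∑ i, (I i : ℕ)) := by rw [pow_add]; ring
          _ ≤ |K| * ‖C.det‖ * |κ| ^ (m * k + ∑ i : Fin k, (i : ℕ) + 1) := by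
              refine mul_le_mul_of_nonneg_left ?_ (by positivity)
              exact pow_le_pow_of_le_one hκp.le h1 (by omega)
          _ = _ := by rw [pow_succ]; ring
      exact le_of_mul_le_mul_left h4 (by positivity)
    refine squeeze_zero_norm' hK' ?_
    have : Tendsto (fun κ : ℝ => |K| * ‖C.det‖ * |κ|) (𝓝 0) (𝓝 (|K| * ‖C.det‖ * |(0 : ℝ)|)) :=
      (by fun_prop : Continuous fun κ : ℝ => |K| * ‖C.det‖ * |κ|).tendsto 0
    simp only [abs_zero, mul_zero] at this
    exact this.mono_left nhdsWithin_le_nhds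
  have hlim2 : Tendsto (fun κ => (E κ).det) (𝓝[≠] 0) (𝓝 (E 0).det) :=
    ((Continuous.matrix_det hEcont).tendsto 0).mono_left nhdsWithin_le_nhds
  exact hE0 (tendsto_nhds_unique hlim2 hlim)

end Pool.Agent.GC18.P1
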