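import Pool.Agent.GC18.StShape

/-!
# Grassmann convexity (MP_5fea31_an): GC_Start (e), counting lattice words   (helper34)
-/

set_option autoImplicit false

namespace Pool.Agent.GC18.St

open Finset

/-- the words with row lengths `l` -/
def LL (k : ℕ) : ℕ → (Fin k → ℕ) → Finset (List (Fin k))
  | 0, l => if ∀ i, l i = 0 then {[]} else ∅
  | p + 1, l => if Monotone l then
      (univ : Finset (Fin k)).biUnion fun i =>
        if 0 < l i then (LL k p (Function.update l i (l i - 1))).image (List.cons i) else ∅
    else ∅

lemma card_LL (k : ℕ) : ∀ (p : ℕ) (l : Fin k → ℕ), (LL k p l).card = ff k p l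
  | 0, l => by
      unfold LL ff
      split_ifs <;> simp
  | p + 1, l => by
      unfold LL ff
      split_ifs with h
      · rw [Finset.card_biUnion]
        · refine Finset.sum_congr rfl fun i _ => ?_
          split_ifs with h1
          · rw [Finset.card_image_of_injective _ (List.cons_injective), card_LL k p]
          · simp
        · intro i _ j _ hij
          rw [Function.onFun, Finset.disjoint_left]
          intro T hT hT'
          split_ifs at hT hT' with h1 h2
          · rw [Finset.mem_image] at hT hT'
            obtain ⟨a, _, ha⟩ := hT
            obtain ⟨b, _, hb⟩ := hT'
            rw [← hb] at ha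
            exact hij (List.cons_eq_cons.1 ha).1
          all_goals simp at hT hT'
      · simp

lemma mem_LL (k m : ℕ) : ∀ (p : ℕ) (l : Fin k → ℕ), (∀ c, l c ≤ m) → ∀ T : List (Fin k),
    T ∈ LL k p l ↔ T.length = p ∧ Lat m T ∧ ∀ c, T.count c = l c
  | 0, l, hl, T => by
      unfold LL
      constructor
      · intro h
        split_ifs at h with h1
        · rw [Finset.mem_singleton] at h
          subst h
          exact ⟨rfl, trivial, fun c => by simp [h1 c]⟩
        · simp at h
      · rintro ⟨h1, -, h3⟩
        have : T = [] := List.length_eq_zero_iff.1 h1
        subst this
        rw [if_pos (fun i => by simpa using (h3 i).symm)]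
        simp
  | p + 1, l, hl, T => by
      unfold LL
      constructor
      · intro h
        split_ifs at h with h1
        · rw [Finset.mem_biUnion] at h
          obtain ⟨i, -, h⟩ := h
          split_ifs at h with h2
          · rw [Finset.mem_image] at h
            obtain ⟨T', hT', rfl⟩ := h
            have hl' : ∀ c, (Function.update l i (l i - 1)) c ≤ m := by
              intro c
              rcases eq_or_ne c i with rfl | hc
              · rw [Function.update_self]
                exact (Nat.sub_le _ _).trans (hl c)
              · rw [Function.update_of_ne hc]
                exact hl c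
            obtain ⟨e1, e2, e3⟩ := (mem_LL k m p _ hl' T').1 hT'
            have hcount : ∀ c, (i :: T').count c = l c := by
              intro c
              rcases eq_or_ne c i with rfl | hc
              · rw [List.count_cons_self, e3, Function.update_self]
                omega
              · rw [List.count_cons_of_ne (Ne.symm hc), e3, Function.update_of_ne hc]
            refine ⟨by simp [e1], ⟨e2, ?_, ?_⟩, hcount⟩
            · have : (fun c => (i :: T').count c) = l := funext hcount
              rw [this]
              exact h1
            · intro c
              rw [hcount]
              exact hl c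
          · simp at h
        · simp at h
      · rintro ⟨h1, h2, h3⟩
        rcases T with _ | ⟨i, T'⟩
        · simp at h1
        · obtain ⟨g1, g2, g3⟩ := h2
          have hm : Monotone l := by
            have : (fun c => (i :: T').count c) = l := funext h3
            rw [← this]
            exact g2
          rw [if_pos hm, Finset.mem_biUnion]
          have hi : 0 < l i := by
            rw [← h3 i, List.count_cons_self]
            omega
          refine ⟨i, Finset.mem_univ _, ?_⟩
          rw [if_pos hi, Finset.mem_image]
          refine ⟨T', ?_, rfl⟩
          have hl' : ∀ c, (Function.update l i (l i - 1)) c ≤ m := by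
            intro c
            rcases eq_or_ne c i with rfl | hc
            · rw [Function.update_self]
              exact (Nat.sub_le _ _).trans (hl c)
            · rw [Function.update_of_ne hc]
              exact hl c
          rw [mem_LL k m p _ hl' T']
          refine ⟨by simpa using h1, g1, ?_⟩
          intro c
          rcases eq_or_ne c i with rfl | hc
          · rw [Function.update_self, ← h3 c, List.count_cons_self]
            omega
          · rw [Function.update_of_ne hc, ← h3 c, List.count_cons_of_ne (Ne.symm hc)]

lemma sum_count {k : ℕ} (T : List (Fin k)) : ∑ c, T.count c = T.length := by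
  induction T with
  | nil => simp
  | cons i T ih =>
      have : ∀ c, (i :: T).count c = T.count c + if c = i then 1 else 0 := by
        intro c
        rcases eq_or_ne c i with rfl | hc
        · rw [List.count_cons_self, if_pos rfl]
        · rw [List.count_cons_of_ne (Ne.symm hc), if_neg hc, add_zero]
      simp only [this, Finset.sum_add_distrib, ih, List.length_cons]
      simp

lemma Lat.count_eq {k m : ℕ} {T : List (Fin k)} (h : Lat m T) (hl : T.length = m * k) (c : Fin k) :
    T.count c = m := by
  by_contra hc
  have h1 : T.count c < m := lt_of_le_of_ne (h.le c) hc
  have h2 : ∑ c, T.count c < ∑ c : Fin k, m :=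
    Finset.sum_lt_sum (fun c _ => h.le c) ⟨c, Finset.mem_univ _, h1⟩
  rw [sum_count, hl] at h2
  simp [mul_comm] at h2

theorem StWords : S_StWords := by
  intro m k
  refine ⟨LL k (m * k) (fun _ => m), ?_, ?_⟩
  · intro T
    rw [mem_LL k m (m * k) (fun _ => m) (fun _ => le_rfl) T]
    constructor
    · rintro ⟨h1, h2, -⟩
      exact ⟨h1, h2⟩
    · rintro ⟨h1, h2⟩
      exact ⟨h1, h2, fun c => h2.count_eq h1 c⟩
  · rw [card_LL]
    rfl

end Pool.Agent.GC18.St
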