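import Pool.Agent.GC18.StShape
import Pool.Agent.GC18.StWords
import Pool.Agent.GC18.DetTools

/-!
# GC_Start, assembly part 1: parity bookkeeping, induction over the number of boxes   (helper19)
-/

set_option autoImplicit false

namespace Pool.Agent.GC18.St

open Matrix Filter Topology Set

/-- the exponent which is accumulated along a word together with the inversions -/
def cx {k : ℕ} (T : List (Fin k)) : ℕ :=
  ∑ q ∈ Finset.range T.length, q +
    ∑ c : Fin k, (∑ s ∈ Finset.range (T.count c), s + T.count c * ((c : ℕ) + (k - c) * c))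

lemma cx_cons {k : ℕ} (i : Fin k) (T : List (Fin k)) :
    cx (i :: T) = cx T + T.length + T.count i + ((i : ℕ) + (k - i) * i) := by
  unfold cx
  rw [List.length_cons, Finset.sum_range_succ]
  have h : ∀ c : Fin k, (∑ s ∈ Finset.range ((i :: T).count c), s + (i :: T).count c * ((c : ℕ) + (k - c) * c)) =
      (∑ s ∈ Finset.range (T.count c), s + T.count c * ((c : ℕ) + (k - c) * c)) +
        (if c = i then T.count i + ((i : ℕ) + (k - i) * i) else 0) := by
    intro c
    by_cases hc : c = i
    · subst hc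
      rw [List.count_cons_self, Finset.sum_range_succ, if_pos rfl]
      ring
    · rw [List.count_cons_of_ne (Ne.symm hc), if_neg hc, add_zero]
  rw [Finset.sum_congr rfl fun c _ => h c, Finset.sum_add_distrib]
  simp
  ring

lemma invT_parity {k : ℕ} (i : Fin k) (T : List (Fin k)) :
    (∑ c ∈ Finset.univ.filter (fun c => i ≤ c), T.count c) =
      T.count i + ∑ c ∈ Finset.univ.filter (fun c => i < c), T.count c := by
  have : (Finset.univ.filter (fun c : Fin k => i ≤ c)) =
      insert i (Finset.univ.filter (fun c : Fin k => i < c)) := by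
    ext c
    simp only [Finset.mem_filter, Finset.mem_univ, true_and, Finset.mem_insert]
    constructor
    · intro h
      rcases h.lt_or_eq with h1 | h1
      · exact Or.inr h1
      · exact Or.inl h1.symm
    · rintro (h | h)
      · exact h.ge
      · exact h.le
  rw [this, Finset.sum_insert (by simp)]

/-- what is known of the point of a word `T` with `r` boxes -/
structure Pt {k : ℕ} (m : ℕ) (U : ℕ → Fin k → ℝ) (E0 : ℕ) (T : List (Fin k)) (t z : ℕ → ℝ) : Prop where
  neg : Neg T z
  eqn : ∀ p < T.length, DR one1 (XM m T z) (t p) = 0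
  jac : Jz m T t z ≠ 0
  sgn : (SignType.sign (Jz m T t z) : ℤ) = (-1) ^ (∑ q ∈ Finset.range T.length, q)
  good : GoodT m U T z
  par : (Ex m U T z + invT T) % 2 = (E0 + cx T) % 2

lemma isOpen_Diff {n k : ℕ} {ι : Type*} {l : Filter ι} {X X' : ι → Matrix (Fin n) (Fin k) ℝ}
    {Y Y' : Matrix (Fin n) (Fin k) ℝ} (h : Diff Y Y') (hX : Tendsto X l (𝓝 Y)) (hX' : Tendsto X' l (𝓝 Y')) :
    ∀ᶠ i in l, Diff (X i) (X' i) := by
  obtain ⟨I, I', hI⟩ := h
  have hd : ∀ (J : Fin k → Fin n) {Z : ι → Matrix (Fin n) (Fin k) ℝ} {W : Matrix (Fin n) (Fin k) ℝ},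
      Tendsto Z l (𝓝 W) → Tendsto (fun i => ((Z i).submatrix J id).det) l (𝓝 (W.submatrix J id).det) := by
    intro J Z W hZ
    have hc : Continuous (fun Z : Matrix (Fin n) (Fin k) ℝ => (Z.submatrix J id).det) :=
      (continuous_id.matrix_submatrix J id).matrix_det
    exact (hc.tendsto W).comp hZ
  have h1 := (hd I hX).mul (hd I' hX')
  have h2 := (hd I' hX).mul (hd I hX')
  have h3 := (h1.sub h2).eventually (isOpen_ne.mem_nhds (sub_ne_zero.2 hI))
  filter_upwards [h3] with i hi
  exact ⟨I, I', sub_ne_zero.1 hi⟩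

end Pool.Agent.GC18.St
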