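import Pool.Agent.GC18.StAsm1

/-!
# GC_Start, assembly part 2: the induction over the number of boxes   (helper19)
-/

set_option autoImplicit false

namespace Pool.Agent.GC18.St

open Matrix Filter Topology Set

lemma close_of_nhds {z0 z0' : ℕ → ℝ} {s : Set ((ℕ → ℝ) × (ℕ → ℝ))} (hs : s ∈ 𝓝 (z0, z0')) :
    ∃ δ > 0, ∀ z z' : ℕ → ℝ, (∀ q, |z q - z0 q| < δ) → (∀ q, |z' q - z0' q| < δ) → (z, z') ∈ s := by
  by_contra hcon
  push Not at hcon
  have h : ∀ n : ℕ, ∃ z z' : ℕ → ℝ, (∀ q, |z q - z0 q| < 1 / ((n : ℝ) + 1)) ∧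
      (∀ q, |z' q - z0' q| < 1 / ((n : ℝ) + 1)) ∧ (z, z') ∉ s :=
    fun n => hcon _ (by positivity)
  choose z z' h1 h2 h3 using h
  have e0 : Tendsto (fun n : ℕ => 1 / ((n : ℝ) + 1)) atTop (𝓝 0) := tendsto_one_div_add_atTop_nhds_zero_nat
  have t1 : Tendsto z atTop (𝓝 z0) := by
    rw [tendsto_pi_nhds]
    intro q
    rw [tendsto_iff_dist_tendsto_zero]
    exact squeeze_zero (fun n => dist_nonneg) (fun n => by rw [Real.dist_eq]; exact (h1 n q).le) e0
  have t2 : Tendsto z' atTop (𝓝 z0') := by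
    rw [tendsto_pi_nhds]
    intro q
    rw [tendsto_iff_dist_tendsto_zero]
    exact squeeze_zero (fun n => dist_nonneg) (fun n => by rw [Real.dist_eq]; exact (h2 n q).le) e0
  have t3 : Tendsto (fun n => (z n, z' n)) atTop (𝓝 (z0, z0')) := by
    rw [nhds_prod_eq]
    exact t1.prodMk t2
  obtain ⟨n, hn⟩ := (t3.eventually hs).exists
  exact h3 n hn

lemma continuous_XM {k : ℕ} (m : ℕ) (T : List (Fin k)) : Continuous (fun z : ℕ → ℝ => XM m T z) := by
  refine continuous_matrix fun a c => ?_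
  exact continuous_XT T a c

lemma XM_cons_zero {k : ℕ} (m : ℕ) (i : Fin k) (T : List (Fin k)) {z : ℕ → ℝ} (h : z T.length = 0) :
    XM m (i :: T) z = XM m T z := by
  ext a c
  exact XT_cons_zero i T h a c

lemma Jz_nil {k : ℕ} (m : ℕ) (t z : ℕ → ℝ) : Jz m ([] : List (Fin k)) t z = 1 := by
  unfold Jz
  have : IsEmpty (Fin ([] : List (Fin k)).length) := by
    rw [List.length_nil]; infer_instance
  exact det_isEmpty

theorem ind (hZ : S_StZero) (hI : S_StIFT) (hC : S_StCell) {m k : ℕ} {U : ℕ → Fin k → ℝ} (hU : Base U)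
    (hg : GoodT m U ([] : List (Fin k)) (fun _ => 0)) (r : ℕ) :
    ∃ (t : ℕ → ℝ) (zf : List (Fin k) → ℕ → ℝ), (∀ p q, p < q → q < r → t p < t q) ∧
      (∀ T, Lat m T → T.length = r → Pt m U (Ex m U ([] : List (Fin k)) (fun _ => 0)) T t (zf T)) ∧
      (∀ T T', Lat m T → Lat m T' → T.length = r → T'.length = r → T ≠ T' →
        Diff (XM m T (zf T)) (XM m T' (zf T'))) := by
  induction r with
  | zero =>
    refine ⟨fun _ => 0, fun _ _ => 0, fun p q _ hq => absurd hq (Nat.not_lt_zero q), ?_, ?_⟩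
    · intro T _ hT
      rw [List.length_eq_zero_iff] at hT
      subst hT
      refine ⟨⟨fun q hq => absurd hq (by simp), fun _ _ => rfl⟩, fun p hp => absurd hp (by simp), ?_, ?_, hg, ?_⟩
      · rw [Jz_nil]; exact one_ne_zero
      · rw [Jz_nil]; simp
      · simp [invT, cx]
    · intro T T' _ _ hT hT' hne
      rw [List.length_eq_zero_iff] at hT hT'
      exact absurd (hT.trans hT'.symm) hne
  | succ r ih =>
    obtain ⟨t, zf, hts, hP, hD⟩ := ih
    set L : Set (List (Fin k)) := {T | Lat m T ∧ T.length = r + 1} with hL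
    have hLf : L.Finite := (List.finite_length_eq (Fin k) (r + 1)).subset fun _ h => h.2
    -- δ for the zeros
    have hA : ∀ᶠ δ : ℝ in 𝓝[>] 0, ∀ T' ∈ L, ∀ (i : Fin k) (T : List (Fin k)), T' = i :: T →
        ∀ z : ℕ → ℝ, (∀ q, |z q - zf T q| < δ) → Neg (i :: T) z → GoodT m U (i :: T) z ∧
          Ex m U (i :: T) z % 2 = (Ex m U T (zf T) + ((i : ℕ) +
            ∑ c ∈ Finset.univ.filter (fun c => i ≤ c), T.count c + (k - i) * i + T.length)) % 2 := by
      rw [hLf.eventually_all]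
      intro T' hT'
      rcases T' with _ | ⟨i, T⟩
      · exact absurd hT'.2 (by simp)
      · have hl : T.length = r := by have := hT'.2; simpa using this
        have hpt := hP T hT'.1.tail hl
        obtain ⟨δ0, hδ0, h⟩ := hZ m k i T hT'.1 U hU (zf T) hpt.neg hpt.good
        filter_upwards [Ioo_mem_nhdsGT hδ0] with δ hδ i' T1 e z hz hn
        obtain ⟨rfl, rfl⟩ := List.cons.inj e
        exact h z (fun q => (hz q).trans hδ.2) hn
    -- δ for the distinctness
    have hB : ∀ᶠ δ : ℝ in 𝓝[>] 0, ∀ T' ∈ L, ∀ T'' ∈ L, ∀ (i j : Fin k) (T T1 : List (Fin k)), T' = i :: T →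
        T'' = j :: T1 → T ≠ T1 → ∀ z z' : ℕ → ℝ, (∀ q, |z q - zf T q| < δ) → (∀ q, |z' q - zf T1 q| < δ) →
          Diff (XM m (i :: T) z) (XM m (j :: T1) z') := by
      rw [hLf.eventually_all]
      intro T' hT'
      rw [hLf.eventually_all]
      intro T'' hT''
      rcases T' with _ | ⟨i, T⟩
      · exact absurd hT'.2 (by simp)
      rcases T'' with _ | ⟨j, T1⟩
      · exact absurd hT''.2 (by simp)
      by_cases hne : T = T1
      · exact Eventually.of_forall fun δ i' j' S S1 e e' h => by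
          obtain ⟨rfl, rfl⟩ := List.cons.inj e
          obtain ⟨rfl, rfl⟩ := List.cons.inj e'
          exact absurd hne h
      · have hl : T.length = r := by have := hT'.2; simpa using this
        have hl1 : T1.length = r := by have := hT''.2; simpa using this
        have hpt := hP T hT'.1.tail hl
        have hpt1 := hP T1 hT''.1.tail hl1
        have hdiff := hD T T1 hT'.1.tail hT''.1.tail hl hl1 hne
        rw [← XM_cons_zero m i T (hpt.neg.2 T.length le_rfl),
          ← XM_cons_zero m j T1 (hpt1.neg.2 T1.length le_rfl)] at hdiff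
        have hev := isOpen_Diff (l := 𝓝 (zf T, zf T1)) (X := fun z => XM m (i :: T) z.1)
          (X' := fun z => XM m (j :: T1) z.2) hdiff
          (((continuous_XM m (i :: T)).comp continuous_fst).tendsto (zf T, zf T1))
          (((continuous_XM m (j :: T1)).comp continuous_snd).tendsto (zf T, zf T1))
        obtain ⟨δ0, hδ0, h⟩ := close_of_nhds hev
        filter_upwards [Ioo_mem_nhdsGT hδ0] with δ hδ i' j' S S1 e e' _ z z' hz hz'
        obtain ⟨rfl, rfl⟩ := List.cons.inj e
        obtain ⟨rfl, rfl⟩ := List.cons.inj e'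
        exact h z z' (fun q => (hz q).trans hδ.2) (fun q => (hz' q).trans hδ.2)
    obtain ⟨δ, ⟨hδA, hδB⟩, hδ0⟩ := ((hA.and hB).and self_mem_nhdsWithin).exists
    have hδ0 : (0 : ℝ) < δ := hδ0
    -- κ
    have hK : ∀ᶠ κ : ℝ in 𝓝[>] 0, ∀ T' ∈ L, ∀ (i : Fin k) (T : List (Fin k)), T' = i :: T →
        ∃ z : ℕ → ℝ, (∀ q, |z q - zf T q| < δ) ∧ Neg (i :: T) z ∧
          (∀ p < (i :: T).length, DR one1 (XM m (i :: T) z) (Function.update t T.length κ⁻¹ p) = 0) ∧
          Jz m (i :: T) (Function.update t T.length κ⁻¹) z ≠ 0 ∧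
          (SignType.sign (Jz m (i :: T) (Function.update t T.length κ⁻¹) z) : ℤ) =
            (-1) ^ T.length * SignType.sign (Jz m T t (zf T)) := by
      rw [hLf.eventually_all]
      intro T' hT'
      rcases T' with _ | ⟨i, T⟩
      · exact absurd hT'.2 (by simp)
      · have hl : T.length = r := by have := hT'.2; simpa using this
        have hpt := hP T hT'.1.tail hl
        obtain ⟨κ0, hκ0, h⟩ := hI m k i T hT'.1 t (zf T) hpt.neg hpt.eqn hpt.jac δ hδ0
        filter_upwards [Ioo_mem_nhdsGT hκ0] with κ hκ i' T1 e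
        obtain ⟨rfl, rfl⟩ := List.cons.inj e
        exact h κ hκ.1 hκ.2
    have hS : ∀ᶠ κ : ℝ in 𝓝[>] 0, ∀ p < r, t p < κ⁻¹ := by
      have : ∀ p ∈ {p : ℕ | p < r}, ∀ᶠ κ : ℝ in 𝓝[>] 0, t p < κ⁻¹ := fun p _ =>
        tendsto_inv_nhdsGT_zero.eventually (eventually_gt_atTop (t p))
      have h2 := ((Set.finite_lt_nat r).eventually_all (l := 𝓝[>] (0 : ℝ))
        (p := fun p κ => t p < κ⁻¹)).2 this
      exact h2
    obtain ⟨κ, hκ, hκS⟩ := (hK.and hS).exists
    have hch : ∀ T' : List (Fin k), ∃ z : ℕ → ℝ, T' ∈ L → ∀ (i : Fin k) (T : List (Fin k)), T' = i :: T →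
        (∀ q, |z q - zf T q| < δ) ∧ Neg (i :: T) z ∧
          (∀ p < (i :: T).length, DR one1 (XM m (i :: T) z) (Function.update t T.length κ⁻¹ p) = 0) ∧
          Jz m (i :: T) (Function.update t T.length κ⁻¹) z ≠ 0 ∧
          (SignType.sign (Jz m (i :: T) (Function.update t T.length κ⁻¹) z) : ℤ) =
            (-1) ^ T.length * SignType.sign (Jz m T t (zf T)) := by
      intro T'
      by_cases hT' : T' ∈ L
      · rcases T' with _ | ⟨i, T⟩
        · exact absurd hT'.2 (by simp)
        · obtain ⟨z, hz⟩ := hκ _ hT' i T rfl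
          refine ⟨z, fun _ i' T1 e => ?_⟩
          obtain ⟨rfl, rfl⟩ := List.cons.inj e
          exact hz
      · exact ⟨0, fun h => absurd h hT'⟩
    choose zf' hzf' using hch
    refine ⟨Function.update t r κ⁻¹, zf', ?_, ?_, ?_⟩
    · intro p q hpq hq
      rcases Nat.lt_succ_iff_lt_or_eq.1 hq with h | h
      · rw [Function.update_of_ne (by omega), Function.update_of_ne (by omega)]
        exact hts p q hpq h
      · subst h
        rw [Function.update_of_ne (by omega), Function.update_self]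
        exact hκS p hpq
    · intro T' hT' hl'
      rcases T' with _ | ⟨i, T⟩
      · exact absurd hl' (by simp)
      have hl : T.length = r := by simpa using hl'
      have hpt := hP T hT'.tail hl
      obtain ⟨h1, h2, h3, h4, h5⟩ := hzf' (i :: T) ⟨hT', hl'⟩ i T rfl
      obtain ⟨h6, h7⟩ := hδA (i :: T) ⟨hT', hl'⟩ i T rfl _ h1 h2
      rw [hl] at h3 h4 h5
      refine ⟨h2, h3, h4, ?_, h6, ?_⟩
      · rw [h5, hpt.sgn, ← pow_add, List.length_cons, Finset.sum_range_succ, hl, add_comm]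
      · have h8 := hpt.par
        rw [invT_parity] at h7
        rw [cx_cons]
        have h9 : invT (i :: T) = invT T + ∑ c ∈ Finset.univ.filter (fun c => i < c), T.count c := rfl
        rw [h9]
        omega
    · intro T' T'' hT' hT'' hl' hl'' hne
      rcases T' with _ | ⟨i, T⟩
      · exact absurd hl' (by simp)
      rcases T'' with _ | ⟨j, T1⟩
      · exact absurd hl'' (by simp)
      obtain ⟨h1, h2, -⟩ := hzf' (i :: T) ⟨hT', hl'⟩ i T rfl
      obtain ⟨g1, g2, -⟩ := hzf' (j :: T1) ⟨hT'', hl''⟩ j T1 rfl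
      by_cases hTT : T = T1
      · subst hTT
        have hij : i ≠ j := fun h => hne (by rw [h])
        refine hC m k (i :: T) (j :: T) hT' hT'' (by simp) _ _ h2 g2 ⟨i, ?_⟩
        rw [List.count_cons_self, List.count_cons_of_ne hij.symm]
        omega
      · exact hδB (i :: T) ⟨hT', hl'⟩ (j :: T1) ⟨hT'', hl''⟩ i j T T1 rfl rfl hTT _ _ h1 g1

end Pool.Agent.GC18.St
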