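import Pool.Agent.GC18.StShape
import Pool.Agent.GC18.Deriv

/-!
# Grassmann convexity (MP_5fea31_an): GC_Start, block (d3), chain rule   (helper45)
-/

set_option autoImplicit false

namespace Pool.Agent.GC18.St

open Matrix Filter Topology Set Pool.Agent.GC18

namespace J3

/-- derivative of a product if the first factor vanishes and the second one is continuous -/
lemma hasDerivAt_mul_of_zero {F c : ℝ → ℝ} {F' a : ℝ} (hF : HasDerivAt F F' a) (h0 : F a = 0)
    (hc : ContinuousAt c a) : HasDerivAt (fun τ => F τ * c τ) (F' * c a) a := by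
  rw [hasDerivAt_iff_tendsto_slope] at hF ⊢
  have h1 : (slope (fun τ => F τ * c τ) a) = fun τ => slope F a τ * c τ := by
    funext τ
    simp only [slope_def_field, h0, zero_mul, sub_zero]
    ring
  rw [h1]
  exact hF.mul (hc.tendsto.mono_left nhdsWithin_le_nhds)

end J3

/-- block (d3): the Jacobian in the coordinates `z` and the Jacobian `JJ` in the chart -/
theorem StJ_chain {m k : ℕ} (T : List (Fin k)) (hT : T.length = m * k) (t z : ℕ → ℝ)
    (x : (ℕ → ℝ) → Fin (m * k) → ℝ) (C : (ℕ → ℝ) → Matrix (Fin k) (Fin k) ℝ)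
    (hX : ∀ q < m * k, ∀ᶠ τ in 𝓝 (z q), XM m T (Function.update z q τ) =
      Xinf (x (Function.update z q τ)) * C (Function.update z q τ))
    (dx : Fin (m * k) → Fin (m * k) → ℝ)
    (hdx : ∀ l q : Fin (m * k), HasDerivAt (fun τ => x (Function.update z (q : ℕ) τ) l) (dx l q) (z q))
    (hC : ∀ q < m * k, ContinuousAt (fun τ => (C (Function.update z q τ)).det) (z q))
    (hz : ∀ p < T.length, DR one1 (XM m T z) (t p) = 0) (hC0 : (C z).det ≠ 0) :
    Jz m T t z = (C z).det ^ (m * k) * JJ (Gt one1 m k (fun p => t p)) (x z) *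
      (Matrix.of dx).det := by
  set Γ := Gt one1 m k (fun p => t p) with hΓ
  have key : ∀ p q : Fin (m * k),
      deriv (fun τ => DR one1 (XM m T (Function.update z (q : ℕ) τ)) (t p)) (z q) =
        (C z).det * (JM Γ (x z) * Matrix.of dx) p q := by
    intro p q
    have hupd : Function.update z (q : ℕ) (z q) = z := Function.update_eq_self _ _
    have hDR : ∀ (y : Fin (m * k) → ℝ), FF Γ y p = DR one1 (Xinf y) (t p) := fun y => rfl
    -- the factor that vanishes
    have hF0 : FF Γ (x z) p = 0 := by
      have h1 := (hX q q.2).self_of_nhds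
      rw [hupd] at h1
      have h2 := hz p (by rw [hT]; exact p.2)
      rw [h1, DR_mul_right] at h2
      rw [hDR]
      exact (mul_eq_zero.1 h2).resolve_right hC0
    have hF : HasDerivAt (fun τ => FF Γ (x (Function.update z (q : ℕ) τ)) p)
        ((JM Γ (x z) * Matrix.of dx) p q) (z q) := by
      have h1 : HasDerivAt (fun τ => x (Function.update z (q : ℕ) τ)) (fun l => dx l q) (z q) :=
        hasDerivAt_pi.2 fun l => hdx l q
      have h2 : HasFDerivAt (FF Γ) (fderiv ℝ (FF Γ) (x z))
          ((fun τ => x (Function.update z (q : ℕ) τ)) (z q)) := by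
        simp only [hupd]
        exact (hasStrictFDerivAt_FF Γ (x z)).hasFDerivAt
      have h3 := h2.comp_hasDerivAt (z q) h1
      rw [fderiv_FF_apply] at h3
      have h4 := (hasDerivAt_pi.1 h3) p
      simpa [Matrix.mulVec, dotProduct, Matrix.mul_apply, Function.comp_def] using h4
    have hmul := J3.hasDerivAt_mul_of_zero hF (by simp only [hupd]; exact hF0) (hC q q.2)
    have hev : (fun τ => DR one1 (XM m T (Function.update z (q : ℕ) τ)) (t p)) =ᶠ[𝓝 (z q)]
        fun τ => FF Γ (x (Function.update z (q : ℕ) τ)) p *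
          (C (Function.update z (q : ℕ) τ)).det := by
      filter_upwards [hX q q.2] with τ hτ
      rw [hτ, DR_mul_right, hDR]
    rw [(hmul.congr_of_eventuallyEq hev).deriv, hupd]
    ring
  have hdet : Jz m T t z = (Matrix.of fun p q : Fin (m * k) =>
      (C z).det * (JM Γ (x z) * Matrix.of dx) p q).det := by
    unfold Jz
    rw [← Matrix.det_submatrix_equiv_self (finCongr hT)]
    congr 1
    ext p q
    simp only [Matrix.submatrix_apply, Matrix.of_apply, finCongr_apply]
    exact key (Fin.cast hT p) (Fin.cast hT q)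
  rw [hdet]
  have h5 : (Matrix.of fun p q : Fin (m * k) => (C z).det * (JM Γ (x z) * Matrix.of dx) p q) =
      (C z).det • (JM Γ (x z) * Matrix.of dx) := by
    ext p q
    simp
  rw [h5, Matrix.det_smul, Matrix.det_mul, Fintype.card_fin]
  unfold JJ
  ring

end Pool.Agent.GC18.St
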