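import Pool.Agent.GC18.StShape

/-!
# Grassmann convexity (MP_5fea31_an): GC_Start, the ratios `ρ_j = c(B_j^-)/c(B_j)`   (helper34)
-/

set_option autoImplicit false

namespace Pool.Agent.GC18.St

open Finset

/-- the last index of the column `s` of the flag: row `k - 1 - s` -/
def bt {k : ℕ} (T : List (Fin k)) (s : ℕ) : ℕ := if h : s < k then piv T ⟨k - 1 - s, by omega⟩ else 0

lemma bt_eq {k : ℕ} (T : List (Fin k)) {s : ℕ} (h : s < k) : bt T s = piv T ⟨k - 1 - s, by omega⟩ :=
  dif_pos h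

/-- adding one column -/
lemma cB_succ (β : ℕ → ℕ) (j : ℕ) :
    cB (fun s : Fin (j + 1) => β s) = cB (fun s : Fin j => β s) *
      (((β j).factorial : ℝ)⁻¹ * ∏ s ∈ range j, ((β j : ℝ) - β s)) := by
  rw [cB_formula, cB_formula, Fin.prod_univ_castSucc]
  simp only [Fin.val_castSucc, Fin.val_last]
  rw [Fin.prod_univ_castSucc (f := fun i : Fin (j + 1) => ∏ b ∈ Finset.Ioi i, ((β b : ℝ) - β i))]
  have h1 : (∏ b ∈ Finset.Ioi (Fin.last j), ((β b : ℝ) - β (Fin.last j))) = 1 := by
    have : Finset.Ioi (Fin.last j) = ∅ := by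
      ext x
      simp [Fin.le_last]
    rw [this, Finset.prod_empty]
  have h2 : ∀ a : Fin j, (∏ b ∈ Finset.Ioi (Fin.castSucc a), ((β b : ℝ) - β (Fin.castSucc a)))
      = (∏ b ∈ Finset.Ioi a, ((β b : ℝ) - β a)) * ((β j : ℝ) - β a) := by
    intro a
    have : Finset.Ioi (Fin.castSucc a) = insert (Fin.last j) ((Finset.Ioi a).map Fin.castSuccEmb) := by
      ext x
      rcases Fin.eq_castSucc_or_eq_last x with ⟨y, rfl⟩ | rfl
      · simp
        intro _
        exact Fin.le_last _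
      · simp [Fin.castSucc_lt_last]
    rw [this, Finset.prod_insert, Finset.prod_map]
    · simp [mul_comm]
    · simp only [Finset.mem_map, not_exists, not_and]
      intro y _ h
      exact (Fin.castSucc_lt_last y).ne h
  rw [h1, mul_one, Finset.prod_congr rfl (fun a _ => h2 a), Finset.prod_mul_distrib,
    ← Fin.prod_univ_eq_prod_range (fun s => ((β j : ℝ) - β s)) j]
  ring

/-- strictly decreasing sequences: same sign -/
lemma cB_mul_pos {β β' : ℕ → ℕ} {j : ℕ} (h : ∀ s s', s < s' → s' < j → β s' < β s)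
    (h' : ∀ s s', s < s' → s' < j → β' s' < β' s) :
    0 < cB (fun s : Fin j => β s) * cB (fun s : Fin j => β' s) := by
  rw [cB_formula, cB_formula]
  have e : ∀ a b c d : ℝ, a * b * (c * d) = (a * c) * (b * d) := fun a b c d => by ring
  rw [e, ← Finset.prod_mul_distrib (s := Finset.univ) (f := fun i : Fin j => ∏ b ∈ Finset.Ioi i, ((β b : ℝ) - β i))]
  refine mul_pos (mul_pos (Finset.prod_pos fun s _ => by positivity)
    (Finset.prod_pos fun s _ => by positivity)) (Finset.prod_pos fun a _ => ?_)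
  rw [← Finset.prod_mul_distrib]
  refine Finset.prod_pos fun b hb => ?_
  have hab : (a : ℕ) < b := Fin.lt_def.1 (Finset.mem_Ioi.1 hb)
  have h1 : (β b : ℝ) < β a := by exact_mod_cast h a b hab b.2
  have h2 : (β' b : ℝ) < β' a := by exact_mod_cast h' a b hab b.2
  exact mul_pos_of_neg_of_neg (by linarith) (by linarith)

lemma cB_div_pos {β β' : ℕ → ℕ} {j : ℕ} (h : ∀ s s', s < s' → s' < j → β s' < β s)
    (h' : ∀ s s', s < s' → s' < j → β' s' < β' s) :
    0 < cB (fun s : Fin j => β s) / cB (fun s : Fin j => β' s) := by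
  have h1 := cB_mul_pos h h'
  have h2 : cB (fun s : Fin j => β' s) ≠ 0 := right_ne_zero_of_mul h1.ne'
  have h3 : cB (fun s : Fin j => β s) / cB (fun s : Fin j => β' s) =
      cB (fun s : Fin j => β s) * cB (fun s : Fin j => β' s) / (cB (fun s : Fin j => β' s)) ^ 2 := by
    field_simp
  rw [h3]
  positivity

/-- one more column -/
lemma cB_div_succ {β β' : ℕ → ℕ} {j s0 : ℕ} (h0 : s0 < j) (hs : β' s0 = β s0 + 1)
    (hne : ∀ s ≤ j, s ≠ s0 → β' s = β s) (hlt : β j < β s0)
    (h' : ∀ s < j, β j ≠ β' s) :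
    cB (fun s : Fin (j + 1) => β s) / cB (fun s : Fin (j + 1) => β' s) =
      cB (fun s : Fin j => β s) / cB (fun s : Fin j => β' s) *
        (((β s0 : ℝ) - β j) / ((β s0 : ℝ) + 1 - β j)) := by
  rw [cB_succ, cB_succ, hne j le_rfl (by omega)]
  have hf : ((β j).factorial : ℝ)⁻¹ ≠ 0 := by positivity
  have h1 : (∏ s ∈ range j, ((β j : ℝ) - β s)) =
      ((β j : ℝ) - β s0) * ∏ s ∈ (range j).erase s0, ((β j : ℝ) - β s) :=
    (Finset.mul_prod_erase _ _ (Finset.mem_range.2 h0)).symm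
  have h2 : (∏ s ∈ range j, ((β j : ℝ) - β' s)) =
      ((β j : ℝ) - β' s0) * ∏ s ∈ (range j).erase s0, ((β j : ℝ) - β s) := by
    rw [(Finset.mul_prod_erase _ _ (Finset.mem_range.2 h0)).symm]
    congr 1
    refine Finset.prod_congr rfl fun s hs' => ?_
    rw [Finset.mem_erase, Finset.mem_range] at hs'
    rw [hne s hs'.2.le hs'.1]
  have h3 : (∏ s ∈ (range j).erase s0, ((β j : ℝ) - β s)) ≠ 0 := by
    rw [Finset.prod_ne_zero_iff]
    intro s hs'
    rw [Finset.mem_erase, Finset.mem_range] at hs'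
    have := h' s hs'.2
    rw [hne s hs'.2.le hs'.1] at this
    rw [sub_ne_zero]
    exact_mod_cast this
  have h4 : ((β j : ℝ) - β' s0) = -((β s0 : ℝ) + 1 - β j) := by
    rw [hs]
    push_cast
    ring
  have h5 : ((β s0 : ℝ) + 1 - β j) ≠ 0 := by
    have : (β j : ℝ) < β s0 := by exact_mod_cast hlt
    linarith
  rw [h1, h2, h4]
  rcases eq_or_ne (cB (fun s : Fin j => β' s)) 0 with h6 | h6
  · rw [h6]
    simp
  · field_simp
    ring

variable {m k : ℕ} {i : Fin k} {T : List (Fin k)}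

lemma bt_lt (hL : Lat m T) {s s' : ℕ} (h : s < s') (h' : s' < k) : bt T s' < bt T s := by
  rw [bt_eq T h', bt_eq T (h.trans h')]
  apply piv_strictMono hL
  rw [Fin.lt_def]
  simp only
  omega

/-- (a) -/
theorem rho_pos (hL : Lat m (i :: T)) {j : ℕ} (hj : j ≤ k) :
    0 < cB (fun s : Fin j => bt T s) / cB (fun s : Fin j => bt (i :: T) s) :=
  cB_div_pos (fun _ _ h h' => bt_lt hL.tail h (h'.trans_le hj))
    (fun _ _ h h' => bt_lt hL h (h'.trans_le hj))

lemma bt_cons_self : bt (i :: T) (k - 1 - i) = bt T (k - 1 - i) + 1 := by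
  have hi := i.2
  have h : k - 1 - (i : ℕ) < k := by omega
  rw [bt_eq _ h, bt_eq _ h]
  have : (⟨k - 1 - (k - 1 - (i : ℕ)), by omega⟩ : Fin k) = i := Fin.ext (by simp only; omega)
  rw [this, piv_cons_self]

lemma bt_cons_ne {s : ℕ} (hs : s ≠ k - 1 - i) : bt (i :: T) s = bt T s := by
  by_cases h : s < k
  · rw [bt_eq _ h, bt_eq _ h]
    apply piv_cons_ne
    intro e
    have := congrArg Fin.val e
    simp only at this
    omega
  · unfold bt
    rw [dif_neg h, dif_neg h]

/-- (b) -/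
theorem rho_lt (hL : Lat m (i :: T)) {j : ℕ} (h1 : k - (i : ℕ) ≤ j) (h2 : j < k) :
    cB (fun s : Fin (j + 1) => bt T s) / cB (fun s : Fin (j + 1) => bt (i :: T) s) <
      cB (fun s : Fin j => bt T s) / cB (fun s : Fin j => bt (i :: T) s) := by
  have hi := i.2
  have hpos := rho_pos hL h2.le
  have hlt : bt T j < bt T (k - 1 - i) := bt_lt hL.tail (by omega) h2
  rw [cB_div_succ (s0 := k - 1 - i) (by omega) bt_cons_self (fun s _ hs => bt_cons_ne hs) hlt]
  · have h3 : (bt T j : ℝ) < bt T (k - 1 - i) := by exact_mod_cast hlt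
    have h4 : (((bt T (k - 1 - i) : ℕ) : ℝ) - bt T j) / (((bt T (k - 1 - i) : ℕ) : ℝ) + 1 - bt T j) < 1 := by
      rw [div_lt_one (by linarith)]
      linarith
    exact mul_lt_of_lt_one_right hpos h4
  · intro s hs
    have := bt_lt hL hs h2
    rw [bt_cons_ne (s := j) (by omega)] at this
    exact this.ne

end Pool.Agent.GC18.St
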