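import Pool.Agent.GC18.StStmts
import Pool.Agent.GC18.Rich

/-!
# Grassmann convexity (MP_5fea31_an): shape of `X_T(z)`, the polynomials `W_j`   (helper18)

* `piv T c = T.count c + c`, strictly increasing for lattice words
* `XT_of_gt`, `XT_piv` : last nonzero entry of the column `c`
* `RP V` : the polynomial `t ↦ DR one1 V t`; `RP_natDegree_le`, `RP_coeff_top` for column echelon `V`
* `cB β = det (1/(β_s - a)!)`, `cB_formula`, `cB_ne_zero`
* smoothness of `z ↦ XT T z a c`
-/

set_option autoImplicit false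

namespace Pool.Agent.GC18.St

open Matrix Filter Topology Set

/-! ### words -/

/-- pivots at infinity -/
def piv {k : ℕ} (T : List (Fin k)) (c : Fin k) : ℕ := T.count c + c

lemma Lat.mono {k m : ℕ} {T : List (Fin k)} (h : Lat m T) : Monotone (fun c => T.count c) := by
  cases T with
  | nil => intro a b _; simp
  | cons i T => exact h.2.1

lemma Lat.le {k m : ℕ} {T : List (Fin k)} (h : Lat m T) (c : Fin k) : T.count c ≤ m := by
  cases T with
  | nil => simp
  | cons i T => exact h.2.2 c

lemma Lat.tail {k m : ℕ} {i : Fin k} {T : List (Fin k)} (h : Lat m (i :: T)) : Lat m T := h.1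

lemma piv_strictMono {k m : ℕ} {T : List (Fin k)} (h : Lat m T) : StrictMono (piv T) := by
  intro a b hab
  have h1 : T.count a ≤ T.count b := h.mono hab.le
  have h2 : (a : ℕ) < b := hab
  show T.count a + a < T.count b + b
  omega

lemma piv_lt {k m : ℕ} {T : List (Fin k)} (h : Lat m T) (c : Fin k) : piv T c < m + k := by
  have h1 := h.le c
  have h2 := c.2
  show T.count c + c < m + k
  omega

lemma piv_cons_self {k : ℕ} (i : Fin k) (T : List (Fin k)) : piv (i :: T) i = piv T i + 1 := by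
  simp [piv, List.count_cons_self]; omega

lemma piv_cons_ne {k : ℕ} {i c : Fin k} (h : c ≠ i) (T : List (Fin k)) : piv (i :: T) c = piv T c := by
  simp [piv, List.count_cons_of_ne (Ne.symm h)]

/-- the product of the `z_q` of row `c` -/
def pr {k : ℕ} : List (Fin k) → (ℕ → ℝ) → Fin k → ℝ
  | [], _ => fun _ => 1
  | i :: T, z => fun c => if c = i then z T.length * pr T z c else pr T z c

lemma XT_cons {k : ℕ} (i : Fin k) (T : List (Fin k)) (z : ℕ → ℝ) (a : ℕ) (c : Fin k) :
    XT (i :: T) z a c = XT T z a c + (if a = piv T i + 1 then z T.length * XT T z (piv T i) c else 0) := rfl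

lemma XT_of_gt {k m : ℕ} {T : List (Fin k)} (h : Lat m T) (z : ℕ → ℝ) {a : ℕ} {c : Fin k}
    (ha : piv T c < a) : XT T z a c = 0 := by
  induction T generalizing a c with
  | nil =>
    have : (c : ℕ) < a := by simpa [piv] using ha
    simp only [XT]
    rw [if_neg (by omega)]
  | cons i T ih =>
    rw [XT_cons]
    have hT := h.tail
    by_cases hc : c = i
    · subst hc
      rw [piv_cons_self] at ha
      rw [ih hT (by omega), if_neg (by omega), add_zero]
    · rw [piv_cons_ne hc] at ha
      rw [ih hT ha, zero_add]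
      split_ifs with hb
      · have h1 : piv T c ≠ piv T i := fun e => hc ((piv_strictMono hT).injective e)
        rw [ih hT (by omega), mul_zero]
      · rfl

lemma XT_piv {k m : ℕ} {T : List (Fin k)} (h : Lat m T) (z : ℕ → ℝ) (c : Fin k) :
    XT T z (piv T c) c = pr T z c := by
  induction T generalizing c with
  | nil => simp [XT, pr, piv]
  | cons i T ih =>
    rw [XT_cons]
    have hT := h.tail
    by_cases hc : c = i
    · subst hc
      rw [piv_cons_self, XT_of_gt hT z (by omega), if_pos rfl, ih hT]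
      simp [pr]
    · rw [piv_cons_ne hc, ih hT]
      have h1 : piv T c ≠ piv T i + 1 := by
        intro e
        have h2 : piv (i :: T) c = piv (i :: T) i := by rw [piv_cons_ne hc, piv_cons_self, e]
        exact hc ((piv_strictMono h).injective h2)
      rw [if_neg h1, add_zero]
      simp [pr, hc]

/-- rows `≥ m + k` vanish -/
lemma XT_ge {k m : ℕ} {T : List (Fin k)} (h : Lat m T) (z : ℕ → ℝ) {a : ℕ} (c : Fin k)
    (ha : m + k ≤ a) : XT T z a c = 0 :=
  XT_of_gt h z (lt_of_lt_of_le (piv_lt h c) ha)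

lemma XT_congr {k : ℕ} (T : List (Fin k)) {z z' : ℕ → ℝ} (h : ∀ q < T.length, z q = z' q) (a : ℕ) (c : Fin k) :
    XT T z a c = XT T z' a c := by
  induction T generalizing a c with
  | nil => rfl
  | cons i T ih =>
    have h' : ∀ q < T.length, z q = z' q := fun q hq => h q (by simp; omega)
    rw [XT_cons, XT_cons, ih h', ih h', h T.length (by simp)]

lemma XT_cons_zero {k : ℕ} (i : Fin k) (T : List (Fin k)) {z : ℕ → ℝ} (h : z T.length = 0) (a : ℕ) (c : Fin k) :
    XT (i :: T) z a c = XT T z a c := by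
  rw [XT_cons, h]; simp

lemma pr_congr {k : ℕ} (T : List (Fin k)) {z z' : ℕ → ℝ} (h : ∀ q < T.length, z q = z' q) (c : Fin k) :
    pr T z c = pr T z' c := by
  induction T with
  | nil => rfl
  | cons i T ih =>
    have h' : ∀ q < T.length, z q = z' q := fun q hq => h q (by simp; omega)
    simp only [pr]
    rw [ih h', h T.length (by simp)]

lemma pr_ne_zero {k : ℕ} (T : List (Fin k)) {z : ℕ → ℝ} (h : ∀ q < T.length, z q ≠ 0) (c : Fin k) :
    pr T z c ≠ 0 := by
  induction T with
  | nil => simp [pr]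
  | cons i T ih =>
    have h' : ∀ q < T.length, z q ≠ 0 := fun q hq => h q (by simp; omega)
    simp only [pr]
    split_ifs
    · exact mul_ne_zero (h _ (by simp)) (ih h')
    · exact ih h'

lemma prod_pr {k : ℕ} (T : List (Fin k)) (z : ℕ → ℝ) :
    ∏ c, pr T z c = ∏ q ∈ Finset.range T.length, z q := by
  induction T with
  | nil => simp [pr]
  | cons i T ih =>
    have e : ∀ c, pr (i :: T) z c = (if c = i then z T.length else 1) * pr T z c := by
      intro c
      simp only [pr]
      split_ifs <;> simp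
    simp only [e, Finset.prod_mul_distrib, ih, List.length_cons, Finset.prod_range_succ]
    simp
    ring

lemma Neg.ne_zero {k : ℕ} {T : List (Fin k)} {z : ℕ → ℝ} (h : Neg T z) : ∀ q < T.length, z q ≠ 0 :=
  fun q hq => (h.1 q hq).ne

/-- smooth dependence -/
lemma contDiff_XT {k : ℕ} {E : Type*} [NormedAddCommGroup E] [NormedSpace ℝ E] {n : WithTop ℕ∞} {f : E → ℕ → ℝ}
    (hf : ∀ q, ContDiff ℝ n (fun y => f y q)) (T : List (Fin k)) (a : ℕ) (c : Fin k) :
    ContDiff ℝ n (fun y => XT T (f y) a c) := by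
  induction T generalizing a c with
  | nil => exact contDiff_const
  | cons i T ih =>
    simp only [XT_cons]
    refine (ih a c).add ?_
    split_ifs
    · exact (hf _).mul (ih _ c)
    · exact contDiff_const

lemma continuous_XT {k : ℕ} (T : List (Fin k)) (a : ℕ) (c : Fin k) :
    Continuous (fun z : ℕ → ℝ => XT T z a c) := by
  induction T generalizing a c with
  | nil => exact continuous_const
  | cons i T ih =>
    simp only [XT_cons]
    refine (ih a c).add ?_
    split_ifs
    · exact (continuous_apply _).mul (ih _ c)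
    · exact continuous_const

/-! ### the polynomial `t ↦ DR one1 V t` -/

/-- `1/(b-a)!` or `0` -/
noncomputable def cf (a b : ℕ) : ℝ := if a ≤ b then 1 / ((b - a).factorial : ℝ) else 0

lemma ge_one_cf (a b : ℕ) (t : ℝ) : ge one1 a b t = cf a b * t ^ (b - a) := by
  rw [ge_one, cf]; split_ifs <;> ring

/-- matrix of polynomials -/
noncomputable def PMat {n p : ℕ} (V : Matrix (Fin n) (Fin p) ℝ) : Matrix (Fin p) (Fin p) (Polynomial ℝ) :=
  Matrix.of fun a s => ∑ b : Fin n, Polynomial.C (cf a b * V b s) * Polynomial.X ^ ((b : ℕ) - a)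

/-- the polynomial `D(t;V)` of the rational normal curve -/
noncomputable def RP {n p : ℕ} (V : Matrix (Fin n) (Fin p) ℝ) : Polynomial ℝ := (PMat V).det

lemma RP_eval {n p : ℕ} (V : Matrix (Fin n) (Fin p) ℝ) (t : ℝ) : (RP V).eval t = DR one1 V t := by
  have h : (RP V).eval t = (Polynomial.evalRingHom t) (PMat V).det := rfl
  rw [h, RingHom.map_det, RingHom.mapMatrix_apply, DR]
  congr 1
  ext a s
  simp only [Matrix.map_apply, PMat, Matrix.of_apply, Matrix.mul_apply, Gam]
  rw [map_sum]
  refine Finset.sum_congr rfl fun b _ => ?_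
  rw [ge_one_cf]
  simp
  ring

lemma DR_eq_RP {n p : ℕ} (V : Matrix (Fin n) (Fin p) ℝ) : DR one1 V = fun t => (RP V).eval t :=
  funext fun t => (RP_eval V t).symm

lemma deriv_DR_eq {n p : ℕ} (V : Matrix (Fin n) (Fin p) ℝ) (t : ℝ) :
    deriv (DR one1 V) t = (Polynomial.derivative (RP V)).eval t := by
  rw [DR_eq_RP]; exact (RP V).deriv

/-- entries: zero if the column vanishes above `a`, degree bound -/
lemma PMat_natDegree {n p : ℕ} {V : Matrix (Fin n) (Fin p) ℝ} {β : Fin p → ℕ}
    (h : ∀ (b : Fin n) s, β s < b → V b s = 0) (a s : Fin p) : (PMat V a s).natDegree ≤ β s - a := by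
  simp only [PMat, Matrix.of_apply]
  refine Polynomial.natDegree_sum_le_of_forall_le _ _ fun b _ => ?_
  by_cases hb : β s < b
  · rw [h b s hb]; simp
  · refine (Polynomial.natDegree_C_mul_X_pow_le _ _).trans ?_
    omega

lemma PMat_eq_zero {n p : ℕ} {V : Matrix (Fin n) (Fin p) ℝ} {β : Fin p → ℕ}
    (h : ∀ (b : Fin n) s, β s < b → V b s = 0) {a s : Fin p} (has : β s < a) : PMat V a s = 0 := by
  simp only [PMat, Matrix.of_apply]
  refine Finset.sum_eq_zero fun b _ => ?_
  by_cases hb : β s < b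
  · rw [h b s hb]; simp
  · have : ¬ ((a : ℕ) ≤ b) := by omega
    simp [cf, this]

lemma PMat_coeff {n p : ℕ} {V : Matrix (Fin n) (Fin p) ℝ} {β : Fin p → ℕ}
    (h : ∀ (b : Fin n) s, β s < b → V b s = 0) (hβ : ∀ s, β s < n) {a s : Fin p} (has : (a : ℕ) ≤ β s) :
    (PMat V a s).coeff (β s - a) = cf a (β s) * V ⟨β s, hβ s⟩ s := by
  simp only [PMat, Matrix.of_apply, Polynomial.finsetSum_coeff, Polynomial.coeff_C_mul_X_pow]
  rw [Finset.sum_eq_single (⟨β s, hβ s⟩ : Fin n)]
  · simp
  · intro b _ hb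
    rcases lt_trichotomy (b : ℕ) (β s) with h1 | h1 | h1
    · split_ifs with h2
      · have : ¬ ((a : ℕ) ≤ b) := by omega
        simp [cf, this]
      · rfl
    · exact absurd (Fin.ext h1) hb
    · rw [h b s h1]; simp
  · simp

lemma coeff_prod_le {ι : Type*} (S : Finset ι) (f : ι → Polynomial ℝ) (d : ι → ℕ)
    (h : ∀ s ∈ S, (f s).natDegree ≤ d s) :
    (∏ s ∈ S, f s).coeff (∑ s ∈ S, d s) = ∏ s ∈ S, (f s).coeff (d s) := by
  classical
  induction S using Finset.induction_on with
  | empty => simp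
  | insert a S ha ih =>
    rw [Finset.prod_insert ha, Finset.sum_insert ha, Finset.prod_insert ha,
      Polynomial.coeff_mul_add_eq_of_natDegree_le (h a (Finset.mem_insert_self a S)), 
      ih fun s hs => h s (Finset.mem_insert_of_mem hs)]
    refine (Polynomial.natDegree_prod_le _ _).trans (Finset.sum_le_sum fun s hs => ?_)
    exact h s (Finset.mem_insert_of_mem hs)

/-- `det (1/(β_s - a)!)` -/
noncomputable def cB {p : ℕ} (β : Fin p → ℕ) : ℝ := (Matrix.of fun a s : Fin p => cf a (β s)).det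

lemma sum_perm {p : ℕ} (σ : Equiv.Perm (Fin p)) : ∑ s, ((σ s : Fin p) : ℕ) = ∑ s : Fin p, (s : ℕ) :=
  Equiv.sum_comp σ (fun s : Fin p => (s : ℕ))

lemma RP_natDegree_le {n p : ℕ} {V : Matrix (Fin n) (Fin p) ℝ} {β : Fin p → ℕ}
    (h : ∀ (b : Fin n) s, β s < b → V b s = 0) :
    (RP V).natDegree ≤ (∑ s, β s) - ∑ s : Fin p, (s : ℕ) := by
  rw [RP, Matrix.det_apply]
  refine Polynomial.natDegree_sum_le_of_forall_le _ _ fun σ _ => ?_
  refine (Polynomial.natDegree_smul_le _ _).trans ?_
  by_cases hσ : ∀ s, ((σ s : Fin p) : ℕ) ≤ β s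
  · refine (Polynomial.natDegree_prod_le _ _).trans ?_
    calc ∑ s, (PMat V (σ s) s).natDegree ≤ ∑ s, (β s - (σ s : ℕ)) :=
          Finset.sum_le_sum fun s _ => PMat_natDegree h (σ s) s
      _ = (∑ s, β s) - ∑ s, ((σ s : Fin p) : ℕ) := by
          rw [eq_comm, Nat.sub_eq_iff_eq_add (Finset.sum_le_sum fun s _ => hσ s), ← Finset.sum_add_distrib]
          exact Finset.sum_congr rfl fun s _ => by have := hσ s; omega
      _ = _ := by rw [sum_perm]
  · push Not at hσ
    obtain ⟨s, hs⟩ := hσ
    have h0 : ∏ x, PMat V (σ x) x = 0 := Finset.prod_eq_zero (Finset.mem_univ s) (PMat_eq_zero h hs)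
    rw [h0]
    simp

lemma RP_coeff_top {n p : ℕ} {V : Matrix (Fin n) (Fin p) ℝ} {β : Fin p → ℕ}
    (h : ∀ (b : Fin n) s, β s < b → V b s = 0) (hβ : ∀ s, β s < n) :
    (RP V).coeff ((∑ s, β s) - ∑ s : Fin p, (s : ℕ)) = (∏ s, V ⟨β s, hβ s⟩ s) * cB β := by
  have h1 : (∏ s, V ⟨β s, hβ s⟩ s) * cB β =
      (Matrix.of fun a s : Fin p => V ⟨β s, hβ s⟩ s * (Matrix.of fun a s : Fin p => cf a (β s)) a s).det := by
    rw [Matrix.det_mul_row]; rfl
  rw [h1, RP, Matrix.det_apply, Matrix.det_apply, Polynomial.finsetSum_coeff]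
  refine Finset.sum_congr rfl fun σ _ => ?_
  rw [Polynomial.coeff_smul]
  congr 1
  by_cases hσ : ∀ s, ((σ s : Fin p) : ℕ) ≤ β s
  · have e : (∑ s, β s) - ∑ s : Fin p, (s : ℕ) = ∑ s, (β s - (σ s : ℕ)) := by
      rw [← sum_perm σ, Nat.sub_eq_iff_eq_add (Finset.sum_le_sum fun s _ => hσ s), ← Finset.sum_add_distrib]
      exact Finset.sum_congr rfl fun s _ => by have := hσ s; omega
    rw [e, coeff_prod_le Finset.univ _ _ (fun s _ => PMat_natDegree h (σ s) s)]
    refine Finset.prod_congr rfl fun s _ => ?_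
    rw [PMat_coeff h hβ (hσ s)]
    simp only [Matrix.of_apply]; ring
  · push Not at hσ
    obtain ⟨s, hs⟩ := hσ
    have h0 : ∏ x, PMat V (σ x) x = 0 := Finset.prod_eq_zero (Finset.mem_univ s) (PMat_eq_zero h hs)
    rw [h0, Polynomial.coeff_zero, eq_comm]
    apply Finset.prod_eq_zero (Finset.mem_univ s)
    have : ¬ ((σ s : Fin p) : ℕ) ≤ β s := not_le.2 hs
    simp [cf, this]

/-- Vandermonde formula -/
lemma cB_formula {p : ℕ} (β : Fin p → ℕ) :
    cB β = (∏ s, ((β s).factorial : ℝ)⁻¹) * ∏ i : Fin p, ∏ j ∈ Finset.Ioi i, ((β j : ℝ) - β i) := by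
  have h1 : (Matrix.of fun a s : Fin p => cf a (β s)) =
      Matrix.of fun a s : Fin p => ((β s).factorial : ℝ)⁻¹ *
        (Matrix.of fun a s : Fin p => ((β s).descFactorial a : ℝ)) a s := by
    ext a s
    simp only [Matrix.of_apply, cf]
    split_ifs with h
    · have h2 := Nat.factorial_mul_descFactorial h
      have h3 : ((β s - a).factorial : ℝ) * ((β s).descFactorial a : ℝ) = ((β s).factorial : ℝ) := by
        exact_mod_cast h2
      have h4 : ((β s - a).factorial : ℝ) ≠ 0 := by positivity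
      have h5 : ((β s).factorial : ℝ) ≠ 0 := by positivity
      have h6 : ((β s).descFactorial a : ℝ) ≠ 0 := by
        intro h0; rw [h0, mul_zero] at h3; exact h5 h3.symm
      rw [← h3]
      field_simp
    · have : (β s).descFactorial a = 0 := Nat.descFactorial_eq_zero_iff_lt.2 (not_le.1 h)
      rw [this]; simp
  rw [cB, h1, Matrix.det_mul_row]
  congr 1
  have h2 : (Matrix.of fun a s : Fin p => ((β s).descFactorial a : ℝ)) =
      (Matrix.of fun s a : Fin p => Polynomial.eval ((β s : ℕ) : ℝ) (descPochhammer ℝ a)).transpose := by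
    ext a s
    simp [descPochhammer_eval_eq_descFactorial]
  rw [h2, Matrix.det_transpose, ← Matrix.det_eval_matrixOfPolynomials_eq_det_vandermonde
    (fun s => ((β s : ℕ) : ℝ)) (fun i : Fin p => descPochhammer ℝ i)
    (fun i => descPochhammer_natDegree ℝ i) (fun i => monic_descPochhammer ℝ i), Matrix.det_vandermonde]

lemma cB_ne_zero {p : ℕ} {β : Fin p → ℕ} (hβ : Function.Injective β) : cB β ≠ 0 := by
  rw [cB_formula]
  refine mul_ne_zero ?_ ?_
  · exact Finset.prod_ne_zero_iff.2 fun s _ => by positivity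
  · refine Finset.prod_ne_zero_iff.2 fun i _ => Finset.prod_ne_zero_iff.2 fun j hj => ?_
    rw [Finset.mem_Ioi] at hj
    rw [sub_ne_zero]
    intro e
    exact hj.ne' (hβ (by exact_mod_cast e))

/-! ### `D` itself -/

lemma XM_apply {k : ℕ} (m : ℕ) (T : List (Fin k)) (z : ℕ → ℝ) (a : Fin (m + k)) (c : Fin k) :
    XM m T z a c = XT T z a c := rfl

lemma XM_below {k m : ℕ} {T : List (Fin k)} (h : Lat m T) (z : ℕ → ℝ) (b : Fin (m + k)) (c : Fin k)
    (hb : piv T c < b) : XM m T z b c = 0 := XT_of_gt h z hb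

lemma sum_piv {k : ℕ} (T : List (Fin k)) : (∑ c, piv T c) - ∑ c : Fin k, (c : ℕ) = T.length := by
  have h1 : ∑ c, piv T c = T.length + ∑ c : Fin k, (c : ℕ) := by
    simp only [piv, Finset.sum_add_distrib]
    congr 1
    induction T with
    | nil => simp
    | cons i T ih =>
      simp only [List.count_cons, Finset.sum_add_distrib, ih, List.length_cons]
      simp
  omega

/-- `D(t; X_T(z))` has degree `≤ |T|` and leading coefficient `(∏ z_q) * c_B` -/
lemma RP_XM_natDegree {k m : ℕ} {T : List (Fin k)} (h : Lat m T) (z : ℕ → ℝ) :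
    (RP (XM m T z)).natDegree ≤ T.length := by
  have := RP_natDegree_le (V := XM m T z) (β := piv T) (fun b c hb => XM_below h z b c hb)
  rwa [sum_piv] at this

lemma RP_XM_coeff {k m : ℕ} {T : List (Fin k)} (h : Lat m T) (z : ℕ → ℝ) :
    (RP (XM m T z)).coeff T.length = (∏ q ∈ Finset.range T.length, z q) * cB (piv T) := by
  have := RP_coeff_top (V := XM m T z) (β := piv T) (fun b c hb => XM_below h z b c hb) (fun c => piv_lt h c)
  rw [sum_piv] at this
  rw [this, ← prod_pr]
  congr 1
  exact Finset.prod_congr rfl fun c _ => XT_piv h z c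

end Pool.Agent.GC18.St
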