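import Pool.Agent.GC18.Stmts
import Pool.Agent.GC18.Alg

/-!
# Grassmann convexity (MP_5fea31_an): GC_Start, split into independent pieces   (helper18)

Numerically checked: `S_StZero` (parities and degrees), `S_StJ` (signs) for (k,m) = (2,1),(1,2),(2,2),(2,3),(3,1),(3,2).

A word `T : List (Fin k)` (HEAD = LAST box added) describes the order in which the boxes of the `k × m`
rectangle are added; `T.count c` = length of row `c` = `λ_c`; pivots at infinity `b_c = T.count c + c`.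
`X_T(z) = ∏ (1 + z_q E_{b_q, b_q - 1}) [1_k ; 0]` (in the order of time), `z q` belongs to the box added at time `q`
(`q = ` length of the tail).
-/

set_option autoImplicit false

namespace Pool.Agent.GC18.St

open Matrix Filter Topology Set

/-- lattice words: row lengths weakly increasing in the row index, at most `m` -/
def Lat {k : ℕ} (m : ℕ) : List (Fin k) → Prop
  | [] => True
  | i :: T => Lat m T ∧ Monotone (fun c => (i :: T).count c) ∧ ∀ c, (i :: T).count c ≤ m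

/-- the matrix `X_T(z)`, rows indexed by `ℕ`:
adding the box in row `i` (`b = T.count i + i + 1`): row `b` += `z_q` * row `b - 1` -/
def XT {k : ℕ} : List (Fin k) → (ℕ → ℝ) → ℕ → Fin k → ℝ
  | [], _ => fun a c => if a = c then 1 else 0
  | i :: T, z => fun a c => XT T z a c +
      (if a = T.count i + i + 1 then z T.length * XT T z (T.count i + i) c else 0)

/-- `X_T(z)` as an `(m+k) × k` matrix -/
def XM {k : ℕ} (m : ℕ) (T : List (Fin k)) (z : ℕ → ℝ) : Matrix (Fin (m + k)) (Fin k) ℝ :=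
  Matrix.of fun a c => XT T z a c

/-- Jacobian in the coordinates `z` (time order) -/
noncomputable def Jz {k : ℕ} (m : ℕ) (T : List (Fin k)) (t z : ℕ → ℝ) : ℝ :=
  (Matrix.of fun p q : Fin T.length =>
    deriv (fun τ => DR one1 (XM m T (Function.update z q τ)) (t p)) (z q)).det

/-- inversions of a word -/
def invT {k : ℕ} : List (Fin k) → ℕ
  | [] => 0
  | i :: T => invT T + ∑ c ∈ Finset.univ.filter (fun c => i < c), T.count c

/-- the moving flag: `Y_s = X_T(z) U_s` -/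
def Yv {k : ℕ} (m : ℕ) (U : ℕ → Fin k → ℝ) (T : List (Fin k)) (z : ℕ → ℝ) : ℕ → Fin (m + k) → ℝ :=
  fun s a => ∑ c, XT T z a c * U s c

/-- triangular base flags: the last nonzero coordinate of `U_s` is the coordinate `k-1-s`, equal to `1` -/
structure Base {k : ℕ} (U : ℕ → Fin k → ℝ) : Prop where
  zero : ∀ (s : ℕ) (c : Fin k), k < s + (c : ℕ) + 1 → U s c = 0
  one : ∀ (s : ℕ) (c : Fin k), s + (c : ℕ) + 1 = k → U s c = 1

/-- good at level `T` : no common zeros of `W_j, W_{j+1}`, simple zeros of `W_k = D` -/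
structure GoodT {k : ℕ} (m : ℕ) (U : ℕ → Fin k → ℝ) (T : List (Fin k)) (z : ℕ → ℝ) : Prop where
  nocommon : ∀ j, 0 < j → j < k → ∀ t, ¬ (DR one1 (Ym (Yv m U T z) j) t = 0 ∧
    DR one1 (Ym (Yv m U T z) (j + 1)) t = 0)
  simple : ∀ t, DR one1 (Ym (Yv m U T z) k) t = 0 → deriv (DR one1 (Ym (Yv m U T z) k)) t ≠ 0

/-- the exponent of the sign of the flag -/
noncomputable def Ex {k : ℕ} (m : ℕ) (U : ℕ → Fin k → ℝ) (T : List (Fin k)) (z : ℕ → ℝ) : ℕ :=
  ∑ j ∈ Finset.Ioo 0 k, inv (Zs one1 (Yv m U T z) j) (Zs one1 (Yv m U T z) (j + 1))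

/-- a point of the open orthant of `T` -/
def Neg {k : ℕ} (T : List (Fin k)) (z : ℕ → ℝ) : Prop :=
  (∀ q < T.length, z q < 0) ∧ ∀ q, T.length ≤ q → z q = 0

/-- (a) existence of a good base flag (from `ExGood` with `n = k`) -/
def S_StBase : Prop := ∀ (m k : ℕ), 1 ≤ k →
  ∃ U : ℕ → Fin k → ℝ, Base U ∧ GoodT m U ([] : List (Fin k)) (fun _ => 0)

/-- (b) one box is added: the zeros of all `W_j`.  `z` near `z0`, `z_r < 0`. -/
def S_StZero : Prop := ∀ (m k : ℕ) (i : Fin k) (T : List (Fin k)), Lat m (i :: T) →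
  ∀ U : ℕ → Fin k → ℝ, Base U → ∀ z0 : ℕ → ℝ, Neg T z0 → GoodT m U T z0 →
  ∃ δ > 0, ∀ z : ℕ → ℝ, (∀ q, |z q - z0 q| < δ) → Neg (i :: T) z →
    GoodT m U (i :: T) z ∧
    Ex m U (i :: T) z % 2 = (Ex m U T z0 + ((i : ℕ) +
      ∑ c ∈ Finset.univ.filter (fun c => i ≤ c), T.count c + (k - i) * i + T.length)) % 2

/-- (c) implicit function theorem: one box and one large time `1/κ` are added -/
def S_StIFT : Prop := ∀ (m k : ℕ) (i : Fin k) (T : List (Fin k)), Lat m (i :: T) →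
  ∀ (t z0 : ℕ → ℝ), Neg T z0 → (∀ p < T.length, DR one1 (XM m T z0) (t p) = 0) → Jz m T t z0 ≠ 0 →
  ∀ δ > 0, ∃ κ0 > 0, ∀ κ : ℝ, 0 < κ → κ < κ0 → ∃ z : ℕ → ℝ, (∀ q, |z q - z0 q| < δ) ∧
    Neg (i :: T) z ∧
    (∀ p < (i :: T).length, DR one1 (XM m (i :: T) z) (Function.update t T.length κ⁻¹ p) = 0) ∧
    Jz m (i :: T) (Function.update t T.length κ⁻¹) z ≠ 0 ∧
    (SignType.sign (Jz m (i :: T) (Function.update t T.length κ⁻¹) z) : ℤ) =
      (-1) ^ T.length * SignType.sign (Jz m T t z0)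

/-- (d) comparison with the coordinates of the chart at infinity (full rectangle) -/
def S_StJ : Prop := ∀ (m k : ℕ), 1 ≤ m → 1 ≤ k → ∃ c : ℤ, (c = 1 ∨ c = -1) ∧
  ∀ T : List (Fin k), Lat m T → T.length = m * k → ∀ (t z : ℕ → ℝ), Neg T z →
    (∀ p < T.length, DR one1 (XM m T z) (t p) = 0) → Jz m T t z ≠ 0 →
    ∃ (x : Fin (m * k) → ℝ) (C : Matrix (Fin k) (Fin k) ℝ), C.det ≠ 0 ∧ XM m T z = Xinf x * C ∧
      JJ (Gt one1 m k (fun p => t p)) x ≠ 0 ∧
      (SignType.sign (JJ (Gt one1 m k (fun p => t p)) x) : ℤ) =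
        c * (-1) ^ invT T * SignType.sign (Jz m T t z)

/-- (e) counting lattice words -/
def S_StWords : Prop := ∀ (m k : ℕ), ∃ L : Finset (List (Fin k)),
  (∀ T, T ∈ L ↔ T.length = m * k ∧ Lat m T) ∧ L.card = dd m k

/-- two planes are different (an open condition) -/
def Diff {n k : ℕ} (X X' : Matrix (Fin n) (Fin k) ℝ) : Prop :=
  ∃ I I' : Fin k → Fin n, (X.submatrix I id).det * (X'.submatrix I' id).det ≠
    (X.submatrix I' id).det * (X'.submatrix I id).det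

/-- (f) planes in different cells are different -/
def S_StCell : Prop := ∀ (m k : ℕ) (T T' : List (Fin k)), Lat m T → Lat m T' → T.length = T'.length →
  ∀ z z' : ℕ → ℝ, Neg T z → Neg T' z' → (∃ c, T.count c ≠ T'.count c) → Diff (XM m T z) (XM m T' z')

/-! ### abstract lemma on pairs of families of polynomials, used for (b) -/

/-- real zeros -/
def Zr (P : Polynomial ℝ) : Set ℝ := {t | P.eval t = 0}

/-- type A : the degree does not change -/
structure TypA {ι : Type} (l : Filter ι) (P : ι → Polynomial ℝ) (P0 : Polynomial ℝ) (d : ℕ) : Prop where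
  ne0 : P0 ≠ 0
  deg0 : P0.natDegree = d
  deg : ∀ i, (P i).natDegree ≤ d
  lim : ∀ n, Tendsto (fun i => (P i).coeff n) l (𝓝 (P0.coeff n))
  simple : ∀ t, P0.eval t = 0 → (Polynomial.derivative P0).eval t ≠ 0

/-- type B : the degree grows by one; one new zero `t_i` with `e_i t_i → ρ > 0` -/
structure TypB {ι : Type} (l : Filter ι) (e : ι → ℝ) (P : ι → Polynomial ℝ) (P0 : Polynomial ℝ) (d : ℕ)
    (ρ : ℝ) : Prop where
  ne0 : P0 ≠ 0
  deg0 : P0.natDegree = d
  deg : ∀ i, (P i).natDegree ≤ d + 1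
  lim : ∀ n, Tendsto (fun i => (P i).coeff n) l (𝓝 (P0.coeff n))
  simple : ∀ t, P0.eval t = 0 → (Polynomial.derivative P0).eval t ≠ 0
  rho : 0 < ρ
  top : Tendsto (fun i => (P i).coeff (d + 1) / e i) l (𝓝 (-(P0.coeff d) / ρ))

/-- the conclusion for one pair at one index -/
def PairOK (P Q : Polynomial ℝ) (P0 Q0 : Polynomial ℝ) (x : ℕ) : Prop :=
  (∀ t, P.eval t = 0 → (Polynomial.derivative P).eval t ≠ 0) ∧
  (∀ t, Q.eval t = 0 → (Polynomial.derivative Q).eval t ≠ 0) ∧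
  (∀ t, ¬ (P.eval t = 0 ∧ Q.eval t = 0)) ∧
  inv (Zr P) (Zr Q) % 2 = (inv (Zr P0) (Zr Q0) + x) % 2

/-- (b1) pairs AA, AB, BB -/
def S_StPair : Prop := ∀ (ι : Type) (l : Filter ι) (e : ι → ℝ), (∀ᶠ i in l, 0 < e i) → Tendsto e l (𝓝 0) →
  ∀ (P Q : ι → Polynomial ℝ) (P0 Q0 : Polynomial ℝ) (dp dq : ℕ) (ρp ρq : ℝ),
  (∀ t, ¬ (P0.eval t = 0 ∧ Q0.eval t = 0)) →
  (TypA l P P0 dp → TypA l Q Q0 dq → ∀ᶠ i in l, PairOK (P i) (Q i) P0 Q0 0) ∧
  (TypA l P P0 dp → TypB l e Q Q0 dq ρq → ∀ᶠ i in l, PairOK (P i) (Q i) P0 Q0 0) ∧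
  (TypB l e P P0 dp ρp → TypB l e Q Q0 dq ρq → ρq < ρp →
    ∀ᶠ i in l, PairOK (P i) (Q i) P0 Q0 (dp + dq + 1))

end Pool.Agent.GC18.St
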