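import Pool.Agent.GC18.StShape
import Pool.Agent.GC18.DetTools

/-!
# Grassmann convexity, GC_Start block (b): constants of the rational normal curve, simple zeros (helper31)
-/

set_option autoImplicit false

namespace Pool.Agent.GC18.St.Z31

open Matrix Filter Topology Set

/-- Vandermonde product of natural numbers -/
noncomputable def vd {p : ℕ} (b : Fin p → ℕ) : ℝ :=
  ∏ i : Fin p, ∏ j ∈ Finset.Ioi i, ((b j : ℝ) - (b i : ℝ))

lemma cB_eq {p : ℕ} (b : Fin p → ℕ) :
    cB b = (∏ r, ((b r).factorial : ℝ)⁻¹) * vd b := cB_formula b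

/-- in a flag of type `GoodT` all zeros of all `W_j` are simple -/
lemma goodT_simple {m k : ℕ} {U : ℕ → Fin k → ℝ} {T : List (Fin k)} {z : ℕ → ℝ}
    (h : GoodT m U T z) {j : ℕ} (hj : j ≤ k) (t : ℝ)
    (h0 : DR one1 (Ym (Yv m U T z) j) t = 0) : deriv (DR one1 (Ym (Yv m U T z) j)) t ≠ 0 := by
  rcases Nat.eq_zero_or_pos j with hj0 | hj0
  · subst hj0
    rw [DR_Ym_zero] at h0
    exact absurd h0 one_ne_zero
  obtain ⟨p, rfl⟩ : ∃ p, j = p + 1 := ⟨j - 1, by omega⟩
  rcases hj.eq_or_lt with h1 | h1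
  · subst h1
    exact h.simple t h0
  · rw [deriv_W (wt_one1 one_pos)]
    set Y := Yv m U T z with hY
    have hid := W_identity one1 Y p t
    rw [h0, zero_mul, zero_sub] at hid
    intro h3
    rw [h3, zero_mul, neg_zero] at hid
    have hr : DR one1 (Ym Y (p + 2)) t ≠ 0 :=
      fun h2 => h.nocommon (p + 1) (Nat.succ_pos p) h1 t ⟨h0, h2⟩
    have hp0 : DR one1 (Ym Y p) t ≠ 0 := by
      rcases Nat.eq_zero_or_pos p with h2 | h2
      · subst h2
        rw [DR_Ym_zero]
        exact one_ne_zero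
      · exact fun h4 => h.nocommon p h2 (by omega) t ⟨h4, h0⟩
    exact mul_ne_zero one_ne_zero (mul_ne_zero hp0 hr) hid

/-- `vd` as a product over ranges -/
lemma vd_range (p : ℕ → ℕ) (j : ℕ) :
    vd (fun s : Fin j => p s) = ∏ r ∈ Finset.range j, ∏ i ∈ Finset.range r, ((p r : ℝ) - (p i : ℝ)) := by
  unfold vd
  have h1 : (∏ i : Fin j, ∏ r ∈ Finset.Ioi i, ((p r : ℝ) - (p i : ℝ)))
      = ∏ r : Fin j, ∏ i ∈ Finset.Iio r, ((p r : ℝ) - (p i : ℝ)) := by
    refine Finset.prod_comm' (fun i r => ?_)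
    simp
  rw [h1, ← Fin.prod_univ_eq_prod_range (fun r => ∏ i ∈ Finset.range r, ((p r : ℝ) - (p i : ℝ))) j]
  refine Finset.prod_congr rfl (fun r _ => ?_)
  have h2 : (Finset.Iio r).map Fin.valEmbedding = Finset.range (r : ℕ) := by
    rw [Fin.map_valEmbedding_Iio]
    ext x; simp
  rw [← h2, Finset.prod_map]
  rfl

/-- `cB` of the first `j` values -/
noncomputable def cn (p : ℕ → ℕ) (j : ℕ) : ℝ := cB (fun s : Fin j => p s)

lemma cn_zero (p : ℕ → ℕ) : cn p 0 = 1 := by
  rw [cn, cB_eq, vd_range]; simp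

lemma cn_succ (p : ℕ → ℕ) (j : ℕ) :
    cn p (j + 1) = cn p j * (((p j).factorial : ℝ)⁻¹ * ∏ i ∈ Finset.range j, ((p j : ℝ) - (p i : ℝ))) := by
  have h1 : ∀ j, (∏ r : Fin j, ((p r).factorial : ℝ)⁻¹) = ∏ r ∈ Finset.range j, ((p r).factorial : ℝ)⁻¹ :=
    fun j => Fin.prod_univ_eq_prod_range (fun r => ((p r).factorial : ℝ)⁻¹) j
  rw [cn, cn, cB_eq, cB_eq, vd_range, vd_range, h1, h1, Finset.prod_range_succ,
    Finset.prod_range_succ]
  ring

lemma cn_ne_zero (p : ℕ → ℕ) (j : ℕ) (h : ∀ a b, a < b → b < j → p b < p a) : cn p j ≠ 0 := by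
  refine cB_ne_zero (fun a b hab => ?_)
  by_contra hne
  rcases lt_or_gt_of_ne hne with h1 | h1
  · exact absurd hab (h a b h1 b.2).ne'
  · exact absurd hab (h b a h1 a.2).ne

/-- the numbers `ρ_j` are positive and strictly decreasing -/
lemma rho_main (p p' : ℕ → ℕ) (k s0 : ℕ) (hs0 : s0 < k)
    (hp : ∀ a b, a < b → b < k → p b < p a) (hp' : ∀ a b, a < b → b < k → p' b < p' a)
    (h0 : p' s0 = p s0 + 1) (hne : ∀ s, s < k → s ≠ s0 → p' s = p s) :
    (∀ j, s0 < j → j ≤ k → 0 < cn p j / cn p' j) ∧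
    (∀ j, s0 < j → j + 1 ≤ k → cn p (j + 1) / cn p' (j + 1) < cn p j / cn p' j) := by
  have heq : ∀ j, j ≤ s0 → cn p' j = cn p j := by
    intro j hj
    unfold cn
    congr 1
    funext s
    exact hne s (by have := s.2; omega) (by have := s.2; omega)
  have hstep : ∀ j, s0 < j → j + 1 ≤ k → cn p (j + 1) / cn p' (j + 1)
      = cn p j / cn p' j * (((p j : ℝ) - p s0) / ((p j : ℝ) - p' s0)) := by
    intro j hj hjk
    have hpj : p' j = p j := hne j (by omega) (by omega)
    rw [cn_succ, cn_succ, hpj]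
    have hmem : s0 ∈ Finset.range j := Finset.mem_range.mpr hj
    rw [← Finset.mul_prod_erase _ _ hmem, ← Finset.mul_prod_erase _ (fun i => ((p j : ℝ) - (p' i : ℝ))) hmem]
    have h1 : ∏ i ∈ (Finset.range j).erase s0, ((p j : ℝ) - (p' i : ℝ))
        = ∏ i ∈ (Finset.range j).erase s0, ((p j : ℝ) - (p i : ℝ)) := by
      refine Finset.prod_congr rfl (fun i hi => ?_)
      have hij : i < j := Finset.mem_range.mp (Finset.mem_of_mem_erase hi)
      rw [hne i (by omega) (Finset.ne_of_mem_erase hi)]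
    rw [h1]
    have h2 : ∏ i ∈ (Finset.range j).erase s0, ((p j : ℝ) - (p i : ℝ)) ≠ 0 := by
      rw [Finset.prod_ne_zero_iff]
      intro i hi
      have hij : i < j := Finset.mem_range.mp (Finset.mem_of_mem_erase hi)
      have := hp i j hij (by omega)
      have h3 : (p j : ℝ) < p i := by exact_mod_cast this
      linarith
    have h3 : ((p j).factorial : ℝ)⁻¹ ≠ 0 := by
      have : (0 : ℝ) < ((p j).factorial : ℝ) := by exact_mod_cast (p j).factorial_pos
      positivity
    have h4 : (p j : ℝ) - p' s0 ≠ 0 := by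
      have := hp' s0 j hj (by omega)
      rw [hpj] at this
      have h5 : (p j : ℝ) < p' s0 := by exact_mod_cast this
      linarith
    have h5 : cn p' j ≠ 0 := cn_ne_zero p' j (fun a b hab hb => hp' a b hab (by omega))
    field_simp
  have hbase : 0 < cn p (s0 + 1) / cn p' (s0 + 1) := by
    rw [cn_succ, cn_succ, heq s0 le_rfl]
    have h5 : cn p s0 ≠ 0 := cn_ne_zero p s0 (fun a b hab hb => hp a b hab (by omega))
    rw [mul_div_mul_left _ _ h5, mul_div_mul_comm, ← Finset.prod_div_distrib]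
    refine mul_pos ?_ (Finset.prod_pos (fun i hi => ?_))
    · have h6 : (0 : ℝ) < ((p s0).factorial : ℝ) := by exact_mod_cast (p s0).factorial_pos
      have h7 : (0 : ℝ) < ((p' s0).factorial : ℝ) := by exact_mod_cast (p' s0).factorial_pos
      positivity
    · have hi' : i < s0 := Finset.mem_range.mp hi
      have h6 := hp i s0 hi' hs0
      have h7 := hp' i s0 hi' hs0
      have h8 : (p s0 : ℝ) < p i := by exact_mod_cast h6
      have h9 : (p' s0 : ℝ) < p' i := by exact_mod_cast h7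
      exact div_pos_of_neg_of_neg (by linarith) (by linarith)
  have hpos : ∀ j, s0 < j → j ≤ k → 0 < cn p j / cn p' j := by
    intro j hj
    induction j, hj using Nat.le_induction with
    | base => exact fun _ => hbase
    | succ j hj ih =>
      intro hjk
      rw [hstep j (by omega) hjk]
      refine mul_pos (ih (by omega)) ?_
      have h6 := hp s0 j (by omega) (by omega)
      have h8 : (p j : ℝ) < p s0 := by exact_mod_cast h6
      have h9 : (p' s0 : ℝ) = p s0 + 1 := by exact_mod_cast h0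
      exact div_pos_of_neg_of_neg (by linarith) (by linarith)
  refine ⟨hpos, fun j hj hjk => ?_⟩
  rw [hstep j hj hjk]
  have h1 := hpos j hj (by omega)
  have h6 := hp s0 j hj (by omega)
  have h8 : (p j : ℝ) < p s0 := by exact_mod_cast h6
  have h9 : (p' s0 : ℝ) = p s0 + 1 := by exact_mod_cast h0
  have h10 : ((p j : ℝ) - p s0) / ((p j : ℝ) - p' s0) < 1 := by
    rw [div_lt_one_of_neg (by linarith)]
    linarith
  calc cn p j / cn p' j * (((p j : ℝ) - p s0) / ((p j : ℝ) - p' s0))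
      < cn p j / cn p' j * 1 := by gcongr
    _ = _ := mul_one _

end Pool.Agent.GC18.St.Z31
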