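import Pool.Agent.GC18.Stmts

/-!
# GC_Start (par. 5): definitions and the exact statements of the blocks   (helper19)

Words `w : List (Fin k)` (head = LAST letter) encode standard tableaux (letter = row; particle `i` starts at
position `i` and the letter `i` moves it one step up; the contents of all suffixes are weakly increasing).
`XW m k y w = ∏ (1 + y_q E_{b_q, b_q - 1}) [1_k; 0]`, `q` = time (position counted from the end of the list).
-/

set_option autoImplicit false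

namespace Pool.Agent.GC18.St

open Matrix Filter Topology Set Pool.Agent.GC18

open scoped Classical

/-- number of letters equal to `b` -/
def cN {k : ℕ} (w : List (Fin k)) (b : ℕ) : ℕ := w.countP (fun i : Fin k => decide ((i : ℕ) = b))

/-- admissible words -/
def IsW {k : ℕ} : List (Fin k) → Prop
  | [] => True
  | i :: w => IsW w ∧ Monotone (fun a : Fin k => cN (i :: w) (a : ℕ))

/-- full words -/
def IsF (m k : ℕ) (w : List (Fin k)) : Prop := IsW w ∧ ∀ a : Fin k, cN w (a : ℕ) = m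

/-- add `c` times row `b-1` to row `b` -/
def addRow {n k : ℕ} (b : ℕ) (c : ℝ) (X : Matrix (Fin n) (Fin k) ℝ) : Matrix (Fin n) (Fin k) ℝ :=
  Matrix.of fun a j => X a j + if (a : ℕ) = b ∧ 0 < b then c * X ⟨(a : ℕ) - 1, by have := a.2; omega⟩ j else 0

/-- `[1_k ; 0]` -/
def X0 (m k : ℕ) : Matrix (Fin (m + k)) (Fin k) ℝ := Matrix.of fun a j => if (a : ℕ) = j then 1 else 0

/-- the plane of a word with parameters `y` -/
noncomputable def XW (m k : ℕ) (y : ℕ → ℝ) : List (Fin k) → Matrix (Fin (m + k)) (Fin k) ℝ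
  | [] => X0 m k
  | i :: w => addRow ((i : ℕ) + cN w i + 1) (y w.length) (XW m k y w)

/-- extend a vector by 0 -/
noncomputable def ext0 {N : ℕ} (y : Fin N → ℝ) : ℕ → ℝ := fun q => if h : q < N then y ⟨q, h⟩ else 0

/-- the polynomial of `DR one1 Z` -/
noncomputable def PR {n j : ℕ} (Z : Matrix (Fin n) (Fin j) ℝ) : Polynomial ℝ :=
  (Matrix.of fun (i r : Fin j) => ∑ a : Fin n, if (i : ℕ) ≤ a then
    Polynomial.C (Z a r / (((a : ℕ) - i).factorial : ℝ)) * Polynomial.X ^ ((a : ℕ) - i) else 0).det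

/-- `c_β = det (1/(β_r - i)!)` -/
noncomputable def cb (j : ℕ) (β : ℕ → ℕ) : ℝ :=
  (Matrix.of fun (i r : Fin j) => if (i : ℕ) ≤ β r then (1 : ℝ) / ((β r - (i : ℕ)).factorial : ℝ) else 0).det

/-- the positions of the `j` upper particles: `β_r = (k-j+r) + #(k-j+r)` -/
def be (k j : ℕ) (w : List (Fin k)) (r : ℕ) : ℕ := (k - j + r) + cN w (k - j + r)

/-- degree of `W_j` -/
def dl (k j : ℕ) (w : List (Fin k)) : ℕ := j * (k - j) + w.countP (fun i : Fin k => decide (k ≤ (i : ℕ) + j))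

/-- product of the parameters of the letters in the rows `≥ k - j` -/
noncomputable def pr (k j : ℕ) (y : ℕ → ℝ) : List (Fin k) → ℝ
  | [] => 1
  | i :: w => (if k ≤ (i : ℕ) + j then y w.length else 1) * pr k j y w

/-- the last `j × j` minor of a `k × j` matrix -/
noncomputable def tau {k j : ℕ} (h : j ≤ k) (R : Matrix (Fin k) (Fin j) ℝ) : ℝ :=
  (R.submatrix (fun r : Fin j => (⟨k - j + r, by have := r.2; omega⟩ : Fin k)) id).det

/-- inversions: pairs (earlier letter) < (later letter) -/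
def invW {k : ℕ} : List (Fin k) → ℕ
  | [] => 0
  | i :: w => w.countP (fun a : Fin k => decide (a < i)) + invW w

/-- the canonical full word: first (in time) `m` letters `k-1`, then `m` letters `k-2`, ..., at the end `m` letters `0`;
as a list (head = last) it is `0^m 1^m ... (k-1)^m` -/
def w0 (m k : ℕ) : List (Fin k) := (List.ofFn fun i : Fin k => List.replicate m i).flatten

/-! ## block A (words) -/

def S_A : Prop := ∀ m k : ℕ, ∃ W : Finset (List (Fin k)), (∀ w, w ∈ W ↔ IsF m k w) ∧ W.card = dd m k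

/-! ## block B (shape of `XW`, polynomial, degree, leading coefficient) -/

/-- `DR` is a polynomial, its coefficients are smooth in the parameters -/
def S_B1 : Prop := (∀ (n j : ℕ) (Z : Matrix (Fin n) (Fin j) ℝ) (t : ℝ), DR one1 Z t = (PR Z).eval t) ∧
  (∀ (n j d : ℕ), ContDiff ℝ (⊤ : ℕ∞) (fun Z : Fin n → Fin j → ℝ => (PR (Matrix.of Z)).coeff d)) ∧
  (∀ (m k N d j : ℕ) (w : List (Fin k)) (R : Matrix (Fin k) (Fin j) ℝ),
    ContDiff ℝ (⊤ : ℕ∞) (fun y : Fin N → ℝ => (PR (XW m k (ext0 y) w * R)).coeff d))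

/-- degree and leading coefficient -/
def S_B2 : Prop := ∀ (m k j : ℕ) (hj : j ≤ k) (w : List (Fin k)), IsW w → (∀ a : Fin k, cN w a ≤ m) →
  ∀ (y : ℕ → ℝ) (R : Matrix (Fin k) (Fin j) ℝ),
    (PR (XW m k y w * R)).natDegree ≤ dl k j w ∧
    (PR (XW m k y w * R)).coeff (dl k j w) = cb j (be k j w) * pr k j y w * tau hj R

/-! ## block C (the constants) -/

def S_C1 : Prop := ∀ (j : ℕ) (β : ℕ → ℕ), (∀ r s, r < s → s < j → β r < β s) → 0 < cb j β

def S_C2 : Prop := ∀ (k j : ℕ) (i : Fin k) (w : List (Fin k)), IsW (i :: w) → k ≤ (i : ℕ) + j → j < k →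
  cb (j + 1) (be k (j + 1) w) / cb (j + 1) (be k (j + 1) (i :: w)) < cb j (be k j w) / cb j (be k j (i :: w))

/-! ## block D (real zeros of a family of polynomials, one zero of the polynomials `j ≥ j0` escapes to `+∞`) -/

def S_D : Prop := ∀ (ι : Type) (l : Filter ι) (k j0 : ℕ) (P : ℕ → Polynomial ℝ) (F : ℕ → ι → Polynomial ℝ)
  (e : ι → ℝ) (ρ : ℕ → ℝ), 1 ≤ j0 → j0 ≤ k → Tendsto e l (𝓝[>] 0) →
  (∀ j, 1 ≤ j → j ≤ k → P j ≠ 0) →
  (∀ j, 1 ≤ j → j ≤ k → ∀ i, Tendsto (fun x => (F j x).coeff i) l (𝓝 ((P j).coeff i))) →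
  (∀ j, 1 ≤ j → j < j0 → ∀ᶠ x in l, (F j x).natDegree ≤ (P j).natDegree) →
  (∀ j, j0 ≤ j → j ≤ k → ∀ᶠ x in l, (F j x).natDegree ≤ (P j).natDegree + 1) →
  (∀ j, j0 ≤ j → j ≤ k → 0 < ρ j) →
  (∀ j, j0 ≤ j → j ≤ k → Tendsto (fun x => (F j x).coeff ((P j).natDegree + 1) / e x) l
    (𝓝 (-(P j).leadingCoeff / ρ j))) →
  (∀ j, j0 ≤ j → j < k → ρ (j + 1) < ρ j) →
  (∀ j, 1 ≤ j → j ≤ k → ∀ t, (P j).eval t = 0 → (Polynomial.derivative (P j)).eval t ≠ 0) →
  (∀ j, 1 ≤ j → j < k → ∀ t, ¬ ((P j).eval t = 0 ∧ (P (j + 1)).eval t = 0)) →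
  ∀ᶠ x in l, (∀ j, 1 ≤ j → j ≤ k → ∀ t, (F j x).eval t = 0 → (Polynomial.derivative (F j x)).eval t ≠ 0) ∧
    (∀ j, 1 ≤ j → j < k → ∀ t, ¬ ((F j x).eval t = 0 ∧ (F (j + 1) x).eval t = 0)) ∧
    ((-1 : ℤ) ^ (∑ j ∈ Finset.Ioo 0 k, GC18.inv {t | (F j x).eval t = 0} {t | (F (j + 1) x).eval t = 0}) =
      (-1) ^ (∑ j ∈ Finset.Ioo 0 k, GC18.inv {t | (P j).eval t = 0} {t | (P (j + 1)).eval t = 0}) *
      (-1) ^ (∑ j ∈ Finset.Ico j0 k, ((P j).natDegree + (P (j + 1)).natDegree + 1)))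

/-! ## block E (implicit function theorem at `κ = 1/t = 0`) -/

/-- Jacobian with the rows `q < p`: `f_q`; row `p`: the given linear form `g`; rows `q > p`: `y_q` -/
noncomputable def JE {N : ℕ} (p : ℕ) (f : Fin N → (Fin N → ℝ) → ℝ) (g : Fin N → ℝ) (y : Fin N → ℝ) :
    Matrix (Fin N) (Fin N) ℝ :=
  Matrix.of fun q r => if (q : ℕ) < p then fderiv ℝ (f q) y (Pi.single r 1)
    else if (q : ℕ) = p then g r else if q = r then 1 else 0

def S_E : Prop := ∀ (N p : ℕ) (hp : p < N) (f : Fin N → (Fin N → ℝ) → ℝ) (g : ℝ × (Fin N → ℝ) → ℝ),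
  (∀ q, ContDiff ℝ (⊤ : ℕ∞) (f q)) → ContDiff ℝ (⊤ : ℕ∞) g → ∀ y0 : Fin N → ℝ,
  (∀ q : Fin N, (q : ℕ) < p → f q y0 = 0) → (∀ q : Fin N, p ≤ (q : ℕ) → y0 q = 0) → g (0, y0) = 0 →
  ∀ (u v : ℝ), (∀ h : Fin N → ℝ, fderiv ℝ g (0, y0) (0, h) = u * h ⟨p, hp⟩) → fderiv ℝ g (0, y0) (1, 0) = v →
  u ≠ 0 → (JE p f (Pi.single ⟨p, hp⟩ u) y0).det ≠ 0 →
  ∃ c : ℝ → (Fin N → ℝ), ContinuousAt c 0 ∧ c 0 = y0 ∧ HasDerivAt (fun κ => c κ ⟨p, hp⟩) (-v / u) 0 ∧
    ∀ᶠ κ in 𝓝 (0 : ℝ), (∀ q : Fin N, (q : ℕ) < p → f q (c κ) = 0) ∧ g (κ, c κ) = 0 ∧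
      (∀ q : Fin N, p < (q : ℕ) → c κ q = 0) ∧
      SignType.sign (JE p f (fun r => fderiv ℝ g (κ, c κ) (0, Pi.single r 1)) (c κ)).det =
        SignType.sign (JE p f (Pi.single ⟨p, hp⟩ u) y0).det

/-! ## block F (orientation; comparison with the chart at infinity) -/

/-- F1: every full word is the canonical word with permuted parameters -/
def S_F1 : Prop := ∀ (m k : ℕ) (w : List (Fin k)), IsF m k w →
  ∃ σ : Equiv.Perm (Fin (m * k)), ((Equiv.Perm.sign σ : ℤˣ) : ℤ) = (-1) ^ invW w ∧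
    (∀ y : Fin (m * k) → ℝ, XW m k (ext0 y) w = XW m k (ext0 (y ∘ σ)) (w0 m k)) ∧
    (∀ q : Fin (m * k), w.reverse[(σ q : ℕ)]? = (w0 m k).reverse[(q : ℕ)]?)

/-- the chart coordinate at infinity of an `(m+k) × k` matrix with invertible bottom block -/
noncomputable def chart {m k : ℕ} (X : Matrix (Fin (m + k)) (Fin k) ℝ) : Fin (m * k) → ℝ := fun q =>
  ((X.submatrix (Fin.castAdd k) id) * (X.submatrix (Fin.natAdd m) id)⁻¹) (finProdFinEquiv.symm q).1
    (finProdFinEquiv.symm q).2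

/-- F2: the bottom block is invertible, with a determinant of constant sign; `X = Xinf (chart X) * (bottom block)` -/
def S_F2 : Prop := ∀ (m k : ℕ) (w : List (Fin k)), IsF m k w → ∀ y : ℕ → ℝ, (∀ q < m * k, y q < 0) →
  0 < (-1 : ℝ) ^ (m * k) * ((XW m k y w).submatrix (Fin.natAdd m) id).det ∧
  XW m k y w = Xinf (chart (XW m k y w)) * ((XW m k y w).submatrix (Fin.natAdd m) id)

/-- F3: the chart map of the canonical word is an immersion on the negative orthant, so its Jacobian has a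
constant sign there -/
def S_F3 : Prop := ∀ (m k : ℕ), ∃ s0 : ℝ, (s0 = 1 ∨ s0 = -1) ∧ ∀ y : Fin (m * k) → ℝ, (∀ q, y q < 0) →
  0 < s0 * (Matrix.of fun (q r : Fin (m * k)) =>
    fderiv ℝ (fun y : Fin (m * k) → ℝ => chart (XW m k (ext0 y) (w0 m k)) q) y (Pi.single r 1)).det

/-- F4: injectivity for the canonical word -/
def S_F4 : Prop := ∀ (m k : ℕ) (y y' : Fin (m * k) → ℝ), (∀ q, y q < 0) → (∀ q, y' q < 0) →
  chart (XW m k (ext0 y) (w0 m k)) = chart (XW m k (ext0 y') (w0 m k)) → y = y'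

/-- F5: comparison of the two Jacobians -/
def S_F5 : Prop := ∀ (m k : ℕ) (w : List (Fin k)), IsF m k w → ∀ y : Fin (m * k) → ℝ, (∀ q, y q < 0) →
  ∀ t : Fin (m * k) → ℝ, (∀ q, DR one1 (XW m k (ext0 y) w) (t q) = 0) →
  (Matrix.of fun (q r : Fin (m * k)) =>
      fderiv ℝ (fun y : Fin (m * k) → ℝ => DR one1 (XW m k (ext0 y) w) (t q)) y (Pi.single r 1)).det =
    ((XW m k (ext0 y) w).submatrix (Fin.natAdd m) id).det ^ (m * k) *
      JJ (Gt one1 m k t) (chart (XW m k (ext0 y) w)) *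
      (Matrix.of fun (q r : Fin (m * k)) =>
        fderiv ℝ (fun y : Fin (m * k) → ℝ => chart (XW m k (ext0 y) w) q) y (Pi.single r 1)).det

/-! ## block H (parity) -/

def S_H : Prop := (∀ (k : ℕ) (i : Fin k) (w : List (Fin k)),
    (-1 : ℤ) ^ (∑ j ∈ Finset.Ico (k - i) k, (dl k j w + dl k (j + 1) w + 1)) =
      (-1) ^ ((i : ℕ) * (k - i + 1)) * (-1) ^ (w.countP (fun a : Fin k => decide (a < i)))) ∧
  (∀ (m k : ℕ) (w : List (Fin k)), IsF m k w →
    (w.map (fun i : Fin k => (-1 : ℤ) ^ ((i : ℕ) * (k - i + 1)))).prod =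
      ∏ i : Fin k, ((-1 : ℤ) ^ ((i : ℕ) * (k - i + 1))) ^ m)

end Pool.Agent.GC18.St
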