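import Pool.Agent.GC18.Stmts
import Pool.Agent.GC18.Basics
import Pool.Agent.Lib_helper50.GCConv

/-!
# Grassmann convexity (MP_5fea31_an): par. 9, the reduction of the frozen statement to `G(1)`  (helper50)
-/

set_option autoImplicit false

namespace Pool.Agent.GC18.Top

open Matrix Filter Topology Set
open Pool.Agent.Lib_helper50.GCF
open Pool.Agent.Lib_helper50.GC (const_of_deriv_zero)

/-! ## Part A: a convex curve on a compact interval is convex on a larger one -/

/-- choose exactly `n` zeros -/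
lemma exists_tuple {s : Finset ℝ} {μ : ℝ → ℕ} {n : ℕ} (h : n ≤ ∑ t ∈ s, μ t) :
    ∃ z : Fin n → ℝ, (∀ i, z i ∈ s) ∧
      ∀ b, (Finset.univ.filter fun i => z i = b).card ≤ if b ∈ s then μ b else 0 := by
  classical
  have hc : Fintype.card (Fin n) ≤ Fintype.card (Σ t : s, Fin (μ t)) := by
    rw [Fintype.card_fin, Fintype.card_sigma]
    simp only [Fintype.card_fin]
    rw [Finset.sum_coe_sort s μ]
    exact h
  obtain ⟨e⟩ := Function.Embedding.nonempty_of_card_le hc
  refine ⟨fun i => ((e i).1 : ℝ), fun i => (e i).1.2, fun b => ?_⟩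
  split_ifs with hb
  · have h1 : (Finset.univ.filter fun i => ((e i).1 : ℝ) = b).card ≤
        (Finset.univ.image (fun q : Fin (μ b) => (⟨⟨b, hb⟩, q⟩ : Σ t : s, Fin (μ t)))).card := by
      refine Finset.card_le_card_of_injOn (fun i => e i) ?_ (fun x _ y _ hxy => e.injective hxy)
      intro i hi
      simp only [Finset.coe_filter, Finset.mem_univ, true_and, mem_ofPred_eq] at hi
      simp only [Finset.coe_image, Finset.coe_univ, image_univ, mem_range]
      rcases he : e i with ⟨⟨t, ht⟩, q⟩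
      rw [he] at hi
      simp only at hi
      subst hi
      exact ⟨q, rfl⟩
    refine h1.trans (Finset.card_image_le.trans ?_)
    simp
  · rw [Nat.le_zero, Finset.card_eq_zero, Finset.filter_eq_empty_iff]
    intro i _ hi
    exact hb (hi ▸ (e i).1.2)

lemma iteratedDeriv_ofReal {g : ℝ → ℝ} (hg : ContDiff ℝ (⊤ : ℕ∞) g) (j : ℕ) :
    iteratedDeriv j (fun t => ((g t : ℝ) : ℂ)) = fun t => ((iteratedDeriv j g t : ℝ) : ℂ) := by
  induction j with
  | zero => simp
  | succ j ih =>
    rw [iteratedDeriv_succ, ih]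
    funext t
    have hd : DifferentiableAt ℝ (iteratedDeriv j g) t :=
      (hg.differentiable_iteratedDeriv j (by exact_mod_cast WithTop.coe_lt_top _)) t
    rw [iteratedDeriv_succ]
    exact hd.hasDerivAt.ofReal_comp.deriv

lemma vanAt_ofReal {g : ℝ → ℝ} (hg : ContDiff ℝ (⊤ : ℕ∞) g) (q : ℕ) (t : ℝ) :
    VanAt (fun t => ((g t : ℝ) : ℂ)) q t ↔ Van g t q := by
  unfold VanAt Van
  simp only [iteratedDeriv_ofReal hg]
  exact ⟨fun h j hj => by exact_mod_cast h j hj, fun h j hj => by exact_mod_cast h j hj⟩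

lemma van_mono {g : ℝ → ℝ} {t : ℝ} {p q : ℕ} (h : Van g t q) (hpq : p ≤ q) : Van g t p :=
  fun j hj => h j (by omega)

lemma contDiff_dot {n : ℕ} {γ : ℝ → Fin n → ℝ} (hγ : ContDiff ℝ (⊤ : ℕ∞) γ) (c : Fin n → ℝ) :
    ContDiff ℝ (⊤ : ℕ∞) (fun u => c ⬝ᵥ γ u) :=
  contDiffOn_univ.mp (contDiffOn_dot c hγ.contDiffOn)

lemma extend (hHur : S_Hur) {n : ℕ} (hn : 0 < n) {γ : ℝ → Fin n → ℝ}
    (hγ : ContDiff ℝ (⊤ : ℕ∞) γ) {a b : ℝ} (h : Conv n (Icc a b) γ) :
    ∃ ε > 0, Conv n (Icc (a - ε) (b + ε)) γ := by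
  classical
  by_contra hcon
  push Not at hcon
  have hj : ∀ j : ℕ, ∃ (c : Fin n → ℝ) (z : Fin n → ℝ), ‖c‖ = 1 ∧
      (∀ i, z i ∈ Icc (a - 1 / ((j : ℝ) + 1)) (b + 1 / ((j : ℝ) + 1))) ∧
      ∀ β, Van (fun u => c ⬝ᵥ γ u) β (Finset.univ.filter fun i => z i = β).card := by
    intro j
    have h1 := hcon (1 / ((j : ℝ) + 1)) (by positivity)
    unfold Conv at h1
    push Not at h1
    obtain ⟨c, hc, s, μ, hs, hμ⟩ := h1
    obtain ⟨z, hz1, hz2⟩ := exists_tuple (show n ≤ ∑ t ∈ s, μ t by omega)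
    have hcn : ‖c‖ ≠ 0 := norm_ne_zero_iff.mpr hc
    refine ⟨‖c‖⁻¹ • c, z, ?_, fun i => (hs (z i) (hz1 i)).1, fun β => ?_⟩
    · rw [norm_smul, norm_inv, norm_norm, inv_mul_cancel₀ hcn]
    · have h2 : Van (fun u => c ⬝ᵥ γ u) β (Finset.univ.filter fun i => z i = β).card := by
        have h3 := hz2 β
        split_ifs at h3 with hβ
        · have h4 : Van (fun u => c ⬝ᵥ γ u) β (μ β) := fun j hj => (hs β hβ).2 j hj
          exact van_mono h4 h3
        · rw [Nat.le_zero.mp h3]; exact Van_zero _ _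
      intro r hr
      have h3 := h2 r hr
      rw [iteratedDeriv_dot hγ] at h3 ⊢
      simp only at h3 ⊢
      rw [smul_dotProduct, h3, smul_zero]
  choose c z hc hz hv using hj
  have hK : IsCompact (Metric.sphere (0 : Fin n → ℝ) 1 ×ˢ
      (Set.pi univ fun _ : Fin n => Icc (a - 1) (b + 1))) :=
    (isCompact_sphere _ _).prod (isCompact_univ_pi fun _ => isCompact_Icc)
  have hle : ∀ j : ℕ, 1 / ((j : ℝ) + 1) ≤ 1 := by
    intro j
    rw [div_le_one (by positivity)]
    have : (0 : ℝ) ≤ j := Nat.cast_nonneg j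
    linarith
  have hmem : ∀ j, (c j, z j) ∈ Metric.sphere (0 : Fin n → ℝ) 1 ×ˢ
      (Set.pi univ fun _ : Fin n => Icc (a - 1) (b + 1)) := by
    intro j
    refine ⟨by simpa using hc j, fun i _ => ?_⟩
    have h1 := hz j i
    have h2 := hle j
    exact ⟨by linarith [h1.1], by linarith [h1.2]⟩
  obtain ⟨p, hp, φ, hφ, hlim⟩ := hK.tendsto_subseq hmem
  have hl1 : Tendsto (fun j => c (φ j)) atTop (𝓝 p.1) := (continuous_fst.tendsto p).comp hlim
  have hl2 : Tendsto (fun j => z (φ j)) atTop (𝓝 p.2) := (continuous_snd.tendsto p).comp hlim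
  have hl3 : ∀ i, Tendsto (fun j => z (φ j) i) atTop (𝓝 (p.2 i)) := fun i =>
    ((continuous_apply i).tendsto p.2).comp hl2
  have hp0 : p.1 ≠ 0 := by
    have h1 := hp.1
    rw [mem_sphere_zero_iff_norm] at h1
    intro h0
    rw [h0, norm_zero] at h1
    exact zero_ne_one h1
  have hinv : Tendsto (fun j => 1 / (((φ j : ℕ) : ℝ) + 1)) atTop (𝓝 0) :=
    (tendsto_one_div_add_atTop_nhds_zero_nat (𝕜 := ℝ)).comp hφ.tendsto_atTop
  have hp2 : ∀ i, p.2 i ∈ Icc a b := by
    intro i
    constructor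
    · have h1 : Tendsto (fun j => a - 1 / (((φ j : ℕ) : ℝ) + 1)) atTop (𝓝 a) := by
        simpa using (tendsto_const_nhds (x := a)).sub hinv
      exact le_of_tendsto_of_tendsto' h1 (hl3 i) fun j => (hz (φ j) i).1
    · have h1 : Tendsto (fun j => b + 1 / (((φ j : ℕ) : ℝ) + 1)) atTop (𝓝 b) := by
        simpa using (tendsto_const_nhds (x := b)).add hinv
      exact le_of_tendsto_of_tendsto' (hl3 i) h1 fun j => (hz (φ j) i).2
  have hvan : ∀ β, Van (fun u => p.1 ⬝ᵥ γ u) β (Finset.univ.filter fun i => p.2 i = β).card := by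
    intro β
    set S := Finset.univ.filter fun i => p.2 i = β with hS
    let ι : Fin S.card ≃ S := S.equivFin.symm
    have hHβ := hHur (fun j t => ((c (φ j) ⬝ᵥ γ t : ℝ) : ℂ)) (fun t => ((p.1 ⬝ᵥ γ t : ℝ) : ℂ)) β
      S.card (fun j i => z (φ j) (ι i))
      (fun j => Complex.ofRealCLM.contDiff.comp (contDiff_dot hγ _))
      (Complex.ofRealCLM.contDiff.comp (contDiff_dot hγ _)) ?_ ?_ ?_
    · exact (vanAt_ofReal (contDiff_dot hγ _) _ _).mp hHβ
    · intro l
      simp only [iteratedDeriv_ofReal (contDiff_dot hγ _), iteratedDeriv_dot hγ]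
      have hcl : Continuous (iteratedDeriv l γ) :=
        hγ.continuous_iteratedDeriv l (by exact_mod_cast le_top)
      have hF : Continuous (fun x : (Fin n → ℝ) × (Icc (β - 1) (β + 1)) =>
          ((x.1 ⬝ᵥ iteratedDeriv l γ x.2 : ℝ) : ℂ)) := by
        refine Complex.continuous_ofReal.comp ?_
        simp only [dotProduct]
        refine continuous_finsetSum _ fun i _ => ?_
        exact ((continuous_apply i).comp continuous_fst).mul
          ((continuous_apply i).comp (hcl.comp (continuous_subtype_val.comp continuous_snd)))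
      have hU := Continuous.tendstoUniformly (fun (x : Fin n → ℝ) (y : Icc (β - 1) (β + 1)) =>
          ((x ⬝ᵥ iteratedDeriv l γ y : ℝ) : ℂ)) hF p.1
      rw [tendstoUniformlyOn_iff_tendstoUniformly_comp_coe]
      intro u hu
      exact hl1.eventually (hU u hu)
    · intro i
      have h1 := hl3 (ι i)
      have h2 : p.2 (ι i) = β := by
        exact (Finset.mem_filter.mp (ι i).2).2
      rw [h2] at h1
      exact h1
    · intro j b'
      rw [vanAt_ofReal (contDiff_dot hγ _)]
      refine van_mono (hv (φ j) b') ?_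
      refine Finset.card_le_card_of_injOn (fun i => ((ι i : S) : Fin n)) ?_ ?_
      · intro i hi
        simpa using hi
      · intro x _ y _ hxy
        simp only at hxy
        exact ι.injective (Subtype.ext hxy)
  have hfin := h p.1 hp0 (Finset.univ.image p.2) (fun β => (Finset.univ.filter fun i => p.2 i = β).card)
    (by
      intro t ht
      rw [Finset.mem_image] at ht
      obtain ⟨i, _, rfl⟩ := ht
      exact ⟨hp2 i, fun j hj => hvan (p.2 i) j hj⟩)
  rw [← Finset.card_eq_sum_card_image, Finset.card_univ, Fintype.card_fin] at hfin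
  omega

/-! ## Part B: the Polya frame of a convex curve, smooth positive weights -/

structure Frame {n : ℕ} (I : Set ℝ) (γ : ℝ → Fin n → ℝ) (b : ℕ → ℝ → (Fin n → ℝ)) (w : ℕ → ℝ → ℝ)
    (u0 : ℝ → ℝ) : Prop where
  u0s : ContDiffOn ℝ (⊤ : ℕ∞) u0 I
  u0n : ∀ t ∈ I, u0 t ≠ 0
  g0 : ∀ t ∈ I, γ t = u0 t • b 0 t
  ws : ∀ i, i + 1 < n → ContDiffOn ℝ (⊤ : ℕ∞) (w i) I
  wp : ∀ i, i + 1 < n → ∀ t ∈ I, 0 < w i t
  bs : ∀ i, i < n → ContDiffOn ℝ (⊤ : ℕ∞) (b i) I
  bd : ∀ i, i + 1 < n → ∀ t ∈ I, HasDerivAt (b i) (w i t • b (i + 1) t) t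
  bl : ∀ t ∈ I, HasDerivAt (b (n - 1)) 0 t
  bn : ∀ t ∈ I, ∀ c : Fin n → ℝ, (∀ j < n, c ⬝ᵥ b j t = 0) → c = 0

lemma exists_frame {n : ℕ} {γ : ℝ → (Fin n → ℝ)} {α β : ℝ} (h : Conv n (Icc α β) γ) (hn : 0 < n)
    (hγ : ContDiff ℝ (⊤ : ℕ∞) γ) (hlt : α < β) :
    ∃ (b : ℕ → ℝ → (Fin n → ℝ)) (w : ℕ → ℝ → ℝ) (u0 : ℝ → ℝ), Frame (Ioo α β) γ b w u0 := by
  classical
  have hβ : β ∈ Icc α β := ⟨hlt.le, le_rfl⟩
  obtain ⟨a, ha, hind, hspan⟩ := exists_dual h hn hγ hβ
  have hαsub : Ioo α β ⊆ fU γ a (n - 1) := fun t ht =>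
    fU_mem h hn hγ hβ ha hind ⟨ht.1.le, ht.2.le⟩ ht.2
  set t₀ : ℝ := (α + β) / 2 with ht₀
  have ht₀I : t₀ ∈ Ioo α β := ⟨by rw [ht₀]; linarith, by rw [ht₀]; linarith⟩
  let σ : ℕ → ℝ := fun i => if 0 < fw γ a i t₀ then 1 else -1
  have hσ : ∀ i, σ i * σ i = 1 := by
    intro i; by_cases h' : 0 < fw γ a i t₀ <;> simp [σ, h']
  let τ : ℕ → ℝ := fun i => ∏ l ∈ Finset.range i, σ l
  have hτs : ∀ i, τ (i + 1) = τ i * σ i := fun i => Finset.prod_range_succ _ _
  have hτ : ∀ i, τ i ≠ 0 := by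
    intro i
    apply Finset.prod_ne_zero_iff.mpr
    intro l _ h'
    have := hσ l
    rw [h'] at this
    simp at this
  have hws : ∀ i, i < n - 1 → ContDiffOn ℝ (⊤ : ℕ∞) (fw γ a i) (Ioo α β) := by
    intro i hi
    obtain ⟨hop, hsm, -, -⟩ := frame_props γ hγ a i
    have hd : ContDiffOn ℝ (⊤ : ℕ∞) (deriv (fr γ a i)) (fU γ a i) :=
      hsm.deriv_of_isOpen hop (by simp)
    have hw : ContDiffOn ℝ (⊤ : ℕ∞) (fw γ a i) (fU γ a i) := contDiffOn_dot _ hd
    exact hw.mono (hαsub.trans (fU_anti γ a (by omega)))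
  have hwc : ∀ i, i < n - 1 → ContinuousOn (fw γ a i) (Ioo α β) := fun i hi =>
    (hws i hi).continuousOn
  have hwne : ∀ i, i < n - 1 → ∀ t ∈ Ioo α β, fw γ a i t ≠ 0 := fun i hi t ht =>
    (hαsub ht).2 i hi
  have habs : ∀ i, i < n - 1 → ∀ t ∈ Ioo α β, |fw γ a i t| = σ i * fw γ a i t := by
    intro i hi t ht
    have hoc : (fw γ a i '' Ioo α β).OrdConnected :=
      (isPreconnected_Ioo.image _ (hwc i hi)).ordConnected
    have hnz : (0 : ℝ) ∉ fw γ a i '' Ioo α β := by
      rintro ⟨u, hu, hu0⟩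
      exact hwne i hi u hu hu0
    have m1 : fw γ a i t ∈ fw γ a i '' Ioo α β := ⟨t, ht, rfl⟩
    have m2 : fw γ a i t₀ ∈ fw γ a i '' Ioo α β := ⟨t₀, ht₀I, rfl⟩
    by_cases h' : 0 < fw γ a i t₀
    · have : 0 < fw γ a i t := by
        by_contra hneg
        push Not at hneg
        exact hnz (hoc.out m1 m2 ⟨hneg, h'.le⟩)
      simp only [σ, h', if_true, one_mul]
      exact abs_of_pos this
    · have : fw γ a i t < 0 := by
        by_contra hneg
        push Not at hneg h'
        exact hnz (hoc.out m2 m1 ⟨h', hneg⟩)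
      simp only [σ, h', if_false, neg_mul, one_mul]
      exact abs_of_neg this
  have hsub : ∀ i, i < n → Ioo α β ⊆ fU γ a i := fun i hi => hαsub.trans (fU_anti γ a (by omega))
  have hop0 := (frame_props γ hγ a 0)
  refine ⟨fun i t => τ i • fr γ a i t, fun i t => σ i * fw γ a i t, fun t => a 0 ⬝ᵥ γ t,
    ?_, ?_, ?_, ?_, ?_, ?_, ?_, ?_, ?_⟩
  · exact contDiffOn_dot _ hγ.contDiffOn
  · intro t ht
    exact (hαsub ht).1
  · intro t ht
    have h0 : a 0 ⬝ᵥ γ t ≠ 0 := (hαsub ht).1
    have hτ0 : τ 0 = 1 := by simp [τ]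
    simp only [hτ0, fr, smul_smul]
    rw [one_mul, mul_inv_cancel₀ h0, one_smul]
  · intro i hi
    exact contDiffOn_const.mul (hws i (by omega))
  · intro i hi t ht
    rw [← habs i (by omega) t ht]
    exact abs_pos.mpr (hwne i (by omega) t ht)
  · intro i hi
    obtain ⟨hop, hsm, -, -⟩ := frame_props γ hγ a i
    exact (contDiffOn_const (c := τ i)).smul (hsm.mono (hsub i hi))
  · intro i hi t ht
    have hi' : i < n - 1 := by omega
    obtain ⟨hop, hsm, -, -⟩ := frame_props γ hγ a i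
    have hti : t ∈ fU γ a i := hsub i (by omega) ht
    have hdiff : DifferentiableAt ℝ (fr γ a i) t :=
      (hsm.contDiffAt (hop.mem_nhds hti)).differentiableAt (by simp)
    have h1 := hdiff.hasDerivAt.const_smul (τ i)
    refine h1.congr_deriv ?_
    have hne := hwne i hi' t ht
    have h2 : fr γ a (i + 1) t = (fw γ a i t)⁻¹ • deriv (fr γ a i) t := rfl
    simp only [hτs, h2, smul_smul]
    congr 1
    have h3 : σ i * fw γ a i t * (τ i * σ i * (fw γ a i t)⁻¹)
          = (σ i * σ i) * (fw γ a i t * (fw γ a i t)⁻¹) * τ i := by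
      ring
    rw [h3, hσ, mul_inv_cancel₀ hne]
    ring
  · intro t ht
    obtain ⟨hop, hsm, hdual, -⟩ := frame_props γ hγ a (n - 1)
    have hti : t ∈ fU γ a (n - 1) := hαsub ht
    have hdiff : DifferentiableAt ℝ (fr γ a (n - 1)) t :=
      (hsm.contDiffAt (hop.mem_nhds hti)).differentiableAt (by simp)
    have hd0 : deriv (fr γ a (n - 1)) t = 0 := by
      -- every functional kills it
      have hk : ∀ c : Fin n → ℝ, c ⬝ᵥ deriv (fr γ a (n - 1)) t = 0 := by
        intro c
        obtain ⟨κ, hκ⟩ := hspan c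
        have hcst : ∀ u ∈ fU γ a (n - 1), c ⬝ᵥ fr γ a (n - 1) u = κ (n - 1) := by
          intro u hu
          rw [hκ, sum_dotProduct, Finset.sum_eq_single (n - 1)]
          · rw [smul_dotProduct, hdual _ le_rfl u hu]; simp
          · intro l hl hne
            rw [Finset.mem_range] at hl
            rw [smul_dotProduct, hdual l (by omega) u hu, if_neg hne, smul_zero]
          · intro h'; exact absurd (Finset.mem_range.mpr (by omega)) h'
        have he : (fun u => c ⬝ᵥ fr γ a (n - 1) u) =ᶠ[𝓝 t] fun _ => κ (n - 1) := by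
          filter_upwards [hop.mem_nhds hti] with u hu
          exact hcst u hu
        rw [← (deriv_dot c hdiff).deriv, he.deriv_eq, deriv_const]
      have := hk (deriv (fr γ a (n - 1)) t)
      rwa [dotProduct_self_eq_zero] at this
    have h1 := hdiff.hasDerivAt.const_smul (τ (n - 1))
    refine h1.congr_deriv ?_
    rw [hd0, smul_zero]
  · intro t ht c hc
    obtain ⟨κ, hκ⟩ := hspan c
    have hall : ∀ d, d ≤ n → ∀ j, n - d ≤ j → j < n → κ j = 0 := by
      intro d
      induction d with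
      | zero => intro _ j h1 h2; omega
      | succ d ih =>
        intro hd j h1 h2
        rcases Nat.lt_or_ge j (n - d) with h3 | h3
        · have hj : j = n - (d + 1) := by omega
          obtain ⟨-, -, hdual, -⟩ := frame_props γ hγ a j
          have htj : t ∈ fU γ a j := fU_anti γ a (by omega) (hαsub ht)
          have h4 := hc j h2
          simp only [dotProduct_smul, smul_eq_mul] at h4
          have h5 : c ⬝ᵥ fr γ a j t = 0 := by
            rcases mul_eq_zero.mp h4 with h6 | h6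
            · exact absurd h6 (hτ j)
            · exact h6
          rw [hκ, sum_dotProduct, Finset.sum_eq_single j] at h5
          · rw [smul_dotProduct, hdual _ le_rfl t htj] at h5
            simpa using h5
          · intro l hl hne
            rw [Finset.mem_range] at hl
            rcases Nat.lt_or_gt_of_ne hne with h7 | h7
            · rw [smul_dotProduct, hdual l h7.le t htj, if_neg hne, smul_zero]
            · rw [ih (by omega) l (by omega) hl, zero_smul, zero_dotProduct]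
          · intro h'; exact absurd (Finset.mem_range.mpr h2) h'
        · exact ih (by omega) j h3 h2
    rw [hκ]
    apply Finset.sum_eq_zero
    intro j hj
    rw [Finset.mem_range] at hj
    rw [hall n le_rfl j (by omega) hj, zero_smul]

/-! ## the cut off weights -/

lemma exists_cutoff {n : ℕ} {a0 b0 ε : ℝ} (hab : a0 ≤ b0) (hε : 0 < ε) {w : ℕ → ℝ → ℝ}
    (ws : ∀ i, i + 1 < n → ContDiffOn ℝ (⊤ : ℕ∞) (w i) (Ioo (a0 - ε) (b0 + ε)))
    (wp : ∀ i, i + 1 < n → ∀ t ∈ Ioo (a0 - ε) (b0 + ε), 0 < w i t) :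
    ∃ (w' : ℕ → ℝ → ℝ) (T : ℝ), Wt w' T ∧
      ∀ i, i + 1 < n → ∀ t ∈ Ioo (a0 - ε / 3) (b0 + ε / 3), w' i t = w i t := by
  classical
  set c : ℝ := (a0 + b0) / 2 with hc
  let χ : ContDiffBump c := ⟨(b0 - a0) / 2 + ε / 3, (b0 - a0) / 2 + 2 * ε / 3, by linarith, by linarith⟩
  have hts : tsupport χ ⊆ Ioo (a0 - ε) (b0 + ε) := by
    rw [χ.tsupport_eq]
    intro t ht
    rw [Metric.mem_closedBall, Real.dist_eq, abs_le] at ht
    have h1 : χ.rOut = (b0 - a0) / 2 + 2 * ε / 3 := rfl
    rw [h1] at ht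
    constructor
    · rw [hc] at ht; linarith [ht.1]
    · rw [hc] at ht; linarith [ht.2]
  have hχ1 : ∀ t ∈ Ioo (a0 - ε / 3) (b0 + ε / 3), χ t = 1 := by
    intro t ht
    apply χ.one_of_mem_closedBall
    rw [Metric.mem_closedBall, Real.dist_eq, abs_le]
    have h1 : χ.rIn = (b0 - a0) / 2 + ε / 3 := rfl
    rw [h1, hc]
    constructor
    · linarith [ht.1]
    · linarith [ht.2]
  have hχ0 : ∀ t, t ∉ Ioo (a0 - ε) (b0 + ε) → χ t = 0 := by
    intro t ht
    exact image_eq_zero_of_notMem_tsupport fun h => ht (hts h)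
  refine ⟨fun i t => if i + 1 < n then 1 + χ t * (w i t - 1) else 1, |a0| + |b0| + ε + 1,
    ⟨by positivity, ?_, ?_, ?_⟩, ?_⟩
  · intro i
    by_cases hi : i + 1 < n
    · simp only [hi, if_true]
      refine contDiff_const.add ?_
      rw [contDiff_iff_contDiffAt]
      intro t
      by_cases ht : t ∈ Ioo (a0 - ε) (b0 + ε)
      · exact χ.contDiff.contDiffAt.mul
          (((ws i hi).contDiffAt (isOpen_Ioo.mem_nhds ht)).sub contDiffAt_const)
      · have h1 : (χ : ℝ → ℝ) =ᶠ[𝓝 t] 0 := notMem_tsupport_iff_eventuallyEq.mp fun h => ht (hts h)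
        refine (contDiffAt_const (c := (0 : ℝ))).congr_of_eventuallyEq ?_
        filter_upwards [h1] with u hu
        rw [hu]; simp
    · simp only [hi, if_false]; exact contDiff_const
  · intro i t
    by_cases hi : i + 1 < n
    · simp only [hi, if_true]
      by_cases ht : t ∈ Ioo (a0 - ε) (b0 + ε)
      · have h1 := wp i hi t ht
        have h2 : 0 ≤ χ t := χ.nonneg
        have h3 : χ t ≤ 1 := χ.le_one
        rcases h2.eq_or_lt with h4 | h4
        · rw [← h4]; simp
        · nlinarith [mul_pos h4 h1]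
      · rw [hχ0 t ht]; simp
    · simp only [hi, if_false]; exact one_pos
  · intro i t ht
    have ht' : t ∉ Ioo (a0 - ε) (b0 + ε) := by
      intro h'
      have h1 : |t| < |a0| + |b0| + ε + 1 := by
        rw [abs_lt]
        constructor
        · have := neg_abs_le a0
          have := abs_nonneg b0
          linarith [h'.1]
        · have := le_abs_self b0
          have := abs_nonneg a0
          linarith [h'.2]
      linarith
    simp only [hχ0 t ht', zero_mul, add_zero, ite_self]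
  · intro i hi t ht
    simp only [hi, if_true]
    rw [hχ1 t ht]; ring

/-- the frame is the fundamental matrix times a constant -/
lemma frame_eq {n : ℕ} {α β : ℝ} {γ : ℝ → Fin n → ℝ} {b : ℕ → ℝ → (Fin n → ℝ)} {w w' : ℕ → ℝ → ℝ}
    {u0 : ℝ → ℝ} {T : ℝ} (F : Frame (Ioo α β) γ b w u0) (hw : Wt w' T)
    (hww : ∀ i, i + 1 < n → ∀ t ∈ Ioo α β, w' i t = w i t) {t1 : ℝ} (ht1 : t1 ∈ Ioo α β)
    {C : Matrix (Fin n) (Fin n) ℝ}
    (hC : ∀ i : Fin n, ∀ l, b i t1 l = ∑ j : Fin n, ge w' i j t1 * C j l) :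
    ∀ i, i < n → ∀ t ∈ Ioo α β, ∀ l, b i t l = ∑ j : Fin n, ge w' i j t * C j l := by
  have key : ∀ d i, i < n → n - i = d + 1 → ∀ t ∈ Ioo α β, ∀ l,
      b i t l = ∑ j : Fin n, ge w' i j t * C j l := by
    intro d
    induction d with
    | zero =>
      intro i hi hd t ht l
      obtain rfl : i = n - 1 := by omega
      have hder : ∀ s ∈ Ioo α β, HasDerivAt
          (fun t => b (n - 1) t l - ∑ j : Fin n, ge w' (n - 1) j t * C j l) 0 s := by
        intro s hs
        have h1 := (hasDerivAt_pi.mp (F.bl s hs)) l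
        have h2 : HasDerivAt (fun t => ∑ j : Fin n, ge w' (n - 1) j t * C j l)
            (∑ j : Fin n, (w' (n - 1) s * ge w' (n - 1 + 1) j s) * C j l) s :=
          HasDerivAt.fun_sum fun j _ => (hasDerivAt_ge hw (n - 1) j s).mul_const _
        have h3 : ∑ j : Fin n, (w' (n - 1) s * ge w' (n - 1 + 1) j s) * C j l = 0 := by
          apply Finset.sum_eq_zero
          intro j _
          rw [ge_of_lt w' (show (j : ℕ) < n - 1 + 1 by omega)]; ring
        rw [h3] at h2
        refine (h1.fun_sub h2).congr_deriv ?_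
        simp
      have h0 : b (n - 1) t l - ∑ j : Fin n, ge w' (n - 1) j t * C j l =
          b (n - 1) t1 l - ∑ j : Fin n, ge w' (n - 1) j t1 * C j l :=
        const_of_deriv_zero hder ht ht1
      have h1 : b (n - 1) t1 l = ∑ j : Fin n, ge w' (n - 1) j t1 * C j l := hC ⟨n - 1, by omega⟩ l
      linarith
    | succ d ih =>
      intro i hi hd t ht l
      have hder : ∀ s ∈ Ioo α β, HasDerivAt
          (fun t => b i t l - ∑ j : Fin n, ge w' i j t * C j l) 0 s := by
        intro s hs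
        have h1 := (hasDerivAt_pi.mp (F.bd i (by omega) s hs)) l
        have h2 : HasDerivAt (fun t => ∑ j : Fin n, ge w' i j t * C j l)
            (∑ j : Fin n, (w' i s * ge w' (i + 1) j s) * C j l) s :=
          HasDerivAt.fun_sum fun j _ => (hasDerivAt_ge hw i j s).mul_const _
        refine (h1.fun_sub h2).congr_deriv ?_
        rw [Pi.smul_apply, ih (i + 1) (by omega) (by omega) s hs l, hww i (by omega) s hs,
          smul_eq_mul, Finset.mul_sum, sub_eq_zero]
        refine Finset.sum_congr rfl fun j _ => ?_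
        ring
      have h0 : b i t l - ∑ j : Fin n, ge w' i j t * C j l =
          b i t1 l - ∑ j : Fin n, ge w' i j t1 * C j l :=
        const_of_deriv_zero hder ht ht1
      have h1 : b i t1 l = ∑ j : Fin n, ge w' i j t1 * C j l := hC ⟨i, hi⟩ l
      linarith
  intro i hi t ht l
  exact key (n - i - 1) i hi (by omega) t ht l

/-! ## Part C: algebra -/

lemma det_mul_zero {k n : ℕ} {𝕜 : Type*} [Field 𝕜] (Y : Matrix (Fin k) (Fin n) 𝕜)
    (X : Matrix (Fin n) (Fin k) 𝕜) (h : ∀ I : Fin k → Fin n, (X.submatrix I id).det = 0) :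
    (Y * X).det = 0 := by
  classical
  have h1 : (Y * X).det = Matrix.detRowAlternating (fun i => ∑ j, Y i j • X j) := by
    show Matrix.detRowAlternating (Y * X) = _
    congr 1
    funext i
    ext l
    simp [Matrix.mul_apply]
  rw [h1]
  have h2 := MultilinearMap.map_sum (Matrix.detRowAlternating (n := Fin k) (R := 𝕜)).toMultilinearMap
    (fun i j => Y i j • X j)
  have h3 : ∀ r : Fin k → Fin n, (Matrix.detRowAlternating (n := Fin k) (R := 𝕜)).toMultilinearMap
      (fun i => Y i (r i) • X (r i)) = 0 := by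
    intro r
    rw [MultilinearMap.map_smul_univ]
    have : (Matrix.detRowAlternating (n := Fin k) (R := 𝕜)).toMultilinearMap (fun i => X (r i)) =
        (X.submatrix r id).det := rfl
    rw [this, h r, smul_zero]
  exact h2.trans (Finset.sum_eq_zero fun r _ => h3 r)

lemma full_of_mul {k n : ℕ} {𝕜 : Type*} [Field 𝕜] {Y : Matrix (Fin k) (Fin n) 𝕜}
    {X : Matrix (Fin n) (Fin k) 𝕜} (h : (Y * X).det ≠ 0) : Full X := by
  by_contra hcon
  unfold Full at hcon
  push Not at hcon
  exact h (det_mul_zero Y X hcon)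

lemma sum_le_top (N : ℕ) : ∀ (c : ℕ) (s : Finset ℕ), s.card = c → (∀ x ∈ s, x < N) → c ≤ N →
    ∑ x ∈ s, x ≤ ∑ i ∈ Finset.range c, (N - c + i) := by
  induction N with
  | zero =>
    intro c s hs hx hc
    have : c = 0 := by omega
    subst this
    rw [Finset.card_eq_zero] at hs
    subst hs
    simp
  | succ N ih =>
    intro c s hs hx hc
    by_cases hN : N ∈ s
    · have h1 := ih (c - 1) (s.erase N) (by rw [Finset.card_erase_of_mem hN, hs]) (by
        intro x hx'
        rw [Finset.mem_erase] at hx'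
        have := hx x hx'.2
        omega) (by omega)
      have hc1 : 1 ≤ c := by
        rw [← hs]; exact Finset.card_pos.mpr ⟨N, hN⟩
      obtain ⟨c', rfl⟩ : ∃ c', c = c' + 1 := ⟨c - 1, by omega⟩
      rw [← Finset.add_sum_erase s _ hN, Finset.sum_range_succ]
      simp only [Nat.add_sub_cancel] at h1
      have h2 : ∀ i, N + 1 - (c' + 1) + i = N - c' + i := fun i => by omega
      simp only [h2]
      omega
    · rcases Nat.lt_or_ge N c with h | h
      · exfalso
        have h1 : s ⊆ Finset.range N := by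
          intro x hx'
          rw [Finset.mem_range]
          have h3 := hx x hx'
          have h4 : x ≠ N := fun e => hN (e ▸ hx')
          omega
        have h2 := Finset.card_le_card h1
        rw [hs, Finset.card_range] at h2
        omega
      · have h1 := ih c s hs (by
          intro x hx'
          have h3 := hx x hx'
          have h4 : x ≠ N := fun e => hN (e ▸ hx')
          omega) h
        refine h1.trans (Finset.sum_le_sum fun i _ => ?_)
        omega

lemma vanInf_zero {m k : ℕ} {𝕜 : Type*} [Field 𝕜] (X : Matrix (Fin (m + k)) (Fin k) 𝕜) :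
    VanInf 0 X := by
  intro I hI
  have hni : ¬ Function.Injective I := by
    intro hinj
    have hinj' : Function.Injective (fun i => (I i : ℕ)) := fun x y h => hinj (Fin.ext h)
    have h1 := sum_le_top (m + k) k (Finset.univ.image (fun i => (I i : ℕ)))
      (by rw [Finset.card_image_of_injective _ hinj']; simp)
      (by
        intro x hx
        rw [Finset.mem_image] at hx
        obtain ⟨i, _, rfl⟩ := hx
        exact (I i).2) (by omega)
    rw [Finset.sum_image (fun x _ y _ h => hinj' h), Finset.sum_range] at h1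
    omega
  unfold Function.Injective at hni
  push Not at hni
  obtain ⟨i, j, hij, hne⟩ := hni
  refine Matrix.det_zero_of_row_eq hne ?_
  funext l
  simp [hij]

lemma exists_annihilator {m k : ℕ} {ℓ : Fin m → Fin (m + k) → ℝ} (hℓ : LinearIndependent ℝ ℓ) :
    ∃ (X : Matrix (Fin (m + k)) (Fin k) ℝ) (Y : Matrix (Fin (m + k)) (Fin m) ℝ)
      (Y' : Matrix (Fin k) (Fin (m + k)) ℝ),
      Matrix.of ℓ * X = 0 ∧ Matrix.of ℓ * Y = 1 ∧ Y' * X = 1 := by
  classical
  let f : (Fin (m + k) → ℝ) →ₗ[ℝ] (Fin m → ℝ) := (Matrix.of ℓ).mulVecLin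
  have hrank : (Matrix.of ℓ).rank = m := by
    have := LinearIndependent.rank_matrix (M := Matrix.of ℓ) hℓ
    simpa using this
  have hsurj : LinearMap.range f = ⊤ := by
    apply Submodule.eq_top_of_finrank_eq
    have h1 : Module.finrank ℝ (LinearMap.range f) = (Matrix.of ℓ).rank := rfl
    rw [h1, hrank]
    simp
  have hker : Module.finrank ℝ (LinearMap.ker f) = k := by
    have h1 := LinearMap.finrank_range_add_finrank_ker f
    rw [hsurj] at h1
    simp at h1
    omega
  let bK : Module.Basis (Fin k) ℝ (LinearMap.ker f) := Module.finBasisOfFinrankEq ℝ _ hker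
  let g : (Fin k → ℝ) →ₗ[ℝ] (Fin (m + k) → ℝ) :=
    (LinearMap.ker f).subtype ∘ₗ bK.equivFun.symm.toLinearMap
  have hgker : LinearMap.ker g = ⊥ := by
    rw [LinearMap.ker_eq_bot]
    exact Subtype.val_injective.comp bK.equivFun.symm.injective
  obtain ⟨g', hg'⟩ := LinearMap.exists_leftInverse_of_injective g hgker
  obtain ⟨r, hr⟩ := LinearMap.exists_rightInverse_of_surjective f hsurj
  have hf : LinearMap.toMatrix' f = Matrix.of ℓ := LinearMap.toMatrix'_toLin' _
  refine ⟨LinearMap.toMatrix' g, LinearMap.toMatrix' r, LinearMap.toMatrix' g', ?_, ?_, ?_⟩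
  · rw [← hf, ← LinearMap.toMatrix'_comp]
    have : f ∘ₗ g = 0 := by
      ext1 i
      apply LinearMap.ext
      intro x
      simp only [g, LinearMap.comp_apply, Submodule.subtype_apply, LinearMap.zero_apply]
      exact LinearMap.mem_ker.mp (bK.equivFun.symm _).2
    rw [this]; simp
  · rw [← hf, ← LinearMap.toMatrix'_comp, hr, LinearMap.toMatrix'_id]
  · rw [← LinearMap.toMatrix'_comp, hg', LinearMap.toMatrix'_id]

lemma det_key {m k : ℕ} (σ : Fin (m + k) ≃ Fin k ⊕ Fin m) (A : Matrix (Fin k) (Fin (m + k)) ℝ)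
    (ℓ : Fin m → Fin (m + k) → ℝ) (X : Matrix (Fin (m + k)) (Fin k) ℝ)
    (Y : Matrix (Fin (m + k)) (Fin m) ℝ) (h1 : Matrix.of ℓ * X = 0) (h2 : Matrix.of ℓ * Y = 1) :
    (Matrix.of fun (i c : Fin (m + k)) => Sum.elim (fun a => A a) ℓ (σ c) i).det *
      ((Matrix.fromCols X Y).submatrix id σ).det = (A * X).det := by
  have e1 : (Matrix.of fun (i c : Fin (m + k)) => Sum.elim (fun a => A a) ℓ (σ c) i).det =
      ((Matrix.fromRows A (Matrix.of ℓ)).submatrix σ id).det := by
    rw [← Matrix.det_transpose]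
    have : (Matrix.of fun (i c : Fin (m + k)) => Sum.elim (fun a => A a) ℓ (σ c) i)ᵀ =
        (Matrix.fromRows A (Matrix.of ℓ)).submatrix σ id := by
      ext c i
      simp only [Matrix.transpose_apply, Matrix.of_apply, Matrix.submatrix_apply, id]
      rcases σ c with a | b <;> rfl
    rw [this]
  rw [e1, ← Matrix.det_mul]
  have e2 : (Matrix.fromRows A (Matrix.of ℓ)).submatrix σ id * (Matrix.fromCols X Y).submatrix id σ =
      (Matrix.fromRows A (Matrix.of ℓ) * Matrix.fromCols X Y).submatrix σ σ := by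
    rw [Matrix.submatrix_mul _ _ σ id σ Function.bijective_id]
  rw [e2, Matrix.det_submatrix_equiv_self, Matrix.fromRows_mul_fromCols, h1, h2,
    Matrix.det_fromBlocks_zero₂₁, Matrix.det_one, mul_one]

/-! ### smoothness of `DR` -/

lemma contDiff_det {ι : Type*} [Fintype ι] [DecidableEq ι] {M : ℝ → Matrix ι ι ℝ}
    (hM : ∀ i j, ContDiff ℝ (⊤ : ℕ∞) (fun t => M t i j)) : ContDiff ℝ (⊤ : ℕ∞) (fun t => (M t).det) := by
  simp only [Matrix.det_apply]
  refine ContDiff.sum fun s _ => ?_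
  refine ContDiff.const_smul _ ?_
  exact contDiff_prod fun i _ => hM _ _

lemma contDiff_DR {v : ℕ → ℝ → ℝ} {T : ℝ} (hv : Wt v T) {n p : ℕ} (X : Matrix (Fin n) (Fin p) ℝ) :
    ContDiff ℝ (⊤ : ℕ∞) (DR v X) := by
  unfold DR
  refine contDiff_det fun i j => ?_
  simp only [Matrix.mul_apply, Gam, Matrix.of_apply]
  exact ContDiff.sum fun l _ => (contDiff_ge hv _ _).mul contDiff_const

lemma DC_toC (v : ℕ → ℝ → ℝ) {n p : ℕ} (X : Matrix (Fin n) (Fin p) ℝ) :
    DC v (toC X) = fun t => ((DR v X t : ℝ) : ℂ) := by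
  funext t
  unfold DC DR toC
  have h1 : (Gam v p n t).map (fun x : ℝ => (x : ℂ)) * X.map (fun x : ℝ => (x : ℂ)) =
      (Gam v p n t * X).map (fun x : ℝ => (x : ℂ)) := by
    ext i j
    simp [Matrix.mul_apply]
  rw [h1]
  exact (RingHom.map_det Complex.ofRealHom (Gam v p n t * X)).symm


/-! ## Part D: assembly -/

/-- coefficients of `γ^{(a)}` in the frame -/
noncomputable def LL (w : ℕ → ℝ → ℝ) (u0 : ℝ → ℝ) : ℕ → ℕ → ℝ → ℝ
  | 0, i => if i = 0 then u0 else 0
  | a + 1, i => fun t => deriv (LL w u0 a i) t +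
      (if i = 0 then 0 else LL w u0 a (i - 1) t * w (i - 1) t)

lemma LL_zero (w : ℕ → ℝ → ℝ) (u0 : ℝ → ℝ) : ∀ a i, a < i → LL w u0 a i = 0 := by
  intro a
  induction a with
  | zero => intro i hi; simp only [LL]; rw [if_neg (by omega)]
  | succ a ih =>
    intro i hi
    funext t
    simp only [LL]
    rw [ih i (by omega), ih (i - 1) (by omega)]
    simp

lemma LL_props {n : ℕ} {α β : ℝ} {γ : ℝ → Fin n → ℝ} {b : ℕ → ℝ → (Fin n → ℝ)} {w : ℕ → ℝ → ℝ}
    {u0 : ℝ → ℝ} (F : Frame (Ioo α β) γ b w u0) : ∀ a, a < n →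
    (∀ i, ContDiffOn ℝ (⊤ : ℕ∞) (LL w u0 a i) (Ioo α β)) ∧
    (∀ t ∈ Ioo α β, LL w u0 a a t ≠ 0) ∧
    (∀ t ∈ Ioo α β, iteratedDeriv a γ t = ∑ i ∈ Finset.range (a + 1), LL w u0 a i t • b i t) := by
  intro a
  induction a with
  | zero =>
    intro ha
    refine ⟨fun i => ?_, fun t ht => ?_, fun t ht => ?_⟩
    · simp only [LL]
      split_ifs
      · exact F.u0s
      · exact contDiffOn_const
    · simpa [LL] using F.u0n t ht
    · simpa [LL] using F.g0 t ht
  | succ a ih =>
    intro ha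
    obtain ⟨h1, h2, h3⟩ := ih (by omega)
    have hsm : ∀ i, ContDiffOn ℝ (⊤ : ℕ∞) (LL w u0 (a + 1) i) (Ioo α β) := by
      intro i
      by_cases hi : a + 1 < i
      · rw [LL_zero w u0 (a + 1) i hi]; exact contDiffOn_const
      · simp only [LL]
        refine ((h1 i).deriv_of_isOpen isOpen_Ioo (by simp)).add ?_
        by_cases hi0 : i = 0
        · simp only [hi0, if_true]; exact contDiffOn_const
        · simp only [hi0, if_false]
          exact (h1 (i - 1)).mul (F.ws (i - 1) (by omega))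
    refine ⟨hsm, fun t ht => ?_, fun t ht => ?_⟩
    · simp only [LL]
      rw [LL_zero w u0 a (a + 1) (by omega)]
      simp only [Nat.succ_ne_zero, if_false, Nat.add_sub_cancel]
      have h4 : deriv (0 : ℝ → ℝ) t = 0 := by
        have : (0 : ℝ → ℝ) = fun _ => 0 := rfl
        rw [this, deriv_const]
      rw [h4, zero_add]
      exact mul_ne_zero (h2 t ht) (F.wp a (by omega) t ht).ne'
    · rw [iteratedDeriv_succ]
      have he : iteratedDeriv a γ =ᶠ[𝓝 t]
          fun t => ∑ i ∈ Finset.range (a + 1), LL w u0 a i t • b i t := by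
        filter_upwards [isOpen_Ioo.mem_nhds ht] with u hu using h3 u hu
      rw [he.deriv_eq]
      have hder : HasDerivAt (fun t => ∑ i ∈ Finset.range (a + 1), LL w u0 a i t • b i t)
          (∑ i ∈ Finset.range (a + 1), (LL w u0 a i t • (w i t • b (i + 1) t) +
            deriv (LL w u0 a i) t • b i t)) t := by
        refine HasDerivAt.fun_sum fun i hi => ?_
        rw [Finset.mem_range] at hi
        have hd : DifferentiableAt ℝ (LL w u0 a i) t :=
          ((h1 i).contDiffAt (isOpen_Ioo.mem_nhds ht)).differentiableAt (by simp)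
        exact hd.hasDerivAt.smul (F.bd i (by omega) t ht)
      rw [hder.deriv]
      simp only [LL, add_smul]
      rw [Finset.sum_add_distrib, Finset.sum_add_distrib,
        Finset.sum_range_succ (fun i => deriv (LL w u0 a i) t • b i t) (a + 1),
        Finset.sum_range_succ' (fun i => (if i = 0 then 0 else LL w u0 a (i - 1) t * w (i - 1) t) • b i t)
          (a + 1)]
      rw [LL_zero w u0 a (a + 1) (by omega)]
      have h4 : deriv (0 : ℝ → ℝ) t = 0 := by
        have : (0 : ℝ → ℝ) = fun _ => 0 := rfl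
        rw [this, deriv_const]
      simp only [h4, zero_smul, add_zero, Nat.succ_ne_zero, if_false, if_true, Nat.add_sub_cancel,
        smul_smul]
      rw [add_comm]

lemma Frame.mono {n : ℕ} {I I' : Set ℝ} {γ : ℝ → Fin n → ℝ} {b : ℕ → ℝ → (Fin n → ℝ)}
    {w : ℕ → ℝ → ℝ} {u0 : ℝ → ℝ} (F : Frame I γ b w u0) (h : I' ⊆ I) : Frame I' γ b w u0 :=
  ⟨F.u0s.mono h, fun t ht => F.u0n t (h ht), fun t ht => F.g0 t (h ht),
    fun i hi => (F.ws i hi).mono h, fun i hi t ht => F.wp i hi t (h ht),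
    fun i hi => (F.bs i hi).mono h, fun i hi t ht => F.bd i hi t (h ht),
    fun t ht => F.bl t (h ht), fun t ht => F.bn t (h ht)⟩

lemma det_Gam_self (v : ℕ → ℝ → ℝ) (n : ℕ) (t : ℝ) : (Gam v n n t).det = 1 := by
  rw [Matrix.det_of_isUpperTriangular]
  · simp [Gam]
  · intro i j hij
    exact ge_of_lt v (show (j : ℕ) < i from hij) t

theorem top_main (hHur : S_Hur) {m k : ℕ}
    (hG : ∀ (w : ℕ → ℝ → ℝ) (T : ℝ), Wt w T → GProp w m k) (hk : 1 ≤ k)
    (σ : Fin (m + k) ≃ Fin k ⊕ Fin m) {J : Set ℝ} {γ : ℝ → (Fin (m + k) → ℝ)}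
    (hγ : ContDiff ℝ (⊤ : ℕ∞) γ) (hJ : J.OrdConnected) (hconv : Conv (m + k) J γ)
    {ℓ : Fin m → (Fin (m + k) → ℝ)} (hℓ : LinearIndependent ℝ ℓ) (s : Finset ℝ) (μ : ℝ → ℕ)
    (hs : ∀ t ∈ s, t ∈ J ∧ Van (fun u => (Matrix.of (fun (i c : Fin (m + k)) =>
      Sum.elim (fun a : Fin k => iteratedDeriv (a : ℕ) γ u) ℓ (σ c) i)).det) t (μ t)) :
    ∑ t ∈ s, μ t ≤ m * k := by
  classical
  rcases s.eq_empty_or_nonempty with hse | hse
  · subst hse; simp
  set a0 := s.min' hse with ha0
  set b0 := s.max' hse with hb0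
  have hab : a0 ≤ b0 := s.min'_le _ (s.max'_mem hse)
  have ha0J : a0 ∈ J := (hs _ (s.min'_mem hse)).1
  have hb0J : b0 ∈ J := (hs _ (s.max'_mem hse)).1
  have hsub : Icc a0 b0 ⊆ J := hJ.out ha0J hb0J
  have hc1 : Conv (m + k) (Icc a0 b0) γ := fun a ha s' μ' hs' =>
    hconv a ha s' μ' fun t ht => ⟨hsub (hs' t ht).1, (hs' t ht).2⟩
  obtain ⟨ε, hε, hc2⟩ := extend hHur (show 0 < m + k by omega) hγ hc1
  obtain ⟨b, w, u0, F⟩ := exists_frame hc2 (by omega) hγ (by linarith)
  obtain ⟨w', T, hw', hww⟩ := exists_cutoff hab hε F.ws F.wp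
  have hIsub : Ioo (a0 - ε / 3) (b0 + ε / 3) ⊆ Ioo (a0 - ε) (b0 + ε) := by
    intro t ht
    exact ⟨by linarith [ht.1], by linarith [ht.2]⟩
  have F' := F.mono hIsub
  have ha0I : a0 ∈ Ioo (a0 - ε / 3) (b0 + ε / 3) := ⟨by linarith, by linarith⟩
  -- the constant matrix
  let R : Matrix (Fin (m + k)) (Fin (m + k)) ℝ := Matrix.of fun i l => b i a0 l
  have hGd : (Gam w' (m + k) (m + k) a0).det = 1 := det_Gam_self w' (m + k) a0
  have hGu : IsUnit (Gam w' (m + k) (m + k) a0).det := by rw [hGd]; exact isUnit_one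
  have hRd : R.det ≠ 0 := by
    intro h0
    obtain ⟨v, hv, hv0⟩ := Matrix.exists_mulVec_eq_zero_iff.mpr h0
    apply hv
    apply F'.bn a0 ha0I v
    intro j hj
    have := congrFun hv0 ⟨j, hj⟩
    rw [dotProduct_comm]
    simpa [R, Matrix.mulVec, dotProduct] using this
  set C : Matrix (Fin (m + k)) (Fin (m + k)) ℝ := (Gam w' (m + k) (m + k) a0)⁻¹ * R with hCdef
  have hGC : Gam w' (m + k) (m + k) a0 * C = R := by
    rw [hCdef, ← Matrix.mul_assoc, Matrix.mul_nonsing_inv _ hGu, Matrix.one_mul]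
  have hCd : C.det ≠ 0 := by
    intro h0
    apply hRd
    rw [← hGC, Matrix.det_mul, h0, mul_zero]
  have hfe := frame_eq F' hw' hww ha0I (C := C) (by
    intro i l
    have := congrFun (congrFun hGC i) l
    rw [Matrix.mul_apply] at this
    simp only [Gam, Matrix.of_apply, R] at this
    exact this.symm)
  -- the plane
  obtain ⟨X, Y, Y', hX, hY, hY'⟩ := exists_annihilator hℓ
  have hCu : IsUnit C.det := isUnit_iff_ne_zero.mpr hCd
  have hFull : Full (toC (C * X)) := by
    have h1 : (Y' * C⁻¹) * (C * X) = 1 := by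
      rw [Matrix.mul_assoc, ← Matrix.mul_assoc C⁻¹, Matrix.nonsing_inv_mul _ hCu, Matrix.one_mul, hY']
    refine full_of_mul (Y := toC (Y' * C⁻¹)) ?_
    have h2 : toC (Y' * C⁻¹) * toC (C * X) = 1 := by
      have h3 : toC (Y' * C⁻¹) * toC (C * X) = toC ((Y' * C⁻¹) * (C * X)) := by
        unfold toC
        ext i j
        simp only [Matrix.mul_apply, Matrix.map_apply]
        push_cast
        rfl
      rw [h3, h1]
      unfold toC
      exact Matrix.map_one _ (by simp) (by simp)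
    rw [h2, Matrix.det_one]
    exact one_ne_zero
  -- comparison of the determinants
  have hcmp : ∀ t ∈ Ioo (a0 - ε / 3) (b0 + ε / 3),
      (Matrix.of (fun (i c : Fin (m + k)) =>
        Sum.elim (fun a : Fin k => iteratedDeriv (a : ℕ) γ t) ℓ (σ c) i)).det *
        ((Matrix.fromCols X Y).submatrix id σ).det =
      (∏ a : Fin k, LL w u0 a a t) * DR w' (C * X) t := by
    intro t ht
    rw [det_key σ (fun a : Fin k => iteratedDeriv (a : ℕ) γ t) ℓ X Y hX hY]
    have e1 : (Matrix.of fun a : Fin k => iteratedDeriv (a : ℕ) γ t) =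
        (Matrix.of fun (a i : Fin k) => LL w u0 a i t) * (Gam w' k (m + k) t * C) := by
      ext a l
      rw [Matrix.mul_apply]
      simp only [Matrix.of_apply]
      rw [(LL_props F' a (by omega)).2.2 t ht]
      have e2 : ∑ i ∈ Finset.range ((a : ℕ) + 1), LL w u0 a i t • b i t =
          ∑ i ∈ Finset.range k, LL w u0 a i t • b i t := by
        apply Finset.sum_subset
        · intro x hx
          rw [Finset.mem_range] at hx ⊢
          omega
        · intro x _ hx
          rw [Finset.mem_range] at hx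
          rw [LL_zero w u0 a x (by omega)]
          simp
      rw [e2, Finset.sum_range, Finset.sum_apply]
      refine Finset.sum_congr rfl fun i _ => ?_
      rw [Pi.smul_apply, smul_eq_mul, hfe i (by omega) t ht l, Matrix.mul_apply]
      rfl
    have e3 : (Matrix.of fun a : Fin k => iteratedDeriv (a : ℕ) γ t) * X =
        (Matrix.of fun (a i : Fin k) => LL w u0 a i t) * (Gam w' k (m + k) t * (C * X)) := by
      rw [e1, Matrix.mul_assoc, Matrix.mul_assoc]
    have e4 : (Matrix.of fun (a i : Fin k) => LL w u0 a i t).det = ∏ a : Fin k, LL w u0 a a t := by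
      rw [Matrix.det_of_isLowerTriangular]
      · rfl
      · intro i j hij
        show LL w u0 i j t = 0
        have hij' : (i : ℕ) < j := hij
        rw [LL_zero w u0 i j hij']
        rfl
    have e5 : ((Matrix.of fun a : Fin k => iteratedDeriv (a : ℕ) γ t) * X).det =
        (∏ a : Fin k, LL w u0 a a t) * DR w' (C * X) t := by
      rw [e3, Matrix.det_mul, e4]
      rfl
    exact e5
  have hfin := hG w' T hw' (toC (C * X)) hFull 0 (vanInf_zero _) s μ ?_
  · simpa using hfin
  · intro t ht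
    rw [DC_toC, vanAt_ofReal (contDiff_DR hw' _)]
    have htI : t ∈ Ioo (a0 - ε / 3) (b0 + ε / 3) := by
      have h1 := s.min'_le t ht
      have h2 := s.le_max' t ht
      rw [← ha0] at h1
      rw [← hb0] at h2
      exact ⟨by linarith, by linarith⟩
    have h1 := (hs t ht).2
    have h2 : Van (fun u => (Matrix.of (fun (i c : Fin (m + k)) =>
        Sum.elim (fun a : Fin k => iteratedDeriv (a : ℕ) γ u) ℓ (σ c) i)).det *
        ((Matrix.fromCols X Y).submatrix id σ).det) t (μ t) := by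
      intro j hj
      rw [iteratedDeriv_mul_const_field, h1 j hj, zero_mul]
    have h3 : Van ((fun u => ∏ a : Fin k, LL w u0 a a u) * DR w' (C * X)) t (μ t) := by
      refine h2.congr ?_
      filter_upwards [isOpen_Ioo.mem_nhds htI] with u hu
      exact hcmp u hu
    refine (Van_mul_iff ?_ (contDiff_DR hw' _).contDiffAt ?_).mp h3
    · refine ContDiffOn.contDiffAt ?_ (isOpen_Ioo.mem_nhds htI)
      exact contDiffOn_prod fun a _ => (LL_props F' a (by omega)).1 a
    · exact Finset.prod_ne_zero_iff.mpr fun a _ => (LL_props F' a (by omega)).2.1 t htI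

theorem top_gen (hHur : S_Hur) {m k n : ℕ} (hn : n = m + k)
    (hG : ∀ (w : ℕ → ℝ → ℝ) (T : ℝ), Wt w T → GProp w m k) (hk : 1 ≤ k)
    (σ : Fin n ≃ Fin k ⊕ Fin m) {J : Set ℝ} {γ : ℝ → (Fin n → ℝ)}
    (hγ : ContDiff ℝ (⊤ : ℕ∞) γ) (hJ : J.OrdConnected) (hconv : Conv n J γ)
    {ℓ : Fin m → (Fin n → ℝ)} (hℓ : LinearIndependent ℝ ℓ) (s : Finset ℝ) (μ : ℝ → ℕ)
    (hs : ∀ t ∈ s, t ∈ J ∧ Van (fun u => (Matrix.of (fun (i c : Fin n) =>
      Sum.elim (fun a : Fin k => iteratedDeriv (a : ℕ) γ u) ℓ (σ c) i)).det) t (μ t)) :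
    ∑ t ∈ s, μ t ≤ m * k := by
  subst hn
  exact top_main hHur hG hk σ hγ hJ hconv hℓ s μ hs

end Pool.Agent.GC18.Top

namespace Pool.Agent.GC18

open Pool.Agent.Lib_helper50.GCF

/-- par. 9 -/
theorem Top (hHur : S_Hur) : S_Top := by
  intro hG k m hk hm J γ hγ hJ _ hconv ℓ hℓ s μ hs
  rw [mul_comm k m]
  refine Top.top_gen hHur (Nat.add_comm k m) (fun w T hw => hG w T hw m k hm hk) hk
    finSumFinEquiv.symm hγ hJ hconv hℓ s μ ?_
  intro t ht
  refine ⟨(hs t ht).1, fun j hj => ?_⟩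
  have h1 := (hs t ht).2 j hj
  have h2 : (fun u => (Matrix.of (fun (i c : Fin (k + m)) =>
      Sum.elim (fun a : Fin k => iteratedDeriv (a : ℕ) γ u) ℓ (finSumFinEquiv.symm c) i)).det) =
      (fun u => (Matrix.of (fun i c =>
              Fin.append (fun a : Fin k => iteratedDeriv (a : ℕ) γ u) ℓ c i)).det) := by
    funext u
    congr 1
    ext i c
    simp only [Matrix.of_apply]
    refine Fin.addCases (fun a => ?_) (fun b => ?_) c
    · rw [Fin.append_left, finSumFinEquiv_symm_apply_castAdd]; rfl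
    · rw [Fin.append_right, finSumFinEquiv_symm_apply_natAdd]; rfl
  rw [h2]
  exact h1

end Pool.Agent.GC18
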